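import Pool.Agent.UAB.St

set_option autoImplicit false

/-!
# The bulk: union bound over a grid
-/

namespace Pool.Agent.UAB

namespace BLKaux

open Finset Filter Topology
open Pool.Agent.UAA (G ch nn)

variable {p d : ℕ}

/-- `f_y(a) = exp(i(y a + y(-a)))` -/
noncomputable def fy (y : ZMod p → ℝ) (a : ZMod p) : ℂ :=
  Complex.exp (Complex.I * ((y a + y (-a) : ℝ) : ℂ))

lemma EU_fy (y : ZMod p → ℝ) : EU (fy y) := by
  refine ⟨fun a => ?_, fun a => ?_⟩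
  · rw [fy, Complex.norm_exp_I_mul_ofReal]
  · rw [fy, fy, neg_neg, add_comm]

lemma sum_Dv [NeZero p] (y : ZMod p → ℝ) (A : Finset (G p d)) (x : G p d) :
    ∑ h ∈ A, (y (dt x h) + y (-dt x h)) = ∑ a, y a * Dv A x a := by
  classical
  rw [Finset.sum_add_distrib]
  have h1 : ∑ h ∈ A, y (dt x h) = ∑ a, y a * ((A.filter fun h => dt x h = a).card : ℝ) := by
    rw [← Finset.sum_fiberwise A (fun h => dt x h) (fun h => y (dt x h))]
    refine Finset.sum_congr rfl fun a _ => ?_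
    rw [Finset.sum_congr rfl (g := fun _ => y a) (fun h hh => by rw [(Finset.mem_filter.1 hh).2]),
      Finset.sum_const, nsmul_eq_mul, mul_comm]
  have h2 : ∑ h ∈ A, y (-dt x h) = ∑ a, y a * ((A.filter fun h => dt x h = -a).card : ℝ) := by
    rw [← Finset.sum_fiberwise A (fun h => -dt x h) (fun h => y (-dt x h))]
    refine Finset.sum_congr rfl fun a _ => ?_
    rw [Finset.sum_congr rfl (g := fun _ => y a) (fun h hh => by rw [(Finset.mem_filter.1 hh).2]),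
      Finset.sum_const, nsmul_eq_mul, mul_comm]
    congr 3
    ext h
    simp only [Finset.mem_filter]
    rw [neg_eq_iff_eq_neg]
  rw [h1, h2, ← Finset.sum_add_distrib]
  refine Finset.sum_congr rfl fun a _ => ?_
  rw [Dv, mul_add]

lemma wt_fy [NeZero p] (y : ZMod p → ℝ) (A : Finset (G p d)) (x : G p d) :
    wt (fy y) A x = Complex.exp (Complex.I * ((∑ a, y a * Dv A x a : ℝ) : ℂ)) := by
  unfold wt fy
  rw [← Complex.exp_sum, ← Finset.mul_sum, ← Complex.ofReal_sum, sum_Dv]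

/-- the exponents -/
noncomputable def lam (A : Finset (G p d)) (t : G p d × G p d × G p d) (a : ZMod p) : ℝ :=
  Dv A t.1 a + Dv A t.2.1 a - Dv A t.2.2 a - Dv A (t.1 + t.2.1 - t.2.2) a

lemma conj_exp (r : ℝ) : (starRingEnd ℂ) (Complex.exp (Complex.I * (r : ℂ)))
    = Complex.exp (-(Complex.I * (r : ℂ))) := by
  rw [← Complex.exp_conj]
  congr 1
  rw [map_mul, Complex.conj_I, Complex.conj_ofReal]
  ring

lemma q4_fy [NeZero p] (y : ZMod p → ℝ) (A : Finset (G p d)) (t : G p d × G p d × G p d) :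
    q4 (wt (fy y) A) t = Complex.exp (Complex.I * ((∑ a, y a * lam A t a : ℝ) : ℂ)) := by
  unfold q4
  rw [wt_fy, wt_fy, wt_fy, wt_fy, conj_exp, conj_exp, ← Complex.exp_add, ← Complex.exp_add,
    ← Complex.exp_add]
  congr 1
  have h : ∑ a, y a * lam A t a = ∑ a, y a * Dv A t.1 a + ∑ a, y a * Dv A t.2.1 a
      - ∑ a, y a * Dv A t.2.2 a - ∑ a, y a * Dv A (t.1 + t.2.1 - t.2.2) a := by
    rw [← Finset.sum_add_distrib, ← Finset.sum_sub_distrib, ← Finset.sum_sub_distrib]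
    refine Finset.sum_congr rfl fun a _ => ?_
    rw [lam]
    ring
  rw [h]
  push_cast
  ring

lemma lam_bound {τ : ℝ} {A : Finset (G p d)} (hA : Ty τ A) {t : G p d × G p d × G p d}
    (ht : Gq t) (a : ZMod p) : |lam A t a| ≤ 8 * nn p d ^ (1 / 2 + τ) := by
  have h1 := abs_le.1 (hA _ ht.1 a)
  have h2 := abs_le.1 (hA _ ht.2.1 a)
  have h3 := abs_le.1 (hA _ ht.2.2.1 a)
  have h4 := abs_le.1 (hA _ ht.2.2.2.1 a)
  rw [lam, abs_le]
  constructor <;> linarith [h1.1, h1.2, h2.1, h2.2, h3.1, h3.2, h4.1, h4.2]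

lemma card_G [NeZero p] : ((univ : Finset (G p d)).card : ℝ) = nn p d := by
  rw [Finset.card_univ, Fintype.card_fun, ZMod.card, Fintype.card_fin, nn]
  push_cast
  rfl

lemma one_le_nn [NeZero p] : 1 ≤ nn p d := by
  unfold nn
  exact one_le_pow₀ (by exact_mod_cast NeZero.one_le)

/-- the interpolation of `S4` -/
lemma interp [NeZero p] {K : ℕ} {C : ℝ}
    {ℓ : (ZMod p → ℝ) → (ZMod p → Fin (K + 1)) → ℝ} (hC : 0 ≤ C)
    (hℓ : ∀ t : ZMod p → ℝ, (∀ i, 0 ≤ t i ∧ t i ≤ 1) → ∀ (lam : ZMod p → ℝ) (η : ℝ), 0 ≤ η →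
      η ≤ 1 → (∀ i, |lam i| ≤ η) →
      ‖Complex.exp (Complex.I * ((∑ i, lam i * t i : ℝ) : ℂ)) -
        ∑ ν, (ℓ t ν : ℂ) *
          Complex.exp (Complex.I * ((∑ i, lam i * ((ν i : ℕ) : ℝ) : ℝ) : ℂ))‖ ≤ C * η ^ (K + 1))
    {τ : ℝ} {A : Finset (G p d)} (hA : Ty τ A) {ρ η : ℝ} (hρ : 0 < ρ) (hη : η ≤ 1)
    (hη' : ρ * (8 * nn p d ^ (1 / 2 + τ)) ≤ η) (m t : ZMod p → ℝ)
    (ht : ∀ i, 0 ≤ t i ∧ t i ≤ 1) :
    ‖S4 (wt (fy fun a => ρ * (m a + t a)) A) -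
      ∑ ν : ZMod p → Fin (K + 1), (ℓ t ν : ℂ) *
        S4 (wt (fy fun a => ρ * (m a + ((ν a : ℕ) : ℝ))) A)‖ ≤ nn p d ^ 3 * (C * η ^ (K + 1)) := by
  classical
  have hη0 : 0 ≤ η := by
    refine le_trans ?_ hη'
    have := one_le_nn (p := p) (d := d)
    positivity
  have e1 : ∑ ν : ZMod p → Fin (K + 1), (ℓ t ν : ℂ) *
        S4 (wt (fy fun a => ρ * (m a + ((ν a : ℕ) : ℝ))) A)
      = ∑ q ∈ (univ : Finset (G p d × G p d × G p d)).filter Gq,
        ∑ ν : ZMod p → Fin (K + 1), (ℓ t ν : ℂ) *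
          q4 (wt (fy fun a => ρ * (m a + ((ν a : ℕ) : ℝ))) A) q := by
    rw [Finset.sum_comm]
    refine Finset.sum_congr rfl fun ν _ => ?_
    rw [← Finset.mul_sum]
    unfold S4
    congr!
  have e2 : S4 (wt (fy fun a => ρ * (m a + t a)) A)
      = ∑ q ∈ (univ : Finset (G p d × G p d × G p d)).filter Gq,
        q4 (wt (fy fun a => ρ * (m a + t a)) A) q := by
    unfold S4
    congr!
  rw [e1, e2, ← Finset.sum_sub_distrib]
  have hterm : ∀ q ∈ (univ : Finset (G p d × G p d × G p d)).filter Gq,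
      ‖q4 (wt (fy fun a => ρ * (m a + t a)) A) q -
        ∑ ν : ZMod p → Fin (K + 1), (ℓ t ν : ℂ) *
          q4 (wt (fy fun a => ρ * (m a + ((ν a : ℕ) : ℝ))) A) q‖ ≤ C * η ^ (K + 1) := by
    intro q hq
    have hq' : Gq q := (Finset.mem_filter.1 hq).2
    have h1 := hℓ t ht (fun a => ρ * lam A q a) η hη0 hη (fun a => by
      rw [abs_mul, abs_of_pos hρ]
      exact (mul_le_mul_of_nonneg_left (lam_bound hA hq' a) hρ.le).trans hη')
    have hfac : ∀ u : ZMod p → ℝ, q4 (wt (fy fun a => ρ * (m a + u a)) A) q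
        = Complex.exp (Complex.I * ((∑ a, ρ * m a * lam A q a : ℝ) : ℂ)) *
          Complex.exp (Complex.I * ((∑ a, ρ * lam A q a * u a : ℝ) : ℂ)) := by
      intro u
      rw [q4_fy, ← Complex.exp_add, ← mul_add, ← Complex.ofReal_add, ← Finset.sum_add_distrib]
      congr 4
      ext a
      ring
    have h2 : q4 (wt (fy fun a => ρ * (m a + t a)) A) q -
        ∑ ν : ZMod p → Fin (K + 1), (ℓ t ν : ℂ) *
          q4 (wt (fy fun a => ρ * (m a + ((ν a : ℕ) : ℝ))) A) q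
        = Complex.exp (Complex.I * ((∑ a, ρ * m a * lam A q a : ℝ) : ℂ)) *
          (Complex.exp (Complex.I * ((∑ i, ρ * lam A q i * t i : ℝ) : ℂ)) -
            ∑ ν : ZMod p → Fin (K + 1), (ℓ t ν : ℂ) *
              Complex.exp (Complex.I * ((∑ i, ρ * lam A q i * ((ν i : ℕ) : ℝ) : ℝ) : ℂ))) := by
      rw [hfac t, mul_sub, Finset.mul_sum]
      congr 1
      refine Finset.sum_congr rfl fun ν _ => ?_
      rw [hfac fun a => ((ν a : ℕ) : ℝ)]
      ring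
    rw [h2, norm_mul, Complex.norm_exp_I_mul_ofReal, one_mul]
    exact h1
  refine (norm_sum_le_of_le _ hterm).trans ?_
  rw [Finset.sum_const, nsmul_eq_mul]
  refine mul_le_mul_of_nonneg_right ?_ (by positivity)
  have h3 : (((univ : Finset (G p d × G p d × G p d)).filter Gq).card : ℝ)
      ≤ ((univ : Finset (G p d × G p d × G p d)).card : ℝ) := by
    exact_mod_cast Finset.card_filter_le _ _
  refine h3.trans (le_of_eq ?_)
  rw [← Finset.univ_product_univ, Finset.card_product, ← Finset.univ_product_univ,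
    Finset.card_product]
  push_cast
  rw [card_G]
  ring

/-- every even unimodular function is some `f_y` with `0 ≤ y ≤ 2π` -/
lemma exists_y (f : ZMod p → ℂ) (hf : EU f) :
    ∃ y : ZMod p → ℝ, (∀ a, 0 ≤ y a ∧ y a ≤ 2 * Real.pi) ∧ f = fy y := by
  refine ⟨fun a => Complex.arg (f a) / 2 + Real.pi, fun a => ?_, ?_⟩
  · have h1 := Complex.neg_pi_lt_arg (f a)
    have h2 := Complex.arg_le_pi (f a)
    constructor <;> linarith [Real.pi_pos]
  · ext a
    show f a = Complex.exp (Complex.I * ((Complex.arg (f a) / 2 + Real.pi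
      + (Complex.arg (f (-a)) / 2 + Real.pi) : ℝ) : ℂ))
    rw [hf.2 a]
    have h := Complex.norm_mul_exp_arg_mul_I (f a)
    rw [hf.1 a, Complex.ofReal_one, one_mul] at h
    have e : Complex.I * ((Complex.arg (f a) / 2 + Real.pi
      + (Complex.arg (f a) / 2 + Real.pi) : ℝ) : ℂ)
        = (Complex.arg (f a) : ℂ) * Complex.I + 2 * Real.pi * Complex.I := by
      push_cast
      ring
    rw [e, Complex.exp_periodic, h]

lemma far_mono [NeZero p] {R R' : ℝ} {f : ZMod p → ℂ} (h : Far R f) (hR : R' ≤ R) : Far R' f :=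
  fun α κ δ hr => (h α κ δ hr).imp fun _ ha => hR.trans ha

lemma far_near [NeZero p] {y y' : ZMod p → ℝ} {R D : ℝ} (hy : ∀ a, |y a - y' a| ≤ D)
    (h : Far R (fy y)) : Far (R - 4 * D) (fy y') := by
  intro α κ δ' hrep
  obtain ⟨hκ, ⟨hev, hsum⟩, hval⟩ := hrep
  have hp : (0 : ℝ) < p := by exact_mod_cast Nat.pos_of_ne_zero (NeZero.ne p)
  set δ2 : ZMod p → ℝ := fun a => (y a - y' a) + (y (-a) - y' (-a)) with hδ2
  have hb : ∀ a, |δ2 a| ≤ 2 * D := fun a =>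
    (abs_add_le _ _).trans (by linarith [hy a, hy (-a)])
  set μ : ℝ := (∑ a, δ2 a) / p with hμ
  have hμb : |μ| ≤ 2 * D := by
    rw [hμ, abs_div, abs_of_pos hp, div_le_iff₀ hp]
    refine (Finset.abs_sum_le_sum_abs _ _).trans ?_
    refine (Finset.sum_le_sum fun a _ => hb a).trans (le_of_eq ?_)
    rw [Finset.sum_const, Finset.card_univ, ZMod.card, nsmul_eq_mul]
    ring
  have hRep : Rep (fy y) α (κ * Complex.exp ((μ : ℂ) * Complex.I)) (fun a => δ' a + δ2 a - μ) := by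
    refine ⟨?_, ⟨fun a => ?_, ?_⟩, fun a => ?_⟩
    · rw [norm_mul, hκ, one_mul, Complex.norm_exp_ofReal_mul_I]
    · show δ' (-a) + δ2 (-a) - μ = δ' a + δ2 a - μ
      rw [hev a]
      simp only [hδ2, neg_neg]
      ring
    · rw [Finset.sum_sub_distrib, Finset.sum_add_distrib, hsum, Finset.sum_const,
        Finset.card_univ, ZMod.card, nsmul_eq_mul, hμ]
      field_simp
      ring
    · have h1 : fy y a = fy y' a * Complex.exp ((δ2 a : ℂ) * Complex.I) := by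
        unfold fy
        rw [← Complex.exp_add]
        congr 1
        simp only [hδ2]
        push_cast
        ring
      rw [h1, hval a]
      have h2 : Complex.exp (((δ' a + δ2 a - μ : ℝ) : ℂ) * Complex.I)
          * Complex.exp ((μ : ℂ) * Complex.I)
          = Complex.exp ((δ' a : ℂ) * Complex.I) * Complex.exp ((δ2 a : ℂ) * Complex.I) := by
        rw [← Complex.exp_add, ← Complex.exp_add]
        congr 1
        push_cast
        ring
      calc κ * (ZMod.stdAddChar (α * a ^ 2) : ℂ) * Complex.exp ((δ' a : ℂ) * Complex.I)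
            * Complex.exp ((δ2 a : ℂ) * Complex.I)
          = κ * (ZMod.stdAddChar (α * a ^ 2) : ℂ) * (Complex.exp ((δ' a : ℂ) * Complex.I)
            * Complex.exp ((δ2 a : ℂ) * Complex.I)) := by ring
        _ = _ := by rw [← h2]; ring
  obtain ⟨a, ha⟩ := h α _ _ hRep
  refine ⟨a, ?_⟩
  have h1 : |δ' a + δ2 a - μ| ≤ |δ' a| + |δ2 a| + |μ| :=
    (abs_sub _ _).trans (by linarith [abs_add_le (δ' a) (δ2 a)])
  have ha' : R ≤ |δ' a + δ2 a - μ| := ha
  linarith [hb a]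

/-- the bound for one node -/
lemma node_bound [NeZero p] (H : Finset (G p d)) (f : ZMod p → ℂ) (ρ T B : ℝ) (k : ℕ)
    (hT : 0 ≤ T) (hB : 0 ≤ B)
    (h : Far ρ f → ∑ A ∈ H.powerset, ‖S4 (wt f A)‖ ^ (2 * k) ≤ B) :
    (Set.ncard {A : Finset (G p d) | A ⊆ H ∧ (Far ρ f ∧ T ≤ ‖S4 (wt f A)‖)} : ℝ)
      * T ^ (2 * k) ≤ B := by
  by_cases hf : Far ρ f
  · refine le_trans ?_ ((mkv H (fun A => ‖S4 (wt f A)‖ ^ (2 * k)) (fun A _ => by positivity)
      (T ^ (2 * k))).trans (h hf))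
    refine mul_le_mul_of_nonneg_right ?_ (by positivity)
    have h1 := ncard_mono H (P := fun A => Far ρ f ∧ T ≤ ‖S4 (wt f A)‖)
      (Q := fun A => T ^ (2 * k) ≤ ‖S4 (wt f A)‖ ^ (2 * k))
      (fun A _ hA => pow_le_pow_left₀ hT hA.2 _)
    exact_mod_cast h1
  · have h1 : {A : Finset (G p d) | A ⊆ H ∧ (Far ρ f ∧ T ≤ ‖S4 (wt f A)‖)} = ∅ := by
      ext A
      constructor
      · rintro ⟨-, h2, -⟩
        exact absurd h2 hf
      · intro h2
        exact absurd h2 (Set.notMem_empty _)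
    rw [h1, Set.ncard_empty, Nat.cast_zero, zero_mul]
    exact hB

/-- some node of the grid is large -/
lemma exists_node [NeZero p] {K : ℕ} {C n Λ : ℝ}
    {w : (ZMod p → Fin (K + 1)) → ℂ} {l : (ZMod p → Fin (K + 1)) → ℝ} {z : ℂ}
    (hl : ∀ ν, |l ν| ≤ C) (hC : 0 ≤ C) (hΛ : Λ = C * (K + 1 : ℝ) ^ p + 1)
    (h1 : ‖z - ∑ ν, (l ν : ℂ) * w ν‖ ≤ n ^ 2 / 16) (h2 : n ^ 2 / 4 < ‖z‖) :
    ∃ ν, n ^ 2 / (8 * Λ) ≤ ‖w ν‖ := by
  by_contra hcon
  push Not at hcon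
  have hΛ0 : 0 < Λ := by rw [hΛ]; positivity
  have h3 : ‖∑ ν, (l ν : ℂ) * w ν‖ ≤ n ^ 2 / 8 := by
    have h4 : ∀ ν ∈ (univ : Finset (ZMod p → Fin (K + 1))), ‖(l ν : ℂ) * w ν‖
        ≤ C * (n ^ 2 / (8 * Λ)) := by
      intro ν _
      rw [norm_mul, Complex.norm_real, Real.norm_eq_abs]
      exact mul_le_mul (hl ν) (hcon ν).le (norm_nonneg _) hC
    refine (norm_sum_le_of_le _ h4).trans ?_
    rw [Finset.sum_const, Finset.card_univ, Fintype.card_fun, Fintype.card_fin, ZMod.card,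
      nsmul_eq_mul]
    push_cast
    have h5 : C * (K + 1 : ℝ) ^ p ≤ Λ := by rw [hΛ]; linarith
    calc ((K : ℝ) + 1) ^ p * (C * (n ^ 2 / (8 * Λ)))
        = (C * (K + 1 : ℝ) ^ p) * (n ^ 2 / (8 * Λ)) := by ring
      _ ≤ Λ * (n ^ 2 / (8 * Λ)) := mul_le_mul_of_nonneg_right h5 (by positivity)
      _ = n ^ 2 / 8 := by field_simp
  have h6 : ‖z‖ ≤ ‖z - ∑ ν, (l ν : ℂ) * w ν‖ + ‖∑ ν, (l ν : ℂ) * w ν‖ := by
    have := norm_add_le (z - ∑ ν, (l ν : ℂ) * w ν) (∑ ν, (l ν : ℂ) * w ν)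
    rwa [sub_add_cancel] at this
  nlinarith [sq_nonneg n]

/-- the largeness conditions -/
lemma big {τ CI C1 : ℝ} (hτ : 0 < τ) (hC1 : 0 < C1) (K : ℕ) :
    ∃ n0 : ℝ, ∀ x : ℝ, n0 ≤ x → Real.exp 1 ≤ x ∧ 8 * x ^ (-(15 * τ)) ≤ 1 ∧
      CI * 8 ^ (K + 1) ≤ x ^ 2 / 16 ∧ 8 * (K + 1 : ℝ) * x ^ (-(16 * τ)) ≤ C1 := by
  have h1 : ∀ᶠ x : ℝ in atTop, Real.exp 1 ≤ x := eventually_ge_atTop _
  have h2 : ∀ᶠ x : ℝ in atTop, 8 * x ^ (-(15 * τ)) ≤ 1 := by
    have := (tendsto_rpow_neg_atTop (show 0 < 15 * τ by positivity)).const_mul 8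
    rw [mul_zero] at this
    exact this.eventually (eventually_le_nhds (by norm_num))
  have h3 : ∀ᶠ x : ℝ in atTop, CI * 8 ^ (K + 1) ≤ x ^ 2 / 16 := by
    have : Tendsto (fun x : ℝ => x ^ 2 / 16) atTop atTop :=
      (tendsto_pow_atTop (by norm_num)).atTop_div_const (by norm_num)
    exact this.eventually (eventually_ge_atTop _)
  have h4 : ∀ᶠ x : ℝ in atTop, 8 * (K + 1 : ℝ) * x ^ (-(16 * τ)) ≤ C1 := by
    have := (tendsto_rpow_neg_atTop (show 0 < 16 * τ by positivity)).const_mul (8 * (K + 1 : ℝ))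
    rw [mul_zero] at this
    exact this.eventually (eventually_le_nhds hC1)
  obtain ⟨n0, hn0⟩ := eventually_atTop.1 (h1.and (h2.and (h3.and h4)))
  exact ⟨n0, fun x hx => hn0 x hx⟩

lemma eta_eq {x τ : ℝ} (hx : 0 < x) :
    x ^ (-(1 / 2 + 16 * τ)) * (8 * x ^ (1 / 2 + τ)) = 8 * x ^ (-(15 * τ)) := by
  have h : x ^ (-(15 * τ)) = x ^ (-(1 / 2 + 16 * τ)) * x ^ (1 / 2 + τ) := by
    rw [← Real.rpow_add hx]
    congr 1
    ring
  rw [h]
  ring

lemma err_le {x τ CI : ℝ} {K : ℕ} (hx : 1 ≤ x) (hCI : 0 ≤ CI) (hK : 3 ≤ 15 * τ * (K + 1 : ℝ))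
    (h : CI * 8 ^ (K + 1) ≤ x ^ 2 / 16) :
    x ^ 3 * (CI * (8 * x ^ (-(15 * τ))) ^ (K + 1)) ≤ x ^ 2 / 16 := by
  have hx0 : 0 < x := by linarith
  have h1 : (x ^ (-(15 * τ))) ^ (K + 1) ≤ (x ^ 3)⁻¹ := by
    rw [← Real.rpow_natCast, ← Real.rpow_mul hx0.le]
    have h2 : (x ^ 3)⁻¹ = x ^ (-(3 : ℝ)) := by
      rw [Real.rpow_neg hx0.le]
      norm_num
    rw [h2]
    refine Real.rpow_le_rpow_of_exponent_le hx ?_
    push_cast
    linarith
  calc x ^ 3 * (CI * (8 * x ^ (-(15 * τ))) ^ (K + 1))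
      = x ^ 3 * (CI * 8 ^ (K + 1) * (x ^ (-(15 * τ))) ^ (K + 1)) := by rw [mul_pow]; ring
    _ ≤ x ^ 3 * (CI * 8 ^ (K + 1) * (x ^ 3)⁻¹) := by gcongr
    _ = CI * 8 ^ (K + 1) := by field_simp
    _ ≤ _ := h

lemma fin_arith {n K CM Λ X W M B : ℝ} {p : ℕ} (hp : 1 ≤ p) (hn : 1 ≤ n) (hK : 0 ≤ K)
    (hCM : 0 ≤ CM) (hΛ : 0 < Λ) (hW : 0 ≤ W) (hM0 : 0 ≤ M) (hM : M ≤ (K + 8) * n)
    (hX : X ≤ M ^ p * B)
    (hB : B * (n ^ 2 / (8 * Λ)) ^ (26 * p) ≤ W * (2 * CM * n ^ (48 * p))) :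
    X * n ≤ (K + 8) ^ p * (2 * CM * (8 * Λ) ^ (26 * p)) * W := by
  have hn0 : 0 < n := by linarith
  have hB' : B ≤ W * (2 * CM * (8 * Λ) ^ (26 * p)) * (n ^ (48 * p) / n ^ (52 * p)) := by
    rw [div_pow, ← pow_mul, show 2 * (26 * p) = 52 * p by ring] at hB
    have h1 : 0 < n ^ (52 * p) := by positivity
    have h2 : 0 < (8 * Λ) ^ (26 * p) := by positivity
    have h3 : B * n ^ (52 * p) ≤ W * (2 * CM * n ^ (48 * p)) * (8 * Λ) ^ (26 * p) := by
      have := mul_le_mul_of_nonneg_right hB h2.le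
      calc B * n ^ (52 * p) = B * (n ^ (52 * p) / (8 * Λ) ^ (26 * p)) * (8 * Λ) ^ (26 * p) := by
            field_simp
        _ ≤ _ := this
    calc B = B * n ^ (52 * p) / n ^ (52 * p) := by field_simp
      _ ≤ W * (2 * CM * n ^ (48 * p)) * (8 * Λ) ^ (26 * p) / n ^ (52 * p) := by gcongr
      _ = _ := by ring
  have h4 : M ^ p ≤ (K + 8) ^ p * n ^ p := by
    rw [← mul_pow]
    exact pow_le_pow_left₀ hM0 hM p
  have h5 : n ^ p * n * (n ^ (48 * p) / n ^ (52 * p)) ≤ 1 := by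
    rw [← mul_div_assoc, div_le_one (by positivity), ← pow_succ, ← pow_add]
    exact pow_le_pow_right₀ hn (by omega)
  set Y : ℝ := W * (2 * CM * (8 * Λ) ^ (26 * p)) with hY
  have hY0 : 0 ≤ Y := by positivity
  calc X * n ≤ M ^ p * B * n := by gcongr
    _ ≤ M ^ p * (Y * (n ^ (48 * p) / n ^ (52 * p))) * n := by gcongr
    _ ≤ ((K + 8) ^ p * n ^ p) * (Y * (n ^ (48 * p) / n ^ (52 * p))) * n := by gcongr
    _ = (K + 8) ^ p * Y * (n ^ p * n * (n ^ (48 * p) / n ^ (52 * p))) := by ring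
    _ ≤ (K + 8) ^ p * Y * 1 := by gcongr
    _ = _ := by rw [hY]; ring

/-- the moment bound for the nodes -/
lemma mom_le {n CM c C1 : ℝ} {p : ℕ} (hn : 1 ≤ n) (hCM : 0 ≤ CM) (hc : 0 < c)
    (hC1 : C1 = 120 * p / c + 1) :
    CM * (n ^ (48 * ((13 * p : ℕ) : ℝ) / 13) +
      n ^ (6 * (13 * p)) * Real.exp (-(c * (C1 * √(Real.log n / n) / 2) ^ 2 * n)))
      ≤ 2 * CM * n ^ (48 * p) := by
  have hn0 : 0 < n := by linarith
  have hlog : 0 ≤ Real.log n := Real.log_nonneg hn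
  have h1 : n ^ (48 * ((13 * p : ℕ) : ℝ) / 13) = n ^ (48 * p) := by
    rw [← Real.rpow_natCast]
    congr 1
    push_cast
    ring
  have h2 : c * (C1 * √(Real.log n / n) / 2) ^ 2 * n = c * C1 ^ 2 / 4 * Real.log n := by
    rw [div_pow, mul_pow, Real.sq_sqrt (by positivity)]
    field_simp
    ring
  have h3 : (30 * p : ℝ) ≤ c * C1 ^ 2 / 4 := by
    have hp0 : (0 : ℝ) ≤ 120 * p / c := by positivity
    have h4 : C1 ≤ C1 ^ 2 := by nlinarith
    have h5 : c * C1 = 120 * p + c := by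
      rw [hC1]
      field_simp
    nlinarith
  have h6 : n ^ (6 * (13 * p)) * Real.exp (-(c * (C1 * √(Real.log n / n) / 2) ^ 2 * n))
      ≤ n ^ (48 * p) := by
    rw [h2]
    have h7 : Real.exp (-(c * C1 ^ 2 / 4 * Real.log n)) ≤ (n ^ (30 * p))⁻¹ := by
      rw [← Real.exp_log (pow_pos hn0 (30 * p)), ← Real.exp_neg, Real.log_pow]
      refine Real.exp_le_exp.2 ?_
      have := mul_le_mul_of_nonneg_right h3 hlog
      push_cast
      linarith
    calc n ^ (6 * (13 * p)) * Real.exp (-(c * C1 ^ 2 / 4 * Real.log n))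
        ≤ n ^ (6 * (13 * p)) * (n ^ (30 * p))⁻¹ := by gcongr
      _ = n ^ (48 * p) := by
        rw [show 6 * (13 * p) = 48 * p + 30 * p by ring, pow_add]
        field_simp
  rw [h1]
  calc CM * (n ^ (48 * p) + n ^ (6 * (13 * p)) *
        Real.exp (-(c * (C1 * √(Real.log n / n) / 2) ^ 2 * n)))
      ≤ CM * (n ^ (48 * p) + n ^ (48 * p)) := by gcongr
    _ = _ := by ring

end BLKaux

open Finset Filter Topology BLKaux
open Pool.Agent.UAA (G ch nn)

/-- The bulk. -/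
theorem t_BLK (hMOM : MOM_Stmt) (hINT : INT_Stmt) : BLK_Stmt := by
  intro p _ hp hp2
  classical
  obtain ⟨CM, c, hCM, hc, hmom⟩ := hMOM p (13 * p) hp hp2
  obtain ⟨K, hK⟩ : ∃ K : ℕ, K = 320 * p := ⟨_, rfl⟩
  obtain ⟨CI, ℓ, hCI, hℓb, hℓ⟩ := hINT (ZMod p) K
  have hp1 : 1 ≤ p := hp.one_lt.le
  have hP : (0 : ℝ) < p := by exact_mod_cast hp.pos
  have hP1 : (1 : ℝ) ≤ p := by exact_mod_cast hp1
  set C1 : ℝ := 120 * p / c + 1 with hC1
  have hC1pos : 0 < C1 := by positivity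
  set Λ : ℝ := CI * (K + 1 : ℝ) ^ p + 1 with hΛ
  have hΛpos : 0 < Λ := by positivity
  have hτ : 0 < tau p := by unfold tau; positivity
  have hτ16 : 16 * tau p ≤ 1 / 2 := by
    unfold tau
    rw [mul_one_div, div_le_div_iff₀ (by positivity) (by norm_num)]
    linarith
  have hτK : 3 ≤ 15 * tau p * (K + 1 : ℝ) := by
    have : 15 * tau p * (K + 1 : ℝ) = 3 + 15 * tau p := by
      rw [hK]
      unfold tau
      push_cast
      field_simp
      ring
    rw [this]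
    linarith
  obtain ⟨n0, hn0⟩ := big (CI := CI) hτ hC1pos K
  set Q : ℝ := (K + 8 : ℝ) ^ p * (2 * CM * (8 * Λ) ^ (26 * p)) with hQ
  have hQ0 : 0 ≤ Q := by positivity
  refine ⟨C1, max n0 0 + Q, hC1pos, fun d H hH => ?_⟩
  have hn1 : 1 ≤ nn p d := one_le_nn
  have hnpos : 0 < nn p d := by linarith
  have hW : (0 : ℝ) ≤ 2 ^ H.card := by positivity
  rcases lt_or_ge (nn p d) n0 with hsmall | hlarge
  · have h1 := ncard_le_all H (fun A => Ty (tau p) A ∧ ∃ f : ZMod p → ℂ, EU f ∧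
      Far (rn C1 p d) f ∧ nn p d ^ 2 / 4 < ‖S4 (wt f A)‖)
    calc _ ≤ (2 : ℝ) ^ H.card * nn p d := mul_le_mul_of_nonneg_right h1 hnpos.le
      _ ≤ (2 : ℝ) ^ H.card * (max n0 0 + Q) := by
        refine mul_le_mul_of_nonneg_left ?_ hW
        linarith [le_max_left n0 0]
      _ = _ := mul_comm _ _
  obtain ⟨he, h15, h16, hfar⟩ := hn0 _ hlarge
  set n : ℝ := nn p d with hn
  set ρ : ℝ := n ^ (-(1 / 2 + 16 * tau p)) with hρ
  have hρpos : 0 < ρ := by positivity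
  set η : ℝ := 8 * n ^ (-(15 * tau p)) with hη
  have hρη : ρ * (8 * n ^ (1 / 2 + tau p)) ≤ η := (eta_eq hnpos).le
  have herr : n ^ 3 * (CI * η ^ (K + 1)) ≤ n ^ 2 / 16 := err_le hn1 hCI hτK h16
  -- the distance of the nodes
  have hlog1 : 1 ≤ Real.log n := by
    rw [Real.le_log_iff_exp_le hnpos]
    exact he
  have hrn : 8 * (K + 1 : ℝ) * ρ ≤ rn C1 p d := by
    have h1 : n ^ (-(1 / 2 : ℝ)) ≤ √(Real.log n / n) := by
      rw [Real.rpow_neg hnpos.le, ← Real.sqrt_eq_rpow, ← Real.sqrt_inv]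
      refine Real.sqrt_le_sqrt ?_
      rw [inv_eq_one_div]
      gcongr
    have h2 : ρ = n ^ (-(16 * tau p)) * n ^ (-(1 / 2 : ℝ)) := by
      rw [hρ, ← Real.rpow_add hnpos]
      congr 1
      ring
    rw [h2, ← mul_assoc]
    unfold rn
    rw [← hn]
    exact mul_le_mul hfar h1 (by positivity) hC1pos.le
  -- the nodes
  set M : ℕ := ⌊2 * Real.pi / ρ⌋₊ + K + 1 with hM
  have hMle : (M : ℝ) ≤ (K + 8 : ℝ) * n := by
    have h1 : ((⌊2 * Real.pi / ρ⌋₊ : ℕ) : ℝ) ≤ 2 * Real.pi / ρ :=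
      Nat.floor_le (by positivity)
    have h2 : 1 / ρ ≤ n := by
      rw [hρ, one_div, ← Real.rpow_neg hnpos.le, neg_neg]
      calc n ^ (1 / 2 + 16 * tau p) ≤ n ^ (1 : ℝ) :=
            Real.rpow_le_rpow_of_exponent_le hn1 (by linarith)
        _ = n := Real.rpow_one n
    have h3 : 2 * Real.pi / ρ ≤ 7 * n := by
      have hpi : 2 * Real.pi ≤ 7 := by linarith [Real.pi_lt_d2]
      calc 2 * Real.pi / ρ = 2 * Real.pi * (1 / ρ) := by ring
        _ ≤ 7 * n := by gcongr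
    have h4 : (K + 1 : ℝ) ≤ (K + 1 : ℝ) * n := le_mul_of_one_le_right (by positivity) hn1
    rw [hM]
    push_cast
    linarith
  set S : Finset (ZMod p → ℕ) := Fintype.piFinset fun _ => Finset.range M with hS
  have hScard : (S.card : ℝ) = (M : ℝ) ^ p := by
    rw [hS, Fintype.card_piFinset]
    simp [ZMod.card]
  set T : ℝ := n ^ 2 / (8 * Λ) with hT
  have hTpos : 0 < T := by positivity
  set B : ℝ := 2 ^ H.card * (2 * CM * n ^ (48 * p)) / T ^ (26 * p) with hB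
  have hmoment : ∀ m ∈ S, (Set.ncard {A : Finset (G p d) | A ⊆ H ∧
      (Far (rn C1 p d / 2) (fy fun a => ρ * (m a : ℝ)) ∧
        T ≤ ‖S4 (wt (fy fun a => ρ * (m a : ℝ)) A)‖)} : ℝ) ≤ B := by
    intro m _
    have h1 := node_bound H (fy fun a => ρ * (m a : ℝ)) (rn C1 p d / 2) T
      (2 ^ H.card * (2 * CM * n ^ (48 * p))) (13 * p) hTpos.le (by positivity) (fun hF => by
        refine (hmom d H hH (rn C1 p d / 2) ?_ _ (EU_fy _) hF).trans ?_
        · unfold rn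
          positivity
        · refine mul_le_mul_of_nonneg_left ?_ hW
          exact mom_le hn1 hCM hc hC1)
    rw [hB, le_div_iff₀ (by positivity)]
    rwa [show 2 * (13 * p) = 26 * p by ring] at h1
  have hunion := ncard_ex H S (fun m A => Far (rn C1 p d / 2) (fy fun a => ρ * (m a : ℝ)) ∧
        T ≤ ‖S4 (wt (fy fun a => ρ * (m a : ℝ)) A)‖) B hmoment
  have hincl := ncard_mono H (P := fun A => Ty (tau p) A ∧ ∃ f : ZMod p → ℂ, EU f ∧
      Far (rn C1 p d) f ∧ n ^ 2 / 4 < ‖S4 (wt f A)‖)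
    (Q := fun A => ∃ m ∈ S, (fun (m : ZMod p → ℕ) A =>
      Far (rn C1 p d / 2) (fy fun a => ρ * (m a : ℝ)) ∧
        T ≤ ‖S4 (wt (fy fun a => ρ * (m a : ℝ)) A)‖) m A) (by
    rintro A - ⟨hA, f, hf, hFar, hbig⟩
    obtain ⟨y, hy, rfl⟩ := exists_y f hf
    set m0 : ZMod p → ℕ := fun a => ⌊y a / ρ⌋₊ with hm0
    set t : ZMod p → ℝ := fun a => y a / ρ - (m0 a : ℝ) with ht
    have hfl : ∀ a, 0 ≤ t a ∧ t a ≤ 1 := by
      intro a
      have h1 : ((⌊y a / ρ⌋₊ : ℕ) : ℝ) ≤ y a / ρ := Nat.floor_le (div_nonneg (hy a).1 hρpos.le)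
      have h2 := Nat.lt_floor_add_one (y a / ρ)
      simp only [ht, hm0]
      constructor <;> linarith
    have hyt : ∀ a, y a = ρ * ((m0 a : ℝ) + t a) := by
      intro a
      simp only [ht]
      field_simp
      ring
    have hyfun : y = fun a => ρ * ((m0 a : ℝ) + t a) := funext hyt
    have hint := interp (ℓ := ℓ) (K := K) (C := CI) hCI hℓ hA hρpos (by rw [hη]; exact h15) hρη
      (fun a => (m0 a : ℝ)) t hfl
    rw [hyfun] at hbig
    obtain ⟨ν, hν⟩ := exists_node (K := K) (C := CI) (n := n) (Λ := Λ)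
      (w := fun ν => S4 (wt (fy fun a => ρ * ((m0 a : ℝ) + ((ν a : ℕ) : ℝ))) A))
      (l := ℓ t) (hℓb t hfl) hCI hΛ (hint.trans herr) hbig
    refine ⟨fun a => m0 a + (ν a : ℕ), ?_, ?_, ?_⟩
    · rw [hS, Fintype.mem_piFinset]
      intro a
      rw [Finset.mem_range, hM]
      have h1 : m0 a ≤ ⌊2 * Real.pi / ρ⌋₊ := by
        simp only [hm0]
        refine Nat.floor_le_floor ?_
        exact div_le_div_of_nonneg_right (hy a).2 hρpos.le
      have h2 := (ν a).isLt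
      omega
    · have hD : ∀ a, |y a - ρ * ((m0 a + (ν a : ℕ) : ℕ) : ℝ)| ≤ ρ * (K + 1 : ℝ) := by
        intro a
        have h1 : y a - ρ * ((m0 a + (ν a : ℕ) : ℕ) : ℝ) = ρ * (t a - ((ν a : ℕ) : ℝ)) := by
          rw [hyt a]
          push_cast
          ring
        rw [h1, abs_mul, abs_of_pos hρpos]
        refine mul_le_mul_of_nonneg_left ?_ hρpos.le
        have h2 : ((ν a : ℕ) : ℝ) ≤ K := by
          exact_mod_cast Nat.lt_succ_iff.1 (ν a).isLt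
        have h3 : (0 : ℝ) ≤ ((ν a : ℕ) : ℝ) := Nat.cast_nonneg _
        have h4 := hfl a
        rw [abs_le]
        constructor <;> linarith
      refine far_mono (far_near hD hFar) ?_
      linarith
    · simpa using hν)
  have hX : (Set.ncard {A : Finset (G p d) | A ⊆ H ∧ Ty (tau p) A ∧ ∃ f : ZMod p → ℂ, EU f ∧
      Far (rn C1 p d) f ∧ n ^ 2 / 4 < ‖S4 (wt f A)‖} : ℝ) ≤ (M : ℝ) ^ p * B := by
    rw [← hScard]
    refine le_trans ?_ hunion
    exact_mod_cast hincl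
  have hfinal := fin_arith (W := 2 ^ H.card) (CM := CM) (Λ := Λ) hp1 hn1
    (Nat.cast_nonneg K : (0 : ℝ) ≤ K) hCM hΛpos hW (Nat.cast_nonneg M) hMle hX (by
      rw [hB, ← hT]
      rw [div_mul_cancel₀]
      positivity)
  refine hfinal.trans ?_
  rw [← hQ]
  refine mul_le_mul_of_nonneg_right ?_ hW
  linarith [le_max_right n0 0]

end Pool.Agent.UAB
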