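import Pool.Agent.UAB.St

/-!
# CMP: compactness for all families of large rank
-/

set_option autoImplicit false

namespace Pool.Agent.UAB

open Finset
open Pool.Agent.UAA (G ch nn)

namespace CMPaux

/-- the hypotheses of `CMV` -/
def Good (p : ℕ) [NeZero p] (N : ℕ) (ε : Fin N × Fin 4 → ℤ)
    (V : Set (Fin N × Fin 4 → ZMod p)) : Prop :=
  ∑ s, ε s = 0 ∧
  (∀ f : ZMod p → ℂ, EU f → (∀ v ∈ V, ∏ s, f (v s) ^ ε s = 1) → ∃ α : ZMod p, Qd f α) ∧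
  (∀ δ : ZMod p → ℝ, (∀ v ∈ V, ∑ s, (ε s : ℝ) * δ (v s) = 0) → ∀ a b, δ a = δ b)

/-- the conclusion of `CMV` -/
def Con (p : ℕ) [NeZero p] (N : ℕ) (ε : Fin N × Fin 4 → ℤ)
    (V : Set (Fin N × Fin 4 → ZMod p)) (c : ℝ) : Prop :=
  ∀ f : ZMod p → ℂ, EU f → ∃ (α : ZMod p) (κ : ℂ) (δ : ZMod p → ℝ),
    Rep f α κ δ ∧ ∃ v ∈ V, ∀ a, c * |δ a| ≤ ‖∏ s, f (v s) ^ ε s - 1‖

theorem exc (h1 : CMV_Stmt) (p : ℕ) [NeZero p] (hp : p.Prime) (hp2 : p ≠ 2) (N : ℕ)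
    (t : (Fin N → ℤˣ) × Set (Fin N × Fin 4 → ZMod p)) :
    ∃ c : ℝ, 0 < c ∧ (Good p N (ee fun i => ((t.1 i : ℤˣ) : ℤ)) t.2 →
      Con p N (ee fun i => ((t.1 i : ℤˣ) : ℤ)) t.2 c) := by
  by_cases h : Good p N (ee fun i => ((t.1 i : ℤˣ) : ℤ)) t.2
  · obtain ⟨c, hc, h2⟩ := h1 p hp hp2 _ _ t.2 h.1 h.2.1 h.2.2
    exact ⟨c, hc, fun _ => h2⟩
  · exact ⟨1, one_pos, fun h' => absurd h' h⟩

theorem sum_ee {N : ℕ} (η : Fin N → ℤ) : ∑ s, ee η s = 0 := by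
  unfold ee
  rw [Fintype.sum_prod_type]
  apply Finset.sum_eq_zero
  intro i _
  simp only [Fin.sum_univ_four, sg, Matrix.cons_val_zero, Matrix.cons_val_one,
    Matrix.cons_val]
  ring

end CMPaux

open CMPaux in
/-- CMP. -/
theorem t_CMP (h1 : CMV_Stmt) (h2 : STR_Stmt) (h3 : STQ_Stmt) : CMP_Stmt := by
  intro p N _ hp hp2
  choose c hc0 hc using exc h1 p hp hp2 N
  have _hfin : Finite (ZMod p) := Finite.of_fintype _
  obtain ⟨t0, ht0⟩ := Finite.exists_min c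
  refine ⟨c t0, hc0 t0, ?_⟩
  intro d Q η hF hr f hf
  let u : Fin N → ℤˣ := fun i => if η i = 1 then 1 else -1
  have hu : (fun i => ((u i : ℤˣ) : ℤ)) = η := by
    funext i
    rcases hF.2 i with h | h
    · simp [u, h]
    · have : η i ≠ 1 := by rw [h]; decide
      simp [u, h]
  let V : Set (Fin N × Fin 4 → ZMod p) := Set.range fun h : G p d => fun s => dt (X Q s) h
  have hg : Good p N (ee fun i => ((u i : ℤˣ) : ℤ)) V := by
    rw [hu]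
    refine ⟨sum_ee η, ?_, ?_⟩
    · intro f hf hv
      by_contra hn
      push Not at hn
      have h4 := h2 p d N hp hp2 Q η hF f hf hn (fun h => hv _ ⟨h, rfl⟩)
      omega
    · intro δ hδ
      exact h3 p d N hp hp2 Q η hF (by omega) δ (fun h => hδ _ ⟨h, rfl⟩)
  obtain ⟨α, κ, δ, hR, v, ⟨h, rfl⟩, hv⟩ := hc (u, V) hg f hf
  refine ⟨α, κ, δ, hR, h, fun a => ?_⟩
  have h5 := hv a
  simp only [hu] at h5
  exact le_trans (mul_le_mul_of_nonneg_right (ht0 (u, V)) (abs_nonneg _)) h5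

end Pool.Agent.UAB
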