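import Pool.Agent.UAB.St

/-!
# Compactness (`CMV`)
-/

set_option autoImplicit false

namespace Pool.Agent.UAB

open Finset Filter Topology

namespace CMVaux

variable {p : ℕ} [NeZero p]

theorem norm_chi (a : ZMod p) : ‖(ZMod.stdAddChar a : ℂ)‖ = 1 := by
  exact AddChar.norm_apply (ZMod.stdAddChar (N := p)) a

/-- A representation from the arguments. -/
theorem rep_of {f : ZMod p → ℂ} {α : ZMod p} {κ0 : ℂ} (hκ : ‖κ0‖ = 1) (γ : ZMod p → ℝ)
    (hγ : ∀ a, γ (-a) = γ a)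
    (h : ∀ a, f a = κ0 * (ZMod.stdAddChar (α * a ^ 2) : ℂ) *
      Complex.exp ((γ a : ℂ) * Complex.I)) :
    Rep f α (κ0 * Complex.exp ((((∑ b, γ b) / p : ℝ) : ℂ) * Complex.I))
      (fun a => γ a - (∑ b, γ b) / p) := by
  have hp : (p : ℝ) ≠ 0 := Nat.cast_ne_zero.2 (NeZero.ne p)
  refine ⟨?_, ⟨?_, ?_⟩, ?_⟩
  · rw [norm_mul, hκ, Complex.norm_exp_ofReal_mul_I, one_mul]
  · intro a
    simp only [hγ]
  · rw [Finset.sum_sub_distrib, Finset.sum_const, Finset.card_univ, ZMod.card, nsmul_eq_mul]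
    field_simp
    ring
  · intro a
    rw [h a]
    have h1 : Complex.exp ((γ a : ℂ) * Complex.I) =
        Complex.exp ((((∑ b, γ b) / p : ℝ) : ℂ) * Complex.I) *
          Complex.exp (((γ a - (∑ b, γ b) / p : ℝ) : ℂ) * Complex.I) := by
      rw [← Complex.exp_add]
      congr 1
      push_cast
      ring
    rw [h1]
    ring

/-- Every function has a bounded representation. -/
theorem rep_all {f : ZMod p → ℂ} (hf : EU f) :
    ∃ (κ : ℂ) (δ : ZMod p → ℝ), Rep f 0 κ δ ∧ ∀ a, |δ a| ≤ 2 * Real.pi := by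
  have hp : (0 : ℝ) < p := Nat.cast_pos.2 (Nat.pos_of_ne_zero (NeZero.ne p))
  have hpi := Real.pi_pos
  refine ⟨_, _, rep_of (f := f) (α := 0) (κ0 := 1) (by simp) (fun a => Complex.arg (f a)) ?_ ?_, ?_⟩
  · intro a
    simp only [hf.2 a]
  · intro a
    have h1 := Complex.norm_mul_exp_arg_mul_I (f a)
    rw [hf.1 a] at h1
    simpa using h1.symm
  · intro a
    have h1 : ∀ b, |Complex.arg (f b)| ≤ Real.pi := fun b => Complex.abs_arg_le_pi _
    have h2 : |(∑ b, Complex.arg (f b)) / p| ≤ Real.pi := by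
      rw [abs_div, abs_of_pos hp, div_le_iff₀ hp]
      calc |∑ b, Complex.arg (f b)| ≤ ∑ b, |Complex.arg (f b)| := Finset.abs_sum_le_sum_abs _ _
        _ ≤ ∑ _b : ZMod p, Real.pi := Finset.sum_le_sum fun b _ => h1 b
        _ = Real.pi * p := by
            rw [Finset.sum_const, Finset.card_univ, ZMod.card, nsmul_eq_mul]
            ring
    have h3 := abs_sub (Complex.arg (f a)) ((∑ b, Complex.arg (f b)) / p)
    have h4 := h1 a
    show |Complex.arg (f a) - (∑ b, Complex.arg (f b)) / p| ≤ 2 * Real.pi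
    linarith

/-- The set of all even unimodular functions is compact. -/
theorem compact_EU : IsCompact {f : ZMod p → ℂ | EU f} := by
  have h1 : {f : ZMod p → ℂ | EU f} =
      (Set.univ.pi fun _ => Metric.sphere (0 : ℂ) 1) ∩ {f | ∀ a, f (-a) = f a} := by
    ext f
    simp only [EU, Set.mem_setOf_eq, Set.mem_inter_iff, Set.mem_univ_pi, mem_sphere_zero_iff_norm]
  rw [h1]
  apply IsCompact.inter_right
  · exact isCompact_univ_pi fun _ => isCompact_sphere 0 1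
  · rw [Set.setOf_forall]
    exact isClosed_iInter fun a => isClosed_eq (continuous_apply _) (continuous_apply _)

theorem exp_lower (x : ℝ) (hx : |x| ≤ 1) :
    |x| / 2 ≤ ‖Complex.exp ((x : ℂ) * Complex.I) - 1‖ := by
  have hpi := Real.pi_pos
  have h3 := Real.pi_gt_three
  have h4 := Real.pi_le_four
  rw [mul_comm (x : ℂ) Complex.I, Complex.norm_exp_I_mul_ofReal_sub_one]
  have h1 : |x / 2| ≤ Real.pi / 2 := by
    rw [abs_div, abs_two]
    linarith
  have h2 := Real.mul_abs_le_abs_sin h1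
  rw [Real.norm_eq_abs, abs_mul, abs_two]
  rw [abs_div, abs_two] at h2
  have h5 : 1 / 4 * |x| ≤ 2 / Real.pi * (|x| / 2) := by
    have h6 : 1 / 2 ≤ 2 / Real.pi := by
      rw [div_le_div_iff₀ (by norm_num) hpi]
      linarith
    nlinarith [abs_nonneg x]
  linarith

/-- The linear forms `L_v`. -/
noncomputable def Lin {ι : Type} [Fintype ι] (ε : ι → ℤ) (v : ι → ZMod p) (δ : ZMod p → ℝ) : ℝ :=
  ∑ s, (ε s : ℝ) * δ (v s)

/-- Lower bound by the linear forms. -/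
theorem lin_lower {ι : Type} [Fintype ι] (ε : ι → ℤ) (V : Set (ι → ZMod p)) (hp : p.Prime)
    (h2 : ∀ δ : ZMod p → ℝ, (∀ v ∈ V, ∑ s, (ε s : ℝ) * δ (v s) = 0) → ∀ a b, δ a = δ b) :
    ∃ K : ℝ, 0 < K ∧ ∀ δ : ZMod p → ℝ, ∑ a, δ a = 0 → ∃ v ∈ V, ∀ a, |δ a| ≤ K * |Lin ε v δ| := by
  classical
  haveI : Fact (1 < p) := ⟨hp.one_lt⟩
  haveI : Finite V := Set.Finite.to_subtype (Set.toFinite V)
  haveI : Fintype V := Fintype.ofFinite V
  have hne : Nonempty V := by
    by_contra hcon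
    have h3 : ∀ v, v ∉ V := by
      intro v hv
      exact hcon ⟨⟨v, hv⟩⟩
    have h4 := h2 (fun a => if a = 0 then 1 else 0) (fun v hv => absurd hv (h3 v)) 0 1
    simp at h4
  let L : (ZMod p → ℝ) →ₗ[ℝ] (V → ℝ) × ℝ :=
    { toFun := fun δ => (fun v => Lin ε v.1 δ, ∑ a, δ a)
      map_add' := by
        intro x y
        ext
        · simp [Lin, mul_add, Finset.sum_add_distrib]
        · simp [Finset.sum_add_distrib]
      map_smul' := by
        intro c x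
        ext
        · simp only [Lin, Pi.smul_apply, smul_eq_mul, RingHom.id_apply, Prod.smul_mk,
            Finset.mul_sum]
          exact Finset.sum_congr rfl fun s _ => by ring
        · simp [Finset.mul_sum] }
  have hker : LinearMap.ker L = ⊥ := by
    rw [LinearMap.ker_eq_bot']
    intro δ hδ
    have h3 : (fun v : V => Lin ε v.1 δ) = 0 ∧ ∑ a, δ a = 0 := by
      have h4 : ((fun v : V => Lin ε v.1 δ), ∑ a, δ a) = (0 : (V → ℝ) × ℝ) := hδ
      exact Prod.mk_eq_zero.1 h4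
    have h5 := h2 δ (fun v hv => congrFun h3.1 ⟨v, hv⟩)
    ext a
    have h6 : ∑ b, δ b = p * δ a := by
      rw [Finset.sum_congr rfl fun b _ => h5 b a, Finset.sum_const, Finset.card_univ, ZMod.card,
        nsmul_eq_mul]
    rw [h3.2] at h6
    have h7 : (p : ℝ) ≠ 0 := Nat.cast_ne_zero.2 (NeZero.ne p)
    rcases mul_eq_zero.1 h6.symm with h8 | h8
    · exact absurd h8 h7
    · simpa using h8
  obtain ⟨K, hK, hL⟩ := L.exists_antilipschitzWith hker
  refine ⟨K, NNReal.coe_pos.2 hK, ?_⟩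
  intro δ hδ
  obtain ⟨v, hv⟩ := Finite.exists_max fun v : V => |Lin ε v.1 δ|
  refine ⟨v.1, v.2, ?_⟩
  intro a
  have h3 : ‖δ‖ ≤ K * ‖L δ‖ := by
    have h4 := hL.le_mul_dist δ 0
    rw [map_zero, dist_zero_right, dist_zero_right] at h4
    exact h4
  have h5 : ‖L δ‖ ≤ |Lin ε v.1 δ| := by
    have h6 : L δ = ((fun v : V => Lin ε v.1 δ), (0 : ℝ)) := by
      rw [← hδ]
      rfl
    rw [h6, Prod.norm_mk, norm_zero]
    apply max_le _ (abs_nonneg _)
    rw [pi_norm_le_iff_of_nonneg (abs_nonneg _)]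
    intro w
    exact hv w
  calc |δ a| ≤ ‖δ‖ := norm_le_pi_norm δ a
    _ ≤ K * ‖L δ‖ := h3
    _ ≤ K * |Lin ε v.1 δ| := mul_le_mul_of_nonneg_left h5 K.2

/-- The conclusion with a given constant. -/
def Con {ι : Type} [Fintype ι] (ε : ι → ℤ) (V : Set (ι → ZMod p)) (c : ℝ) (f : ZMod p → ℂ) :
    Prop :=
  ∃ (α : ZMod p) (κ : ℂ) (δ : ZMod p → ℝ),
    Rep f α κ δ ∧ ∃ v ∈ V, ∀ a, c * |δ a| ≤ ‖∏ s, f (v s) ^ ε s - 1‖

theorem Con.mono {ι : Type} [Fintype ι] {ε : ι → ℤ} {V : Set (ι → ZMod p)} {c c' : ℝ}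
    {f : ZMod p → ℂ} (h : Con ε V c f) (hc : c' ≤ c) : Con ε V c' f := by
  obtain ⟨α, κ, δ, h1, v, hv, h2⟩ := h
  exact ⟨α, κ, δ, h1, v, hv, fun a =>
    le_trans (mul_le_mul_of_nonneg_right hc (abs_nonneg _)) (h2 a)⟩

theorem cont_F {ι : Type} [Fintype ι] (ε : ι → ℤ) (v : ι → ZMod p) {f0 : ZMod p → ℂ}
    (hf : EU f0) : ContinuousAt (fun f : ZMod p → ℂ => ∏ s, f (v s) ^ ε s) f0 := by
  apply tendsto_finset_prod
  intro s _
  have h1 : ContinuousAt (fun f : ZMod p → ℂ => f (v s)) f0 := (continuous_apply (v s)).continuousAt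
  apply h1.zpow₀
  left
  intro h0
  have h2 := hf.1 (v s)
  rw [h0] at h2
  simp at h2

/-- Case 1. -/
theorem case1 {ι : Type} [Fintype ι] (ε : ι → ℤ) (V : Set (ι → ZMod p)) {f0 : ZMod p → ℂ}
    (hf : EU f0) {v : ι → ZMod p} (hv : v ∈ V) (h : ∏ s, f0 (v s) ^ ε s ≠ 1) :
    ∃ c : ℝ, 0 < c ∧ ∀ᶠ f in 𝓝[{f | EU f}] f0, Con ε V c f := by
  have h1 : 0 < ‖∏ s, f0 (v s) ^ ε s - 1‖ := norm_pos_iff.2 (sub_ne_zero.2 h)
  set η := ‖∏ s, f0 (v s) ^ ε s - 1‖ with hη
  have hpi := Real.pi_pos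
  have h2 : ContinuousAt (fun f : ZMod p → ℂ => ‖∏ s, f (v s) ^ ε s - 1‖) f0 :=
    ((cont_F ε v hf).sub continuousAt_const).norm
  have h3 : ∀ᶠ f in 𝓝 f0, η / 2 < ‖∏ s, f (v s) ^ ε s - 1‖ := by
    apply h2.eventually (lt_mem_nhds _)
    show η / 2 < ‖∏ s, f0 (v s) ^ ε s - 1‖
    rw [← hη]
    linarith
  refine ⟨η / (4 * Real.pi), by positivity, ?_⟩
  filter_upwards [mem_nhdsWithin_of_mem_nhds h3, self_mem_nhdsWithin] with f h4 h5
  obtain ⟨κ, δ, h6, h7⟩ := rep_all h5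
  refine ⟨0, κ, δ, h6, v, hv, ?_⟩
  intro a
  calc η / (4 * Real.pi) * |δ a| ≤ η / (4 * Real.pi) * (2 * Real.pi) :=
        mul_le_mul_of_nonneg_left (h7 a) (by positivity)
    _ = η / 2 := by
        field_simp
        ring
    _ ≤ _ := h4.le

/-- Case 2. -/
theorem case2 {ι : Type} [Fintype ι] (ε : ι → ℤ) (V : Set (ι → ZMod p)) (hε : ∑ s, ε s = 0)
    {K : ℝ} (hK : 0 < K)
    (hL : ∀ δ : ZMod p → ℝ, ∑ a, δ a = 0 → ∃ v ∈ V, ∀ a, |δ a| ≤ K * |Lin ε v δ|)
    {f0 : ZMod p → ℂ} (hf : EU f0) (h1 : ∀ v ∈ V, ∏ s, f0 (v s) ^ ε s = 1) {α : ZMod p}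
    (hα : Qd f0 α) :
    ∃ c : ℝ, 0 < c ∧ ∀ᶠ f in 𝓝[{f | EU f}] f0, Con ε V c f := by
  obtain ⟨κ0, hκ⟩ := hα
  have hκ1 : ‖κ0‖ = 1 := by
    have h2 := hf.1 0
    rw [hκ 0] at h2
    simpa using h2
  have h0 : ∀ a, f0 a ≠ 0 := by
    intro a ha
    have h2 := hf.1 a
    rw [ha] at h2
    simp at h2
  set S : ℝ := ∑ s, |(ε s : ℝ)| with hS
  have hS0 : 0 ≤ S := Finset.sum_nonneg fun s _ => abs_nonneg _
  have h3 : ∀ a, ∀ᶠ f : ZMod p → ℂ in 𝓝 f0, |Complex.arg (f a / f0 a)| < 1 / (S + 1) := by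
    intro a
    have h4 : ContinuousAt (fun f : ZMod p → ℂ => f a / f0 a) f0 :=
      ((continuous_apply a).continuousAt).div_const _
    have h5 : ContinuousAt (fun f : ZMod p → ℂ => Complex.arg (f a / f0 a)) f0 := by
      apply ContinuousAt.comp (g := Complex.arg) _ h4
      apply Complex.continuousAt_arg
      rw [div_self (h0 a)]
      exact Complex.one_mem_slitPlane
    have h6 : ContinuousAt (fun f : ZMod p → ℂ => |Complex.arg (f a / f0 a)|) f0 := h5.abs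
    apply h6.eventually (gt_mem_nhds _)
    show |Complex.arg (f0 a / f0 a)| < 1 / (S + 1)
    rw [div_self (h0 a), Complex.arg_one, abs_zero]
    positivity
  have h4 : ∀ᶠ f : ZMod p → ℂ in 𝓝 f0, ∀ a, |Complex.arg (f a / f0 a)| < 1 / (S + 1) :=
    eventually_all.2 h3
  refine ⟨1 / (2 * K), by positivity, ?_⟩
  filter_upwards [mem_nhdsWithin_of_mem_nhds h4, self_mem_nhdsWithin] with f h5 h6
  have h6' : EU f := h6
  set γ : ZMod p → ℝ := fun a => Complex.arg (f a / f0 a) with hγ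
  have hev : ∀ a, γ (-a) = γ a := by
    intro a
    simp only [hγ]
    rw [h6'.2 a, hf.2 a]
  have hexp : ∀ a, f a = f0 a * Complex.exp ((γ a : ℂ) * Complex.I) := by
    intro a
    have h7 := Complex.norm_mul_exp_arg_mul_I (f a / f0 a)
    rw [norm_div, h6'.1 a, hf.1 a] at h7
    simp only [div_one, Complex.ofReal_one, one_mul] at h7
    simp only [hγ]
    rw [h7]
    field_simp [h0 a]
  set m : ℝ := (∑ b, γ b) / p with hm
  have hrep : Rep f α (κ0 * Complex.exp ((m : ℂ) * Complex.I)) (fun a => γ a - m) := by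
    apply rep_of hκ1 γ hev
    intro a
    rw [hexp a, hκ a]
  obtain ⟨v, hv, h8⟩ := hL (fun a => γ a - m) hrep.2.1.2
  refine ⟨α, _, _, hrep, v, hv, ?_⟩
  have h9 : Lin ε v (fun a => γ a - m) = ∑ s, (ε s : ℝ) * γ (v s) := by
    unfold Lin
    have h10 : ∑ s, (ε s : ℝ) = 0 := by exact_mod_cast hε
    simp only [mul_sub, Finset.sum_sub_distrib]
    rw [← Finset.sum_mul, h10]
    ring
  have h11 : ∏ s, f (v s) ^ ε s =
      Complex.exp (((∑ s, (ε s : ℝ) * γ (v s) : ℝ) : ℂ) * Complex.I) := by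
    calc ∏ s, f (v s) ^ ε s
        = ∏ s, (f0 (v s) ^ ε s * Complex.exp ((γ (v s) : ℂ) * Complex.I) ^ ε s) := by
          apply Finset.prod_congr rfl
          intro s _
          rw [hexp (v s), mul_zpow]
      _ = (∏ s, f0 (v s) ^ ε s) * ∏ s, Complex.exp ((γ (v s) : ℂ) * Complex.I) ^ ε s :=
          Finset.prod_mul_distrib
      _ = ∏ s, Complex.exp ((ε s : ℂ) * ((γ (v s) : ℂ) * Complex.I)) := by
          rw [h1 v hv, one_mul]
          apply Finset.prod_congr rfl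
          intro s _
          rw [Complex.exp_int_mul]
      _ = _ := by
          rw [← Complex.exp_sum]
          congr 1
          push_cast
          rw [Finset.sum_mul]
          exact Finset.sum_congr rfl fun s _ => by ring
  have h12 : |∑ s, (ε s : ℝ) * γ (v s)| ≤ 1 := by
    calc |∑ s, (ε s : ℝ) * γ (v s)| ≤ ∑ s, |(ε s : ℝ) * γ (v s)| := Finset.abs_sum_le_sum_abs _ _
      _ ≤ ∑ s, |(ε s : ℝ)| * (1 / (S + 1)) := by
          apply Finset.sum_le_sum
          intro s _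
          rw [abs_mul]
          exact mul_le_mul_of_nonneg_left (h5 (v s)).le (abs_nonneg _)
      _ = S * (1 / (S + 1)) := by rw [← Finset.sum_mul]
      _ ≤ 1 := by
          rw [mul_one_div, div_le_one (by positivity)]
          linarith
  have h13 := exp_lower _ h12
  rw [← h11] at h13
  intro a
  have h14 := h8 a
  rw [h9] at h14
  calc 1 / (2 * K) * |γ a - m| ≤ 1 / (2 * K) * (K * |∑ s, (ε s : ℝ) * γ (v s)|) :=
        mul_le_mul_of_nonneg_left h14 (by positivity)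
    _ = |∑ s, (ε s : ℝ) * γ (v s)| / 2 := by
        field_simp
    _ ≤ _ := h13

end CMVaux

open CMVaux in
theorem t_CMV : CMV_Stmt := by
  intro p _ hp hp2 ι _ ε V hε H1 H2
  obtain ⟨K, hK, hL⟩ := lin_lower ε V hp H2
  have key : ∃ c : ℝ, 0 < c ∧ ∀ f ∈ {f : ZMod p → ℂ | EU f}, Con ε V c f := by
    have hc := compact_EU (p := p)
    refine hc.induction_on (p := fun S => ∃ c : ℝ, 0 < c ∧ ∀ f ∈ S, Con ε V c f) ?_ ?_ ?_ ?_
    · exact ⟨1, one_pos, fun f hf => absurd hf (Set.notMem_empty f)⟩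
    · rintro s t hst ⟨c, hc, h⟩
      exact ⟨c, hc, fun f hf => h f (hst hf)⟩
    · rintro s t ⟨c, hc, h⟩ ⟨c', hc', h'⟩
      refine ⟨min c c', lt_min hc hc', ?_⟩
      rintro f (hf | hf)
      · exact (h f hf).mono (min_le_left _ _)
      · exact (h' f hf).mono (min_le_right _ _)
    · intro f0 hf0
      have h1 : ∃ c : ℝ, 0 < c ∧ ∀ᶠ f in 𝓝[{f | EU f}] f0, Con ε V c f := by
        by_cases h : ∀ v ∈ V, ∏ s, f0 (v s) ^ ε s = 1
        · obtain ⟨α, hα⟩ := H1 f0 hf0 h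
          exact case2 ε V hε hK hL hf0 h hα
        · push Not at h
          obtain ⟨v, hv, h⟩ := h
          exact case1 ε V hf0 hv h
      obtain ⟨c, hc, h2⟩ := h1
      exact ⟨{f | Con ε V c f}, h2, c, hc, fun f hf => hf⟩
  obtain ⟨c, hc, h⟩ := key
  exact ⟨c, hc, fun f hf => h f hf⟩

end Pool.Agent.UAB
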