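import Pool.Agent.UAB.St

/-!
# Uniform mixing on almost all Cayley graphs (MP_e32761_co): cosine products   (helper54)
-/

set_option autoImplicit false

namespace Pool.Agent.UAB

open Finset

namespace COSaux

theorem bounds {y : ℝ} (hy : |y| ≤ 1 / 2) :
    0 ≤ Real.cos y ∧ Real.cos y ≤ 1 ∧ Real.cos y ≤ Real.exp (-(y ^ 2 / 2)) ∧
      Real.exp (-(y ^ 2 / 2)) ≤ 1 ∧ |Real.cos y - Real.exp (-(y ^ 2 / 2))| ≤ y ^ 4 := by
  have hy1 : |y| ≤ 1 := hy.trans (by norm_num)
  have hy2 : y ^ 2 ≤ 1 / 4 := by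
    have := sq_abs y
    have h0 := abs_nonneg y
    nlinarith
  have h1 := Real.cos_bound hy1
  have h4 : |y| ^ 4 = y ^ 4 := by
    have : |y| ^ 4 = (|y| ^ 2) ^ 2 := by ring
    rw [this, sq_abs]
    ring
  rw [h4] at h1
  have h2 := abs_le.1 h1
  have h3 := Real.one_sub_sq_div_two_le_cos (x := y)
  have hx0 : 0 ≤ y ^ 2 := sq_nonneg y
  have hxx : |(-(y ^ 2 / 2))| = y ^ 2 / 2 := by
    rw [abs_neg, abs_of_nonneg (by linarith)]
  have h5 := Real.exp_bound (x := -(y ^ 2 / 2)) (by rw [hxx]; linarith) (n := 3) (by norm_num)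
  rw [hxx] at h5
  simp only [Finset.sum_range_succ, Finset.sum_range_zero, Nat.factorial] at h5
  norm_num at h5
  have h6 := abs_le.1 h5
  have e4 : y ^ 4 = y ^ 2 * y ^ 2 := by ring
  have h7 : (0 : ℝ) ≤ y ^ 4 := by rw [e4]; positivity
  have h8 : (y ^ 2 / 2) ^ 3 ≤ y ^ 4 / 32 := by
    have : (y ^ 2 / 2) ^ 3 = y ^ 4 * (y ^ 2 / 8) := by ring
    rw [this]
    nlinarith
  have h9 : (0 : ℝ) ≤ (y ^ 2 / 2) ^ 3 := by positivity
  have e5 : (-(y ^ 2 / 2)) ^ 2 = y ^ 4 / 4 := by ring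
  refine ⟨by linarith, Real.cos_le_one y, ?_, Real.exp_le_one_iff.2 (by linarith), ?_⟩
  · nlinarith [h6.1, h6.2]
  · rw [abs_le]
    constructor
    · nlinarith [h6.1, h6.2]
    · nlinarith [h6.1, h6.2]

theorem prod_sub {α : Type} (a b : α → ℝ) (H : Finset α) :
    (∀ h ∈ H, |a h| ≤ 1 ∧ |b h| ≤ 1) →
    |∏ h ∈ H, a h - ∏ h ∈ H, b h| ≤ ∑ h ∈ H, |a h - b h| := by
  classical
  induction H using Finset.induction_on with
  | empty => intro _; simp
  | insert x s hx ih =>
    intro h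
    rw [Finset.prod_insert hx, Finset.prod_insert hx, Finset.sum_insert hx]
    have h1 := ih fun y hy => h y (Finset.mem_insert_of_mem hy)
    have h2 := h x (Finset.mem_insert_self _ _)
    have h3 : |∏ h ∈ s, b h| ≤ 1 := by
      rw [Finset.abs_prod]
      exact Finset.prod_le_one (fun _ _ => abs_nonneg _)
        fun y hy => (h y (Finset.mem_insert_of_mem hy)).2
    have e : a x * ∏ h ∈ s, a h - b x * ∏ h ∈ s, b h =
        a x * (∏ h ∈ s, a h - ∏ h ∈ s, b h) + (a x - b x) * ∏ h ∈ s, b h := by ring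
    rw [e]
    refine (abs_add_le _ _).trans ?_
    rw [abs_mul, abs_mul]
    have h4 : |a x| * |∏ h ∈ s, a h - ∏ h ∈ s, b h| ≤ 1 * |∏ h ∈ s, a h - ∏ h ∈ s, b h| :=
      mul_le_mul_of_nonneg_right h2.1 (abs_nonneg _)
    have h5 : |a x - b x| * |∏ h ∈ s, b h| ≤ |a x - b x| * 1 :=
      mul_le_mul_of_nonneg_left h3 (abs_nonneg _)
    linarith

end COSaux

open COSaux in
theorem t_COS : COS_Stmt := by
  refine ⟨?_, ?_, ?_⟩
  · intro α _ H a b
    rw [Finset.prod_add]
    refine Finset.sum_congr rfl fun A hA => ?_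
    rw [Finset.mem_powerset] at hA
    rw [Finset.prod_ite]
    congr 1
    · congr 1
      ext x
      simp only [Finset.mem_filter]
      exact ⟨fun h => h.2, fun h => ⟨hA h, h⟩⟩
    · congr 1
      ext x
      simp only [Finset.mem_filter, Finset.mem_sdiff]
  · intro α H D hD
    have hb : ∀ h ∈ H, |D h / 2| ≤ 1 / 2 := fun h hh => by
      rw [abs_div, abs_two]
      linarith [hD h hh]
    have e : Real.exp (-(∑ h ∈ H, D h ^ 2) / 8) =
        ∏ h ∈ H, Real.exp (-((D h / 2) ^ 2 / 2)) := by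
      rw [← Real.exp_sum, neg_div, Finset.sum_div, ← Finset.sum_neg_distrib]
      congr 1
      refine Finset.sum_congr rfl fun h _ => ?_
      ring
    rw [e]
    refine (prod_sub _ _ H fun h hh => ?_).trans (Finset.sum_le_sum fun h hh => ?_)
    · obtain ⟨h1, h2, h3, h4, h5⟩ := bounds (hb h hh)
      refine ⟨?_, ?_⟩
      · rw [abs_of_nonneg h1]
        exact h2
      · rw [abs_of_nonneg (Real.exp_pos _).le]
        exact h4
    · obtain ⟨h1, h2, h3, h4, h5⟩ := bounds (hb h hh)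
      refine h5.trans ?_
      have : (D h / 2) ^ 4 = D h ^ 4 / 16 := by ring
      rw [this]
      have h6 : 0 ≤ D h ^ 4 := by positivity
      linarith
  · intro α H D hD
    have hb : ∀ h ∈ H, |D h / 2| ≤ 1 / 2 := fun h hh => by
      rw [abs_div, abs_two]
      linarith [hD h hh]
    have e : Real.exp (-(∑ h ∈ H, D h ^ 2) / 8) =
        ∏ h ∈ H, Real.exp (-((D h / 2) ^ 2 / 2)) := by
      rw [← Real.exp_sum, neg_div, Finset.sum_div, ← Finset.sum_neg_distrib]
      congr 1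
      refine Finset.sum_congr rfl fun h _ => ?_
      ring
    rw [e, Finset.abs_prod]
    refine Finset.prod_le_prod (fun _ _ => abs_nonneg _) fun h hh => ?_
    obtain ⟨h1, h2, h3, h4, h5⟩ := bounds (hb h hh)
    rw [abs_of_nonneg h1]
    exact h3

end Pool.Agent.UAB
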