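import Pool.Agent.UAB.St

/-!
# Families of small rank are few
-/

set_option autoImplicit false

namespace Pool.Agent.UAB

open Finset
open Pool.Agent.UAA (G ch nn)

namespace CTDaux

/-- A subspace of dimension at most `D` is contained in the span of `D` vectors. -/
theorem exists_span {p d : ℕ} [Fact p.Prime] (W : Submodule (ZMod p) (G p d)) (D : ℕ)
    (h : Module.finrank (ZMod p) W ≤ D) :
    ∃ B : Fin D → G p d, W ≤ Submodule.span (ZMod p) (Set.range B) := by
  let b := Module.finBasis (ZMod p) W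
  refine ⟨fun j => if hj : j.val < Module.finrank (ZMod p) W then (b ⟨j.val, hj⟩ : G p d) else 0, ?_⟩
  intro v hv
  have h1 : v = ∑ i, b.repr ⟨v, hv⟩ i • (b i : G p d) := by
    have h2 := congrArg (fun w : W => (w : G p d)) (b.sum_repr ⟨v, hv⟩)
    simp only [Submodule.coe_sum, Submodule.coe_smul] at h2
    exact h2.symm
  rw [h1]
  apply Submodule.sum_mem
  intro i _
  apply Submodule.smul_mem
  apply Submodule.subset_span
  refine ⟨⟨i.val, lt_of_lt_of_le i.isLt h⟩, ?_⟩
  simp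

/-- The family of quadruples with given coefficients. -/
noncomputable def mk {p d N D : ℕ} (t : (Fin D → G p d) × (Fin N → Fin 3 → Fin D → ZMod p)) :
    Fin N → G p d × G p d × G p d := fun i =>
  (∑ j, t.2 i 0 j • t.1 j, ∑ j, t.2 i 1 j • t.1 j, ∑ j, t.2 i 2 j • t.1 j)

theorem mem_range {p d N D : ℕ} [Fact p.Prime] (Q : Fin N → G p d × G p d × G p d)
    (h : rk (X Q) ≤ D) : Q ∈ Set.range (mk (p := p) (d := d) (N := N) (D := D)) := by
  obtain ⟨B, hB⟩ := exists_span (Submodule.span (ZMod p) (Set.range (X Q))) D h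
  have h1 : ∀ s, ∃ c : Fin D → ZMod p, ∑ j, c j • B j = X Q s := fun s =>
    (Submodule.mem_span_range_iff_exists_fun (ZMod p)).1
      (hB (Submodule.subset_span (Set.mem_range_self s)))
  choose c hc using h1
  refine ⟨(B, fun i k => c (i, Fin.castSucc k)), ?_⟩
  funext i
  have e0 : (∑ j, c (i, Fin.castSucc (0 : Fin 3)) j • B j) = (Q i).1 := by
    rw [hc]; rfl
  have e1 : (∑ j, c (i, Fin.castSucc (1 : Fin 3)) j • B j) = (Q i).2.1 := by
    rw [hc]; rfl
  have e2 : (∑ j, c (i, Fin.castSucc (2 : Fin 3)) j • B j) = (Q i).2.2 := by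
    rw [hc]; rfl
  unfold mk
  dsimp only
  rw [e0, e1, e2]

end CTDaux

theorem t_CTD : CTD_Stmt := by
  intro p d N D _ hp
  have : Fact p.Prime := ⟨hp⟩
  classical
  have hp1 : (1 : ℝ) ≤ p := by exact_mod_cast hp.one_lt.le
  have hn : (nn p d : ℝ) = ((p ^ d : ℕ) : ℝ) := by
    unfold nn
    push_cast
    rfl
  have hn1 : (1 : ℝ) ≤ nn p d := by
    rw [hn]
    exact_mod_cast Nat.one_le_pow _ _ hp.pos
  have hfin : {Q : Fin N → G p d × G p d × G p d | rk (X Q) ≤ D}.Finite := Set.toFinite _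
  have h2 : (1 : ℝ) ≤ 2 ^ (3 * N) := one_le_pow₀ (by norm_num)
  have hp9 : (1 : ℝ) ≤ (p : ℝ) ^ (9 * N ^ 2) := one_le_pow₀ hp1
  rcases le_total D (3 * N) with hD | hD
  · have h3 : Set.ncard {Q : Fin N → G p d × G p d × G p d | rk (X Q) ≤ D} ≤
        Set.ncard (Set.range (CTDaux.mk (p := p) (d := d) (N := N) (D := D))) :=
      Set.ncard_le_ncard (fun Q hQ => CTDaux.mem_range Q hQ) (Set.toFinite _)
    have h4 : Set.ncard (Set.range (CTDaux.mk (p := p) (d := d) (N := N) (D := D))) ≤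
        Fintype.card ((Fin D → G p d) × (Fin N → Fin 3 → Fin D → ZMod p)) := by
      rw [← Set.image_univ]
      refine le_trans (Set.ncard_image_le (Set.toFinite _)) ?_
      rw [Set.ncard_univ, Nat.card_eq_fintype_card]
    have h5 : Fintype.card ((Fin D → G p d) × (Fin N → Fin 3 → Fin D → ZMod p)) =
        (p ^ d) ^ D * p ^ (D * 3 * N) := by
      rw [Fintype.card_prod]
      simp only [Fintype.card_pi, Fintype.card_fin, ZMod.card, Finset.prod_const, Finset.card_univ]
      rw [← pow_mul, ← pow_mul, ← pow_mul]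
      congr 2
      ring
    have h6 : D * 3 * N ≤ 9 * N ^ 2 := by
      calc D * 3 * N ≤ (3 * N) * 3 * N := by gcongr
        _ = 9 * N ^ 2 := by ring
    have h7 : (Set.ncard {Q : Fin N → G p d × G p d × G p d | rk (X Q) ≤ D} : ℝ) ≤
        nn p d ^ D * (p : ℝ) ^ (D * 3 * N) := by
      have h8 := le_trans h3 (le_trans h4 (le_of_eq h5))
      rw [hn]
      exact_mod_cast h8
    calc (Set.ncard {Q : Fin N → G p d × G p d × G p d | rk (X Q) ≤ D} : ℝ)
        ≤ nn p d ^ D * (p : ℝ) ^ (D * 3 * N) := h7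
      _ ≤ nn p d ^ D * (p : ℝ) ^ (9 * N ^ 2) := by
          gcongr
      _ = 1 * (p : ℝ) ^ (9 * N ^ 2) * nn p d ^ D := by ring
      _ ≤ 2 ^ (3 * N) * (p : ℝ) ^ (9 * N ^ 2) * nn p d ^ D := by gcongr
  · have h3 : Set.ncard {Q : Fin N → G p d × G p d × G p d | rk (X Q) ≤ D} ≤
        (p ^ d) ^ (3 * N) := by
      refine le_trans (Set.ncard_le_ncard (Set.subset_univ _) (Set.toFinite _)) ?_
      rw [Set.ncard_univ, Nat.card_eq_fintype_card]
      simp only [Fintype.card_pi, Fintype.card_prod, Fintype.card_fin, ZMod.card,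
        Finset.prod_const, Finset.card_univ]
      apply le_of_eq
      ring
    calc (Set.ncard {Q : Fin N → G p d × G p d × G p d | rk (X Q) ≤ D} : ℝ)
        ≤ nn p d ^ (3 * N) := by
          rw [hn]
          exact_mod_cast h3
      _ ≤ nn p d ^ D := by
          gcongr
      _ = 1 * 1 * nn p d ^ D := by ring
      _ ≤ 2 ^ (3 * N) * (p : ℝ) ^ (9 * N ^ 2) * nn p d ^ D := by gcongr

end Pool.Agent.UAB
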