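import Pool.Agent.UAB.St
import Pool.Agent.UAA.FOU

/-!
# Module DE1: the fourth moment
-/

set_option autoImplicit false

namespace Pool.Agent.UAB

open Finset
open Pool.Agent.UAA (G ch nn)
open Pool.Agent.UAA.FOUaux (U four parseval)

namespace DE1aux

variable {p d : ℕ} [NeZero p]

theorem card_G (p d : ℕ) [NeZero p] : (Fintype.card (G p d) : ℝ) = nn p d := by
  unfold nn
  rw [Fintype.card_fun, ZMod.card, Fintype.card_fin]
  push_cast
  rfl

theorem nn_pos (p d : ℕ) [NeZero p] : 0 < nn p d := by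
  rw [← card_G]
  exact_mod_cast Fintype.card_pos

theorem T4f_eq (w : G p d → ℂ) : T4f w = ∑ t : Fin 2 → G p d, ∑ m : Fin 2 → G p d,
    if t 0 + t 1 = m 0 + m 1 then
      w (t 0) * w (t 1) * (starRingEnd ℂ) (w (m 0) * w (m 1)) else 0 := by
  have e1 : ∀ s : G p d × G p d, (∑ m : Fin 2 → G p d, if s.1 + s.2 = m 0 + m 1 then
      w s.1 * w s.2 * (starRingEnd ℂ) (w (m 0) * w (m 1)) else 0) =
      ∑ c : G p d, q4 w (s.1, s.2, c) := by
    intro s
    have e : (∑ m : Fin 2 → G p d, if s.1 + s.2 = m 0 + m 1 then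
        w s.1 * w s.2 * (starRingEnd ℂ) (w (m 0) * w (m 1)) else 0) =
        ∑ z : G p d × G p d, if s.1 + s.2 = z.1 + z.2 then
          w s.1 * w s.2 * (starRingEnd ℂ) (w z.1 * w z.2) else 0 :=
      Fintype.sum_equiv (finTwoArrowEquiv (G p d)) _ _ (fun m => rfl)
    rw [e, Fintype.sum_prod_type]
    refine Finset.sum_congr rfl fun c _ => ?_
    have e2 : ∀ y : G p d, (if s.1 + s.2 = (c, y).1 + (c, y).2 then
        w s.1 * w s.2 * (starRingEnd ℂ) (w (c, y).1 * w (c, y).2) else 0) =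
        if s.1 + s.2 - c = y then q4 w (s.1, s.2, c) else 0 := by
      intro y
      by_cases h : s.1 + s.2 - c = y
      · have h' : s.1 + s.2 = (c, y).1 + (c, y).2 := by
          rw [← h]
          simp
        rw [if_pos h, if_pos h']
        unfold q4
        rw [← h, map_mul]
        ring
      · have h' : ¬ s.1 + s.2 = (c, y).1 + (c, y).2 := by
          intro h1
          apply h
          rw [h1]
          simp
        rw [if_neg h, if_neg h']
    rw [Finset.sum_congr rfl fun y _ => e2 y, Finset.sum_ite_eq, if_pos (Finset.mem_univ _)]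
  have e3 : (∑ t : Fin 2 → G p d, ∑ m : Fin 2 → G p d,
      if t 0 + t 1 = m 0 + m 1 then
        w (t 0) * w (t 1) * (starRingEnd ℂ) (w (m 0) * w (m 1)) else 0) =
      ∑ s : G p d × G p d, ∑ m : Fin 2 → G p d, if s.1 + s.2 = m 0 + m 1 then
        w s.1 * w s.2 * (starRingEnd ℂ) (w (m 0) * w (m 1)) else 0 :=
    Fintype.sum_equiv (finTwoArrowEquiv (G p d)) _ _ (fun m => rfl)
  rw [e3, Finset.sum_congr rfl fun s _ => e1 s]
  unfold T4f
  rw [Fintype.sum_prod_type, Fintype.sum_prod_type]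
  refine Finset.sum_congr rfl fun a _ => ?_
  rw [Fintype.sum_prod_type]

theorem moment (w : G p d → ℂ) :
    (nn p d : ℂ) * T4f w = ((∑ b, ‖∑ x, w x * ch b x‖ ^ 4 : ℝ) : ℂ) := by
  rw [T4f_eq, ← four w]
  push_cast
  rfl

end DE1aux

open DE1aux in
theorem t_DE1 : DE1_Stmt := by
  intro p d hp w hw
  have hn : 0 < nn p d := nn_pos p d
  have hm := moment w
  have hT : T4f w = (((∑ b, ‖∑ x, w x * ch b x‖ ^ 4) / nn p d : ℝ) : ℂ) := by
    have h0 : (nn p d : ℂ) ≠ 0 := by exact_mod_cast hn.ne'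
    rw [Complex.ofReal_div, eq_div_iff h0, mul_comm]
    exact hm
  have hre : (T4f w).re = (∑ b, ‖∑ x, w x * ch b x‖ ^ 4) / nn p d := by
    rw [hT, Complex.ofReal_re]
  have hpar : ∑ b, ‖∑ x, w x * ch b x‖ ^ 2 = nn p d * nn p d := by
    have h1 := parseval w
    have h2 : ∑ x : G p d, ‖w x‖ ^ 2 = nn p d := by
      rw [← card_G, Finset.sum_congr rfl fun x _ => by rw [hw x, one_pow]]
      simp
    rw [h2] at h1
    exact h1
  refine ⟨hm, by rw [hT, Complex.ofReal_im], ?_, ?_, ?_⟩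
  · rw [hre, le_div_iff₀ hn]
    have h1 : (∑ b : G p d, ‖∑ x, w x * ch b x‖ ^ 2) ^ 2 ≤
        (Finset.univ : Finset (G p d)).card * ∑ b, (‖∑ x, w x * ch b x‖ ^ 2) ^ 2 :=
      sq_sum_le_card_mul_sum_sq
    rw [hpar, Finset.card_univ, card_G] at h1
    have h2 : ∑ b : G p d, (‖∑ x, w x * ch b x‖ ^ 2) ^ 2 = ∑ b, ‖∑ x, w x * ch b x‖ ^ 4 :=
      Finset.sum_congr rfl fun b _ => by ring
    rw [h2] at h1
    have h3 : nn p d * (nn p d ^ 2 * nn p d) ≤ nn p d * ∑ b, ‖∑ x, w x * ch b x‖ ^ 4 := by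
      calc nn p d * (nn p d ^ 2 * nn p d) = (nn p d * nn p d) ^ 2 := by ring
        _ ≤ _ := h1
    exact le_of_mul_le_mul_left h3 hn
  · intro hf
    rw [hre, div_eq_iff hn.ne']
    have h2 : ∀ b : G p d, ‖∑ x, w x * ch b x‖ ^ 4 = nn p d ^ 2 := by
      intro b
      have := hf b
      calc ‖∑ x, w x * ch b x‖ ^ 4 = (‖∑ x, w x * ch b x‖ ^ 2) ^ 2 := by ring
        _ = _ := by rw [this]
    rw [Finset.sum_congr rfl fun b _ => h2 b, Finset.sum_const, Finset.card_univ, nsmul_eq_mul,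
      card_G]
    ring
  · intro hf
    have h1 := hf 0
    have h2 : ∀ x : G p d, w x * ch 0 x = w x := by
      intro x
      unfold ch
      simp
    rw [Finset.sum_congr rfl fun x _ => h2 x] at h1
    exact h1

end Pool.Agent.UAB
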