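import Pool.Agent.UAB.St
import Pool.Agent.UAA.FOU

/-!
# Module DE2: the decomposition of the fourth moment
-/

set_option autoImplicit false

namespace Pool.Agent.UAB

open Finset
open Pool.Agent.UAA (G ch nn)

namespace DE2aux

open Pool.Agent.UAA.FOUaux (sum_ch ch_add ch_zero ch_neg)

variable {p d : ℕ} [NeZero p]

/-- The transform. -/
noncomputable def hat (f : G p d → ℂ) (b : G p d) : ℂ := ∑ x, f x * ch b x

/-- The convolution. -/
noncomputable def conv (f g : G p d → ℂ) (x : G p d) : ℂ := ∑ y, f y * g (x - y)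

/-- The adjoint. -/
noncomputable def rev (f : G p d → ℂ) (x : G p d) : ℂ := (starRingEnd ℂ) (f (-x))

theorem sum_hat (f : G p d → ℂ) : ∑ b, hat f b = nn p d * f 0 := by
  unfold hat
  rw [Finset.sum_comm]
  have h : ∀ x, ∑ b, f x * ch b x = if x = 0 then f x * nn p d else 0 := by
    intro x
    rw [← Finset.mul_sum, sum_ch]
    split_ifs <;> simp
  rw [Finset.sum_congr rfl fun x _ => h x, Finset.sum_ite_eq', if_pos (Finset.mem_univ _), mul_comm]

theorem hat_conv (f g : G p d → ℂ) (b : G p d) : hat (conv f g) b = hat f b * hat g b := by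
  unfold hat conv
  rw [Finset.sum_mul_sum]
  simp_rw [Finset.sum_mul]
  rw [Finset.sum_comm]
  refine Finset.sum_congr rfl fun y _ => ?_
  refine Fintype.sum_equiv (Equiv.subRight y) _ _ fun x => ?_
  rw [Equiv.subRight_apply]
  have h : ch b x = ch b y * ch b (x - y) := by
    rw [← ch_add]
    congr 1
    abel
  rw [h]
  ring

theorem hat_rev (f : G p d → ℂ) (b : G p d) : hat (rev f) b = (starRingEnd ℂ) (hat f b) := by
  unfold hat rev
  rw [map_sum]
  refine Fintype.sum_equiv (Equiv.neg _) _ _ fun x => ?_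
  rw [Equiv.neg_apply, map_mul, ← ch_neg, neg_neg]

theorem conv4 (v : G p d → ℂ) : conv (conv v v) (conv (rev v) (rev v)) 0 = T4f v := by
  have h : ∀ y, conv (rev v) (rev v) (0 - y) =
      ∑ c, (starRingEnd ℂ) (v c) * (starRingEnd ℂ) (v (y - c)) := by
    intro y
    unfold conv rev
    refine Fintype.sum_equiv (Equiv.neg _) _ _ fun t => ?_
    rw [Equiv.neg_apply]
    have h1 : -(0 - y - t) = y - -t := by abel
    rw [h1]
  unfold T4f q4
  rw [Fintype.sum_prod_type]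
  simp_rw [Fintype.sum_prod_type]
  change ∑ y, conv v v y * conv (rev v) (rev v) (0 - y) = _
  simp_rw [h]
  unfold conv
  simp_rw [Finset.sum_mul]
  rw [Finset.sum_comm]
  refine Finset.sum_congr rfl fun a _ => ?_
  refine Fintype.sum_equiv (Equiv.subRight a) _ _ fun y => ?_
  rw [Equiv.subRight_apply, Finset.mul_sum]
  refine Finset.sum_congr rfl fun c _ => ?_
  have h1 : a + (y - a) - c = y - c := by abel
  rw [h1]
  ring

theorem conv3 (v : G p d → ℂ) :
    conv (conv v v) (rev v) 0 = ∑ a, ∑ b, v a * v b * (starRingEnd ℂ) (v (a + b)) := by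
  have h : ∀ y, rev v (0 - y) = (starRingEnd ℂ) (v y) := by
    intro y
    unfold rev
    have h1 : -(0 - y) = y := by abel
    rw [h1]
  change ∑ y, conv v v y * rev v (0 - y) = _
  simp_rw [h]
  unfold conv
  simp_rw [Finset.sum_mul]
  rw [Finset.sum_comm]
  refine Finset.sum_congr rfl fun a _ => ?_
  refine Fintype.sum_equiv (Equiv.subRight a) _ _ fun y => ?_
  rw [Equiv.subRight_apply]
  have h1 : a + (y - a) = y := by abel
  rw [h1]

section data

variable {w u : G p d → ℂ}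

theorem hat_split (hu : ∀ x, u x = if x = 0 then 0 else w x) (b : G p d) :
    hat w b = w 0 + hat u b := by
  have h : ∀ x, w x * ch b x = (if x = 0 then w x * ch b x else 0) + u x * ch b x := by
    intro x
    rw [hu]
    split_ifs <;> simp
  unfold hat
  rw [Finset.sum_congr rfl fun x _ => h x, Finset.sum_add_distrib, Finset.sum_ite_eq',
    if_pos (Finset.mem_univ _), ch_zero, mul_one]

theorem card_G : (Fintype.card (G p d) : ℂ) = nn p d := by
  unfold nn
  rw [Fintype.card_fun, Fintype.card_fin, ZMod.card]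
  push_cast
  rfl

theorem sum_one : ∑ _b : G p d, (1 : ℂ) = nn p d := by
  rw [Finset.sum_const, Finset.card_univ, nsmul_eq_mul, mul_one, card_G]

theorem sum_z : ∑ x : G p d, (if x = 0 then (0 : ℂ) else 1) = nn p d - 1 := by
  have h : ∀ x : G p d, (if x = 0 then (0 : ℂ) else 1) = 1 - if x = 0 then 1 else 0 := by
    intro x
    split_ifs <;> simp
  rw [Finset.sum_congr rfl fun x _ => h x, Finset.sum_sub_distrib, sum_one, Finset.sum_ite_eq',
    if_pos (Finset.mem_univ _)]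

theorem u_mul_conj (hw : EV w) (hu : ∀ x, u x = if x = 0 then 0 else w x) (x : G p d) :
    u x * (starRingEnd ℂ) (u x) = if x = 0 then 0 else 1 := by
  rw [hu]
  split_ifs
  · simp
  · rw [Complex.mul_conj, Complex.normSq_eq_norm_sq, hw.1]
    simp

theorem w_mul_conj (hw : EV w) (x : G p d) : w x * (starRingEnd ℂ) (w x) = 1 := by
  rw [Complex.mul_conj, Complex.normSq_eq_norm_sq, hw.1]
  simp

theorem u_neg (hw : EV w) (hu : ∀ x, u x = if x = 0 then 0 else w x) (x : G p d) :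
    u (-x) = u x := by
  rw [hu, hu, hw.2]
  simp only [neg_eq_zero]

theorem sum_u2 (hu : ∀ x, u x = if x = 0 then 0 else w x) : ∑ x, u x * u x = T2 w := by
  unfold T2
  rw [← Finset.sum_erase_add univ _ (Finset.mem_univ (0 : G p d)), hu 0, if_pos rfl, mul_zero,
    add_zero]
  refine Finset.sum_congr rfl fun x hx => ?_
  rw [hu, if_neg (Finset.ne_of_mem_erase hx), sq]

theorem sum_u3 (hu : ∀ x, u x = if x = 0 then 0 else w x) :
    ∑ a, ∑ b, u a * u b * (starRingEnd ℂ) (u (a + b)) = T3 w := by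
  unfold T3
  rw [Finset.sum_filter, Fintype.sum_prod_type]
  refine Finset.sum_congr rfl fun a _ => Finset.sum_congr rfl fun b _ => ?_
  rw [hu, hu, hu]
  by_cases h1 : a = 0
  · simp [h1]
  by_cases h2 : b = 0
  · simp [h2]
  by_cases h3 : a + b = 0
  · simp [h3]
  · simp [h1, h2, h3]

theorem sum_T4 (v : G p d → ℂ) :
    ∑ b, (hat v b * (starRingEnd ℂ) (hat v b)) ^ 2 = nn p d * T4f v := by
  rw [← conv4, ← sum_hat]
  refine Finset.sum_congr rfl fun b _ => ?_
  rw [hat_conv, hat_conv, hat_conv, hat_rev]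
  ring

theorem T4_expand (hw : EV w) (hu : ∀ x, u x = if x = 0 then 0 else w x) :
    T4f w = T4f u + 1 + 4 * (nn p d - 1) + (starRingEnd ℂ) (w 0) ^ 2 * T2 w +
      w 0 ^ 2 * (starRingEnd ℂ) (T2 w) + 2 * (starRingEnd ℂ) (w 0) * T3 w +
      2 * w 0 * (starRingEnd ℂ) (T3 w) := by
  have hn : (nn p d : ℂ) ≠ 0 := by
    unfold nn
    push_cast
    exact pow_ne_zero _ (by exact_mod_cast NeZero.ne p)
  have hu0 : u 0 = 0 := by rw [hu, if_pos rfl]
  have s1 : ∑ b, hat u b = 0 := by rw [sum_hat, hu0, mul_zero]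
  have s1' : ∑ b, (starRingEnd ℂ) (hat u b) = 0 := by rw [← map_sum, s1, map_zero]
  have s2 : ∑ b, hat u b * hat u b = nn p d * T2 w := by
    rw [← sum_u2 hu]
    have h := sum_hat (conv u u)
    simp_rw [hat_conv] at h
    rw [h]
    unfold conv
    congr 1
    refine Finset.sum_congr rfl fun x _ => ?_
    rw [zero_sub, u_neg hw hu]
  have s2' : ∑ b, (starRingEnd ℂ) (hat u b) * (starRingEnd ℂ) (hat u b) =
      nn p d * (starRingEnd ℂ) (T2 w) := by
    have h := congrArg (starRingEnd ℂ) s2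
    rw [map_sum, map_mul, Complex.conj_ofReal] at h
    simp_rw [map_mul] at h
    exact h
  have s3 : ∑ b, hat u b * (starRingEnd ℂ) (hat u b) = nn p d * (nn p d - 1) := by
    have h := sum_hat (conv u (rev u))
    simp_rw [hat_conv, hat_rev] at h
    rw [h, ← sum_z (p := p) (d := d)]
    unfold conv rev
    congr 1
    refine Finset.sum_congr rfl fun x _ => ?_
    rw [zero_sub, neg_neg, u_mul_conj hw hu]
  have s4 : ∑ b, hat u b * hat u b * (starRingEnd ℂ) (hat u b) = nn p d * T3 w := by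
    have h := sum_hat (conv (conv u u) (rev u))
    simp_rw [hat_conv, hat_rev] at h
    rw [h, conv3, sum_u3 hu]
  have s4' : ∑ b, (starRingEnd ℂ) (hat u b) * (starRingEnd ℂ) (hat u b) * hat u b =
      nn p d * (starRingEnd ℂ) (T3 w) := by
    have h := congrArg (starRingEnd ℂ) s4
    rw [map_sum, map_mul, Complex.conj_ofReal] at h
    simp_rw [map_mul, Complex.conj_conj] at h
    exact h
  have s5 := sum_T4 u
  have s6 := sum_T4 w
  have hP := w_mul_conj hw 0
  have hpt : ∀ b, (hat w b * (starRingEnd ℂ) (hat w b)) ^ 2 =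
      1 + w 0 ^ 2 * ((starRingEnd ℂ) (hat u b) * (starRingEnd ℂ) (hat u b)) +
      (starRingEnd ℂ) (w 0) ^ 2 * (hat u b * hat u b) +
      (hat u b * (starRingEnd ℂ) (hat u b)) ^ 2 +
      2 * w 0 * (starRingEnd ℂ) (hat u b) + 2 * (starRingEnd ℂ) (w 0) * hat u b +
      4 * (hat u b * (starRingEnd ℂ) (hat u b)) +
      2 * w 0 * ((starRingEnd ℂ) (hat u b) * (starRingEnd ℂ) (hat u b) * hat u b) +
      2 * (starRingEnd ℂ) (w 0) * (hat u b * hat u b * (starRingEnd ℂ) (hat u b)) := by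
    intro b
    rw [hat_split hu, map_add]
    linear_combination (w 0 * (starRingEnd ℂ) (w 0) + 1 +
      2 * (w 0 * (starRingEnd ℂ) (hat u b) + (starRingEnd ℂ) (w 0) * hat u b +
        hat u b * (starRingEnd ℂ) (hat u b)) + 2 * hat u b * (starRingEnd ℂ) (hat u b)) * hP
  rw [Finset.sum_congr rfl fun b _ => hpt b] at s6
  simp only [Finset.sum_add_distrib, ← Finset.mul_sum] at s6
  rw [sum_one, s2', s2, s5, s1', s1, s3, s4', s4] at s6
  have h7 : (nn p d : ℂ) * T4f w = nn p d * (T4f u + 1 + 4 * (nn p d - 1) +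
      (starRingEnd ℂ) (w 0) ^ 2 * T2 w +
      w 0 ^ 2 * (starRingEnd ℂ) (T2 w) + 2 * (starRingEnd ℂ) (w 0) * T3 w +
      2 * w 0 * (starRingEnd ℂ) (T3 w)) := by
    rw [← s6]
    ring
  exact mul_left_cancel₀ hn h7

theorem T3_bound (hw : EV w) (hu : ∀ x, u x = if x = 0 then 0 else w x) :
    0 ≤ (T4f u).re ∧ ‖T3 w‖ ^ 2 ≤ nn p d * (T4f u).re := by
  have hn : 1 ≤ nn p d := by
    unfold nn
    exact one_le_pow₀ (by exact_mod_cast NeZero.one_le)
  have hn0 : 0 < nn p d := by linarith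
  have s3 : ∑ b, hat u b * (starRingEnd ℂ) (hat u b) = nn p d * (nn p d - 1) := by
    have h := sum_hat (conv u (rev u))
    simp_rw [hat_conv, hat_rev] at h
    rw [h, ← sum_z (p := p) (d := d)]
    unfold conv rev
    congr 1
    refine Finset.sum_congr rfl fun x _ => ?_
    rw [zero_sub, neg_neg, u_mul_conj hw hu]
  have s4 : ∑ b, hat u b * hat u b * (starRingEnd ℂ) (hat u b) = nn p d * T3 w := by
    have h := sum_hat (conv (conv u u) (rev u))
    simp_rw [hat_conv, hat_rev] at h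
    rw [h, conv3, sum_u3 hu]
  have hz : ∀ z : ℂ, z * (starRingEnd ℂ) z = ((‖z‖ ^ 2 : ℝ) : ℂ) := fun z => by
    rw [Complex.mul_conj, Complex.normSq_eq_norm_sq]
  have r3 : ∑ b, ‖hat u b‖ ^ 2 = nn p d * (nn p d - 1) := by
    simp_rw [hz] at s3
    exact_mod_cast s3
  have r5 : ∑ b, ‖hat u b‖ ^ 4 = nn p d * (T4f u).re := by
    have s5 := sum_T4 u
    simp_rw [hz] at s5
    have h := congrArg Complex.re s5
    rw [Complex.re_ofReal_mul] at h
    rw [← h, ← Complex.ofReal_re (∑ b, ‖hat u b‖ ^ 4)]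
    congr 1
    push_cast
    refine Finset.sum_congr rfl fun b _ => ?_
    ring
  have h5 : 0 ≤ (T4f u).re := by
    have h : 0 ≤ nn p d * (T4f u).re := by
      rw [← r5]
      positivity
    exact nonneg_of_mul_nonneg_right h hn0
  refine ⟨h5, ?_⟩
  have h6 : nn p d * ‖T3 w‖ ≤ ∑ b, ‖hat u b‖ * ‖hat u b‖ ^ 2 := by
    have h := norm_sum_le (univ : Finset (G p d))
      fun b => hat u b * hat u b * (starRingEnd ℂ) (hat u b)
    rw [s4, norm_mul, Complex.norm_of_nonneg hn0.le] at h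
    refine h.trans (le_of_eq (Finset.sum_congr rfl fun b _ => ?_))
    rw [norm_mul, norm_mul, RCLike.norm_conj]
    ring
  have h7 := Finset.sum_mul_sq_le_sq_mul_sq (univ : Finset (G p d)) (fun b => ‖hat u b‖)
    fun b => ‖hat u b‖ ^ 2
  have h8 : ∑ b, (‖hat u b‖ ^ 2) ^ 2 = ∑ b, ‖hat u b‖ ^ 4 :=
    Finset.sum_congr rfl fun b _ => by ring
  rw [h8, r3, r5] at h7
  have h9 : (nn p d * ‖T3 w‖) ^ 2 ≤ nn p d * (nn p d - 1) * (nn p d * (T4f u).re) :=
    (pow_le_pow_left₀ (by positivity) h6 2).trans h7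
  have h10 : nn p d ^ 2 * ‖T3 w‖ ^ 2 ≤ nn p d ^ 2 * ((nn p d - 1) * (T4f u).re) := by
    calc nn p d ^ 2 * ‖T3 w‖ ^ 2 = (nn p d * ‖T3 w‖) ^ 2 := by ring
      _ ≤ _ := h9
      _ = _ := by ring
  have h11 := le_of_mul_le_mul_left h10 (by positivity)
  nlinarith

theorem q4u (hu : ∀ x, u x = if x = 0 then 0 else w x) (t : G p d × G p d × G p d) :
    q4 u t = if t.1 ≠ 0 ∧ t.2.1 ≠ 0 ∧ t.2.2 ≠ 0 ∧ t.1 + t.2.1 - t.2.2 ≠ 0 then q4 w t else 0 := by
  unfold q4
  rw [hu, hu, hu, hu]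
  by_cases h1 : t.1 = 0
  · simp [h1]
  by_cases h2 : t.2.1 = 0
  · simp [h2]
  by_cases h3 : t.2.2 = 0
  · simp [h3]
  by_cases h4 : t.1 + t.2.1 - t.2.2 = 0
  · simp [h4]
  · rw [if_neg h1, if_neg h2, if_neg h3, if_neg h4, if_pos ⟨h1, h2, h3, h4⟩]

theorem norm_q4 (hw : EV w) (t : G p d × G p d × G p d) : ‖q4 w t‖ = 1 := by
  unfold q4
  rw [norm_mul, norm_mul, norm_mul, RCLike.norm_conj, RCLike.norm_conj, hw.1, hw.1, hw.1, hw.1]
  norm_num

/-- the collinear quadruples -/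
def CC (t : G p d × G p d × G p d) : Prop :=
  (t.1 ≠ 0 ∧ t.2.1 ≠ 0 ∧ t.2.2 ≠ 0 ∧ t.1 + t.2.1 - t.2.2 ≠ 0) ∧ t.1 ≠ t.2.2 ∧ t.2.1 ≠ t.2.2 ∧
    t.1 + t.2.1 ≠ 0 ∧ Col t

open Classical in
theorem card_CC (hp : p.Prime) :
    (((univ : Finset (G p d × G p d × G p d)).filter CC).card : ℝ) ≤ (p : ℝ) ^ 2 * nn p d := by
  have : Fact p.Prime := ⟨hp⟩
  have h : (univ : Finset (G p d × G p d × G p d)).filter CC ⊆
      (univ : Finset (G p d × ZMod p × ZMod p)).image
        fun x => (x.1, x.2.1 • x.1, x.2.2 • x.1) := by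
    intro t ht
    obtain ⟨⟨h1, -, -, -⟩, -, -, -, e, i, j, k, rfl⟩ := (Finset.mem_filter.1 ht).2
    have hi : i ≠ 0 := by
      rintro rfl
      exact h1 (zero_smul _ e)
    refine Finset.mem_image.2 ⟨(i • e, j * i⁻¹, k * i⁻¹), Finset.mem_univ _, ?_⟩
    simp only [smul_smul]
    rw [mul_assoc, inv_mul_cancel₀ hi, mul_one, mul_assoc, inv_mul_cancel₀ hi, mul_one]
  have h2 := (Finset.card_le_card h).trans Finset.card_image_le
  rw [Finset.card_univ, Fintype.card_prod, Fintype.card_prod, ZMod.card, Fintype.card_fun,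
    ZMod.card, Fintype.card_fin] at h2
  have h3 : (((univ : Finset (G p d × G p d × G p d)).filter CC).card : ℝ) ≤
      ((p ^ d * (p * p) : ℕ) : ℝ) := by exact_mod_cast h2
  refine h3.trans (le_of_eq ?_)
  unfold nn
  push_cast
  ring

/-- the indicator of `a = c` -/
noncomputable def i1 (t : G p d × G p d × G p d) : ℂ := if t.1 = t.2.2 then 1 else 0

/-- the indicator of `b = c` -/
noncomputable def i2 (t : G p d × G p d × G p d) : ℂ := if t.2.1 = t.2.2 then 1 else 0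

/-- the indicator of `b = -a` -/
noncomputable def i3 (t : G p d × G p d × G p d) : ℂ := if t.2.1 = -t.1 then 1 else 0

theorem sum_i1 (F : G p d × G p d × G p d → ℂ) :
    ∑ t, F t * i1 t = ∑ a, ∑ b, F (a, b, a) := by
  rw [Fintype.sum_prod_type]
  refine Finset.sum_congr rfl fun a _ => ?_
  rw [Fintype.sum_prod_type]
  refine Finset.sum_congr rfl fun b _ => ?_
  simp only [i1, mul_ite, mul_one, mul_zero]
  rw [Finset.sum_ite_eq, if_pos (Finset.mem_univ _)]

theorem sum_i2 (F : G p d × G p d × G p d → ℂ) :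
    ∑ t, F t * i2 t = ∑ a, ∑ b, F (a, b, b) := by
  rw [Fintype.sum_prod_type]
  refine Finset.sum_congr rfl fun a _ => ?_
  rw [Fintype.sum_prod_type]
  refine Finset.sum_congr rfl fun b _ => ?_
  simp only [i2, mul_ite, mul_one, mul_zero]
  rw [Finset.sum_ite_eq, if_pos (Finset.mem_univ _)]

theorem sum_i3 (F : G p d × G p d × G p d → ℂ) :
    ∑ t, F t * i3 t = ∑ a, ∑ c, F (a, -a, c) := by
  rw [Fintype.sum_prod_type]
  refine Finset.sum_congr rfl fun a _ => ?_
  rw [Fintype.sum_prod_type, Finset.sum_comm]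
  refine Finset.sum_congr rfl fun c _ => ?_
  simp only [i3, mul_ite, mul_one, mul_zero]
  rw [Finset.sum_ite_eq', if_pos (Finset.mem_univ _)]

theorem T4u (hp : p.Prime) (hp2 : p ≠ 2) (hw : EV w)
    (hu : ∀ x, u x = if x = 0 then 0 else w x) :
    ∃ κ : ℂ, ‖κ‖ ≤ (p : ℝ) ^ 2 * nn p d ∧ T4f u = 2 * (nn p d - 1) ^ 2 - (nn p d - 1) +
      T2 w * (starRingEnd ℂ) (T2 w) - 2 * (nn p d - 1) + κ + S4 w := by
  classical
  obtain ⟨z, hz⟩ : ∃ z : G p d → ℂ, z = fun x => if x = 0 then 0 else 1 := ⟨_, rfl⟩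
  have hz1 : ∀ x, u x * (starRingEnd ℂ) (u x) = z x := by
    intro x
    rw [hz, u_mul_conj hw hu]
  have hzz : ∀ x, z x * z x = z x := by
    intro x
    rw [hz]
    dsimp only
    split_ifs <;> simp
  have hsz : ∑ x, z x = nn p d - 1 := by
    rw [hz]
    exact sum_z
  have e1 : ∑ t, q4 u t * i1 t = (nn p d - 1) ^ 2 := by
    rw [sum_i1, ← hsz, sq, Finset.sum_mul_sum]
    refine Finset.sum_congr rfl fun a _ => Finset.sum_congr rfl fun b _ => ?_
    rw [← hz1, ← hz1]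
    simp only [q4]
    rw [add_sub_cancel_left]
    ring
  have e2 : ∑ t, q4 u t * i2 t = (nn p d - 1) ^ 2 := by
    rw [sum_i2, ← hsz, sq, Finset.sum_mul_sum]
    refine Finset.sum_congr rfl fun a _ => Finset.sum_congr rfl fun b _ => ?_
    rw [← hz1, ← hz1]
    simp only [q4]
    rw [add_sub_cancel_right]
    ring
  have e3 : ∑ t, q4 u t * i3 t = T2 w * (starRingEnd ℂ) (T2 w) := by
    rw [sum_i3, ← sum_u2 hu, map_sum, Finset.sum_mul_sum]
    refine Finset.sum_congr rfl fun a _ => Finset.sum_congr rfl fun c _ => ?_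
    simp only [q4]
    rw [add_neg_cancel, zero_sub, u_neg hw hu, u_neg hw hu, map_mul]
    ring
  have e12 : ∑ t, q4 u t * i2 t * i1 t = nn p d - 1 := by
    rw [sum_i1, ← hsz]
    refine Finset.sum_congr rfl fun a _ => ?_
    simp only [i2, mul_ite, mul_one, mul_zero]
    rw [Finset.sum_ite_eq', if_pos (Finset.mem_univ _), ← hzz, ← hz1]
    simp only [q4]
    rw [add_sub_cancel_right]
    ring
  have e13 : ∑ t, q4 u t * i1 t * i3 t = nn p d - 1 := by
    rw [sum_i3, ← hsz]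
    refine Finset.sum_congr rfl fun a _ => ?_
    simp only [i1, mul_ite, mul_one, mul_zero]
    rw [Finset.sum_ite_eq, if_pos (Finset.mem_univ _), ← hzz, ← hz1]
    simp only [q4]
    rw [add_neg_cancel, zero_sub, u_neg hw hu]
    ring
  have e23 : ∑ t, q4 u t * i2 t * i3 t = nn p d - 1 := by
    rw [sum_i3, ← hsz]
    refine Finset.sum_congr rfl fun a _ => ?_
    simp only [i2, mul_ite, mul_one, mul_zero]
    rw [Finset.sum_ite_eq, if_pos (Finset.mem_univ _), ← hzz, ← hz1]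
    simp only [q4]
    rw [add_neg_cancel, zero_sub, neg_neg, u_neg hw hu]
    ring
  have htwo : ∀ a : G p d, a = -a → a = 0 := by
    intro a ha
    have : Fact p.Prime := ⟨hp⟩
    funext i
    have h1 : a i = -a i := by
      have := congrFun ha i
      rwa [Pi.neg_apply] at this
    have h2 : (2 : ZMod p) ≠ 0 := by
      intro h
      have h3 : ((2 : ℕ) : ZMod p) = 0 := by exact_mod_cast h
      rw [ZMod.natCast_eq_zero_iff] at h3
      rcases (Nat.dvd_prime Nat.prime_two).1 h3 with h4 | h4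
      · exact hp.one_lt.ne' h4
      · exact hp2 h4
    have h3 : (2 : ZMod p) * a i = 0 := by
      rw [two_mul]
      nth_rewrite 1 [h1]
      exact neg_add_cancel _
    exact (mul_eq_zero.1 h3).resolve_left h2
  have e123 : ∀ t, q4 u t * i1 t * i2 t * i3 t = 0 := by
    rintro ⟨a, b, c⟩
    by_cases h1 : a = c
    · by_cases h2 : b = c
      · by_cases h3 : b = -a
        · have h4 : a = 0 := htwo a (by rw [← h3, h2, h1])
          have h5 : q4 u (a, b, c) = 0 := by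
            simp [q4, hu, h4]
          rw [h5]
          ring
        · have : i3 (a, b, c) = 0 := if_neg h3
          rw [this, mul_zero]
      · have : i2 (a, b, c) = 0 := if_neg h2
        rw [this, mul_zero, zero_mul]
    · have : i1 (a, b, c) = 0 := if_neg h1
      rw [this, mul_zero, zero_mul, zero_mul]
  refine ⟨∑ t, if CC t then q4 w t else 0, ?_, ?_⟩
  · refine (norm_sum_le _ _).trans ?_
    have h1 : ∀ t : G p d × G p d × G p d, ‖if CC t then q4 w t else 0‖ =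
        if CC t then (1 : ℝ) else 0 := by
      intro t
      split_ifs
      · exact norm_q4 hw t
      · exact norm_zero
    rw [Finset.sum_congr rfl fun t _ => h1 t, ← Finset.sum_filter, Finset.sum_const,
      nsmul_eq_mul, mul_one]
    exact card_CC hp
  · have hpt : ∀ t, q4 u t = q4 u t * i1 t + q4 u t * i2 t - q4 u t * i2 t * i1 t +
        (q4 u t * i3 t - q4 u t * i1 t * i3 t - q4 u t * i2 t * i3 t) +
        (if CC t then q4 w t else 0) + (if Gq t then q4 w t else 0) := by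
      intro t
      have h0 := e123 t
      have h1 : q4 u t * (1 - i1 t) * (1 - i2 t) * (1 - i3 t) =
          (if CC t then q4 w t else 0) + (if Gq t then q4 w t else 0) := by
        have h3 : t.2.1 = -t.1 ↔ t.1 + t.2.1 = 0 := by
          rw [add_comm, add_eq_zero_iff_eq_neg]
        rw [q4u hu]
        unfold i1 i2 i3 CC Gq
        by_cases hN : t.1 ≠ 0 ∧ t.2.1 ≠ 0 ∧ t.2.2 ≠ 0 ∧ t.1 + t.2.1 - t.2.2 ≠ 0
        · obtain ⟨n1, n2, n3, n4⟩ := hN
          by_cases c1 : t.1 = t.2.2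
          · simp [c1]
          by_cases c2 : t.2.1 = t.2.2
          · simp [c2]
          by_cases c3 : t.2.1 = -t.1
          · have c3' := h3.1 c3
            simp [c3]
          · have c3' : ¬ t.1 + t.2.1 = 0 := fun h => c3 (h3.2 h)
            by_cases c4 : Col t
            · simp [c1, c2, c3, c3', c4, n1, n2, n3, n4]
            · simp [c1, c2, c3, c3', c4, n1, n2, n3, n4]
        · have g1 : ¬ (t.1 ≠ 0 ∧ t.2.1 ≠ 0 ∧ t.2.2 ≠ 0 ∧ t.1 + t.2.1 - t.2.2 ≠ 0 ∧
              t.1 ≠ t.2.2 ∧ t.2.1 ≠ t.2.2 ∧ t.1 + t.2.1 ≠ 0 ∧ ¬ Col t) :=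
            fun h => hN ⟨h.1, h.2.1, h.2.2.1, h.2.2.2.1⟩
          have g2 : ¬ ((t.1 ≠ 0 ∧ t.2.1 ≠ 0 ∧ t.2.2 ≠ 0 ∧ t.1 + t.2.1 - t.2.2 ≠ 0) ∧
              t.1 ≠ t.2.2 ∧ t.2.1 ≠ t.2.2 ∧ t.1 + t.2.1 ≠ 0 ∧ Col t) := fun h => hN h.1
          rw [if_neg hN, if_neg g1, if_neg g2]
          ring
      rw [add_assoc, ← h1]
      linear_combination h0
    have h1 : ∑ t, q4 u t = (nn p d - 1) ^ 2 + (nn p d - 1) ^ 2 - (nn p d - 1) +
        (T2 w * (starRingEnd ℂ) (T2 w) - (nn p d - 1) - (nn p d - 1)) +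
        (∑ t, if CC t then q4 w t else 0) + (∑ t, if Gq t then q4 w t else 0) := by
      rw [Finset.sum_congr rfl fun t _ => hpt t]
      simp only [Finset.sum_add_distrib, Finset.sum_sub_distrib]
      rw [e1, e2, e3, e12, e13, e23]
    have h2 : S4 w = ∑ t, if Gq t then q4 w t else 0 := by
      unfold S4
      rw [Finset.sum_filter]
    unfold T4f
    rw [h1, h2]
    ring

/-- the involution which exchanges `(a, b)` and `(c, a + b - c)` -/
def sw (t : G p d × G p d × G p d) : G p d × G p d × G p d := (t.2.2, t.1 + t.2.1 - t.2.2, t.1)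

theorem sw_sw (t : G p d × G p d × G p d) : sw (sw t) = t := by
  obtain ⟨a, b, c⟩ := t
  have h : c + (a + b - c) - a = b := by abel
  unfold sw
  simp only [h]

theorem sw_Gq (t : G p d × G p d × G p d) (ht : Gq t) : Gq (sw t) := by
  obtain ⟨a, b, c⟩ := t
  obtain ⟨h1, h2, h3, h4, h5, h6, h7, h8⟩ := ht
  change a ≠ 0 at h1
  change b ≠ 0 at h2
  change c ≠ 0 at h3
  change a + b - c ≠ 0 at h4
  change a ≠ c at h5
  change b ≠ c at h6
  change a + b ≠ 0 at h7
  refine ⟨h3, h4, h1, ?_, fun h => h5 h.symm, ?_, ?_, ?_⟩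
  · change c + (a + b - c) - a ≠ 0
    have : c + (a + b - c) - a = b := by abel
    rwa [this]
  · change a + b - c ≠ a
    intro h
    apply h6
    have h9 : b - c = (a + b - c) - a := by abel
    rw [h, sub_self] at h9
    exact sub_eq_zero.1 h9
  · change c + (a + b - c) ≠ 0
    have : c + (a + b - c) = a + b := by abel
    rwa [this]
  · rintro ⟨e, i, j, k, h⟩
    apply h8
    simp only [sw, Prod.mk.injEq] at h
    obtain ⟨g1, g2, g3⟩ := h
    refine ⟨e, k, i + j - k, i, ?_⟩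
    have h9 : b = c + (a + b - c) - a := by abel
    rw [g2, g1, g3] at h9
    rw [sub_smul, add_smul, ← h9, g1, g3]

theorem sw_q4 (v : G p d → ℂ) (t : G p d × G p d × G p d) :
    q4 v (sw t) = (starRingEnd ℂ) (q4 v t) := by
  obtain ⟨a, b, c⟩ := t
  have h1 : c + (a + b - c) - a = b := by abel
  simp only [sw, q4]
  rw [h1, map_mul, map_mul, map_mul, Complex.conj_conj, Complex.conj_conj]
  ring

theorem S4_im (v : G p d → ℂ) : (S4 v).im = 0 := by
  classical
  have h1 : (starRingEnd ℂ) (S4 v) = S4 v := by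
    have h2 : S4 v = ∑ t, if Gq t then q4 v t else 0 := by
      unfold S4
      rw [Finset.sum_filter]
    rw [h2, map_sum]
    refine Fintype.sum_equiv (⟨sw, sw, sw_sw, sw_sw⟩ : Equiv.Perm _) _ _ fun t => ?_
    change (starRingEnd ℂ) (if Gq t then q4 v t else 0) =
      if Gq (sw t) then q4 v (sw t) else 0
    by_cases h : Gq t
    · rw [if_pos h, if_pos (sw_Gq t h), sw_q4]
    · have h3 : ¬ Gq (sw t) := fun h4 => h (by
        have := sw_Gq _ h4
        rwa [sw_sw] at this)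
      rw [if_neg h, if_neg h3, map_zero]
  exact Complex.conj_eq_iff_im.1 h1

end data

end DE2aux

open DE2aux

/-- MODULE DE2 -/
theorem t_DE2 : DE2_Stmt := by
  intro p d _ hp hp2 w hw
  obtain ⟨u, hu⟩ : ∃ u : G p d → ℂ, ∀ x, u x = if x = 0 then 0 else w x := ⟨_, fun _ => rfl⟩
  have hn : 1 ≤ nn p d := by
    unfold nn
    exact one_le_pow₀ (by exact_mod_cast NeZero.one_le)
  obtain ⟨κ, hκ, hT⟩ := T4u hp hp2 hw hu
  have hE := T4_expand hw hu
  obtain ⟨hB1, hB2⟩ := T3_bound hw hu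
  obtain ⟨ρ, hρ⟩ : ∃ ρ, ρ = ((starRingEnd ℂ) (w 0) ^ 2 * T2 w).re := ⟨_, rfl⟩
  obtain ⟨τ, hτ⟩ : ∃ τ, τ = ((starRingEnd ℂ) (w 0) * T3 w).re := ⟨_, rfl⟩
  have hρ1 : |ρ| ≤ ‖T2 w‖ := by
    rw [hρ]
    refine (Complex.abs_re_le_norm _).trans (le_of_eq ?_)
    rw [norm_mul, norm_pow, RCLike.norm_conj, hw.1, one_pow, one_mul]
  have hτ1 : |τ| ≤ ‖T3 w‖ := by
    rw [hτ]
    refine (Complex.abs_re_le_norm _).trans (le_of_eq ?_)
    rw [norm_mul, RCLike.norm_conj, hw.1, one_mul]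
  have hκ1 : |κ.re| ≤ (p : ℝ) ^ 2 * nn p d := (Complex.abs_re_le_norm _).trans hκ
  have hS1 : |(S4 w).re| ≤ ‖S4 w‖ := Complex.abs_re_le_norm _
  have r1 : (w 0 ^ 2 * (starRingEnd ℂ) (T2 w)).re = ρ := by
    rw [hρ, ← Complex.conj_re (w 0 ^ 2 * (starRingEnd ℂ) (T2 w)), map_mul, map_pow,
      Complex.conj_conj]
  have r2 : (w 0 * (starRingEnd ℂ) (T3 w)).re = τ := by
    rw [hτ, ← Complex.conj_re (w 0 * (starRingEnd ℂ) (T3 w)), map_mul, Complex.conj_conj]
  have r3 : (T2 w * (starRingEnd ℂ) (T2 w)).re = ‖T2 w‖ ^ 2 := by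
    rw [Complex.mul_conj, Complex.normSq_eq_norm_sq, Complex.ofReal_re]
  have hTre : (T4f u).re = 2 * (nn p d - 1) ^ 2 - (nn p d - 1) + ‖T2 w‖ ^ 2 -
      2 * (nn p d - 1) + κ.re + (S4 w).re := by
    have h1 : 2 * ((nn p d : ℂ) - 1) ^ 2 - ((nn p d : ℂ) - 1) - 2 * ((nn p d : ℂ) - 1) =
        ((2 * (nn p d - 1) ^ 2 - (nn p d - 1) - 2 * (nn p d - 1) : ℝ) : ℂ) := by
      push_cast
      ring
    have h2 : T4f u = ((2 * (nn p d - 1) ^ 2 - (nn p d - 1) - 2 * (nn p d - 1) : ℝ) : ℂ) +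
        T2 w * (starRingEnd ℂ) (T2 w) + κ + S4 w := by
      rw [← h1, hT]
      ring
    rw [h2, Complex.add_re, Complex.add_re, Complex.add_re, Complex.ofReal_re, r3]
    ring
  have hEre : (T4f w).re = (T4f u).re + 1 + 4 * (nn p d - 1) + 2 * ρ + 4 * τ := by
    have h2 : T4f w = T4f u + ((1 + 4 * (nn p d - 1) : ℝ) : ℂ) +
        (starRingEnd ℂ) (w 0) ^ 2 * T2 w + w 0 ^ 2 * (starRingEnd ℂ) (T2 w) +
        ((2 : ℝ) : ℂ) * ((starRingEnd ℂ) (w 0) * T3 w) +
        ((2 : ℝ) : ℂ) * (w 0 * (starRingEnd ℂ) (T3 w)) := by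
      rw [hE]
      push_cast
      ring
    rw [h2, Complex.add_re, Complex.add_re, Complex.add_re, Complex.add_re, Complex.add_re,
      Complex.ofReal_re, Complex.re_ofReal_mul, Complex.re_ofReal_mul, r1, r2, ← hρ, ← hτ]
    ring
  have hT2 : ‖T2 w‖ ≤ nn p d - 1 := by
    have h1 : ‖T2 w‖ ≤ ∑ x ∈ (univ : Finset (G p d)).erase 0, (1 : ℝ) := by
      unfold T2
      refine (norm_sum_le _ _).trans (le_of_eq (Finset.sum_congr rfl fun x _ => ?_))
      rw [norm_pow, hw.1, one_pow]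
    refine h1.trans (le_of_eq ?_)
    rw [Finset.sum_const, nsmul_eq_mul, mul_one, Finset.card_erase_of_mem (Finset.mem_univ _),
      Finset.card_univ, Nat.cast_sub (Fintype.card_pos), Nat.cast_one]
    have h2 := card_G (p := p) (d := d)
    have h3 : ((Fintype.card (G p d) : ℝ) : ℂ) = ((nn p d : ℝ) : ℂ) := by
      rw [← h2]
      push_cast
      rfl
    rw [Complex.ofReal_inj.1 h3]
  have hT20 : 0 ≤ ‖T2 w‖ := norm_nonneg _
  rw [abs_le] at hρ1 hτ1 hκ1 hS1
  have hp0 : 0 ≤ (p : ℝ) ^ 2 * nn p d := by positivity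
  refine ⟨S4_im w, ?_, ?_, ?_⟩
  · rw [← hτ, hEre, hTre, abs_le]
    constructor
    · nlinarith [sq_nonneg ‖T2 w‖]
    · nlinarith [sq_nonneg ‖T2 w‖]
  · rw [hEre, hTre]
    nlinarith [sq_nonneg (‖T2 w‖ - 1)]
  · refine hB2.trans (mul_le_mul_of_nonneg_left ?_ (by linarith))
    rw [hTre]
    have h1 : ‖T2 w‖ ^ 2 ≤ (nn p d - 1) ^ 2 := pow_le_pow_left₀ hT20 hT2 2
    nlinarith

end Pool.Agent.UAB
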