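import Pool.Agent.UAB.St

/-!
# Module DEG: the degree of a polynomial phase   (helper18)
-/

set_option autoImplicit false

namespace Pool.Agent.UAB

open Finset
open Pool.Agent.UAA (G ch nn)

namespace DEGaux

variable {p : ℕ}

theorem dms_cons (l : List (ZMod p)) (u : ZMod p) (f : ZMod p → ℂ) :
    dms (u :: l) f = dm u (dms l f) := rfl

theorem dms_append (l : List (ZMod p)) (u : ZMod p) (f : ZMod p → ℂ) :
    dms (l ++ [u]) f = dms l (dm u f) := by
  simp [dms, List.foldr_append]

theorem dm_ne {f : ZMod p → ℂ} (hf : ∀ a, f a ≠ 0) (u a : ZMod p) : dm u f a ≠ 0 :=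
  div_ne_zero (hf _) (hf _)

theorem dms_ne {f : ZMod p → ℂ} (hf : ∀ a, f a ≠ 0) (l : List (ZMod p)) :
    ∀ a, dms l f a ≠ 0 := by
  induction l with
  | nil => exact hf
  | cons u l ih => exact fun a => dm_ne ih u a

theorem dms_mul (l : List (ZMod p)) (f g : ZMod p → ℂ) (a : ZMod p) :
    dms l (fun x => f x * g x) a = dms l f a * dms l g a := by
  induction l generalizing a with
  | nil => rfl
  | cons u l ih =>
    rw [dms_cons, dms_cons, dms_cons]
    unfold dm
    rw [ih, ih, mul_div_mul_comm]

theorem dms_shift (l : List (ZMod p)) (f : ZMod p → ℂ) (v a : ZMod p) :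
    dms l (fun x => f (x + v)) a = dms l f (a + v) := by
  induction l generalizing a with
  | nil => rfl
  | cons u l ih =>
    rw [dms_cons, dms_cons]
    unfold dm
    rw [ih, ih, show a + u + v = a + v + u by ring]

/-- additive characters of `ZMod p` -/
theorem char_eq [NeZero p] (hp : p.Prime) (c : ZMod p → ℂ) (h0 : c 0 = 1)
    (hc : ∀ u v, c (u + v) = c u * c v) : ∃ b : ZMod p, ∀ u, c u = (ZMod.stdAddChar (b * u) : ℂ) := by
  have hn : ∀ n : ℕ, c (n : ZMod p) = c 1 ^ n := by
    intro n
    induction n with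
    | zero => simp [h0]
    | succ n ih => rw [Nat.cast_succ, hc, ih, pow_succ]
  have hχ : ∀ n : ℕ, (ZMod.stdAddChar ((n : ZMod p)) : ℂ) =
      (ZMod.stdAddChar (1 : ZMod p) : ℂ) ^ n := by
    intro n
    rw [← AddChar.map_nsmul_eq_pow, nsmul_eq_mul, mul_one]
  have h1 : c 1 ^ p = 1 := by
    rw [← hn, ZMod.natCast_self, h0]
  have hprim : IsPrimitiveRoot (ZMod.stdAddChar (1 : ZMod p) : ℂ) p := by
    refine IsPrimitiveRoot.mk_of_lt _ hp.pos ?_ ?_
    · rw [← hχ, ZMod.natCast_self, AddChar.map_zero_eq_one]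
    · intro l hl hlp h
      rw [← hχ, ← AddChar.map_zero_eq_one (ZMod.stdAddChar (N := p))] at h
      have h2 := ZMod.injective_stdAddChar h
      rw [ZMod.natCast_eq_zero_iff] at h2
      exact absurd (Nat.le_of_dvd hl h2) (by omega)
  obtain ⟨i, -, hi⟩ := hprim.eq_pow_of_pow_eq_one h1
  refine ⟨(i : ZMod p), fun u => ?_⟩
  have hu : u = ((u.val : ℕ) : ZMod p) := (ZMod.natCast_zmod_val u).symm
  rw [hu, hn, ← hi, ← Nat.cast_mul, hχ, pow_mul]

theorem const_of {f : ZMod p → ℂ} (hf : ∀ a, f a ≠ 0) (h : ∀ u a, dm u f a = 1) (a b : ZMod p) :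
    f a = f b := by
  have h1 := h (a - b) b
  unfold dm at h1
  rw [div_eq_one_iff_eq (hf b)] at h1
  rw [← h1]
  congr 1
  ring

/-- the form of the top derivative -/
theorem top [NeZero p] (hp : p.Prime) : ∀ (m : ℕ) (g : ZMod p → ℂ), (∀ a, g a ≠ 0) →
    (∀ l : List (ZMod p), l.length = m + 2 → ∀ a, dms l g a = 1) →
      ∃ b : ZMod p, ∀ l : List (ZMod p), l.length = m + 1 → ∀ a,
        dms l g a = (ZMod.stdAddChar (b * l.prod) : ℂ) := by
  intro m
  induction m with
  | zero =>
    intro g hg h
    have h2 : ∀ u a b, dm u g a = dm u g b := fun u => const_of (dm_ne hg u) fun v a => by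
      exact h [v, u] rfl a
    obtain ⟨b, hb⟩ := char_eq hp (fun u => dm u g 0) (by
      unfold dm
      rw [add_zero]
      exact div_self (hg 0)) (fun u v => by
      have h3 : dm v g 0 = dm v g u := h2 v 0 u
      simp only [h3]
      unfold dm
      have := hg 0
      have := hg (0 + u)
      have := hg u
      rw [zero_add, zero_add]
      field_simp)
    refine ⟨b, fun l hl a => ?_⟩
    obtain ⟨u, rfl⟩ := List.length_eq_one_iff.1 (by simpa using hl)
    rw [List.prod_singleton, ← hb u]
    exact h2 u a 0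
  | succ m ih =>
    intro g hg h
    have h1 : ∀ u, ∃ b : ZMod p, ∀ l : List (ZMod p), l.length = m + 1 → ∀ a,
        dms l (dm u g) a = (ZMod.stdAddChar (b * l.prod) : ℂ) := fun u =>
      ih (dm u g) (dm_ne hg u) fun l hl a => by
        rw [← dms_append]
        exact h _ (by simp [hl]) a
    choose b hb using h1
    have hadd : ∀ u v, b (u + v) = b u + b v := by
      intro u v
      have e : dm (u + v) g = fun x => dm u g (x + v) * dm v g x := by
        funext x
        unfold dm
        have := hg (x + v)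
        have := hg x
        rw [show x + v + u = x + (u + v) by ring]
        field_simp
      have h2 := hb (u + v) (List.replicate (m + 1) 1) (by simp) 0
      rw [e, dms_mul (List.replicate (m + 1) 1) (fun x => dm u g (x + v)) (dm v g),
        dms_shift, hb u _ (by simp), hb v _ (by simp), ← AddChar.map_add_eq_mul] at h2
      have h3 := ZMod.injective_stdAddChar h2
      simpa using h3.symm
    have hlin : ∀ u, b u = u * b 1 := by
      have hn : ∀ n : ℕ, b (n : ZMod p) = n * b 1 := by
        intro n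
        induction n with
        | zero =>
          have := hadd 0 0
          rw [add_zero] at this
          simpa using this
        | succ n ih => rw [Nat.cast_succ, hadd, ih]; ring
      intro u
      have hu : u = ((u.val : ℕ) : ZMod p) := (ZMod.natCast_zmod_val u).symm
      rw [hu]
      exact hn _
    refine ⟨b 1, fun l hl a => ?_⟩
    obtain ⟨l', u, rfl⟩ : ∃ l' u, l = l' ++ [u] := by
      have hne : l ≠ [] := by
        intro e
        rw [e] at hl
        simp at hl
      exact ⟨l.dropLast, l.getLast hne, (List.dropLast_append_getLast hne).symm⟩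
    rw [dms_append, hb u l' (by simpa using hl), hlin u, List.prod_append, List.prod_singleton]
    congr 1
    ring

/-- first derivative given by a character -/
theorem first {g : ZMod p → ℂ} [NeZero p] (hg : ∀ a, g a ≠ 0) (β : ZMod p)
    (h : ∀ l : List (ZMod p), l.length = 1 → ∀ a, dms l g a = (ZMod.stdAddChar (β * l.prod) : ℂ))
    (a : ZMod p) : g a = g 0 * (ZMod.stdAddChar (β * a) : ℂ) := by
  have h1 := h [a] rfl 0
  rw [List.prod_singleton] at h1
  have h2 : dms [a] g 0 = g (0 + a) / g 0 := rfl
  rw [h2, zero_add, div_eq_iff (hg 0)] at h1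
  rw [h1, mul_comm]

end DEGaux

open DEGaux in
theorem t_DEG : DEG_Stmt := by
  intro p _ hp hp2 f hf hQ hex
  have : Fact p.Prime := ⟨hp⟩
  have hf0 : ∀ a, f a ≠ 0 := fun a h => by
    have := hf.1 a
    rw [h, norm_zero] at this
    exact zero_ne_one this
  have h2 : (2 : ZMod p) ≠ 0 := by
    intro h
    have h3 : ((2 : ℕ) : ZMod p) = 0 := by exact_mod_cast h
    rw [ZMod.natCast_eq_zero_iff] at h3
    exact hp2 ((Nat.prime_dvd_prime_iff_eq hp Nat.prime_two).1 h3)
  -- an even function `κ χ(β a + γ a²)` is a quadratic phase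
  have key : ∀ (κ : ℂ) (β γ : ZMod p), κ ≠ 0 →
      ¬ ∀ a, f a = κ * (ZMod.stdAddChar (β * a + γ * a ^ 2) : ℂ) := by
    intro κ β γ hκ h
    have h3 : β = 0 := by
      have h4 := hf.2 1
      rw [h, h] at h4
      have h5 := ZMod.injective_stdAddChar (mul_left_cancel₀ hκ h4)
      have h6 : 2 * β = 0 := by linear_combination -h5
      exact (mul_eq_zero.1 h6).resolve_left h2
    refine hQ γ ⟨κ, fun a => ?_⟩
    rw [h a, h3, zero_mul, zero_add]
  classical
  obtain ⟨m, hm, hmin⟩ : ∃ m : ℕ, (∀ l : List (ZMod p), l.length = m → ∀ a, dms l f a = 1) ∧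
      ∀ m' < m, ¬ ∀ l : List (ZMod p), l.length = m' → ∀ a, dms l f a = 1 :=
    ⟨Nat.find hex, Nat.find_spec hex, fun m' h => Nat.find_min hex h⟩
  rcases m with _ | _ | m
  · -- `f = 1`
    exfalso
    refine key 1 0 0 one_ne_zero fun a => ?_
    have := hm [] rfl a
    rw [show dms [] f a = f a from rfl] at this
    simp [this]
  · -- `f` constant
    exfalso
    refine key (f 0) 0 0 (hf0 0) fun a => ?_
    have := const_of hf0 (fun u a => hm [u] rfl a) a 0
    simp [this]
  · obtain ⟨b, hb⟩ := top hp m f hf0 hm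
    have hb0 : b ≠ 0 := by
      rintro rfl
      refine hmin (m + 1) (by omega) fun l hl a => ?_
      rw [hb l hl a, zero_mul, AddChar.map_zero_eq_one]
    rcases m with _ | _ | m
    · exfalso
      refine key (f 0) b 0 (hf0 0) fun a => ?_
      rw [zero_mul, add_zero]
      exact first hf0 b hb a
    · exfalso
      set q : ZMod p → ℂ := fun a => (ZMod.stdAddChar (-(b / 2) * a ^ 2) : ℂ) with hq
      have hq0 : ∀ a, q a ≠ 0 := fun a => by
        intro h
        have h5 : ‖q a‖ = 1 := AddChar.norm_apply (ZMod.stdAddChar (N := p)) _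
        rw [h, norm_zero] at h5
        exact zero_ne_one h5
      have hq2 : ∀ u v a, dms [u, v] q a = (ZMod.stdAddChar (-(b * (u * v))) : ℂ) := by
        intro u v a
        have e1 : dms [u, v] q a = q (a + u + v) / q (a + u) / (q (a + v) / q a) := rfl
        rw [e1]
        simp only [hq, ← AddChar.map_sub_eq_div]
        congr 1
        field_simp
        ring
      obtain ⟨β, hβ⟩ := top hp 0 (fun a => f a * q a) (fun a => mul_ne_zero (hf0 a) (hq0 a))
        (fun l hl a => by
          obtain ⟨u, v, rfl⟩ := List.length_eq_two.1 (by simpa using hl)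
          rw [dms_mul, hb [u, v] rfl, hq2, ← AddChar.map_add_eq_mul]
          rw [show b * [u, v].prod + -(b * (u * v)) = 0 by simp, AddChar.map_zero_eq_one])
      have h7 := first (fun a => mul_ne_zero (hf0 a) (hq0 a)) β hβ
      refine key (f 0 * q 0) β (b / 2) (mul_ne_zero (hf0 0) (hq0 0)) fun a => ?_
      have h8 : f a * q a = f 0 * q 0 * (ZMod.stdAddChar (β * a) : ℂ) := h7 a
      have h9 : q a * (ZMod.stdAddChar (b / 2 * a ^ 2) : ℂ) = 1 := by
        simp only [hq]
        rw [← AddChar.map_add_eq_mul, show -(b / 2) * a ^ 2 + b / 2 * a ^ 2 = 0 by ring,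
          AddChar.map_zero_eq_one]
      calc f a = f a * (q a * (ZMod.stdAddChar (b / 2 * a ^ 2) : ℂ)) := by rw [h9, mul_one]
        _ = f a * q a * (ZMod.stdAddChar (b / 2 * a ^ 2) : ℂ) := by ring
        _ = _ := by rw [h8, AddChar.map_add_eq_mul]; ring
    · exact ⟨m + 2 + 1, b, by omega, hb0, hb⟩

end Pool.Agent.UAB
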