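import Pool.Agent.UAB.St

/-!
# The expectation of a product of values of `vd`
-/

set_option autoImplicit false

namespace Pool.Agent.UAB

open Finset
open Pool.Agent.UAA (G ch nn)

namespace EXWaux

variable {p d : ℕ}

theorem dt_neg (x c : G p d) : dt x (-c) = -dt x c := by
  simp [dt]

theorem dt_zero (x : G p d) : dt x 0 = 0 := by
  simp [dt]

/-- The factor of `vd` at `h`. -/
noncomputable def fa [NeZero p] (α : ZMod p) (δ : ZMod p → ℝ) (x h : G p d) : ℂ :=
  ZMod.stdAddChar (α * dt x h ^ 2) * Complex.exp (((δ (dt x h) / 2 : ℝ) : ℂ) * Complex.I)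

/-- The other factor. -/
noncomputable def fb (δ : ZMod p → ℝ) (x h : G p d) : ℂ :=
  Complex.exp (((-(δ (dt x h)) / 2 : ℝ) : ℂ) * Complex.I)

theorem chr_sum [NeZero p] {ι : Type} (s : Finset ι) (f : ι → ZMod p) :
    (ZMod.stdAddChar (∑ i ∈ s, f i) : ℂ) = ∏ i ∈ s, (ZMod.stdAddChar (f i) : ℂ) := by
  classical
  induction s using Finset.induction_on with
  | empty => simp
  | insert j s hj ih =>
    rw [Finset.sum_insert hj, Finset.prod_insert hj, AddChar.map_add_eq_mul, ih]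

theorem vd_eq [NeZero p] (H A : Finset (G p d)) (hA : A ⊆ H) (α : ZMod p) (δ : ZMod p → ℝ)
    (x : G p d) (hx : x ≠ 0) :
    vd H A α δ x = ∏ h ∈ H, if h ∈ A then fa α δ x h else fb δ x h := by
  unfold vd up
  rw [if_neg hx]
  have h1 : (ZMod.stdAddChar (α * ∑ h ∈ A, dt x h ^ 2) : ℂ) =
      ∏ h ∈ H, if h ∈ A then (ZMod.stdAddChar (α * dt x h ^ 2) : ℂ) else 1 := by
    rw [Finset.mul_sum, chr_sum, ← Finset.prod_filter]
    congr 1
    ext h
    simp only [Finset.mem_filter]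
    exact ⟨fun h2 => ⟨hA h2, h2⟩, fun h2 => h2.2⟩
  have h2 : Complex.exp ((gd H A δ x : ℂ) * Complex.I) =
      ∏ h ∈ H, Complex.exp (((ep A h * δ (dt x h) : ℝ) : ℂ) * Complex.I) := by
    rw [← Complex.exp_sum]
    congr 1
    unfold gd
    push_cast
    rw [Finset.sum_mul]
  change (ZMod.stdAddChar (α * ∑ h ∈ A, dt x h ^ 2) : ℂ) *
    Complex.exp ((gd H A δ x : ℂ) * Complex.I) = _
  rw [h1, h2, ← Finset.prod_mul_distrib]
  refine Finset.prod_congr rfl fun h _ => ?_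
  by_cases hh : h ∈ A
  · rw [if_pos hh, if_pos hh]
    unfold fa ep
    rw [if_pos hh]
    congr 4
    ring
  · rw [if_neg hh, if_neg hh]
    unfold fb ep
    rw [if_neg hh, one_mul]
    congr 3
    ring

/-- The form. -/
def qq {M : ℕ} (Y : Fin M → G p d) (ε : Fin M → ℤ) (h : G p d) : ZMod p :=
  ∑ s, (ε s : ZMod p) * dt (Y s) h ^ 2

/-- The phase. -/
noncomputable def DD {M : ℕ} (δ : Fin M → ZMod p → ℝ) (Y : Fin M → G p d) (ε : Fin M → ℤ)
    (h : G p d) : ℝ :=
  ∑ s, (ε s : ℝ) * δ s (dt (Y s) h)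

theorem prod_fa [NeZero p] {M : ℕ} (α : ZMod p) (δ : Fin M → ZMod p → ℝ) (Y : Fin M → G p d)
    (ε : Fin M → ℤ) (h : G p d) :
    ∏ s, fa α (δ s) (Y s) h ^ ε s =
      ZMod.stdAddChar (α * qq Y ε h) * Complex.exp (((DD δ Y ε h / 2 : ℝ) : ℂ) * Complex.I) := by
  have h1 : (ZMod.stdAddChar (α * qq Y ε h) : ℂ) =
      ∏ s, (ZMod.stdAddChar (α * dt (Y s) h ^ 2) : ℂ) ^ ε s := by
    unfold qq
    rw [Finset.mul_sum, chr_sum]
    refine Finset.prod_congr rfl fun s _ => ?_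
    rw [← AddChar.map_zsmul_eq_zpow]
    congr 1
    rw [zsmul_eq_mul]
    ring
  have h2 : Complex.exp (((DD δ Y ε h / 2 : ℝ) : ℂ) * Complex.I) =
      ∏ s, Complex.exp (((δ s (dt (Y s) h) / 2 : ℝ) : ℂ) * Complex.I) ^ ε s := by
    rw [Finset.prod_congr rfl fun s _ => (Complex.exp_int_mul _ (ε s)).symm, ← Complex.exp_sum]
    congr 1
    unfold DD
    push_cast
    rw [Finset.sum_div, Finset.sum_mul]
    refine Finset.sum_congr rfl fun s _ => ?_
    ring
  rw [h1, h2, ← Finset.prod_mul_distrib]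
  refine Finset.prod_congr rfl fun s _ => ?_
  unfold fa
  rw [mul_zpow]

theorem prod_fb {M : ℕ} (δ : Fin M → ZMod p → ℝ) (Y : Fin M → G p d)
    (ε : Fin M → ℤ) (h : G p d) :
    ∏ s, fb (δ s) (Y s) h ^ ε s = Complex.exp (((-(DD δ Y ε h) / 2 : ℝ) : ℂ) * Complex.I) := by
  unfold fb
  rw [Finset.prod_congr rfl fun s _ => (Complex.exp_int_mul _ (ε s)).symm, ← Complex.exp_sum]
  congr 1
  unfold DD
  push_cast
  rw [neg_div, Finset.sum_div, neg_mul, Finset.sum_mul, ← Finset.sum_neg_distrib]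
  refine Finset.sum_congr rfl fun s _ => ?_
  ring

theorem sum_eq (h1 : COS_Stmt) [NeZero p] {M : ℕ} (H : Finset (G p d)) (α : ZMod p)
    (δ : Fin M → ZMod p → ℝ) (Y : Fin M → G p d) (ε : Fin M → ℤ) (hY : ∀ s, Y s ≠ 0) :
    ∑ A ∈ H.powerset, ∏ s, vd H A α (δ s) (Y s) ^ ε s =
      ∏ h ∈ H, ((ZMod.stdAddChar (α * qq Y ε h) : ℂ) *
        Complex.exp (((DD δ Y ε h / 2 : ℝ) : ℂ) * Complex.I) +
        Complex.exp (((-(DD δ Y ε h) / 2 : ℝ) : ℂ) * Complex.I)) := by
  rw [← h1.1]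
  refine Finset.sum_congr rfl fun A hA => ?_
  have hA' := Finset.mem_powerset.1 hA
  rw [Finset.prod_congr rfl fun s _ => by
    rw [vd_eq H A hA' α (δ s) (Y s) (hY s), ← Finset.prod_zpow], Finset.prod_comm]
  refine Finset.prod_congr rfl fun h _ => ?_
  by_cases hh : h ∈ A
  · simp only [if_pos hh]
    exact prod_fa α δ Y ε h
  · simp only [if_neg hh]
    exact prod_fb δ Y ε h

theorem DD_le {M : ℕ} (δ : Fin M → ZMod p → ℝ) (hδ : ∀ s a, M * |δ s a| ≤ 1 / p)
    (Y : Fin M → G p d) (ε : Fin M → ℤ) (hε : ∀ s, ε s = 1 ∨ ε s = -1) (h : G p d) :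
    |DD δ Y ε h| ≤ 1 / p := by
  unfold DD
  rcases Nat.eq_zero_or_pos M with hM | hM
  · subst hM
    simp
  · have hM' : (0 : ℝ) < M := by exact_mod_cast hM
    calc |∑ s, (ε s : ℝ) * δ s (dt (Y s) h)|
        ≤ ∑ s, |(ε s : ℝ) * δ s (dt (Y s) h)| := Finset.abs_sum_le_sum_abs _ _
      _ ≤ ∑ _s : Fin M, (1 / p : ℝ) / M := by
          refine Finset.sum_le_sum fun s _ => ?_
          rw [le_div_iff₀ hM', abs_mul]
          have h2 : |(ε s : ℝ)| = 1 := by
            rcases hε s with h3 | h3 <;> simp [h3]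
          rw [h2, one_mul, mul_comm]
          exact hδ s _
      _ = 1 / p := by
          rw [Finset.sum_const, Finset.card_univ, Fintype.card_fin, nsmul_eq_mul]
          field_simp

theorem norm_factor_le [NeZero p] (a : ZMod p) (D : ℝ) :
    ‖(ZMod.stdAddChar a : ℂ) * Complex.exp (((D / 2 : ℝ) : ℂ) * Complex.I) +
        Complex.exp (((-D / 2 : ℝ) : ℂ) * Complex.I)‖ ≤ 2 := by
  refine (norm_add_le _ _).trans ?_
  rw [norm_mul, Complex.norm_exp_ofReal_mul_I, Complex.norm_exp_ofReal_mul_I,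
    AddChar.norm_apply]
  norm_num

theorem norm_factor_lt [NeZero p] (hp : p.Prime) (a : ZMod p) (ha : a ≠ 0) (D : ℝ)
    (hD : |D| ≤ 1 / p) :
    ‖(ZMod.stdAddChar a : ℂ) * Complex.exp (((D / 2 : ℝ) : ℂ) * Complex.I) +
        Complex.exp (((-D / 2 : ℝ) : ℂ) * Complex.I)‖ ^ 2 ≤ 2 + 2 * Real.cos (Real.pi / p) := by
  have hp0 : (0 : ℝ) < p := by exact_mod_cast hp.pos
  obtain ⟨j, hj1, hj2, hj⟩ : ∃ j : ℕ, 1 ≤ j ∧ j + 1 ≤ p ∧ a = ((j : ℤ) : ZMod p) := by
    refine ⟨a.val, ?_, ZMod.val_lt a, ?_⟩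
    · rw [Nat.one_le_iff_ne_zero]
      exact fun h => ha ((ZMod.val_eq_zero a).1 h)
    · rw [Int.cast_natCast, ZMod.natCast_zmod_val]
  have h1 : (ZMod.stdAddChar a : ℂ) =
      Complex.exp (((2 * Real.pi * j / p : ℝ) : ℂ) * Complex.I) := by
    rw [hj, ZMod.stdAddChar_coe]
    congr 1
    push_cast
    ring
  set θ : ℝ := 2 * Real.pi * j / p + D with hθ
  have h2 : (ZMod.stdAddChar a : ℂ) * Complex.exp (((D / 2 : ℝ) : ℂ) * Complex.I) +
        Complex.exp (((-D / 2 : ℝ) : ℂ) * Complex.I) =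
      Complex.exp (((-D / 2 : ℝ) : ℂ) * Complex.I) *
        (Complex.exp ((θ : ℂ) * Complex.I) + 1) := by
    rw [h1, mul_add, mul_one, ← Complex.exp_add, ← Complex.exp_add, hθ]
    congr 2
    push_cast
    ring
  rw [h2, norm_mul, Complex.norm_exp_ofReal_mul_I, one_mul]
  have h3 : ‖Complex.exp ((θ : ℂ) * Complex.I) + 1‖ ^ 2 = 2 + 2 * Real.cos θ := by
    rw [← Complex.normSq_eq_norm_sq, Complex.normSq_apply]
    simp only [Complex.add_re, Complex.add_im, Complex.exp_ofReal_mul_I_re,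
      Complex.exp_ofReal_mul_I_im, Complex.one_re, Complex.one_im]
    nlinarith [Real.sin_sq_add_cos_sq θ]
  rw [h3]
  have hpi : (3 : ℝ) < Real.pi := Real.pi_gt_three
  have hD1 := (abs_le.1 hD).1
  have hD2 := (abs_le.1 hD).2
  have hj1' : (1 : ℝ) ≤ j := by exact_mod_cast hj1
  have hj2' : (j : ℝ) + 1 ≤ p := by exact_mod_cast hj2
  have h4 : Real.pi / p ≤ θ := by
    have h5 : 2 * Real.pi * 1 / p ≤ 2 * Real.pi * j / p := by gcongr
    have h6 : 1 / (p : ℝ) ≤ Real.pi / p := by gcongr; linarith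
    have h7 : 2 * Real.pi * 1 / (p : ℝ) = 2 * (Real.pi / p) := by ring
    rw [hθ]
    linarith
  have h8 : θ ≤ 2 * Real.pi - Real.pi / p := by
    have h5 : 2 * Real.pi * j / p ≤ 2 * Real.pi * (p - 1) / p := by
      gcongr
      linarith
    have h6 : 1 / (p : ℝ) ≤ Real.pi / p := by gcongr; linarith
    have h7 : 2 * Real.pi * (p - 1) / (p : ℝ) = 2 * Real.pi - 2 * (Real.pi / p) := by
      field_simp
    rw [hθ]
    linarith
  have h9 : 0 ≤ Real.pi / p := by positivity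
  have h10 : Real.cos θ ≤ Real.cos (Real.pi / p) := by
    rcases le_total θ Real.pi with h11 | h11
    · exact Real.cos_le_cos_of_nonneg_of_le_pi h9 h11 h4
    · rw [← Real.cos_two_pi_sub θ]
      exact Real.cos_le_cos_of_nonneg_of_le_pi h9 (by linarith) (by linarith)
  linarith

theorem qq_neg {M : ℕ} (Y : Fin M → G p d) (ε : Fin M → ℤ) (h : G p d) :
    qq Y ε (-h) = qq Y ε h := by
  unfold qq
  refine Finset.sum_congr rfl fun s _ => ?_
  rw [dt_neg, neg_sq]

theorem card_le (h2 : UDF_Stmt) [NeZero p] (hp : p.Prime) {M : ℕ} (H : Finset (G p d))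
    (hH : Half H) (Y : Fin M → G p d) (ε : Fin M → ℤ) (h0 : G p d) (hq : qq Y ε h0 ≠ 0) :
    nn p d ≤ 2 * (p : ℝ) ^ M * ((H.filter fun h => qq Y ε h = qq Y ε h0).card : ℝ) := by
  classical
  have h3 := (h2 p d hp).2.2 (Fin M) Y h0
  rw [Fintype.card_fin] at h3
  have h4 : Set.ncard {c : G p d | ∀ s, dt (Y s) c = dt (Y s) h0} ≤
      2 * (H.filter fun h => qq Y ε h = qq Y ε h0).card := by
    have h5 : {c : G p d | ∀ s, dt (Y s) c = dt (Y s) h0} ⊆
        ((H.filter fun h => qq Y ε h = qq Y ε h0) ∪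
          (H.filter fun h => qq Y ε h = qq Y ε h0).image (fun h => -h) : Finset (G p d)) := by
      intro c hc
      have hc' : ∀ s, dt (Y s) c = dt (Y s) h0 := hc
      have hqc : qq Y ε c = qq Y ε h0 := by
        unfold qq
        exact Finset.sum_congr rfl fun s _ => by rw [hc' s]
      have hc0 : c ≠ 0 := by
        rintro rfl
        apply hq
        rw [← hqc]
        unfold qq
        simp [dt_zero]
      simp only [Finset.coe_union, Set.mem_union, Finset.mem_coe, Finset.mem_filter,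
        Finset.mem_image]
      by_cases hcH : c ∈ H
      · exact Or.inl ⟨hcH, hqc⟩
      · right
        refine ⟨-c, ⟨?_, by rw [qq_neg, hqc]⟩, neg_neg c⟩
        by_contra h6
        exact hcH ((hH.2 c hc0).2 h6)
    have h6 := Set.ncard_le_ncard h5 (Finset.finite_toSet _)
    rw [Set.ncard_coe_finset] at h6
    have h7 := Finset.card_union_le (H.filter fun h => qq Y ε h = qq Y ε h0)
      ((H.filter fun h => qq Y ε h = qq Y ε h0).image (fun h => -h))
    have h8 : ((H.filter fun h => qq Y ε h = qq Y ε h0).image (fun h => -h)).card ≤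
      (H.filter fun h => qq Y ε h = qq Y ε h0).card := Finset.card_image_le
    omega
  have h5 : (Set.ncard {c : G p d | ∀ s, dt (Y s) c = dt (Y s) h0} : ℝ) ≤
      2 * ((H.filter fun h => qq Y ε h = qq Y ε h0).card : ℝ) := by exact_mod_cast h4
  have h6 : (0 : ℝ) ≤ (p : ℝ) ^ M := by positivity
  calc nn p d ≤ (p : ℝ) ^ M *
        (Set.ncard {c : G p d | ∀ s, dt (Y s) c = dt (Y s) h0} : ℝ) := h3
    _ ≤ (p : ℝ) ^ M * (2 * ((H.filter fun h => qq Y ε h = qq Y ε h0).card : ℝ)) :=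
        mul_le_mul_of_nonneg_left h5 h6
    _ = _ := by ring

end EXWaux

open EXWaux in
theorem t_EXW (h1 : COS_Stmt) (h2 : UDF_Stmt) : EXW_Stmt := by
  classical
  intro p M _ hp hp2
  have hp0 : (0 : ℝ) < p := by exact_mod_cast hp.pos
  have hp1 : (1 : ℝ) < p := by exact_mod_cast hp.one_lt
  have hpi := Real.pi_pos
  -- the constant
  have hc1 : Real.cos (Real.pi / p) < 1 := by
    have h3 : 0 < Real.pi / p := by positivity
    have h4 : Real.pi / p ≤ Real.pi := div_le_self hpi.le hp1.le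
    rw [← Real.cos_zero]
    exact Real.cos_lt_cos_of_nonneg_of_le_pi le_rfl h4 h3
  have hc0 : -1 < Real.cos (Real.pi / p) := by
    have h3 : 0 ≤ Real.pi / p := by positivity
    have h4 : Real.pi / p < Real.pi := div_lt_self hpi hp1
    rw [← Real.cos_pi]
    exact Real.cos_lt_cos_of_nonneg_of_le_pi h3 le_rfl h4
  set B : ℝ := √((1 + Real.cos (Real.pi / p)) / 2) with hB
  have hB0 : 0 < B := Real.sqrt_pos.2 (by linarith)
  have hB2 : B ^ 2 = (1 + Real.cos (Real.pi / p)) / 2 := Real.sq_sqrt (by linarith)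
  have hB1 : B < 1 := by
    by_contra h
    have h' : 1 ≤ B := not_lt.1 h
    nlinarith
  have hlog : 0 < -Real.log B := by
    have := Real.log_neg hB0 hB1
    linarith
  have hpM : (0 : ℝ) < 2 * (p : ℝ) ^ M := by positivity
  refine ⟨1, -Real.log B / (2 * (p : ℝ) ^ M), zero_le_one, by positivity, ?_⟩
  intro d H hH α δ _ hδ Y ε hY hε
  rw [sum_eq h1 H α δ Y ε hY]
  refine ⟨?_, ?_⟩
  · intro h0
    have h0' : ∀ h, α * qq Y ε h = 0 := h0
    push_cast
    rw [← Finset.prod_const, ← Finset.prod_mul_distrib]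
    refine Finset.prod_congr rfl fun h _ => ?_
    rw [h0' h, AddChar.map_zero_eq_one, one_mul]
    have h3 : (∑ s, (ε s : ℂ) * (δ s (dt (Y s) h) : ℂ)) = ((DD δ Y ε h : ℝ) : ℂ) := by
      unfold DD
      push_cast
      rfl
    rw [h3, Complex.two_cos]
    congr 1
    congr 1
    ring
  · rintro ⟨h0, hh0⟩
    have hh0' : α * qq Y ε h0 ≠ 0 := hh0
    have hq0 : qq Y ε h0 ≠ 0 := right_ne_zero_of_mul hh0'
    have hcard := card_le h2 hp H hH Y ε h0 hq0
    set S := H.filter fun h => qq Y ε h = qq Y ε h0 with hS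
    rw [norm_prod]
    have h3 : ∀ h ∈ H, ‖(ZMod.stdAddChar (α * qq Y ε h) : ℂ) *
        Complex.exp (((DD δ Y ε h / 2 : ℝ) : ℂ) * Complex.I) +
        Complex.exp (((-(DD δ Y ε h) / 2 : ℝ) : ℂ) * Complex.I)‖ ≤
        2 * (if qq Y ε h = qq Y ε h0 then B else 1) := by
      intro h _
      by_cases hh : qq Y ε h = qq Y ε h0
      · rw [if_pos hh]
        have h4 := norm_factor_lt hp (α * qq Y ε h) (by rw [hh]; exact hh0') (DD δ Y ε h)
          (DD_le δ hδ Y ε hε h)
        have h5 : 2 + 2 * Real.cos (Real.pi / p) = (2 * B) ^ 2 := by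
          rw [mul_pow, hB2]
          ring
        rw [h5] at h4
        exact (pow_le_pow_iff_left₀ (norm_nonneg _) (by positivity) two_ne_zero).1 h4
      · rw [if_neg hh, mul_one]
        exact norm_factor_le _ _
    refine (Finset.prod_le_prod (fun h _ => norm_nonneg _) h3).trans ?_
    rw [Finset.prod_mul_distrib, Finset.prod_const, ← Finset.prod_filter, Finset.prod_const,
      ← hS, one_mul]
    refine mul_le_mul_of_nonneg_left ?_ (by positivity)
    rw [← Real.exp_log (pow_pos hB0 _), Real.log_pow]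
    apply Real.exp_le_exp.2
    have h6 : nn p d / (2 * (p : ℝ) ^ M) ≤ (S.card : ℝ) := by
      rw [div_le_iff₀ hpM]
      linarith
    have h7 : -Real.log B / (2 * (p : ℝ) ^ M) * nn p d =
        -Real.log B * (nn p d / (2 * (p : ℝ) ^ M)) := by ring
    rw [h7]
    nlinarith [mul_le_mul_of_nonneg_left h6 hlog.le]

end Pool.Agent.UAB
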