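import Pool.Agent.UAB.St

/-!
# The theorem for the subsets of `H`
-/

set_option autoImplicit false

namespace Pool.Agent.UAB

open Finset
open Pool.Agent.UAA (G ch nn)

namespace FINaux

theorem nn_pos {p : ℕ} (hp : p.Prime) (d : ℕ) : 0 < nn p d := by
  unfold nn
  exact pow_pos (by exact_mod_cast hp.pos) _

theorem nn_one {p : ℕ} (hp : p.Prime) (d : ℕ) : 1 ≤ nn p d := by
  unfold nn
  exact one_le_pow₀ (by exact_mod_cast hp.one_lt.le)

theorem nn_mono {p : ℕ} (hp : p.Prime) {d e : ℕ} (h : d ≤ e) : nn p d ≤ nn p e := by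
  unfold nn
  exact pow_le_pow_right₀ (by exact_mod_cast hp.one_lt.le) h

theorem nn_big {p d : ℕ} (hp : p.Prime) (hd : 400 * (p ^ 2 + 4) ≤ d) :
    400 * ((p : ℝ) ^ 2 + 4) ≤ nn p d := by
  have h1 : d < p ^ d := Nat.lt_pow_self hp.one_lt
  have h2 : 400 * (p ^ 2 + 4) ≤ p ^ d := by omega
  unfold nn
  exact_mod_cast h2

/-- A small `S4` excludes flatness. -/
theorem no_flat (h2 : DE1_Stmt) (h3 : DE2_Stmt) {p d : ℕ} [NeZero p] (hp : p.Prime)
    (hp2 : p ≠ 2) (hn : 400 * ((p : ℝ) ^ 2 + 4) ≤ nn p d) (w : G p d → ℂ) (hw : EV w)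
    (hf : FlatV w) (hs : ‖S4 w‖ ≤ nn p d ^ 2 / 4) : False := by
  obtain ⟨-, -, -, hd4, -⟩ := h2 p d w hw.1
  have e4 := hd4 hf
  obtain ⟨-, -, h5, h6⟩ := h3 p d hp hp2 w hw
  rw [e4] at h5
  have hn0 : 0 < nn p d := nn_pos hp d
  have hn1 : 1 ≤ nn p d := nn_one hp d
  generalize nn p d = n at *
  have hre : -(n ^ 2 / 4) ≤ (S4 w).re := by
    have h7 := neg_le_of_abs_le (Complex.abs_re_le_norm (S4 w))
    linarith
  have hP : (0 : ℝ) ≤ (p : ℝ) ^ 2 := by positivity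
  generalize (p : ℝ) ^ 2 = P at *
  have hT : ‖T3 w‖ ≤ n ^ 2 / 20 := by
    have hq : ‖T3 w‖ ^ 2 ≤ (n ^ 2 / 20) ^ 2 := by
      refine h6.trans ?_
      have a1 : P * n ≤ P * n ^ 2 := by
        apply mul_le_mul_of_nonneg_left _ hP
        nlinarith
      have a2 : n * (3 * n ^ 2 + P * n + ‖S4 w‖) ≤ n * (n ^ 2 * (P + 4)) := by
        apply mul_le_mul_of_nonneg_left _ hn0.le
        nlinarith [sq_nonneg n]
      have a3 : n * (n ^ 2 * (P + 4)) ≤ n * (n ^ 2 * (n / 400)) := by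
        apply mul_le_mul_of_nonneg_left _ hn0.le
        apply mul_le_mul_of_nonneg_left _ (sq_nonneg n)
        linarith
      calc n * (3 * n ^ 2 + P * n + ‖S4 w‖) ≤ n * (n ^ 2 * (n / 400)) := a2.trans a3
        _ = (n ^ 2 / 20) ^ 2 := by ring
    exact (pow_le_pow_iff_left₀ (norm_nonneg _) (by positivity) two_ne_zero).1 hq
  have h8 : (P + 4) * n ≤ n ^ 2 / 400 := by nlinarith
  have h9 : 0 < n ^ 2 := by positivity
  linarith

/-- The deterministic part. -/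
theorem det (h1 : FLW_Stmt) (h2 : DE1_Stmt) (h3 : DE2_Stmt) (h4 : WRE_Stmt) {p d : ℕ}
    [NeZero p] (hp : p.Prime) (hp5 : 5 ≤ p) (hn : 400 * ((p : ℝ) ^ 2 + 4) ≤ nn p d) (C : ℝ)
    (H A : Finset (G p d)) (hH : Half H) (hA : A ⊆ H)
    (hR : ∀ α : ZMod p, α ≠ 0 → ∀ δ : ZMod p → ℝ, EM δ → (∀ a, |δ a| ≤ rn C p d) →
      (∃ a, δ a ≠ 0) → ∀ Z : ℂ, ‖Z‖ = 1 → nn p d ^ 2 < (T4f (up Z (vd H A α δ))).re)
    (hB : ∀ f : ZMod p → ℂ, EU f → Far (rn C p d) f → ‖S4 (wt f A)‖ ≤ nn p d ^ 2 / 4)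
    (hZ : WZ C H A) (t : ℝ) (hF : FlatV (wt (ft p t) A)) : False := by
  have hp2 : p ≠ 2 := by omega
  obtain ⟨hEU, hNQ⟩ := h1 p hp hp5 t
  obtain ⟨hW1, hW2, hW3, -, hW5⟩ := h4 p d hp hp2
  have hEV : EV (wt (ft p t) A) := hW5 _ A hEU
  have hn0 : 0 < nn p d := nn_pos hp d
  by_cases hfar : Far (rn C p d) (ft p t)
  · exact no_flat h2 h3 hp hp2 hn _ hEV hF (hB _ hEU hfar)
  unfold Far at hfar
  push Not at hfar
  obtain ⟨α, κ, δ, hrep, hδ⟩ := hfar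
  obtain ⟨κ', Z, hκ', hZ1, hw⟩ := hW1 H A hH hA _ α κ δ hrep
  have hw' : wt (ft p t) A = fun x => κ' * up Z (vd H A α δ) x := funext hw
  obtain ⟨i1, i2, i3⟩ := hW2 κ' (up Z (vd H A α δ)) hκ'
  have hT4 : (T4f (wt (ft p t) A)).re = nn p d ^ 2 := (h2 p d _ hEV.1).2.2.2.1 hF
  by_cases hα : α = 0
  · subst hα
    rcases le_total (sig p d δ) (77 / 100 * Real.log (nn p d)) with hs | hs
    · have hT1 := (hZ δ hrep.2.1 fun a => (hδ a).le).1 hs
      have hsum := (h2 p d _ hEV.1).2.2.2.2 hF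
      obtain ⟨-, -, -, -, e5⟩ := hW3 Z (vd H A 0 δ)
      have e6 : ‖∑ x, wt (ft p t) A x‖ = ‖Z + T1 (vd H A 0 δ)‖ := by
        rw [hw', ← Finset.mul_sum, e5, norm_mul, hκ', one_mul]
      rw [e6] at hsum
      have e7 : ‖Z + T1 (vd H A 0 δ)‖ = √(nn p d) := by
        rw [← hsum, Real.sqrt_sq (norm_nonneg _)]
      have e8 : ‖T1 (vd H A 0 δ)‖ ≤ ‖Z + T1 (vd H A 0 δ)‖ + ‖Z‖ := by
        have := norm_sub_le (Z + T1 (vd H A 0 δ)) Z
        rwa [add_sub_cancel_left] at this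
      rw [e7, hZ1] at e8
      have e9 : √(nn p d) ≤ 1 := by linarith
      have e10 : nn p d ≤ 1 := by
        have := Real.sq_sqrt hn0.le
        have h0 := Real.sqrt_nonneg (nn p d)
        nlinarith
      have : (0 : ℝ) ≤ (p : ℝ) ^ 2 := by positivity
      linarith
    · have hS := (hZ δ hrep.2.1 fun a => (hδ a).le).2 hs
      have e1 : S4 (wt (ft p t) A) = S4 (vd H A 0 δ) := by
        rw [hw', i2, (hW3 Z (vd H A 0 δ)).1]
      rw [← e1] at hS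
      exact no_flat h2 h3 hp hp2 hn _ hEV hF hS
  · by_cases hδ0 : ∃ a, δ a ≠ 0
    · have h7 := hR α hα δ hrep.2.1 (fun a => (hδ a).le) hδ0 Z hZ1
      rw [hw', i1] at hT4
      linarith
    · push Not at hδ0
      apply hNQ α hα
      refine ⟨κ, fun a => ?_⟩
      rw [hrep.2.2 a, hδ0 a]
      simp

end FINaux

open FINaux

theorem t_FIN (h1 : FLW_Stmt) (h2 : DE1_Stmt) (h3 : DE2_Stmt) (h4 : WRE_Stmt) (h5 : TYA_Stmt)
    (h6 : BLK_Stmt) (h7 : WIN_Stmt) (h8 : ZWI_Stmt) (h9 : RAY_Stmt) : FIN_Stmt := by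
  classical
  intro p _ hp hp5
  have hp2 : p ≠ 2 := by omega
  have htau : 0 < tau p := by
    unfold tau
    have : (0 : ℝ) < p := by exact_mod_cast hp.pos
    positivity
  obtain ⟨C, K1, hC, hB⟩ := h6 p hp hp2
  obtain ⟨K0, hT⟩ := h5 p hp hp2 (tau p) htau
  obtain ⟨K2, hW⟩ := h7 p hp hp2 C hC
  obtain ⟨K3, hZ⟩ := h8 p hp hp2 C hC
  obtain ⟨d0, hR⟩ := h9 p hp hp2 C hC
  set D0 := d0 + 400 * (p ^ 2 + 4) with hD0
  refine ⟨|K0| + |K1| + |K3| + p * |K2| + nn p D0 ^ (1 / 10 : ℝ), fun d H hH => ?_⟩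
  have hn0 : 0 < nn p d := nn_pos hp d
  have hn1 : 1 ≤ nn p d := nn_one hp d
  have hn00 : 0 ≤ nn p D0 ^ (1 / 10 : ℝ) := Real.rpow_nonneg (nn_pos hp D0).le _
  have h2H : (0 : ℝ) < 2 ^ H.card := by positivity
  have hpp : (0 : ℝ) ≤ p * |K2| := by positivity
  have hr0 : 0 < nn p d ^ (1 / 10 : ℝ) := Real.rpow_pos_of_pos hn0 _
  rcases lt_or_ge d D0 with hd | hd
  · have a1 := ncard_le_all H (fun A => ∃ t : ℝ, FlatV (wt (ft p t) A))
    have a2 : nn p d ^ (1 / 10 : ℝ) ≤ nn p D0 ^ (1 / 10 : ℝ) :=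
      Real.rpow_le_rpow hn0.le (nn_mono hp hd.le) (by norm_num)
    calc (Set.ncard {A : Finset (G p d) | A ⊆ H ∧ ∃ t : ℝ, FlatV (wt (ft p t) A)} : ℝ) *
          nn p d ^ (1 / 10 : ℝ) ≤ 2 ^ H.card * nn p D0 ^ (1 / 10 : ℝ) :=
        mul_le_mul a1 a2 hr0.le h2H.le
      _ ≤ (|K0| + |K1| + |K3| + p * |K2| + nn p D0 ^ (1 / 10 : ℝ)) * 2 ^ H.card := by
        rw [mul_comm]
        apply mul_le_mul_of_nonneg_right _ h2H.le
        have := abs_nonneg K0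
        have := abs_nonneg K1
        have := abs_nonneg K3
        linarith
  · have hdd : d0 ≤ d := by omega
    have hdd2 : 400 * (p ^ 2 + 4) ≤ d := le_trans (Nat.le_add_left _ _) hd
    have hbig : 400 * ((p : ℝ) ^ 2 + 4) ≤ nn p d := nn_big hp hdd2
    have hrle : nn p d ^ (1 / 10 : ℝ) ≤ nn p d := by
      calc nn p d ^ (1 / 10 : ℝ) ≤ nn p d ^ (1 : ℝ) :=
            Real.rpow_le_rpow_of_exponent_le hn1 (by norm_num)
        _ = nn p d := Real.rpow_one _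
    -- the four events
    let E0 : Finset (G p d) → Prop := fun A => ¬ Ty (tau p) A
    let E1 : Finset (G p d) → Prop := fun A => Ty (tau p) A ∧ ∃ f : ZMod p → ℂ, EU f ∧
      Far (rn C p d) f ∧ nn p d ^ 2 / 4 < ‖S4 (wt f A)‖
    let E3 : Finset (G p d) → Prop := fun A => Ty (tau p) A ∧ ¬ WZ C H A
    let E2 : ZMod p → Finset (G p d) → Prop := fun α A => Ty (tau p) A ∧ ¬ WU C H A α
    let S : Finset (ZMod p) := univ.filter fun α => α ≠ 0
    have hsub : Set.ncard {A : Finset (G p d) | A ⊆ H ∧ ∃ t : ℝ, FlatV (wt (ft p t) A)} ≤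
        Set.ncard {A : Finset (G p d) | A ⊆ H ∧ (E0 A ∨ (E1 A ∨ (E3 A ∨ ∃ α ∈ S, E2 α A)))} := by
      apply ncard_mono
      rintro A hA ⟨t, hF⟩
      by_contra hcon
      simp only [E0, E1, E3, E2, S, not_or, not_not, not_and, not_exists, mem_filter, mem_univ,
        true_and] at hcon
      obtain ⟨c0, c1, c3, c2⟩ := hcon
      refine det h1 h2 h3 h4 hp hp5 hbig C H A hH hA ?_ ?_ (c3 c0) t hF
      · intro α hα δ hδ hδ1 hδ2 Z hZ1
        exact hR d hdd H A hH hA c0 α hα (c2 α hα c0) δ hδ hδ1 hδ2 Z hZ1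
      · intro f hf hfar
        exact not_lt.1 (c1 c0 f hf hfar)
    have b0 : (Set.ncard {A : Finset (G p d) | A ⊆ H ∧ E0 A} : ℝ) * nn p d ^ (1 / 10 : ℝ) ≤
        |K0| * 2 ^ H.card :=
      calc (Set.ncard {A : Finset (G p d) | A ⊆ H ∧ E0 A} : ℝ) * nn p d ^ (1 / 10 : ℝ)
          ≤ (Set.ncard {A : Finset (G p d) | A ⊆ H ∧ E0 A} : ℝ) * nn p d :=
            mul_le_mul_of_nonneg_left hrle (by positivity)
        _ ≤ K0 * 2 ^ H.card := hT d H hH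
        _ ≤ |K0| * 2 ^ H.card := mul_le_mul_of_nonneg_right (le_abs_self _) h2H.le
    have b1 : (Set.ncard {A : Finset (G p d) | A ⊆ H ∧ E1 A} : ℝ) * nn p d ^ (1 / 10 : ℝ) ≤
        |K1| * 2 ^ H.card :=
      calc (Set.ncard {A : Finset (G p d) | A ⊆ H ∧ E1 A} : ℝ) * nn p d ^ (1 / 10 : ℝ)
          ≤ (Set.ncard {A : Finset (G p d) | A ⊆ H ∧ E1 A} : ℝ) * nn p d :=
            mul_le_mul_of_nonneg_left hrle (by positivity)
        _ ≤ K1 * 2 ^ H.card := hB d H hH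
        _ ≤ |K1| * 2 ^ H.card := mul_le_mul_of_nonneg_right (le_abs_self _) h2H.le
    have b3 : (Set.ncard {A : Finset (G p d) | A ⊆ H ∧ E3 A} : ℝ) * nn p d ^ (1 / 10 : ℝ) ≤
        |K3| * 2 ^ H.card :=
      calc (Set.ncard {A : Finset (G p d) | A ⊆ H ∧ E3 A} : ℝ) * nn p d ^ (1 / 10 : ℝ)
          ≤ K3 * 2 ^ H.card := hZ d H hH
        _ ≤ |K3| * 2 ^ H.card := mul_le_mul_of_nonneg_right (le_abs_self _) h2H.le
    have b2 : (Set.ncard {A : Finset (G p d) | A ⊆ H ∧ ∃ α ∈ S, E2 α A} : ℝ) *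
        nn p d ^ (1 / 10 : ℝ) ≤ p * |K2| * 2 ^ H.card := by
      have c1 : ∀ α ∈ S, (Set.ncard {A : Finset (G p d) | A ⊆ H ∧ E2 α A} : ℝ) ≤
          |K2| * 2 ^ H.card / nn p d ^ (1 / 10 : ℝ) := by
        intro α hα
        rw [le_div_iff₀ hr0]
        calc (Set.ncard {A : Finset (G p d) | A ⊆ H ∧ E2 α A} : ℝ) * nn p d ^ (1 / 10 : ℝ)
            ≤ K2 * 2 ^ H.card := hW d H hH α (Finset.mem_filter.1 hα).2
          _ ≤ |K2| * 2 ^ H.card := mul_le_mul_of_nonneg_right (le_abs_self _) h2H.le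
      have c2 := ncard_ex H S E2 _ c1
      have c3 : (S.card : ℝ) ≤ p := by
        have : S.card ≤ p := by
          calc S.card ≤ (univ : Finset (ZMod p)).card := Finset.card_le_univ _
            _ = p := by rw [Finset.card_univ, ZMod.card]
        exact_mod_cast this
      calc (Set.ncard {A : Finset (G p d) | A ⊆ H ∧ ∃ α ∈ S, E2 α A} : ℝ) *
            nn p d ^ (1 / 10 : ℝ)
          ≤ ((S.card : ℝ) * (|K2| * 2 ^ H.card / nn p d ^ (1 / 10 : ℝ))) *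
            nn p d ^ (1 / 10 : ℝ) := mul_le_mul_of_nonneg_right c2 hr0.le
        _ = (S.card : ℝ) * (|K2| * 2 ^ H.card) := by
            field_simp
        _ ≤ p * (|K2| * 2 ^ H.card) := mul_le_mul_of_nonneg_right c3 (by positivity)
        _ = p * |K2| * 2 ^ H.card := by ring
    have u1 := ncard_or H E0 (fun A => E1 A ∨ (E3 A ∨ ∃ α ∈ S, E2 α A))
    have u2 := ncard_or H E1 (fun A => E3 A ∨ ∃ α ∈ S, E2 α A)
    have u3 := ncard_or H E3 (fun A => ∃ α ∈ S, E2 α A)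
    have u4 : (Set.ncard {A : Finset (G p d) | A ⊆ H ∧ ∃ t : ℝ, FlatV (wt (ft p t) A)} : ℝ) ≤
        (Set.ncard {A : Finset (G p d) | A ⊆ H ∧ E0 A} : ℝ) +
        ((Set.ncard {A : Finset (G p d) | A ⊆ H ∧ E1 A} : ℝ) +
        ((Set.ncard {A : Finset (G p d) | A ⊆ H ∧ E3 A} : ℝ) +
        (Set.ncard {A : Finset (G p d) | A ⊆ H ∧ ∃ α ∈ S, E2 α A} : ℝ))) := by
      have := hsub.trans (u1.trans (Nat.add_le_add_left (u2.trans
        (Nat.add_le_add_left u3 _)) _))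
      exact_mod_cast this
    have u5 := mul_le_mul_of_nonneg_right u4 hr0.le
    refine u5.trans ?_
    have u6 : 0 ≤ nn p D0 ^ (1 / 10 : ℝ) * 2 ^ H.card := mul_nonneg hn00 h2H.le
    clear_value D0 E0 E1 E2 E3 S
    clear hD0 u1 u2 u3 u4 u5 hsub hdd2 hbig
    generalize (Set.ncard {A : Finset (G p d) | A ⊆ H ∧ E0 A} : ℝ) = x0 at *
    generalize (Set.ncard {A : Finset (G p d) | A ⊆ H ∧ E1 A} : ℝ) = x1 at *
    generalize (Set.ncard {A : Finset (G p d) | A ⊆ H ∧ E3 A} : ℝ) = x3 at *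
    generalize (Set.ncard {A : Finset (G p d) | A ⊆ H ∧ ∃ α ∈ S, E2 α A} : ℝ) = x2 at *
    generalize (2 : ℝ) ^ H.card = h at *
    generalize nn p d ^ (1 / 10 : ℝ) = r at *
    generalize nn p D0 ^ (1 / 10 : ℝ) = r0 at *
    have e1 : (x0 + (x1 + (x3 + x2))) * r = x0 * r + x1 * r + x3 * r + x2 * r := by ring
    have e2 : (|K0| + |K1| + |K3| + p * |K2| + r0) * h =
        |K0| * h + |K1| * h + |K3| * h + p * |K2| * h + r0 * h := by ring
    rw [e1, e2]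
    linarith

end Pool.Agent.UAB
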