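import Pool.Agent.UAB.St
import Pool.Agent.UMix.Eig

/-!
# The flow phases are not quadratic phases (MP_e32761_co, module FLW)
-/

set_option autoImplicit false

namespace Pool.Agent.UAB

namespace FLWaux

/-- The eigenvalue function. -/
noncomputable def th (p : ℕ) [NeZero p] (a : ZMod p) : ℝ := 2 * ((ZMod.stdAddChar a : ℂ)).re

theorem th_eq (p : ℕ) [NeZero p] (a : ZMod p) :
    (ZMod.stdAddChar a : ℂ) + (ZMod.stdAddChar (-a) : ℂ) = ((th p a : ℝ) : ℂ) := by
  have h : (ZMod.stdAddChar (-a) : ℂ) = (starRingEnd ℂ) (ZMod.stdAddChar a : ℂ) := by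
    rw [AddChar.map_neg_eq_conj]
  rw [h, Complex.add_conj, th]

theorem ft_eq (p : ℕ) [NeZero p] (t : ℝ) (a : ZMod p) :
    ft p t a = Complex.exp (((t * th p a : ℝ) : ℂ) * Complex.I) := by
  unfold ft
  rw [th_eq]
  congr 1
  push_cast
  ring

theorem th_zero (p : ℕ) [NeZero p] : th p 0 = 2 := by
  unfold th
  simp

theorem th_two (p : ℕ) [NeZero p] : th p 2 = th p 1 ^ 2 - 2 := by
  have h1 := th_eq p 1
  have h2 := th_eq p 2
  have h3 : (ZMod.stdAddChar (2 : ZMod p) : ℂ) = (ZMod.stdAddChar (1 : ZMod p) : ℂ) ^ 2 := by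
    rw [← AddChar.map_nsmul_eq_pow]
    congr 1
    simp
  have h4 : (ZMod.stdAddChar (-2 : ZMod p) : ℂ) = (ZMod.stdAddChar (-1 : ZMod p) : ℂ) ^ 2 := by
    rw [← AddChar.map_nsmul_eq_pow]
    congr 1
    simp
  have h5 : (ZMod.stdAddChar (1 : ZMod p) : ℂ) * (ZMod.stdAddChar (-1 : ZMod p) : ℂ) = 1 := by
    rw [← AddChar.map_add_eq_mul]
    simp
  have h6 : ((th p 2 : ℝ) : ℂ) = ((th p 1 ^ 2 - 2 : ℝ) : ℂ) := by
    push_cast
    rw [← h1, ← h2, h3, h4]
    linear_combination -2 * h5
  exact_mod_cast h6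

theorem th_one (p : ℕ) [NeZero p] : th p 1 = 2 * Real.cos (2 * Real.pi / p) := by
  unfold th
  have h := ZMod.stdAddChar_coe (N := p) 1
  have h1 : (ZMod.stdAddChar (1 : ZMod p) : ℂ) =
      Complex.exp (((2 * Real.pi / p : ℝ) : ℂ) * Complex.I) := by
    have e : ((1 : ℤ) : ZMod p) = 1 := by simp
    rw [e] at h
    rw [h]
    congr 1
    push_cast
    ring
  rw [h1, Complex.exp_ofReal_mul_I_re]

/-- A rational value of `θ(1)` is an integer. -/
theorem th_int (p : ℕ) [NeZero p] (r : ℚ) (h : th p 1 = r) : ∃ k : ℤ, th p 1 = k := by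
  have hint : ∀ a : ZMod p, IsIntegral ℤ (ZMod.stdAddChar a : ℂ) := by
    intro a
    refine IsIntegral.of_pow (n := p) (Nat.pos_of_ne_zero (NeZero.ne p)) ?_
    have : (ZMod.stdAddChar a : ℂ) ^ p = 1 := by
      rw [← AddChar.map_nsmul_eq_pow]
      simp
    rw [this]
    exact isIntegral_one
  have h1 : IsIntegral ℤ (((r : ℚ) : ℂ)) := by
    have h2 : ((r : ℚ) : ℂ) = (ZMod.stdAddChar (1 : ZMod p) : ℂ) +
        (ZMod.stdAddChar (-1 : ZMod p) : ℂ) := by
      rw [th_eq, h]
      simp
    rw [h2]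
    exact (hint _).add (hint _)
  have h3 : IsIntegral ℤ r := by
    have h4 : IsIntegral ℤ (algebraMap ℚ ℂ r) := h1
    exact (isIntegral_algebraMap_iff (algebraMap ℚ ℂ).injective).mp h4
  obtain ⟨k, hk⟩ := IsIntegrallyClosed.isIntegral_iff.mp h3
  refine ⟨k, ?_⟩
  rw [h, ← hk]
  simp

end FLWaux

open FLWaux in
theorem t_FLW : FLW_Stmt := by
  intro p _ hp hp5 t
  refine ⟨⟨?_, ?_⟩, ?_⟩
  · intro a
    rw [ft_eq, Complex.norm_exp_ofReal_mul_I]
  · intro a
    unfold ft
    rw [neg_neg, add_comm]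
  · rintro α hα ⟨κ, hκ⟩
    have hκ0 : ft p t 0 = κ := by
      rw [hκ 0]
      simp
    have hne : ∀ a, ft p t a ≠ 0 := by
      intro a
      rw [ft_eq]
      exact Complex.exp_ne_zero _
    have key : ∀ a : ZMod p, ∃ m : ℤ, p * t * (th p a - 2) = 2 * Real.pi * m := by
      intro a
      have h1 : Complex.exp (((p * t * (th p a - 2) : ℝ) : ℂ) * Complex.I) = 1 := by
        have h2 : (((p * t * (th p a - 2) : ℝ) : ℂ) * Complex.I) =
            (p : ℂ) * (((t * th p a : ℝ) : ℂ) * Complex.I - ((t * th p 0 : ℝ) : ℂ) * Complex.I) := by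
          rw [th_zero]
          push_cast
          ring
        rw [h2, Complex.exp_nat_mul, Complex.exp_sub, ← ft_eq, ← ft_eq, hκ a, hκ0]
        have hk : κ ≠ 0 := by
          rw [← hκ0]
          exact hne 0
        rw [mul_div_cancel_left₀ _ hk, ← AddChar.map_nsmul_eq_pow]
        simp
      obtain ⟨m, hm⟩ := Complex.exp_eq_one_iff.mp h1
      refine ⟨m, ?_⟩
      have h3 : (((p * t * (th p a - 2) : ℝ) : ℂ)) = ((2 * Real.pi * m : ℝ) : ℂ) := by
        have hI := Complex.I_ne_zero
        apply mul_right_cancel₀ hI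
        rw [hm]
        push_cast
        ring
      exact_mod_cast h3
    by_cases ht : t = 0
    · subst ht
      have h1 : ft p 0 1 = 1 := by
        rw [ft_eq]
        simp
      have h0 : ft p 0 0 = 1 := by
        rw [ft_eq]
        simp
      rw [h0] at hκ0
      have h2 := hκ 1
      rw [h1, ← hκ0, one_mul, one_pow, mul_one] at h2
      apply hα
      apply ZMod.injective_stdAddChar
      rw [← h2]
      simp
    · obtain ⟨m1, h1⟩ := key 1
      obtain ⟨m2, h2⟩ := key 2
      have hp0 : (p : ℝ) ≠ 0 := by exact_mod_cast hp.ne_zero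
      have hq : p = 5 ∨ 7 ≤ p := by
        by_contra hcon
        push Not at hcon
        have : p = 6 := by omega
        subst this
        revert hp
        decide
      have hthne : ∀ k : ℤ, th p 1 ≠ k := by
        intro k
        rw [th_one]
        exact Pool.Agent.UMix.cos_not_int hq k
      have hth2 : th p 1 - 2 ≠ 0 := by
        intro h
        apply hthne 2
        push_cast
        linarith
      have hm1 : (m1 : ℝ) ≠ 0 := by
        intro h
        rw [h, mul_zero] at h1
        have := mul_ne_zero (mul_ne_zero hp0 ht) hth2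
        exact this h1
      have h3 : th p 1 + 2 = (m2 : ℝ) / m1 := by
        rw [eq_div_iff hm1]
        rw [th_two] at h2
        have hpi : (2 * Real.pi) ≠ 0 := by positivity
        apply mul_left_cancel₀ hpi
        rw [← h2]
        linear_combination (-(th p 1 + 2)) * h1
      obtain ⟨k, hk⟩ := th_int p ((m2 : ℚ) / m1 - 2) (by
        push_cast
        linarith)
      exact hthne k hk

end Pool.Agent.UAB
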