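import Pool.Agent.UAB.St

/-!
# Module GRD: dimension of the span of good quadruples and number of lines
-/

set_option autoImplicit false

namespace Pool.Agent.UAB

namespace GRDaux

open Finset
open Pool.Agent.UAA (G ch nn)

section gen

variable {K V : Type*} [Field K] [AddCommGroup V] [Module K V]

/-- A nonzero element of a line spans the line. -/
theorem mem_of_ne {u v : V} {W : Submodule K V} (h : u ∈ Submodule.span K {v}) (h0 : u ≠ 0)
    (hW : u ∈ W) : v ∈ W := by
  obtain ⟨c, rfl⟩ := Submodule.mem_span_singleton.1 h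
  have hc : c ≠ 0 := by
    rintro rfl
    simp at h0
  have h2 : c⁻¹ • c • v ∈ W := W.smul_mem _ hW
  rwa [smul_smul, inv_mul_cancel₀ hc, one_smul] at h2

theorem span_eq {u v : V} (h : u ∈ Submodule.span K {v}) (h0 : u ≠ 0) :
    Submodule.span K {u} = Submodule.span K {v} := by
  apply le_antisymm
  · rw [Submodule.span_singleton_le_iff_mem]
    exact h
  · rw [Submodule.span_singleton_le_iff_mem]
    exact mem_of_ne h h0 (Submodule.mem_span_singleton_self u)

theorem finrank_line [FiniteDimensional K V] (v : V) :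
    Module.finrank K (Submodule.span K ({v} : Set V)) ≤ 1 := by
  classical
  have h := finrank_span_le_card (R := K) ({v} : Set V)
  simpa using h

theorem finrank_sup_le [FiniteDimensional K V] (P : Submodule K V) (S : Finset (Submodule K V))
    (h : ∀ l ∈ S, Module.finrank K l ≤ 1) :
    Module.finrank K (P ⊔ S.sup id : Submodule K V) ≤ Module.finrank K P + S.card := by
  classical
  induction S using Finset.induction_on with
  | empty =>
    have h0 : P ⊔ (∅ : Finset (Submodule K V)).sup id = P := by
      rw [Finset.sup_empty, sup_bot_eq]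
    rw [h0]
    simp
  | insert a S ha ih =>
    have h1 := ih fun l hl => h l (Finset.mem_insert_of_mem hl)
    have h2 := h a (Finset.mem_insert_self a S)
    rw [Finset.sup_insert, Finset.card_insert_of_notMem ha, id_eq]
    have h3 : P ⊔ (a ⊔ S.sup id) = (P ⊔ S.sup id) ⊔ a := by
      rw [sup_comm a, ← sup_assoc]
    rw [h3]
    have h4 := Submodule.finrank_add_le_finrank_add_finrank (P ⊔ S.sup id) a
    omega

/-- Key lemma: a subspace which contains the vectors outside one line contains this line. -/
theorem key (a b c e : V) (h : a + b = c + e) (ha : a ≠ 0) (hb : b ≠ 0) (hc : c ≠ 0) (he : e ≠ 0)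
    (hac : a ≠ c) (hbc : b ≠ c) (hab : a + b ≠ 0)
    (hcol : ¬ ∃ v : V, a ∈ Submodule.span K {v} ∧ b ∈ Submodule.span K {v} ∧
      c ∈ Submodule.span K {v}) (v : V) (W : Submodule K V)
    (h1 : a ∈ Submodule.span K {v} ∨ a ∈ W) (h2 : b ∈ Submodule.span K {v} ∨ b ∈ W)
    (h3 : c ∈ Submodule.span K {v} ∨ c ∈ W) (h4 : e ∈ Submodule.span K {v} ∨ e ∈ W)
    (h5 : a ∈ Submodule.span K {v} ∨ b ∈ Submodule.span K {v} ∨ c ∈ Submodule.span K {v} ∨
      e ∈ Submodule.span K {v}) : v ∈ W := by
  set L := Submodule.span K {v} with hL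
  have ea : a = c + e - b := by rw [← h]; abel
  have eb : b = c + e - a := by rw [← h]; abel
  have ec : c = a + b - e := by rw [h]; abel
  have ee : e = a + b - c := by rw [h]; abel
  -- the sum of the vectors outside
  by_cases La : a ∈ L
  · by_cases Lb : b ∈ L
    · by_cases Lc : c ∈ L
      · exact absurd ⟨v, La, Lb, Lc⟩ hcol
      · by_cases Le : e ∈ L
        · exact absurd (ec ▸ L.sub_mem (L.add_mem La Lb) Le) Lc
        · have hcW : c ∈ W := h3.resolve_left Lc
          have heW : e ∈ W := h4.resolve_left Le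
          exact mem_of_ne (L.add_mem La Lb) hab (h ▸ W.add_mem hcW heW)
    · have hbW : b ∈ W := h2.resolve_left Lb
      by_cases Lc : c ∈ L
      · by_cases Le : e ∈ L
        · exact absurd (eb ▸ L.sub_mem (L.add_mem Lc Le) La) Lb
        · have heW : e ∈ W := h4.resolve_left Le
          have : a - c = e - b := by rw [ea]; abel
          exact mem_of_ne (L.sub_mem La Lc) (sub_ne_zero.2 hac) (this ▸ W.sub_mem heW hbW)
      · have hcW : c ∈ W := h3.resolve_left Lc
        by_cases Le : e ∈ L
        · have h6 : a - e = c - b := by rw [ea]; abel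
          have h7 : a - e ≠ 0 := by
            rw [h6]
            exact sub_ne_zero.2 (Ne.symm hbc)
          exact mem_of_ne (L.sub_mem La Le) h7 (h6 ▸ W.sub_mem hcW hbW)
        · have heW : e ∈ W := h4.resolve_left Le
          exact mem_of_ne La ha (ea ▸ W.sub_mem (W.add_mem hcW heW) hbW)
  · have haW : a ∈ W := h1.resolve_left La
    by_cases Lb : b ∈ L
    · by_cases Lc : c ∈ L
      · by_cases Le : e ∈ L
        · exact absurd (ea ▸ L.sub_mem (L.add_mem Lc Le) Lb) La
        · have heW : e ∈ W := h4.resolve_left Le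
          have : b - c = e - a := by rw [eb]; abel
          exact mem_of_ne (L.sub_mem Lb Lc) (sub_ne_zero.2 hbc) (this ▸ W.sub_mem heW haW)
      · have hcW : c ∈ W := h3.resolve_left Lc
        by_cases Le : e ∈ L
        · have h6 : b - e = c - a := by rw [eb]; abel
          have h7 : b - e ≠ 0 := by
            rw [h6]
            exact sub_ne_zero.2 (Ne.symm hac)
          exact mem_of_ne (L.sub_mem Lb Le) h7 (h6 ▸ W.sub_mem hcW haW)
        · have heW : e ∈ W := h4.resolve_left Le
          exact mem_of_ne Lb hb (eb ▸ W.sub_mem (W.add_mem hcW heW) haW)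
    · have hbW : b ∈ W := h2.resolve_left Lb
      by_cases Lc : c ∈ L
      · by_cases Le : e ∈ L
        · have h6 : c + e ≠ 0 := h ▸ hab
          exact mem_of_ne (L.add_mem Lc Le) h6 (h ▸ W.add_mem haW hbW)
        · have heW : e ∈ W := h4.resolve_left Le
          exact mem_of_ne Lc hc (ec ▸ W.sub_mem (W.add_mem haW hbW) heW)
      · have hcW : c ∈ W := h3.resolve_left Lc
        by_cases Le : e ∈ L
        · exact mem_of_ne Le he (ee ▸ W.sub_mem (W.add_mem haW hbW) hcW)
        · rcases h5 with h5 | h5 | h5 | h5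
          · exact absurd h5 La
          · exact absurd h5 Lb
          · exact absurd h5 Lc
          · exact absurd h5 Le

end gen

variable {p d : ℕ}

theorem key_vec [Fact p.Prime] (t : G p d × G p d × G p d) (ht : Gq t) (j0 : Fin 4)
    (W : Submodule (ZMod p) (G p d))
    (hW : ∀ j, Submodule.span (ZMod p) {vec t j} ≠ Submodule.span (ZMod p) {vec t j0} →
      vec t j ∈ W) : vec t j0 ∈ W := by
  obtain ⟨h1, h2, h3, h4, h5, h6, h7, h8⟩ := ht
  have hj : ∀ j, vec t j ∈ Submodule.span (ZMod p) {vec t j0} ∨ vec t j ∈ W := by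
    intro j
    by_cases h : Submodule.span (ZMod p) {vec t j} = Submodule.span (ZMod p) {vec t j0}
    · left
      rw [← h]
      exact Submodule.mem_span_singleton_self _
    · exact Or.inr (hW j h)
  refine key t.1 t.2.1 t.2.2 (t.1 + t.2.1 - t.2.2) (by abel) h1 h2 h3 h4 h5 h6 h7 ?_ (vec t j0) W
    (hj 0) (hj 1) (hj 2) (hj 3) ?_
  · rintro ⟨v, ha, hb, hc⟩
    apply h8
    obtain ⟨i, hi⟩ := Submodule.mem_span_singleton.1 ha
    obtain ⟨j, hj⟩ := Submodule.mem_span_singleton.1 hb
    obtain ⟨k, hk⟩ := Submodule.mem_span_singleton.1 hc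
    refine ⟨v, i, j, k, ?_⟩
    rw [hi, hj, hk]
  · have hs := Submodule.mem_span_singleton_self (R := ZMod p) (vec t j0)
    fin_cases j0
    · exact Or.inl hs
    · exact Or.inr (Or.inl hs)
    · exact Or.inr (Or.inr (Or.inl hs))
    · exact Or.inr (Or.inr (Or.inr hs))

theorem main [Fact p.Prime] {N : ℕ} (Q : Fin N → G p d × G p d × G p d) (hQ : ∀ i, Gq (Q i))
    (B : Set (Fin N × Fin 4))
    (hB : ∀ s ∈ B, ∀ s', Submodule.span (ZMod p) {X Q s'} = Submodule.span (ZMod p) {X Q s} →
      s' ∈ B) (n : ℕ) :
    4 * Module.finrank (ZMod p)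
        (Submodule.span (ZMod p) (X Q '' (B ∪ {s | (s.1 : ℕ) < n}))) ≤
      4 * Module.finrank (ZMod p) (Submodule.span (ZMod p) (X Q '' B)) +
        3 * Set.ncard ((fun s => Submodule.span (ZMod p) {X Q s}) '' {s | s ∉ B ∧ (s.1 : ℕ) < n}) := by
  classical
  induction n with
  | zero =>
    have h0 : {s : Fin N × Fin 4 | (s.1 : ℕ) < 0} = ∅ := by
      ext s
      simp
    rw [h0, Set.union_empty]
    exact Nat.le_add_right _ _
  | succ n ih =>
    by_cases hn : n < N
    swap
    · have h1 : {s : Fin N × Fin 4 | (s.1 : ℕ) < n + 1} = {s | (s.1 : ℕ) < n} := by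
        ext s
        have := s.1.2
        constructor
        · intro h
          have h' : (s.1 : ℕ) < n + 1 := h
          exact (by omega : (s.1 : ℕ) < n)
        · intro h
          have h' : (s.1 : ℕ) < n := h
          exact (by omega : (s.1 : ℕ) < n + 1)
      have h2 : {s : Fin N × Fin 4 | s ∉ B ∧ (s.1 : ℕ) < n + 1} =
          {s | s ∉ B ∧ (s.1 : ℕ) < n} := by
        ext s
        have := s.1.2
        constructor
        · rintro ⟨ha, hb⟩
          exact ⟨ha, by omega⟩
        · rintro ⟨ha, hb⟩
          exact ⟨ha, by omega⟩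
      rw [h1, h2]
      exact ih
    set i : Fin N := ⟨n, hn⟩ with hi
    set ln : Fin N × Fin 4 → Submodule (ZMod p) (G p d) := fun s => Submodule.span (ZMod p) {X Q s}
      with hln
    set P : Submodule (ZMod p) (G p d) := Submodule.span (ZMod p) (X Q '' (B ∪ {s | (s.1 : ℕ) < n}))
      with hP
    set L : Set (Submodule (ZMod p) (G p d)) := ln '' {s | s ∉ B ∧ (s.1 : ℕ) < n} with hL
    -- the new lines
    set S : Finset (Submodule (ZMod p) (G p d)) :=
      ((univ : Finset (Fin 4)).filter fun j => (i, j) ∉ B ∧ ln (i, j) ∉ L).image fun j => ln (i, j)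
      with hS
    have hSc : S.card ≤ 4 := by
      refine le_trans Finset.card_image_le (le_trans (Finset.card_filter_le _ _) ?_)
      simp
    have hS1 : ∀ l ∈ S, Module.finrank (ZMod p) l ≤ 1 := by
      intro l hl
      rw [hS, Finset.mem_image] at hl
      obtain ⟨j, -, rfl⟩ := hl
      exact finrank_line _
    have hold : ∀ j, ln (i, j) ∉ S → X Q (i, j) ∈ P := by
      intro j hj
      by_cases hb : (i, j) ∈ B
      · exact Submodule.subset_span ⟨(i, j), Or.inl hb, rfl⟩
      by_cases hl : ln (i, j) ∈ L
      · obtain ⟨s, ⟨hs1, hs2⟩, hs3⟩ := hl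
        have h1 : X Q s ∈ P := Submodule.subset_span ⟨s, Or.inr hs2, rfl⟩
        have h2 : ln s ≤ P := by
          rw [hln]
          simpa using h1
        rw [hs3] at h2
        exact h2 (Submodule.mem_span_singleton_self _)
      · exact absurd (Finset.mem_image.2 ⟨j, by simp [hb, hl], rfl⟩) hj
    -- the new space
    have hP1 : ∀ S' : Finset (Submodule (ZMod p) (G p d)), (∀ j, X Q (i, j) ∈ P ⊔ S'.sup id) →
        Submodule.span (ZMod p) (X Q '' (B ∪ {s | (s.1 : ℕ) < n + 1})) ≤ P ⊔ S'.sup id := by
      intro S' hS'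
      rw [Submodule.span_le]
      rintro _ ⟨s, hs, rfl⟩
      rcases hs with hs | hs
      · exact (le_sup_left : P ≤ P ⊔ S'.sup id) (Submodule.subset_span ⟨s, Or.inl hs, rfl⟩)
      · have hs' : (s.1 : ℕ) < n + 1 := hs
        rcases Nat.lt_succ_iff_lt_or_eq.1 hs' with h | h
        · exact (le_sup_left : P ≤ P ⊔ S'.sup id) (Submodule.subset_span ⟨s, Or.inr h, rfl⟩)
        · have : s = (i, s.2) := by
            ext1
            · exact Fin.ext h
            · rfl
          rw [this]
          exact hS' s.2
    -- the number of lines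
    have hLn : Set.ncard (ln '' {s | s ∉ B ∧ (s.1 : ℕ) < n + 1}) = Set.ncard L + S.card := by
      have hdis : Disjoint L (S : Set (Submodule (ZMod p) (G p d))) := by
        rw [Set.disjoint_left]
        intro l hl hl2
        rw [Finset.mem_coe, hS, Finset.mem_image] at hl2
        obtain ⟨j, hj, rfl⟩ := hl2
        rw [Finset.mem_filter] at hj
        exact hj.2.2 hl
      have heq : ln '' {s | s ∉ B ∧ (s.1 : ℕ) < n + 1} = L ∪ (S : Set _) := by
        ext l
        constructor
        · rintro ⟨s, ⟨hs1, hs2⟩, rfl⟩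
          rcases Nat.lt_succ_iff_lt_or_eq.1 hs2 with h | h
          · exact Or.inl ⟨s, ⟨hs1, h⟩, rfl⟩
          · have : s = (i, s.2) := by
              ext1
              · exact Fin.ext h
              · rfl
            by_cases hl : ln s ∈ L
            · exact Or.inl hl
            · right
              rw [Finset.mem_coe, hS, Finset.mem_image]
              refine ⟨s.2, ?_, by rw [← this]⟩
              rw [Finset.mem_filter, ← this]
              exact ⟨Finset.mem_univ _, hs1, hl⟩
        · rintro (hl | hl)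
          · obtain ⟨s, ⟨hs1, hs2⟩, rfl⟩ := hl
            exact ⟨s, ⟨hs1, by omega⟩, rfl⟩
          · rw [Finset.mem_coe, hS, Finset.mem_image] at hl
            obtain ⟨j, hj, rfl⟩ := hl
            rw [Finset.mem_filter] at hj
            exact ⟨(i, j), ⟨hj.2.1, by simp [hi]⟩, rfl⟩
      rw [heq, Set.ncard_union_eq hdis (Set.toFinite _) (Set.toFinite _), Set.ncard_coe_finset]
    rw [hLn]
    -- the dimension
    by_cases hS0 : S = ∅
    · have h1 := hP1 ∅ fun j => by
        have := hold j (by rw [hS0]; simp)
        simpa using this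
      have h2 := Submodule.finrank_mono h1
      have h3 : P ⊔ (∅ : Finset (Submodule (ZMod p) (G p d))).sup id = P := by simp
      rw [h3] at h2
      rw [hS0]
      simp only [Finset.card_empty]
      omega
    · obtain ⟨l0, hl0⟩ := Finset.nonempty_iff_ne_empty.2 hS0
      have hl0' := hl0
      rw [hS, Finset.mem_image] at hl0'
      obtain ⟨j0, hj0, hlj⟩ := hl0'
      have hother : ∀ j, ln (i, j) ≠ ln (i, j0) → X Q (i, j) ∈ P ⊔ (S.erase l0).sup id := by
        intro j hj
        by_cases hjS : ln (i, j) ∈ S
        · have h1 : ln (i, j) ∈ S.erase l0 := by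
            rw [Finset.mem_erase]
            exact ⟨by rw [← hlj]; exact hj, hjS⟩
          have h2 : ln (i, j) ≤ (S.erase l0).sup id := Finset.le_sup (f := id) h1
          exact (le_trans h2 le_sup_right) (Submodule.mem_span_singleton_self _)
        · exact (le_sup_left : P ≤ _) (hold j hjS)
      have hthis : X Q (i, j0) ∈ P ⊔ (S.erase l0).sup id :=
        key_vec (Q i) (hQ i) j0 _ hother
      have h1 := hP1 (S.erase l0) fun j => by
        by_cases hj : ln (i, j) = ln (i, j0)
        · have h2 : ln (i, j0) ≤ P ⊔ (S.erase l0).sup id := by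
            rw [hln]
            simpa using hthis
          rw [← hj] at h2
          exact h2 (Submodule.mem_span_singleton_self _)
        · exact hother j hj
      have h2 := Submodule.finrank_mono h1
      have h3 := finrank_sup_le P (S.erase l0) fun l hl => hS1 l (Finset.mem_of_mem_erase hl)
      have h4 : (S.erase l0).card + 1 = S.card := Finset.card_erase_add_one hl0
      omega

end GRDaux

open GRDaux

theorem t_GRD : GRD_Stmt := by
  intro p d N _ hp Q hQ B hB
  haveI : Fact p.Prime := ⟨hp⟩
  have h := main Q hQ B hB N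
  have h1 : X Q '' (B ∪ {s : Fin N × Fin 4 | (s.1 : ℕ) < N}) = Set.range (X Q) := by
    have : {s : Fin N × Fin 4 | (s.1 : ℕ) < N} = Set.univ := by
      ext s
      simp
    rw [this, Set.union_univ, Set.image_univ]
  have h2 : {s : Fin N × Fin 4 | s ∉ B ∧ (s.1 : ℕ) < N} = Bᶜ := by
    ext s
    simp
  rw [h1, h2] at h
  exact h

end Pool.Agent.UAB
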