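import Pool.Agent.UAB.St

/-!
# Half sets (module HLF)
-/

set_option autoImplicit false

namespace Pool.Agent.UAB

open Finset
open Pool.Agent.UAA (G ch nn)

namespace HLFaux

theorem neg_ne {p d : ℕ} (hp : p.Prime) (h2 : p ≠ 2) {c : G p d} (hc : c ≠ 0) : c ≠ -c := by
  intro h
  apply hc
  have : Fact p.Prime := ⟨hp⟩
  funext i
  have h1 : c i = -c i := congrFun h i
  have h3 : (2 : ZMod p) * c i = 0 := by
    rw [two_mul]
    nth_rewrite 2 [h1]
    exact add_neg_cancel _
  rcases mul_eq_zero.1 h3 with h4 | h4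
  · exfalso
    have h5 : ((2 : ℕ) : ZMod p) = 0 := by exact_mod_cast h4
    rw [ZMod.natCast_eq_zero_iff] at h5
    exact h2 ((Nat.prime_dvd_prime_iff_eq hp Nat.prime_two).1 h5)
  · exact h4

theorem key {p d : ℕ} [NeZero p] {H : Finset (G p d)} (hH : Half H)
    (φ : G p d → ℂ) : ∑ c, φ c = φ 0 + (∑ h ∈ H, φ h + ∑ h ∈ H, φ (-h)) := by
  classical
  obtain ⟨h0, hc⟩ := hH
  rw [← Finset.add_sum_erase univ φ (mem_univ 0),
    ← Finset.sum_filter_add_sum_filter_not (univ.erase (0 : G p d)) (fun c => c ∈ H)]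
  have e1 : (univ.erase (0 : G p d)).filter (fun c => c ∈ H) = H := by
    ext c
    simp only [mem_filter, mem_erase, mem_univ, and_true]
    constructor
    · exact fun h => h.2
    · intro h
      refine ⟨?_, h⟩
      rintro rfl
      exact h0 h
  have e2 : (univ.erase (0 : G p d)).filter (fun c => c ∉ H) = H.image (fun c => -c) := by
    ext c
    simp only [mem_filter, mem_erase, mem_univ, and_true, mem_image]
    constructor
    · rintro ⟨h1, h3⟩
      refine ⟨-c, ?_, neg_neg c⟩
      by_contra h4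
      exact h3 ((hc c h1).2 h4)
    · rintro ⟨x, hx, rfl⟩
      have hx0 : x ≠ 0 := by
        rintro rfl
        exact h0 hx
      exact ⟨neg_ne_zero.2 hx0, (hc x hx0).1 hx⟩
  rw [e1, e2, Finset.sum_image (fun a _ b _ h => neg_injective h)]

end HLFaux

open HLFaux in
theorem t_HLF : HLF_Stmt := by
  classical
  intro p d _ hp h2
  refine ⟨?_, ?_⟩
  · let e : G p d ≃ Fin (Fintype.card (G p d)) := Fintype.equivFin _
    refine ⟨univ.filter (fun c => e c < e (-c)), ?_, ?_⟩
    · simp
    · intro c hc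
      have h1 : e c ≠ e (-c) := fun h => neg_ne hp h2 hc (e.injective h)
      simp only [mem_filter, mem_univ, true_and, neg_neg, not_lt]
      exact ⟨fun h => h.le, fun h => lt_of_le_of_ne h h1⟩
  · intro H hH
    refine ⟨?_, ?_⟩
    · have h1 := key hH (fun _ => (1 : ℂ))
      simp only [sum_const, nsmul_eq_mul, mul_one, card_univ] at h1
      have h3 : Fintype.card (G p d) = p ^ d := by
        show Fintype.card (Fin d → ZMod p) = p ^ d
        rw [Fintype.card_fun, ZMod.card, Fintype.card_fin]
      rw [h3] at h1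
      have h4 : p ^ d = 1 + (H.card + H.card) := by exact_mod_cast h1
      omega
    · intro φ hφ
      rw [key hH φ]
      have h1 : ∑ h ∈ H, φ (-h) = ∑ h ∈ H, φ h := sum_congr rfl fun h _ => hφ h
      rw [h1]
      ring

end Pool.Agent.UAB
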