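import Pool.Agent.UAB.St

/-!
# Interpolation of exponentials on a grid
-/

set_option autoImplicit false

namespace Pool.Agent.UAB

open Finset

namespace INTaux

/-- The Lagrange basis of the nodes `0, …, K`. -/
noncomputable def lb (K : ℕ) (t : ℝ) (ν : Fin (K + 1)) : ℝ :=
  ∏ μ ∈ (univ : Finset (Fin (K + 1))).erase ν,
    (t - ((μ : ℕ) : ℝ)) / (((ν : ℕ) : ℝ) - ((μ : ℕ) : ℝ))

theorem lb_bound (K : ℕ) (t : ℝ) (h0 : 0 ≤ t) (h1 : t ≤ 1) (ν : Fin (K + 1)) :
    |lb K t ν| ≤ ((K : ℝ) + 1) ^ K := by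
  unfold lb
  rw [Finset.abs_prod]
  have hc : ((univ : Finset (Fin (K + 1))).erase ν).card = K := by
    rw [Finset.card_erase_of_mem (Finset.mem_univ ν), Finset.card_univ, Fintype.card_fin]
    simp
  calc ∏ μ ∈ (univ : Finset (Fin (K + 1))).erase ν,
        |(t - ((μ : ℕ) : ℝ)) / (((ν : ℕ) : ℝ) - ((μ : ℕ) : ℝ))|
      ≤ ∏ _μ ∈ (univ : Finset (Fin (K + 1))).erase ν, ((K : ℝ) + 1) := by
        apply Finset.prod_le_prod
        · intro μ _
          exact abs_nonneg _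
        · intro μ hμ
          have hne : μ ≠ ν := Finset.ne_of_mem_erase hμ
          have hne' : (μ : ℕ) ≠ (ν : ℕ) := fun h => hne (Fin.ext h)
          have h2 : (1 : ℝ) ≤ |((ν : ℕ) : ℝ) - ((μ : ℕ) : ℝ)| := by
            have h3 : (1 : ℤ) ≤ |((ν : ℕ) : ℤ) - ((μ : ℕ) : ℤ)| := by
              apply Int.one_le_abs
              intro h
              apply hne'
              omega
            exact_mod_cast h3
          have h4 : |t - ((μ : ℕ) : ℝ)| ≤ (K : ℝ) + 1 := by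
            have h5 : ((μ : ℕ) : ℝ) ≤ K := by
              have := μ.2
              exact_mod_cast (by omega : (μ : ℕ) ≤ K)
            have h6 : (0 : ℝ) ≤ ((μ : ℕ) : ℝ) := Nat.cast_nonneg _
            rw [abs_le]
            constructor <;> linarith
          rw [abs_div]
          rw [div_le_iff₀ (by linarith)]
          have h7 : (0 : ℝ) ≤ (K : ℝ) + 1 := by positivity
          nlinarith
    _ = ((K : ℝ) + 1) ^ K := by
        rw [Finset.prod_const, hc]

theorem lb_pow (K : ℕ) (t : ℝ) (k : ℕ) (hk : k < K + 1) :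
    ∑ ν : Fin (K + 1), lb K t ν * ((ν : ℕ) : ℝ) ^ k = t ^ k := by
  classical
  set v : Fin (K + 1) → ℝ := fun ν => ((ν : ℕ) : ℝ) with hv
  have hinj : Set.InjOn v (univ : Finset (Fin (K + 1))) := by
    intro a _ b _ hab
    have : ((a : ℕ) : ℝ) = ((b : ℕ) : ℝ) := hab
    exact Fin.ext (by exact_mod_cast this)
  have hdeg : (Polynomial.X ^ k : Polynomial ℝ).degree < ((univ : Finset (Fin (K + 1))).card : ℕ) := by
    rw [Polynomial.degree_X_pow, Finset.card_univ, Fintype.card_fin]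
    exact_mod_cast hk
  have h1 := Lagrange.eq_interpolate hinj hdeg
  have h2 := congrArg (Polynomial.eval t) h1
  rw [Lagrange.interpolate_apply, Polynomial.eval_finsetSum] at h2
  simp only [Polynomial.eval_mul, Polynomial.eval_C, Polynomial.eval_pow, Polynomial.eval_X] at h2
  rw [h2]
  apply Finset.sum_congr rfl
  intro ν _
  rw [mul_comm]
  congr 1
  unfold lb Lagrange.basis
  rw [Polynomial.eval_prod]
  apply Finset.prod_congr rfl
  intro μ _
  unfold Lagrange.basisDivisor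
  simp only [Polynomial.eval_mul, Polynomial.eval_C, Polynomial.eval_sub, Polynomial.eval_X, hv]
  rw [div_eq_mul_inv, mul_comm]

/-- The constant of the one variable estimate. -/
noncomputable def C1 (K : ℕ) : ℝ :=
  (1 + ((K : ℝ) + 1) * ((K : ℝ) + 1) ^ K) *
    (((K : ℝ) + 1) ^ (K + 1) * Real.exp ((K : ℝ) + 1))

/-- The Taylor polynomial. -/
noncomputable def tp (K : ℕ) (x : ℂ) : ℂ := ∑ m ∈ range (K + 1), x ^ m / (m.factorial : ℂ)

theorem tp_err (K : ℕ) (lam s η : ℝ) (hη0 : 0 ≤ η) (hη1 : η ≤ 1) (hl : |lam| ≤ η)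
    (hs0 : 0 ≤ s) (hs1 : s ≤ (K : ℝ) + 1) :
    ‖Complex.exp (Complex.I * ((lam * s : ℝ) : ℂ)) - tp K (Complex.I * ((lam * s : ℝ) : ℂ))‖ ≤
      (((K : ℝ) + 1) ^ (K + 1) * Real.exp ((K : ℝ) + 1)) * η ^ (K + 1) := by
  have h1 := Complex.norm_exp_sub_sum_le_norm_mul_exp (Complex.I * ((lam * s : ℝ) : ℂ)) (K + 1)
  have h2 : ‖Complex.I * ((lam * s : ℝ) : ℂ)‖ = |lam| * s := by
    rw [norm_mul, Complex.norm_I, one_mul, Complex.norm_real, Real.norm_eq_abs, abs_mul,
      abs_of_nonneg hs0]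
  have hK : (0 : ℝ) ≤ (K : ℝ) + 1 := by positivity
  have h3 : |lam| * s ≤ η * ((K : ℝ) + 1) := mul_le_mul hl hs1 hs0 hη0
  have h4 : η * ((K : ℝ) + 1) ≤ (K : ℝ) + 1 := by nlinarith
  rw [h2] at h1
  unfold tp
  refine h1.trans ?_
  have h5 : (|lam| * s) ^ (K + 1) ≤ (η * ((K : ℝ) + 1)) ^ (K + 1) :=
    pow_le_pow_left₀ (by positivity) h3 _
  have h6 : Real.exp (|lam| * s) ≤ Real.exp ((K : ℝ) + 1) :=
    Real.exp_le_exp.2 (h3.trans h4)
  calc (|lam| * s) ^ (K + 1) * Real.exp (|lam| * s)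
      ≤ (η * ((K : ℝ) + 1)) ^ (K + 1) * Real.exp ((K : ℝ) + 1) :=
        mul_le_mul h5 h6 (Real.exp_pos _).le (by positivity)
    _ = (((K : ℝ) + 1) ^ (K + 1) * Real.exp ((K : ℝ) + 1)) * η ^ (K + 1) := by
        rw [mul_pow]
        ring

theorem tp_exact (K : ℕ) (t lam : ℝ) :
    tp K (Complex.I * ((lam * t : ℝ) : ℂ)) =
      ∑ ν : Fin (K + 1), (lb K t ν : ℂ) *
        tp K (Complex.I * ((lam * ((ν : ℕ) : ℝ) : ℝ) : ℂ)) := by
  unfold tp
  simp_rw [Finset.mul_sum]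
  rw [Finset.sum_comm]
  apply Finset.sum_congr rfl
  intro m hm
  have h1 := lb_pow K t m (Finset.mem_range.1 hm)
  have h2 : ((t : ℂ)) ^ m = ∑ ν : Fin (K + 1), (lb K t ν : ℂ) * (((ν : ℕ) : ℝ) : ℂ) ^ m := by
    rw [← Complex.ofReal_pow, ← h1]
    push_cast
    rfl
  have h3 : (Complex.I * ((lam * t : ℝ) : ℂ)) ^ m / (m.factorial : ℂ) =
      ((Complex.I * (lam : ℂ)) ^ m / (m.factorial : ℂ)) * (t : ℂ) ^ m := by
    push_cast
    rw [← mul_assoc, mul_pow]
    ring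
  rw [h3, h2, Finset.mul_sum]
  apply Finset.sum_congr rfl
  intro ν _
  rw [Complex.ofReal_mul, ← mul_assoc Complex.I, mul_pow (Complex.I * (lam : ℂ))]
  ring

theorem one (K : ℕ) (t : ℝ) (h0 : 0 ≤ t) (h1 : t ≤ 1) (lam η : ℝ) (hη0 : 0 ≤ η)
    (hη1 : η ≤ 1) (hl : |lam| ≤ η) :
    ‖Complex.exp (Complex.I * ((lam * t : ℝ) : ℂ)) -
        ∑ ν : Fin (K + 1), (lb K t ν : ℂ) *
          Complex.exp (Complex.I * ((lam * ((ν : ℕ) : ℝ) : ℝ) : ℂ))‖ ≤ C1 K * η ^ (K + 1) := by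
  have hK : (0 : ℝ) ≤ (K : ℝ) := Nat.cast_nonneg _
  set B : ℝ := (((K : ℝ) + 1) ^ (K + 1) * Real.exp ((K : ℝ) + 1)) * η ^ (K + 1) with hB
  have hB0 : 0 ≤ B := by positivity
  have h2 : Complex.exp (Complex.I * ((lam * t : ℝ) : ℂ)) -
        ∑ ν : Fin (K + 1), (lb K t ν : ℂ) *
          Complex.exp (Complex.I * ((lam * ((ν : ℕ) : ℝ) : ℝ) : ℂ)) =
      (Complex.exp (Complex.I * ((lam * t : ℝ) : ℂ)) - tp K (Complex.I * ((lam * t : ℝ) : ℂ))) -
        ∑ ν : Fin (K + 1), (lb K t ν : ℂ) *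
          (Complex.exp (Complex.I * ((lam * ((ν : ℕ) : ℝ) : ℝ) : ℂ)) -
            tp K (Complex.I * ((lam * ((ν : ℕ) : ℝ) : ℝ) : ℂ))) := by
    rw [tp_exact K t lam]
    simp_rw [mul_sub]
    rw [Finset.sum_sub_distrib]
    ring
  rw [h2]
  have h3 : ‖∑ ν : Fin (K + 1), (lb K t ν : ℂ) *
          (Complex.exp (Complex.I * ((lam * ((ν : ℕ) : ℝ) : ℝ) : ℂ)) -
            tp K (Complex.I * ((lam * ((ν : ℕ) : ℝ) : ℝ) : ℂ)))‖ ≤
      ((K : ℝ) + 1) * (((K : ℝ) + 1) ^ K * B) := by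
    calc ‖∑ ν : Fin (K + 1), (lb K t ν : ℂ) *
          (Complex.exp (Complex.I * ((lam * ((ν : ℕ) : ℝ) : ℝ) : ℂ)) -
            tp K (Complex.I * ((lam * ((ν : ℕ) : ℝ) : ℝ) : ℂ)))‖
        ≤ ∑ _ν : Fin (K + 1), ((K : ℝ) + 1) ^ K * B := by
          apply norm_sum_le_of_le
          intro ν _
          rw [norm_mul, Complex.norm_real, Real.norm_eq_abs]
          apply mul_le_mul (lb_bound K t h0 h1 ν) _ (norm_nonneg _) (by positivity)
          apply tp_err K lam _ η hη0 hη1 hl (Nat.cast_nonneg _)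
          have h4 : ((ν : ℕ) : ℝ) ≤ K := by
            have := ν.2
            exact_mod_cast (by omega : (ν : ℕ) ≤ K)
          linarith
      _ = ((K : ℝ) + 1) * (((K : ℝ) + 1) ^ K * B) := by
          rw [Finset.sum_const, Finset.card_univ, Fintype.card_fin, nsmul_eq_mul]
          push_cast
          ring
  have h5 := tp_err K lam t η hη0 hη1 hl h0 (by linarith)
  refine (norm_sub_le _ _).trans ?_
  calc _ ≤ B + ((K : ℝ) + 1) * (((K : ℝ) + 1) ^ K * B) := add_le_add h5 h3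
    _ = C1 K * η ^ (K + 1) := by
        rw [hB]
        unfold C1
        ring

/-- Differences of products. -/
theorem prod_diff {ι : Type} [DecidableEq ι] (s : Finset ι) (a b : ι → ℂ) (M e : ℝ)
    (hM : 1 ≤ M) (he : 0 ≤ e) (ha : ∀ i, ‖a i‖ ≤ M) (hb : ∀ i, ‖b i‖ ≤ M)
    (hab : ∀ i, ‖a i - b i‖ ≤ e) :
    ‖∏ i ∈ s, a i - ∏ i ∈ s, b i‖ ≤ (s.card : ℝ) * M ^ s.card * e := by
  induction s using Finset.induction_on with
  | empty => simp
  | insert j s hj ih =>
    rw [Finset.prod_insert hj, Finset.prod_insert hj, Finset.card_insert_of_notMem hj]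
    have h1 : a j * ∏ i ∈ s, a i - b j * ∏ i ∈ s, b i =
        a j * (∏ i ∈ s, a i - ∏ i ∈ s, b i) + (a j - b j) * ∏ i ∈ s, b i := by ring
    have h2 : ‖∏ i ∈ s, b i‖ ≤ M ^ s.card := by
      rw [norm_prod, ← Finset.prod_const]
      exact Finset.prod_le_prod (fun i _ => norm_nonneg _) fun i _ => hb i
    have hM0 : 0 ≤ M := by linarith
    have h3 : (0 : ℝ) ≤ M ^ s.card := by positivity
    rw [h1]
    refine (norm_add_le _ _).trans ?_
    rw [norm_mul, norm_mul]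
    have h4 : ‖a j‖ * ‖∏ i ∈ s, a i - ∏ i ∈ s, b i‖ ≤ M * ((s.card : ℝ) * M ^ s.card * e) :=
      mul_le_mul (ha j) ih (norm_nonneg _) hM0
    have h5 : ‖a j - b j‖ * ‖∏ i ∈ s, b i‖ ≤ e * M ^ s.card :=
      mul_le_mul (hab j) h2 (norm_nonneg _) he
    have h6 : e * M ^ s.card ≤ e * (M ^ s.card * M) := by
      apply mul_le_mul_of_nonneg_left _ he
      nlinarith
    push_cast
    calc _ ≤ M * ((s.card : ℝ) * M ^ s.card * e) + e * (M ^ s.card * M) :=
          add_le_add h4 (h5.trans h6)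
      _ = ((s.card : ℝ) + 1) * M ^ (s.card + 1) * e := by ring

end INTaux

open INTaux in
theorem t_INT : INT_Stmt := by
  intro ι _ _ K
  have hK : (0 : ℝ) ≤ (K : ℝ) := Nat.cast_nonneg _
  set L : ℝ := ((K : ℝ) + 1) ^ K with hL
  have hL1 : 1 ≤ L := one_le_pow₀ (by linarith)
  set M : ℝ := 1 + ((K : ℝ) + 1) * L with hM
  have hM1 : 1 ≤ M := by
    have : 0 ≤ ((K : ℝ) + 1) * L := by positivity
    linarith
  have hC1 : 0 ≤ C1 K := by
    unfold C1
    positivity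
  set N : ℕ := Fintype.card ι with hN
  refine ⟨L ^ N + (N : ℝ) * M ^ N * C1 K, fun t ν => ∏ i, lb K (t i) (ν i), ?_, ?_, ?_⟩
  · positivity
  · intro t ht ν
    rw [Finset.abs_prod]
    have h1 : ∏ i, |lb K (t i) (ν i)| ≤ ∏ _i : ι, L :=
      Finset.prod_le_prod (fun i _ => abs_nonneg _) fun i _ =>
        lb_bound K (t i) (ht i).1 (ht i).2 (ν i)
    rw [Finset.prod_const, Finset.card_univ] at h1
    have h2 : 0 ≤ (N : ℝ) * M ^ N * C1 K := by positivity
    linarith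
  · intro t ht lam η hη0 hη1 hl
    have h1 : Complex.exp (Complex.I * ((∑ i, lam i * t i : ℝ) : ℂ)) =
        ∏ i, Complex.exp (Complex.I * ((lam i * t i : ℝ) : ℂ)) := by
      rw [← Complex.exp_sum, ← Finset.mul_sum, Complex.ofReal_sum]
    have h2 : ∑ ν : ι → Fin (K + 1), ((∏ i, lb K (t i) (ν i) : ℝ) : ℂ) *
          Complex.exp (Complex.I * ((∑ i, lam i * ((ν i : ℕ) : ℝ) : ℝ) : ℂ)) =
        ∏ i, ∑ ν : Fin (K + 1), (lb K (t i) ν : ℂ) *
          Complex.exp (Complex.I * ((lam i * ((ν : ℕ) : ℝ) : ℝ) : ℂ)) := by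
      rw [Finset.prod_univ_sum, Fintype.piFinset_univ]
      apply Finset.sum_congr rfl
      intro ν _
      rw [Finset.prod_mul_distrib, ← Complex.exp_sum, ← Finset.mul_sum, Complex.ofReal_sum,
        Complex.ofReal_prod]
    rw [h1, h2]
    have h3 := prod_diff (univ : Finset ι)
      (fun i => Complex.exp (Complex.I * ((lam i * t i : ℝ) : ℂ)))
      (fun i => ∑ ν : Fin (K + 1), (lb K (t i) ν : ℂ) *
          Complex.exp (Complex.I * ((lam i * ((ν : ℕ) : ℝ) : ℝ) : ℂ))) M (C1 K * η ^ (K + 1))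
      hM1 (by positivity) ?_ ?_ ?_
    · rw [Finset.card_univ] at h3
      refine h3.trans ?_
      have h4 : 0 ≤ L ^ N * η ^ (K + 1) := by positivity
      calc _ = (N : ℝ) * M ^ N * C1 K * η ^ (K + 1) := by ring
        _ ≤ (L ^ N + (N : ℝ) * M ^ N * C1 K) * η ^ (K + 1) := by
            rw [add_mul]
            linarith
    · intro i
      rw [mul_comm Complex.I, Complex.norm_exp_ofReal_mul_I]
      exact hM1
    · intro i
      calc ‖∑ ν : Fin (K + 1), (lb K (t i) ν : ℂ) *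
          Complex.exp (Complex.I * ((lam i * ((ν : ℕ) : ℝ) : ℝ) : ℂ))‖
          ≤ ∑ _ν : Fin (K + 1), L := by
            apply norm_sum_le_of_le
            intro ν _
            rw [norm_mul, mul_comm Complex.I, Complex.norm_exp_ofReal_mul_I, mul_one,
              Complex.norm_real, Real.norm_eq_abs]
            exact lb_bound K (t i) (ht i).1 (ht i).2 ν
        _ = ((K : ℝ) + 1) * L := by
            rw [Finset.sum_const, Finset.card_univ, Fintype.card_fin, nsmul_eq_mul]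
            push_cast
            ring
        _ ≤ M := by
            rw [hM]
            linarith
    · intro i
      exact one K (t i) (ht i).1 (ht i).2 (lam i) η hη0 hη1 (hl i)

end Pool.Agent.UAB
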