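import Pool.Agent.UAB.St

/-!
# Uniform mixing on almost all Cayley graphs, module LEM

Vectors whose `m`-th powers satisfy a linear relation with nonzero coefficients, `m ≥ 3`.
-/

set_option autoImplicit false

namespace Pool.Agent.UAB

open Finset

namespace LEMaux

variable {K : Type*} [Field K]

/-- dual functionals -/
theorem exists_dual {E ι : Type*} [AddCommGroup E] [Module K E] {y : ι → E} {s : Set ι}
    (hs : LinearIndepOn K y s) {b : ι} (hb : b ∈ s) :
    ∃ φ : E →ₗ[K] K, φ (y b) = 1 ∧ ∀ b' ∈ s, b' ≠ b → φ (y b') = 0 := by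
  obtain ⟨f, hf, hk⟩ := Submodule.exists_le_ker_of_notMem (hs.notMem_span hb)
  refine ⟨(f (y b))⁻¹ • f, by simp [hf], fun b' hb' hne => ?_⟩
  have h1 : f (y b') = 0 := hk (Submodule.subset_span ⟨b', ⟨hb', hne⟩, rfl⟩)
  simp [h1]

theorem finrank_on {E ι : Type*} [AddCommGroup E] [Module K E] {y : ι → E} {B : Finset ι}
    (h : LinearIndepOn K y (B : Set ι)) :
    Module.finrank K (Submodule.span K (y '' (B : Set ι))) = B.card := by
  have h1 := finrank_span_eq_card (R := K) (b := fun b : (B : Set ι) => y b) h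
  rw [Set.image_eq_range, h1]
  simp

theorem finrank_le {E ι : Type*} [AddCommGroup E] [Module K E] (y : ι → E) (B : Finset ι) :
    Module.finrank K (Submodule.span K (y '' (B : Set ι))) ≤ B.card := by
  have h1 := finrank_range_le_card (R := K) (fun b : (B : Set ι) => y b)
  rw [Set.image_eq_range]
  refine le_trans h1 (le_of_eq ?_)
  simp

/-- flattening -/
theorem flat {R : Type*} [Fintype R] [DecidableEq R] [DecidableEq K] (β : R → K)
    (S1 S2 : Finset R) (u w : R → R → K)
    (hb1 : ∀ s ∈ S1, β s ≠ 0) (hb2 : ∀ s ∈ S2, β s ≠ 0)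
    (hu1 : ∀ s ∈ S1, u s s ≠ 0) (hu2 : ∀ s ∈ S1, ∀ s' ∈ S1, s' ≠ s → u s s' = 0)
    (hw1 : ∀ s ∈ S2, w s s ≠ 0) (hw2 : ∀ s ∈ S2, ∀ s' ∈ S2, s' ≠ s → w s s' = 0)
    (h : ∀ s ∈ S1, ∀ s' ∈ S2, ∑ r, β r * u s r * w s' r = 0) :
    S1.card + S2.card ≤ (univ.filter fun r => β r ≠ 0).card := by
  set N := univ.filter fun r => β r ≠ 0 with hN
  have hmem : ∀ r, r ∈ N ↔ β r ≠ 0 := fun r => by simp [hN]
  let L : (N → K) →ₗ[K] (S2 → K) :=
    LinearMap.pi fun s => ∑ r : N, (β r * w s r) • LinearMap.proj r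
  have hL : ∀ x s, L x s = ∑ r : N, β r * w s r * x r := by
    intro x s
    simp [L, LinearMap.sum_apply]
  have hsurj : Function.Surjective L := by
    intro z
    refine ⟨fun r => if hr : (r : R) ∈ S2 then z ⟨r, hr⟩ / (β r * w r r) else 0, ?_⟩
    funext s
    rw [hL]
    rw [Finset.sum_eq_single (⟨(s : R), (hmem _).2 (hb2 _ s.2)⟩ : N)]
    · simp only [s.2, dite_true]
      have h1 := hb2 _ s.2
      have h2 := hw1 _ s.2
      field_simp
    · intro r _ hr
      by_cases hr2 : (r : R) ∈ S2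
      · have h3 : (r : R) ≠ s := by
          intro h4
          exact hr (Subtype.ext h4)
        rw [hw2 _ s.2 _ hr2 h3]
        ring
      · simp [hr2]
    · intro h4
      exact absurd (mem_univ _) h4
  have hker : S1.card ≤ Module.finrank K (LinearMap.ker L) := by
    have h0 : ∀ s : S1, (fun r : N => u s r) ∈ LinearMap.ker L := by
      intro s
      rw [LinearMap.mem_ker]
      funext s'
      rw [hL, Pi.zero_apply]
      have h1 := h _ s.2 _ s'.2
      rw [← Finset.sum_subset (Finset.subset_univ N) (fun r _ hr => by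
        have h2 : β r = 0 := by
          by_contra h3
          exact hr ((hmem r).2 h3)
        rw [h2]
        ring)] at h1
      rw [← h1, ← Finset.sum_coe_sort N]
      refine sum_congr rfl fun r _ => ?_
      ring
    have hli : LinearIndependent K
        (fun s : S1 => (⟨fun r : N => u s r, h0 s⟩ : LinearMap.ker L)) := by
      rw [Fintype.linearIndependent_iff]
      intro g hg i
      have h1 := congrArg (fun x : LinearMap.ker L =>
        (x : N → K) ⟨(i : R), (hmem _).2 (hb1 _ i.2)⟩) hg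
      simp only [Submodule.coe_sum, Submodule.coe_smul, Finset.sum_apply, Pi.smul_apply,
        smul_eq_mul, Submodule.coe_zero, Pi.zero_apply] at h1
      rw [Finset.sum_eq_single i] at h1
      · rcases mul_eq_zero.1 h1 with h2 | h2
        · exact h2
        · exact absurd h2 (hu1 _ i.2)
      · intro j _ hj
        rw [hu2 _ j.2 _ i.2 (fun h5 => hj (Subtype.ext h5).symm), mul_zero]
      · intro h5
        exact absurd (mem_univ _) h5
    have h6 := hli.fintype_card_le_finrank
    rwa [Fintype.card_coe] at h6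
  have hrn := LinearMap.finrank_range_add_finrank_ker L
  rw [LinearMap.range_eq_top.2 hsurj, finrank_top, Module.finrank_fintype_fun_eq_card,
    Module.finrank_fintype_fun_eq_card, Fintype.card_coe, Fintype.card_coe] at hrn
  omega

/-- the relation with three functionals -/
theorem rel3 {E T : Type*} [AddCommGroup E] [Module K E] [Fintype T] (y : T → E) (α : T → K)
    (n : ℕ) (h : ∀ φ : Fin (n + 2) → (E →ₗ[K] K), ∑ t, α t * ∏ j, φ j (y t) = 0)
    (φ ψ χ : E →ₗ[K] K) : ∑ t, α t * φ (y t) * (ψ (y t) ^ n * χ (y t)) = 0 := by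
  have h1 := h (Fin.cons φ (Fin.cons χ fun _ => ψ))
  rw [← h1]
  refine sum_congr rfl fun t _ => ?_
  rw [Fin.prod_univ_succ, Fin.prod_univ_succ]
  simp only [Fin.cons_zero, Fin.cons_succ, prod_const, card_univ, Fintype.card_fin]
  ring

/-- a functional that vanishes on `W` and on one vector -/
theorem exists_off {E : Type*} [AddCommGroup E] [Module K E] (W : Submodule K E) (x e : E)
    (h : ∀ a : K, W.mkQ x ≠ a • W.mkQ e) :
    ∃ f : E →ₗ[K] K, f x ≠ 0 ∧ f e = 0 ∧ ∀ w ∈ W, f w = 0 := by
  have h1 : x ∉ Submodule.span K {e} ⊔ W := by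
    intro hx
    obtain ⟨y, hy, z, hz, hyz⟩ := Submodule.mem_sup.1 hx
    obtain ⟨a, rfl⟩ := Submodule.mem_span_singleton.1 hy
    apply h a
    rw [← hyz, map_add, map_smul]
    have h2 : W.mkQ z = 0 := by
      rw [Submodule.mkQ_apply, Submodule.Quotient.mk_eq_zero]
      exact hz
    rw [h2, add_zero]
  obtain ⟨f, hf, hk⟩ := Submodule.exists_le_ker_of_notMem h1
  exact ⟨f, hf, hk (Submodule.mem_sup_left (Submodule.mem_span_singleton_self e)),
    fun w hw => hk (Submodule.mem_sup_right hw)⟩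

/-- the vectors of a maximal separated set -/
theorem part1 {E T : Type*} [AddCommGroup E] [Module K E] [Fintype T]
    [DecidableEq T] [DecidableEq K]
    (y : T → E) (α : T → K) (n : ℕ) (hn : 1 ≤ n) (hα : ∀ t, α t ≠ 0)
    (h3 : ∀ φ ψ χ : E →ₗ[K] K, ∑ t, α t * φ (y t) * (ψ (y t) ^ n * χ (y t)) = 0)
    (B : Finset T) (hB : LinearIndepOn K y (B : Set T)) :
    ∃ S : Finset T, B ⊆ S ∧ B.card + S.card ≤ Fintype.card T ∧
      ∀ x, x ∉ S → ∀ v v' : E →ₗ[K] K, (∀ s ∈ S, v (y s) = 0 ∨ v' (y s) = 0) →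
        v (y x) = 0 ∨ v' (y x) = 0 := by
  have hdual : ∀ b, ∃ φ : E →ₗ[K] K, b ∈ B → φ (y b) = 1 ∧ ∀ b' ∈ B, b' ≠ b → φ (y b') = 0 := by
    intro b
    by_cases hb : b ∈ B
    · obtain ⟨φ, h1, h2⟩ := exists_dual hB (b := b) hb
      exact ⟨φ, fun _ => ⟨h1, fun b' hb' => h2 b' hb'⟩⟩
    · exact ⟨0, fun h => absurd h hb⟩
  choose v hv using hdual
  let P : Finset T → Prop := fun S => B ⊆ S ∧ ∀ s, ∃ u : T → K, s ∈ S →
    (∀ φ : E →ₗ[K] K, ∑ t, α t * φ (y t) * u t = 0) ∧ u s ≠ 0 ∧ ∀ s' ∈ S, s' ≠ s → u s' = 0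
  have hPB : P B := by
    refine ⟨Subset.rfl, fun s => ⟨fun t => v s (y t) ^ n * v s (y t), fun hs => ⟨fun φ => ?_, ?_,
      fun s' hs' hne => ?_⟩⟩⟩
    · exact h3 φ (v s) (v s)
    · simp only [(hv s hs).1, one_pow, mul_one]
      exact one_ne_zero
    · simp only [(hv s hs).2 s' hs' hne, mul_zero]
  obtain ⟨S, -, hS⟩ := Finite.exists_le_maximal hPB
  have hPS : P S := hS.prop
  obtain ⟨hBS, hsep⟩ := hPS
  choose u hu using hsep
  refine ⟨S, hBS, ?_, ?_⟩
  · have h1 := flat α B S (fun s t => v s (y t)) u (fun s _ => hα s) (fun s _ => hα s)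
      (fun s hs => by
        simp only [(hv s hs).1]
        exact one_ne_zero)
      (fun s hs s' hs' hne => (hv s hs).2 s' hs' hne)
      (fun s hs => (hu s hs).2.1) (fun s hs => (hu s hs).2.2)
      (fun s hs s' hs' => (hu s' hs').1 (v s))
    exact h1.trans (card_le_univ _)
  · intro x hx f f' hff
    by_contra hcon
    push Not at hcon
    obtain ⟨hf, hf'⟩ := hcon
    set z : T → K := fun t => f (y t) ^ n * f' (y t) with hz
    have hzx : z x ≠ 0 := mul_ne_zero (pow_ne_zero _ hf) hf'
    have hzS : ∀ s ∈ S, z s = 0 := by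
      intro s hs
      rcases hff s hs with h | h
      · simp only [hz, h]
        rw [zero_pow (by omega), zero_mul]
      · simp only [hz, h, mul_zero]
    have hPI : P (insert x S) := by
      refine ⟨hBS.trans (subset_insert _ _), fun s => ?_⟩
      by_cases hsx : s = x
      · subst hsx
        refine ⟨z, fun _ => ⟨fun φ => h3 φ f f', hzx, fun s' hs' hne => ?_⟩⟩
        exact hzS s' ((mem_insert.1 hs').resolve_left hne)
      · refine ⟨fun t => u s t - u s x / z x * z t, fun hs => ?_⟩
        have hsS : s ∈ S := (mem_insert.1 hs).resolve_left hsx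
        obtain ⟨h1, h2, h4⟩ := hu s hsS
        refine ⟨fun φ => ?_, ?_, fun s' hs' hne => ?_⟩
        · have h5 := h1 φ
          have h6 := h3 φ f f'
          have h7 : ∑ t, α t * φ (y t) * (u s t - u s x / z x * z t) =
              ∑ t, α t * φ (y t) * u s t -
                u s x / z x * ∑ t, α t * φ (y t) * (f (y t) ^ n * f' (y t)) := by
            rw [mul_sum, ← sum_sub_distrib]
            refine sum_congr rfl fun t _ => ?_
            simp only [hz]
            ring
          rw [h7, h5, h6]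
          ring
        · simp only [hzS s hsS, mul_zero, sub_zero]
          exact h2
        · rcases mem_insert.1 hs' with rfl | hs''
          · field_simp
            ring
          · simp only [hzS s' hs'', mul_zero, sub_zero]
            exact h4 s' hs'' hne
    have hle := hS.le_of_ge hPI (subset_insert x S)
    exact hx (hle (mem_insert_self x S))

/-- the main estimate -/
theorem core {E T : Type*} [AddCommGroup E] [Module K E] [FiniteDimensional K E] [Fintype T]
    (y : T → E) (α : T → K) (n : ℕ) (hn : 1 ≤ n) (hα : ∀ t, α t ≠ 0) (hY : ∀ t, y t ≠ 0)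
    (hd : ∀ s t, s ≠ t → ∀ c : K, y s ≠ c • y t)
    (h3 : ∀ φ ψ χ : E →ₗ[K] K, ∑ t, α t * φ (y t) * (ψ (y t) ^ n * χ (y t)) = 0) :
    9 * Module.finrank K (Submodule.span K (Set.range y)) ≤ 4 * Fintype.card T := by
  classical
  obtain ⟨B0, -, -, hBspan, hBind⟩ := exists_linearIndepOn_extension
    (linearIndepOn_empty K y) (Set.empty_subset (Set.univ : Set T))
  obtain ⟨B, rfl⟩ := B0.toFinite.exists_finset_coe
  obtain ⟨S, hBS, hcard, hadm⟩ := part1 y α n hn hα h3 B hBind
  have hspan : Submodule.span K (Set.range y) = Submodule.span K (y '' (B : Set T)) := by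
    apply le_antisymm
    · rw [Submodule.span_le, ← Set.image_univ]
      exact hBspan
    · exact Submodule.span_mono (Set.image_subset_range _ _)
  rw [hspan, finrank_on hBind]
  have hdual : ∀ b, ∃ φ : E →ₗ[K] K, b ∈ B → φ (y b) = 1 ∧ ∀ b' ∈ B, b' ≠ b → φ (y b') = 0 := by
    intro b
    by_cases hb : b ∈ B
    · obtain ⟨φ, h1, h2⟩ := exists_dual hBind (b := b) hb
      exact ⟨φ, fun _ => ⟨h1, fun b' hb' => h2 b' hb'⟩⟩
    · exact ⟨0, fun h => absurd h hb⟩
  choose v hv using hdual
  set W : Submodule K E := Submodule.span K (y '' ((S \ B : Finset T) : Set T)) with hW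
  have hWcard : Module.finrank K W ≤ (S \ B).card := finrank_le y (S \ B)
  set z : T → E ⧸ W := fun t => W.mkQ (y t) with hz
  have hzS : ∀ t ∈ S, t ∉ B → z t = 0 := by
    intro t ht htB
    simp only [hz, Submodule.mkQ_apply]
    rw [Submodule.Quotient.mk_eq_zero]
    exact Submodule.subset_span ⟨t, by simp [ht, htB], rfl⟩
  -- the elements outside of `S`
  have hone : ∀ x, x ∉ S → ∀ j ∈ B, v j (y x) ≠ 0 → ∃ a : K, z x = a • z j := by
    intro x hx j hj hne
    by_contra hcon
    push Not at hcon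
    obtain ⟨f, hf1, hf2, hf3⟩ := exists_off W (y x) (y j) hcon
    rcases hadm x hx (v j) f (fun s hs => by
      by_cases hsB : s ∈ B
      · by_cases hsj : s = j
        · right
          rw [hsj]
          exact hf2
        · left
          exact (hv j hj).2 s hsB hsj
      · right
        exact hf3 _ (Submodule.subset_span ⟨s, by simp [hs, hsB], rfl⟩)) with h | h
    · exact hne h
    · exact hf1 h
  have htwo : ∀ x, x ∉ S → ∃ j1 ∈ B, ∃ j2 ∈ B, j1 ≠ j2 ∧ (∃ a : K, z x = a • z j1) ∧
      ∃ a : K, z x = a • z j2 := by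
    intro x hx
    have h1 : y x ∈ Submodule.span K (y '' (B : Set T)) :=
      hBspan ⟨x, Set.mem_univ _, rfl⟩
    rw [Submodule.mem_span_image_finset_iff_exists_fun'] at h1
    obtain ⟨c, hc⟩ := h1
    have hvc : ∀ j ∈ B, v j (y x) = c j := by
      intro j hj
      rw [← hc, map_sum, Finset.sum_eq_single j]
      · rw [map_smul, (hv j hj).1, smul_eq_mul, mul_one]
      · intro b hb hbj
        rw [map_smul, (hv j hj).2 b hb hbj, smul_zero]
      · intro h
        exact absurd hj h
    obtain ⟨j1, hj1, hcj1⟩ : ∃ j ∈ B, c j ≠ 0 := by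
      by_contra hcon
      push Not at hcon
      apply hY x
      rw [← hc]
      exact Finset.sum_eq_zero fun j hj => by rw [hcon j hj, zero_smul]
    obtain ⟨j2, hj2, hj12, hcj2⟩ : ∃ j ∈ B, j ≠ j1 ∧ c j ≠ 0 := by
      by_contra hcon
      push Not at hcon
      have h4 : x ≠ j1 := by
        rintro rfl
        exact hx (hBS hj1)
      apply hd x j1 h4 (c j1)
      rw [← hc, Finset.sum_eq_single j1]
      · intro b hb hb1
        rw [hcon b hb hb1, zero_smul]
      · intro h
        exact absurd hj1 h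
    exact ⟨j1, hj1, j2, hj2, hj12.symm, hone x hx j1 hj1 (by rw [hvc j1 hj1]; exact hcj1),
      hone x hx j2 hj2 (by rw [hvc j2 hj2]; exact hcj2)⟩
  -- a maximal independent set modulo `W`
  obtain ⟨F0, hF0B, -, hFspan, hFind⟩ := exists_linearIndepOn_extension
    (linearIndepOn_empty K z) (Set.empty_subset (B : Set T))
  obtain ⟨F, rfl⟩ := F0.toFinite.exists_finset_coe
  have hFB : F ⊆ B := by exact_mod_cast hF0B
  have hFcard : B.card ≤ F.card + (S \ B).card := by
    have h1 : Submodule.span K (y '' (B : Set T)) ≤ W ⊔ Submodule.span K (y '' (F : Set T)) := by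
      rw [← Submodule.comap_map_mkQ, Submodule.span_le]
      rintro _ ⟨b, hb, rfl⟩
      have h2 := hFspan ⟨b, hb, rfl⟩
      rw [SetLike.mem_coe, Submodule.mem_comap, Submodule.map_span, ← Set.image_comp]
      exact h2
    have h2 := Submodule.finrank_mono h1
    have h4 := Submodule.finrank_add_le_finrank_add_finrank W
      (Submodule.span K (y '' (F : Set T)))
    have h5 := finrank_le (K := K) y F
    rw [finrank_on hBind] at h2
    omega
  have hFne : ∀ b ∈ F, z b ≠ 0 := fun b hb => hFind.ne_zero hb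
  have hFindep : ∀ b ∈ F, ∀ b' ∈ F, b ≠ b' → ∀ a : K, z b ≠ a • z b' := by
    intro b hb b' hb' hne a h
    obtain ⟨φ, h1, h2⟩ := exists_dual hFind (b := b) hb
    rw [h, map_smul, h2 b' hb' hne.symm, smul_zero] at h1
    exact zero_ne_one h1
  set J : Finset T := F.filter fun b => ∀ b' ∈ B, b' ≠ b → z b' ≠ 0 → ∀ a : K, z b ≠ a • z b'
    with hJ
  have hJF : J ⊆ F := filter_subset _ _
  have hJcard : (F \ J).card ≤ (B \ F).card := by
    have hex : ∀ b, ∃ b', b ∈ F \ J → b' ∈ B ∧ b' ≠ b ∧ z b' ≠ 0 ∧ ∃ a : K, z b = a • z b' := by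
      intro b
      by_cases hb : b ∈ F \ J
      · rw [mem_sdiff, hJ, mem_filter] at hb
        obtain ⟨hb1, hb2⟩ := hb
        have hb3 : ¬ ∀ b' ∈ B, b' ≠ b → z b' ≠ 0 → ∀ a : K, z b ≠ a • z b' :=
          fun h => hb2 ⟨hb1, h⟩
        push Not at hb3
        obtain ⟨b', h1, h2, h4, a, h5⟩ := hb3
        exact ⟨b', fun _ => ⟨h1, h2, h4, a, h5⟩⟩
      · exact ⟨b, fun h => absurd h hb⟩
    choose g hg using hex
    refine Finset.card_le_card_of_injOn g ?_ ?_
    · intro b hb
      have hb' : b ∈ F \ J := by exact_mod_cast hb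
      obtain ⟨h1, h2, h4, a, h5⟩ := hg b hb'
      have h6 : g b ∉ F := by
        intro h7
        exact hFindep b (mem_sdiff.1 hb').1 (g b) h7 h2.symm a h5
      exact_mod_cast mem_sdiff.2 ⟨h1, h6⟩
    · intro b hb b2 hb2 he
      by_contra hne
      have hb' : b ∈ F \ J := by exact_mod_cast hb
      have hb2' : b2 ∈ F \ J := by exact_mod_cast hb2
      obtain ⟨h1, h2, h4, a, h5⟩ := hg b hb'
      obtain ⟨k1, k2, k4, a2, k5⟩ := hg b2 hb2'
      have ha2 : a2 ≠ 0 := by
        rintro rfl
        rw [zero_smul] at k5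
        exact hFne b2 (mem_sdiff.1 hb2').1 k5
      apply hFindep b (mem_sdiff.1 hb').1 b2 (mem_sdiff.1 hb2').1 hne (a * a2⁻¹)
      rw [h5, k5, ← he, smul_smul, mul_assoc, inv_mul_cancel₀ ha2, mul_one]
  -- grouping
  have hgrp : ∀ t, ∃ (b : T) (c : K), z t = c • z b ∧ (c ≠ 0 → b ∈ B) ∧
      (c ≠ 0 → b ∈ J → b = t) ∧ (t ∈ J → b = t ∧ c = 1) := by
    intro t
    by_cases hzt : z t = 0
    · refine ⟨t, 0, ?_, fun h => absurd rfl h, fun h => absurd rfl h, fun h => ?_⟩
      · rw [hzt, zero_smul]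
      · exact absurd hzt (hFne t (hJF h))
    · by_cases htB : t ∈ B
      · exact ⟨t, 1, by rw [one_smul], fun _ => htB, fun _ _ => rfl, fun _ => ⟨rfl, rfl⟩⟩
      · have htS : t ∉ S := fun h => hzt (hzS t h htB)
        obtain ⟨j1, hj1, j2, hj2, hj12, ⟨a1, ha1⟩, a2, ha2⟩ := htwo t htS
        have h1 : a1 ≠ 0 := by
          rintro rfl
          rw [zero_smul] at ha1
          exact hzt ha1
        have h2 : a2 ≠ 0 := by
          rintro rfl
          rw [zero_smul] at ha2
          exact hzt ha2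
        have h4 : z j2 ≠ 0 := by
          intro h
          rw [h, smul_zero] at ha2
          exact hzt ha2
        refine ⟨j1, a1, ha1, fun _ => hj1, fun _ h5 => ?_, fun h5 => ?_⟩
        · exfalso
          rw [hJ, mem_filter] at h5
          apply h5.2 j2 hj2 hj12.symm h4 (a1⁻¹ * a2)
          rw [mul_smul, ← ha2, ha1, smul_smul, inv_mul_cancel₀ h1, one_smul]
        · exact absurd (hFB (hJF h5)) htB
  choose ρ c hzc hcB hcJ hJt using hgrp
  set β : T → K := fun b => ∑ t ∈ univ.filter (fun t => ρ t = b), α t * c t ^ (n + 2) with hβ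
  have hβB : ∀ b, β b ≠ 0 → b ∈ B := by
    intro b hb
    by_contra hbB
    apply hb
    rw [hβ]
    refine sum_eq_zero fun t ht => ?_
    have h1 : ρ t = b := (mem_filter.1 ht).2
    have h2 : c t = 0 := by
      by_contra h4
      apply hbB
      rw [← h1]
      exact hcB t h4
    rw [h2, zero_pow (by omega), mul_zero]
  have hβJ : ∀ j ∈ J, β j ≠ 0 := by
    intro j hj
    have h1 : β j = α j := by
      rw [hβ]
      simp only
      rw [Finset.sum_eq_single j]
      · rw [(hJt j hj).2, one_pow, mul_one]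
      · intro t ht htj
        have h2 : ρ t = j := (mem_filter.1 ht).2
        have h4 : c t = 0 := by
          by_contra h5
          apply htj
          have h6 := hcJ t h5 (by rw [h2]; exact hj)
          rw [← h6, h2]
        rw [h4, zero_pow (by omega), mul_zero]
      · intro h
        have h9 : j ∈ univ.filter (fun t => ρ t = j) := by
          rw [mem_filter]
          exact ⟨mem_univ _, (hJt j hj).1⟩
        exact absurd h9 h
    rw [h1]
    exact hα j
  have hrel : ∀ φ ψ : (E ⧸ W) →ₗ[K] K,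
      ∑ b, β b * φ (z b) * (ψ (z b) ^ n * ψ (z b)) = 0 := by
    intro φ ψ
    have h1 := h3 (φ.comp W.mkQ) (ψ.comp W.mkQ) (ψ.comp W.mkQ)
    have h2 : ∀ b, β b * φ (z b) * (ψ (z b) ^ n * ψ (z b)) =
        ∑ t ∈ univ.filter (fun t => ρ t = b), α t * φ (z t) * (ψ (z t) ^ n * ψ (z t)) := by
      intro b
      rw [hβ]
      simp only
      rw [sum_mul, sum_mul]
      refine sum_congr rfl fun t ht => ?_
      have h4 : ρ t = b := (mem_filter.1 ht).2
      rw [hzc t, h4, map_smul, map_smul, smul_eq_mul, smul_eq_mul, mul_pow]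
      ring
    rw [sum_congr rfl fun b _ => h2 b]
    have h5 := Finset.sum_fiberwise univ ρ
      (fun t => α t * φ (z t) * (ψ (z t) ^ n * ψ (z t)))
    exact h5.trans h1
  have hdual2 : ∀ b, ∃ φ : (E ⧸ W) →ₗ[K] K, b ∈ F →
      φ (z b) = 1 ∧ ∀ b' ∈ F, b' ≠ b → φ (z b') = 0 := by
    intro b
    by_cases hb : b ∈ F
    · obtain ⟨φ, h1, h2⟩ := exists_dual hFind (b := b) hb
      exact ⟨φ, fun _ => ⟨h1, fun b' hb' => h2 b' hb'⟩⟩
    · exact ⟨0, fun h => absurd h hb⟩
  choose f hf using hdual2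
  have hfin := flat β J J (fun s t => f s (z t)) (fun s t => f s (z t) ^ n * f s (z t))
    hβJ hβJ
    (fun s hs => by
      simp only [(hf s (hJF hs)).1]
      exact one_ne_zero)
    (fun s hs s' hs' hne => (hf s (hJF hs)).2 s' (hJF hs') hne)
    (fun s hs => by
      simp only [(hf s (hJF hs)).1, one_pow, mul_one]
      exact one_ne_zero)
    (fun s hs s' hs' hne => by
      simp only [(hf s (hJF hs)).2 s' (hJF hs') hne, mul_zero])
    (fun s _ s' _ => hrel (f s) (f s'))
  have hβcard : (univ.filter fun r => β r ≠ 0).card ≤ B.card :=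
    card_le_card fun b hb => hβB b (mem_filter.1 hb).2
  have e1 := card_sdiff_add_card_eq_card hBS
  have e2 := card_sdiff_add_card_eq_card hFB
  have e3 := card_sdiff_add_card_eq_card hJF
  omega

end LEMaux

/-- Vectors whose `m`-th powers satisfy a linear relation with nonzero coefficients. -/
theorem t_LEM : LEM_Stmt := by
  intro K _ d m T _ Y α hm hα hY hd hrel
  obtain ⟨n, rfl⟩ : ∃ n, m = n + 2 := ⟨m - 2, by omega⟩
  have h1 : ∀ φ : Fin (n + 2) → ((Fin d → K) →ₗ[K] K), ∑ t, α t * ∏ j, φ j (Y t) = 0 := by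
    intro φ
    have h2 := hrel (fun j i => φ j (Pi.single i 1))
    rw [← h2]
    refine sum_congr rfl fun t _ => ?_
    congr 1
    refine prod_congr rfl fun j _ => ?_
    rw [LinearMap.pi_apply_eq_sum_univ (φ j) (Y t)]
    refine sum_congr rfl fun i _ => ?_
    rw [smul_eq_mul]
    congr 2
    funext k
    simp [Pi.single_apply, eq_comm]
  have h2 := LEMaux.core Y α n (by omega) hα hY hd (LEMaux.rel3 Y α n h1)
  omega

end Pool.Agent.UAB
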