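import Pool.Agent.UAB.St

/-!
# Module MOM: high moments of `S4` in the bulk
-/

set_option autoImplicit false

namespace Pool.Agent.UAB

open Finset
open Pool.Agent.UAA (G ch nn)

namespace MOMaux

variable {p d : ℕ}

/-- Alternating signs. -/
def eta (k : ℕ) (i : Fin (2 * k)) : ℤ := if Even (i : ℕ) then 1 else -1

lemma eta_eq (k : ℕ) (i : Fin (2 * k)) : eta k i = 1 ∨ eta k i = -1 := by
  unfold eta
  split_ifs
  · exact Or.inl rfl
  · exact Or.inr rfl

lemma prod_alt (a b : ℂ) (k : ℕ) :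
    ∏ i : Fin (2 * k), (if Even (i : ℕ) then a else b) = (a * b) ^ k := by
  rw [← Finset.prod_range (fun i => if Even i then a else b)]
  induction k with
  | zero => simp
  | succ k ih =>
    have h1 : 2 * (k + 1) = 2 * k + 1 + 1 := by ring
    have h2 : Even (2 * k) := even_two_mul k
    have h3 : ¬ Even (2 * k + 1) := by simp
    rw [h1, Finset.prod_range_succ, Finset.prod_range_succ, ih, if_pos h2, if_neg h3, pow_succ]
    ring

lemma conj_eq_inv {z : ℂ} (hz : ‖z‖ = 1) : (starRingEnd ℂ) z = z⁻¹ := by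
  rw [Complex.inv_def, Complex.normSq_eq_norm_sq, hz]
  simp

lemma norm_q4 {w : G p d → ℂ} (hw : ∀ x, ‖w x‖ = 1) (t : G p d × G p d × G p d) :
    ‖q4 w t‖ = 1 := by
  unfold q4
  simp [hw]

/-- The power of the norm of a sum of unimodular numbers. -/
lemma norm_pow_eq {T : Type} (S : Finset T) (q : T → ℂ) (hq : ∀ t, ‖q t‖ = 1) (k : ℕ) :
    ((‖∑ t ∈ S, q t‖ ^ (2 * k) : ℝ) : ℂ) =
      ∑ Q ∈ Fintype.piFinset (fun _ : Fin (2 * k) => S), ∏ i, q (Q i) ^ eta k i := by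
  rw [← Finset.prod_univ_sum (fun _ : Fin (2 * k) => S) (fun i t => q t ^ eta k i)]
  have h1 : ∀ i : Fin (2 * k), ∑ t ∈ S, q t ^ eta k i =
      if Even (i : ℕ) then ∑ t ∈ S, q t else (starRingEnd ℂ) (∑ t ∈ S, q t) := by
    intro i
    unfold eta
    by_cases hi : Even (i : ℕ)
    · simp [hi]
    · rw [if_neg hi, if_neg hi, map_sum]
      refine Finset.sum_congr rfl fun t _ => ?_
      rw [conj_eq_inv (hq t), zpow_neg, zpow_one]
  rw [Finset.prod_congr rfl fun i _ => h1 i, prod_alt, Complex.mul_conj,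
    Complex.normSq_eq_norm_sq]
  push_cast
  rw [← pow_mul]

/-- The product over a family is a product over `A`. -/
lemma prod_fam {k : ℕ} {f : ZMod p → ℂ} (hf : EU f) (A : Finset (G p d))
    (Q : Fin (2 * k) → G p d × G p d × G p d) :
    ∏ i, q4 (wt f A) (Q i) ^ eta k i = ∏ h ∈ A, FF f (X Q) (ee (eta k)) h := by
  unfold FF
  rw [Finset.prod_comm, Fintype.prod_prod_type]
  refine Finset.prod_congr rfl fun i _ => ?_
  rw [q4_eq _ (norm_wt hf A), ← Finset.prod_zpow]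
  refine Finset.prod_congr rfl fun j _ => ?_
  rw [← zpow_mul]
  unfold wt ee X
  rw [← Finset.prod_zpow]
  refine Finset.prod_congr rfl fun h _ => ?_
  rw [mul_comm]

lemma norm_FF {ι : Type} [Fintype ι] {f : ZMod p → ℂ} (hf : EU f) (Y : ι → G p d) (ε : ι → ℤ)
    (h : G p d) : ‖FF f Y ε h‖ = 1 := by
  unfold FF
  rw [norm_prod]
  exact Finset.prod_eq_one fun s _ => by rw [norm_zpow, hf.1, one_zpow]

lemma dt_neg (x h : G p d) : dt x (-h) = - dt x h := by
  unfold dt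
  simp

lemma FF_neg {ι : Type} [Fintype ι] {f : ZMod p → ℂ} (hf : EU f) (Y : ι → G p d) (ε : ι → ℤ)
    (h : G p d) : FF f Y ε (-h) = FF f Y ε h := by
  unfold FF
  refine Finset.prod_congr rfl fun s _ => ?_
  rw [dt_neg, hf.2]

lemma norm_one_add_le_two {z : ℂ} (hz : ‖z‖ = 1) : ‖1 + z‖ ≤ 2 := by
  have h := norm_add_le (1 : ℂ) z
  rw [norm_one, hz] at h
  linarith

lemma norm_one_add {z : ℂ} (hz : ‖z‖ = 1) : ‖1 + z‖ ≤ 2 * Real.exp (-(‖z - 1‖ ^ 2 / 8)) := by
  have h1 : ‖1 + z‖ ^ 2 + ‖z - 1‖ ^ 2 = 4 := by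
    have h := Complex.normSq_eq_norm_sq z
    rw [hz, Complex.normSq_apply] at h
    rw [← Complex.normSq_eq_norm_sq, ← Complex.normSq_eq_norm_sq, Complex.normSq_apply,
      Complex.normSq_apply]
    simp only [Complex.add_re, Complex.add_im, Complex.sub_re, Complex.sub_im, Complex.one_re,
      Complex.one_im]
    nlinarith
  refine le_of_sq_le_sq ?_ (by positivity)
  have h2 : (2 * Real.exp (-(‖z - 1‖ ^ 2 / 8))) ^ 2 = 4 * Real.exp (-(‖z - 1‖ ^ 2 / 4)) := by
    rw [mul_pow, ← Real.exp_nat_mul]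
    congr 1
    · norm_num
    · congr 1
      push_cast
      ring
  rw [h2]
  have h3 := Real.add_one_le_exp (-(‖z - 1‖ ^ 2 / 4))
  linarith

/-- The number of the elements of `H` with the same value of `FF`. -/
lemma card_same [NeZero p] (hp : p.Prime) (hp2 : p ≠ 2) (hU : UDF_Stmt) (hH : HLF_Stmt)
    {ι : Type} [Fintype ι] {f : ZMod p → ℂ} (hf : EU f) (Y : ι → G p d) (ε : ι → ℤ)
    (H : Finset (G p d)) (hh : Half H) (h0 : G p d) :
    nn p d / (p : ℝ) ^ Fintype.card ι ≤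
      2 * ((H.filter fun h => FF f Y ε h = FF f Y ε h0).card : ℝ) + 1 := by
  classical
  have hp0 : (0 : ℝ) < (p : ℝ) := by exact_mod_cast hp.pos
  have h1 := (hU p d hp).2.2 ι Y h0
  have h2 : (Set.ncard {c : G p d | ∀ s, dt (Y s) c = dt (Y s) h0} : ℝ) ≤
      ((univ.filter fun c => FF f Y ε c = FF f Y ε h0).card : ℝ) := by
    have h3 : Set.ncard {c : G p d | ∀ s, dt (Y s) c = dt (Y s) h0} ≤
        Set.ncard ((univ.filter fun c => FF f Y ε c = FF f Y ε h0 : Finset (G p d)) :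
          Set (G p d)) := by
      refine Set.ncard_le_ncard ?_ (Finset.finite_toSet _)
      intro c hc
      rw [Finset.mem_coe, Finset.mem_filter]
      refine ⟨Finset.mem_univ _, ?_⟩
      unfold FF
      refine Finset.prod_congr rfl fun s _ => ?_
      rw [hc s]
    rw [Set.ncard_coe_finset] at h3
    exact_mod_cast h3
  have h4 := ((hH p d hp hp2).2 H hh).2
    (fun c => if FF f Y ε c = FF f Y ε h0 then (1 : ℂ) else 0) (fun c => by rw [FF_neg hf])
  rw [← Finset.sum_filter, ← Finset.sum_filter] at h4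
  simp only [Finset.sum_const, nsmul_eq_mul, mul_one] at h4
  have h5 : ((univ.filter fun c => FF f Y ε c = FF f Y ε h0).card : ℝ) ≤
      2 * ((H.filter fun h => FF f Y ε h = FF f Y ε h0).card : ℝ) + 1 := by
    have h6 := congrArg Complex.re h4
    by_cases h7 : FF f Y ε 0 = FF f Y ε h0
    · rw [if_pos h7] at h6
      simp only [Complex.add_re, Complex.mul_re, Complex.natCast_re, Complex.natCast_im,
        Complex.one_re, Complex.re_ofNat, Complex.im_ofNat, zero_mul, mul_zero, sub_zero] at h6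
      linarith
    · rw [if_neg h7] at h6
      simp only [Complex.add_re, Complex.mul_re, Complex.natCast_re, Complex.natCast_im,
        Complex.zero_re, Complex.re_ofNat, Complex.im_ofNat, zero_mul, mul_zero, sub_zero,
        add_zero] at h6
      linarith
  rw [div_le_iff₀ (by positivity)]
  calc nn p d ≤ _ := h1
    _ ≤ (p : ℝ) ^ Fintype.card ι *
        (2 * ((H.filter fun h => FF f Y ε h = FF f Y ε h0).card : ℝ) + 1) :=
        mul_le_mul_of_nonneg_left (h2.trans h5) (by positivity)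
    _ = _ := mul_comm _ _

/-- A family of large rank. -/
lemma prod_large [NeZero p] (hp : p.Prime) (hp2 : p ≠ 2) (hU : UDF_Stmt) (hH : HLF_Stmt)
    {ι : Type} [Fintype ι] {f : ZMod p → ℂ} (hf : EU f) (Y : ι → G p d) (ε : ι → ℤ)
    (H : Finset (G p d)) (hh : Half H) (h0 : G p d) {x : ℝ} (hx0 : 0 ≤ x)
    (hx : x ≤ ‖FF f Y ε h0 - 1‖) :
    ∏ h ∈ H, ‖1 + FF f Y ε h‖ ≤
      2 ^ H.card * (2 * Real.exp (-(x ^ 2 / (16 * (p : ℝ) ^ Fintype.card ι) * nn p d))) := by
  classical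
  set E := H.filter fun h => FF f Y ε h = FF f Y ε h0 with hE
  have h1 := card_same hp hp2 hU hH hf Y ε H hh h0
  rw [← hE] at h1
  have h2 : ∏ h ∈ H, ‖1 + FF f Y ε h‖ ≤
      ∏ h ∈ H, (2 * (if FF f Y ε h = FF f Y ε h0 then Real.exp (-(x ^ 2 / 8)) else 1)) := by
    refine Finset.prod_le_prod (fun h _ => norm_nonneg _) fun h _ => ?_
    by_cases h3 : FF f Y ε h = FF f Y ε h0
    · rw [if_pos h3]
      refine (norm_one_add (norm_FF hf Y ε h)).trans ?_
      rw [h3]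
      have h4 : x ^ 2 ≤ ‖FF f Y ε h0 - 1‖ ^ 2 := pow_le_pow_left₀ hx0 hx 2
      have h5 : Real.exp (-(‖FF f Y ε h0 - 1‖ ^ 2 / 8)) ≤ Real.exp (-(x ^ 2 / 8)) :=
        Real.exp_le_exp.2 (by linarith)
      linarith
    · rw [if_neg h3, mul_one]
      exact norm_one_add_le_two (norm_FF hf Y ε h)
  refine h2.trans ?_
  rw [Finset.prod_mul_distrib, Finset.prod_const, Finset.prod_ite, Finset.prod_const,
    Finset.prod_const_one, mul_one, ← hE, ← Real.exp_nat_mul]
  refine mul_le_mul_of_nonneg_left ?_ (by positivity)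
  have h6 : x ^ 2 ≤ 4 := by
    have h7 : ‖FF f Y ε h0 - 1‖ ≤ 2 := by
      have h8 := norm_sub_le (FF f Y ε h0) 1
      rw [norm_one, norm_FF hf] at h8
      linarith
    nlinarith
  have h9 : (2 : ℝ) = Real.exp (Real.log 2) := (Real.exp_log (by norm_num)).symm
  conv_rhs => rw [h9]
  rw [← Real.exp_add, Real.exp_le_exp]
  have h10 : (0.6931471803 : ℝ) < Real.log 2 := Real.log_two_gt_d9
  have h11 : x ^ 2 / (16 * (p : ℝ) ^ Fintype.card ι) * nn p d =
      x ^ 2 / 16 * (nn p d / (p : ℝ) ^ Fintype.card ι) := by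
    field_simp
  rw [h11]
  have h12 : x ^ 2 / 16 * (nn p d / (p : ℝ) ^ Fintype.card ι) ≤
      x ^ 2 / 16 * (2 * (E.card : ℝ) + 1) :=
    mul_le_mul_of_nonneg_left h1 (by positivity)
  nlinarith

end MOMaux

open MOMaux in
theorem t_MOM (h1 : CMP_Stmt) (h2 : CTD_Stmt) (h3 : UDF_Stmt) (h4 : HLF_Stmt) : MOM_Stmt := by
  classical
  intro p k _ hp hp2
  obtain ⟨c1, hc1, hcmp⟩ := h1 p (2 * k) hp hp2
  have hp0 : (0 : ℝ) < (p : ℝ) := by exact_mod_cast hp.pos
  have hp1 : (1 : ℝ) ≤ (p : ℝ) := by exact_mod_cast hp.one_le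
  set K1 : ℝ := 2 ^ (3 * (2 * k)) * (p : ℝ) ^ (9 * (2 * k) ^ 2) with hK1
  set M : ℕ := Fintype.card (Fin (2 * k) × Fin 4) with hM
  refine ⟨K1 + 2, c1 ^ 2 / (16 * (p : ℝ) ^ M), by positivity, by positivity, ?_⟩
  intro d H hH ρ hρ f hf hfar
  have hn1 : (1 : ℝ) ≤ nn p d := one_le_pow₀ hp1
  set Gd : Finset (G p d × G p d × G p d) := univ.filter Gq with hGd
  set P := Fintype.piFinset (fun _ : Fin (2 * k) => Gd) with hP
  set c : ℝ := c1 ^ 2 / (16 * (p : ℝ) ^ M) with hc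
  set X0 : ℝ := 2 * Real.exp (-(c * ρ ^ 2 * nn p d)) with hX0
  -- expansion
  have e1 : ((∑ A ∈ H.powerset, ‖S4 (wt f A)‖ ^ (2 * k) : ℝ) : ℂ) =
      ∑ Q ∈ P, ∏ h ∈ H, (1 + FF f (X Q) (ee (eta k)) h) := by
    push_cast
    have e2 : ∀ A ∈ H.powerset, ((‖S4 (wt f A)‖ : ℂ)) ^ (2 * k) =
        ∑ Q ∈ P, ∏ h ∈ A, FF f (X Q) (ee (eta k)) h := by
      intro A _
      have e3 := norm_pow_eq Gd (q4 (wt f A)) (norm_q4 (norm_wt hf A)) k
      push_cast at e3
      unfold S4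
      rw [← hGd, e3]
      exact Finset.sum_congr rfl fun Q _ => prod_fam hf A Q
    rw [Finset.sum_congr rfl e2, Finset.sum_comm]
    refine Finset.sum_congr rfl fun Q _ => ?_
    rw [Finset.prod_one_add]
  -- the terms
  have e4 : ∀ Q ∈ P, ∏ h ∈ H, ‖1 + FF f (X Q) (ee (eta k)) h‖ ≤
      2 ^ H.card * (if 13 * rk (X Q) ≤ 24 * (2 * k) then 1 else X0) := by
    intro Q hQ
    by_cases hr : 13 * rk (X Q) ≤ 24 * (2 * k)
    · rw [if_pos hr, mul_one]
      calc ∏ h ∈ H, ‖1 + FF f (X Q) (ee (eta k)) h‖ ≤ ∏ _h ∈ H, (2 : ℝ) :=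
            Finset.prod_le_prod (fun _ _ => norm_nonneg _)
              fun h _ => norm_one_add_le_two (norm_FF hf _ _ h)
        _ = 2 ^ H.card := by rw [Finset.prod_const]
    · rw [if_neg hr]
      have hfam : Fam Q (eta k) := by
        refine ⟨fun i => ?_, eta_eq k⟩
        have := Fintype.mem_piFinset.1 hQ i
        rw [hGd, Finset.mem_filter] at this
        exact this.2
      obtain ⟨α, κ, δ, hrep, h0, hh0⟩ := hcmp d Q (eta k) hfam (not_le.1 hr) f hf
      obtain ⟨a, ha⟩ := hfar α κ δ hrep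
      have hx : c1 * ρ ≤ ‖FF f (X Q) (ee (eta k)) h0 - 1‖ :=
        (mul_le_mul_of_nonneg_left ha hc1.le).trans (hh0 a)
      have hl := prod_large hp hp2 h3 h4 hf (X Q) (ee (eta k)) H hH h0 (by positivity) hx
      refine hl.trans (le_of_eq ?_)
      rw [hX0, hc, ← hM]
      congr 4
      field_simp
  have e5 : ∑ A ∈ H.powerset, ‖S4 (wt f A)‖ ^ (2 * k) ≤
      ∑ Q ∈ P, 2 ^ H.card * (if 13 * rk (X Q) ≤ 24 * (2 * k) then 1 else X0) := by
    have e6 : ∑ A ∈ H.powerset, ‖S4 (wt f A)‖ ^ (2 * k) =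
        ‖((∑ A ∈ H.powerset, ‖S4 (wt f A)‖ ^ (2 * k) : ℝ) : ℂ)‖ := by
      rw [Complex.norm_real, Real.norm_of_nonneg]
      exact Finset.sum_nonneg fun A _ => by positivity
    rw [e6, e1]
    refine (norm_sum_le _ _).trans (Finset.sum_le_sum fun Q hQ => ?_)
    rw [norm_prod]
    exact e4 Q hQ
  refine e5.trans ?_
  rw [← Finset.mul_sum]
  refine mul_le_mul_of_nonneg_left ?_ (by positivity)
  rw [Finset.sum_ite, Finset.sum_const, Finset.sum_const, nsmul_eq_mul, nsmul_eq_mul, mul_one]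
  have hX0' : 0 ≤ X0 := by positivity
  -- small rank
  have s1 : ((P.filter fun Q => 13 * rk (X Q) ≤ 24 * (2 * k)).card : ℝ) ≤
      K1 * nn p d ^ (48 * (k : ℝ) / 13) := by
    have s2 := h2 p d (2 * k) (48 * k / 13) hp
    have s3 : (P.filter fun Q => 13 * rk (X Q) ≤ 24 * (2 * k)).card ≤
        Set.ncard {Q : Fin (2 * k) → G p d × G p d × G p d | rk (X Q) ≤ 48 * k / 13} := by
      rw [← Set.ncard_coe_finset]
      refine Set.ncard_le_ncard ?_ (Set.toFinite _)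
      intro Q hQ
      rw [Finset.mem_coe, Finset.mem_filter] at hQ
      show rk (X Q) ≤ 48 * k / 13
      rw [Nat.le_div_iff_mul_le (by norm_num)]
      omega
    have s4 : nn p d ^ (48 * k / 13 : ℕ) ≤ nn p d ^ (48 * (k : ℝ) / 13) := by
      rw [← Real.rpow_natCast]
      refine Real.rpow_le_rpow_of_exponent_le hn1 ?_
      have s5 : ((48 * k / 13 : ℕ) : ℝ) ≤ ((48 * k : ℕ) : ℝ) / ((13 : ℕ) : ℝ) := Nat.cast_div_le
      push_cast at s5
      exact s5
    calc ((P.filter fun Q => 13 * rk (X Q) ≤ 24 * (2 * k)).card : ℝ)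
        ≤ (Set.ncard {Q : Fin (2 * k) → G p d × G p d × G p d | rk (X Q) ≤ 48 * k / 13} : ℝ) := by
          exact_mod_cast s3
      _ ≤ K1 * nn p d ^ (48 * k / 13 : ℕ) := s2
      _ ≤ _ := mul_le_mul_of_nonneg_left s4 (by positivity)
  -- large rank
  have l1 : ((P.filter fun Q => ¬ 13 * rk (X Q) ≤ 24 * (2 * k)).card : ℝ) ≤
      nn p d ^ (6 * k) := by
    have l2 : (P.filter fun Q => ¬ 13 * rk (X Q) ≤ 24 * (2 * k)).card ≤
        Fintype.card (Fin (2 * k) → G p d × G p d × G p d) :=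
      Finset.card_le_univ _
    have l3 : Fintype.card (Fin (2 * k) → G p d × G p d × G p d) = (p ^ d) ^ (6 * k) := by
      rw [Fintype.card_fun, Fintype.card_prod, Fintype.card_prod, Fintype.card_fin,
        Fintype.card_fun, ZMod.card, Fintype.card_fin]
      ring
    rw [l3] at l2
    unfold nn
    exact_mod_cast l2
  have f1 : (0 : ℝ) ≤ nn p d ^ (48 * (k : ℝ) / 13) := by positivity
  have f2 : (0 : ℝ) ≤ nn p d ^ (6 * k) := by positivity
  have f3 : ((P.filter fun Q => ¬ 13 * rk (X Q) ≤ 24 * (2 * k)).card : ℝ) * X0 ≤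
      nn p d ^ (6 * k) * X0 := mul_le_mul_of_nonneg_right l1 hX0'
  have f4 : 0 ≤ K1 := by positivity
  have f5 : 0 ≤ nn p d ^ (6 * k) * Real.exp (-(c * ρ ^ 2 * nn p d)) := by positivity
  calc _ ≤ K1 * nn p d ^ (48 * (k : ℝ) / 13) + nn p d ^ (6 * k) * X0 := add_le_add s1 f3
    _ = K1 * nn p d ^ (48 * (k : ℝ) / 13) +
        2 * (nn p d ^ (6 * k) * Real.exp (-(c * ρ ^ 2 * nn p d))) := by
        rw [hX0]
        ring
    _ ≤ (K1 + 2) * (nn p d ^ (48 * (k : ℝ) / 13) +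
        nn p d ^ (6 * k) * Real.exp (-(c * ρ ^ 2 * nn p d))) := by
        nlinarith [mul_nonneg f4 f5]

end Pool.Agent.UAB
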