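import Pool.Agent.UAB.St

/-!
# Module MUU: `gd` in terms of `Dv`
-/

set_option autoImplicit false

namespace Pool.Agent.UAB

open Finset
open Pool.Agent.UAA (G ch nn)

namespace MUUaux

variable {p d : ℕ}

/-- The centred counts. -/
noncomputable def Dc (A : Finset (G p d)) (x : G p d) (a : ZMod p) : ℝ :=
  Dv A x a - nn p d / (2 * p) + (if a = 0 then 1 / 2 else 0)

open Classical in
theorem sum_fib [NeZero p] (A : Finset (G p d)) (x : G p d) (δ : ZMod p → ℝ) :
    ∑ h ∈ A, δ (dt x h) = ∑ a, δ a * ((A.filter fun h => dt x h = a).card : ℝ) := by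
  rw [← Finset.sum_fiberwise A (fun h => dt x h) (fun h => δ (dt x h))]
  refine Finset.sum_congr rfl fun a _ => ?_
  rw [Finset.sum_congr rfl (g := fun _ => δ a) (fun h hh => by
    rw [(Finset.mem_filter.mp hh).2])]
  rw [Finset.sum_const, nsmul_eq_mul, mul_comm]

theorem sum_A [NeZero p] (A : Finset (G p d)) (x : G p d) (δ : ZMod p → ℝ)
    (hδ : ∀ a, δ (-a) = δ a) :
    ∑ h ∈ A, δ (dt x h) = 1 / 2 * ∑ a, δ a * Dv A x a := by
  classical
  have h1 := sum_fib A x δ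
  have h2 : ∑ a, δ a * ((A.filter fun h => dt x h = -a).card : ℝ) =
      ∑ a, δ a * ((A.filter fun h => dt x h = a).card : ℝ) := by
    refine Fintype.sum_equiv (Equiv.neg (ZMod p)) _ _ fun a => ?_
    simp only [Equiv.neg_apply]
    rw [hδ a]
  have h3 : ∑ a, δ a * Dv A x a =
      ∑ a, δ a * ((A.filter fun h => dt x h = a).card : ℝ) +
        ∑ a, δ a * ((A.filter fun h => dt x h = -a).card : ℝ) := by
    rw [← Finset.sum_add_distrib]
    refine Finset.sum_congr rfl fun a _ => ?_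
    unfold Dv
    ring
  rw [h3, h2, ← h1]
  ring

theorem dt_neg' (x c : G p d) : dt x (-c) = - dt x c := by
  unfold dt
  rw [← Finset.sum_neg_distrib]
  exact Finset.sum_congr rfl fun i _ => by simp

theorem dt_zero' (x : G p d) : dt x 0 = 0 := by
  unfold dt
  simp

theorem sum_H [NeZero p] (hHLF : HLF_Stmt) (hUDF : UDF_Stmt) (hp : p.Prime) (h2 : p ≠ 2)
    (H : Finset (G p d)) (hH : Half H) (x : G p d) (hx : x ≠ 0) (δ : ZMod p → ℝ)
    (hδ : ∀ a, δ (-a) = δ a) :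
    2 * ∑ h ∈ H, δ (dt x h) = nn p d / p * ∑ a, δ a - δ 0 := by
  have h1 := ((hHLF p d hp h2).2 H hH).2 (fun c => (δ (dt x c) : ℂ)) (fun c => by
    simp only [dt_neg', hδ])
  have h3 := (hUDF p d hp).1 x hx (fun a => (δ a : ℂ))
  have hp0 : (p : ℝ) ≠ 0 := by
    have := hp.pos
    positivity
  have h1' : 2 * ∑ h ∈ H, δ (dt x h) + δ 0 = ∑ c : G p d, δ (dt x c) := by
    have h4 := h1
    simp only [dt_zero'] at h4
    exact_mod_cast h4
  have h3' : (p : ℝ) * ∑ c : G p d, δ (dt x c) = nn p d * ∑ a, δ a := by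
    exact_mod_cast h3
  have h5 : ∑ c : G p d, δ (dt x c) = nn p d / p * ∑ a, δ a := by
    field_simp
    linarith
  linarith

theorem gd_eq [NeZero p] (hHLF : HLF_Stmt) (hUDF : UDF_Stmt) (hp : p.Prime) (h2 : p ≠ 2)
    (H A : Finset (G p d)) (hH : Half H) (hA : A ⊆ H) (x : G p d) (hx : x ≠ 0) (δ : ZMod p → ℝ)
    (hδ : ∀ a, δ (-a) = δ a) :
    gd H A δ x = 1 / 2 * ∑ a, δ a * Dc A x a := by
  classical
  have h3 := sum_H hHLF hUDF hp h2 H hH x hx δ hδ
  have h4 := sum_A A x δ hδ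
  have h5 : gd H A δ x = ∑ h ∈ A, δ (dt x h) - 1 / 2 * ∑ h ∈ H, δ (dt x h) := by
    unfold gd
    have h6 : ∀ h ∈ H, ep A h * δ (dt x h) =
        (if h ∈ A then δ (dt x h) else 0) - 1 / 2 * δ (dt x h) := by
      intro h _
      unfold ep
      split_ifs <;> ring
    rw [Finset.sum_congr rfl h6, Finset.sum_sub_distrib, ← Finset.mul_sum,
      ← Finset.sum_filter]
    congr 1
    refine Finset.sum_congr ?_ fun _ _ => rfl
    ext h
    simp only [Finset.mem_filter]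
    exact ⟨fun h => h.2, fun h => ⟨hA h, h⟩⟩
  have h7 : ∑ a, δ a * Dc A x a =
      ∑ a, δ a * Dv A x a - nn p d / (2 * p) * ∑ a, δ a + 1 / 2 * δ 0 := by
    have h8 : ∑ a, δ a * Dc A x a = ∑ a, (δ a * Dv A x a - nn p d / (2 * p) * δ a +
        (if a = 0 then 1 / 2 * δ a else 0)) := by
      refine Finset.sum_congr rfl fun a _ => ?_
      unfold Dc
      split_ifs <;> ring
    rw [h8, Finset.sum_add_distrib, Finset.sum_sub_distrib, ← Finset.mul_sum,
      Finset.sum_ite_eq' Finset.univ (0 : ZMod p) (fun a => 1 / 2 * δ a)]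
    simp
  have hp0 : (p : ℝ) ≠ 0 := by
    have := hp.pos
    positivity
  have h9 : ∑ h ∈ H, δ (dt x h) = (nn p d / p * ∑ a, δ a - δ 0) / 2 := by linarith
  rw [h5, h7, h4, h9]
  field_simp
  ring

theorem Dc_neg (A : Finset (G p d)) (x : G p d) (a : ZMod p) : Dc A x (-a) = Dc A x a := by
  classical
  unfold Dc Dv
  simp only [neg_neg, neg_eq_zero]
  ring

theorem nn_one (hp : p.Prime) : 1 ≤ nn p d := by
  unfold nn
  exact one_le_pow₀ (by exact_mod_cast hp.one_lt.le)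

theorem npow_one (hp : p.Prime) (τ : ℝ) (hτ : 0 < τ) : 1 ≤ nn p d ^ (1 / 2 + τ) :=
  Real.one_le_rpow (nn_one hp) (by positivity)

theorem Dc_le (hp : p.Prime) (A : Finset (G p d)) (τ : ℝ) (hτ : 0 < τ) (hT : Ty τ A) (x : G p d)
    (hx : x ≠ 0) (a : ZMod p) : |Dc A x a| ≤ 5 / 2 * nn p d ^ (1 / 2 + τ) := by
  have h1 := hT x hx a
  have h2 := npow_one (p := p) (d := d) hp τ hτ
  have h3 : |(if a = 0 then (1 / 2 : ℝ) else 0)| ≤ 1 / 2 := by
    split_ifs <;> norm_num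
  have h4 : |Dc A x a| ≤ |Dv A x a - nn p d / (2 * p)| + |(if a = 0 then (1 / 2 : ℝ) else 0)| := by
    unfold Dc
    exact abs_add_le _ _
  linarith

theorem sum_neg_eq [NeZero p] (f : ZMod p → ℝ) : ∑ a, f (-a) = ∑ a, f a :=
  Fintype.sum_equiv (Equiv.neg (ZMod p)) _ _ fun a => by simp

theorem dz_even [NeZero p] (z : ZMod p → ℝ) (a : ZMod p) : dz z (-a) = dz z a := by
  unfold dz
  rw [neg_neg]
  ring

theorem dz_EM [NeZero p] (z : ZMod p → ℝ) : EM (dz z) := by
  refine ⟨dz_even z, ?_⟩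
  unfold dz
  rw [Finset.sum_sub_distrib, Finset.sum_add_distrib, sum_neg_eq z, Finset.sum_const,
    Finset.card_univ, ZMod.card, nsmul_eq_mul]
  have hp0 : (p : ℝ) ≠ 0 := by
    exact_mod_cast NeZero.ne p
  field_simp
  ring

theorem dz_half [NeZero p] (δ : ZMod p → ℝ) (hδ : EM δ) : dz (fun a => δ a / 2) = δ := by
  funext a
  show δ a / 2 + δ (-a) / 2 - 2 / p * ∑ b, δ b / 2 = δ a
  rw [hδ.1 a, ← Finset.sum_div, hδ.2]
  ring

end MUUaux

open MUUaux in
theorem t_MUU (hHLF : HLF_Stmt) (hUDF : UDF_Stmt) : MUU_Stmt := by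
  intro p d _ hp h2 H A hH hA τ hτ hT
  have hp0 : (0 : ℝ) < p := by
    have := hp.pos
    positivity
  have hp1 : (1 : ℝ) ≤ p := by
    exact_mod_cast hp.one_lt.le
  refine ⟨⟨fun x a => Dc A x a - 1 / p * ∑ b, Dc A x b, ?_, ?_⟩, dz_EM, dz_half, ?_⟩
  · intro x hx a
    have h3 := Dc_le hp A τ hτ hT x hx a
    have h4 : |1 / (p : ℝ) * ∑ b, Dc A x b| ≤ 5 / 2 * nn p d ^ (1 / 2 + τ) := by
      rw [abs_mul, abs_of_pos (by positivity : (0 : ℝ) < 1 / p)]
      have h5 : |∑ b, Dc A x b| ≤ p * (5 / 2 * nn p d ^ (1 / 2 + τ)) := by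
        refine (Finset.abs_sum_le_sum_abs _ _).trans ?_
        refine (Finset.sum_le_card_nsmul _ _ _ fun b _ => Dc_le hp A τ hτ hT x hx b).trans ?_
        rw [Finset.card_univ, ZMod.card, nsmul_eq_mul]
      calc 1 / (p : ℝ) * |∑ b, Dc A x b| ≤ 1 / p * (p * (5 / 2 * nn p d ^ (1 / 2 + τ))) :=
            mul_le_mul_of_nonneg_left h5 (by positivity)
        _ = 5 / 2 * nn p d ^ (1 / 2 + τ) := by field_simp
    have h6 := npow_one (p := p) (d := d) hp τ hτ
    have h7 := abs_sub (Dc A x a) (1 / (p : ℝ) * ∑ b, Dc A x b)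
    show |Dc A x a - 1 / (p : ℝ) * ∑ b, Dc A x b| ≤ _
    linarith
  · intro z x hx
    rw [gd_eq hHLF hUDF hp h2 H A hH hA x hx (dz z) (dz_even z)]
    have h3 : ∑ a, dz z a * Dc A x a =
        ∑ a, z a * Dc A x a + ∑ a, z (-a) * Dc A x a - 2 / p * (∑ b, z b) * ∑ a, Dc A x a := by
      rw [Finset.mul_sum, ← Finset.sum_add_distrib, ← Finset.sum_sub_distrib]
      refine Finset.sum_congr rfl fun a _ => ?_
      unfold dz
      ring
    have h4 : ∑ a, z (-a) * Dc A x a = ∑ a, z a * Dc A x a := by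
      rw [← sum_neg_eq (fun a => z a * Dc A x a)]
      refine Finset.sum_congr rfl fun a _ => ?_
      rw [Dc_neg]
    have h5 : ∑ a, z a * (Dc A x a - 1 / p * ∑ b, Dc A x b) =
        ∑ a, z a * Dc A x a - (∑ b, z b) * (1 / p * ∑ b, Dc A x b) := by
      rw [Finset.sum_mul, ← Finset.sum_sub_distrib]
      refine Finset.sum_congr rfl fun a _ => ?_
      ring
    rw [h3, h4, h5]
    ring
  · intro δ x hδ hx
    rw [gd_eq hHLF hUDF hp h2 H A hH hA x hx δ hδ.1]
    set r : ℝ := √(∑ a, δ a ^ 2) with hr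
    have hr0 : 0 ≤ r := Real.sqrt_nonneg _
    have hs0 : 0 ≤ ∑ a, δ a ^ 2 := Finset.sum_nonneg fun a _ => sq_nonneg _
    have h3 : ∀ a, |δ a| ≤ r := fun a => by
      rw [hr]
      refine Real.abs_le_sqrt ?_
      exact Finset.single_le_sum (f := fun a => δ a ^ 2) (fun b _ => sq_nonneg _)
        (Finset.mem_univ a)
    have hn := nn_one (p := p) (d := d) hp
    have hn0 : 0 < nn p d := by linarith
    have h4 : |1 / 2 * ∑ a, δ a * Dc A x a| ≤
        1 / 2 * (p * (r * (5 / 2 * nn p d ^ (1 / 2 + τ)))) := by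
      rw [abs_mul, abs_of_pos (by norm_num : (0 : ℝ) < 1 / 2)]
      refine mul_le_mul_of_nonneg_left ?_ (by norm_num)
      refine (Finset.abs_sum_le_sum_abs _ _).trans ?_
      refine (Finset.sum_le_card_nsmul _ _ (r * (5 / 2 * nn p d ^ (1 / 2 + τ))) fun b _ => ?_).trans
        ?_
      · rw [abs_mul]
        exact mul_le_mul (h3 b) (Dc_le hp A τ hτ hT x hx b) (abs_nonneg _) hr0
      · rw [Finset.card_univ, ZMod.card, nsmul_eq_mul]
    have h5 : nn p d ^ (1 / 2 + τ) = √(nn p d) * nn p d ^ τ := by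
      rw [Real.rpow_add hn0, Real.sqrt_eq_rpow]
    have hτ0 : 0 ≤ nn p d ^ τ := (Real.rpow_pos_of_pos hn0 τ).le
    have h6 : r * √(nn p d) = √(8 * p) * √(sig p d δ) := by
      rw [hr, ← Real.sqrt_mul hs0, ← Real.sqrt_mul (by positivity)]
      congr 1
      unfold sig
      field_simp
    have h7 : 5 / 4 * √(8 * p) ≤ 6 * p := by
      have h8 : √(8 * (p : ℝ)) ≤ 4 * p := by
        rw [Real.sqrt_le_left (by positivity)]
        nlinarith
      linarith
    calc |1 / 2 * ∑ a, δ a * Dc A x a| ≤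
        1 / 2 * (p * (r * (5 / 2 * nn p d ^ (1 / 2 + τ)))) := h4
      _ = p * (5 / 4 * √(8 * p)) * (nn p d ^ τ * √(sig p d δ)) := by
          rw [h5]
          calc _ = 5 / 4 * p * nn p d ^ τ * (r * √(nn p d)) := by ring
            _ = _ := by rw [h6]; ring
      _ ≤ p * (6 * p) * (nn p d ^ τ * √(sig p d δ)) := by
          refine mul_le_mul_of_nonneg_right ?_ (mul_nonneg hτ0 (Real.sqrt_nonneg _))
          exact mul_le_mul_of_nonneg_left h7 hp0.le
      _ = 6 * p ^ 2 * nn p d ^ τ * √(sig p d δ) := by ring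

end Pool.Agent.UAB
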