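import Pool.Agent.UAB.St

/-!
# Module PL2: polarization of a relation
-/

set_option autoImplicit false

namespace Pool.Agent.UAB

open Finset
open Pool.Agent.UAA (G ch nn)

namespace PL2aux

variable {p d : ℕ}

theorem dt_add (x h k : G p d) : dt x (h + k) = dt x h + dt x k := by
  unfold dt
  rw [← Finset.sum_add_distrib]
  exact Finset.sum_congr rfl fun i _ => by simp [mul_add]

/-- The derivatives of a relation. -/
theorem derivs {ι : Type} [Fintype ι] (Y : ι → G p d) (ε : ι → ℤ) (f : ZMod p → ℂ)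
    (h1 : ∀ h, FF f Y ε h = 1) : ∀ (l : List (G p d)) (h : G p d),
    ∏ s, dms (l.map (dt (Y s))) f (dt (Y s) h) ^ ε s = 1 := by
  intro l
  induction l with
  | nil => exact h1
  | cons k l ih =>
    intro h
    have h2 : ∀ s, dms ((k :: l).map (dt (Y s))) f (dt (Y s) h) =
        dms (l.map (dt (Y s))) f (dt (Y s) (h + k)) / dms (l.map (dt (Y s))) f (dt (Y s) h) := by
      intro s
      rw [dt_add]
      rfl
    have h3 : ∏ s, dms ((k :: l).map (dt (Y s))) f (dt (Y s) h) ^ ε s =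
        (∏ s, dms (l.map (dt (Y s))) f (dt (Y s) (h + k)) ^ ε s) /
          ∏ s, dms (l.map (dt (Y s))) f (dt (Y s) h) ^ ε s := by
      rw [← Finset.prod_div_distrib]
      refine Finset.prod_congr rfl fun s _ => ?_
      rw [h2 s, div_zpow]
    rw [h3, ih, ih, div_one]

theorem char_sum [NeZero p] {ι : Type} (S : Finset ι) (g : ι → ZMod p) :
    (ZMod.stdAddChar (∑ s ∈ S, g s) : ℂ) = ∏ s ∈ S, (ZMod.stdAddChar (g s) : ℂ) := by
  classical
  induction S using Finset.induction_on with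
  | empty => simp
  | insert a S ha ih =>
    rw [Finset.sum_insert ha, Finset.prod_insert ha, AddChar.map_add_eq_mul, ih]

end PL2aux

theorem t_PL2 : PL2_Stmt := by
  intro p d _ hp ι _ Y ε f m b _ hb hf hF k
  have : Fact p.Prime := ⟨hp⟩
  have h1 := PL2aux.derivs Y ε f hF (List.ofFn k) 0
  have h2 : ∀ s, dms ((List.ofFn k).map (dt (Y s))) f (dt (Y s) 0) =
      (ZMod.stdAddChar (b * ∏ j, dt (Y s) (k j)) : ℂ) := by
    intro s
    rw [hf _ (by simp), List.map_ofFn, List.prod_ofFn]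
    rfl
  have h3 : (ZMod.stdAddChar (∑ s, ε s • (b * ∏ j, dt (Y s) (k j))) : ℂ) = 1 := by
    rw [PL2aux.char_sum, ← h1]
    refine Finset.prod_congr rfl fun s _ => ?_
    rw [AddChar.map_zsmul_eq_zpow, h2 s]
  have h4 : ∑ s, ε s • (b * ∏ j, dt (Y s) (k j)) = 0 := by
    apply ZMod.injective_stdAddChar
    rw [h3, AddChar.map_zero_eq_one]
  have h5 : b * ∑ s, (ε s : ZMod p) * ∏ j, dt (Y s) (k j) = 0 := by
    rw [← h4, Finset.mul_sum]
    refine Finset.sum_congr rfl fun s _ => ?_
    rw [zsmul_eq_mul]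
    ring
  exact (mul_eq_zero.1 h5).resolve_left hb

end Pool.Agent.UAB
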