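import Pool.Agent.UAB.St

/-!
# Pairs of good quadruples with the same quadratic form
-/

set_option autoImplicit false

namespace Pool.Agent.UAB

open Finset
open Pool.Agent.UAA (G ch nn)

namespace PRCaux

variable {p d : ℕ}

/-- The type of triples. -/
abbrev TT (p d : ℕ) := G p d × G p d × G p d

theorem dt_add (x y h : G p d) : dt (x + y) h = dt x h + dt y h := by
  unfold dt
  rw [← Finset.sum_add_distrib]
  exact Finset.sum_congr rfl fun i _ => by simp only [Pi.add_apply]; ring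

theorem dt_sub (x y h : G p d) : dt (x - y) h = dt x h - dt y h := by
  unfold dt
  rw [← Finset.sum_sub_distrib]
  exact Finset.sum_congr rfl fun i _ => by simp only [Pi.sub_apply]; ring

theorem qform (t : TT p d) (h : G p d) :
    ∑ j, (sg j : ZMod p) * dt (vec t j) h ^ 2 =
      2 * (dt (t.1 - t.2.2) h * dt (t.2.2 - t.2.1) h) := by
  simp only [Fin.sum_univ_four, vec, sg]
  simp only [Matrix.cons_val_zero, Matrix.cons_val_one, Matrix.cons_val]
  rw [dt_sub, dt_sub, dt_sub, dt_add]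
  push_cast
  ring

/-- The quadruple with base point `b'`. -/
def tp (t : TT p d) (b : G p d) (u v : ZMod p) (s : Bool) : TT p d :=
  bif s then (b + u • (t.1 - t.2.2) + v • (t.2.2 - t.2.1), b, b + v • (t.2.2 - t.2.1))
  else (b + u • (t.2.2 - t.2.1) + v • (t.1 - t.2.2), b, b + v • (t.1 - t.2.2))

/-- Same form. -/
def SF (t t' : TT p d) : Prop := ∀ h, ∑ j, (sg j : ZMod p) * dt (vec t j) h ^ 2 =
      ∑ j, (sg j : ZMod p) * dt (vec t' j) h ^ 2

theorem key [NeZero p] (hp : p.Prime) (hp2 : p ≠ 2) (hQ : QUA_Stmt) (t t' : TT p d)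
    (ht : Gq t) (ht' : Gq t') (h : SF t t') :
    ∃ (u : ZMod p) (s : Bool), t' = tp t t'.2.1 u u⁻¹ s := by
  have := Fact.mk hp
  have h2 : (2 : ZMod p) ≠ 0 := by
    intro h0
    have h1 : ((2 : ℕ) : ZMod p) = 0 := by exact_mod_cast h0
    rw [ZMod.natCast_eq_zero_iff] at h1
    exact hp2 ((Nat.prime_dvd_prime_iff_eq hp Nat.prime_two).1 h1)
  have h3 : ∀ x, dt (t.1 - t.2.2) x * dt (t.2.2 - t.2.1) x =
      dt (t'.1 - t'.2.2) x * dt (t'.2.2 - t'.2.1) x := by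
    intro x
    have h4 := h x
    rw [qform, qform] at h4
    exact mul_left_cancel₀ h2 h4
  obtain ⟨c, hc, h5⟩ := hQ p d hp _ _ _ _ (sub_ne_zero.2 ht.2.2.2.2.1)
    (sub_ne_zero.2 (Ne.symm ht.2.2.2.2.2.1)) h3
  rcases h5 with ⟨h6, h7⟩ | ⟨h6, h7⟩
  · refine ⟨c, true, ?_⟩
    have h8 : t'.2.2 - t'.2.1 = c⁻¹ • (t.2.2 - t.2.1) := by
      rw [h7, smul_smul, inv_mul_cancel₀ hc, one_smul]
    simp only [tp, cond_true]
    rw [← h6, ← h8]
    refine Prod.ext ?_ (Prod.ext rfl ?_)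
    · simp only
      abel
    · simp
  · refine ⟨c, false, ?_⟩
    have h8 : t'.2.2 - t'.2.1 = c⁻¹ • (t.1 - t.2.2) := by
      rw [h7, smul_smul, inv_mul_cancel₀ hc, one_smul]
    simp only [tp, cond_false]
    rw [← h6, ← h8]
    refine Prod.ext ?_ (Prod.ext rfl ?_)
    · simp only
      abel
    · simp

theorem ncard_le {α β : Type} [Fintype α] (S : Set β) (f : α → β) (h : ∀ x ∈ S, ∃ a, f a = x) :
    (S.ncard : ℝ) ≤ (Fintype.card α : ℝ) := by
  have h1 : S ⊆ f '' Set.univ := by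
    intro x hx
    obtain ⟨a, ha⟩ := h x hx
    exact ⟨a, Set.mem_univ _, ha⟩
  have h2 := Set.ncard_le_ncard h1 (Set.toFinite _)
  have h3 := Set.ncard_image_le (f := f) (s := Set.univ) (Set.toFinite _)
  rw [Set.ncard_univ, Nat.card_eq_fintype_card] at h3
  exact_mod_cast h2.trans h3

theorem cardG [NeZero p] : (Fintype.card (G p d) : ℝ) = nn p d := by
  rw [Fintype.card_fun, ZMod.card, Fintype.card_fin]
  simp [nn]

/-- Dependent triples. -/
def dep (i : Fin 3) (x y : ZMod p) (v w : G p d) : TT p d :=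
  ![(x • v + y • w, v, w), (v, x • v + y • w, w), (v, w, x • v + y • w)] i

theorem dep_of [NeZero p] (hp : p.Prime) (t : TT p d)
    (h : ¬ LinearIndependent (ZMod p) ![t.1, t.2.1, t.2.2]) :
    ∃ (i : Fin 3) (x y : ZMod p) (v w : G p d), t = dep i x y v w := by
  have := Fact.mk hp
  rw [Fintype.not_linearIndependent_iff] at h
  obtain ⟨g, hg, i, hi⟩ := h
  simp only [Fin.sum_univ_three, Matrix.cons_val_zero, Matrix.cons_val_one,
    Matrix.cons_val] at hg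
  fin_cases i
  · refine ⟨0, -((g 0)⁻¹ * g 1), -((g 0)⁻¹ * g 2), t.2.1, t.2.2, ?_⟩
    simp only [dep, Matrix.cons_val_zero]
    refine Prod.ext ?_ rfl
    have h1 : g 0 ≠ 0 := hi
    have h2 : g 0 • t.1 = -(g 1 • t.2.1) - g 2 • t.2.2 := by
      rw [← sub_eq_zero, ← hg]; abel
    have h3 : t.1 = (g 0)⁻¹ • (g 0 • t.1) := by rw [smul_smul, inv_mul_cancel₀ h1, one_smul]
    rw [h3, h2]
    simp only [smul_sub, smul_neg, smul_smul, neg_smul]
    abel
  · refine ⟨1, -((g 1)⁻¹ * g 0), -((g 1)⁻¹ * g 2), t.1, t.2.2, ?_⟩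
    simp only [dep, Matrix.cons_val_one]
    refine Prod.ext rfl (Prod.ext ?_ rfl)
    have h1 : g 1 ≠ 0 := hi
    have h2 : g 1 • t.2.1 = -(g 0 • t.1) - g 2 • t.2.2 := by
      rw [← sub_eq_zero, ← hg]; abel
    have h3 : t.2.1 = (g 1)⁻¹ • (g 1 • t.2.1) := by rw [smul_smul, inv_mul_cancel₀ h1, one_smul]
    show t.2.1 = _
    rw [h3, h2]
    simp only [smul_sub, smul_neg, smul_smul, neg_smul]
    simp only [Matrix.cons_val_zero]
    abel
  · refine ⟨2, -((g 2)⁻¹ * g 0), -((g 2)⁻¹ * g 1), t.1, t.2.1, ?_⟩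
    simp only [dep, Matrix.cons_val]
    refine Prod.ext rfl (Prod.ext rfl ?_)
    have h1 : g 2 ≠ 0 := hi
    have h2 : g 2 • t.2.2 = -(g 0 • t.1) - g 1 • t.2.1 := by
      rw [← sub_eq_zero, ← hg]; abel
    have h3 : t.2.2 = (g 2)⁻¹ • (g 2 • t.2.2) := by rw [smul_smul, inv_mul_cancel₀ h1, one_smul]
    show t.2.2 = _
    rw [h3, h2]
    simp only [smul_sub, smul_neg, smul_smul, neg_smul]
    abel

/-- The base point from a vector of the quadruple. -/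
theorem base (t' : TT p d) (j : Fin 4) : t'.2.1 = vec t' j -
    (![(t'.1 - t'.2.2) + (t'.2.2 - t'.2.1), 0, t'.2.2 - t'.2.1, t'.1 - t'.2.2] : Fin 4 → G p d) j := by
  fin_cases j
  · simp [vec]
  · simp [vec]
  · simp [vec]
  · simp only [vec]
    simp

end PRCaux

open PRCaux in
theorem t_PRC (hQ : QUA_Stmt) : PRC_Stmt := by
  intro p d _ hp hp2
  have := Fact.mk hp
  have hp1 : (1 : ℝ) ≤ p := by exact_mod_cast hp.one_lt.le
  have hn0 : 0 ≤ nn p d := by rw [← cardG]; positivity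
  refine ⟨?_, ?_⟩
  · refine (ncard_le (α := TT p d × G p d × ZMod p × Bool) _
      (fun z => (z.1, tp z.1 z.2.1 z.2.2.1 z.2.2.1⁻¹ z.2.2.2)) ?_).trans ?_
    · rintro ⟨t, t'⟩ ⟨h1, h2, h3⟩
      obtain ⟨u, s, hu⟩ := key hp hp2 hQ t t' h1 h2 h3
      exact ⟨(t, t'.2.1, u, s), by simp only; rw [← hu]⟩
    · simp only [Fintype.card_prod, Nat.cast_mul, cardG, ZMod.card, Fintype.card_bool]
      apply le_of_eq
      push_cast
      ring
  · set S1 : Set (TT p d × TT p d) := {t | Gq t.1 ∧ Gq t.2 ∧ SF t.1 t.2 ∧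
      ¬ LinearIndependent (ZMod p) ![t.1.1, t.1.2.1, t.1.2.2]} with hS1
    set S2 : Set (TT p d × TT p d) := {t | Gq t.1 ∧ Gq t.2 ∧ SF t.1 t.2 ∧
      ¬ LinearIndependent (ZMod p) ![t.2.1, t.2.2.1, t.2.2.2]} with hS2
    set S3 : Set (TT p d × TT p d) := {t | Gq t.1 ∧ Gq t.2 ∧ SF t.1 t.2 ∧
      ∃ (i j : Fin 4) (c : ZMod p), vec t.2 j = c • vec t.1 i} with hS3
    have h1 : (S1.ncard : ℝ) ≤ 6 * (p : ℝ) ^ 3 * nn p d ^ 3 := by
      refine (ncard_le (α := (Fin 3 × ZMod p × ZMod p × G p d × G p d) × G p d × ZMod p × Bool) _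
        (fun z => (dep z.1.1 z.1.2.1 z.1.2.2.1 z.1.2.2.2.1 z.1.2.2.2.2,
          tp (dep z.1.1 z.1.2.1 z.1.2.2.1 z.1.2.2.2.1 z.1.2.2.2.2) z.2.1 z.2.2.1 z.2.2.1⁻¹
            z.2.2.2)) ?_).trans ?_
      · rintro ⟨t, t'⟩ ⟨h1, h2, h3, h4⟩
        obtain ⟨u, s, hu⟩ := key hp hp2 hQ t t' h1 h2 h3
        obtain ⟨i, x, y, v, w, ht⟩ := dep_of hp t h4
        refine ⟨((i, x, y, v, w), t'.2.1, u, s), ?_⟩
        simp only
        rw [← ht, ← hu]
      · simp only [Fintype.card_prod, Nat.cast_mul, cardG, ZMod.card, Fintype.card_bool,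
          Fintype.card_fin]
        apply le_of_eq
        push_cast
        ring
    have h2 : (S2.ncard : ℝ) ≤ 6 * (p : ℝ) ^ 3 * nn p d ^ 3 := by
      refine (ncard_le (α := (Fin 3 × ZMod p × ZMod p × G p d × G p d) × G p d × ZMod p × Bool) _
        (fun z => (tp (dep z.1.1 z.1.2.1 z.1.2.2.1 z.1.2.2.2.1 z.1.2.2.2.2) z.2.1 z.2.2.1
          z.2.2.1⁻¹ z.2.2.2, dep z.1.1 z.1.2.1 z.1.2.2.1 z.1.2.2.2.1 z.1.2.2.2.2)) ?_).trans ?_
      · rintro ⟨t, t'⟩ ⟨h1, h2, h3, h4⟩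
        obtain ⟨u, s, hu⟩ := key hp hp2 hQ t' t h2 h1 (fun h => (h3 h).symm)
        obtain ⟨i, x, y, v, w, ht⟩ := dep_of hp t' h4
        refine ⟨((i, x, y, v, w), t.2.1, u, s), ?_⟩
        simp only
        rw [← ht, ← hu]
      · simp only [Fintype.card_prod, Nat.cast_mul, cardG, ZMod.card, Fintype.card_bool,
          Fintype.card_fin]
        apply le_of_eq
        push_cast
        ring
    have h3 : (S3.ncard : ℝ) ≤ 32 * (p : ℝ) ^ 2 * nn p d ^ 3 := by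
      refine (ncard_le (α := TT p d × (ZMod p × Bool) × Fin 4 × Fin 4 × ZMod p) _
        (fun z => (z.1, tp z.1 (z.2.2.2.2 • vec z.1 z.2.2.1 -
          (let t' := tp z.1 0 z.2.1.1 z.2.1.1⁻¹ z.2.1.2
          (![(t'.1 - t'.2.2) + (t'.2.2 - t'.2.1), 0, t'.2.2 - t'.2.1, t'.1 - t'.2.2] :
            Fin 4 → G p d) z.2.2.2.1)) z.2.1.1 z.2.1.1⁻¹ z.2.1.2)) ?_).trans ?_
      · rintro ⟨t, t'⟩ ⟨h1, h2, h3, i, j, c, h4⟩
        obtain ⟨u, s, hu⟩ := key hp hp2 hQ t t' h1 h2 h3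
        refine ⟨(t, (u, s), i, j, c), ?_⟩
        simp only
        have h5 := base t' j
        have h4' : vec t' j = c • vec t i := h4
        have h6 : t'.1 - t'.2.2 = (tp t 0 u u⁻¹ s).1 - (tp t 0 u u⁻¹ s).2.2 := by
          rw [hu]; cases s <;> simp [tp]
        have h7 : t'.2.2 - t'.2.1 = (tp t 0 u u⁻¹ s).2.2 - (tp t 0 u u⁻¹ s).2.1 := by
          rw [hu]; cases s <;> simp [tp]
        rw [← h6, ← h7, ← h4', ← h5, ← hu]
      · simp only [Fintype.card_prod, Nat.cast_mul, cardG, ZMod.card, Fintype.card_bool,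
          Fintype.card_fin]
        apply le_of_eq
        push_cast
        ring
    have h4 : (Set.ncard {t : (G p d × G p d × G p d) × (G p d × G p d × G p d) | Gq t.1 ∧
        Gq t.2 ∧ (∀ h, ∑ j, (sg j : ZMod p) * dt (vec t.1 j) h ^ 2 =
          ∑ j, (sg j : ZMod p) * dt (vec t.2 j) h ^ 2) ∧
        (¬ LinearIndependent (ZMod p) ![t.1.1, t.1.2.1, t.1.2.2] ∨
          ¬ LinearIndependent (ZMod p) ![t.2.1, t.2.2.1, t.2.2.2] ∨
          ∃ (i j : Fin 4) (c : ZMod p), vec t.2 j = c • vec t.1 i)} : ℝ) ≤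
        S1.ncard + S2.ncard + S3.ncard := by
      have h5 : {t : (G p d × G p d × G p d) × (G p d × G p d × G p d) | Gq t.1 ∧
        Gq t.2 ∧ (∀ h, ∑ j, (sg j : ZMod p) * dt (vec t.1 j) h ^ 2 =
          ∑ j, (sg j : ZMod p) * dt (vec t.2 j) h ^ 2) ∧
        (¬ LinearIndependent (ZMod p) ![t.1.1, t.1.2.1, t.1.2.2] ∨
          ¬ LinearIndependent (ZMod p) ![t.2.1, t.2.2.1, t.2.2.2] ∨
          ∃ (i j : Fin 4) (c : ZMod p), vec t.2 j = c • vec t.1 i)} ⊆ (S1 ∪ S2) ∪ S3 := by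
        rintro t ⟨a1, a2, a3, a4 | a4 | a4⟩
        · exact Or.inl (Or.inl ⟨a1, a2, a3, a4⟩)
        · exact Or.inl (Or.inr ⟨a1, a2, a3, a4⟩)
        · exact Or.inr ⟨a1, a2, a3, a4⟩
      have h6 := Set.ncard_le_ncard h5 (Set.toFinite _)
      have h7 := Set.ncard_union_le (S1 ∪ S2) S3
      have h8 := Set.ncard_union_le S1 S2
      exact_mod_cast (h6.trans h7).trans (by omega)
    have h5 : (p : ℝ) ^ 2 * nn p d ^ 3 ≤ (p : ℝ) ^ 3 * nn p d ^ 3 :=
      mul_le_mul_of_nonneg_right (pow_le_pow_right₀ hp1 (by norm_num)) (by positivity)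
    have h6 : 0 ≤ (p : ℝ) ^ 3 * nn p d ^ 3 := by positivity
    linarith

end Pool.Agent.UAB
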