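import Pool.Agent.UAB.St

set_option autoImplicit false

namespace Pool.Agent.UAB.RAPaux

open Finset

theorem coef (K : ℕ) (hK : 1 ≤ K) : ∃ C : ℝ, 0 ≤ C ∧ ∀ (b : ℕ → ℂ) (B : ℝ), 0 ≤ B →
    (∀ j : ℕ, j ≤ K → ‖∑ k ∈ range (K + 1), b k * ((j : ℂ) / K) ^ k‖ ≤ B) →
    ∀ k, k ≤ K → ‖b k‖ ≤ C * B := by
  have hK0 : (K : ℂ) ≠ 0 := by
    exact_mod_cast (show K ≠ 0 by omega)
  let v : Fin (K + 1) → ℂ := fun j => ((j : ℕ) : ℂ) / K
  have hv : Function.Injective v := by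
    intro i j hij
    have h1 : ((i : ℕ) : ℂ) / K = ((j : ℕ) : ℂ) / K := hij
    have h2 : ((i : ℕ) : ℂ) = ((j : ℕ) : ℂ) := by
      field_simp at h1
      exact h1
    exact Fin.ext (by exact_mod_cast h2)
  have hdet : (Matrix.vandermonde v).det ≠ 0 := Matrix.det_vandermonde_ne_zero_iff.2 hv
  refine ⟨∑ k, ∑ j, ‖(Matrix.vandermonde v)⁻¹ k j‖,
    Finset.sum_nonneg fun _ _ => Finset.sum_nonneg fun _ _ => norm_nonneg _, ?_⟩
  intro b B hB hb k hk
  let bv : Fin (K + 1) → ℂ := fun k => b k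
  have h1 : ∀ j : Fin (K + 1), ‖(Matrix.mulVec (Matrix.vandermonde v) bv) j‖ ≤ B := by
    intro j
    have h2 := hb j (by have := j.2; omega)
    rw [Finset.sum_range] at h2
    have h3 : (Matrix.mulVec (Matrix.vandermonde v) bv) j =
        ∑ i : Fin (K + 1), b i * (((j : ℕ) : ℂ) / K) ^ (i : ℕ) := by
      show ∑ i, Matrix.vandermonde v j i * bv i = _
      refine Finset.sum_congr rfl fun i _ => ?_
      rw [Matrix.vandermonde_apply]
      exact mul_comm _ _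
    rw [h3]
    exact h2
  have h2 : Matrix.mulVec (Matrix.vandermonde v)⁻¹ (Matrix.mulVec (Matrix.vandermonde v) bv) = bv := by
    rw [Matrix.mulVec_mulVec, Matrix.nonsing_inv_mul _ (isUnit_iff_ne_zero.2 hdet), Matrix.one_mulVec]
  have h3 : b k = (Matrix.mulVec (Matrix.vandermonde v)⁻¹
      (Matrix.mulVec (Matrix.vandermonde v) bv)) ⟨k, by omega⟩ := by
    rw [h2]
  rw [h3]
  generalize hw : Matrix.mulVec (Matrix.vandermonde v) bv = w at h1
  show ‖∑ j, (Matrix.vandermonde v)⁻¹ ⟨k, by omega⟩ j * w j‖ ≤ _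
  calc ‖∑ j, (Matrix.vandermonde v)⁻¹ ⟨k, by omega⟩ j * w j‖
      ≤ ∑ j, ‖(Matrix.vandermonde v)⁻¹ ⟨k, by omega⟩ j * w j‖ := norm_sum_le _ _
    _ ≤ ∑ j, ‖(Matrix.vandermonde v)⁻¹ ⟨k, by omega⟩ j‖ * B := by
        refine Finset.sum_le_sum fun j _ => ?_
        rw [norm_mul]
        exact mul_le_mul_of_nonneg_left (h1 j) (norm_nonneg _)
    _ = (∑ j, ‖(Matrix.vandermonde v)⁻¹ ⟨k, by omega⟩ j‖) * B := by rw [Finset.sum_mul]
    _ ≤ (∑ k, ∑ j, ‖(Matrix.vandermonde v)⁻¹ k j‖) * B := by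
        refine mul_le_mul_of_nonneg_right ?_ hB
        exact Finset.single_le_sum (f := fun k => ∑ j, ‖(Matrix.vandermonde v)⁻¹ k j‖)
          (fun _ _ => Finset.sum_nonneg fun _ _ => norm_nonneg _) (Finset.mem_univ _)

/-- the general estimate: the tail from the index `s` on, `s ≤ K + 1` -/
theorem tail (K s : ℕ) (hK : 1 ≤ K) (hs : s ≤ K + 1) (C : ℝ) (hC : 0 ≤ C)
    (D1 : ℂ) (a : ℕ → ℂ) (E M T : ℝ) (hT : 1 ≤ T) (hE : 0 ≤ E) (hM : 0 ≤ M)
    (ha : ∀ k ≤ K, ‖a k * (T : ℂ) ^ k‖ ≤ C * (M + E))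
    (h1 : ‖D1 - ∑ k ∈ range (K + 1), a k‖ ≤ E / T ^ (K + 1)) :
    ‖D1 - ∑ k ∈ range s, a k‖ ≤ ((K + 1) * C + 1) * (M + E) / T ^ s := by
  have hT0 : 0 < T := by linarith
  have h2 : D1 - ∑ k ∈ range s, a k = (D1 - ∑ k ∈ range (K + 1), a k) + ∑ k ∈ Ico s (K + 1), a k := by
    rw [← Finset.sum_range_add_sum_Ico _ hs]
    ring
  have h3 : ∀ k ∈ Ico s (K + 1), ‖a k‖ ≤ C * (M + E) / T ^ s := by
    intro k hk
    rw [Finset.mem_Ico] at hk
    have h4 := ha k (by omega)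
    rw [norm_mul, norm_pow, Complex.norm_real, Real.norm_of_nonneg hT0.le] at h4
    rw [le_div_iff₀ (by positivity)]
    refine le_trans ?_ h4
    exact mul_le_mul_of_nonneg_left (pow_le_pow_right₀ hT (by omega)) (norm_nonneg _)
  have h5 : ‖∑ k ∈ Ico s (K + 1), a k‖ ≤ (K + 1) * (C * (M + E) / T ^ s) := by
    refine le_trans (norm_sum_le_of_le _ h3) ?_
    rw [Finset.sum_const, nsmul_eq_mul, Nat.card_Ico]
    refine mul_le_mul_of_nonneg_right ?_ (by positivity)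
    have : K + 1 - s ≤ K + 1 := Nat.sub_le _ _
    exact_mod_cast this
  have h6 : E / T ^ (K + 1) ≤ (M + E) / T ^ s := by
    refine div_le_div₀ (by linarith) (by linarith) (by positivity) ?_
    exact pow_le_pow_right₀ hT hs
  rw [h2]
  calc ‖(D1 - ∑ k ∈ range (K + 1), a k) + ∑ k ∈ Ico s (K + 1), a k‖
      ≤ E / T ^ (K + 1) + (K + 1) * (C * (M + E) / T ^ s) := le_trans (norm_add_le _ _) (add_le_add h1 h5)
    _ ≤ (M + E) / T ^ s + (K + 1) * (C * (M + E) / T ^ s) := by linarith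
    _ = ((K + 1) * C + 1) * (M + E) / T ^ s := by ring

end Pool.Agent.UAB.RAPaux

namespace Pool.Agent.UAB

open Finset

theorem t_RAP : RAP_Stmt := by
  intro K hK
  obtain ⟨C, hC, hcoef⟩ := RAPaux.coef K hK
  refine ⟨(K + 1) * C + 1, by positivity, ?_⟩
  intro D a E M T hT hE hM h1 h2
  have hT0 : 0 < T := by linarith
  have hK0 : (0 : ℝ) < K := by exact_mod_cast (show 0 < K by omega)
  have ha : ∀ k ≤ K, ‖a k * (T : ℂ) ^ k‖ ≤ C * (M + E) := by
    intro k hk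
    refine hcoef (fun k => a k * (T : ℂ) ^ k) (M + E) (by linarith) ?_ k hk
    intro j hj
    have hj1 : (j : ℝ) / K ≤ 1 := by
      rw [div_le_one hK0]
      exact_mod_cast hj
    have hj0 : 0 ≤ (j : ℝ) / K := by positivity
    have e1 : ∑ k ∈ range (K + 1), a k * (T : ℂ) ^ k * ((j : ℂ) / K) ^ k =
        ∑ k ∈ range (K + 1), a k * (((T * (j / K) : ℝ)) : ℂ) ^ k := by
      refine Finset.sum_congr rfl fun k _ => ?_
      push_cast
      rw [mul_pow, mul_assoc]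
    have hτ0 : 0 ≤ T * (j / K) := by positivity
    have hτ1 : T * (j / K) ≤ T := by
      calc T * (j / K) ≤ T * 1 := mul_le_mul_of_nonneg_left hj1 hT0.le
        _ = T := mul_one T
    have h3 := h1 (T * (j / K)) (by rw [abs_of_nonneg hτ0]; exact hτ1)
    have h4 := h2 (T * (j / K)) hτ0 hτ1
    have h5 : E * (|T * (j / K)| / T) ^ (K + 1) ≤ E := by
      have h6 : |T * (j / K)| / T ≤ 1 := by
        rw [abs_of_nonneg hτ0, div_le_one hT0]
        exact hτ1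
      calc E * (|T * (j / K)| / T) ^ (K + 1) ≤ E * 1 :=
            mul_le_mul_of_nonneg_left (pow_le_one₀ (by positivity) h6) hE
        _ = E := mul_one E
    rw [e1]
    have h7 : ∑ k ∈ range (K + 1), a k * (((T * (j / K) : ℝ)) : ℂ) ^ k =
        D (T * (j / K)) - (D (T * (j / K)) - ∑ k ∈ range (K + 1), a k * (((T * (j / K) : ℝ)) : ℂ) ^ k) := by
      ring
    rw [h7]
    calc _ ≤ ‖D (T * (j / K))‖ +
          ‖D (T * (j / K)) - ∑ k ∈ range (K + 1), a k * (((T * (j / K) : ℝ)) : ℂ) ^ k‖ := norm_sub_le _ _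
      _ ≤ M + E := add_le_add h4 (le_trans h3 h5)
  have h8 : ‖D 1 - ∑ k ∈ range (K + 1), a k‖ ≤ E / T ^ (K + 1) := by
    have h9 := h1 1 (by rw [abs_one]; exact hT)
    simp only [Complex.ofReal_one, one_pow, mul_one, abs_one] at h9
    refine le_trans h9 (le_of_eq ?_)
    rw [div_pow, one_pow]
    ring
  have hD0 : D 0 = a 0 := by
    have h9 := h1 0 (by rw [abs_zero]; exact hT0.le)
    have h10 : ∑ k ∈ range (K + 1), a k * ((0 : ℝ) : ℂ) ^ k = a 0 := by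
      rw [Finset.sum_range_succ']
      simp
    rw [h10, abs_zero, zero_div, zero_pow (by omega), mul_zero] at h9
    exact sub_eq_zero.1 (norm_le_zero_iff.1 h9)
  constructor
  · have h9 := RAPaux.tail K 2 hK (by omega) C hC (D 1) a E M T hT hE hM ha h8
    have h10 : D 1 - a 0 - a 1 = D 1 - ∑ k ∈ range 2, a k := by
      rw [Finset.sum_range_succ, Finset.sum_range_succ, Finset.sum_range_zero]
      ring
    rw [h10]
    exact h9
  · have h9 := RAPaux.tail K 1 hK (by omega) C hC (D 1) a E M T hT hE hM ha h8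
    rw [Finset.sum_range_one, pow_one] at h9
    rw [hD0]
    exact h9

end Pool.Agent.UAB
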