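import Pool.Agent.UAB.St
import Pool.Agent.UAA.FOU

/-!
# Module RAY: no flat vector in the windows `α ≠ 0`, except at `δ = 0`
-/

set_option autoImplicit false

namespace Pool.Agent.UAB

open Finset
open Pool.Agent.UAA (G ch nn)
open Pool.Agent.UAA.FOUaux (U parseval ch_add ch_zero sum_ch one three)

namespace RAYaux

/-! ### The dependence on the value at `0` -/

section fourier

set_option linter.unusedSectionVars false

variable {p d : ℕ} [NeZero p]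

theorem card_G (p d : ℕ) [NeZero p] : (Fintype.card (G p d) : ℝ) = nn p d := by
  unfold nn
  rw [Fintype.card_fun, ZMod.card, Fintype.card_fin]
  push_cast
  rfl

theorem nn_pos (p d : ℕ) [NeZero p] : 0 < nn p d := by
  rw [← card_G]
  exact_mod_cast Fintype.card_pos

/-- `v` without its value at `0`. -/
noncomputable def vz (v : G p d → ℂ) (x : G p d) : ℂ := if x = 0 then 0 else v x

theorem vz_zero (v : G p d → ℂ) : vz v 0 = 0 := by
  unfold vz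
  rw [if_pos rfl]

theorem vz_ne (v : G p d → ℂ) {x : G p d} (hx : x ≠ 0) : vz v x = v x := by
  unfold vz
  rw [if_neg hx]

theorem U_up (Z : ℂ) (v : G p d → ℂ) (b : G p d) :
    ∑ x, up Z v x * ch b x = Z + U (vz v) b := by
  have h1 : ∀ x : G p d, up Z v x * ch b x = (if x = 0 then Z else 0) + vz v x * ch b x := by
    intro x
    by_cases hx : x = 0
    · subst hx
      rw [vz_zero, ch_zero]
      unfold up
      simp
    · rw [vz_ne v hx]
      unfold up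
      rw [if_neg hx, if_neg hx, zero_add]
  rw [Finset.sum_congr rfl fun x _ => h1 x, Finset.sum_add_distrib, Finset.sum_ite_eq' ,
    if_pos (Finset.mem_univ _)]
  rfl

theorem sum_u (v : G p d → ℂ) : ∑ b, U (vz v) b = 0 := by
  rw [one, vz_zero, mul_zero]

theorem sum_u3 (v : G p d → ℂ) :
    ∑ b, ((‖U (vz v) b‖ ^ 2 : ℝ) : ℂ) * U (vz v) b = (nn p d : ℂ) * T3 v := by
  rw [three]
  congr 1
  have e : ∑ t : Fin 2 → G p d, vz v (t 0) * vz v (t 1) * (starRingEnd ℂ) (vz v (t 0 + t 1)) =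
      ∑ z : G p d × G p d, vz v z.1 * vz v z.2 * (starRingEnd ℂ) (vz v (z.1 + z.2)) :=
    Fintype.sum_equiv (finTwoArrowEquiv (G p d)) _ _ (fun m => rfl)
  rw [e]
  unfold T3
  rw [Finset.sum_filter]
  refine Finset.sum_congr rfl fun z _ => ?_
  by_cases h1 : z.1 = 0
  · rw [if_neg (fun h => h.1 h1), h1, vz_zero, zero_mul, zero_mul]
  by_cases h2 : z.2 = 0
  · rw [if_neg (fun h => h.2.1 h2), h2, vz_zero, mul_zero, zero_mul]
  by_cases h3 : z.1 + z.2 = 0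
  · rw [if_neg (fun h => h.2.2 h3), h3, vz_zero, map_zero, mul_zero]
  rw [if_pos ⟨h1, h2, h3⟩, vz_ne v h1, vz_ne v h2, vz_ne v h3]

theorem sum_u2 (v : G p d → ℂ) (hv : ∀ x, v (-x) = v x) :
    ∑ b, U (vz v) b ^ 2 = (nn p d : ℂ) * T2 v := by
  have e1 : ∀ b : G p d, U (vz v) b ^ 2 = ∑ x, ∑ y, vz v x * vz v y * ch b (x + y) := by
    intro b
    unfold U
    rw [sq, Finset.sum_mul_sum]
    refine Finset.sum_congr rfl fun x _ => Finset.sum_congr rfl fun y _ => ?_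
    rw [ch_add]
    ring
  rw [Finset.sum_congr rfl fun b _ => e1 b, Finset.sum_comm]
  have e2 : ∀ x : G p d, ∑ b, ∑ y, vz v x * vz v y * ch b (x + y) =
      (nn p d : ℂ) * (vz v x * vz v (-x)) := by
    intro x
    rw [Finset.sum_comm]
    have e3 : ∀ y : G p d, ∑ b, vz v x * vz v y * ch b (x + y) =
        if y = -x then (nn p d : ℂ) * (vz v x * vz v y) else 0 := by
      intro y
      rw [← Finset.mul_sum, sum_ch]
      by_cases h : x + y = 0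
      · rw [if_pos h, if_pos (by rw [eq_neg_iff_add_eq_zero, add_comm]; exact h)]
        ring
      · rw [if_neg h, if_neg (fun h' => h (by rw [h']; simp)), mul_zero]
    rw [Finset.sum_congr rfl fun y _ => e3 y, Finset.sum_ite_eq', if_pos (Finset.mem_univ _)]
  rw [Finset.sum_congr rfl fun x _ => e2 x, ← Finset.mul_sum]
  congr 1
  unfold T2
  rw [← Finset.sum_erase_add _ _ (Finset.mem_univ (0 : G p d)), vz_zero, zero_mul, add_zero]
  refine Finset.sum_congr rfl fun x hx => ?_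
  have hx0 : x ≠ 0 := Finset.ne_of_mem_erase hx
  have hx1 : -x ≠ 0 := neg_ne_zero.2 hx0
  rw [vz_ne v hx0, vz_ne v hx1, hv, sq]

theorem four_add (Z u : ℂ) (hZ : ‖Z‖ = 1) : ‖Z + u‖ ^ 4 =
    ((1 + ‖u‖ ^ 2) ^ 2 + 2 * ‖u‖ ^ 2) + 4 * ((starRingEnd ℂ) Z * u).re +
      4 * ((starRingEnd ℂ) Z * (((‖u‖ ^ 2 : ℝ) : ℂ) * u)).re +
      2 * ((starRingEnd ℂ) Z ^ 2 * u ^ 2).re := by
  have h1 : Z.re ^ 2 + Z.im ^ 2 = 1 := by
    have h := Complex.sq_norm Z
    rw [hZ, Complex.normSq_apply] at h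
    linarith
  have h2 : ‖u‖ ^ 2 = u.re ^ 2 + u.im ^ 2 := by
    rw [Complex.sq_norm, Complex.normSq_apply]
    ring
  have h3 : ‖Z + u‖ ^ 4 = ((Z.re + u.re) ^ 2 + (Z.im + u.im) ^ 2) ^ 2 := by
    have h : ‖Z + u‖ ^ 4 = (‖Z + u‖ ^ 2) ^ 2 := by ring
    rw [h, Complex.sq_norm, Complex.normSq_apply, Complex.add_re, Complex.add_im]
    ring
  have h4 : ((starRingEnd ℂ) Z * u).re = Z.re * u.re + Z.im * u.im := by
    simp [Complex.mul_re, Complex.conj_re, Complex.conj_im]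
  have h5 : ((starRingEnd ℂ) Z * (((‖u‖ ^ 2 : ℝ) : ℂ) * u)).re =
      (u.re ^ 2 + u.im ^ 2) * (Z.re * u.re + Z.im * u.im) := by
    rw [h2]
    have h : (starRingEnd ℂ) Z * (((u.re ^ 2 + u.im ^ 2 : ℝ) : ℂ) * u) =
        ((u.re ^ 2 + u.im ^ 2 : ℝ) : ℂ) * ((starRingEnd ℂ) Z * u) := by ring
    rw [h, Complex.re_ofReal_mul, h4]
  have h6 : ((starRingEnd ℂ) Z ^ 2 * u ^ 2).re =
      (Z.re * u.re + Z.im * u.im) ^ 2 - (Z.re * u.im - Z.im * u.re) ^ 2 := by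
    have h : (starRingEnd ℂ) Z ^ 2 * u ^ 2 =
        ((starRingEnd ℂ) Z * u) * ((starRingEnd ℂ) Z * u) := by ring
    rw [h, Complex.mul_re, h4]
    have h' : ((starRingEnd ℂ) Z * u).im = Z.re * u.im - Z.im * u.re := by
      simp [Complex.mul_im, Complex.conj_re, Complex.conj_im]
      ring
    rw [h']
    ring
  rw [h3, h4, h5, h6, h2]
  have h7 : (Z.re * u.re + Z.im * u.im) ^ 2 + (Z.re * u.im - Z.im * u.re) ^ 2 =
      (Z.re ^ 2 + Z.im ^ 2) * (u.re ^ 2 + u.im ^ 2) := by ring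
  rw [h1, one_mul] at h7
  have h8 : ((Z.re + u.re) ^ 2 + (Z.im + u.im) ^ 2) =
      (Z.re ^ 2 + Z.im ^ 2) + (u.re ^ 2 + u.im ^ 2) + 2 * (Z.re * u.re + Z.im * u.im) := by ring
  rw [h8, h1]
  linear_combination 2 * h7

/-- The part which does not depend on the value at `0`. -/
noncomputable def Kv (v : G p d → ℂ) : ℝ :=
  (∑ b, ((1 + ‖U (vz v) b‖ ^ 2) ^ 2 + 2 * ‖U (vz v) b‖ ^ 2)) / nn p d

theorem T4_up (hDE1 : DE1_Stmt) (v : G p d → ℂ) (hv : EV v) (Z : ℂ) (hZ : ‖Z‖ = 1) :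
    (T4f (up Z v)).re = Kv v + 4 * ((starRingEnd ℂ) Z * T3 v).re +
      2 * ((starRingEnd ℂ) Z ^ 2 * T2 v).re := by
  have hn : 0 < nn p d := nn_pos p d
  have hw : ∀ x, ‖up Z v x‖ = 1 := by
    intro x
    unfold up
    split_ifs
    · exact hZ
    · exact hv.1 x
  have h1 := (hDE1 p d (up Z v) hw).1
  have h2 : nn p d * (T4f (up Z v)).re = ∑ b, ‖∑ x, up Z v x * ch b x‖ ^ 4 := by
    have h := congrArg Complex.re h1
    rw [Complex.re_ofReal_mul, Complex.ofReal_re] at h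
    exact h
  have h3 : ∑ b, ‖∑ x, up Z v x * ch b x‖ ^ 4 =
      ∑ b, ((1 + ‖U (vz v) b‖ ^ 2) ^ 2 + 2 * ‖U (vz v) b‖ ^ 2) +
      4 * ((starRingEnd ℂ) Z * ∑ b, U (vz v) b).re +
      4 * ((starRingEnd ℂ) Z * ∑ b, ((‖U (vz v) b‖ ^ 2 : ℝ) : ℂ) * U (vz v) b).re +
      2 * ((starRingEnd ℂ) Z ^ 2 * ∑ b, U (vz v) b ^ 2).re := by
    rw [Finset.mul_sum, Finset.mul_sum, Finset.mul_sum, Complex.re_sum, Complex.re_sum,
      Complex.re_sum, Finset.mul_sum, Finset.mul_sum, Finset.mul_sum, ← Finset.sum_add_distrib,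
      ← Finset.sum_add_distrib, ← Finset.sum_add_distrib]
    refine Finset.sum_congr rfl fun b _ => ?_
    rw [U_up, four_add Z _ hZ]
  rw [sum_u, sum_u3, sum_u2 v hv.2, mul_zero, Complex.zero_re, mul_zero, add_zero] at h3
  have h4 : (starRingEnd ℂ) Z * ((nn p d : ℂ) * T3 v) =
      (nn p d : ℂ) * ((starRingEnd ℂ) Z * T3 v) := by ring
  have h5 : (starRingEnd ℂ) Z ^ 2 * ((nn p d : ℂ) * T2 v) =
      (nn p d : ℂ) * ((starRingEnd ℂ) Z ^ 2 * T2 v) := by ring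
  rw [h4, h5, Complex.re_ofReal_mul, Complex.re_ofReal_mul] at h3
  rw [h3] at h2
  unfold Kv
  generalize (∑ b, ((1 + ‖U (vz v) b‖ ^ 2) ^ 2 + 2 * ‖U (vz v) b‖ ^ 2)) = S at h2 ⊢
  have h6 : S = nn p d * (S / nn p d) := by field_simp
  have h7 : nn p d * (T4f (up Z v)).re = nn p d * (S / nn p d +
      4 * ((starRingEnd ℂ) Z * T3 v).re + 2 * ((starRingEnd ℂ) Z ^ 2 * T2 v).re) := by
    rw [h2]
    linarith
  exact mul_left_cancel₀ hn.ne' h7

/-- The third moment of a flat vector. -/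
theorem T3_flat (hDE1 : DE1_Stmt) (v : G p d → ℂ) (hv : EV v) (h0 : v 0 = 1)
    (hT : (T4f v).re = nn p d ^ 2) : T3 v = 1 - (nn p d : ℂ) - T2 v := by
  have hn : 0 < nn p d := nn_pos p d
  have hup : up 1 v = v := by
    funext x
    unfold up
    split_ifs with hx
    · rw [hx, h0]
    · rfl
  have hU : ∀ b, ∑ x, v x * ch b x = 1 + U (vz v) b := by
    intro b
    have := U_up 1 v b
    rw [hup] at this
    exact this
  have h1 := (hDE1 p d v hv.1).1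
  have h2 : nn p d * (T4f v).re = ∑ b, ‖∑ x, v x * ch b x‖ ^ 4 := by
    have h := congrArg Complex.re h1
    rw [Complex.re_ofReal_mul, Complex.ofReal_re] at h
    exact h
  have hpar : ∑ b, ‖∑ x, v x * ch b x‖ ^ 2 = nn p d * nn p d := by
    have h1 := parseval v
    have h2 : ∑ x : G p d, ‖v x‖ ^ 2 = nn p d := by
      rw [← card_G, Finset.sum_congr rfl fun x _ => by rw [hv.1 x, one_pow]]
      simp
    rw [h2] at h1
    exact h1
  have hsq : ∑ b : G p d, (‖∑ x, v x * ch b x‖ ^ 2 - nn p d) ^ 2 = 0 := by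
    have e : ∀ b : G p d, (‖∑ x, v x * ch b x‖ ^ 2 - nn p d) ^ 2 =
        ‖∑ x, v x * ch b x‖ ^ 4 - 2 * nn p d * ‖∑ x, v x * ch b x‖ ^ 2 + nn p d ^ 2 := by
      intro b
      ring
    rw [Finset.sum_congr rfl fun b _ => e b, Finset.sum_add_distrib, Finset.sum_sub_distrib,
      ← Finset.mul_sum, hpar, ← h2, hT, Finset.sum_const, Finset.card_univ, nsmul_eq_mul, card_G]
    ring
  have hflat : ∀ b : G p d, ‖1 + U (vz v) b‖ ^ 2 = nn p d := by
    intro b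
    have h := (Finset.sum_eq_zero_iff_of_nonneg (fun b _ => sq_nonneg _)).1 hsq b
      (Finset.mem_univ b)
    have h' := pow_eq_zero_iff (two_ne_zero) |>.1 h
    rw [hU] at h'
    linarith
  have key : ∀ b : G p d, ((‖U (vz v) b‖ ^ 2 : ℝ) : ℂ) * U (vz v) b =
      ((nn p d : ℂ) - 1) * U (vz v) b - U (vz v) b ^ 2 + (1 - (nn p d : ℂ)) +
        (U (vz v) b + (starRingEnd ℂ) (U (vz v) b)) := by
    intro b
    set u := U (vz v) b
    have hb := hflat b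
    have e1 : ((‖u‖ ^ 2 : ℝ) : ℂ) = u * (starRingEnd ℂ) u := by
      rw [Complex.mul_conj', Complex.ofReal_pow]
    have e2 : (1 + u) * (1 + (starRingEnd ℂ) u) = (nn p d : ℂ) := by
      have : (1 + u) * (starRingEnd ℂ) (1 + u) = (nn p d : ℂ) := by
        rw [Complex.mul_conj', ← Complex.ofReal_pow, hb]
      rw [map_add, map_one] at this
      exact this
    rw [e1]
    linear_combination (u - 1) * e2
  have h3 := sum_u3 v
  rw [Finset.sum_congr rfl fun b _ => key b, Finset.sum_add_distrib, Finset.sum_add_distrib,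
    Finset.sum_sub_distrib, Finset.sum_add_distrib, ← Finset.mul_sum, sum_u, sum_u2 v hv.2,
    ← map_sum, sum_u, map_zero, Finset.sum_const, Finset.card_univ, nsmul_eq_mul] at h3
  have hc : ((Fintype.card (G p d) : ℕ) : ℂ) = (nn p d : ℂ) := by
    have := card_G p d
    exact_mod_cast congrArg (fun r : ℝ => (r : ℂ)) this
  rw [hc] at h3
  have hn' : (nn p d : ℂ) ≠ 0 := by exact_mod_cast hn.ne'
  have h4 : (nn p d : ℂ) * T3 v = (nn p d : ℂ) * (1 - (nn p d : ℂ) - T2 v) := by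
    rw [← h3]
    ring
  exact mul_left_cancel₀ hn' h4

end fourier

/-! ### Taylor polynomials -/

section taylor

theorem fac_le {L : ℕ} (hL : 2 ≤ L) :
    ((L.succ : ℝ) * ((L.factorial * L : ℝ))⁻¹) ≤ 1 := by
  have h1 : (L.succ : ℝ) ≤ (L.factorial * L : ℝ) := by
    have h2 : L ≤ L.factorial := Nat.self_le_factorial L
    have h3 : L.succ ≤ L.factorial * L := by
      have : L * L ≤ L.factorial * L := Nat.mul_le_mul_right L h2
      have : L.succ ≤ L * L := by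
        rw [Nat.succ_eq_add_one]
        nlinarith
      omega
    exact_mod_cast h3
  have h4 : 0 < (L.factorial * L : ℝ) := by
    have := Nat.factorial_pos L
    have h5 : 0 < L := by omega
    positivity
  rw [← div_eq_mul_inv, div_le_one h4]
  exact h1

/-- The Taylor polynomial of an exponential sum. -/
theorem exp_taylor {ι : Type} (S : Finset ι) (c : ι → ℂ) (g : ι → ℝ) (η T : ℝ) (L : ℕ)
    (hL : 2 ≤ L) (hc : ∀ t ∈ S, ‖c t‖ ≤ 1) (hg : ∀ t ∈ S, |g t| ≤ η) (hT : 0 < T)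
    (hηT : η * T ≤ 1) (r : ℝ) (hr : |r| ≤ T) :
    ‖∑ t ∈ S, c t * Complex.exp (((r * g t : ℝ) : ℂ) * Complex.I) -
      ∑ k ∈ range L, (∑ t ∈ S, c t * (((g t : ℂ) * Complex.I) ^ k / (k.factorial : ℂ))) *
        (r : ℂ) ^ k‖ ≤
      (S.card : ℝ) * (η * T) ^ L * (|r| / T) ^ L := by
  have h1 : ∑ k ∈ range L, (∑ t ∈ S, c t * (((g t : ℂ) * Complex.I) ^ k /
      (k.factorial : ℂ))) * (r : ℂ) ^ k =
      ∑ t ∈ S, c t * ∑ k ∈ range L, (((r * g t : ℝ) : ℂ) * Complex.I) ^ k /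
        (k.factorial : ℂ) := by
    rw [Finset.sum_congr rfl fun k _ => Finset.sum_mul _ _ _, Finset.sum_comm]
    refine Finset.sum_congr rfl fun t _ => ?_
    rw [Finset.mul_sum]
    refine Finset.sum_congr rfl fun k _ => ?_
    push_cast
    rw [mul_pow, mul_pow, mul_pow]
    ring
  rw [h1, ← Finset.sum_sub_distrib]
  have h2 : ∀ t ∈ S, ‖c t * Complex.exp (((r * g t : ℝ) : ℂ) * Complex.I) -
      c t * ∑ k ∈ range L, (((r * g t : ℝ) : ℂ) * Complex.I) ^ k / (k.factorial : ℂ)‖ ≤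
      (η * T) ^ L * (|r| / T) ^ L := by
    intro t ht
    rw [← mul_sub, norm_mul]
    have h3 : ‖((r * g t : ℝ) : ℂ) * Complex.I‖ = |r| * |g t| := by
      rw [norm_mul, Complex.norm_I, mul_one, Complex.norm_real, Real.norm_eq_abs, abs_mul]
    have h4 : |r| * |g t| ≤ (η * T) * (|r| / T) := by
      have : (η * T) * (|r| / T) = |r| * η := by
        field_simp
      rw [this]
      exact mul_le_mul_of_nonneg_left (hg t ht) (abs_nonneg _)
    have h5 : |r| * |g t| ≤ 1 := by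
      calc |r| * |g t| ≤ T * η :=
            mul_le_mul hr (hg t ht) (abs_nonneg _) hT.le
        _ ≤ 1 := by rw [mul_comm]; exact hηT
    have h6 := Complex.exp_bound (x := ((r * g t : ℝ) : ℂ) * Complex.I) (by rw [h3]; exact h5)
      (n := L) (by omega)
    have h7 : ‖((r * g t : ℝ) : ℂ) * Complex.I‖ ^ L *
        ((L.succ : ℝ) * ((L.factorial * L : ℝ))⁻¹) ≤ ((η * T) * (|r| / T)) ^ L := by
      calc ‖((r * g t : ℝ) : ℂ) * Complex.I‖ ^ L * ((L.succ : ℝ) * ((L.factorial * L : ℝ))⁻¹)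
          ≤ ‖((r * g t : ℝ) : ℂ) * Complex.I‖ ^ L * 1 :=
            mul_le_mul_of_nonneg_left (fac_le hL) (by positivity)
        _ = (|r| * |g t|) ^ L := by rw [mul_one, h3]
        _ ≤ ((η * T) * (|r| / T)) ^ L := pow_le_pow_left₀ (by positivity) h4 L
    rw [← mul_pow]
    calc ‖c t‖ * ‖Complex.exp (((r * g t : ℝ) : ℂ) * Complex.I) -
          ∑ k ∈ range L, (((r * g t : ℝ) : ℂ) * Complex.I) ^ k / (k.factorial : ℂ)‖
        ≤ 1 * ((η * T) * (|r| / T)) ^ L := by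
          apply mul_le_mul (hc t ht) (le_trans h6 h7) (norm_nonneg _) zero_le_one
      _ = _ := one_mul _
  calc ‖∑ t ∈ S, (c t * Complex.exp (((r * g t : ℝ) : ℂ) * Complex.I) -
      c t * ∑ k ∈ range L, (((r * g t : ℝ) : ℂ) * Complex.I) ^ k / (k.factorial : ℂ))‖
      ≤ ∑ t ∈ S, (η * T) ^ L * (|r| / T) ^ L := norm_sum_le_of_le _ h2
    _ = _ := by
        rw [Finset.sum_const, nsmul_eq_mul]
        ring

/-- The coefficients of the Taylor polynomial of `exp (-2 σ r²)`. -/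
noncomputable def gc (σ : ℝ) (k : ℕ) : ℝ :=
  if Even k then (-2 * σ) ^ (k / 2) / ((k / 2).factorial : ℝ) else 0

theorem gc_sum (σ r : ℝ) (m : ℕ) : ∑ k ∈ range (2 * m), gc σ k * r ^ k =
    ∑ j ∈ range m, (-2 * σ * r ^ 2) ^ j / (j.factorial : ℝ) := by
  induction m with
  | zero => simp
  | succ m ih =>
    have e : 2 * (m + 1) = 2 * m + 1 + 1 := by ring
    rw [e, Finset.sum_range_succ, Finset.sum_range_succ, ih, Finset.sum_range_succ]
    have h1 : gc σ (2 * m) = (-2 * σ) ^ m / (m.factorial : ℝ) := by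
      unfold gc
      rw [if_pos (even_two_mul m), Nat.mul_div_cancel_left m (by norm_num)]
    have h2 : gc σ (2 * m + 1) = 0 := by
      unfold gc
      rw [if_neg]
      rw [Nat.not_even_iff_odd]
      exact odd_two_mul_add_one m
    rw [h1, h2, zero_mul, add_zero, pow_mul, mul_pow (-2 * σ)]
    ring

theorem gauss_taylor (σ T : ℝ) (m : ℕ) (hm : 2 ≤ m) (hσ : 0 ≤ σ) (hT : 0 < T)
    (h : 2 * σ * T ^ 2 ≤ 1) (r : ℝ) (hr : |r| ≤ T) :
    |Real.exp (-2 * σ * r ^ 2) - ∑ k ∈ range (2 * m), gc σ k * r ^ k| ≤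
      (2 * σ * T ^ 2) ^ m * (|r| / T) ^ (2 * m) := by
  rw [gc_sum]
  have h1 : |(-2 * σ * r ^ 2)| = 2 * σ * r ^ 2 := by
    rw [abs_of_nonpos (by nlinarith [mul_nonneg hσ (sq_nonneg r)])]
    ring
  have h2 : r ^ 2 ≤ T ^ 2 := by
    rw [← sq_abs r]
    exact pow_le_pow_left₀ (abs_nonneg r) hr 2
  have h3 : 2 * σ * r ^ 2 ≤ 1 := by
    have : 2 * σ * r ^ 2 ≤ 2 * σ * T ^ 2 := mul_le_mul_of_nonneg_left h2 (by positivity)
    linarith
  have h4 := Real.exp_bound (x := -2 * σ * r ^ 2) (by rw [h1]; exact h3) (n := m) (by omega)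
  have h5 : ((m.succ : ℝ) / (m.factorial * m)) ≤ 1 := by
    rw [div_eq_mul_inv]
    exact fac_le hm
  have h6 : (2 * σ * T ^ 2) ^ m * (|r| / T) ^ (2 * m) = (2 * σ * r ^ 2) ^ m := by
    rw [pow_mul, ← mul_pow, div_pow, sq_abs]
    congr 1
    field_simp
  rw [h6]
  calc |Real.exp (-2 * σ * r ^ 2) - ∑ j ∈ range m, (-2 * σ * r ^ 2) ^ j / (j.factorial : ℝ)|
      ≤ |(-2 * σ * r ^ 2)| ^ m * ((m.succ : ℝ) / (m.factorial * m)) := h4
    _ ≤ |(-2 * σ * r ^ 2)| ^ m * 1 := mul_le_mul_of_nonneg_left h5 (by positivity)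
    _ = _ := by rw [mul_one, h1]

theorem deriv_sum {ι : Type} (S : Finset ι) (c : ι → ℂ) (g : ι → ℝ) :
    HasDerivAt (fun r : ℝ => ∑ t ∈ S, c t * Complex.exp (((r * g t : ℝ) : ℂ) * Complex.I))
      (∑ t ∈ S, c t * ((g t : ℂ) * Complex.I)) 0 := by
  apply HasDerivAt.fun_sum
  intro t _
  have h1 : HasDerivAt (fun r : ℝ => ((r * g t : ℝ) : ℂ) * Complex.I)
      ((g t : ℂ) * Complex.I) 0 := by
    have h2 : HasDerivAt (fun r : ℝ => (r : ℂ)) 1 0 := Complex.ofRealCLM.hasDerivAt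
    have h3 := (h2.mul_const ((g t : ℂ))).mul_const Complex.I
    rw [one_mul] at h3
    refine h3.congr_of_eventuallyEq (Filter.Eventually.of_forall fun r => ?_)
    push_cast
    ring
  have h4 := (h1.cexp).const_mul (c t)
  simpa using h4

/-- The first derivative vanishes at a minimum. -/
theorem deriv_zero {ι : Type} (S : Finset ι) (c : ι → ℂ) (g : ι → ℝ) (B : ℝ)
    (h0 : ∑ t ∈ S, c t = (B : ℂ))
    (hge : ∀ r : ℝ, B ≤ (∑ t ∈ S, c t * Complex.exp (((r * g t : ℝ) : ℂ) * Complex.I)).re)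
    (him : ∀ r : ℝ, (∑ t ∈ S, c t * Complex.exp (((r * g t : ℝ) : ℂ) * Complex.I)).im = 0) :
    ∑ t ∈ S, c t * ((g t : ℂ) * Complex.I) = 0 := by
  have h1 := deriv_sum S c g
  have h2 := Complex.reCLM.hasFDerivAt.comp_hasDerivAt (0 : ℝ) h1
  have h3 := Complex.imCLM.hasFDerivAt.comp_hasDerivAt (0 : ℝ) h1
  apply Complex.ext
  · have h4 : IsLocalMin (Complex.reCLM ∘ fun r : ℝ =>
        ∑ t ∈ S, c t * Complex.exp (((r * g t : ℝ) : ℂ) * Complex.I)) 0 := by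
      apply Filter.Eventually.of_forall
      intro r
      have e : (Complex.reCLM ∘ fun r : ℝ =>
        ∑ t ∈ S, c t * Complex.exp (((r * g t : ℝ) : ℂ) * Complex.I)) 0 = B := by
        simp only [Function.comp_apply, zero_mul, Complex.ofReal_zero, Complex.exp_zero, mul_one]
        rw [h0]
        simp
      rw [e]
      exact hge r
    have h5 := h4.hasDerivAt_eq_zero h2
    simpa using h5
  · have h4 : HasDerivAt (Complex.imCLM ∘ fun r : ℝ =>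
        ∑ t ∈ S, c t * Complex.exp (((r * g t : ℝ) : ℂ) * Complex.I)) 0 0 := by
      have e : (Complex.imCLM ∘ fun r : ℝ =>
        ∑ t ∈ S, c t * Complex.exp (((r * g t : ℝ) : ℂ) * Complex.I)) = fun _ => (0 : ℝ) := by
        funext r
        exact him r
      rw [e]
      exact hasDerivAt_const _ _
    have h5 := h3.unique h4
    simpa using h5

/-- The fourth moment along the ray. -/
theorem ray4 {ι : Type} (S : Finset ι) (c : ι → ℂ) (g : ι → ℝ) (η T σ B M CK : ℝ) (m : ℕ)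
    (hRAP : ∀ (D : ℝ → ℂ) (a : ℕ → ℂ)
      (E M T : ℝ), 1 ≤ T → 0 ≤ E → 0 ≤ M →
      (∀ τ : ℝ, |τ| ≤ T → ‖D τ - ∑ k ∈ range (2 * m - 1 + 1), a k * (τ : ℂ) ^ k‖ ≤
        E * (|τ| / T) ^ (2 * m - 1 + 1)) →
      (∀ τ : ℝ, 0 ≤ τ → τ ≤ T → ‖D τ‖ ≤ M) →
      ‖D 1 - a 0 - a 1‖ ≤ CK * (M + E) / T ^ 2 ∧ ‖D 1 - D 0‖ ≤ CK * (M + E) / T)
    (hm : 2 ≤ m)
    (hc : ∀ t ∈ S, ‖c t‖ ≤ 1) (hg : ∀ t ∈ S, |g t| ≤ η) (hT : 1 ≤ T)
    (hηT : η * T ≤ 1) (hσ : 0 ≤ σ) (hσT : 2 * σ * T ^ 2 ≤ 1) (hB : 0 ≤ B)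
    (hE : (S.card : ℝ) * (η * T) ^ (2 * m) + B * (2 * σ * T ^ 2) ^ m ≤ 1)
    (h0 : ∑ t ∈ S, c t = (B : ℂ))
    (hge : ∀ r : ℝ, B ≤ (∑ t ∈ S, c t * Complex.exp (((r * g t : ℝ) : ℂ) * Complex.I)).re)
    (him : ∀ r : ℝ, (∑ t ∈ S, c t * Complex.exp (((r * g t : ℝ) : ℂ) * Complex.I)).im = 0)
    (hM : ∀ r : ℝ, 0 ≤ r → r ≤ T →
      |(∑ t ∈ S, c t * Complex.exp (((r * g t : ℝ) : ℂ) * Complex.I)).re - 2 * B +
        Real.exp (-2 * σ * r ^ 2) * B| ≤ M) :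
    |(∑ t ∈ S, c t * Complex.exp (((1 * g t : ℝ) : ℂ) * Complex.I)).re - 2 * B +
        Real.exp (-2 * σ) * B| ≤ CK * (M + 1) / T ^ 2 := by
  have hT0 : 0 < T := by linarith
  have h2m : 2 * m - 1 + 1 = 2 * m := by omega
  rw [h2m] at hRAP
  set F : ℝ → ℂ := fun r => ∑ t ∈ S, c t * Complex.exp (((r * g t : ℝ) : ℂ) * Complex.I) with hF
  set aF : ℕ → ℂ := fun k => ∑ t ∈ S, c t * (((g t : ℂ) * Complex.I) ^ k / (k.factorial : ℂ))
    with haF
  set D : ℝ → ℂ := fun r => F r - 2 * (B : ℂ) + ((Real.exp (-2 * σ * r ^ 2) * B : ℝ) : ℂ) with hD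
  set a : ℕ → ℂ := fun k => aF k + (if k = 0 then -2 * (B : ℂ) else 0) + ((gc σ k * B : ℝ) : ℂ)
    with ha
  have hM0 : 0 ≤ M := le_trans (abs_nonneg _) (hM 0 le_rfl hT0.le)
  have happ : ∀ r : ℝ, |r| ≤ T → ‖D r - ∑ k ∈ range (2 * m), a k * (r : ℂ) ^ k‖ ≤
      1 * (|r| / T) ^ (2 * m) := by
    intro r hr
    have h1 := exp_taylor S c g η T (2 * m) (by omega) hc hg hT0 hηT r hr
    have h2 := gauss_taylor σ T m hm hσ hT0 hσT r hr
    have h3 : D r - ∑ k ∈ range (2 * m), a k * (r : ℂ) ^ k =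
        (F r - ∑ k ∈ range (2 * m), aF k * (r : ℂ) ^ k) +
        (((Real.exp (-2 * σ * r ^ 2) - ∑ k ∈ range (2 * m), gc σ k * r ^ k : ℝ) : ℂ) * (B : ℂ)) := by
      have h4 : ∑ k ∈ range (2 * m), a k * (r : ℂ) ^ k =
          ∑ k ∈ range (2 * m), aF k * (r : ℂ) ^ k + (-2 * (B : ℂ)) +
          ((∑ k ∈ range (2 * m), gc σ k * r ^ k : ℝ) : ℂ) * (B : ℂ) := by
        have h5 : ∑ k ∈ range (2 * m), (if k = 0 then -2 * (B : ℂ) else 0) * (r : ℂ) ^ k =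
            -2 * (B : ℂ) := by
          rw [Finset.sum_eq_single_of_mem 0 (Finset.mem_range.2 (by omega))]
          · simp
          · intro k _ hk
            rw [if_neg hk, zero_mul]
        have h6 : ((∑ k ∈ range (2 * m), gc σ k * r ^ k : ℝ) : ℂ) * (B : ℂ) =
            ∑ k ∈ range (2 * m), ((gc σ k * B : ℝ) : ℂ) * (r : ℂ) ^ k := by
          push_cast
          rw [Finset.sum_mul]
          refine Finset.sum_congr rfl fun k _ => ?_
          ring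
        rw [← h5, h6, ← Finset.sum_add_distrib, ← Finset.sum_add_distrib]
        refine Finset.sum_congr rfl fun k _ => ?_
        simp only [ha]
        ring
      rw [h4]
      simp only [hD]
      push_cast
      ring
    rw [h3]
    have h7 : ‖((Real.exp (-2 * σ * r ^ 2) - ∑ k ∈ range (2 * m), gc σ k * r ^ k : ℝ) : ℂ) *
        (B : ℂ)‖ ≤ B * (2 * σ * T ^ 2) ^ m * (|r| / T) ^ (2 * m) := by
      rw [norm_mul, Complex.norm_real, Complex.norm_real, Real.norm_eq_abs, Real.norm_eq_abs,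
        abs_of_nonneg hB]
      calc |Real.exp (-2 * σ * r ^ 2) - ∑ k ∈ range (2 * m), gc σ k * r ^ k| * B
          ≤ ((2 * σ * T ^ 2) ^ m * (|r| / T) ^ (2 * m)) * B :=
            mul_le_mul_of_nonneg_right h2 hB
        _ = _ := by ring
    calc ‖(F r - ∑ k ∈ range (2 * m), aF k * (r : ℂ) ^ k) +
        (((Real.exp (-2 * σ * r ^ 2) - ∑ k ∈ range (2 * m), gc σ k * r ^ k : ℝ) : ℂ) * (B : ℂ))‖
        ≤ (S.card : ℝ) * (η * T) ^ (2 * m) * (|r| / T) ^ (2 * m) +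
          B * (2 * σ * T ^ 2) ^ m * (|r| / T) ^ (2 * m) :=
          le_trans (norm_add_le _ _) (add_le_add h1 h7)
      _ = ((S.card : ℝ) * (η * T) ^ (2 * m) + B * (2 * σ * T ^ 2) ^ m) *
          (|r| / T) ^ (2 * m) := by ring
      _ ≤ 1 * (|r| / T) ^ (2 * m) :=
          mul_le_mul_of_nonneg_right hE (by positivity)
  have hDre : ∀ r : ℝ, D r = (((F r).re - 2 * B + Real.exp (-2 * σ * r ^ 2) * B : ℝ) : ℂ) := by
    intro r
    have h1 : F r = (((F r).re : ℝ) : ℂ) := by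
      apply Complex.ext
      · simp
      · simp only [Complex.ofReal_im]
        exact him r
    simp only [hD]
    rw [h1]
    push_cast
    simp
  have hDM : ∀ r : ℝ, 0 ≤ r → r ≤ T → ‖D r‖ ≤ M := by
    intro r h1 h2
    rw [hDre, Complex.norm_real, Real.norm_eq_abs]
    exact hM r h1 h2
  have h1 := (hRAP D a 1 M T hT zero_le_one hM0 happ hDM).1
  have ha0 : a 0 = 0 := by
    simp only [ha, haF]
    simp only [pow_zero, Nat.factorial_zero, Nat.cast_one, div_one, mul_one, if_true]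
    rw [h0]
    have : gc σ 0 = 1 := by
      unfold gc
      simp
    rw [this]
    push_cast
    ring
  have ha1 : a 1 = 0 := by
    simp only [ha, haF]
    simp only [pow_one, Nat.factorial_one, Nat.cast_one, div_one]
    rw [deriv_zero S c g B h0 hge him]
    have : gc σ 1 = 0 := by
      unfold gc
      rw [if_neg]
      decide
    rw [this]
    simp
  rw [ha0, ha1, sub_zero, sub_zero, hDre, Complex.norm_real, Real.norm_eq_abs] at h1
  have e : -2 * σ * (1 : ℝ) ^ 2 = -2 * σ := by ring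
  rw [e] at h1
  exact h1

/-- Exponential sums along the ray. -/
theorem ray1 {ι : Type} (S : Finset ι) (c : ι → ℂ) (g : ι → ℝ) (η T M CK : ℝ) (m : ℕ)
    (hRAP : ∀ (D : ℝ → ℂ) (a : ℕ → ℂ)
      (E M T : ℝ), 1 ≤ T → 0 ≤ E → 0 ≤ M →
      (∀ τ : ℝ, |τ| ≤ T → ‖D τ - ∑ k ∈ range (2 * m - 1 + 1), a k * (τ : ℂ) ^ k‖ ≤
        E * (|τ| / T) ^ (2 * m - 1 + 1)) →
      (∀ τ : ℝ, 0 ≤ τ → τ ≤ T → ‖D τ‖ ≤ M) →
      ‖D 1 - a 0 - a 1‖ ≤ CK * (M + E) / T ^ 2 ∧ ‖D 1 - D 0‖ ≤ CK * (M + E) / T)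
    (hm : 2 ≤ m)
    (hc : ∀ t ∈ S, ‖c t‖ ≤ 1) (hg : ∀ t ∈ S, |g t| ≤ η) (hT : 1 ≤ T)
    (hηT : η * T ≤ 1)
    (hE : (S.card : ℝ) * (η * T) ^ (2 * m) ≤ 1)
    (hM : ∀ r : ℝ, 0 ≤ r → r ≤ T →
      ‖∑ t ∈ S, c t * Complex.exp (((r * g t : ℝ) : ℂ) * Complex.I)‖ ≤ M) :
    ‖∑ t ∈ S, c t * Complex.exp (((1 * g t : ℝ) : ℂ) * Complex.I) -
      ∑ t ∈ S, c t * Complex.exp (((0 * g t : ℝ) : ℂ) * Complex.I)‖ ≤ CK * (M + 1) / T := by
  have hT0 : 0 < T := by linarith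
  have h2m : 2 * m - 1 + 1 = 2 * m := by omega
  rw [h2m] at hRAP
  have hM0 : 0 ≤ M := le_trans (norm_nonneg _) (hM 0 le_rfl hT0.le)
  refine (hRAP (fun r : ℝ => ∑ t ∈ S, c t * Complex.exp (((r * g t : ℝ) : ℂ) * Complex.I))
    (fun k => ∑ t ∈ S, c t * (((g t : ℂ) * Complex.I) ^ k / (k.factorial : ℂ))) 1 M T hT
    zero_le_one hM0 ?_ hM).2
  intro r hr
  refine le_trans (exp_taylor S c g η T (2 * m) (by omega) hc hg hT0 hηT r hr) ?_
  exact mul_le_mul_of_nonneg_right hE (by positivity)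

end taylor

/-! ### The vectors along the ray -/

section ray

set_option linter.unusedSectionVars false

variable {p d : ℕ} [NeZero p]

/-- The increments of the eigenvalues, `0` at `0`. -/
noncomputable def gz (H A : Finset (G p d)) (δ : ZMod p → ℝ) (x : G p d) : ℝ :=
  if x = 0 then 0 else gd H A δ x

theorem gd_smul (H A : Finset (G p d)) (δ : ZMod p → ℝ) (r : ℝ) (x : G p d) :
    gd H A (fun a => r * δ a) x = r * gd H A δ x := by
  unfold gd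
  rw [Finset.mul_sum]
  exact Finset.sum_congr rfl fun h _ => by ring

theorem gd_zero (H A : Finset (G p d)) (x : G p d) : gd H A 0 x = 0 := by
  unfold gd
  simp

theorem vd_ray (H A : Finset (G p d)) (α : ZMod p) (δ : ZMod p → ℝ) (r : ℝ) (x : G p d) :
    vd H A α (fun a => r * δ a) x =
      vd H A α 0 x * Complex.exp (((r * gz H A δ x : ℝ) : ℂ) * Complex.I) := by
  unfold vd up gz
  by_cases hx : x = 0
  · simp [hx]
  · rw [if_neg hx, if_neg hx, if_neg hx]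
    dsimp only
    rw [gd_smul, gd_zero]
    simp

theorem conj_exp (y : ℝ) : (starRingEnd ℂ) (Complex.exp ((y : ℂ) * Complex.I)) =
    Complex.exp (((-y : ℝ) : ℂ) * Complex.I) := by
  rw [← Complex.exp_conj]
  simp

/-- The exponent of a quadruple. -/
def g4 (g : G p d → ℝ) (t : G p d × G p d × G p d) : ℝ :=
  g t.1 + g t.2.1 - g t.2.2 - g (t.1 + t.2.1 - t.2.2)

theorem q4_ray (v : G p d → ℂ) (g : G p d → ℝ) (r : ℝ) (t : G p d × G p d × G p d) :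
    q4 (fun x => v x * Complex.exp (((r * g x : ℝ) : ℂ) * Complex.I)) t =
      q4 v t * Complex.exp (((r * g4 g t : ℝ) : ℂ) * Complex.I) := by
  have h1 : Complex.exp (((r * g4 g t : ℝ) : ℂ) * Complex.I) =
      Complex.exp (((r * g t.1 : ℝ) : ℂ) * Complex.I) *
      Complex.exp (((r * g t.2.1 : ℝ) : ℂ) * Complex.I) *
      Complex.exp (((-(r * g t.2.2) : ℝ) : ℂ) * Complex.I) *
      Complex.exp (((-(r * g (t.1 + t.2.1 - t.2.2)) : ℝ) : ℂ) * Complex.I) := by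
    rw [← Complex.exp_add, ← Complex.exp_add, ← Complex.exp_add]
    congr 1
    unfold g4
    push_cast
    ring
  rw [h1]
  unfold q4
  simp only [map_mul]
  rw [conj_exp, conj_exp]
  ring

theorem T4_ray (v : G p d → ℂ) (g : G p d → ℝ) (r : ℝ) :
    T4f (fun x => v x * Complex.exp (((r * g x : ℝ) : ℂ) * Complex.I)) =
      ∑ t : G p d × G p d × G p d,
        q4 v t * Complex.exp (((r * g4 g t : ℝ) : ℂ) * Complex.I) := by
  unfold T4f
  exact Finset.sum_congr rfl fun t _ => q4_ray v g r t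

open Classical in
theorem T3_ray (v : G p d → ℂ) (g : G p d → ℝ) (r : ℝ) :
    T3 (fun x => v x * Complex.exp (((r * g x : ℝ) : ℂ) * Complex.I)) =
      ∑ t ∈ (univ : Finset (G p d × G p d)).filter fun t => t.1 ≠ 0 ∧ t.2 ≠ 0 ∧ t.1 + t.2 ≠ 0,
        (v t.1 * v t.2 * (starRingEnd ℂ) (v (t.1 + t.2))) *
          Complex.exp (((r * (g t.1 + g t.2 - g (t.1 + t.2)) : ℝ) : ℂ) * Complex.I) := by
  unfold T3
  refine Finset.sum_congr rfl fun t _ => ?_
  have h1 : Complex.exp (((r * (g t.1 + g t.2 - g (t.1 + t.2)) : ℝ) : ℂ) * Complex.I) =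
      Complex.exp (((r * g t.1 : ℝ) : ℂ) * Complex.I) *
      Complex.exp (((r * g t.2 : ℝ) : ℂ) * Complex.I) *
      Complex.exp (((-(r * g (t.1 + t.2)) : ℝ) : ℂ) * Complex.I) := by
    rw [← Complex.exp_add, ← Complex.exp_add]
    congr 1
    push_cast
    ring
  rw [h1]
  simp only [map_mul]
  rw [conj_exp]
  ring

theorem T2_ray (v : G p d → ℂ) (g : G p d → ℝ) (r : ℝ) :
    T2 (fun x => v x * Complex.exp (((r * g x : ℝ) : ℂ) * Complex.I)) =
      ∑ x ∈ (univ : Finset (G p d)).erase 0,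
        v x ^ 2 * Complex.exp (((r * (2 * g x) : ℝ) : ℂ) * Complex.I) := by
  unfold T2
  refine Finset.sum_congr rfl fun x _ => ?_
  have h1 : Complex.exp (((r * (2 * g x) : ℝ) : ℂ) * Complex.I) =
      Complex.exp (((r * g x : ℝ) : ℂ) * Complex.I) ^ 2 := by
    rw [sq, ← Complex.exp_add]
    congr 1
    push_cast
    ring
  rw [h1, mul_pow]

theorem vd_ray' (H A : Finset (G p d)) (α : ZMod p) (δ : ZMod p → ℝ) (r : ℝ) :
    vd H A α (fun a => r * δ a) = fun x =>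
      vd H A α 0 x * Complex.exp (((r * gz H A δ x : ℝ) : ℂ) * Complex.I) := by
  funext x
  exact vd_ray H A α δ r x

theorem up_vd (H A : Finset (G p d)) (α : ZMod p) (δ : ZMod p → ℝ) :
    up 1 (vd H A α δ) = vd H A α δ := by
  funext x
  unfold vd up
  by_cases hx : x = 0
  · rw [if_pos hx, if_pos hx]
  · rw [if_neg hx]

theorem sig_smul (δ : ZMod p → ℝ) (r : ℝ) :
    sig p d (fun a => r * δ a) = r ^ 2 * sig p d δ := by
  unfold sig
  have h1 : ∑ a, (r * δ a) ^ 2 = r ^ 2 * ∑ a, δ a ^ 2 := by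
    rw [Finset.mul_sum]
    exact Finset.sum_congr rfl fun a _ => by ring
  rw [h1]
  ring

theorem EM_smul {δ : ZMod p → ℝ} (h : EM δ) (r : ℝ) : EM fun a => r * δ a := by
  refine ⟨fun a => by dsimp only; rw [h.1], ?_⟩
  rw [← Finset.mul_sum, h.2, mul_zero]

theorem EM_zero : EM (0 : ZMod p → ℝ) := ⟨fun _ => rfl, by simp⟩

theorem q4_norm {v : G p d → ℂ} (hv : ∀ x, ‖v x‖ = 1) (t : G p d × G p d × G p d) :
    ‖q4 v t‖ = 1 := by
  unfold q4
  rw [norm_mul, norm_mul, norm_mul, RCLike.norm_conj, RCLike.norm_conj, hv, hv, hv, hv]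
  norm_num

end ray

/-! ### The main estimate -/

section main

set_option linter.unusedSectionVars false

variable {p d : ℕ} [NeZero p]

theorem apx (hDE2 : DE2_Stmt) (hWRE : WRE_Stmt) (hp : p.Prime) (hp2 : p ≠ 2)
    (H A : Finset (G p d)) (α : ZMod p) (δ : ZMod p → ℝ) (hδ : EM δ) (Z : ℂ) (hZ : ‖Z‖ = 1)
    (h : ℝ) (h1 : 1 ≤ h) (hN : nn p d = h ^ 10) (h3 : ‖T3 (vd H A α δ)‖ ≤ h ^ 11)
    (h2 : ‖T2 (vd H A α δ)‖ ≤ h ^ 6) :
    (S4 (vd H A α δ)).im = 0 ∧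
      |(T4f (up Z (vd H A α δ))).re - 2 * nn p d ^ 2 - (S4 (vd H A α δ)).re| ≤
        ((p : ℝ) ^ 2 + 10) * h ^ 12 := by
  obtain ⟨-, -, w3, w4, -⟩ := hWRE p d hp hp2
  have hev := w4 H A α δ Z hδ hZ
  obtain ⟨i1, i2, -, -⟩ := hDE2 p d hp hp2 (up Z (vd H A α δ)) hev
  obtain ⟨e4, e3, e2, -, -⟩ := w3 Z (vd H A α δ)
  rw [e4] at i1 i2
  rw [e3, e2] at i2
  have hz : up Z (vd H A α δ) 0 = Z := by
    unfold up
    rw [if_pos rfl]
  rw [hz] at i2
  refine ⟨i1, ?_⟩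
  have h4 : |((starRingEnd ℂ) Z * T3 (vd H A α δ)).re| ≤ h ^ 11 := by
    refine le_trans (Complex.abs_re_le_norm _) ?_
    rw [norm_mul, RCLike.norm_conj, hZ, one_mul]
    exact h3
  have h5 : ‖T2 (vd H A α δ)‖ ^ 2 ≤ h ^ 12 := by
    calc ‖T2 (vd H A α δ)‖ ^ 2 ≤ (h ^ 6) ^ 2 := pow_le_pow_left₀ (norm_nonneg _) h2 2
      _ = h ^ 12 := by ring
  have h6 : h ^ 10 ≤ h ^ 12 := pow_le_pow_right₀ h1 (by norm_num)
  have h7 : h ^ 11 ≤ h ^ 12 := pow_le_pow_right₀ h1 (by norm_num)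
  have h8 : h ^ 6 ≤ h ^ 12 := pow_le_pow_right₀ h1 (by norm_num)
  have h9 : ((p : ℝ) ^ 2 + 3) * nn p d ≤ ((p : ℝ) ^ 2 + 3) * h ^ 12 := by
    rw [hN]
    exact mul_le_mul_of_nonneg_left h6 (by positivity)
  rw [abs_le] at i2 h4 ⊢
  constructor
  · linarith [i2.1, h4.1, h4.2]
  · linarith [i2.2, h4.1, h4.2]

/-- The uniform event in terms of `h = n^{1/10}` and `q = n^τ`. -/
theorem WU_conv (C : ℝ) (H A : Finset (G p d)) (α : ZMod p) (hW : WU C H A α) (h q : ℝ)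
    (hh : h = nn p d ^ (1 / 10 : ℝ)) (hq : q = nn p d ^ tau p) (δ : ZMod p → ℝ) (hδ : EM δ)
    (hr : ∀ a, |δ a| ≤ rn C p d) :
    ‖S4 (vd H A α δ) - (Real.exp (-2 * sig p d δ) : ℂ) * S4 (vd H A α 0)‖ ≤
        (nn p d ^ 2 + Real.exp (-2 * sig p d δ) * ‖S4 (vd H A α 0)‖) / q ^ 8 ∧
      ‖T3 (vd H A α δ)‖ ≤ h ^ 11 ∧ ‖T2 (vd H A α δ)‖ ≤ h ^ 6 := by
  have hn : 0 < nn p d := nn_pos p d
  obtain ⟨w1, w2, w3⟩ := hW δ hδ hr
  have e1 : nn p d ^ (-8 * tau p) = 1 / q ^ 8 := by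
    rw [hq, ← Real.rpow_natCast, ← Real.rpow_mul hn.le, one_div, ← Real.rpow_neg hn.le]
    congr 1
    push_cast
    ring
  have e2 : nn p d ^ (11 / 10 : ℝ) = h ^ 11 := by
    rw [hh, ← Real.rpow_natCast, ← Real.rpow_mul hn.le]
    congr 1
    norm_num
  have e3 : nn p d ^ (3 / 5 : ℝ) = h ^ 6 := by
    rw [hh, ← Real.rpow_natCast, ← Real.rpow_mul hn.le]
    congr 1
    norm_num
  rw [e1] at w1
  rw [e2] at w2
  rw [e3] at w3
  refine ⟨?_, w2, w3⟩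
  calc ‖S4 (vd H A α δ) - (Real.exp (-2 * sig p d δ) : ℂ) * S4 (vd H A α 0)‖
      ≤ 1 / q ^ 8 * (nn p d ^ 2 + Real.exp (-2 * sig p d δ) * ‖S4 (vd H A α 0)‖) := w1
    _ = _ := by ring

theorem re_diff {x y : ℂ} {e B : ℝ} (h : ‖x - (e : ℂ) * y‖ ≤ B) : |x.re - e * y.re| ≤ B := by
  have h1 := le_trans (Complex.abs_re_le_norm _) h
  rw [Complex.sub_re, Complex.re_ofReal_mul] at h1
  exact h1

theorem norm_real {x : ℂ} (h : x.im = 0) : ‖x‖ = |x.re| := by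
  have h1 : x = ((x.re : ℝ) : ℂ) := Complex.ext (by simp) (by simpa using h)
  rw [h1, Complex.norm_real, Real.norm_eq_abs]
  simp

theorem exp_le {x : ℝ} (h0 : 0 ≤ x) : Real.exp (-x) ≤ 1 - x + x ^ 2 / 2 := by
  have h3 : Real.exp (-x) * Real.exp x = 1 := by
    rw [← Real.exp_add]
    simp
  have h4 : 1 + x + x ^ 2 / 2 ≤ Real.exp x := Real.quadratic_le_exp_of_nonneg h0
  have h5 : 0 < Real.exp (-x) := Real.exp_pos _
  have h6 : 1 ≤ (1 - x + x ^ 2 / 2) * (1 + x + x ^ 2 / 2) := by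
    have : (1 - x + x ^ 2 / 2) * (1 + x + x ^ 2 / 2) = 1 + x ^ 4 / 4 := by ring
    rw [this]
    linarith [pow_nonneg h0 4]
  have h7 : 0 ≤ 1 - x + x ^ 2 / 2 := by nlinarith [sq_nonneg (x - 1)]
  by_contra hcon
  push Not at hcon
  have h8 : (1 - x + x ^ 2 / 2) * (1 + x + x ^ 2 / 2) < Real.exp (-x) * Real.exp x := by
    calc (1 - x + x ^ 2 / 2) * (1 + x + x ^ 2 / 2)
        < Real.exp (-x) * (1 + x + x ^ 2 / 2) :=
          mul_lt_mul_of_pos_right hcon (by positivity)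
      _ ≤ Real.exp (-x) * Real.exp x := mul_le_mul_of_nonneg_left h4 h5.le
  linarith

/-- The size conditions. -/
structure Sz (P N h q CK C : ℝ) (m : ℕ) : Prop where
  hN : N = h ^ 10
  m2 : 2 ≤ m
  P0 : 0 < P
  CK0 : 0 ≤ CK
  q8 : 8 ≤ q
  qp : 24 * P ^ 2 ≤ q
  qc : 20 * CK ≤ q
  qk : P ^ 2 + 10 ≤ q
  qs : 256 * CK ^ 2 ≤ q
  hq : q ^ 10 ≤ h
  N8 : N ^ 8 ≤ q ^ (2 * m)
  N1 : 2 * (24 * P ^ 2) ^ (2 * m) ≤ N
  N2 : 2 * 2 ^ m ≤ N
  N3 : 8 * P ≤ C ^ 2 * Real.log N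

namespace Sz

variable {P N h q CK C : ℝ} {m : ℕ}

theorem q1 (sz : Sz P N h q CK C m) : 1 ≤ q := by linarith [sz.q8]

theorem h1 (sz : Sz P N h q CK C m) : 1 ≤ h := le_trans (one_le_pow₀ sz.q1) sz.hq

theorem N0 (sz : Sz P N h q CK C m) : 0 < N := by
  rw [sz.hN]
  exact pow_pos (by linarith [sz.h1]) 10

theorem hN' (sz : Sz P N h q CK C m) : h ≤ N := by
  rw [sz.hN]
  exact le_self_pow₀ sz.h1 (by norm_num)

theorem N1' (sz : Sz P N h q CK C m) : 1 ≤ N := le_trans sz.h1 sz.hN'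

theorem small (sz : Sz P N h q CK C m) : 2 * ((P ^ 2 + 10) * h ^ 12) ≤ N ^ 2 / q ^ 8 := by
  have hq1 := sz.q1
  have hh1 := sz.h1
  have hq0 : 0 < q := by linarith
  have hh0 : 0 < h := by linarith
  rw [le_div_iff₀ (by positivity), sz.hN]
  have e1 : h ≤ h ^ 8 := le_self_pow₀ hh1 (by norm_num)
  have e2 : 2 * (P ^ 2 + 10) * q ^ 8 ≤ h ^ 8 := by
    calc 2 * (P ^ 2 + 10) * q ^ 8 ≤ 2 * q * q ^ 8 := by
          have := sz.qk
          have : 0 ≤ q ^ 8 := by positivity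
          nlinarith [sz.qk]
      _ ≤ q * q * q ^ 8 := by
          have h8 := sz.q8
          have : 2 * q ≤ q * q := by nlinarith
          exact mul_le_mul_of_nonneg_right this (by positivity)
      _ = q ^ 10 := by ring
      _ ≤ h := sz.hq
      _ ≤ h ^ 8 := e1
  calc 2 * ((P ^ 2 + 10) * h ^ 12) * q ^ 8 = (2 * (P ^ 2 + 10) * q ^ 8) * h ^ 12 := by ring
    _ ≤ h ^ 8 * h ^ 12 := mul_le_mul_of_nonneg_right e2 (by positivity)
    _ = (h ^ 10) ^ 2 := by ring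

theorem q8_le (sz : Sz P N h q CK C m) : N ^ 2 / q ^ 8 ≤ N ^ 2 / 8 := by
  have hq1 := sz.q1
  have h8 := sz.q8
  have : (8 : ℝ) ≤ q ^ 8 := by
    calc (8 : ℝ) ≤ q := h8
      _ ≤ q ^ 8 := le_self_pow₀ hq1 (by norm_num)
  exact div_le_div_of_nonneg_left (sq_nonneg N) (by norm_num) this

theorem one_le (sz : Sz P N h q CK C m) : 1 ≤ N ^ 2 / q ^ 8 := by
  refine le_trans ?_ sz.small
  have h1 : 1 ≤ h ^ 12 := one_le_pow₀ sz.h1
  nlinarith [sq_nonneg P]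

end Sz

theorem sig_nonneg (p d : ℕ) [NeZero p] (δ : ZMod p → ℝ) : 0 ≤ sig p d δ := by
  unfold sig
  have hn := nn_pos p d
  have h1 : 0 ≤ ∑ a, δ a ^ 2 := Finset.sum_nonneg fun a _ => sq_nonneg _
  positivity

theorem exp_sig_le (p d : ℕ) [NeZero p] (δ : ZMod p → ℝ) :
    Real.exp (-2 * sig p d δ) ≤ 1 := by
  rw [Real.exp_le_one_iff]
  linarith [sig_nonneg p d δ]

/-- The case `j ≥ 1`. -/
theorem apx1 {h q CK C : ℝ} {m : ℕ} (sz : Sz p (nn p d) h q CK C m)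
    (hDE2 : DE2_Stmt) (hWRE : WRE_Stmt) (hp : p.Prime) (hp2 : p ≠ 2)
    (H A : Finset (G p d)) (α : ZMod p) (δ : ZMod p → ℝ) (hδ : EM δ) (Z : ℂ) (hZ : ‖Z‖ = 1)
    (hT : 3 * nn p d ^ 2 ≤ (T4f (vd H A α 0)).re)
    (h30 : ‖T3 (vd H A α 0)‖ ≤ h ^ 11) (h20 : ‖T2 (vd H A α 0)‖ ≤ h ^ 6)
    (h4 : ‖S4 (vd H A α δ) - (Real.exp (-2 * sig p d δ) : ℂ) * S4 (vd H A α 0)‖ ≤
        (nn p d ^ 2 + Real.exp (-2 * sig p d δ) * ‖S4 (vd H A α 0)‖) / q ^ 8)
    (h3 : ‖T3 (vd H A α δ)‖ ≤ h ^ 11) (h2 : ‖T2 (vd H A α δ)‖ ≤ h ^ 6) :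
    nn p d ^ 2 < (T4f (up Z (vd H A α δ))).re := by
  have hn := nn_pos p d
  obtain ⟨a1, a2⟩ := apx hDE2 hWRE hp hp2 H A α 0 EM_zero 1 (by simp) h sz.h1 sz.hN h30 h20
  obtain ⟨b1, b2⟩ := apx hDE2 hWRE hp hp2 H A α δ hδ Z hZ h sz.h1 sz.hN h3 h2
  rw [up_vd] at a2
  have c1 := re_diff h4
  rw [norm_real a1] at c1
  have s1 := sz.small
  have s2 := sz.q8_le
  set e := Real.exp (-2 * sig p d δ) with he
  have he0 : 0 < e := Real.exp_pos _
  set S0 := (S4 (vd H A α 0)).re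
  set S1 := (S4 (vd H A α δ)).re
  rw [abs_le] at a2 b2 c1
  have hS0 : 0 ≤ S0 := by
    have : 0 < nn p d ^ 2 := by positivity
    linarith [a2.2]
  rw [abs_of_nonneg hS0] at c1
  have hq0 : 0 < q := by linarith [sz.q1]
  have hq8 : (1 : ℝ) ≤ q ^ 8 := one_le_pow₀ sz.q1
  have c2 : (nn p d ^ 2 + e * S0) / q ^ 8 ≤ nn p d ^ 2 / q ^ 8 + e * S0 := by
    rw [add_div]
    have : e * S0 / q ^ 8 ≤ e * S0 := div_le_self (by positivity) hq8
    linarith
  have hN2 : 0 < nn p d ^ 2 := by positivity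
  linarith [c1.1, b2.1]

/-- The case `j = 0`. -/
theorem apx0 {h q CK C : ℝ} {m : ℕ} (sz : Sz p (nn p d) h q CK C m)
    (hDE2 : DE2_Stmt) (hWRE : WRE_Stmt) (hp : p.Prime) (hp2 : p ≠ 2)
    (H A : Finset (G p d)) (α : ZMod p) (δ : ZMod p → ℝ) (hδ : EM δ) (Z : ℂ) (hZ : ‖Z‖ = 1)
    (hT : (T4f (vd H A α 0)).re = nn p d ^ 2)
    (h30 : ‖T3 (vd H A α 0)‖ ≤ h ^ 11) (h20 : ‖T2 (vd H A α 0)‖ ≤ h ^ 6)
    (h4 : ‖S4 (vd H A α δ) - (Real.exp (-2 * sig p d δ) : ℂ) * S4 (vd H A α 0)‖ ≤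
        (nn p d ^ 2 + Real.exp (-2 * sig p d δ) * ‖S4 (vd H A α 0)‖) / q ^ 8)
    (h3 : ‖T3 (vd H A α δ)‖ ≤ h ^ 11) (h2 : ‖T2 (vd H A α δ)‖ ≤ h ^ 6) :
    |(T4f (up Z (vd H A α δ))).re - 2 * nn p d ^ 2 +
      Real.exp (-2 * sig p d δ) * nn p d ^ 2| ≤ 4 * nn p d ^ 2 / q ^ 8 := by
  have hn := nn_pos p d
  obtain ⟨a1, a2⟩ := apx hDE2 hWRE hp hp2 H A α 0 EM_zero 1 (by simp) h sz.h1 sz.hN h30 h20
  obtain ⟨b1, b2⟩ := apx hDE2 hWRE hp hp2 H A α δ hδ Z hZ h sz.h1 sz.hN h3 h2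
  rw [up_vd, hT] at a2
  have c1 := re_diff h4
  rw [norm_real a1] at c1
  have s1 := sz.small
  have s2 := sz.q8_le
  have he1 := exp_sig_le p d δ
  set e := Real.exp (-2 * sig p d δ) with he
  have he0 : 0 < e := Real.exp_pos _
  set S0 := (S4 (vd H A α 0)).re
  set S1 := (S4 (vd H A α δ)).re
  have hN2 : 0 < nn p d ^ 2 := by positivity
  have hq0 : 0 < q := by linarith [sz.q1]
  have hS0 : |S0 + nn p d ^ 2| ≤ ((p : ℝ) ^ 2 + 10) * h ^ 12 := by
    rw [abs_le] at a2 ⊢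
    constructor <;> linarith [a2.1, a2.2]
  have hS0' : |S0| ≤ 2 * nn p d ^ 2 := by
    rw [abs_le] at hS0 ⊢
    constructor <;> linarith [hS0.1, hS0.2]
  have c2 : (nn p d ^ 2 + e * |S0|) / q ^ 8 ≤ 3 * (nn p d ^ 2 / q ^ 8) := by
    rw [← mul_div_assoc]
    apply div_le_div_of_nonneg_right _ (by positivity)
    have : e * |S0| ≤ 1 * (2 * nn p d ^ 2) :=
      mul_le_mul he1 hS0' (abs_nonneg _) zero_le_one
    linarith
  have c3 : |e * (S0 + nn p d ^ 2)| ≤ ((p : ℝ) ^ 2 + 10) * h ^ 12 := by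
    rw [abs_mul, abs_of_pos he0]
    calc e * |S0 + nn p d ^ 2| ≤ 1 * (((p : ℝ) ^ 2 + 10) * h ^ 12) :=
          mul_le_mul he1 hS0 (abs_nonneg _) zero_le_one
      _ = _ := one_mul _
  have c4 : 4 * nn p d ^ 2 / q ^ 8 = 4 * (nn p d ^ 2 / q ^ 8) := by ring
  rw [c4]
  rw [abs_le] at b2 c1 c3 ⊢
  constructor
  · linarith [c1.1, b2.1, c3.1, c1.2, c3.2]
  · linarith [c1.2, b2.2, c3.2]

/-- Large variance. -/
theorem case1 {P N h q CK C : ℝ} {m : ℕ} (sz : Sz P N h q CK C m) {X σ : ℝ}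
    (ha : |X - 2 * N ^ 2 + Real.exp (-2 * σ) * N ^ 2| ≤ 4 * N ^ 2 / q ^ 8)
    (hσ : 1 / q ^ 4 ≤ σ) : N ^ 2 < X := by
  have hq1 := sz.q1
  have hq0 : 0 < q := by linarith
  have h8 := sz.q8
  set y := 1 / q ^ 4 with hy
  have hy0 : 0 < y := by positivity
  have hy1 : y ≤ 1 / 8 := by
    rw [hy]
    apply one_div_le_one_div_of_le (by norm_num)
    calc (8 : ℝ) ≤ q := h8
      _ ≤ q ^ 4 := le_self_pow₀ hq1 (by norm_num)
  have e1 : Real.exp (-2 * σ) ≤ 1 - 2 * y + 2 * y ^ 2 := by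
    calc Real.exp (-2 * σ) ≤ Real.exp (-(2 * y)) := Real.exp_le_exp.2 (by linarith)
      _ ≤ 1 - 2 * y + (2 * y) ^ 2 / 2 := exp_le (by linarith)
      _ = _ := by ring
  have e2 : 4 * N ^ 2 / q ^ 8 = 4 * N ^ 2 * y ^ 2 := by
    rw [hy]
    field_simp
  rw [e2] at ha
  have hN2 : 0 < N ^ 2 := pow_pos sz.N0 2
  have e3 : Real.exp (-2 * σ) * N ^ 2 ≤ (1 - 2 * y + 2 * y ^ 2) * N ^ 2 :=
    mul_le_mul_of_nonneg_right e1 hN2.le
  rw [abs_le] at ha
  have e4 : 0 < N ^ 2 * (y * (2 - 6 * y)) := by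
    apply mul_pos hN2
    apply mul_pos hy0
    linarith
  have e5 : N ^ 2 * (y * (2 - 6 * y)) = 2 * N ^ 2 - (1 - 2 * y + 2 * y ^ 2) * N ^ 2 -
      4 * N ^ 2 * y ^ 2 - N ^ 2 := by ring
  linarith [ha.1]

/-- The size of the Taylor errors. -/
theorem Sz.err {P N h q CK C : ℝ} {m : ℕ} (sz : Sz P N h q CK C m) :
    N ^ 3 * (24 * P ^ 2 / q) ^ (2 * m) + N ^ 2 * (2 / q ^ 4) ^ m ≤ 1 := by
  have hN := sz.N0
  have hN1 := sz.N1'
  have hq0 : 0 < q := by linarith [sz.q1]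
  have hm1 := sz.N1
  have hm2 := sz.N2
  have hm8 := sz.N8
  have hP0 := sz.P0
  have e1 : N ^ 3 * (24 * P ^ 2 / q) ^ (2 * m) ≤ 1 / 2 := by
    rw [div_pow, ← mul_div_assoc, div_le_iff₀ (by positivity)]
    calc N ^ 3 * (24 * P ^ 2) ^ (2 * m) ≤ N ^ 3 * (N / 2) :=
          mul_le_mul_of_nonneg_left (by linarith) (by positivity)
      _ = 1 / 2 * N ^ 4 := by ring
      _ ≤ 1 / 2 * N ^ 8 :=
          mul_le_mul_of_nonneg_left (pow_le_pow_right₀ hN1 (by norm_num)) (by norm_num)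
      _ ≤ 1 / 2 * q ^ (2 * m) := mul_le_mul_of_nonneg_left hm8 (by norm_num)
  have e2 : N ^ 2 * (2 / q ^ 4) ^ m ≤ 1 / 2 := by
    rw [div_pow, ← mul_div_assoc, div_le_iff₀ (by positivity)]
    have e3 : (q ^ 4) ^ m = q ^ (2 * m) * q ^ (2 * m) := by
      rw [← pow_mul, ← pow_add]
      congr 1
      ring
    rw [e3]
    calc N ^ 2 * 2 ^ m ≤ N ^ 2 * (N / 2) :=
          mul_le_mul_of_nonneg_left (by linarith) (by positivity)
      _ = 1 / 2 * (N ^ 3) := by ring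
      _ ≤ 1 / 2 * (N ^ 8 * N ^ 8) := by
          apply mul_le_mul_of_nonneg_left _ (by norm_num)
          rw [← pow_add]
          exact pow_le_pow_right₀ hN1 (by norm_num)
      _ ≤ 1 / 2 * (q ^ (2 * m) * q ^ (2 * m)) := by
          apply mul_le_mul_of_nonneg_left _ (by norm_num)
          exact mul_le_mul hm8 hm8 (by positivity) (by positivity)
  linarith

/-- The window contains the ray. -/
theorem window {h q CK C : ℝ} {m : ℕ} (sz : Sz p (nn p d) h q CK C m) (hC : 0 < C)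
    (δ : ZMod p → ℝ) (T r : ℝ) (hr0 : 0 ≤ r) (hrT : r ≤ T)
    (hT : sig p d δ * T ^ 2 ≤ 1) (a : ZMod p) : |r * δ a| ≤ rn C p d := by
  have hn := nn_pos p d
  have hp0 : (0 : ℝ) < p := sz.P0
  have h1 : δ a ^ 2 ≤ ∑ b, δ b ^ 2 :=
    Finset.single_le_sum (f := fun b => δ b ^ 2) (fun b _ => sq_nonneg _) (Finset.mem_univ a)
  have h2 : ∑ b, δ b ^ 2 = 8 * p * sig p d δ / nn p d := by
    unfold sig
    field_simp
  have h3 : (r * δ a) ^ 2 ≤ C ^ 2 * (Real.log (nn p d) / nn p d) := by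
    have hr2 : r ^ 2 ≤ T ^ 2 := pow_le_pow_left₀ hr0 hrT 2
    calc (r * δ a) ^ 2 = r ^ 2 * δ a ^ 2 := by ring
      _ ≤ T ^ 2 * (8 * p * sig p d δ / nn p d) := by
          rw [← h2]
          exact mul_le_mul hr2 h1 (sq_nonneg _) (sq_nonneg _)
      _ = 8 * p / nn p d * (sig p d δ * T ^ 2) := by ring
      _ ≤ 8 * p / nn p d * 1 := mul_le_mul_of_nonneg_left hT (by positivity)
      _ = 8 * p / nn p d := mul_one _
      _ ≤ (C ^ 2 * Real.log (nn p d)) / nn p d :=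
          div_le_div_of_nonneg_right sz.N3 hn.le
      _ = _ := by ring
  have h4 : |r * δ a| ≤ √(C ^ 2 * (Real.log (nn p d) / nn p d)) :=
    Real.abs_le_sqrt h3
  rw [Real.sqrt_mul (sq_nonneg C), Real.sqrt_sq hC.le] at h4
  exact h4

/-- The phase at `0`. -/
theorem phase {N h W : ℝ} (Z t3 t2 t30 t20 : ℂ) (hZ : ‖Z‖ = 1)
    (h1 : t30 = 1 - (N : ℂ) - t20) (h2 : ‖t20‖ ≤ h ^ 6) (h3 : ‖t3 - t30‖ ≤ W)
    (h4 : ‖t2 - t20‖ ≤ W) (hN0 : 0 < N) (hN : 2 + 2 * h ^ 6 ≤ N) :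
    -(16 * W ^ 2) ≤ N * ((4 * ((starRingEnd ℂ) Z * t3).re + 2 * ((starRingEnd ℂ) Z ^ 2 * t2).re) -
      (4 * t3.re + 2 * t2.re)) := by
  set c := (starRingEnd ℂ) Z with hc
  have hcn : ‖c‖ = 1 := by rw [hc, RCLike.norm_conj, hZ]
  set b := ‖c - 1‖ with hb
  have hb0 : 0 ≤ b := norm_nonneg _
  have hbsq : b ^ 2 = 2 - 2 * c.re := by
    have h5 := Complex.sq_norm (c - 1)
    have h6 := Complex.sq_norm c
    rw [hcn, Complex.normSq_apply] at h6
    rw [Complex.normSq_apply, Complex.sub_re, Complex.sub_im, Complex.one_re,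
      Complex.one_im] at h5
    rw [hb, h5]
    linarith
  have e1 : (4 * (c * t3).re + 2 * (c ^ 2 * t2).re) - (4 * t3.re + 2 * t2.re) =
      4 * ((c - 1) * (t3 - t30)).re + 2 * (((c - 1) * (c + 1)) * (t2 - t20)).re +
      (4 * (N - 1) * (1 - c.re) + 2 * ((c - 1) ^ 2 * t20).re) := by
    have e2 : ((4 * (c * t3).re + 2 * (c ^ 2 * t2).re) - (4 * t3.re + 2 * t2.re)) =
        (4 * (c * t3) + 2 * (c ^ 2 * t2) - (4 * t3 + 2 * t2)).re := by
      simp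
    have e3 : 4 * ((c - 1) * (t3 - t30)).re + 2 * (((c - 1) * (c + 1)) * (t2 - t20)).re +
      (4 * (N - 1) * (1 - c.re) + 2 * ((c - 1) ^ 2 * t20).re) =
      (4 * ((c - 1) * (t3 - t30)) + 2 * (((c - 1) * (c + 1)) * (t2 - t20)) +
      (4 * ((N : ℂ) - 1) * (1 - c) + 2 * ((c - 1) ^ 2 * t20))).re := by
      have e4 : (4 * ((N : ℂ) - 1) * (1 - c)).re = 4 * (N - 1) * (1 - c.re) := by
        have e5 : 4 * ((N : ℂ) - 1) * (1 - c) = ((4 * (N - 1) : ℝ) : ℂ) * (1 - c) := by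
          push_cast
          ring
        rw [e5, Complex.re_ofReal_mul, Complex.sub_re, Complex.one_re]
      rw [Complex.add_re, Complex.add_re, Complex.add_re, e4]
      simp
    rw [e2, e3, h1]
    congr 1
    ring
  have e4 : -(4 * b * W) ≤ 4 * ((c - 1) * (t3 - t30)).re := by
    have h5 : |((c - 1) * (t3 - t30)).re| ≤ b * W := by
      refine le_trans (Complex.abs_re_le_norm _) ?_
      rw [norm_mul]
      exact mul_le_mul_of_nonneg_left h3 hb0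
    rw [abs_le] at h5
    linarith [h5.1]
  have e5 : -(4 * b * W) ≤ 2 * (((c - 1) * (c + 1)) * (t2 - t20)).re := by
    have h5 : |(((c - 1) * (c + 1)) * (t2 - t20)).re| ≤ b * 2 * W := by
      refine le_trans (Complex.abs_re_le_norm _) ?_
      rw [norm_mul, norm_mul]
      have h6 : ‖c + 1‖ ≤ 2 := by
        refine le_trans (norm_add_le _ _) ?_
        rw [hcn, norm_one]
        norm_num
      apply mul_le_mul (mul_le_mul_of_nonneg_left h6 hb0) h4 (norm_nonneg _) (by positivity)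
    rw [abs_le] at h5
    linarith [h5.1]
  have e6 : N * b ^ 2 ≤ 4 * (N - 1) * (1 - c.re) + 2 * ((c - 1) ^ 2 * t20).re := by
    have h5 : |((c - 1) ^ 2 * t20).re| ≤ b ^ 2 * h ^ 6 := by
      refine le_trans (Complex.abs_re_le_norm _) ?_
      rw [norm_mul, norm_pow]
      exact mul_le_mul_of_nonneg_left h2 (by positivity)
    rw [abs_le] at h5
    have h6 : 4 * (N - 1) * (1 - c.re) = 2 * (N - 1) * b ^ 2 := by
      rw [hbsq]
      ring
    rw [h6]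
    have h7 : 0 ≤ b ^ 2 * (N - 2 - 2 * h ^ 6) :=
      mul_nonneg (sq_nonneg b) (by linarith)
    linarith [h5.1]
  rw [e1]
  have e7 : N * (N * b ^ 2 - 8 * b * W) ≤
      N * (4 * ((c - 1) * (t3 - t30)).re + 2 * (((c - 1) * (c + 1)) * (t2 - t20)).re +
      (4 * (N - 1) * (1 - c.re) + 2 * ((c - 1) ^ 2 * t20).re)) :=
    mul_le_mul_of_nonneg_left (by linarith) hN0.le
  refine le_trans ?_ e7
  have e8 : 0 ≤ (N * b - 4 * W) ^ 2 := sq_nonneg _
  linarith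

/-- Small variance. -/
theorem case2 {h q CK C : ℝ} {m : ℕ} (sz : Sz p (nn p d) h q CK C m)
    (hRAP : ∀ (D : ℝ → ℂ) (a : ℕ → ℂ)
      (E M T : ℝ), 1 ≤ T → 0 ≤ E → 0 ≤ M →
      (∀ τ : ℝ, |τ| ≤ T → ‖D τ - ∑ k ∈ range (2 * m - 1 + 1), a k * (τ : ℂ) ^ k‖ ≤
        E * (|τ| / T) ^ (2 * m - 1 + 1)) →
      (∀ τ : ℝ, 0 ≤ τ → τ ≤ T → ‖D τ‖ ≤ M) →
      ‖D 1 - a 0 - a 1‖ ≤ CK * (M + E) / T ^ 2 ∧ ‖D 1 - D 0‖ ≤ CK * (M + E) / T)
    (hDE1 : DE1_Stmt) (hDE2 : DE2_Stmt) (hWRE : WRE_Stmt) (hp : p.Prime) (hp2 : p ≠ 2)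
    (H A : Finset (G p d)) (α : ZMod p) (hC : 0 < C)
    (hW : ∀ δ : ZMod p → ℝ, EM δ → (∀ a, |δ a| ≤ rn C p d) →
      ‖S4 (vd H A α δ) - (Real.exp (-2 * sig p d δ) : ℂ) * S4 (vd H A α 0)‖ ≤
        (nn p d ^ 2 + Real.exp (-2 * sig p d δ) * ‖S4 (vd H A α 0)‖) / q ^ 8 ∧
      ‖T3 (vd H A α δ)‖ ≤ h ^ 11 ∧ ‖T2 (vd H A α δ)‖ ≤ h ^ 6)
    (hT : (T4f (vd H A α 0)).re = nn p d ^ 2)
    (δ : ZMod p → ℝ) (hδ : EM δ)
    (hmu : ∀ x, x ≠ 0 → |gd H A δ x| ≤ 6 * p ^ 2 * q * √(sig p d δ))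
    (hσ0 : 0 < sig p d δ) (hσ1 : sig p d δ * q ^ 4 ≤ 1) (Z : ℂ) (hZ : ‖Z‖ = 1) :
    nn p d ^ 2 < (T4f (up Z (vd H A α δ))).re := by
  have hn := nn_pos p d
  have hq1 := sz.q1
  have hq0 : 0 < q := by linarith
  have hh1 := sz.h1
  have hh0 : 0 < h := by linarith
  have hp0 : (0 : ℝ) < p := sz.P0
  set σ := sig p d δ with hσ
  set s := √σ with hs
  have hs2 : s ^ 2 = σ := Real.sq_sqrt hσ0.le
  have hs0 : 0 < s := Real.sqrt_pos.2 hσ0
  set T := 1 / (q ^ 2 * s) with hTdef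
  have hT0 : 0 < T := by positivity
  have hT2 : σ * T ^ 2 = 1 / q ^ 4 := by
    rw [hTdef, ← hs2]
    field_simp
  have hq4 : (8 : ℝ) ≤ q ^ 4 := le_trans sz.q8 (le_self_pow₀ hq1 (by norm_num))
  have hT1 : 1 ≤ T := by
    rw [hTdef, le_div_iff₀ (by positivity), one_mul]
    have h1 : (q ^ 2 * s) ^ 2 ≤ 1 ^ 2 := by
      calc (q ^ 2 * s) ^ 2 = s ^ 2 * q ^ 4 := by ring
        _ = σ * q ^ 4 := by rw [hs2]
        _ ≤ 1 := hσ1
        _ = 1 ^ 2 := by norm_num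
    exact le_of_sq_le_sq h1 (by norm_num)
  have hσT : 2 * σ * T ^ 2 = 2 / q ^ 4 := by
    rw [mul_assoc, hT2]
    ring
  have hσT1 : 2 * σ * T ^ 2 ≤ 1 := by
    rw [hσT, div_le_one (by positivity)]
    linarith
  have hsT : σ * T ^ 2 ≤ 1 := by
    rw [hT2, div_le_one (by positivity)]
    linarith
  have hηT : 24 * (p : ℝ) ^ 2 * q * s * T = 24 * (p : ℝ) ^ 2 / q := by
    rw [hTdef]
    field_simp
  have hηT1 : 24 * (p : ℝ) ^ 2 * q * s * T ≤ 1 := by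
    rw [hηT, div_le_one hq0]
    exact sz.qp
  have hgz : ∀ x, |gz H A δ x| ≤ 6 * p ^ 2 * q * s := by
    intro x
    unfold gz
    split_ifs with hx
    · rw [abs_zero]
      positivity
    · exact hmu x hx
  have hwin : ∀ r : ℝ, 0 ≤ r → r ≤ T → ∀ a, |(fun a => r * δ a) a| ≤ rn C p d :=
    fun r hr0 hrT a => window sz hC δ T r hr0 hrT hsT a
  have hw0 : ∀ a, |(0 : ZMod p → ℝ) a| ≤ rn C p d := by
    intro a
    have := hwin 0 le_rfl hT0.le a
    simpa using this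
  obtain ⟨-, -, -, w4, -⟩ := hWRE p d hp hp2
  have hev : ∀ δ' : ZMod p → ℝ, EM δ' → EV (vd H A α δ') := by
    intro δ' hδ'
    have := w4 H A α δ' 1 hδ' (by simp)
    rw [up_vd] at this
    exact this
  have hv0 : EV (vd H A α 0) := hev 0 EM_zero
  obtain ⟨-, h30, h20⟩ := hW 0 EM_zero hw0
  have hone : (fun a => (1 : ℝ) * δ a) = δ := by
    funext a
    exact one_mul _
  have hzero : (fun a => (0 : ℝ) * δ a) = (0 : ZMod p → ℝ) := by
    funext a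
    exact zero_mul _
  -- the fourth moment
  have hcard : ((univ : Finset (G p d × G p d × G p d)).card : ℝ) = nn p d ^ 3 := by
    rw [Finset.card_univ, Fintype.card_prod, Fintype.card_prod]
    push_cast
    rw [card_G]
    ring
  have herr := sz.err
  have herr1 : nn p d ^ 3 * (24 * (p : ℝ) ^ 2 / q) ^ (2 * m) ≤ 1 := by
    have : 0 ≤ nn p d ^ 2 * (2 / q ^ 4) ^ m := by positivity
    linarith
  have hq4' : ∀ t ∈ (univ : Finset (G p d × G p d × G p d)), ‖q4 (vd H A α 0) t‖ ≤ 1 :=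
    fun t _ => (q4_norm hv0.1 t).le
  have hg4 : ∀ t ∈ (univ : Finset (G p d × G p d × G p d)),
      |g4 (gz H A δ) t| ≤ 24 * (p : ℝ) ^ 2 * q * s := by
    intro t _
    unfold g4
    have h1 := hgz t.1
    have h2 := hgz t.2.1
    have h3 := hgz t.2.2
    have h4 := hgz (t.1 + t.2.1 - t.2.2)
    rw [abs_le] at h1 h2 h3 h4 ⊢
    constructor
    · linarith [h1.1, h2.1, h3.2, h4.2]
    · linarith [h1.2, h2.2, h3.1, h4.1]
  have R4 := ray4 univ (q4 (vd H A α 0)) (g4 (gz H A δ)) (24 * (p : ℝ) ^ 2 * q * s) T σ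
    (nn p d ^ 2) (4 * nn p d ^ 2 / q ^ 8) CK m hRAP sz.m2 hq4' hg4 hT1 hηT1 hσ0.le hσT1
    (by positivity) (by rw [hcard, hηT, hσT]; exact herr)
    (by
      have h1 : ∑ t, q4 (vd H A α 0) t = T4f (vd H A α 0) := rfl
      rw [h1]
      apply Complex.ext
      · rw [hT, Complex.ofReal_re]
      · rw [Complex.ofReal_im]
        exact (hDE1 p d _ hv0.1).2.1)
    (by
      intro r
      rw [← T4_ray, ← vd_ray']
      exact (hDE1 p d _ (hev _ (EM_smul hδ r)).1).2.2.1)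
    (by
      intro r
      rw [← T4_ray, ← vd_ray']
      exact (hDE1 p d _ (hev _ (EM_smul hδ r)).1).2.1)
    (by
      intro r hr0 hrT
      rw [← T4_ray, ← vd_ray']
      obtain ⟨c1, c2, c3⟩ := hW _ (EM_smul hδ r) (hwin r hr0 hrT)
      have := apx0 sz hDE2 hWRE hp hp2 H A α _ (EM_smul hδ r) 1 (by simp) hT h30 h20 c1 c2 c3
      rw [up_vd, sig_smul] at this
      have e : -2 * (r ^ 2 * sig p d δ) = -2 * σ * r ^ 2 := by
        rw [← hσ]
        ring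
      rw [e] at this
      exact this)
  rw [← T4_ray, ← vd_ray', hone] at R4
  have hY : nn p d ^ 2 + nn p d ^ 2 * σ ≤ (T4f (vd H A α δ)).re := by
    have hN2 : 0 < nn p d ^ 2 := by positivity
    have e1 : Real.exp (-2 * σ) ≤ 1 - 2 * σ + 2 * σ ^ 2 := by
      calc Real.exp (-2 * σ) = Real.exp (-(2 * σ)) := by ring_nf
        _ ≤ 1 - 2 * σ + (2 * σ) ^ 2 / 2 := exp_le (by linarith)
        _ = _ := by ring
    have hσ8 : σ ≤ 1 / 8 := by
      rw [le_div_iff₀ (by norm_num)]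
      calc σ * 8 ≤ σ * q ^ 4 := mul_le_mul_of_nonneg_left hq4 hσ0.le
        _ ≤ 1 := hσ1
    have e2 : CK * (4 * nn p d ^ 2 / q ^ 8 + 1) / T ^ 2 ≤ nn p d ^ 2 * σ / 4 := by
      have e3 : 1 / T ^ 2 = q ^ 4 * σ := by
        rw [← hs2, hTdef]
        field_simp
      have e4 : CK * (4 * nn p d ^ 2 / q ^ 8 + 1) / T ^ 2 =
          CK * (4 * nn p d ^ 2 / q ^ 8 + 1) * (q ^ 4 * σ) := by
        rw [← e3]
        ring
      rw [e4]
      have e5 : 4 * nn p d ^ 2 / q ^ 8 + 1 ≤ 5 * (nn p d ^ 2 / q ^ 8) := by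
        have := sz.one_le
        have e6 : 4 * nn p d ^ 2 / q ^ 8 = 4 * (nn p d ^ 2 / q ^ 8) := by ring
        rw [e6]
        linarith
      have hCK := sz.CK0
      calc CK * (4 * nn p d ^ 2 / q ^ 8 + 1) * (q ^ 4 * σ)
          ≤ CK * (5 * (nn p d ^ 2 / q ^ 8)) * (q ^ 4 * σ) :=
            mul_le_mul_of_nonneg_right (mul_le_mul_of_nonneg_left e5 hCK) (by positivity)
        _ = (20 * CK) * (nn p d ^ 2 * σ / (4 * q ^ 4)) := by
            field_simp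
            ring
        _ ≤ q ^ 4 * (nn p d ^ 2 * σ / (4 * q ^ 4)) :=
            mul_le_mul_of_nonneg_right
              (le_trans sz.qc (le_self_pow₀ hq1 (by norm_num))) (by positivity)
        _ = nn p d ^ 2 * σ / 4 := by
            field_simp
    have e7 := (abs_le.1 (le_trans R4 e2)).1
    have e8 : Real.exp (-2 * σ) * nn p d ^ 2 ≤ (1 - 2 * σ + 2 * σ ^ 2) * nn p d ^ 2 :=
      mul_le_mul_of_nonneg_right e1 hN2.le
    have e9 : 0 ≤ nn p d ^ 2 * (σ * (1 / 8 - σ)) :=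
      mul_nonneg hN2.le (mul_nonneg hσ0.le (by linarith))
    have e10 : 0 ≤ nn p d ^ 2 * σ := by positivity
    have e11 : nn p d ^ 2 * (σ * (1 / 8 - σ)) = nn p d ^ 2 * σ / 8 - nn p d ^ 2 * σ ^ 2 := by
      ring
    have e12 : (1 - 2 * σ + 2 * σ ^ 2) * nn p d ^ 2 =
        nn p d ^ 2 - 2 * (nn p d ^ 2 * σ) + 2 * (nn p d ^ 2 * σ ^ 2) := by ring
    rw [e11] at e9
    rw [e12] at e8
    linarith
  -- the third moment
  have hT3 : ‖T3 (vd H A α δ) - T3 (vd H A α 0)‖ ≤ CK * (h ^ 11 + 1) / T := by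
    have h1 := ray1 ((univ : Finset (G p d × G p d)).filter
      fun t => t.1 ≠ 0 ∧ t.2 ≠ 0 ∧ t.1 + t.2 ≠ 0)
      (fun t => vd H A α 0 t.1 * vd H A α 0 t.2 * (starRingEnd ℂ) (vd H A α 0 (t.1 + t.2)))
      (fun t => gz H A δ t.1 + gz H A δ t.2 - gz H A δ (t.1 + t.2))
      (24 * (p : ℝ) ^ 2 * q * s) T (h ^ 11) CK m hRAP sz.m2
      (by
        intro t _
        rw [norm_mul, norm_mul, RCLike.norm_conj, hv0.1, hv0.1, hv0.1]
        norm_num)
      (by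
        intro t _
        have h1 := hgz t.1
        have h2 := hgz t.2
        have h3 := hgz (t.1 + t.2)
        have h4 : 0 ≤ (p : ℝ) ^ 2 * q * s := by positivity
        rw [abs_le] at h1 h2 h3 ⊢
        constructor
        · linarith [h1.1, h2.1, h3.2]
        · linarith [h1.2, h2.2, h3.1])
      hT1 hηT1
      (by
        rw [hηT]
        refine le_trans (mul_le_mul_of_nonneg_right ?_ (by positivity)) herr1
        have h2 : (((univ : Finset (G p d × G p d)).filter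
            fun t => t.1 ≠ 0 ∧ t.2 ≠ 0 ∧ t.1 + t.2 ≠ 0).card : ℝ) ≤ nn p d ^ 2 := by
          have h3 : ((univ : Finset (G p d × G p d)).card : ℝ) = nn p d ^ 2 := by
            rw [Finset.card_univ, Fintype.card_prod]
            push_cast
            rw [card_G]
            ring
          rw [← h3]
          exact_mod_cast Finset.card_filter_le _ _
        exact le_trans h2 (pow_le_pow_right₀ sz.N1' (by norm_num)))
      (by
        intro r hr0 hrT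
        rw [← T3_ray, ← vd_ray']
        exact (hW _ (EM_smul hδ r) (hwin r hr0 hrT)).2.1)
    rw [← T3_ray, ← T3_ray, ← vd_ray', ← vd_ray', hone, hzero] at h1
    exact h1
  -- the sum of the squares
  have hT2' : ‖T2 (vd H A α δ) - T2 (vd H A α 0)‖ ≤ CK * (h ^ 6 + 1) / T := by
    have h1 := ray1 ((univ : Finset (G p d)).erase 0)
      (fun x => vd H A α 0 x ^ 2)
      (fun x => 2 * gz H A δ x)
      (24 * (p : ℝ) ^ 2 * q * s) T (h ^ 6) CK m hRAP sz.m2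
      (by
        intro t _
        rw [norm_pow, hv0.1]
        norm_num)
      (by
        intro t _
        have h1 := hgz t
        have h4 : 0 ≤ (p : ℝ) ^ 2 * q * s := by positivity
        rw [abs_le] at h1 ⊢
        constructor
        · linarith [h1.1]
        · linarith [h1.2])
      hT1 hηT1
      (by
        rw [hηT]
        refine le_trans (mul_le_mul_of_nonneg_right ?_ (by positivity)) herr1
        have h2 : (((univ : Finset (G p d)).erase 0).card : ℝ) ≤ nn p d := by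
          rw [← card_G p d, ← Finset.card_univ]
          exact_mod_cast Finset.card_erase_le
        exact le_trans h2 (le_self_pow₀ sz.N1' (by norm_num)))
      (by
        intro r hr0 hrT
        rw [← T2_ray, ← vd_ray']
        exact (hW _ (EM_smul hδ r) (hwin r hr0 hrT)).2.2)
    rw [← T2_ray, ← T2_ray, ← vd_ray', ← vd_ray', hone, hzero] at h1
    exact h1
  set W := 2 * CK * h ^ 11 * (q ^ 2 * s) with hWdef
  have hTinv : 1 / T = q ^ 2 * s := by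
    rw [hTdef]
    field_simp
  have hCK := sz.CK0
  have hB3 : CK * (h ^ 11 + 1) / T ≤ W := by
    have e1 : CK * (h ^ 11 + 1) / T = CK * (h ^ 11 + 1) * (q ^ 2 * s) := by
      rw [← hTinv]
      ring
    rw [e1, hWdef]
    apply mul_le_mul_of_nonneg_right _ (by positivity)
    have : 1 ≤ h ^ 11 := one_le_pow₀ hh1
    nlinarith
  have hB2 : CK * (h ^ 6 + 1) / T ≤ W := by
    refine le_trans ?_ hB3
    apply div_le_div_of_nonneg_right _ hT0.le
    apply mul_le_mul_of_nonneg_left _ hCK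
    have : h ^ 6 ≤ h ^ 11 := pow_le_pow_right₀ hh1 (by norm_num)
    linarith
  have hv0z : vd H A α 0 0 = 1 := by
    unfold vd up
    rw [if_pos rfl]
  have h30e := T3_flat hDE1 (vd H A α 0) hv0 hv0z hT
  have hNh : 2 + 2 * h ^ 6 ≤ nn p d := by
    rw [sz.hN]
    have h8 : (8 : ℝ) ≤ h := by
      calc (8 : ℝ) ≤ q := sz.q8
        _ ≤ q ^ 10 := le_self_pow₀ hq1 (by norm_num)
        _ ≤ h := sz.hq
    have e1 : h ^ 10 = h ^ 6 * h ^ 4 := by ring
    have e2 : (8 : ℝ) ≤ h ^ 4 := le_trans h8 (le_self_pow₀ hh1 (by norm_num))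
    have e3 : 1 ≤ h ^ 6 := one_le_pow₀ hh1
    rw [e1]
    nlinarith
  have P := phase Z (T3 (vd H A α δ)) (T2 (vd H A α δ)) (T3 (vd H A α 0)) (T2 (vd H A α 0)) hZ
    h30e h20 (le_trans hT3 hB3) (le_trans hT2' hB2) hn hNh
  have hX := T4_up hDE1 (vd H A α δ) (hev δ hδ) Z hZ
  have hY1 := T4_up hDE1 (vd H A α δ) (hev δ hδ) 1 (by simp)
  rw [up_vd, map_one, one_mul, one_pow, one_mul] at hY1
  have e1 : (4 * ((starRingEnd ℂ) Z * T3 (vd H A α δ)).re +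
      2 * ((starRingEnd ℂ) Z ^ 2 * T2 (vd H A α δ)).re) -
      (4 * (T3 (vd H A α δ)).re + 2 * (T2 (vd H A α δ)).re) =
      (T4f (up Z (vd H A α δ))).re - (T4f (vd H A α δ)).re := by
    rw [hX, hY1]
    ring
  rw [e1] at P
  have hW2 : 16 * W ^ 2 ≤ nn p d * (nn p d ^ 2 * σ / 2) / 2 := by
    have e2 : 16 * W ^ 2 = 64 * CK ^ 2 * h ^ 22 * q ^ 4 * σ := by
      rw [hWdef, ← hs2]
      ring
    rw [e2]
    have e3 : 256 * CK ^ 2 * q ^ 4 ≤ h ^ 8 := by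
      calc 256 * CK ^ 2 * q ^ 4 ≤ q * q ^ 4 :=
            mul_le_mul_of_nonneg_right sz.qs (by positivity)
        _ = q ^ 5 := by ring
        _ ≤ q ^ 10 := pow_le_pow_right₀ hq1 (by norm_num)
        _ ≤ h := sz.hq
        _ ≤ h ^ 8 := le_self_pow₀ hh1 (by norm_num)
    have e4 : nn p d * (nn p d ^ 2 * σ / 2) / 2 = h ^ 8 * (h ^ 22 * σ / 4) := by
      rw [sz.hN]
      ring
    rw [e4]
    calc 64 * CK ^ 2 * h ^ 22 * q ^ 4 * σ = (256 * CK ^ 2 * q ^ 4) * (h ^ 22 * σ / 4) := by ring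
      _ ≤ h ^ 8 * (h ^ 22 * σ / 4) := mul_le_mul_of_nonneg_right e3 (by positivity)
  have hpos : 0 < nn p d * (nn p d ^ 2 * σ) := by positivity
  have hfin : 0 < nn p d * ((T4f (up Z (vd H A α δ))).re - nn p d ^ 2) := by
    have e5 : nn p d * ((T4f (up Z (vd H A α δ))).re - nn p d ^ 2) =
        nn p d * ((T4f (up Z (vd H A α δ))).re - (T4f (vd H A α δ)).re) +
        nn p d * ((T4f (vd H A α δ)).re - nn p d ^ 2) := by ring
    rw [e5]
    have e6 : nn p d * (nn p d ^ 2 * σ) ≤ nn p d * ((T4f (vd H A α δ)).re - nn p d ^ 2) :=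
      mul_le_mul_of_nonneg_left (by linarith) hn.le
    linarith
  have := (pos_iff_pos_of_mul_pos hfin).1 hn
  linarith

end main

end RAYaux

open RAYaux in
theorem t_RAY (hDE1 : DE1_Stmt) (hDE2 : DE2_Stmt) (hWRE : WRE_Stmt) (hWKK : WKK_Stmt)
    (hMUU : MUU_Stmt) (hRAP : RAP_Stmt) : RAY_Stmt := by
  intro p _ hp hp2 C hC
  have hp3 : 3 ≤ p := by
    have := hp.two_le
    omega
  have hp3' : (3 : ℝ) ≤ p := by exact_mod_cast hp3
  have hp0 : (0 : ℝ) < p := by linarith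
  set m : ℕ := 6400 * p with hm
  have hm2 : 2 ≤ m := by omega
  obtain ⟨CK, hCK, hR⟩ := hRAP (2 * m - 1) (by omega)
  have hτ0 : 0 < tau p := by
    unfold tau
    positivity
  have hlim : Filter.Tendsto (fun d : ℕ => nn p d) Filter.atTop Filter.atTop := by
    unfold nn
    exact tendsto_pow_atTop_atTop_of_one_lt (by linarith)
  have hlim2 : Filter.Tendsto (fun d : ℕ => nn p d ^ tau p) Filter.atTop Filter.atTop :=
    (tendsto_rpow_atTop hτ0).comp hlim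
  have hlim3 : Filter.Tendsto (fun d : ℕ => Real.log (nn p d)) Filter.atTop Filter.atTop :=
    Real.tendsto_log_atTop.comp hlim
  have hev := ((hlim.eventually_ge_atTop (1 + 2 * (24 * (p : ℝ) ^ 2) ^ (2 * m) + 2 * 2 ^ m)).and
    (hlim2.eventually_ge_atTop (8 + 24 * (p : ℝ) ^ 2 + 20 * CK + ((p : ℝ) ^ 2 + 10) +
      256 * CK ^ 2))).and (hlim3.eventually_ge_atTop (8 * p / C ^ 2))
  obtain ⟨d0, hd0⟩ := Filter.eventually_atTop.1 hev
  refine ⟨d0, ?_⟩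
  intro d hd H A hH hA hTy α hα hWU δ hδ hwin hne Z hZ
  obtain ⟨⟨g1, g2⟩, g3⟩ := hd0 d hd
  have hn := nn_pos p d
  have hN1 : 1 ≤ nn p d := by
    have h1 : 0 ≤ 2 * (24 * (p : ℝ) ^ 2) ^ (2 * m) := by positivity
    have h2 : (0 : ℝ) ≤ 2 * 2 ^ m := by positivity
    linarith
  have hsq1 : (0 : ℝ) ≤ (p : ℝ) ^ 2 := by positivity
  have hsq2 : (0 : ℝ) ≤ CK ^ 2 := by positivity
  have sz : Sz p (nn p d) (nn p d ^ (1 / 10 : ℝ)) (nn p d ^ tau p) CK C m := by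
    refine ⟨?_, hm2, hp0, hCK, by linarith, by linarith, by linarith, by linarith, by linarith,
      ?_, ?_, ?_, ?_, ?_⟩
    · rw [← Real.rpow_natCast, ← Real.rpow_mul hn.le]
      norm_num
    · rw [← Real.rpow_natCast, ← Real.rpow_mul hn.le]
      apply Real.rpow_le_rpow_of_exponent_le hN1
      unfold tau
      rw [div_mul_eq_mul_div, div_le_div_iff₀ (by positivity) (by norm_num)]
      push_cast
      linarith
    · have e1 : (nn p d ^ tau p) ^ (2 * m) = nn p d ^ 8 := by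
        rw [← Real.rpow_natCast, ← Real.rpow_mul hn.le, ← Real.rpow_natCast]
        congr 1
        unfold tau
        rw [hm]
        push_cast
        field_simp
        norm_num
      rw [e1]
    · have h2 : (0 : ℝ) ≤ 2 * 2 ^ m := by positivity
      linarith
    · have h1 : 0 ≤ 2 * (24 * (p : ℝ) ^ 2) ^ (2 * m) := by positivity
      linarith
    · rw [div_le_iff₀ (by positivity)] at g3
      linarith
  have hW : ∀ δ : ZMod p → ℝ, EM δ → (∀ a, |δ a| ≤ rn C p d) →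
      ‖S4 (vd H A α δ) - (Real.exp (-2 * sig p d δ) : ℂ) * S4 (vd H A α 0)‖ ≤
        (nn p d ^ 2 + Real.exp (-2 * sig p d δ) * ‖S4 (vd H A α 0)‖) /
          (nn p d ^ tau p) ^ 8 ∧
      ‖T3 (vd H A α δ)‖ ≤ (nn p d ^ (1 / 10 : ℝ)) ^ 11 ∧
      ‖T2 (vd H A α δ)‖ ≤ (nn p d ^ (1 / 10 : ℝ)) ^ 6 :=
    fun δ hδ hr => WU_conv C H A α hWU _ _ rfl rfl δ hδ hr
  have hw0 : ∀ a, |(0 : ZMod p → ℝ) a| ≤ rn C p d := by
    intro a
    have := hwin a
    have h1 := abs_nonneg (δ a)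
    rw [Pi.zero_apply, abs_zero]
    linarith
  obtain ⟨-, h30, h20⟩ := hW 0 EM_zero hw0
  obtain ⟨c1, c2, c3⟩ := hW δ hδ hwin
  obtain ⟨j, hj⟩ := hWKK p d hp hp2 H A α hα
  have hjre : (T4f (vd H A α 0)).re = nn p d ^ 2 * (p : ℝ) ^ j := by
    rw [hj]
    have : ((nn p d : ℂ) ^ 2 * (p : ℂ) ^ j) = ((nn p d ^ 2 * (p : ℝ) ^ j : ℝ) : ℂ) := by
      push_cast
      ring
    rw [this, Complex.ofReal_re]
  have hN2 : 0 < nn p d ^ 2 := by positivity
  rcases Nat.eq_zero_or_pos j with hj0 | hj0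
  · rw [hj0, pow_zero, mul_one] at hjre
    have hσ0 : 0 < sig p d δ := by
      unfold sig
      obtain ⟨a, ha⟩ := hne
      have h1 : 0 < ∑ b, δ b ^ 2 :=
        Finset.sum_pos' (fun b _ => sq_nonneg _) ⟨a, Finset.mem_univ a, by positivity⟩
      positivity
    by_cases hσ1 : sig p d δ * (nn p d ^ tau p) ^ 4 ≤ 1
    · have hmu := (hMUU p d hp hp2 H A hH hA (tau p) hτ0 hTy).2.2.2
      exact case2 sz hR hDE1 hDE2 hWRE hp hp2 H A α hC hW hjre δ hδ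
        (fun x hx => hmu δ x hδ hx) hσ0 hσ1 Z hZ
    · push Not at hσ1
      have hq0 : 0 < nn p d ^ tau p := by positivity
      refine case1 sz (apx0 sz hDE2 hWRE hp hp2 H A α δ hδ Z hZ hjre h30 h20 c1 c2 c3) ?_
      rw [div_le_iff₀ (by positivity)]
      exact hσ1.le
  · refine apx1 sz hDE2 hWRE hp hp2 H A α δ hδ Z hZ ?_ h30 h20 c1 c2 c3
    rw [hjre]
    have h1 : (3 : ℝ) ≤ (p : ℝ) ^ j := by
      calc (3 : ℝ) ≤ p := hp3'
        _ ≤ (p : ℝ) ^ j := le_self_pow₀ (by linarith) (by omega)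
    nlinarith

end Pool.Agent.UAB
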