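import Pool.Agent.UAB.St

/-!
# Module REA: a slot alone on its line forces a constant real function
-/

set_option autoImplicit false

namespace Pool.Agent.UAB

open Finset
open Pool.Agent.UAA (G ch nn)

namespace REAaux

variable {p d : ℕ}

theorem dt_add (x h k : G p d) : dt x (h + k) = dt x h + dt x k := by
  unfold dt
  rw [← Finset.sum_add_distrib]
  exact Finset.sum_congr rfl fun i _ => by simp [mul_add]

theorem dt_smul (x h : G p d) (c : ZMod p) : dt x (c • h) = c * dt x h := by
  unfold dt
  rw [Finset.mul_sum]
  exact Finset.sum_congr rfl fun i _ => by simp; ring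

theorem dt_single (x : G p d) (j : Fin d) (c : ZMod p) : dt x (Pi.single j c) = x j * c := by
  unfold dt
  rw [Finset.sum_eq_single j]
  · simp
  · intro b _ hb
    simp [hb]
  · intro h
    exact absurd (Finset.mem_univ j) h

/-- Directions that see `y` but not `x`. -/
theorem exists_dir [Fact p.Prime] (y x : G p d) (hx : y ∉ Submodule.span (ZMod p) {x})
    (u : ZMod p) : ∃ k : G p d, dt x k = 0 ∧ dt y k = u := by
  have key : ∃ k : G p d, dt x k = 0 ∧ dt y k ≠ 0 := by
    by_contra hcon
    push Not at hcon
    apply hx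
    by_cases h0 : x = 0
    · have hy : y = 0 := by
        funext j
        have h1 := hcon (Pi.single j 1) (by rw [dt_single, h0]; simp)
        rw [dt_single] at h1
        simpa using h1
      rw [hy]
      exact Submodule.zero_mem _
    · obtain ⟨i, hi⟩ : ∃ i, x i ≠ 0 := by
        by_contra h
        push Not at h
        exact h0 (funext h)
      rw [Submodule.mem_span_singleton]
      refine ⟨y i / x i, ?_⟩
      funext j
      have h1 := hcon (Pi.single j 1 + Pi.single i (-(x j / x i))) (by
        rw [dt_add, dt_single, dt_single]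
        field_simp
        ring)
      rw [dt_add, dt_single, dt_single] at h1
      have h2 : y j = y i / x i * x j := by
        have : y j = y i * (x j / x i) := by linear_combination h1
        rw [this]
        ring
      simp [h2]
  obtain ⟨k, hk, hk'⟩ := key
  refine ⟨(u / dt y k) • k, ?_, ?_⟩
  · rw [dt_smul, hk, mul_zero]
  · rw [dt_smul, div_mul_cancel₀ _ hk']

theorem dt_surj [Fact p.Prime] (y : G p d) (hy : y ≠ 0) (u : ZMod p) : ∃ k : G p d, dt y k = u := by
  obtain ⟨k, -, hk⟩ := exists_dir y 0 (by
    rw [Submodule.span_zero_singleton]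
    simpa using hy) u
  exact ⟨k, hk⟩

/-- A function with constant differences is constant. -/
theorem const_of_diff [NeZero p] (g : ZMod p → ℝ)
    (h : ∀ u a b, g (a + u) - g a = g (b + u) - g b) : ∀ a b, g a = g b := by
  have h1 : ∀ u, ∀ n : ℕ, g ((n : ZMod p) * u) - g 0 = n * (g (0 + u) - g 0) := by
    intro u n
    induction n with
    | zero => simp
    | succ n ih =>
      have h2 := h u ((n : ZMod p) * u) 0
      have h3 : ((n + 1 : ℕ) : ZMod p) * u = (n : ZMod p) * u + u := by push_cast; ring
      rw [h3]
      push_cast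
      linarith
  have h4 : ∀ u, g (0 + u) - g 0 = 0 := by
    intro u
    have h5 := h1 u p
    rw [ZMod.natCast_self, zero_mul, sub_self] at h5
    have h6 : (p : ℝ) ≠ 0 := by exact_mod_cast NeZero.ne p
    exact (mul_eq_zero.1 h5.symm).resolve_left h6
  intro a b
  have h7 := h4 a
  have h8 := h4 b
  rw [zero_add] at h7 h8
  linarith

theorem main [Fact p.Prime] {ι : Type} [DecidableEq ι] (Y : ι → G p d) (ε : ι → ℝ) (s0 : ι)
    (he : ε s0 ≠ 0) (hy : Y s0 ≠ 0) :
    ∀ T : Finset ι, s0 ∉ T → (∀ s ∈ T, Y s0 ∉ Submodule.span (ZMod p) {Y s}) →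
      ∀ g : ι → ZMod p → ℝ, (∀ h, ∑ s ∈ insert s0 T, ε s * g s (dt (Y s) h) = 0) →
        ∀ a b, g s0 a = g s0 b := by
  intro T
  induction T using Finset.induction_on with
  | empty =>
    intro _ _ g hg a b
    have h1 : ∀ a, g s0 a = 0 := by
      intro a
      obtain ⟨k, hk⟩ := dt_surj (Y s0) hy a
      have h2 := hg k
      rw [insert_empty_eq, Finset.sum_singleton, hk] at h2
      exact (mul_eq_zero.1 h2).resolve_left he
    rw [h1, h1]
  | insert s1 T hs1 ih =>
    intro h0 hT g hg
    rw [Finset.mem_insert, not_or] at h0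
    apply const_of_diff (g s0)
    intro u
    obtain ⟨k, hk, hk'⟩ := exists_dir (Y s0) (Y s1) (hT s1 (Finset.mem_insert_self _ _)) u
    have h3 := ih h0.2 (fun s hs => hT s (Finset.mem_insert_of_mem hs))
      (fun s a => g s (a + dt (Y s) k) - g s a) (by
        intro h
        have h4 := hg h
        have h5 := hg (h + k)
        have h6 : ∑ s ∈ insert s0 (insert s1 T), ε s * (g s (dt (Y s) h + dt (Y s) k) -
            g s (dt (Y s) h)) = 0 := by
          have h7 : ∑ s ∈ insert s0 (insert s1 T), ε s * (g s (dt (Y s) h + dt (Y s) k) -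
              g s (dt (Y s) h)) = ∑ s ∈ insert s0 (insert s1 T), ε s * g s (dt (Y s) (h + k)) -
                ∑ s ∈ insert s0 (insert s1 T), ε s * g s (dt (Y s) h) := by
            rw [← Finset.sum_sub_distrib]
            exact Finset.sum_congr rfl fun s _ => by rw [dt_add]; ring
          rw [h7, h4, h5, sub_zero]
        rw [Finset.insert_comm, Finset.sum_insert] at h6
        · rw [hk, add_zero, sub_self, mul_zero, zero_add] at h6
          exact h6
        · rw [Finset.mem_insert, not_or]
          exact ⟨fun h => h0.1 h.symm, hs1⟩)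
    intro a b
    have h8 := h3 a b
    simp only [hk'] at h8
    exact h8

end REAaux

theorem t_REA : REA_Stmt := by
  intro p d _ hp ι _ _ Y ε s0 hs0 hY hsp δ hδ
  have : Fact p.Prime := ⟨hp⟩
  have he : (ε s0 : ℝ) ≠ 0 := by
    rcases hs0 with h | h <;> rw [h] <;> norm_num
  refine REAaux.main Y (fun s => (ε s : ℝ)) s0 he hY (Finset.univ.erase s0)
    (Finset.notMem_erase _ _) ?_ (fun _ => δ) ?_
  · intro s hs
    exact hsp s (Finset.ne_of_mem_erase hs)
  · intro h
    rw [Finset.insert_erase (Finset.mem_univ s0)]
    exact hδ h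

end Pool.Agent.UAB
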