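import Pool.Agent.UAB.St

/-!
# Real version of the structure theorem (MP_e32761_co)   (helper15)
-/

set_option autoImplicit false

namespace Pool.Agent.UAB

open Finset Filter Topology
open Pool.Agent.UAA (G ch nn)

namespace STQaux

theorem vec_ne_zero {p d : ℕ} {t : G p d × G p d × G p d} (h : Gq t) (j : Fin 4) :
    vec t j ≠ 0 := by
  obtain ⟨h1, h2, h3, h4, -⟩ := h
  fin_cases j
  · exact h1
  · exact h2
  · exact h3
  · exact h4

theorem sg_cases (j : Fin 4) : sg j = 1 ∨ sg j = -1 := by
  fin_cases j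
  · exact Or.inl rfl
  · exact Or.inl rfl
  · exact Or.inr rfl
  · exact Or.inr rfl

theorem ee_cases {p d N : ℕ} {Q : Fin N → G p d × G p d × G p d} {η : Fin N → ℤ} (h : Fam Q η)
    (s : Fin N × Fin 4) : ee η s = 1 ∨ ee η s = -1 := by
  unfold ee
  rcases h.2 s.1 with h1 | h1 <;> rcases sg_cases s.2 with h2 | h2 <;> rw [h1, h2] <;> norm_num

theorem span_eq {p d : ℕ} [Fact p.Prime] {x y : G p d} (hx : x ≠ 0)
    (h : x ∈ Submodule.span (ZMod p) {y}) :
    Submodule.span (ZMod p) {y} = Submodule.span (ZMod p) {x} := by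
  obtain ⟨c, rfl⟩ := Submodule.mem_span_singleton.1 h
  have hc : c ≠ 0 := by
    rintro rfl
    exact hx (zero_smul _ _)
  exact (Submodule.span_singleton_smul_eq (IsUnit.mk0 c hc) y).symm

end STQaux

open STQaux in
theorem t_STQ (h1 : REA_Stmt) (h2 : GRD_Stmt) : STQ_Stmt := by
  classical
  intro p d N _ hp hp2 Q η hF hN δ hδ
  have : Fact p.Prime := ⟨hp⟩
  have h0 : ∀ s, X Q s ≠ 0 := fun s => vec_ne_zero (hF.1 s.1) s.2
  by_cases hal : ∃ s0, ∀ s, s ≠ s0 → X Q s0 ∉ Submodule.span (ZMod p) {X Q s}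
  · obtain ⟨s0, hs0⟩ := hal
    exact h1 p d hp (Fin N × Fin 4) (X Q) (ee η) s0 (ee_cases hF s0) (h0 s0) hs0 δ hδ
  · exfalso
    push Not at hal
    have h3 := h2 p d N hp Q hF.1 ∅ (fun s hs => absurd hs (Set.notMem_empty s))
    rw [Set.image_empty, Submodule.span_empty, finrank_bot, Set.compl_empty, Set.image_univ,
      mul_zero, zero_add] at h3
    set φ : Fin N × Fin 4 → Submodule (ZMod p) (G p d) :=
      fun s => Submodule.span (ZMod p) {X Q s} with hφ
    have h4 : 2 * ((univ : Finset (Fin N × Fin 4)).image φ).card ≤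
        (univ : Finset (Fin N × Fin 4)).card := by
      refine Finset.mul_card_image_le_card _ 2 fun a ha => ?_
      obtain ⟨s0, -, rfl⟩ := Finset.mem_image.1 ha
      obtain ⟨s, hs, hs'⟩ := hal s0
      have e : φ s = φ s0 := span_eq (h0 s0) hs'
      have hsub : ({s0, s} : Finset (Fin N × Fin 4)) ⊆
          (univ : Finset (Fin N × Fin 4)).filter fun x => φ x = φ s0 := by
        intro x hx
        rw [Finset.mem_filter]
        refine ⟨Finset.mem_univ _, ?_⟩
        rcases Finset.mem_insert.1 hx with rfl | hx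
        · rfl
        · rw [Finset.mem_singleton.1 hx]
          exact e
      have := Finset.card_le_card hsub
      rwa [Finset.card_pair hs.symm] at this
    have h5 : Set.ncard (Set.range φ) = ((univ : Finset (Fin N × Fin 4)).image φ).card := by
      rw [← Set.ncard_coe_finset, Finset.coe_image, Finset.coe_univ, Set.image_univ]
    rw [Finset.card_univ, Fintype.card_prod, Fintype.card_fin, Fintype.card_fin] at h4
    rw [h5] at h3
    omega

end Pool.Agent.UAB
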