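import Pool.Agent.UAB.St

/-!
# The structure theorem (module STR)
-/

set_option autoImplicit false

namespace Pool.Agent.UAB

open Finset Filter Topology
open Pool.Agent.UAA (G ch nn)

namespace STRaux

theorem two_le {α β : Type} [Fintype α] (g : α → β) (S : Set α)
    (h : ∀ s ∈ S, ∃ s' ∈ S, s' ≠ s ∧ g s' = g s) :
    2 * Set.ncard (g '' S) ≤ Set.ncard S := by
  classical
  have h1 : S = ↑(univ.filter fun s => s ∈ S) := by
    ext s
    simp
  set F := univ.filter fun s => s ∈ S with hF
  have hmem : ∀ s, s ∈ F ↔ s ∈ S := fun s => by simp [hF]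
  have h2 : g '' S = ↑(F.image g) := by
    rw [Finset.coe_image, ← h1]
  rw [h2, Set.ncard_coe_finset]
  conv_rhs => rw [h1, Set.ncard_coe_finset]
  refine Finset.mul_card_image_le_card _ 2 ?_
  intro a ha
  obtain ⟨s, hs, rfl⟩ := Finset.mem_image.1 ha
  obtain ⟨s', hs', hne, he⟩ := h s ((hmem s).1 hs)
  refine Finset.one_lt_card.2 ⟨s, ?_, s', ?_, hne.symm⟩
  · exact Finset.mem_filter.2 ⟨hs, rfl⟩
  · exact Finset.mem_filter.2 ⟨(hmem s').2 hs', he⟩

theorem choose_congr {α β : Type} (l : α → β) {L L' : β} (h : L = L') (e1 : ∃ s, l s = L)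
    (e2 : ∃ s, l s = L') : e1.choose = e2.choose := by
  subst h
  rfl

/-- A representative of the fibre. -/
noncomputable def rho {α β : Type} (l : α → β) (s : α) : α :=
  (⟨s, rfl⟩ : ∃ s', l s' = l s).choose

theorem rho_spec {α β : Type} (l : α → β) (s : α) : l (rho l s) = l s :=
  (⟨s, rfl⟩ : ∃ s', l s' = l s).choose_spec

theorem rho_congr {α β : Type} (l : α → β) {s s' : α} (h : l s = l s') : rho l s = rho l s' :=
  choose_congr l h _ _

theorem rho_idem {α β : Type} (l : α → β) (s : α) : rho l (rho l s) = rho l s :=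
  rho_congr l (rho_spec l s)

variable {p d : ℕ}

theorem span_eq [Fact p.Prime] {x y : G p d} (hx : x ≠ 0)
    (h : x ∈ Submodule.span (ZMod p) {y}) :
    Submodule.span (ZMod p) {x} = Submodule.span (ZMod p) {y} := by
  obtain ⟨c, hc⟩ := Submodule.mem_span_singleton.1 h
  have hc0 : c ≠ 0 := by
    rintro rfl
    exact hx (by rw [← hc, zero_smul])
  rw [← hc]
  exact Submodule.span_singleton_smul_eq (IsUnit.mk0 c hc0) y

theorem X_ne {N : ℕ} (Q : Fin N → G p d × G p d × G p d) (hQ : ∀ i, Gq (Q i))
    (s : Fin N × Fin 4) : X Q s ≠ 0 := by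
  obtain ⟨i, j⟩ := s
  obtain ⟨h1, h2, h3, h4, -⟩ := hQ i
  fin_cases j
  · exact h1
  · exact h2
  · exact h3
  · exact h4

theorem ee_pm {N : ℕ} (η : Fin N → ℤ) (hη : ∀ i, η i = 1 ∨ η i = -1) (s : Fin N × Fin 4) :
    ee η s = 1 ∨ ee η s = -1 := by
  obtain ⟨i, j⟩ := s
  have h1 : sg j = 1 ∨ sg j = -1 := by
    fin_cases j <;> simp [sg]
  unfold ee
  rcases hη i with h | h <;> rcases h1 with h1 | h1 <;> simp [h, h1]

theorem dt_smul (c : ZMod p) (x k : G p d) : dt (c • x) k = c * dt x k := by
  unfold dt
  rw [Finset.mul_sum]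
  refine Finset.sum_congr rfl fun i _ => ?_
  rw [Pi.smul_apply, smul_eq_mul, mul_assoc]

end STRaux

open STRaux

theorem t_STR (hPL1 : PL1_Stmt) (hDEG : DEG_Stmt) (hPL2 : PL2_Stmt) (hLEM : LEM_Stmt)
    (hGRD : GRD_Stmt) : STR_Stmt := by
  classical
  intro p d N hp0 hp hp2 Q η hFam f hf hQd hFF
  have : Fact p.Prime := ⟨hp⟩
  obtain ⟨hQ, hη⟩ := hFam
  have hX := X_ne Q hQ
  have hε := ee_pm η hη
  set l : Fin N × Fin 4 → Submodule (ZMod p) (G p d) :=
    fun s => Submodule.span (ZMod p) {X Q s} with hl
  have hcard : Fintype.card (Fin N × Fin 4) = 4 * N := by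
    rw [Fintype.card_prod, Fintype.card_fin, Fintype.card_fin, mul_comm]
  by_cases hcase : ∀ s, ∃ s', s' ≠ s ∧ l s' = l s
  · -- every line is spanned by two slots
    have h1 := hGRD p d N hp Q hQ ∅ (by simp)
    rw [Set.image_empty, Submodule.span_empty, finrank_bot, mul_zero, zero_add,
      Set.compl_empty] at h1
    have h2 := two_le l Set.univ fun s _ => by
      obtain ⟨s', h3, h4⟩ := hcase s
      exact ⟨s', Set.mem_univ _, h3, h4⟩
    rw [Set.ncard_univ, Nat.card_eq_fintype_card, hcard] at h2
    have h3 : 4 * rk (X Q) ≤ 3 * Set.ncard (l '' Set.univ) := h1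
    omega
  · push Not at hcase
    obtain ⟨s0, hs0⟩ := hcase
    have hf0 : ∀ a, f a ≠ 0 := fun a h => by
      have := hf.1 a
      rw [h, norm_zero] at this
      exact zero_ne_one this
    obtain ⟨m0, hm0⟩ := hPL1 p d hp (Fin N × Fin 4) (X Q) (ee η) s0 (hε s0) (hX s0)
      (fun s hs h => hs0 s hs (span_eq (hX s0) h).symm) f hf0 hFF
    obtain ⟨m, b, hm, hb, hdms⟩ := hDEG p hp hp2 f hf hQd ⟨m0, hm0⟩
    have hrel := hPL2 p d hp (Fin N × Fin 4) (X Q) (ee η) f m b hf0 hb hdms hFF
    -- representatives
    have hc : ∀ s, ∃ c : ZMod p, c • X Q (rho l s) = X Q s := by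
      intro s
      have h1 : X Q s ∈ l s := Submodule.mem_span_singleton_self _
      rw [← rho_spec l s] at h1
      exact Submodule.mem_span_singleton.1 h1
    choose c hc using hc
    have hc0 : ∀ s, c s ≠ 0 := by
      intro s h
      have h1 := hc s
      rw [h, zero_smul] at h1
      exact hX s h1.symm
    set α : Fin N × Fin 4 → ZMod p := fun r =>
      ∑ s ∈ univ.filter (fun s => rho l s = r), (ee η s : ZMod p) * c s ^ m with hα
    have hαr : ∀ r, α r ≠ 0 → rho l r = r := by
      intro r hr
      obtain ⟨s, hs, -⟩ := Finset.exists_ne_zero_of_sum_ne_zero hr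
      have h1 := (Finset.mem_filter.1 hs).2
      rw [← h1]
      exact rho_idem l s
    have hLEM' := hLEM (ZMod p) d m {r : Fin N × Fin 4 // α r ≠ 0} (fun t => X Q t.1)
      (fun t => α t.1) hm (fun t => t.2) (fun t => hX t.1) (by
        rintro ⟨s, hs⟩ ⟨t, ht⟩ hst c' h
        apply hst
        have h1 : l s = l t := by
          refine span_eq (hX s) ?_
          rw [Submodule.mem_span_singleton]
          exact ⟨c', h.symm⟩
        have h2 := rho_congr l h1
        rw [hαr s hs, hαr t ht] at h2
        exact Subtype.ext h2) (by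
        intro k
        have h1 : ∑ t : {r : Fin N × Fin 4 // α r ≠ 0}, α t.1 * ∏ j, ∑ i, X Q t.1 i * k j i =
            ∑ r, α r * ∏ j, dt (X Q r) (k j) := by
          have h2 : ∑ r, α r * ∏ j, dt (X Q r) (k j) =
              ∑ r ∈ univ.filter (fun r => α r ≠ 0), α r * ∏ j, dt (X Q r) (k j) := by
            rw [Finset.sum_filter_of_ne]
            intro r _ hr h
            exact hr (by rw [h, zero_mul])
          rw [h2]
          exact (Finset.sum_subtype (univ.filter fun r => α r ≠ 0) (p := fun r => α r ≠ 0)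
            (fun r => by simp) (fun r => α r * ∏ j, dt (X Q r) (k j))).symm
        rw [h1]
        have h3 : ∑ r, α r * ∏ j, dt (X Q r) (k j) =
            ∑ s, (ee η s : ZMod p) * ∏ j, dt (X Q s) (k j) := by
          symm
          rw [← Finset.sum_fiberwise (s := univ) (g := rho l)]
          symm
          refine Finset.sum_congr rfl fun r _ => ?_
          rw [hα, Finset.sum_mul]
          refine Finset.sum_congr rfl fun s hs => ?_
          have h4 := (Finset.mem_filter.1 hs).2
          rw [← h4]
          have h5 : ∀ j, dt (X Q s) (k j) = c s * dt (X Q (rho l s)) (k j) := fun j => by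
            rw [← dt_smul, hc]
          simp only [h5]
          rw [Finset.prod_mul_distrib, Finset.prod_const, Finset.card_univ, Fintype.card_fin,
            mul_assoc]
        rw [h3]
        exact hrel k)
    set B : Set (Fin N × Fin 4) := {s | α (rho l s) ≠ 0} with hB
    have hG := hGRD p d N hp Q hQ B (by
      intro s hs s' h
      have h1 : rho l s' = rho l s := rho_congr l h
      change α (rho l s') ≠ 0
      rw [h1]
      exact hs)
    have hfin : Module.finrank (ZMod p) (Submodule.span (ZMod p) (X Q '' B)) ≤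
        Module.finrank (ZMod p) (Submodule.span (ZMod p)
          (Set.range fun t : {r : Fin N × Fin 4 // α r ≠ 0} => X Q t.1)) := by
      refine Submodule.finrank_mono (Submodule.span_le.2 ?_)
      rintro _ ⟨s, hs, rfl⟩
      rw [← hc s]
      exact Submodule.smul_mem _ _ (Submodule.subset_span ⟨⟨rho l s, hs⟩, rfl⟩)
    have hT : Fintype.card {r : Fin N × Fin 4 // α r ≠ 0} ≤ B.ncard := by
      rw [← Nat.card_eq_fintype_card]
      change Set.ncard {r : Fin N × Fin 4 | α r ≠ 0} ≤ B.ncard
      refine Set.ncard_le_ncard ?_ (Set.toFinite B)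
      intro r hr
      change α (rho l r) ≠ 0
      rw [hαr r hr]
      exact hr
    have hlines : 2 * Set.ncard (l '' Bᶜ) ≤ Set.ncard Bᶜ := by
      refine two_le l Bᶜ fun s hs => ?_
      by_contra hcon
      push Not at hcon
      have h1 : ∀ s', l s' = l s → s' = s := by
        intro s' h
        by_contra hne
        refine hcon s' ?_ hne h
        intro h2
        apply hs
        have h3 : rho l s' = rho l s := rho_congr l h
        change α (rho l s') ≠ 0 at h2
        rw [h3] at h2
        exact h2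
      have h2 : rho l s = s := h1 _ (rho_spec l s)
      apply hs
      change α (rho l s) ≠ 0
      rw [h2, hα]
      have h3 : (univ.filter fun s' => rho l s' = s) = {s} := by
        ext s'
        rw [Finset.mem_filter, Finset.mem_singleton]
        constructor
        · rintro ⟨-, h⟩
          refine h1 s' ?_
          rw [← rho_spec l s', h]
        · rintro rfl
          exact ⟨Finset.mem_univ _, h2⟩
      simp only [h3, Finset.sum_singleton]
      refine mul_ne_zero ?_ (pow_ne_zero _ (hc0 s))
      rcases hε s with h | h <;> rw [h] <;> simp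
    have hcompl : B.ncard + (Bᶜ).ncard = 4 * N := by
      rw [Set.ncard_add_ncard_compl, Nat.card_eq_fintype_card, hcard]
    have hG' : 4 * rk (X Q) ≤ 4 * Module.finrank (ZMod p) (Submodule.span (ZMod p) (X Q '' B)) +
        3 * Set.ncard (l '' Bᶜ) := hG
    have hL2 : 13 * Module.finrank (ZMod p) (Submodule.span (ZMod p)
        (Set.range fun t : {r : Fin N × Fin 4 // α r ≠ 0} => X Q t.1)) ≤
          6 * Fintype.card {r : Fin N × Fin 4 // α r ≠ 0} := hLEM'
    generalize Module.finrank (ZMod p) (Submodule.span (ZMod p)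
        (Set.range fun t : {r : Fin N × Fin 4 // α r ≠ 0} => X Q t.1)) = a1 at hL2 hfin
    generalize Module.finrank (ZMod p) (Submodule.span (ZMod p) (X Q '' B)) = a2 at hfin hG'
    clear hG hLEM'
    omega

end Pool.Agent.UAB
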