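import Pool.Agent.UAB.St

/-!
# Uniform mixing on almost all Cayley graphs: transfer to subsets of a half set (TRF)
-/

set_option autoImplicit false

namespace Pool.Agent.UAB

open Finset
open Pool.Agent.UAA (G ch nn)

namespace TRFaux

open Pool.Agent.Lib_helper58.CayleyUM

variable {p d : ℕ} [NeZero p]

theorem mem_sym (A : Finset (G p d)) (c : G p d) :
    c ∈ A ∪ A.image (fun c => -c) ↔ c ∈ A ∨ -c ∈ A := by
  rw [Finset.mem_union, Finset.mem_image]
  constructor
  · rintro (h | ⟨b, hb, rfl⟩)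
    · exact Or.inl h
    · rw [neg_neg]
      exact Or.inr hb
  · rintro (h | h)
    · exact Or.inl h
    · exact Or.inr ⟨-c, h, neg_neg c⟩

theorem inter_eq {H : Finset (G p d)} (hH : Half H) {A : Finset (G p d)} (hA : A ⊆ H) :
    (A ∪ A.image fun c => -c).filter (fun c => c ∈ H) = A := by
  ext c
  rw [Finset.mem_filter, mem_sym]
  constructor
  · rintro ⟨h | h, hc⟩
    · exact h
    · exfalso
      have h0 : c ≠ 0 := by
        rintro rfl
        exact hH.1 hc
      exact (hH.2 c h0).1 hc (hA h)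
  · intro h
    exact ⟨Or.inl h, hA h⟩

theorem part1 (H : Finset (G p d)) (hH : Half H) (P : Finset (G p d) → Prop) :
    Set.ncard {C : Finset (G p d) | ((0 : G p d) ∉ C ∧ ∀ c ∈ C, -c ∈ C) ∧ P C} =
      Set.ncard {A : Finset (G p d) | A ⊆ H ∧ P (A ∪ A.image fun c => -c)} := by
  have h1 : {C : Finset (G p d) | ((0 : G p d) ∉ C ∧ ∀ c ∈ C, -c ∈ C) ∧ P C} =
      (fun A : Finset (G p d) => A ∪ A.image fun c => -c) ''
        {A : Finset (G p d) | A ⊆ H ∧ P (A ∪ A.image fun c => -c)} := by
    ext C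
    constructor
    · rintro ⟨⟨h0, hs⟩, hP⟩
      have h2 : (C.filter fun c => c ∈ H) ∪ (C.filter fun c => c ∈ H).image (fun c => -c) = C := by
        ext c
        rw [mem_sym, Finset.mem_filter, Finset.mem_filter]
        constructor
        · rintro (⟨h, -⟩ | ⟨h, -⟩)
          · exact h
          · have := hs _ h
            rwa [neg_neg] at this
        · intro h
          have hc0 : c ≠ 0 := by
            rintro rfl
            exact h0 h
          by_cases hcH : c ∈ H
          · exact Or.inl ⟨h, hcH⟩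
          · right
            refine ⟨hs c h, ?_⟩
            by_contra h3
            exact hcH ((hH.2 c hc0).2 h3)
      refine ⟨C.filter fun c => c ∈ H, ⟨fun c hc => (Finset.mem_filter.1 hc).2, ?_⟩, h2⟩
      rw [h2]
      exact hP
    · rintro ⟨A, ⟨hA, hP⟩, rfl⟩
      refine ⟨⟨fun h => ?_, fun c hc => ?_⟩, hP⟩
      · rw [mem_sym, neg_zero, or_self] at h
        exact hH.1 (hA h)
      · rw [mem_sym] at hc ⊢
        rw [neg_neg]
        exact hc.symm
  rw [h1]
  refine Set.InjOn.ncard_image ?_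
  intro A hA B hB hAB
  simp only at hAB
  rw [← inter_eq hH hA.1, ← inter_eq hH hB.1, hAB]

theorem chr_ch (x c : G p d) : Pool.Agent.UMix.chr x c = ch x c := rfl

theorem lam_eq {H : Finset (G p d)} (hH : Half H) {A : Finset (G p d)} (hA : A ⊆ H) (x : G p d) :
    lam (A ∪ A.image fun c => -c) (Pool.Agent.UMix.chr x) =
      ∑ h ∈ A, ((ZMod.stdAddChar (dt x h) : ℂ) + (ZMod.stdAddChar (-dt x h) : ℂ)) := by
  unfold lam
  rw [Finset.sum_union, Finset.sum_add_distrib, Finset.sum_image]
  · congr 1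
    refine Finset.sum_congr rfl fun h _ => ?_
    have h1 : -dt x h = ∑ i, x i * (-h) i := by
      unfold dt
      rw [← Finset.sum_neg_distrib]
      refine Finset.sum_congr rfl fun i _ => ?_
      rw [Pi.neg_apply, mul_neg]
    rw [h1]
    rfl
  · intro a _ b _ h
    exact neg_injective h
  · rw [Finset.disjoint_left]
    intro c hc hc'
    obtain ⟨b, hb, rfl⟩ := Finset.mem_image.1 hc'
    have h0 : b ≠ 0 := by
      rintro rfl
      exact hH.1 (hA hb)
    exact (hH.2 b h0).1 (hA hb) (hA hc)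

theorem ph_wt {H : Finset (G p d)} (hH : Half H) {A : Finset (G p d)} (hA : A ⊆ H) (t : ℝ)
    (x : G p d) :
    ph (A ∪ A.image fun c => -c) t (Pool.Agent.UMix.chr x) = wt (ft p t) A x := by
  unfold ph wt ft
  rw [lam_eq hH hA, Finset.mul_sum, Complex.exp_sum]

theorem row_wt {H : Finset (G p d)} (hH : Half H) {A : Finset (G p d)} (hA : A ⊆ H) (t : ℝ)
    (b : G p d) :
    (nn p d : ℂ) * row (A ∪ A.image fun c => -c) t b =
      ∑ x, wt (ft p t) A x * ch (-b) x := by
  have h1 := row_eq (A ∪ A.image fun c => -c) t b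
  have h2 : (Fintype.card (G p d) : ℂ) = (nn p d : ℂ) := by
    unfold nn
    rw [Fintype.card_fun, ZMod.card, Fintype.card_fin]
    push_cast
    rfl
  rw [h2] at h1
  rw [h1, ← Function.Bijective.sum_comp (Pool.Agent.UMix.chr_bijective (q := p) (d := d))]
  refine Finset.sum_congr rfl fun x _ => ?_
  rw [ph_wt hH hA, chr_ch]
  have h3 : ∑ i, x i * (-b) i = ∑ i, (-b) i * x i :=
    Finset.sum_congr rfl fun i _ => mul_comm _ _
  unfold ch
  rw [h3]

theorem part2 (H : Finset (G p d)) (hH : Half H) (A : Finset (G p d)) (hA : A ⊆ H) (t : ℝ) :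
    Flat (A ∪ A.image fun c => -c) t ↔ FlatV (wt (ft p t) A) := by
  have hn : 0 < nn p d := by
    unfold nn
    have : 0 < p := Nat.pos_of_ne_zero (NeZero.ne p)
    positivity
  have hc : (Fintype.card (G p d) : ℝ) = nn p d := by
    unfold nn
    rw [Fintype.card_fun, ZMod.card, Fintype.card_fin]
    push_cast
    rfl
  have h1 : ∀ b, ‖∑ x, wt (ft p t) A x * ch (-b) x‖ ^ 2 =
      nn p d ^ 2 * ‖row (A ∪ A.image fun c => -c) t b‖ ^ 2 := by
    intro b
    rw [← row_wt hH hA t b, norm_mul, mul_pow, Complex.norm_real, Real.norm_of_nonneg hn.le]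
  constructor
  · intro h b
    have h2 := h1 (-b)
    rw [neg_neg, h (-b), hc] at h2
    rw [h2]
    field_simp
  · intro h b
    have h2 := h1 b
    rw [h (-b)] at h2
    rw [hc, eq_div_iff hn.ne']
    have h3 : nn p d * (‖row (A ∪ A.image fun c => -c) t b‖ ^ 2 * nn p d) = nn p d * 1 := by
      rw [mul_one]
      linarith
    exact mul_left_cancel₀ hn.ne' h3

end TRFaux

theorem t_TRF : TRF_Stmt := by
  intro p d _ _ _ H hH
  exact ⟨fun P => TRFaux.part1 H hH P, fun A hA t => TRFaux.part2 H hH A hA t⟩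

end Pool.Agent.UAB
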