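import Pool.Agent.UAB.St

/-!
# Module TYA: most `A` are typical
-/

set_option autoImplicit false

namespace Pool.Agent.UAB

open Finset
open Pool.Agent.UAA (G ch nn)

namespace TYAaux

variable {p d : ℕ}

theorem dt_neg' (x c : G p d) : dt x (-c) = - dt x c := by
  unfold dt
  rw [← Finset.sum_neg_distrib]
  exact Finset.sum_congr rfl fun i _ => by simp

theorem dt_zero' (x : G p d) : dt x 0 = 0 := by
  unfold dt
  simp

theorem sum_H [NeZero p] (hHLF : HLF_Stmt) (hUDF : UDF_Stmt) (hp : p.Prime) (h2 : p ≠ 2)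
    (H : Finset (G p d)) (hH : Half H) (x : G p d) (hx : x ≠ 0) (δ : ZMod p → ℝ)
    (hδ : ∀ a, δ (-a) = δ a) :
    2 * ∑ h ∈ H, δ (dt x h) = nn p d / p * ∑ a, δ a - δ 0 := by
  have h1 := ((hHLF p d hp h2).2 H hH).2 (fun c => (δ (dt x c) : ℂ)) (fun c => by
    simp only [dt_neg', hδ])
  have h3 := (hUDF p d hp).1 x hx (fun a => (δ a : ℂ))
  have hp0 : (p : ℝ) ≠ 0 := by
    have := hp.pos
    positivity
  have h1' : 2 * ∑ h ∈ H, δ (dt x h) + δ 0 = ∑ c : G p d, δ (dt x c) := by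
    have h4 := h1
    simp only [dt_zero'] at h4
    exact_mod_cast h4
  have h3' : (p : ℝ) * ∑ c : G p d, δ (dt x c) = nn p d * ∑ a, δ a := by
    exact_mod_cast h3
  have h5 : ∑ c : G p d, δ (dt x c) = nn p d / p * ∑ a, δ a := by
    field_simp
    linarith
  linarith

/-- The exponential moment. -/
theorem expmom {α : Type} (H : Finset α) (c : α → ℝ) (hc : ∀ h ∈ H, |c h| ≤ 2) (s : ℝ) :
    ∑ A ∈ H.powerset, Real.exp (s * (∑ h ∈ A, c h - (∑ h ∈ H, c h) / 2)) ≤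
      2 ^ H.card * Real.exp (s ^ 2 * H.card / 2) := by
  classical
  have h1 : ∀ A ∈ H.powerset, Real.exp (s * (∑ h ∈ A, c h - (∑ h ∈ H, c h) / 2)) =
      (∏ h ∈ A, Real.exp (s * c h)) * ∏ h ∈ H, Real.exp (-(s * c h / 2)) := by
    intro A _
    rw [← Real.exp_sum, ← Real.exp_sum, ← Real.exp_add]
    congr 1
    rw [← Finset.mul_sum, Finset.sum_neg_distrib, ← Finset.sum_div, ← Finset.mul_sum]
    ring
  rw [Finset.sum_congr rfl h1, ← Finset.sum_mul, ← Finset.prod_one_add, ← Finset.prod_mul_distrib]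
  have h3 : ∀ h ∈ H, (1 + Real.exp (s * c h)) * Real.exp (-(s * c h / 2)) ≤
      2 * Real.exp (s ^ 2 / 2) := by
    intro h hh
    have h4 : (1 + Real.exp (s * c h)) * Real.exp (-(s * c h / 2)) =
        2 * Real.cosh (s * c h / 2) := by
      rw [Real.cosh_eq, add_mul, one_mul, ← Real.exp_add]
      have h5 : s * c h + -(s * c h / 2) = s * c h / 2 := by ring
      rw [h5]
      ring
    rw [h4]
    have h6 := Real.cosh_le_exp_half_sq (s * c h / 2)
    have h7 : (s * c h / 2) ^ 2 ≤ s ^ 2 := by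
      have h8 : (c h) ^ 2 ≤ 2 ^ 2 := by
        rw [← sq_abs (c h)]
        have := hc h hh
        have h9 := abs_nonneg (c h)
        nlinarith
      have h10 : (s * c h / 2) ^ 2 = s ^ 2 * (c h) ^ 2 / 4 := by ring
      rw [h10]
      nlinarith [sq_nonneg s]
    have h11 : Real.exp ((s * c h / 2) ^ 2 / 2) ≤ Real.exp (s ^ 2 / 2) :=
      Real.exp_le_exp.2 (by linarith)
    linarith
  calc ∏ h ∈ H, (1 + Real.exp (s * c h)) * Real.exp (-(s * c h / 2))
      ≤ ∏ _h ∈ H, 2 * Real.exp (s ^ 2 / 2) := by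
        apply Finset.prod_le_prod
        · intro h _
          positivity
        · exact h3
    _ = 2 ^ H.card * Real.exp (s ^ 2 * H.card / 2) := by
        rw [Finset.prod_const, mul_pow, ← Real.exp_nat_mul]
        congr 2
        ring

/-- Chernoff's bound. -/
theorem chern {α : Type} (H : Finset α) (c : α → ℝ) (hc : ∀ h ∈ H, |c h| ≤ 2) (n t : ℝ)
    (hn : 0 < n) (hHn : 2 * (H.card : ℝ) ≤ n) (ht : 0 ≤ t) :
    (Set.ncard {A : Finset α | A ⊆ H ∧ t ≤ ∑ h ∈ A, c h - (∑ h ∈ H, c h) / 2} : ℝ) ≤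
      2 ^ H.card * Real.exp (-(t ^ 2 / n)) := by
  classical
  set s : ℝ := 2 * t / n with hs
  have hs0 : 0 ≤ s := by positivity
  have h1 := mkv H (fun A => Real.exp (s * (∑ h ∈ A, c h - (∑ h ∈ H, c h) / 2)))
    (fun A _ => (Real.exp_pos _).le) (Real.exp (s * t))
  have h2 := expmom H c hc s
  have h3 : Set.ncard {A : Finset α | A ⊆ H ∧ t ≤ ∑ h ∈ A, c h - (∑ h ∈ H, c h) / 2} ≤
      Set.ncard {A : Finset α | A ⊆ H ∧
        Real.exp (s * t) ≤ Real.exp (s * (∑ h ∈ A, c h - (∑ h ∈ H, c h) / 2))} :=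
    ncard_mono H fun A _ hA => Real.exp_le_exp.2 (mul_le_mul_of_nonneg_left hA hs0)
  have h4 : (Set.ncard {A : Finset α | A ⊆ H ∧ t ≤ ∑ h ∈ A, c h - (∑ h ∈ H, c h) / 2} : ℝ) ≤
      (Set.ncard {A : Finset α | A ⊆ H ∧
        Real.exp (s * t) ≤ Real.exp (s * (∑ h ∈ A, c h - (∑ h ∈ H, c h) / 2))} : ℝ) := by
    exact_mod_cast h3
  have h5 : Real.exp (s ^ 2 * H.card / 2) ≤ Real.exp (-(t ^ 2 / n)) * Real.exp (s * t) := by
    rw [← Real.exp_add]
    apply Real.exp_le_exp.2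
    have h6 : s * n = 2 * t := by
      rw [hs]
      field_simp
    have h7 : t ^ 2 / n = s ^ 2 * n / 4 := by
      rw [hs]
      field_simp
      ring
    have h8 : s * t = s ^ 2 * n / 2 := by
      have : t = s * n / 2 := by linarith
      rw [this]
      ring
    rw [h7, h8]
    have h9 : s ^ 2 * (2 * (H.card : ℝ)) ≤ s ^ 2 * n :=
      mul_le_mul_of_nonneg_left hHn (sq_nonneg s)
    linarith
  have h10 : (0 : ℝ) < Real.exp (s * t) := Real.exp_pos _
  have h11 : (Set.ncard {A : Finset α | A ⊆ H ∧ t ≤ ∑ h ∈ A, c h - (∑ h ∈ H, c h) / 2} : ℝ) *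
      Real.exp (s * t) ≤ (2 ^ H.card * Real.exp (-(t ^ 2 / n))) * Real.exp (s * t) := by
    calc (Set.ncard {A : Finset α | A ⊆ H ∧ t ≤ ∑ h ∈ A, c h - (∑ h ∈ H, c h) / 2} : ℝ) *
          Real.exp (s * t) ≤ (Set.ncard {A : Finset α | A ⊆ H ∧
        Real.exp (s * t) ≤ Real.exp (s * (∑ h ∈ A, c h - (∑ h ∈ H, c h) / 2))} : ℝ) *
          Real.exp (s * t) := mul_le_mul_of_nonneg_right h4 h10.le
      _ ≤ ∑ A ∈ H.powerset, Real.exp (s * (∑ h ∈ A, c h - (∑ h ∈ H, c h) / 2)) := h1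
      _ ≤ 2 ^ H.card * Real.exp (s ^ 2 * H.card / 2) := h2
      _ ≤ 2 ^ H.card * (Real.exp (-(t ^ 2 / n)) * Real.exp (s * t)) :=
          mul_le_mul_of_nonneg_left h5 (by positivity)
      _ = (2 ^ H.card * Real.exp (-(t ^ 2 / n))) * Real.exp (s * t) := by ring
  exact le_of_mul_le_mul_right h11 h10

/-- The function of the values of `x·h` which is counted. -/
noncomputable def cn [DecidableEq (ZMod p)] (a c : ZMod p) : ℝ :=
  (if c = a then 1 else 0) + if c = -a then 1 else 0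

theorem Dv_eq [DecidableEq (ZMod p)] (A : Finset (G p d)) (x : G p d) (a : ZMod p) :
    Dv A x a = ∑ h ∈ A, cn a (dt x h) := by
  classical
  unfold Dv cn
  rw [Finset.sum_add_distrib, Finset.sum_boole, Finset.sum_boole]
  congr 3 <;> (ext h; simp)

theorem cn_bd [DecidableEq (ZMod p)] (a c : ZMod p) : |cn a c| ≤ 2 := by
  unfold cn
  split_ifs <;> norm_num

theorem cn_neg [DecidableEq (ZMod p)] (a c : ZMod p) : cn a (-c) = cn a c := by
  unfold cn
  have h1 : (-c = a) = (c = -a) := by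
    rw [eq_iff_iff]
    exact neg_eq_iff_eq_neg
  have h2 : (-c = -a) = (c = a) := by
    rw [eq_iff_iff]
    exact neg_inj
  simp only [h1, h2]
  ring

theorem cn_sum [NeZero p] [DecidableEq (ZMod p)] (a : ZMod p) : ∑ c, cn a c = 2 := by
  unfold cn
  rw [Finset.sum_add_distrib]
  simp only [Finset.sum_ite_eq', Finset.mem_univ, if_true]
  norm_num

/-- The mean. -/
theorem mean_bd [NeZero p] [DecidableEq (ZMod p)] (hHLF : HLF_Stmt) (hUDF : UDF_Stmt)
    (hp : p.Prime) (h2 : p ≠ 2) (H : Finset (G p d)) (hH : Half H) (x : G p d) (hx : x ≠ 0)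
    (a : ZMod p) : |(∑ h ∈ H, cn a (dt x h)) / 2 - nn p d / (2 * p)| ≤ 1 / 2 := by
  have h1 := sum_H hHLF hUDF hp h2 H hH x hx (cn a) (cn_neg a)
  rw [cn_sum] at h1
  have hp0 : (p : ℝ) ≠ 0 := by
    have := hp.pos
    positivity
  have h3 := cn_bd a (0 : ZMod p)
  have h4 : (∑ h ∈ H, cn a (dt x h)) / 2 - nn p d / (2 * p) = -(cn a 0) / 4 := by
    have h5 : ∑ h ∈ H, cn a (dt x h) = (nn p d / p * 2 - cn a 0) / 2 := by linarith
    rw [h5]
    field_simp
    ring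
  rw [h4]
  rw [abs_le] at h3 ⊢
  constructor <;> linarith [h3.1, h3.2]

/-- `n² e^{-n^{2τ}}` is bounded. -/
theorem decay (τ : ℝ) (hτ : 0 < τ) (n : ℝ) (hn : 1 ≤ n) :
    n * n * Real.exp (-(n ^ (2 * τ))) ≤ ((⌈1 / τ⌉₊).factorial : ℝ) := by
  set k : ℕ := ⌈1 / τ⌉₊ with hk
  have h0 : (0 : ℝ) < n := by linarith
  have h1 : 1 ≤ n ^ (2 * τ) := Real.one_le_rpow hn (by positivity)
  have h2 : n * n = (n ^ (2 * τ)) ^ (1 / τ) := by
    rw [← Real.rpow_mul h0.le]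
    have : 2 * τ * (1 / τ) = 2 := by
      field_simp
    rw [this]
    norm_num
    ring
  have h3 : (n ^ (2 * τ)) ^ (1 / τ) ≤ (n ^ (2 * τ)) ^ (k : ℝ) :=
    Real.rpow_le_rpow_of_exponent_le h1 (Nat.le_ceil _)
  rw [Real.rpow_natCast] at h3
  have h4 := Real.pow_div_factorial_le_exp (n ^ (2 * τ)) (by linarith) k
  have h5 : (0 : ℝ) < (k.factorial : ℝ) := by exact_mod_cast Nat.factorial_pos k
  rw [div_le_iff₀ h5] at h4
  rw [Real.exp_neg, ← div_eq_mul_inv, div_le_iff₀ (Real.exp_pos _), h2]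
  linarith

end TYAaux

open TYAaux in
theorem t_TYA (hHLF : HLF_Stmt) (hUDF : UDF_Stmt) : TYA_Stmt := by
  classical
  intro p _ hp hp2 τ hτ
  refine ⟨2 * p * ((⌈1 / τ⌉₊).factorial : ℝ), fun d H hH => ?_⟩
  have hp0 : (0 : ℝ) < p := by exact_mod_cast hp.pos
  have hn1 : 1 ≤ nn p d := by
    unfold nn
    exact one_le_pow₀ (by exact_mod_cast hp.one_lt.le)
  have hn0 : 0 < nn p d := by linarith
  have hcard : 2 * (H.card : ℝ) ≤ nn p d := by
    have h1 := ((hHLF p d hp hp2).2 H hH).1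
    have h2 : 2 * (H.card : ℝ) + 1 = nn p d := by
      unfold nn
      exact_mod_cast h1
    linarith
  set t : ℝ := nn p d ^ (1 / 2 + τ) with ht
  have ht1 : 1 ≤ t := Real.one_le_rpow hn1 (by positivity)
  have htn : t ^ 2 / nn p d = nn p d ^ (2 * τ) := by
    rw [ht, ← Real.rpow_natCast, ← Real.rpow_mul hn0.le, div_eq_iff hn0.ne']
    nth_rewrite 3 [← Real.rpow_one (nn p d)]
    rw [← Real.rpow_add hn0]
    congr 1
    push_cast
    ring
  set P : G p d × ZMod p → Finset (G p d) → Prop := fun i A =>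
    i.1 ≠ 0 ∧ (t ≤ ∑ h ∈ A, cn i.2 (dt i.1 h) - (∑ h ∈ H, cn i.2 (dt i.1 h)) / 2 ∨
      t ≤ ∑ h ∈ A, -cn i.2 (dt i.1 h) - (∑ h ∈ H, -cn i.2 (dt i.1 h)) / 2) with hP
  have hB : ∀ i ∈ (univ : Finset (G p d × ZMod p)),
      (Set.ncard {A : Finset (G p d) | A ⊆ H ∧ P i A} : ℝ) ≤
        2 * (2 ^ H.card * Real.exp (-(nn p d ^ (2 * τ)))) := by
    intro i _
    have h1 := chern H (fun h => cn i.2 (dt i.1 h)) (fun h _ => cn_bd _ _) (nn p d) t hn0 hcard
      (by linarith)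
    have h2 := chern H (fun h => -cn i.2 (dt i.1 h)) (fun h _ => by
      rw [abs_neg]; exact cn_bd _ _) (nn p d) t hn0 hcard (by linarith)
    rw [htn] at h1 h2
    have h3 := ncard_or H
      (fun A => t ≤ ∑ h ∈ A, cn i.2 (dt i.1 h) - (∑ h ∈ H, cn i.2 (dt i.1 h)) / 2)
      (fun A => t ≤ ∑ h ∈ A, -cn i.2 (dt i.1 h) - (∑ h ∈ H, -cn i.2 (dt i.1 h)) / 2)
    have h4 := ncard_mono H (P := P i)
      (Q := fun A => t ≤ ∑ h ∈ A, cn i.2 (dt i.1 h) - (∑ h ∈ H, cn i.2 (dt i.1 h)) / 2 ∨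
        t ≤ ∑ h ∈ A, -cn i.2 (dt i.1 h) - (∑ h ∈ H, -cn i.2 (dt i.1 h)) / 2)
      (fun A _ hA => hA.2)
    have h5 : (Set.ncard {A : Finset (G p d) | A ⊆ H ∧ P i A} : ℝ) ≤
        (Set.ncard {A : Finset (G p d) | A ⊆ H ∧
          t ≤ ∑ h ∈ A, cn i.2 (dt i.1 h) - (∑ h ∈ H, cn i.2 (dt i.1 h)) / 2} : ℝ) +
        (Set.ncard {A : Finset (G p d) | A ⊆ H ∧
          t ≤ ∑ h ∈ A, -cn i.2 (dt i.1 h) - (∑ h ∈ H, -cn i.2 (dt i.1 h)) / 2} : ℝ) := by
      exact_mod_cast h4.trans h3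
    linarith
  have hU := ncard_ex H (univ : Finset (G p d × ZMod p)) P _ hB
  have hcd : (((univ : Finset (G p d × ZMod p)).card : ℕ) : ℝ) = nn p d * p := by
    rw [Finset.card_univ, Fintype.card_prod, Fintype.card_fun, ZMod.card, Fintype.card_fin]
    unfold nn
    push_cast
    ring
  rw [hcd] at hU
  have hM : Set.ncard {A : Finset (G p d) | A ⊆ H ∧ ¬ Ty τ A} ≤
      Set.ncard {A : Finset (G p d) | A ⊆ H ∧
        ∃ i ∈ (univ : Finset (G p d × ZMod p)), P i A} := by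
    apply ncard_mono H
    intro A _ hA
    unfold Ty at hA
    push Not at hA
    obtain ⟨x, hx, a, ha⟩ := hA
    refine ⟨(x, a), Finset.mem_univ _, hx, ?_⟩
    have h1 := mean_bd hHLF hUDF hp hp2 H hH x hx a
    rw [Dv_eq, ← ht] at ha
    by_contra hcon
    push Not at hcon
    obtain ⟨h3, h4⟩ := hcon
    rw [Finset.sum_neg_distrib, Finset.sum_neg_distrib] at h4
    have h5 : |∑ h ∈ A, cn a (dt x h) - nn p d / (2 * p)| ≤ 2 * t := by
      rw [abs_le] at h1 ⊢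
      simp only at h3 h4
      constructor <;> linarith [h1.1, h1.2]
    linarith
  have hM' : (Set.ncard {A : Finset (G p d) | A ⊆ H ∧ ¬ Ty τ A} : ℝ) ≤
      (Set.ncard {A : Finset (G p d) | A ⊆ H ∧
        ∃ i ∈ (univ : Finset (G p d × ZMod p)), P i A} : ℝ) := by exact_mod_cast hM
  have hD := decay τ hτ (nn p d) hn1
  calc (Set.ncard {A : Finset (G p d) | A ⊆ H ∧ ¬ Ty τ A} : ℝ) * nn p d
      ≤ (nn p d * p * (2 * (2 ^ H.card * Real.exp (-(nn p d ^ (2 * τ)))))) * nn p d :=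
        mul_le_mul_of_nonneg_right (hM'.trans hU) hn0.le
    _ = 2 * p * (nn p d * nn p d * Real.exp (-(nn p d ^ (2 * τ)))) * 2 ^ H.card := by ring
    _ ≤ 2 * p * ((⌈1 / τ⌉₊).factorial : ℝ) * 2 ^ H.card := by
        apply mul_le_mul_of_nonneg_right _ (by positivity)
        exact mul_le_mul_of_nonneg_left hD (by positivity)

end Pool.Agent.UAB
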