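import Pool.Agent.UAB.St

/-!
# Uniform distribution of scalar products
-/

set_option autoImplicit false

namespace Pool.Agent.UAB

open Finset
open Pool.Agent.UAA (G ch nn)

namespace UDFaux

theorem dt_add {p d : ℕ} (x c c' : G p d) : dt x (c + c') = dt x c + dt x c' := by
  simp only [dt, Pi.add_apply, mul_add, Finset.sum_add_distrib]

theorem dt_sub {p d : ℕ} (x c c' : G p d) : dt x (c - c') = dt x c - dt x c' := by
  simp only [dt, Pi.sub_apply, mul_sub, Finset.sum_sub_distrib]

theorem card_G (p d : ℕ) [NeZero p] : Fintype.card (G p d) = p ^ d := by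
  rw [Fintype.card_fun, ZMod.card, Fintype.card_fin]

theorem card_G' (p d : ℕ) [NeZero p] : ((Fintype.card (G p d) : ℕ) : ℂ) = (nn p d : ℂ) := by
  rw [card_G, nn]
  push_cast
  rfl

/-- averaging over a surjective additive map -/
theorem avg {A W : Type} [Fintype A] [AddCommGroup A] [Fintype W] [AddCommGroup W] (L : A → W)
    (hL : ∀ a b, L (a + b) = L a + L b) (hs : ∀ w, ∃ a, L a = w) (Φ : W → ℂ) :
    (Fintype.card W : ℂ) * ∑ c, Φ (L c) = (Fintype.card A : ℂ) * ∑ w, Φ w := by
  classical
  choose σ hσ using hs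
  have h1 : ∀ w : W, ∑ c, Φ (L c + w) = ∑ c, Φ (L c) := by
    intro w
    rw [← Equiv.sum_comp (Equiv.addRight (σ w)) (fun c => Φ (L c))]
    refine Finset.sum_congr rfl fun c _ => ?_
    rw [Equiv.coe_addRight, hL, hσ]
  have h2 : ∀ v : W, ∑ w, Φ (v + w) = ∑ w, Φ w := fun v =>
    Equiv.sum_comp (Equiv.addLeft v) fun w => Φ w
  calc (Fintype.card W : ℂ) * ∑ c, Φ (L c) = ∑ w : W, ∑ c, Φ (L c + w) := by
        rw [Finset.sum_congr rfl fun w _ => h1 w, Finset.sum_const, Finset.card_univ,
          nsmul_eq_mul]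
    _ = ∑ c : A, ∑ w, Φ (L c + w) := Finset.sum_comm
    _ = (Fintype.card A : ℂ) * ∑ w, Φ w := by
        rw [Finset.sum_congr rfl fun c _ => h2 (L c), Finset.sum_const, Finset.card_univ,
          nsmul_eq_mul]

theorem surj1 {p d : ℕ} [Fact p.Prime] (x : G p d) (hx : x ≠ 0) (a : ZMod p) :
    ∃ c : G p d, dt x c = a := by
  classical
  obtain ⟨i, hi⟩ : ∃ i, x i ≠ 0 := by
    by_contra hn
    push Not at hn
    exact hx (funext hn)
  refine ⟨Pi.single i (a / x i), ?_⟩
  unfold dt
  rw [Finset.sum_eq_single i]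
  · rw [Pi.single_eq_same]
    field_simp
  · intro j _ hj
    rw [Pi.single_eq_of_ne hj, mul_zero]
  · intro h
    exact absurd (Finset.mem_univ i) h

theorem surj2 {p d : ℕ} [Fact p.Prime] (x y : G p d) (h : LinearIndependent (ZMod p) ![x, y])
    (w : ZMod p × ZMod p) : ∃ c : G p d, (dt x c, dt y c) = w := by
  classical
  let M : Matrix (Fin 2) (Fin d) (ZMod p) := ![x, y]
  have h1 : M.rank = 2 := by
    have := LinearIndependent.rank_matrix (M := M) h
    simpa using this
  have h2 : LinearMap.range M.mulVecLin = ⊤ := by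
    apply Submodule.eq_top_of_finrank_eq
    rw [Module.finrank_fintype_fun_eq_card, Fintype.card_fin]
    exact h1
  obtain ⟨c, hc⟩ : ∃ c, M.mulVecLin c = ![w.1, w.2] := by
    have : (![w.1, w.2] : Fin 2 → ZMod p) ∈ LinearMap.range M.mulVecLin := by
      rw [h2]
      trivial
    exact this
  refine ⟨c, Prod.ext ?_ ?_⟩
  · exact congrFun hc 0
  · exact congrFun hc 1

end UDFaux

open UDFaux in
theorem t_UDF : UDF_Stmt := by
  intro p d _ hp
  have : Fact p.Prime := ⟨hp⟩
  refine ⟨?_, ?_, ?_⟩
  · intro x hx φ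
    have h1 := avg (fun c : G p d => dt x c) (fun a b => dt_add x a b) (surj1 x hx) φ
    rw [card_G', ZMod.card] at h1
    exact h1
  · intro x y hxy φ ψ
    have h1 := avg (fun c : G p d => (dt x c, dt y c))
      (fun a b => Prod.ext (dt_add x a b) (dt_add y a b)) (surj2 x y hxy)
      (fun w => φ w.1 * ψ w.2)
    rw [card_G', Fintype.card_prod, ZMod.card] at h1
    have h2 : ∑ w : ZMod p × ZMod p, φ w.1 * ψ w.2 = (∑ a, φ a) * ∑ a, ψ a := by
      rw [Fintype.sum_prod_type, Finset.sum_mul_sum]
    rw [h2] at h1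
    rw [mul_assoc, ← h1]
    push_cast
    ring
  · intro ι _ Y h
    classical
    let L : G p d → (ι → ZMod p) := fun c s => dt (Y s) c
    have h0 : {c : G p d | ∀ s, dt (Y s) c = dt (Y s) h} =
        ((Finset.univ.filter fun c : G p d => L c = L h : Finset (G p d)) : Set (G p d)) := by
      ext c
      simp only [Set.mem_ofPred_eq, Finset.coe_filter, Finset.mem_univ, true_and, L]
      exact funext_iff.symm
    rw [h0, Set.ncard_coe_finset]
    have h1 : ∀ w ∈ (Finset.univ : Finset (G p d)).image L,
        ((Finset.univ : Finset (G p d)).filter fun c => L c = w).card ≤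
          (Finset.univ.filter fun c : G p d => L c = L h).card := by
      intro w hw
      obtain ⟨c0, -, hc0⟩ := Finset.mem_image.1 hw
      refine Finset.card_le_card_of_injOn (fun c => c - c0 + h) ?_ ?_
      · intro c hc
        have hc' : L c = w := (Finset.mem_filter.1 (Finset.mem_coe.1 hc)).2
        refine Finset.mem_coe.2 (Finset.mem_filter.2 ⟨Finset.mem_univ _, ?_⟩)
        funext s
        have e1 : dt (Y s) c = dt (Y s) c0 := congrFun (hc'.trans hc0.symm) s
        change dt (Y s) (c - c0 + h) = dt (Y s) h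
        rw [dt_add, dt_sub, e1, sub_self, zero_add]
      · intro a _ b _ hab
        exact sub_left_injective (add_left_injective h hab)
    have h2 := Finset.card_le_mul_card_image (Finset.univ : Finset (G p d)) _ h1
    have h3 : ((Finset.univ : Finset (G p d)).image L).card ≤ p ^ Fintype.card ι := by
      refine (Finset.card_le_univ _).trans (le_of_eq ?_)
      rw [Fintype.card_fun, ZMod.card]
    have h4 : p ^ d ≤ p ^ Fintype.card ι *
        (Finset.univ.filter fun c : G p d => L c = L h).card := by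
      rw [← card_G p d, ← Finset.card_univ]
      refine h2.trans ?_
      rw [mul_comm]
      exact Nat.mul_le_mul_right _ h3
    unfold nn
    exact_mod_cast h4

end Pool.Agent.UAB
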