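import Pool.Agent.UAB.St

/-!
# Variances
-/

set_option autoImplicit false

namespace Pool.Agent.UAB

open Finset
open Pool.Agent.UAA (G ch nn)

namespace VARaux

theorem dt_neg {p d : ℕ} (x c : G p d) : dt x (-c) = -dt x c := by
  simp [dt]

theorem dt_zero {p d : ℕ} (x : G p d) : dt x 0 = 0 := by
  simp [dt]

end VARaux

open VARaux

theorem t_VAR (h1 : HLF_Stmt) (h2 : UDF_Stmt) : VAR_Stmt := by
  intro p d _ hp hp2 H hH δ hδ
  obtain ⟨hev, hsum⟩ := hδ
  have hp0 : (p : ℝ) ≠ 0 := by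
    exact_mod_cast hp.ne_zero
  have hps : (0 : ℝ) < p := by
    exact_mod_cast hp.pos
  obtain ⟨-, hH2⟩ := (h1 p d hp hp2).2 H hH
  obtain ⟨hU1, hU2, -⟩ := h2 p d hp
  constructor
  · intro x hx
    have e1 : 2 * ∑ h ∈ H, δ (dt x h) ^ 2 + δ 0 ^ 2 = ∑ c : G p d, δ (dt x c) ^ 2 := by
      have := hH2 (fun c => ((δ (dt x c) ^ 2 : ℝ) : ℂ)) (by
        intro c
        simp only [dt_neg, hev])
      simp only [dt_zero] at this
      exact_mod_cast this
    have e2 : (p : ℝ) * ∑ c : G p d, δ (dt x c) ^ 2 = nn p d * ∑ a, δ a ^ 2 := by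
      have := hU1 x hx (fun a => ((δ a ^ 2 : ℝ) : ℂ))
      exact_mod_cast this
    have e3 : ∑ c : G p d, δ (dt x c) ^ 2 = 8 * sig p d δ := by
      unfold sig
      field_simp
      linarith
    linarith
  · intro x y hxy
    have e1 : 2 * ∑ h ∈ H, δ (dt x h) * δ (dt y h) + δ 0 * δ 0 =
        ∑ c : G p d, δ (dt x c) * δ (dt y c) := by
      have := hH2 (fun c => ((δ (dt x c) * δ (dt y c) : ℝ) : ℂ)) (by
        intro c
        simp only [dt_neg, hev])
      simp only [dt_zero] at this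
      exact_mod_cast this
    have e2 : (p : ℝ) ^ 2 * ∑ c : G p d, δ (dt x c) * δ (dt y c) =
        nn p d * (∑ a, δ a) * ∑ a, δ a := by
      have := hU2 x y hxy (fun a => ((δ a : ℝ) : ℂ)) (fun a => ((δ a : ℝ) : ℂ))
      exact_mod_cast this
    rw [hsum] at e2
    have e3 : ∑ c : G p d, δ (dt x c) * δ (dt y c) = 0 := by
      have h3 : (p : ℝ) ^ 2 * ∑ c : G p d, δ (dt x c) * δ (dt y c) = 0 := by
        rw [e2]
        ring
      rcases mul_eq_zero.1 h3 with h | h
      · exact absurd h (pow_ne_zero 2 hp0)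
      · exact h
    rw [e3] at e1
    nlinarith [e1]

end Pool.Agent.UAB
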