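import Pool.Agent.UAB.St

set_option autoImplicit false

/-!
# The uniform event in the windows
-/

namespace Pool.Agent.UAB

namespace WINaux

open Finset Filter Topology
open Pool.Agent.UAA (G ch nn)

variable {p d : ℕ}

/-! ### exponential sums and their interpolation -/

/-- exponential sums -/
noncomputable def ES {σ : Type} [NeZero p] (S : Finset σ) (c : σ → ℂ) (lam : σ → ZMod p → ℝ)
    (z : ZMod p → ℝ) : ℂ :=
  ∑ q ∈ S, c q * Complex.exp (Complex.I * ((∑ a, z a * lam q a : ℝ) : ℂ))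

lemma interp [NeZero p] {σ : Type} {K : ℕ} {C : ℝ}
    {ℓ : (ZMod p → ℝ) → (ZMod p → Fin (K + 1)) → ℝ}
    (hℓ : ∀ t : ZMod p → ℝ, (∀ i, 0 ≤ t i ∧ t i ≤ 1) → ∀ (lam : ZMod p → ℝ) (η : ℝ), 0 ≤ η →
      η ≤ 1 → (∀ i, |lam i| ≤ η) →
      ‖Complex.exp (Complex.I * ((∑ i, lam i * t i : ℝ) : ℂ)) -
        ∑ ν, (ℓ t ν : ℂ) *
          Complex.exp (Complex.I * ((∑ i, lam i * ((ν i : ℕ) : ℝ) : ℝ) : ℂ))‖ ≤ C * η ^ (K + 1))
    (S : Finset σ) (c : σ → ℂ) (hc : ∀ q ∈ S, ‖c q‖ ≤ 1) (lam : σ → ZMod p → ℝ)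
    {B ρ η : ℝ} (hB : ∀ q ∈ S, ∀ a, |lam q a| ≤ B) (hρ : 0 < ρ) (hη0 : 0 ≤ η) (hη : η ≤ 1)
    (hη' : ρ * B ≤ η) (m t : ZMod p → ℝ) (ht : ∀ i, 0 ≤ t i ∧ t i ≤ 1) :
    ‖ES S c lam (fun a => ρ * (m a + t a)) -
      ∑ ν : ZMod p → Fin (K + 1), (ℓ t ν : ℂ) *
        ES S c lam (fun a => ρ * (m a + ((ν a : ℕ) : ℝ)))‖ ≤ S.card * (C * η ^ (K + 1)) := by
  classical
  have e1 : ∑ ν : ZMod p → Fin (K + 1), (ℓ t ν : ℂ) *
        ES S c lam (fun a => ρ * (m a + ((ν a : ℕ) : ℝ)))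
      = ∑ q ∈ S, ∑ ν : ZMod p → Fin (K + 1), (ℓ t ν : ℂ) *
          (c q * Complex.exp (Complex.I *
            ((∑ a, ρ * (m a + ((ν a : ℕ) : ℝ)) * lam q a : ℝ) : ℂ))) := by
    rw [Finset.sum_comm]
    refine Finset.sum_congr rfl fun ν _ => ?_
    rw [← Finset.mul_sum]
    rfl
  rw [e1]
  unfold ES
  rw [← Finset.sum_sub_distrib]
  have hterm : ∀ q ∈ S,
      ‖c q * Complex.exp (Complex.I * ((∑ a, ρ * (m a + t a) * lam q a : ℝ) : ℂ)) -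
        ∑ ν : ZMod p → Fin (K + 1), (ℓ t ν : ℂ) *
          (c q * Complex.exp (Complex.I *
            ((∑ a, ρ * (m a + ((ν a : ℕ) : ℝ)) * lam q a : ℝ) : ℂ)))‖ ≤ C * η ^ (K + 1) := by
    intro q hq
    have h1 := hℓ t ht (fun a => ρ * lam q a) η hη0 hη (fun a => by
      rw [abs_mul, abs_of_pos hρ]
      exact (mul_le_mul_of_nonneg_left (hB q hq a) hρ.le).trans hη')
    have hfac : ∀ u : ZMod p → ℝ,
        Complex.exp (Complex.I * ((∑ a, ρ * (m a + u a) * lam q a : ℝ) : ℂ))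
        = Complex.exp (Complex.I * ((∑ a, ρ * m a * lam q a : ℝ) : ℂ)) *
          Complex.exp (Complex.I * ((∑ a, ρ * lam q a * u a : ℝ) : ℂ)) := by
      intro u
      rw [← Complex.exp_add, ← mul_add, ← Complex.ofReal_add, ← Finset.sum_add_distrib]
      congr 4
      ext a
      ring
    have h2 : c q * Complex.exp (Complex.I * ((∑ a, ρ * (m a + t a) * lam q a : ℝ) : ℂ)) -
        ∑ ν : ZMod p → Fin (K + 1), (ℓ t ν : ℂ) *
          (c q * Complex.exp (Complex.I *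
            ((∑ a, ρ * (m a + ((ν a : ℕ) : ℝ)) * lam q a : ℝ) : ℂ)))
        = c q * Complex.exp (Complex.I * ((∑ a, ρ * m a * lam q a : ℝ) : ℂ)) *
          (Complex.exp (Complex.I * ((∑ i, ρ * lam q i * t i : ℝ) : ℂ)) -
            ∑ ν : ZMod p → Fin (K + 1), (ℓ t ν : ℂ) *
              Complex.exp (Complex.I * ((∑ i, ρ * lam q i * ((ν i : ℕ) : ℝ) : ℝ) : ℂ))) := by
      rw [hfac t, mul_sub, Finset.mul_sum, mul_assoc]
      congr 1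
      refine Finset.sum_congr rfl fun ν _ => ?_
      rw [hfac fun a => ((ν a : ℕ) : ℝ)]
      ring
    rw [h2, norm_mul, norm_mul, Complex.norm_exp_I_mul_ofReal, mul_one]
    calc ‖c q‖ * _ ≤ 1 * (C * η ^ (K + 1)) := mul_le_mul (hc q hq) h1 (norm_nonneg _) zero_le_one
      _ = _ := one_mul _
  refine (norm_sum_le_of_le _ hterm).trans ?_
  rw [Finset.sum_const, nsmul_eq_mul]

lemma sum_l [NeZero p] {K : ℕ} {C : ℝ}
    {ℓ : (ZMod p → ℝ) → (ZMod p → Fin (K + 1)) → ℝ}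
    (hℓ : ∀ t : ZMod p → ℝ, (∀ i, 0 ≤ t i ∧ t i ≤ 1) → ∀ (lam : ZMod p → ℝ) (η : ℝ), 0 ≤ η →
      η ≤ 1 → (∀ i, |lam i| ≤ η) →
      ‖Complex.exp (Complex.I * ((∑ i, lam i * t i : ℝ) : ℂ)) -
        ∑ ν, (ℓ t ν : ℂ) *
          Complex.exp (Complex.I * ((∑ i, lam i * ((ν i : ℕ) : ℝ) : ℝ) : ℂ))‖ ≤ C * η ^ (K + 1))
    (t : ZMod p → ℝ) (ht : ∀ i, 0 ≤ t i ∧ t i ≤ 1) : ∑ ν, (ℓ t ν : ℂ) = 1 := by
  have h := hℓ t ht (fun _ => 0) 0 le_rfl zero_le_one (fun _ => by simp)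
  simp only [zero_mul, Finset.sum_const_zero, Complex.ofReal_zero, mul_zero, Complex.exp_zero,
    mul_one] at h
  rw [zero_pow (Nat.succ_ne_zero K), mul_zero] at h
  have h1 := norm_le_zero_iff.1 h
  exact (sub_eq_zero.1 h1).symm

/-! ### the sums as exponential sums -/

open Classical in
/-- the good quadruples -/
noncomputable def SG (p d : ℕ) [NeZero p] : Finset (G p d × G p d × G p d) :=
  (univ : Finset (G p d × G p d × G p d)).filter Gq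

open Classical in
/-- the pairs of `T3` -/
noncomputable def S3G (p d : ℕ) [NeZero p] : Finset (G p d × G p d) :=
  (univ : Finset (G p d × G p d)).filter fun t => t.1 ≠ 0 ∧ t.2 ≠ 0 ∧ t.1 + t.2 ≠ 0

open Classical in
/-- the nonzero vectors -/
noncomputable def S2G (p d : ℕ) [NeZero p] : Finset (G p d) :=
  (univ : Finset (G p d)).erase 0

lemma S4_eq [NeZero p] (w : G p d → ℂ) : S4 w = ∑ t ∈ SG p d, q4 w t := rfl

lemma T3_eq [NeZero p] (w : G p d → ℂ) :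
    T3 w = ∑ t ∈ S3G p d, w t.1 * w t.2 * (starRingEnd ℂ) (w (t.1 + t.2)) := rfl

lemma T2_eq [NeZero p] (w : G p d → ℂ) : T2 w = ∑ x ∈ S2G p d, w x ^ 2 := rfl

lemma card_G [NeZero p] : ((univ : Finset (G p d)).card : ℝ) = nn p d := by
  rw [Finset.card_univ, Fintype.card_fun, ZMod.card, Fintype.card_fin, nn]
  push_cast
  rfl

lemma one_le_nn [NeZero p] : 1 ≤ nn p d := by
  unfold nn
  exact one_le_pow₀ (by exact_mod_cast NeZero.one_le)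

lemma mem_SG [NeZero p] {t : G p d × G p d × G p d} : t ∈ SG p d ↔ Gq t := by
  classical
  unfold SG
  rw [Finset.mem_filter]
  exact ⟨fun h => h.2, fun h => ⟨Finset.mem_univ _, h⟩⟩

lemma mem_S3G [NeZero p] {t : G p d × G p d} :
    t ∈ S3G p d ↔ t.1 ≠ 0 ∧ t.2 ≠ 0 ∧ t.1 + t.2 ≠ 0 := by
  classical
  unfold S3G
  rw [Finset.mem_filter]
  exact ⟨fun h => h.2, fun h => ⟨Finset.mem_univ _, h⟩⟩

lemma mem_S2G [NeZero p] {x : G p d} : x ∈ S2G p d ↔ x ≠ 0 := by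
  classical
  unfold S2G
  rw [Finset.mem_erase]
  exact ⟨fun h => h.1, fun h => ⟨h, Finset.mem_univ _⟩⟩

lemma SG_card [NeZero p] : ((SG p d).card : ℝ) ≤ nn p d ^ 3 := by
  classical
  have h3 : ((SG p d).card : ℝ)
      ≤ ((univ : Finset (G p d × G p d × G p d)).card : ℝ) := by
    exact_mod_cast Finset.card_le_card (Finset.subset_univ _)
  refine h3.trans (le_of_eq ?_)
  rw [← Finset.univ_product_univ, Finset.card_product, ← Finset.univ_product_univ,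
    Finset.card_product]
  push_cast
  rw [card_G]
  ring

lemma S3G_card [NeZero p] : ((S3G p d).card : ℝ) ≤ nn p d ^ 3 := by
  classical
  have h3 : ((S3G p d).card : ℝ)
      ≤ ((univ : Finset (G p d × G p d)).card : ℝ) := by
    exact_mod_cast Finset.card_le_card (Finset.subset_univ _)
  refine h3.trans ?_
  rw [← Finset.univ_product_univ, Finset.card_product]
  push_cast
  rw [card_G]
  have := one_le_nn (p := p) (d := d)
  nlinarith [sq_nonneg (nn p d)]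

lemma S2G_card [NeZero p] : ((S2G p d).card : ℝ) ≤ nn p d ^ 3 := by
  classical
  have h3 : ((S2G p d).card : ℝ) ≤ ((univ : Finset (G p d)).card : ℝ) := by
    exact_mod_cast Finset.card_le_card (Finset.erase_subset _ _)
  refine h3.trans ?_
  rw [card_G]
  have := one_le_nn (p := p) (d := d)
  nlinarith [sq_nonneg (nn p d)]

/-- the phase of `vd` -/
noncomputable def cc [NeZero p] (A : Finset (G p d)) (α : ZMod p) (x : G p d) : ℂ :=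
  (ZMod.stdAddChar (α * ∑ h ∈ A, dt x h ^ 2) : ℂ)

lemma norm_cc [NeZero p] (A : Finset (G p d)) (α : ZMod p) (x : G p d) : ‖cc A α x‖ = 1 :=
  AddChar.norm_apply _ _

lemma vd_eq [NeZero p] {H A : Finset (G p d)} {μ : G p d → ZMod p → ℝ}
    (hμ : ∀ (z : ZMod p → ℝ) (x : G p d), x ≠ 0 → gd H A (dz z) x = ∑ a, z a * μ x a)
    (α : ZMod p) (z : ZMod p → ℝ) {x : G p d} (hx : x ≠ 0) :
    vd H A α (dz z) x = cc A α x * Complex.exp (Complex.I * ((∑ a, z a * μ x a : ℝ) : ℂ)) := by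
  unfold vd up cc
  rw [if_neg hx]
  show (ZMod.stdAddChar (α * ∑ h ∈ A, dt x h ^ 2) : ℂ) *
      Complex.exp ((gd H A (dz z) x : ℂ) * Complex.I) = _
  rw [hμ z x hx, mul_comm Complex.I]

lemma conj_exp (r : ℝ) : (starRingEnd ℂ) (Complex.exp (Complex.I * (r : ℂ)))
    = Complex.exp (-(Complex.I * (r : ℂ))) := by
  rw [← Complex.exp_conj]
  congr 1
  rw [map_mul, Complex.conj_I, Complex.conj_ofReal]
  ring

lemma S4_ES [NeZero p] {H A : Finset (G p d)} {μ : G p d → ZMod p → ℝ}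
    (hμ : ∀ (z : ZMod p → ℝ) (x : G p d), x ≠ 0 → gd H A (dz z) x = ∑ a, z a * μ x a)
    (α : ZMod p) (z : ZMod p → ℝ) :
    S4 (vd H A α (dz z)) = ES (SG p d)
      (fun t => cc A α t.1 * cc A α t.2.1 * (starRingEnd ℂ) (cc A α t.2.2) *
        (starRingEnd ℂ) (cc A α (t.1 + t.2.1 - t.2.2)))
      (fun t a => μ t.1 a + μ t.2.1 a - μ t.2.2 a - μ (t.1 + t.2.1 - t.2.2) a) z := by
  rw [S4_eq]
  unfold ES
  refine Finset.sum_congr rfl fun t ht => ?_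
  have hq : Gq t := mem_SG.1 ht
  unfold q4
  rw [vd_eq hμ α z hq.1, vd_eq hμ α z hq.2.1, vd_eq hμ α z hq.2.2.1, vd_eq hμ α z hq.2.2.2.1]
  have h : ∑ a, z a * (μ t.1 a + μ t.2.1 a - μ t.2.2 a - μ (t.1 + t.2.1 - t.2.2) a)
      = ∑ a, z a * μ t.1 a + ∑ a, z a * μ t.2.1 a - ∑ a, z a * μ t.2.2 a
        - ∑ a, z a * μ (t.1 + t.2.1 - t.2.2) a := by
    rw [← Finset.sum_add_distrib, ← Finset.sum_sub_distrib, ← Finset.sum_sub_distrib]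
    refine Finset.sum_congr rfl fun a _ => ?_
    ring
  rw [h, map_mul, map_mul, conj_exp, conj_exp]
  have e : Complex.exp (Complex.I * ((∑ a, z a * μ t.1 a + ∑ a, z a * μ t.2.1 a
        - ∑ a, z a * μ t.2.2 a - ∑ a, z a * μ (t.1 + t.2.1 - t.2.2) a : ℝ) : ℂ))
      = Complex.exp (Complex.I * ((∑ a, z a * μ t.1 a : ℝ) : ℂ)) *
        Complex.exp (Complex.I * ((∑ a, z a * μ t.2.1 a : ℝ) : ℂ)) *
        Complex.exp (-(Complex.I * ((∑ a, z a * μ t.2.2 a : ℝ) : ℂ))) *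
        Complex.exp (-(Complex.I * ((∑ a, z a * μ (t.1 + t.2.1 - t.2.2) a : ℝ) : ℂ))) := by
    rw [← Complex.exp_add, ← Complex.exp_add, ← Complex.exp_add]
    congr 1
    rw [Complex.ofReal_sub, Complex.ofReal_sub, Complex.ofReal_add]
    ring
  rw [e]
  ring

lemma T3_ES [NeZero p] {H A : Finset (G p d)} {μ : G p d → ZMod p → ℝ}
    (hμ : ∀ (z : ZMod p → ℝ) (x : G p d), x ≠ 0 → gd H A (dz z) x = ∑ a, z a * μ x a)
    (α : ZMod p) (z : ZMod p → ℝ) :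
    T3 (vd H A α (dz z)) = ES (S3G p d)
      (fun t => cc A α t.1 * cc A α t.2 * (starRingEnd ℂ) (cc A α (t.1 + t.2)))
      (fun t a => μ t.1 a + μ t.2 a - μ (t.1 + t.2) a) z := by
  rw [T3_eq]
  unfold ES
  refine Finset.sum_congr rfl fun t ht => ?_
  have hq := mem_S3G.1 ht
  rw [vd_eq hμ α z hq.1, vd_eq hμ α z hq.2.1, vd_eq hμ α z hq.2.2]
  have h : ∑ a, z a * (μ t.1 a + μ t.2 a - μ (t.1 + t.2) a)
      = ∑ a, z a * μ t.1 a + ∑ a, z a * μ t.2 a - ∑ a, z a * μ (t.1 + t.2) a := by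
    rw [← Finset.sum_add_distrib, ← Finset.sum_sub_distrib]
    refine Finset.sum_congr rfl fun a _ => ?_
    ring
  rw [h, map_mul, conj_exp]
  have e : Complex.exp (Complex.I * ((∑ a, z a * μ t.1 a + ∑ a, z a * μ t.2 a
        - ∑ a, z a * μ (t.1 + t.2) a : ℝ) : ℂ))
      = Complex.exp (Complex.I * ((∑ a, z a * μ t.1 a : ℝ) : ℂ)) *
        Complex.exp (Complex.I * ((∑ a, z a * μ t.2 a : ℝ) : ℂ)) *
        Complex.exp (-(Complex.I * ((∑ a, z a * μ (t.1 + t.2) a : ℝ) : ℂ))) := by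
    rw [← Complex.exp_add, ← Complex.exp_add]
    congr 1
    rw [Complex.ofReal_sub, Complex.ofReal_add]
    ring
  rw [e]
  ring

lemma T2_ES [NeZero p] {H A : Finset (G p d)} {μ : G p d → ZMod p → ℝ}
    (hμ : ∀ (z : ZMod p → ℝ) (x : G p d), x ≠ 0 → gd H A (dz z) x = ∑ a, z a * μ x a)
    (α : ZMod p) (z : ZMod p → ℝ) :
    T2 (vd H A α (dz z)) = ES (S2G p d) (fun x => cc A α x ^ 2) (fun x a => 2 * μ x a) z := by
  rw [T2_eq]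
  unfold ES
  refine Finset.sum_congr rfl fun x hx => ?_
  have hq : x ≠ 0 := mem_S2G.1 hx
  rw [vd_eq hμ α z hq, mul_pow, ← Complex.exp_nat_mul]
  congr 2
  have h : ∑ a, z a * (2 * μ x a) = 2 * ∑ a, z a * μ x a := by
    rw [Finset.mul_sum]
    refine Finset.sum_congr rfl fun a _ => ?_
    ring
  rw [h]
  push_cast
  ring

/-! ### small perturbations -/

lemma dz_diff [NeZero p] {z z' : ZMod p → ℝ} {e : ℝ} (h : ∀ a, |z' a - z a| ≤ e) (a : ZMod p) :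
    |dz z' a - dz z a| ≤ 4 * e := by
  have hp : (0 : ℝ) < p := by exact_mod_cast Nat.pos_of_ne_zero (NeZero.ne p)
  have h1 : dz z' a - dz z a = (z' a - z a) + (z' (-a) - z (-a)) - 2 / p * ∑ b, (z' b - z b) := by
    unfold dz
    rw [Finset.sum_sub_distrib]
    ring
  have h2 : |∑ b, (z' b - z b)| ≤ p * e := by
    refine (Finset.abs_sum_le_sum_abs _ _).trans ?_
    refine (Finset.sum_le_sum fun b _ => h b).trans (le_of_eq ?_)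
    rw [Finset.sum_const, Finset.card_univ, ZMod.card, nsmul_eq_mul]
  have h3 : |2 / (p : ℝ) * ∑ b, (z' b - z b)| ≤ 2 * e := by
    rw [abs_mul, abs_of_pos (by positivity : (0 : ℝ) < 2 / p)]
    calc 2 / (p : ℝ) * |∑ b, (z' b - z b)| ≤ 2 / (p : ℝ) * (p * e) := by gcongr
      _ = 2 * e := by field_simp
  rw [h1]
  have h4 := abs_le.1 (h a)
  have h5 := abs_le.1 (h (-a))
  have h6 := abs_le.1 h3
  rw [abs_le]
  constructor <;> linarith [h4.1, h4.2, h5.1, h5.2, h6.1, h6.2]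

lemma sig_diff [NeZero p] {δ δ' : ZMod p → ℝ} {e R : ℝ} (h1 : ∀ a, |δ' a - δ a| ≤ e)
    (h2 : ∀ a, |δ' a| + |δ a| ≤ R) : |sig p d δ' - sig p d δ| ≤ nn p d / 8 * (e * R) := by
  have hp : (0 : ℝ) < p := by exact_mod_cast Nat.pos_of_ne_zero (NeZero.ne p)
  have hn : 0 < nn p d := lt_of_lt_of_le one_pos one_le_nn
  have e1 : sig p d δ' - sig p d δ = nn p d / (8 * p) * ∑ a, (δ' a ^ 2 - δ a ^ 2) := by
    unfold sig
    rw [Finset.sum_sub_distrib]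
    ring
  have h3 : |∑ a, (δ' a ^ 2 - δ a ^ 2)| ≤ p * (e * R) := by
    refine (Finset.abs_sum_le_sum_abs _ _).trans ?_
    refine (Finset.sum_le_sum (g := fun _ => e * R) fun a _ => ?_).trans (le_of_eq ?_)
    · have h4 : δ' a ^ 2 - δ a ^ 2 = (δ' a - δ a) * (δ' a + δ a) := by ring
      rw [h4, abs_mul]
      exact mul_le_mul (h1 a) ((abs_add_le _ _).trans (h2 a)) (abs_nonneg _)
        ((abs_nonneg _).trans (h1 a))
    · rw [Finset.sum_const, Finset.card_univ, ZMod.card, nsmul_eq_mul]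
  rw [e1, abs_mul, abs_of_pos (by positivity : 0 < nn p d / (8 * p))]
  calc nn p d / (8 * p) * |∑ a, (δ' a ^ 2 - δ a ^ 2)|
      ≤ nn p d / (8 * p) * (p * (e * R)) := by gcongr
    _ = _ := by field_simp

lemma exp_diff {s s' : ℝ} (h : |s' - s| ≤ 1 / 2) :
    |Real.exp (-2 * s') - Real.exp (-2 * s)| ≤ Real.exp (-2 * s) * (4 * |s' - s|) := by
  have h1 : Real.exp (-2 * s') - Real.exp (-2 * s) =
      Real.exp (-2 * s) * (Real.exp (-2 * (s' - s)) - 1) := by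
    rw [mul_sub, mul_one, ← Real.exp_add]
    congr 2
    ring
  rw [h1, abs_mul, abs_of_pos (Real.exp_pos _)]
  refine mul_le_mul_of_nonneg_left ?_ (Real.exp_pos _).le
  have h2 : |-2 * (s' - s)| = 2 * |s' - s| := by
    rw [abs_mul]
    norm_num
  refine (Real.abs_exp_sub_one_le (by rw [h2]; linarith)).trans (le_of_eq ?_)
  rw [h2]
  ring

lemma lgk (k : ℕ) {s : ℝ} (hs : 0 < s) (c : ℝ) :
    ∀ᶠ x : ℝ in atTop, c * Real.log x ^ k ≤ x ^ s := by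
  have h := (isLittleO_log_rpow_rpow_atTop (k : ℝ) hs).bound
    (show 0 < 1 / (|c| + 1) by positivity)
  filter_upwards [h, eventually_ge_atTop (1 : ℝ)] with x hx h1
  have hl : 0 ≤ Real.log x := Real.log_nonneg h1
  rw [Real.rpow_natCast, Real.norm_eq_abs, Real.norm_eq_abs,
    abs_of_nonneg (Real.rpow_nonneg (by linarith) _), abs_of_nonneg (pow_nonneg hl k), one_div,
    inv_mul_eq_div, le_div_iff₀ (by positivity)] at hx
  have h2 : c ≤ |c| + 1 := by linarith [le_abs_self c]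
  have h3 : 0 ≤ Real.log x ^ k := pow_nonneg hl k
  nlinarith

/-! ### the count for one node -/

/-- the bad event of a node -/
def Bad [NeZero p] (H : Finset (G p d)) (α : ZMod p) (D Λ : ℝ) (z : ZMod p → ℝ)
    (A : Finset (G p d)) : Prop :=
  (∀ a, |dz z a| ≤ D) ∧
    (nn p d ^ (15 / 8 : ℝ) ≤ ‖S4 (vd H A α (dz z)) -
        (Real.exp (-2 * sig p d (dz z)) : ℂ) * S4 (vd H A α 0)‖ ∨
      (nn p d ^ (11 / 10 : ℝ) / (2 * Λ) ≤ ‖T3 (vd H A α (dz z))‖ ∨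
        nn p d ^ (3 / 5 : ℝ) / (2 * Λ) ≤ ‖T2 (vd H A α (dz z))‖))

lemma markov2 (H : Finset (G p d)) (F : Finset (G p d) → ℂ) (t B : ℝ) (ht : 0 ≤ t)
    (h : ∑ A ∈ H.powerset, ‖F A‖ ^ 2 ≤ B) :
    (Set.ncard {A : Finset (G p d) | A ⊆ H ∧ t ≤ ‖F A‖} : ℝ) * t ^ 2 ≤ B := by
  refine le_trans ?_ ((mkv H (fun A => ‖F A‖ ^ 2) (fun A _ => by positivity) (t ^ 2)).trans h)
  refine mul_le_mul_of_nonneg_right ?_ (by positivity)
  have h1 := ncard_mono H (P := fun A => t ≤ ‖F A‖) (Q := fun A => t ^ 2 ≤ ‖F A‖ ^ 2)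
    (fun A _ hA => pow_le_pow_left₀ ht hA _)
  exact_mod_cast h1

lemma rp_sq {x : ℝ} (hx : 0 < x) (s : ℝ) : (x ^ s) ^ 2 = x ^ (2 * s) := by
  rw [← Real.rpow_natCast, ← Real.rpow_mul hx.le]
  congr 1
  push_cast
  ring

lemma cnt_le {N T B x s W c : ℝ} (hx : 0 < x) (hN : N * T ≤ B) (hT : T = x ^ s / c) (hc : 0 < c)
    (hB : B ≤ W * x ^ (s - 1 / 5)) : N * x ^ (1 / 5 : ℝ) ≤ c * W := by
  have h0 : 0 < x ^ (s - 1 / 5) := Real.rpow_pos_of_pos hx _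
  have h1 : T = x ^ (s - 1 / 5) * x ^ (1 / 5 : ℝ) / c := by
    rw [hT, ← Real.rpow_add hx]
    congr 2
    ring
  have h2 : N * T = (N * x ^ (1 / 5 : ℝ) / c) * x ^ (s - 1 / 5) := by
    rw [h1]
    ring
  have h3 : (N * x ^ (1 / 5 : ℝ) / c) * x ^ (s - 1 / 5) ≤ W * x ^ (s - 1 / 5) := by
    rw [← h2]
    exact hN.trans hB
  have h4 := le_of_mul_le_mul_right h3 h0
  rw [div_le_iff₀ hc] at h4
  linarith

lemma node [NeZero p] {C4 C3 C D Λ : ℝ} (H : Finset (G p d)) (α : ZMod p) (hC : 0 < C)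
    (hD : D = 2 * rn C p d) (hDp : D ≤ 1 / (20 * p)) (hΛ : 1 ≤ Λ)
    (hlog : 1 ≤ Real.log (nn p d))
    (h4 : ∀ δ : ZMod p → ℝ, EM δ → ∀ D : ℝ, (∀ a, |δ a| ≤ D) → D ≤ 1 / (20 * p) →
      ∑ A ∈ H.powerset,
        ‖S4 (vd H A α δ) - (Real.exp (-2 * sig p d δ) : ℂ) * S4 (vd H A α 0)‖ ^ 2 ≤
      2 ^ H.card * (C4 * (nn p d ^ 3 + nn p d ^ 5 * D ^ 4 + nn p d ^ 4 * D ^ 2)))
    (h3 : ∀ δ : ZMod p → ℝ, EM δ → (∀ a, |δ a| ≤ 1 / (20 * p)) →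
      ∑ A ∈ H.powerset, ‖T3 (vd H A α δ)‖ ^ 2 ≤ 2 ^ H.card * (C3 * nn p d ^ 2) ∧
      ∑ A ∈ H.powerset, ‖T2 (vd H A α δ)‖ ^ 2 ≤ 2 ^ H.card * (C3 * nn p d))
    (z : ZMod p → ℝ) (hz : EM (dz z)) :
    (Set.ncard {A : Finset (G p d) | A ⊆ H ∧ Bad H α D Λ z A} : ℝ) * nn p d ^ (1 / 5 : ℝ) ≤
      2 ^ H.card * ((|C4| * (1 + 16 * C ^ 4 + 4 * C ^ 2) + 8 * Λ ^ 2 * |C3|) *
        Real.log (nn p d) ^ 2) := by
  set n := nn p d with hn
  have hn1 : 1 ≤ n := one_le_nn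
  have hn0 : 0 < n := by linarith
  set L := Real.log n with hL
  have hL2 : 1 ≤ L ^ 2 := by nlinarith
  by_cases hb : ∀ a, |dz z a| ≤ D
  · have m4 := markov2 H (fun A => S4 (vd H A α (dz z)) -
        (Real.exp (-2 * sig p d (dz z)) : ℂ) * S4 (vd H A α 0)) (n ^ (15 / 8 : ℝ)) _
        (by positivity) (h4 (dz z) hz D hb hDp)
    have m3 := markov2 H (fun A => T3 (vd H A α (dz z))) (n ^ (11 / 10 : ℝ) / (2 * Λ)) _
        (by positivity) (h3 (dz z) hz (fun a => (hb a).trans hDp)).1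
    have m2 := markov2 H (fun A => T2 (vd H A α (dz z))) (n ^ (3 / 5 : ℝ) / (2 * Λ)) _
        (by positivity) (h3 (dz z) hz (fun a => (hb a).trans hDp)).2
    have hDsq : D ^ 2 = 4 * C ^ 2 * (L / n) := by
      rw [hD]
      unfold rn
      rw [mul_pow, mul_pow, Real.sq_sqrt (by rw [← hn, ← hL]; positivity)]
      ring
    have hD4 : D ^ 4 = 16 * C ^ 4 * (L / n) ^ 2 := by
      rw [show D ^ 4 = (D ^ 2) ^ 2 by ring, hDsq]
      ring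
    have hW : (0 : ℝ) < 2 ^ H.card := by positivity
    have c4 := cnt_le (c := 1) (s := 15 / 4)
      (W := 2 ^ H.card * (|C4| * (1 + 16 * C ^ 4 + 4 * C ^ 2) * L ^ 2)) hn0 m4
      (by rw [rp_sq hn0, div_one]; norm_num) one_pos (by
        have e1 : n ^ 3 + n ^ 5 * D ^ 4 + n ^ 4 * D ^ 2 ≤
            (1 + 16 * C ^ 4 + 4 * C ^ 2) * L ^ 2 * n ^ 3 := by
          rw [hD4, hDsq]
          have e2 : n ^ 3 + n ^ 5 * (16 * C ^ 4 * (L / n) ^ 2) + n ^ 4 * (4 * C ^ 2 * (L / n)) =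
              (1 + 16 * C ^ 4 * L ^ 2 + 4 * C ^ 2 * L) * n ^ 3 := by
            field_simp
          rw [e2]
          have e3 : 1 + 16 * C ^ 4 * L ^ 2 + 4 * C ^ 2 * L ≤
              (1 + 16 * C ^ 4 + 4 * C ^ 2) * L ^ 2 := by
            have : L ≤ L ^ 2 := by nlinarith
            have h5 : 4 * C ^ 2 * L ≤ 4 * C ^ 2 * L ^ 2 :=
              mul_le_mul_of_nonneg_left this (by positivity)
            nlinarith
          exact mul_le_mul_of_nonneg_right e3 (by positivity)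
        have e4 : n ^ 3 ≤ n ^ ((15 / 4 : ℝ) - 1 / 5) := by
          rw [← Real.rpow_natCast]
          exact Real.rpow_le_rpow_of_exponent_le hn1 (by norm_num)
        have e0 : 0 ≤ n ^ 3 + n ^ 5 * D ^ 4 + n ^ 4 * D ^ 2 := by positivity
        calc 2 ^ H.card * (C4 * (n ^ 3 + n ^ 5 * D ^ 4 + n ^ 4 * D ^ 2))
            ≤ 2 ^ H.card * (|C4| * (n ^ 3 + n ^ 5 * D ^ 4 + n ^ 4 * D ^ 2)) := by
              gcongr
              exact le_abs_self _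
          _ ≤ 2 ^ H.card * (|C4| * ((1 + 16 * C ^ 4 + 4 * C ^ 2) * L ^ 2 * n ^ 3)) := by gcongr
          _ ≤ 2 ^ H.card * (|C4| * ((1 + 16 * C ^ 4 + 4 * C ^ 2) * L ^ 2 *
              n ^ ((15 / 4 : ℝ) - 1 / 5))) := by gcongr
          _ = _ := by ring)
    have c3 := cnt_le (c := 4 * Λ ^ 2) (s := 11 / 5) (W := 2 ^ H.card * |C3|) hn0 m3
      (by rw [div_pow, rp_sq hn0, mul_pow]; norm_num) (by positivity) (by
        have e4 : n ^ ((11 / 5 : ℝ) - 1 / 5) = n ^ 2 := by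
          rw [← Real.rpow_natCast]
          norm_num
        rw [e4]
        calc 2 ^ H.card * (C3 * n ^ 2) ≤ 2 ^ H.card * (|C3| * n ^ 2) := by
              gcongr
              exact le_abs_self _
          _ = _ := by ring)
    have c2 := cnt_le (c := 4 * Λ ^ 2) (s := 6 / 5) (W := 2 ^ H.card * |C3|) hn0 m2
      (by rw [div_pow, rp_sq hn0, mul_pow]; norm_num) (by positivity) (by
        have e4 : n ^ ((6 / 5 : ℝ) - 1 / 5) = n := by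
          norm_num
        rw [e4]
        calc 2 ^ H.card * (C3 * n) ≤ 2 ^ H.card * (|C3| * n) := by
              gcongr
              exact le_abs_self _
          _ = _ := by ring)
    have hcard : (Set.ncard {A : Finset (G p d) | A ⊆ H ∧ Bad H α D Λ z A} : ℝ) ≤
        (Set.ncard {A : Finset (G p d) | A ⊆ H ∧ n ^ (15 / 8 : ℝ) ≤ ‖S4 (vd H A α (dz z)) -
          (Real.exp (-2 * sig p d (dz z)) : ℂ) * S4 (vd H A α 0)‖} : ℝ) +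
        ((Set.ncard {A : Finset (G p d) | A ⊆ H ∧ n ^ (11 / 10 : ℝ) / (2 * Λ) ≤
          ‖T3 (vd H A α (dz z))‖} : ℝ) +
        (Set.ncard {A : Finset (G p d) | A ⊆ H ∧ n ^ (3 / 5 : ℝ) / (2 * Λ) ≤
          ‖T2 (vd H A α (dz z))‖} : ℝ)) := by
      have a1 := ncard_mono H (P := Bad H α D Λ z) (Q := fun A =>
        (n ^ (15 / 8 : ℝ) ≤ ‖S4 (vd H A α (dz z)) -
          (Real.exp (-2 * sig p d (dz z)) : ℂ) * S4 (vd H A α 0)‖ ∨
        (n ^ (11 / 10 : ℝ) / (2 * Λ) ≤ ‖T3 (vd H A α (dz z))‖ ∨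
          n ^ (3 / 5 : ℝ) / (2 * Λ) ≤ ‖T2 (vd H A α (dz z))‖))) (fun A _ hA => hA.2)
      have a2 := ncard_or H (fun A => n ^ (15 / 8 : ℝ) ≤ ‖S4 (vd H A α (dz z)) -
          (Real.exp (-2 * sig p d (dz z)) : ℂ) * S4 (vd H A α 0)‖)
        (fun A => n ^ (11 / 10 : ℝ) / (2 * Λ) ≤ ‖T3 (vd H A α (dz z))‖ ∨
          n ^ (3 / 5 : ℝ) / (2 * Λ) ≤ ‖T2 (vd H A α (dz z))‖)
      have a3 := ncard_or H (fun A => n ^ (11 / 10 : ℝ) / (2 * Λ) ≤ ‖T3 (vd H A α (dz z))‖)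
        (fun A => n ^ (3 / 5 : ℝ) / (2 * Λ) ≤ ‖T2 (vd H A α (dz z))‖)
      exact_mod_cast a1.trans (a2.trans (Nat.add_le_add_left a3 _))
    have hx5 : 0 ≤ n ^ (1 / 5 : ℝ) := by positivity
    have hfin := mul_le_mul_of_nonneg_right hcard hx5
    refine hfin.trans ?_
    have g1 : 0 ≤ 2 ^ H.card * |C3| := by positivity
    have g2 : 2 ^ H.card * |C3| * (8 * Λ ^ 2) ≤ 2 ^ H.card * |C3| * (8 * Λ ^ 2) * L ^ 2 :=
      le_mul_of_one_le_right (by positivity) hL2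
    nlinarith [c4, c3, c2, g2]
  · have h1 : {A : Finset (G p d) | A ⊆ H ∧ Bad H α D Λ z A} = ∅ := by
      ext A
      constructor
      · rintro ⟨-, h2, -⟩
        exact absurd h2 hb
      · intro h2
        exact absurd h2 (Set.notMem_empty _)
    rw [h1, Set.ncard_empty, Nat.cast_zero, zero_mul]
    positivity

/-! ### the deterministic part -/

lemma comb {ν : Type} [Fintype ν] {l : ν → ℝ} {w : ν → ℂ} {Cl B Λ : ℝ} (hl : ∀ v, |l v| ≤ Cl)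
    (hCl : 0 ≤ Cl) (hB : 0 ≤ B) (hw : ∀ v, ‖w v‖ ≤ B) (hΛ : Cl * (Fintype.card ν : ℝ) ≤ Λ) :
    ‖∑ v, (l v : ℂ) * w v‖ ≤ Λ * B := by
  have h4 : ∀ v ∈ (univ : Finset ν), ‖(l v : ℂ) * w v‖ ≤ Cl * B := by
    intro v _
    rw [norm_mul, Complex.norm_real, Real.norm_eq_abs]
    exact mul_le_mul (hl v) (hw v) (norm_nonneg _) hCl
  refine (norm_sum_le_of_le _ h4).trans ?_
  rw [Finset.sum_const, Finset.card_univ, nsmul_eq_mul]
  calc (Fintype.card ν : ℝ) * (Cl * B) = Cl * (Fintype.card ν : ℝ) * B := by ring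
    _ ≤ Λ * B := mul_le_mul_of_nonneg_right hΛ hB

/-- the common setting of the interpolation -/
def IL [NeZero p] (K : ℕ) (CI : ℝ) (ℓ : (ZMod p → ℝ) → (ZMod p → Fin (K + 1)) → ℝ) : Prop :=
  ∀ t : ZMod p → ℝ, (∀ i, 0 ≤ t i ∧ t i ≤ 1) → ∀ (lam : ZMod p → ℝ) (η : ℝ), 0 ≤ η →
      η ≤ 1 → (∀ i, |lam i| ≤ η) →
      ‖Complex.exp (Complex.I * ((∑ i, lam i * t i : ℝ) : ℂ)) -
        ∑ ν, (ℓ t ν : ℂ) *
          Complex.exp (Complex.I * ((∑ i, lam i * ((ν i : ℕ) : ℝ) : ℝ) : ℂ))‖ ≤ CI * η ^ (K + 1)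

/-- the node `ν` of the box of `m` -/
noncomputable def zn {K : ℕ} (ρ : ℝ) (m : ZMod p → ℝ) (ν : ZMod p → Fin (K + 1)) (a : ZMod p) : ℝ :=
  ρ * (m a + ((ν a : ℕ) : ℝ))

lemma i4 [NeZero p] {K : ℕ} {CI ρ η B E : ℝ}
    {ℓ : (ZMod p → ℝ) → (ZMod p → Fin (K + 1)) → ℝ} (hℓ : IL K CI ℓ) (hρ : 0 < ρ)
    (hη0 : 0 ≤ η) (hη : η ≤ 1) (hη' : ρ * (4 * B) ≤ η) (hCI : 0 ≤ CI)
    (hE : nn p d ^ 3 * (CI * η ^ (K + 1)) ≤ E)
    {H A : Finset (G p d)} {μ : G p d → ZMod p → ℝ} (hμb : ∀ x, x ≠ 0 → ∀ a, |μ x a| ≤ B)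
    (hμ : ∀ (z : ZMod p → ℝ) (x : G p d), x ≠ 0 → gd H A (dz z) x = ∑ a, z a * μ x a)
    (α : ZMod p) (m t : ZMod p → ℝ) (ht : ∀ i, 0 ≤ t i ∧ t i ≤ 1) :
    ‖S4 (vd H A α (dz (fun a => ρ * (m a + t a)))) -
      ∑ ν, (ℓ t ν : ℂ) * S4 (vd H A α (dz (zn ρ m ν)))‖ ≤ E := by
  have e : ∑ ν, (ℓ t ν : ℂ) * S4 (vd H A α (dz (zn ρ m ν))) = ∑ ν, (ℓ t ν : ℂ) * ES (SG p d)
      (fun t => cc A α t.1 * cc A α t.2.1 * (starRingEnd ℂ) (cc A α t.2.2) *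
        (starRingEnd ℂ) (cc A α (t.1 + t.2.1 - t.2.2)))
      (fun t a => μ t.1 a + μ t.2.1 a - μ t.2.2 a - μ (t.1 + t.2.1 - t.2.2) a)
      (fun a => ρ * (m a + ((ν a : ℕ) : ℝ))) :=
    Finset.sum_congr rfl fun ν _ => by
      rw [S4_ES hμ α (zn ρ m ν)]
      rfl
  rw [e, S4_ES hμ α (fun a => ρ * (m a + t a))]
  refine (interp (B := 4 * B) hℓ (SG p d) _ (fun q _ => ?_) _ (fun q hq a => ?_) hρ hη0 hη hη' m t
    ht).trans ((mul_le_mul_of_nonneg_right SG_card (by positivity)).trans hE)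
  · rw [norm_mul, norm_mul, norm_mul, RCLike.norm_conj, RCLike.norm_conj, norm_cc, norm_cc,
      norm_cc, norm_cc]
    norm_num
  · have hq' : Gq q := mem_SG.1 hq
    have a1 := abs_le.1 (hμb _ hq'.1 a)
    have a2 := abs_le.1 (hμb _ hq'.2.1 a)
    have a3 := abs_le.1 (hμb _ hq'.2.2.1 a)
    have a4 := abs_le.1 (hμb _ hq'.2.2.2.1 a)
    rw [abs_le]
    constructor <;> linarith [a1.1, a1.2, a2.1, a2.2, a3.1, a3.2, a4.1, a4.2]

lemma i3 [NeZero p] {K : ℕ} {CI ρ η B E : ℝ}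
    {ℓ : (ZMod p → ℝ) → (ZMod p → Fin (K + 1)) → ℝ} (hℓ : IL K CI ℓ) (hρ : 0 < ρ)
    (hη0 : 0 ≤ η) (hη : η ≤ 1) (hη' : ρ * (4 * B) ≤ η) (hCI : 0 ≤ CI) (hB : 0 ≤ B)
    (hE : nn p d ^ 3 * (CI * η ^ (K + 1)) ≤ E)
    {H A : Finset (G p d)} {μ : G p d → ZMod p → ℝ} (hμb : ∀ x, x ≠ 0 → ∀ a, |μ x a| ≤ B)
    (hμ : ∀ (z : ZMod p → ℝ) (x : G p d), x ≠ 0 → gd H A (dz z) x = ∑ a, z a * μ x a)
    (α : ZMod p) (m t : ZMod p → ℝ) (ht : ∀ i, 0 ≤ t i ∧ t i ≤ 1) :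
    ‖T3 (vd H A α (dz (fun a => ρ * (m a + t a)))) -
      ∑ ν, (ℓ t ν : ℂ) * T3 (vd H A α (dz (zn ρ m ν)))‖ ≤ E := by
  have e : ∑ ν, (ℓ t ν : ℂ) * T3 (vd H A α (dz (zn ρ m ν))) = ∑ ν, (ℓ t ν : ℂ) * ES (S3G p d)
      (fun t => cc A α t.1 * cc A α t.2 * (starRingEnd ℂ) (cc A α (t.1 + t.2)))
      (fun t a => μ t.1 a + μ t.2 a - μ (t.1 + t.2) a)
      (fun a => ρ * (m a + ((ν a : ℕ) : ℝ))) :=
    Finset.sum_congr rfl fun ν _ => by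
      rw [T3_ES hμ α (zn ρ m ν)]
      rfl
  rw [e, T3_ES hμ α (fun a => ρ * (m a + t a))]
  refine (interp (B := 4 * B) hℓ (S3G p d) _ (fun q _ => ?_) _ (fun q hq a => ?_) hρ hη0 hη hη' m t
    ht).trans ((mul_le_mul_of_nonneg_right S3G_card (by positivity)).trans hE)
  · rw [norm_mul, norm_mul, RCLike.norm_conj, norm_cc, norm_cc, norm_cc]
    norm_num
  · have hq' := mem_S3G.1 hq
    have a1 := abs_le.1 (hμb _ hq'.1 a)
    have a2 := abs_le.1 (hμb _ hq'.2.1 a)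
    have a3 := abs_le.1 (hμb _ hq'.2.2 a)
    rw [abs_le]
    constructor <;> linarith [a1.1, a1.2, a2.1, a2.2, a3.1, a3.2]

lemma i2 [NeZero p] {K : ℕ} {CI ρ η B E : ℝ}
    {ℓ : (ZMod p → ℝ) → (ZMod p → Fin (K + 1)) → ℝ} (hℓ : IL K CI ℓ) (hρ : 0 < ρ)
    (hη0 : 0 ≤ η) (hη : η ≤ 1) (hη' : ρ * (4 * B) ≤ η) (hCI : 0 ≤ CI) (hB : 0 ≤ B)
    (hE : nn p d ^ 3 * (CI * η ^ (K + 1)) ≤ E)
    {H A : Finset (G p d)} {μ : G p d → ZMod p → ℝ} (hμb : ∀ x, x ≠ 0 → ∀ a, |μ x a| ≤ B)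
    (hμ : ∀ (z : ZMod p → ℝ) (x : G p d), x ≠ 0 → gd H A (dz z) x = ∑ a, z a * μ x a)
    (α : ZMod p) (m t : ZMod p → ℝ) (ht : ∀ i, 0 ≤ t i ∧ t i ≤ 1) :
    ‖T2 (vd H A α (dz (fun a => ρ * (m a + t a)))) -
      ∑ ν, (ℓ t ν : ℂ) * T2 (vd H A α (dz (zn ρ m ν)))‖ ≤ E := by
  have e : ∑ ν, (ℓ t ν : ℂ) * T2 (vd H A α (dz (zn ρ m ν))) = ∑ ν, (ℓ t ν : ℂ) * ES (S2G p d)
      (fun x => cc A α x ^ 2) (fun x a => 2 * μ x a)
      (fun a => ρ * (m a + ((ν a : ℕ) : ℝ))) :=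
    Finset.sum_congr rfl fun ν _ => by
      rw [T2_ES hμ α (zn ρ m ν)]
      rfl
  rw [e, T2_ES hμ α (fun a => ρ * (m a + t a))]
  refine (interp (B := 4 * B) hℓ (S2G p d) _ (fun q _ => ?_) _ (fun q hq a => ?_) hρ hη0 hη hη' m t
    ht).trans ((mul_le_mul_of_nonneg_right S2G_card (by positivity)).trans hE)
  · rw [norm_pow, norm_cc]
    norm_num
  · have hq' := mem_S2G.1 hq
    have a1 := abs_le.1 (hμb _ hq' a)
    rw [abs_le]
    constructor <;> linarith [a1.1, a1.2]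

/-- the conclusion for `T3`, `T2` -/
lemma fin32 {ν : Type} [Fintype ν] {l : ν → ℝ} {T : ℂ} {Tn : ν → ℂ} {Cl Λ E X : ℝ}
    (hl : ∀ v, |l v| ≤ Cl) (hCl : 0 ≤ Cl) (hΛ : Cl * (Fintype.card ν : ℝ) ≤ Λ) (hΛ1 : 1 ≤ Λ)
    (hX : 0 ≤ X) (hi : ‖T - ∑ v, (l v : ℂ) * Tn v‖ ≤ E) (hb : ∀ v, ‖Tn v‖ ≤ X / (2 * Λ))
    (hE : E + X / 2 ≤ X) : ‖T‖ ≤ X := by
  have hΛ0 : 0 < Λ := by linarith
  have b := comb hl hCl (by positivity) hb hΛ
  have h1 : ‖T‖ ≤ ‖T - ∑ v, (l v : ℂ) * Tn v‖ + ‖∑ v, (l v : ℂ) * Tn v‖ := by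
    have := norm_add_le (T - ∑ v, (l v : ℂ) * Tn v) (∑ v, (l v : ℂ) * Tn v)
    rwa [sub_add_cancel] at this
  have h2 : Λ * (X / (2 * Λ)) = X / 2 := by field_simp
  rw [h2] at b
  linarith

/-- the conclusion for `S4` -/
lemma fin4 {ν : Type} [Fintype ν] {l : ν → ℝ} {T W0 : ℂ} {Tn : ν → ℂ} {s0 : ℝ} {s : ν → ℝ}
    {Cl Λ E X Y N e : ℝ}
    (hl : ∀ v, |l v| ≤ Cl) (hCl : 0 ≤ Cl) (hΛ : Cl * (Fintype.card ν : ℝ) ≤ Λ) (hX : 0 ≤ X)
    (he0 : 0 ≤ e)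
    (hsum : ∑ v, (l v : ℂ) = 1) (hi : ‖T - ∑ v, (l v : ℂ) * Tn v‖ ≤ E)
    (hb : ∀ v, ‖Tn v - (Real.exp (-2 * s v) : ℂ) * W0‖ ≤ X) (hs : ∀ v, |s v - s0| ≤ e)
    (he : e ≤ 1 / 2) (hs2 : Λ * (4 * e) ≤ Y) (hE : E + Λ * X ≤ Y * N) :
    ‖T - (Real.exp (-2 * s0) : ℂ) * W0‖ ≤ Y * (N + Real.exp (-2 * s0) * ‖W0‖) := by
  have hdec : T - (Real.exp (-2 * s0) : ℂ) * W0 =
      (T - ∑ v, (l v : ℂ) * Tn v) +
      ∑ v, (l v : ℂ) * (Tn v - (Real.exp (-2 * s v) : ℂ) * W0) +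
      (∑ v, (l v : ℂ) * ((Real.exp (-2 * s v) - Real.exp (-2 * s0) : ℝ) : ℂ)) * W0 := by
    have e1 : ∑ v, (l v : ℂ) * (Tn v - (Real.exp (-2 * s v) : ℂ) * W0) =
        ∑ v, (l v : ℂ) * Tn v - (∑ v, (l v : ℂ) * (Real.exp (-2 * s v) : ℂ)) * W0 := by
      rw [Finset.sum_mul, ← Finset.sum_sub_distrib]
      exact Finset.sum_congr rfl fun v _ => by ring
    have e2 : ∑ v, (l v : ℂ) * ((Real.exp (-2 * s v) - Real.exp (-2 * s0) : ℝ) : ℂ) =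
        ∑ v, (l v : ℂ) * (Real.exp (-2 * s v) : ℂ) - (Real.exp (-2 * s0) : ℂ) := by
      have e3 : (Real.exp (-2 * s0) : ℂ) = ∑ v, (l v : ℂ) * (Real.exp (-2 * s0) : ℂ) := by
        rw [← Finset.sum_mul, hsum, one_mul]
      rw [e3, ← Finset.sum_sub_distrib]
      refine Finset.sum_congr rfl fun v _ => ?_
      rw [Complex.ofReal_sub]
      ring
    rw [e1, e2]
    ring
  have b2 := comb hl hCl hX hb hΛ
  have b3 : ‖∑ v, (l v : ℂ) * ((Real.exp (-2 * s v) - Real.exp (-2 * s0) : ℝ) : ℂ)‖ ≤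
      Λ * (Real.exp (-2 * s0) * (4 * e)) := by
    refine comb hl hCl (by positivity) (fun v => ?_) hΛ
    rw [Complex.norm_real, Real.norm_eq_abs]
    refine (exp_diff ((hs v).trans he)).trans ?_
    have := hs v
    gcongr
  have b4 : Λ * (Real.exp (-2 * s0) * (4 * e)) ≤ Y * Real.exp (-2 * s0) := by
    have := mul_le_mul_of_nonneg_right hs2 (Real.exp_pos (-2 * s0)).le
    linarith
  rw [hdec]
  calc ‖(T - ∑ v, (l v : ℂ) * Tn v) +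
      ∑ v, (l v : ℂ) * (Tn v - (Real.exp (-2 * s v) : ℂ) * W0) +
      (∑ v, (l v : ℂ) * ((Real.exp (-2 * s v) - Real.exp (-2 * s0) : ℝ) : ℂ)) * W0‖
      ≤ E + Λ * X + (Y * Real.exp (-2 * s0)) * ‖W0‖ := by
        refine (norm_add_le _ _).trans (add_le_add ((norm_add_le _ _).trans
          (add_le_add hi b2)) ?_)
        rw [norm_mul]
        exact mul_le_mul_of_nonneg_right (b3.trans b4) (norm_nonneg _)
    _ ≤ Y * N + (Y * Real.exp (-2 * s0)) * ‖W0‖ := by linarith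
    _ = _ := by ring

lemma nodes [NeZero p] (K : ℕ) {C ρ : ℝ} (hρ : 0 < ρ) (δ : ZMod p → ℝ)
    (hδb : ∀ a, |δ a| ≤ rn C p d) (hdz : dz (fun a => δ a / 2) = δ) :
    ∃ (m : ZMod p → ℤ) (t : ZMod p → ℝ), (∀ i, 0 ≤ t i ∧ t i ≤ 1) ∧
      dz (fun a => ρ * ((m a : ℝ) + t a)) = δ ∧
      (∀ (ν : ZMod p → Fin (K + 1)) (a : ZMod p),
        |dz (zn ρ (fun a => (m a : ℝ)) ν) a - δ a| ≤ 4 * ((K + 1 : ℝ) * ρ)) ∧
      ∀ (ν : ZMod p → Fin (K + 1)) (a : ZMod p),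
        |((m a + ((ν a : ℕ) : ℤ) : ℤ) : ℝ)| ≤ rn C p d / (2 * ρ) + K + 1 := by
  have hfl : ∀ a, 0 ≤ δ a / 2 / ρ - (⌊δ a / 2 / ρ⌋ : ℝ) ∧
      δ a / 2 / ρ - (⌊δ a / 2 / ρ⌋ : ℝ) ≤ 1 := by
    intro a
    have h1 : ((⌊δ a / 2 / ρ⌋ : ℤ) : ℝ) ≤ δ a / 2 / ρ := Int.floor_le _
    have h2 := Int.lt_floor_add_one (δ a / 2 / ρ)
    constructor <;> linarith
  have hzt : (fun a => ρ * ((⌊δ a / 2 / ρ⌋ : ℝ) + (δ a / 2 / ρ - (⌊δ a / 2 / ρ⌋ : ℝ)))) =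
      fun a => δ a / 2 := by
    funext a
    rw [add_sub_cancel]
    field_simp
  have hK : ∀ (ν : ZMod p → Fin (K + 1)) (a : ZMod p), ((ν a : ℕ) : ℝ) ≤ K := fun ν a => by
    exact_mod_cast Nat.lt_succ_iff.1 (ν a).isLt
  refine ⟨fun a => ⌊δ a / 2 / ρ⌋, fun a => δ a / 2 / ρ - (⌊δ a / 2 / ρ⌋ : ℝ), hfl, ?_, ?_, ?_⟩
  · rw [hzt, hdz]
  · intro ν a
    have h0 : ∀ a, |zn ρ (fun a => ((⌊δ a / 2 / ρ⌋ : ℤ) : ℝ)) ν a - δ a / 2| ≤
        (K + 1 : ℝ) * ρ := by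
      intro a
      have h1 : zn ρ (fun a => ((⌊δ a / 2 / ρ⌋ : ℤ) : ℝ)) ν a - δ a / 2 =
          ρ * (((ν a : ℕ) : ℝ) - (δ a / 2 / ρ - (⌊δ a / 2 / ρ⌋ : ℝ))) := by
        unfold zn
        field_simp
        ring
      rw [h1, abs_mul, abs_of_pos hρ, mul_comm]
      refine mul_le_mul_of_nonneg_right ?_ hρ.le
      have h3 : (0 : ℝ) ≤ ((ν a : ℕ) : ℝ) := Nat.cast_nonneg _
      rw [abs_le]
      constructor <;> linarith [hfl a, hK ν a, (hfl a).1, (hfl a).2]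
    have := dz_diff h0 a
    rwa [hdz] at this
  · intro ν a
    have h2 : |δ a / 2 / ρ| ≤ rn C p d / (2 * ρ) := by
      rw [abs_div, abs_of_pos hρ, abs_div, abs_of_pos (by norm_num : (0 : ℝ) < 2), div_div]
      gcongr
      exact hδb a
    have h4 : (0 : ℝ) ≤ ((ν a : ℕ) : ℝ) := Nat.cast_nonneg _
    have h7 := abs_le.1 h2
    push_cast
    rw [abs_le]
    constructor <;> linarith [h7.1, h7.2, (hfl a).1, (hfl a).2, hK ν a]

lemma det [NeZero p] {K : ℕ} {CI C D Λ ρ η E τ : ℝ}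
    {ℓ : (ZMod p → ℝ) → (ZMod p → Fin (K + 1)) → ℝ} (hCI : 0 ≤ CI) (hC : 0 < C)
    (hℓb : ∀ t : ZMod p → ℝ, (∀ i, 0 ≤ t i ∧ t i ≤ 1) → ∀ ν, |ℓ t ν| ≤ CI)
    (hℓ : IL K CI ℓ)
    (hρ : 0 < ρ) (hη0 : 0 ≤ η) (hη : η ≤ 1) (hη' : ρ * (4 * (6 * nn p d ^ (1 / 2 + τ))) ≤ η)
    (hE : nn p d ^ 3 * (CI * η ^ (K + 1)) ≤ E)
    (hΛ : CI * (K + 1 : ℝ) ^ p ≤ Λ) (hΛ1 : 1 ≤ Λ)
    (hD : D = 2 * rn C p d) (hKρ : 4 * ((K + 1 : ℝ) * ρ) ≤ rn C p d)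
    {H A : Finset (G p d)} {α : ZMod p}
    (hMU : (∃ μ : G p d → ZMod p → ℝ, (∀ x, x ≠ 0 → ∀ a, |μ x a| ≤ 6 * nn p d ^ (1 / 2 + τ)) ∧
      ∀ (z : ZMod p → ℝ) (x : G p d), x ≠ 0 → gd H A (dz z) x = ∑ a, z a * μ x a) ∧
      (∀ δ : ZMod p → ℝ, EM δ → dz (fun a => δ a / 2) = δ))
    (hE4 : E + Λ * nn p d ^ (15 / 8 : ℝ) ≤ nn p d ^ (-8 * tau p) * nn p d ^ 2)
    (hE3 : E + nn p d ^ (11 / 10 : ℝ) / 2 ≤ nn p d ^ (11 / 10 : ℝ))
    (hE2 : E + nn p d ^ (3 / 5 : ℝ) / 2 ≤ nn p d ^ (3 / 5 : ℝ))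
    (hs1 : nn p d / 8 * (4 * ((K + 1 : ℝ) * ρ) * (3 * rn C p d)) ≤ 1 / 2)
    (hs2 : Λ * (4 * (nn p d / 8 * (4 * ((K + 1 : ℝ) * ρ) * (3 * rn C p d)))) ≤
      nn p d ^ (-8 * tau p))
    (hgood : ∀ m : ZMod p → ℤ, (∀ a, |(m a : ℝ)| ≤ rn C p d / (2 * ρ) + K + 1) →
      ¬ Bad H α D Λ (fun a => ρ * (m a : ℝ)) A) :
    WU C H A α := by
  obtain ⟨⟨μ, hμb, hμ⟩, hdz⟩ := hMU
  intro δ hδ hδb
  have hn1 : 1 ≤ nn p d := one_le_nn
  have hn0 : 0 < nn p d := by linarith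
  have hr0 : 0 ≤ rn C p d := by
    unfold rn
    positivity
  have hB : 0 ≤ 6 * nn p d ^ (1 / 2 + τ) := by positivity
  obtain ⟨m, t, ht, hdt, hdd, hmb⟩ := nodes K hρ δ hδb (hdz δ hδ)
  have hwin : ∀ (ν : ZMod p → Fin (K + 1)) a, |dz (zn ρ (fun a => (m a : ℝ)) ν) a| ≤ D := by
    intro ν a
    have h1 : |dz (zn ρ (fun a => (m a : ℝ)) ν) a| ≤
        |dz (zn ρ (fun a => (m a : ℝ)) ν) a - δ a| + |δ a| := by
      have := abs_add_le (dz (zn ρ (fun a => (m a : ℝ)) ν) a - δ a) (δ a)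
      rwa [sub_add_cancel] at this
    rw [hD]
    linarith [hdd ν a, hδb a]
  have hcons : ∀ ν : ZMod p → Fin (K + 1), ‖S4 (vd H A α (dz (zn ρ (fun a => (m a : ℝ)) ν))) -
      (Real.exp (-2 * sig p d (dz (zn ρ (fun a => (m a : ℝ)) ν))) : ℂ) * S4 (vd H A α 0)‖ ≤
        nn p d ^ (15 / 8 : ℝ) ∧
      ‖T3 (vd H A α (dz (zn ρ (fun a => (m a : ℝ)) ν)))‖ ≤ nn p d ^ (11 / 10 : ℝ) / (2 * Λ) ∧
      ‖T2 (vd H A α (dz (zn ρ (fun a => (m a : ℝ)) ν)))‖ ≤ nn p d ^ (3 / 5 : ℝ) / (2 * Λ) := by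
    intro ν
    have h1 := hgood (fun a => m a + ((ν a : ℕ) : ℤ)) (hmb ν)
    have h2 : (fun a => ρ * ((m a + ((ν a : ℕ) : ℤ) : ℤ) : ℝ)) =
        zn ρ (fun a => (m a : ℝ)) ν := by
      funext a
      unfold zn
      push_cast
      ring
    rw [h2] at h1
    by_contra hcon
    refine h1 ⟨hwin ν, ?_⟩
    by_contra hcon2
    push Not at hcon2
    exact hcon ⟨hcon2.1.le, hcon2.2.1.le, hcon2.2.2.le⟩
  have hcardν : (Fintype.card (ZMod p → Fin (K + 1)) : ℝ) = (K + 1 : ℝ) ^ p := by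
    rw [Fintype.card_fun, Fintype.card_fin, ZMod.card]
    push_cast
    rfl
  rw [← hcardν] at hΛ
  have j4 := i4 hℓ hρ hη0 hη hη' hCI hE hμb hμ α (fun a => (m a : ℝ)) t ht
  have j3 := i3 hℓ hρ hη0 hη hη' hCI hB hE hμb hμ α (fun a => (m a : ℝ)) t ht
  have j2 := i2 hℓ hρ hη0 hη hη' hCI hB hE hμb hμ α (fun a => (m a : ℝ)) t ht
  rw [hdt] at j4 j3 j2
  have hl := hℓb t ht
  refine ⟨?_, ?_, ?_⟩
  · refine fin4 (E := E) (X := nn p d ^ (15 / 8 : ℝ)) hl hCI hΛ (by positivity) ?_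
      (sum_l hℓ t ht) j4 (fun ν => (hcons ν).1)
      (fun ν => sig_diff (hdd ν) (fun a => ?_)) hs1 hs2 hE4
    · positivity
    · have h1 := hwin ν a
      rw [hD] at h1
      linarith [hδb a]
  · exact fin32 hl hCI hΛ hΛ1 (by positivity) j3 (fun ν => (hcons ν).2.1) hE3
  · exact fin32 hl hCI hΛ hΛ1 (by positivity) j2 (fun ν => (hcons ν).2.2) hE2

/-! ### the main theorem -/

lemma EM_dz [NeZero p] (z : ZMod p → ℝ) : EM (dz z) := by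
  have hp : (p : ℝ) ≠ 0 := by exact_mod_cast NeZero.ne p
  refine ⟨fun a => ?_, ?_⟩
  · unfold dz
    rw [neg_neg]
    ring
  · unfold dz
    have h1 : ∑ a, z (-a) = ∑ a, z a := Equiv.sum_comp (Equiv.neg (ZMod p)) z
    rw [Finset.sum_sub_distrib, Finset.sum_add_distrib, h1, Finset.sum_const, Finset.card_univ,
      ZMod.card, nsmul_eq_mul]
    field_simp
    ring

lemma big {τ Λ E C P : ℝ} {K p : ℕ} (hτ : 0 < τ) (hτ8 : 8 * τ < 1 / 8) :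
    ∃ n0 : ℝ, ∀ x : ℝ, n0 ≤ x → Real.exp 1 ≤ x ∧ 24 ≤ x ^ (15 * τ) ∧
      E + Λ ≤ x ^ (1 / 8 - 8 * τ) ∧ 2 * E ≤ x ^ (3 / 5 : ℝ) ∧
      4 * (K + 1 : ℝ) / C ≤ x ^ (16 * τ) ∧
      6 * Λ * (K + 1 : ℝ) * C * Real.log x ≤ x ^ (8 * τ) ∧
      1600 * P ^ 2 * C ^ 2 * Real.log x ≤ x ∧ Real.log x ^ (p + 2) ≤ x ^ (9 / 100 : ℝ) := by
  have e1 := lgk 0 (s := 15 * τ) (by positivity) 24
  have e2 := lgk 0 (s := 1 / 8 - 8 * τ) (by linarith) (E + Λ)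
  have e3 := lgk 0 (s := 3 / 5) (by norm_num) (2 * E)
  have e4 := lgk 0 (s := 16 * τ) (by positivity) (4 * (K + 1 : ℝ) / C)
  have e5 := lgk 1 (s := 8 * τ) (by positivity) (6 * Λ * (K + 1 : ℝ) * C)
  have e6 := lgk 1 (s := 1) one_pos (1600 * P ^ 2 * C ^ 2)
  have e7 := lgk (p + 2) (s := 9 / 100) (by norm_num) 1
  obtain ⟨n0, h⟩ := eventually_atTop.1 ((eventually_ge_atTop (Real.exp 1)).and (e1.and (e2.and
    (e3.and (e4.and (e5.and (e6.and e7)))))))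
  refine ⟨n0, fun x hx => ?_⟩
  obtain ⟨h0, h1, h2, h3, h4, h5, h6, h7⟩ := h x hx
  simp only [pow_zero, mul_one, pow_one, Real.rpow_one, one_mul] at h1 h2 h3 h4 h5 h6 h7
  exact ⟨h0, h1, h2, h3, h4, h5, h6, h7⟩

lemma eta_eq {x τ : ℝ} (hx : 0 < x) :
    x ^ (-(1 / 2 + 16 * τ)) * (4 * (6 * x ^ (1 / 2 + τ))) = 24 * x ^ (-(15 * τ)) := by
  have h : x ^ (-(1 / 2 + 16 * τ)) * x ^ (1 / 2 + τ) = x ^ (-(15 * τ)) := by
    rw [← Real.rpow_add hx]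
    congr 1
    ring
  rw [← h]
  ring

lemma err_le {x τ CI : ℝ} {K : ℕ} (hx : 1 ≤ x) (hCI : 0 ≤ CI)
    (hK : 3 ≤ 15 * τ * (K + 1 : ℝ)) :
    x ^ 3 * (CI * (24 * x ^ (-(15 * τ))) ^ (K + 1)) ≤ CI * 24 ^ (K + 1) := by
  have hx0 : 0 < x := by linarith
  have h1 : (x ^ (-(15 * τ))) ^ (K + 1) = x ^ (-(15 * τ * (K + 1 : ℝ))) := by
    rw [← Real.rpow_natCast, ← Real.rpow_mul hx0.le]
    congr 1
    push_cast
    ring
  have h2 : x ^ (-(15 * τ * (K + 1 : ℝ))) ≤ x ^ (-(3 : ℝ)) :=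
    Real.rpow_le_rpow_of_exponent_le hx (by linarith)
  have h3 : x ^ 3 * x ^ (-(3 : ℝ)) = 1 := by
    rw [Real.rpow_neg hx0.le, show (3 : ℝ) = ((3 : ℕ) : ℝ) by norm_num, Real.rpow_natCast]
    field_simp
  rw [mul_pow, h1]
  calc x ^ 3 * (CI * (24 ^ (K + 1) * x ^ (-(15 * τ * (K + 1 : ℝ)))))
      ≤ x ^ 3 * (CI * (24 ^ (K + 1) * x ^ (-(3 : ℝ)))) := by gcongr
    _ = CI * 24 ^ (K + 1) * (x ^ 3 * x ^ (-(3 : ℝ))) := by ring
    _ = _ := by rw [h3, mul_one]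

/-- `rn` is `C √(log n) n^{-1/2}` -/
lemma rn_eq [NeZero p] (C : ℝ) (hlog : 1 ≤ Real.log (nn p d)) :
    C * nn p d ^ (-(1 / 2 : ℝ)) ≤ rn |C| p d ∧ rn |C| p d ≤
      |C| * Real.log (nn p d) * nn p d ^ (-(1 / 2 : ℝ)) := by
  have hn0 : 0 < nn p d := lt_of_lt_of_le one_pos one_le_nn
  have h1 : √(Real.log (nn p d) / nn p d) = √(Real.log (nn p d)) * nn p d ^ (-(1 / 2 : ℝ)) := by
    rw [div_eq_mul_inv, Real.sqrt_mul (by linarith), Real.sqrt_inv, Real.rpow_neg hn0.le,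
      ← Real.sqrt_eq_rpow]
  have h2 : 1 ≤ √(Real.log (nn p d)) := Real.one_le_sqrt.2 hlog
  have h3 : √(Real.log (nn p d)) ≤ Real.log (nn p d) := by
    rw [Real.sqrt_le_left (by linarith)]
    nlinarith
  have h4 : 0 < nn p d ^ (-(1 / 2 : ℝ)) := by positivity
  unfold rn
  rw [h1]
  constructor
  · have a1 : C * nn p d ^ (-(1 / 2 : ℝ)) ≤ |C| * nn p d ^ (-(1 / 2 : ℝ)) := by
      gcongr
      exact le_abs_self _
    refine a1.trans ?_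
    gcongr
    exact le_mul_of_one_le_left h4.le h2
  · rw [mul_assoc]
    gcongr

lemma fin_arith {N x W Q L M1 A : ℝ} {p : ℕ} (hx : 1 ≤ x) (hL : 1 ≤ L) (hW : 0 ≤ W)
    (hQ : 0 ≤ Q) (hA : 0 ≤ A) (hM : 0 ≤ M1) {u : ℝ} (hu : u ^ p = x ^ (1 / 100 : ℝ))
    (hM1 : M1 ≤ A * L * u) (hN : N * x ^ (1 / 5 : ℝ) ≤ M1 ^ p * (W * (Q * L ^ 2)))
    (hlog : L ^ (p + 2) ≤ x ^ (9 / 100 : ℝ)) :
    N * x ^ (1 / 10 : ℝ) ≤ A ^ p * Q * W := by
  have hx0 : 0 < x := by linarith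
  have h1 : M1 ^ p ≤ A ^ p * L ^ p * x ^ (1 / 100 : ℝ) := by
    refine (pow_le_pow_left₀ hM hM1 p).trans (le_of_eq ?_)
    rw [mul_pow, mul_pow, hu]
  have hL0 : 0 ≤ L := by linarith
  have h2 : N * x ^ (1 / 5 : ℝ) ≤ A ^ p * Q * W * x ^ (1 / 10 : ℝ) := by
    calc N * x ^ (1 / 5 : ℝ) ≤ M1 ^ p * (W * (Q * L ^ 2)) := hN
      _ ≤ A ^ p * L ^ p * x ^ (1 / 100 : ℝ) * (W * (Q * L ^ 2)) := by gcongr
      _ = A ^ p * Q * W * (x ^ (1 / 100 : ℝ) * L ^ (p + 2)) := by ring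
      _ ≤ A ^ p * Q * W * (x ^ (1 / 100 : ℝ) * x ^ (9 / 100 : ℝ)) := by gcongr
      _ = _ := by
        rw [← Real.rpow_add hx0]
        norm_num
  have h3 : x ^ (1 / 5 : ℝ) = x ^ (1 / 10 : ℝ) * x ^ (1 / 10 : ℝ) := by
    rw [← Real.rpow_add hx0]
    norm_num
  have h4 : 0 < x ^ (1 / 10 : ℝ) := by positivity
  rw [h3, ← mul_assoc] at h2
  exact le_of_mul_le_mul_right h2 h4

end WINaux

open WINaux in
open Finset in
open Pool.Agent.UAA (G ch nn) in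
/-- The uniform event in the windows `α ≠ 0`. -/
theorem t_WIN (hWS4 : WS4_Stmt) (hWS3 : WS3_Stmt) (hINT : INT_Stmt) (hMUU : MUU_Stmt) :
    WIN_Stmt := by
  intro p _ hp hp2 C hC
  classical
  obtain ⟨C4, h4⟩ := hWS4 p hp hp2
  obtain ⟨C3, h3⟩ := hWS3 p hp hp2
  obtain ⟨K, hK⟩ : ∃ K : ℕ, K = 320 * p := ⟨_, rfl⟩
  obtain ⟨CI, ℓ, hCI, hℓb, hℓ⟩ := hINT (ZMod p) K
  have hp1 : 1 ≤ p := hp.one_lt.le
  have hP : (0 : ℝ) < p := by exact_mod_cast hp.pos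
  have hP1 : (1 : ℝ) ≤ p := by exact_mod_cast hp1
  obtain ⟨Λ, hΛ⟩ : ∃ Λ : ℝ, Λ = CI * (K + 1 : ℝ) ^ p + 1 := ⟨_, rfl⟩
  have hΛ0 : CI * (K + 1 : ℝ) ^ p ≤ Λ := by rw [hΛ]; linarith
  have hΛ1 : 1 ≤ Λ := by
    have : 0 ≤ CI * (K + 1 : ℝ) ^ p := by positivity
    rw [hΛ]
    linarith
  obtain ⟨E, hE⟩ : ∃ E : ℝ, E = CI * 24 ^ (K + 1) := ⟨_, rfl⟩
  have hE0 : 0 ≤ E := by rw [hE]; positivity
  have hτ : 0 < tau p := by unfold tau; positivity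
  have hτ8 : 8 * tau p < 1 / 8 := by
    unfold tau
    rw [mul_one_div, div_lt_div_iff₀ (by positivity) (by norm_num)]
    linarith
  have hτK : 3 ≤ 15 * tau p * (K + 1 : ℝ) := by
    have : 15 * tau p * (K + 1 : ℝ) = 3 + 15 * tau p := by
      rw [hK]
      unfold tau
      push_cast
      field_simp
      ring
    rw [this]
    linarith
  obtain ⟨n0, hn0⟩ := big (Λ := Λ) (E := E) (C := C) (P := p) (K := K) (p := p) hτ hτ8
  obtain ⟨Wc, hWc⟩ : ∃ Wc : ℝ, Wc = |C4| * (1 + 16 * C ^ 4 + 4 * C ^ 2) + 8 * Λ ^ 2 * |C3| :=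
    ⟨_, rfl⟩
  have hWc0 : 0 ≤ Wc := by rw [hWc]; positivity
  obtain ⟨Q, hQ⟩ : ∃ Q : ℝ, Q = (C + 2 * K + 5) ^ p * Wc := ⟨_, rfl⟩
  have hQ0 : 0 ≤ Q := by rw [hQ]; positivity
  refine ⟨max n0 0 + Q, fun d H hH α hα => ?_⟩
  have hn1 : 1 ≤ nn p d := one_le_nn
  have hnpos : 0 < nn p d := by linarith
  have hW : (0 : ℝ) ≤ 2 ^ H.card := by positivity
  rcases lt_or_ge (nn p d) n0 with hsmall | hlarge
  · have h1 := ncard_le_all H (fun A => Ty (tau p) A ∧ ¬ WU C H A α)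
    have h5 : nn p d ^ (1 / 10 : ℝ) ≤ nn p d := by
      calc nn p d ^ (1 / 10 : ℝ) ≤ nn p d ^ (1 : ℝ) :=
            Real.rpow_le_rpow_of_exponent_le hn1 (by norm_num)
        _ = _ := Real.rpow_one _
    calc _ ≤ (2 : ℝ) ^ H.card * nn p d ^ (1 / 10 : ℝ) :=
          mul_le_mul_of_nonneg_right h1 (by positivity)
      _ ≤ (2 : ℝ) ^ H.card * (max n0 0 + Q) := by
        refine mul_le_mul_of_nonneg_left ?_ hW
        linarith [le_max_left n0 0]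
      _ = _ := mul_comm _ _
  obtain ⟨he, h15, hEΛ, hE35, h16, h8, hDx, hL⟩ := hn0 _ hlarge
  obtain ⟨n, hn⟩ : ∃ n : ℝ, n = nn p d := ⟨_, rfl⟩
  rw [← hn] at he h15 hEΛ hE35 h16 h8 hDx hL hn1 hnpos
  have hlog1 : 1 ≤ Real.log n := by
    rw [Real.le_log_iff_exp_le hnpos]
    exact he
  have hlog1' : 1 ≤ Real.log (nn p d) := by rw [← hn]; exact hlog1
  obtain ⟨ρ, hρ⟩ : ∃ ρ : ℝ, ρ = n ^ (-(1 / 2 + 16 * tau p)) := ⟨_, rfl⟩
  have hρpos : 0 < ρ := by rw [hρ]; positivity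
  obtain ⟨η, hη⟩ : ∃ η : ℝ, η = 24 * n ^ (-(15 * tau p)) := ⟨_, rfl⟩
  have hη0 : 0 ≤ η := by rw [hη]; positivity
  have hη1 : η ≤ 1 := by
    rw [hη, Real.rpow_neg hnpos.le, ← div_eq_mul_inv, div_le_one (by positivity)]
    exact h15
  have hρη : ρ * (4 * (6 * n ^ (1 / 2 + tau p))) ≤ η := by
    rw [hρ, hη]
    exact (eta_eq hnpos).le
  have herr : n ^ 3 * (CI * η ^ (K + 1)) ≤ E := by
    rw [hη, hE]
    exact err_le hn1 hCI hτK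
  have hrn := rn_eq (p := p) (d := d) C hlog1'
  rw [abs_of_pos hC, ← hn] at hrn
  obtain ⟨hr1, hr2⟩ := hrn
  have hr0 : 0 ≤ rn C p d := by unfold rn; positivity
  have hρ2 : ρ = n ^ (-(16 * tau p)) * n ^ (-(1 / 2 : ℝ)) := by
    rw [hρ, ← Real.rpow_add hnpos]
    congr 1
    ring
  have hKρ : 4 * ((K + 1 : ℝ) * ρ) ≤ rn C p d := by
    refine le_trans ?_ hr1
    rw [hρ2, ← mul_assoc, ← mul_assoc]
    refine mul_le_mul_of_nonneg_right ?_ (by positivity)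
    rw [Real.rpow_neg hnpos.le, ← div_eq_mul_inv, div_le_iff₀ (by positivity)]
    rw [div_le_iff₀ hC] at h16
    linarith
  have hhalf : n * (n ^ (-(1 / 2 : ℝ)) * n ^ (-(1 / 2 : ℝ))) = 1 := by
    rw [← Real.rpow_add hnpos]
    norm_num
    rw [Real.rpow_neg_one]
    field_simp
  -- the perturbation of the variance
  have he1 : n / 8 * (4 * ((K + 1 : ℝ) * ρ) * (3 * rn C p d)) ≤
      3 / 2 * (K + 1 : ℝ) * C * Real.log n * n ^ (-(16 * tau p)) := by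
    calc n / 8 * (4 * ((K + 1 : ℝ) * ρ) * (3 * rn C p d))
        ≤ n / 8 * (4 * ((K + 1 : ℝ) * ρ) * (3 * (C * Real.log n * n ^ (-(1 / 2 : ℝ))))) := by
          gcongr
      _ = 3 / 2 * (K + 1 : ℝ) * C * Real.log n * n ^ (-(16 * tau p)) *
          (n * (n ^ (-(1 / 2 : ℝ)) * n ^ (-(1 / 2 : ℝ)))) := by
          rw [hρ2]
          ring
      _ = _ := by rw [hhalf, mul_one]
  have h8pos : 0 < n ^ (8 * tau p) := by positivity
  have hs2 : Λ * (4 * (n / 8 * (4 * ((K + 1 : ℝ) * ρ) * (3 * rn C p d)))) ≤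
      n ^ (-8 * tau p) := by
    calc Λ * (4 * (n / 8 * (4 * ((K + 1 : ℝ) * ρ) * (3 * rn C p d))))
        ≤ Λ * (4 * (3 / 2 * (K + 1 : ℝ) * C * Real.log n * n ^ (-(16 * tau p)))) := by
          gcongr
      _ = 6 * Λ * (K + 1 : ℝ) * C * Real.log n * n ^ (-(16 * tau p)) := by ring
      _ ≤ n ^ (8 * tau p) * n ^ (-(16 * tau p)) := by gcongr
      _ = _ := by
        rw [← Real.rpow_add hnpos]
        congr 1
        ring
  have hs1 : n / 8 * (4 * ((K + 1 : ℝ) * ρ) * (3 * rn C p d)) ≤ 1 / 2 := by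
    have g1 : n ^ (-8 * tau p) ≤ 1 := Real.rpow_le_one_of_one_le_of_nonpos hn1 (by linarith)
    have g2 : 0 ≤ n / 8 * (4 * ((K + 1 : ℝ) * ρ) * (3 * rn C p d)) := by positivity
    have g3 := (le_mul_of_one_le_left (mul_nonneg (by norm_num : (0 : ℝ) ≤ 4) g2) hΛ1).trans
      (hs2.trans g1)
    linarith
  -- the window
  obtain ⟨D, hD⟩ : ∃ D : ℝ, D = 2 * rn C p d := ⟨_, rfl⟩
  have hDp : D ≤ 1 / (20 * p) := by
    have g1 : rn C p d ≤ 1 / (40 * p) := by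
      unfold rn
      rw [← hn]
      have g2 : √(Real.log n / n) ≤ 1 / (40 * p * C) := by
        refine Real.sqrt_le_iff.2 ⟨by positivity, ?_⟩
        rw [div_pow, one_pow, div_le_div_iff₀ hnpos (by positivity)]
        calc Real.log n * (40 * p * C) ^ 2 = 1600 * (p : ℝ) ^ 2 * C ^ 2 * Real.log n := by ring
          _ ≤ n := hDx
          _ = 1 * n := (one_mul n).symm
      calc C * √(Real.log n / n) ≤ C * (1 / (40 * p * C)) := by gcongr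
        _ = _ := by field_simp
    rw [hD]
    calc 2 * rn C p d ≤ 2 * (1 / (40 * p)) := by gcongr
      _ = _ := by field_simp; norm_num
  -- the nodes
  obtain ⟨M, hM⟩ : ∃ M : ℕ, M = ⌈rn C p d / (2 * ρ) + K + 1⌉₊ := ⟨_, rfl⟩
  have hMge : rn C p d / (2 * ρ) + K + 1 ≤ (M : ℝ) := by
    rw [hM]
    exact Nat.le_ceil _
  have hMle : (M : ℝ) ≤ rn C p d / (2 * ρ) + K + 1 + 1 := by
    rw [hM]
    exact (Nat.ceil_lt_add_one (by positivity)).le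
  have hu1 : 1 ≤ n ^ (16 * tau p) := Real.one_le_rpow hn1 (by positivity)
  have hM1 : (2 * M + 1 : ℝ) ≤ (C + 2 * K + 5) * Real.log n * n ^ (16 * tau p) := by
    have g1 : rn C p d / (2 * ρ) ≤ C / 2 * Real.log n * n ^ (16 * tau p) := by
      rw [div_le_iff₀ (by positivity)]
      refine hr2.trans (le_of_eq ?_)
      have g2 : n ^ (16 * tau p) * ρ = n ^ (-(1 / 2 : ℝ)) := by
        rw [hρ, ← Real.rpow_add hnpos]
        congr 1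
        ring
      rw [← g2]
      ring
    have g3 : 1 ≤ Real.log n * n ^ (16 * tau p) := by nlinarith
    have g4 : (2 * K + 5 : ℝ) ≤ (2 * K + 5) * (Real.log n * n ^ (16 * tau p)) :=
      le_mul_of_one_le_right (by positivity) g3
    linarith
  obtain ⟨S, hS⟩ : ∃ S : Finset (ZMod p → ℤ), S = Fintype.piFinset fun _ =>
      Finset.Icc (-(M : ℤ)) (M : ℤ) := ⟨_, rfl⟩
  have hScard : (S.card : ℝ) = (2 * M + 1 : ℝ) ^ p := by
    have g1 : (Finset.Icc (-(M : ℤ)) (M : ℤ)).card = 2 * M + 1 := by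
      rw [Int.card_Icc]
      omega
    rw [hS, Fintype.card_piFinset, Finset.prod_const, g1, Finset.card_univ, ZMod.card]
    push_cast
    rfl
  have hnode := fun m : ZMod p → ℤ => node (C4 := C4) (C3 := C3) (D := D) (Λ := Λ) H α hC hD hDp
    hΛ1 hlog1' (fun δ hδ D hD hD' => h4 d H hH α hα δ hδ D hD hD')
    (fun δ hδ hD => h3 d H hH α hα δ hδ hD) (fun a => ρ * (m a : ℝ)) (EM_dz _)
  rw [← hWc, ← hn] at hnode
  obtain ⟨B, hB⟩ : ∃ B : ℝ, B = 2 ^ H.card * (Wc * Real.log n ^ 2) / n ^ (1 / 5 : ℝ) := ⟨_, rfl⟩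
  have h5pos : 0 < n ^ (1 / 5 : ℝ) := by positivity
  have hunion := ncard_ex H S (fun m A => Bad H α D Λ (fun a => ρ * (m a : ℝ)) A) B
    (fun m _ => by
      rw [hB, le_div_iff₀ h5pos]
      exact hnode m)
  have hincl := ncard_mono H (P := fun A => Ty (tau p) A ∧ ¬ WU C H A α)
    (Q := fun A => ∃ m ∈ S, Bad H α D Λ (fun a => ρ * (m a : ℝ)) A) (by
    rintro A hAH ⟨hA, hbad⟩
    by_contra hcon
    push Not at hcon
    obtain ⟨m1, -, m3, -⟩ := hMUU p d hp hp2 H A hH hAH (tau p) hτ hA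
    refine hbad (det (K := K) (CI := CI) (C := C) (D := D) (Λ := Λ) (ρ := ρ) (η := η) (E := E)
      (τ := tau p) (ℓ := ℓ) hCI hC hℓb hℓ hρpos hη0 hη1 (by rw [← hn]; exact hρη)
      (by rw [← hn]; exact herr) hΛ0 hΛ1 hD hKρ ⟨m1, m3⟩ ?_ ?_ ?_ (by rw [← hn]; exact hs1)
      (by rw [← hn]; exact hs2) ?_)
    · rw [← hn]
      have g1 : E ≤ E * n ^ (15 / 8 : ℝ) :=
        le_mul_of_one_le_right hE0 (Real.one_le_rpow hn1 (by norm_num))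
      calc E + Λ * n ^ (15 / 8 : ℝ) ≤ (E + Λ) * n ^ (15 / 8 : ℝ) := by linarith
        _ ≤ n ^ (1 / 8 - 8 * tau p) * n ^ (15 / 8 : ℝ) := by gcongr
        _ = n ^ (-8 * tau p) * n ^ (2 : ℝ) := by
          rw [← Real.rpow_add hnpos, ← Real.rpow_add hnpos]
          congr 1
          ring
        _ = _ := by norm_num
    · rw [← hn]
      have g1 : n ^ (3 / 5 : ℝ) ≤ n ^ (11 / 10 : ℝ) :=
        Real.rpow_le_rpow_of_exponent_le hn1 (by norm_num)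
      linarith
    · rw [← hn]
      linarith
    · intro m hm
      refine hcon m ?_
      rw [hS, Fintype.mem_piFinset]
      intro a
      have g1 := abs_le.1 ((hm a).trans hMge)
      rw [Finset.mem_Icc]
      constructor
      · exact_mod_cast g1.1
      · exact_mod_cast g1.2)
  have hX : (Set.ncard {A : Finset (G p d) | A ⊆ H ∧ Ty (tau p) A ∧ ¬ WU C H A α} : ℝ) *
      n ^ (1 / 5 : ℝ) ≤ (2 * M + 1 : ℝ) ^ p * (2 ^ H.card * (Wc * Real.log n ^ 2)) := by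
    have g1 : (Set.ncard {A : Finset (G p d) | A ⊆ H ∧ Ty (tau p) A ∧ ¬ WU C H A α} : ℝ) ≤
        (2 * M + 1 : ℝ) ^ p * B := by
      rw [← hScard]
      refine le_trans ?_ hunion
      exact_mod_cast hincl
    calc _ ≤ (2 * M + 1 : ℝ) ^ p * B * n ^ (1 / 5 : ℝ) := by gcongr
      _ = _ := by
        rw [hB]
        field_simp
  have hfinal := fin_arith (W := 2 ^ H.card) (Q := Wc) (L := Real.log n)
    (A := C + 2 * K + 5) (u := n ^ (16 * tau p)) hn1 hlog1 hW hWc0 (by positivity)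
    (by positivity) (by
      rw [← Real.rpow_natCast, ← Real.rpow_mul hnpos.le]
      congr 1
      unfold tau
      field_simp
      norm_num) hM1 hX hL
  rw [← hn]
  refine hfinal.trans ?_
  rw [← hQ]
  refine mul_le_mul_of_nonneg_right ?_ hW
  linarith [le_max_right n0 0]

end Pool.Agent.UAB
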