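import Pool.Agent.UAB.St

/-!
# WKK: the fourth moment of a quadratic phase
-/

set_option autoImplicit false

namespace Pool.Agent.UAB

open Finset
open Pool.Agent.UAA (G ch nn)

namespace WKKaux

variable {p d : ℕ}

theorem dt_add (x y c : G p d) : dt (x + y) c = dt x c + dt y c := by
  simp [dt, add_mul, Finset.sum_add_distrib]

/-- Orthogonality. -/
theorem sum_chi [NeZero p] (v : G p d) (hv : v ≠ 0) :
    ∑ l : G p d, (ZMod.stdAddChar (dt l v) : ℂ) = 0 := by
  classical
  obtain ⟨i, hi⟩ := Function.ne_iff.1 hv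
  have h1 : dt (Pi.single i 1) v = v i := by simp [dt, Pi.single_apply]
  have h2 : (ZMod.stdAddChar (v i) : ℂ) ≠ 1 := by
    intro h
    have h0 : (ZMod.stdAddChar (v i) : ℂ) = (ZMod.stdAddChar (0 : ZMod p) : ℂ) := by
      rw [h, AddChar.map_zero_eq_one]
    exact hi (ZMod.injective_stdAddChar h0)
  have h3 : (ZMod.stdAddChar (v i) : ℂ) * ∑ l : G p d, (ZMod.stdAddChar (dt l v) : ℂ) =
      ∑ l : G p d, (ZMod.stdAddChar (dt l v) : ℂ) := by
    rw [Finset.mul_sum, ← Equiv.sum_comp (Equiv.addLeft (Pi.single i (1 : ZMod p)))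
      (fun l : G p d => (ZMod.stdAddChar (dt l v) : ℂ))]
    apply Finset.sum_congr rfl
    intro l _
    rw [Equiv.coe_addLeft, dt_add, h1, AddChar.map_add_eq_mul]
  have h4 : ((ZMod.stdAddChar (v i) : ℂ) - 1) *
      ∑ l : G p d, (ZMod.stdAddChar (dt l v) : ℂ) = 0 := by
    rw [sub_mul, h3, one_mul, sub_self]
  rcases mul_eq_zero.1 h4 with h | h
  · exact absurd (sub_eq_zero.1 h) h2
  · exact h

/-- The quadratic form. -/
def qf (A : Finset (G p d)) (x : G p d) : ZMod p := ∑ h ∈ A, dt x h ^ 2

/-- The linear map of the bilinear form. -/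
def ML (A : Finset (G p d)) : G p d →ₗ[ZMod p] G p d where
  toFun k := fun i => ∑ h ∈ A, dt k h * h i
  map_add' k l := by
    funext i
    simp only [Pi.add_apply]
    rw [← Finset.sum_add_distrib]
    apply Finset.sum_congr rfl
    intro h _
    rw [dt_add, add_mul]
  map_smul' c k := by
    funext i
    simp only [Pi.smul_apply, smul_eq_mul, RingHom.id_apply]
    rw [Finset.mul_sum]
    apply Finset.sum_congr rfl
    intro h _
    have : dt (c • k) h = c * dt k h := by
      simp [dt, Finset.mul_sum, mul_assoc]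
    rw [this, mul_assoc]

theorem dt_ML (A : Finset (G p d)) (l k : G p d) :
    dt l (ML A k) = ∑ h ∈ A, dt l h * dt k h := by
  show ∑ i, l i * ∑ h ∈ A, dt k h * h i = _
  simp_rw [Finset.mul_sum]
  rw [Finset.sum_comm]
  apply Finset.sum_congr rfl
  intro h _
  show _ = (∑ i, l i * h i) * dt k h
  rw [Finset.sum_mul]
  apply Finset.sum_congr rfl
  intro i _
  ring

theorem qf_id (A : Finset (G p d)) (b k l : G p d) :
    qf A (l + b + k) + qf A b - qf A (l + b) - qf A (b + k) = 2 * dt l (ML A k) := by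
  rw [dt_ML]
  unfold qf
  rw [Finset.mul_sum, ← Finset.sum_add_distrib, ← Finset.sum_sub_distrib,
    ← Finset.sum_sub_distrib]
  apply Finset.sum_congr rfl
  intro h _
  rw [dt_add, dt_add, dt_add]
  ring

/-- The vector at `δ = 0`. -/
theorem vd_zero [NeZero p] (H A : Finset (G p d)) (α : ZMod p) (x : G p d) :
    vd H A α 0 x = (ZMod.stdAddChar (α * qf A x) : ℂ) := by
  unfold vd up
  split_ifs with hx
  · subst hx
    have h0 : qf A (0 : G p d) = 0 := by
      unfold qf
      apply Finset.sum_eq_zero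
      intro h _
      simp [dt]
    rw [h0, mul_zero, AddChar.map_zero_eq_one]
  · have hg : gd H A (0 : ZMod p → ℝ) x = 0 := by
      simp [gd]
    show (ZMod.stdAddChar (α * ∑ h ∈ A, dt x h ^ 2) : ℂ) *
      Complex.exp ((gd H A 0 x : ℂ) * Complex.I) = _
    rw [hg]
    simp [qf]

theorem conj_std [NeZero p] (a : ZMod p) :
    (starRingEnd ℂ) (ZMod.stdAddChar a : ℂ) = (ZMod.stdAddChar (-a) : ℂ) := by
  rw [AddChar.map_neg_eq_conj]

end WKKaux

open WKKaux in
theorem t_WKK : WKK_Stmt := by
  classical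
  intro p d _ hp hp2 H A α hα
  have : Fact p.Prime := ⟨hp⟩
  have h2 : (2 : ZMod p) ≠ 0 := by
    intro h
    have h' : ((2 : ℕ) : ZMod p) = 0 := by exact_mod_cast h
    rw [ZMod.natCast_eq_zero_iff] at h'
    exact hp2 ((Nat.prime_dvd_prime_iff_eq hp Nat.prime_two).1 h')
  -- the kernel
  have hcard := Module.card_eq_pow_finrank (K := ZMod p) (V := LinearMap.ker (ML A))
  refine ⟨Module.finrank (ZMod p) (LinearMap.ker (ML A)), ?_⟩
  -- rewriting the quadruples
  let e : (G p d × G p d × G p d) ≃ (G p d × G p d × G p d) :=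
    { toFun := fun t => (t.2.2 + t.1 + t.2.1, t.1, t.2.2 + t.1)
      invFun := fun t => (t.2.1, t.1 - t.2.2, t.2.2 - t.2.1)
      left_inv := by
        rintro ⟨b, k, l⟩
        simp
      right_inv := by
        rintro ⟨a, b, c⟩
        simp }
  have hq : ∀ t : G p d × G p d × G p d, q4 (vd H A α 0) (e t) =
      (ZMod.stdAddChar (dt t.2.2 ((2 * α) • ML A t.2.1)) : ℂ) := by
    rintro ⟨b, k, l⟩
    show vd H A α 0 (l + b + k) * vd H A α 0 b * (starRingEnd ℂ) (vd H A α 0 (l + b)) *
      (starRingEnd ℂ) (vd H A α 0 (l + b + k + b - (l + b))) = _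
    have e1 : l + b + k + b - (l + b) = b + k := by abel
    rw [e1, vd_zero, vd_zero, vd_zero, vd_zero, conj_std, conj_std, ← AddChar.map_add_eq_mul,
      ← AddChar.map_add_eq_mul, ← AddChar.map_add_eq_mul]
    congr 1
    have h3 : dt l ((2 * α) • ML A k) = 2 * α * dt l (ML A k) := by
      simp only [dt, Pi.smul_apply, smul_eq_mul, Finset.mul_sum]
      apply Finset.sum_congr rfl
      intro i _
      ring
    show _ = dt l ((2 * α) • ML A k)
    rw [h3]
    have h4 := qf_id A b k l
    linear_combination α * h4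
  have hS : T4f (vd H A α 0) = ∑ t : G p d × G p d × G p d,
      (ZMod.stdAddChar (dt t.2.2 ((2 * α) • ML A t.2.1)) : ℂ) := by
    unfold T4f
    rw [← Equiv.sum_comp e]
    exact Finset.sum_congr rfl fun t _ => hq t
  rw [hS, Fintype.sum_prod_type]
  simp only
  have hin : ∀ b : G p d, ∑ y : G p d × G p d,
      (ZMod.stdAddChar (dt y.2 ((2 * α) • ML A y.1)) : ℂ) =
      (Fintype.card (G p d) : ℂ) * (Fintype.card (LinearMap.ker (ML A)) : ℂ) := by
    intro _
    rw [Fintype.sum_prod_type]
    have hk : ∀ k : G p d, ∑ l : G p d,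
        (ZMod.stdAddChar (dt l ((2 * α) • ML A k)) : ℂ) =
          if k ∈ LinearMap.ker (ML A) then (Fintype.card (G p d) : ℂ) else 0 := by
      intro k
      split_ifs with hk
      · rw [LinearMap.mem_ker] at hk
        rw [hk, smul_zero]
        have : ∀ l : G p d, (ZMod.stdAddChar (dt l (0 : G p d)) : ℂ) = 1 := by
          intro l
          have : dt l (0 : G p d) = 0 := by simp [dt]
          rw [this, AddChar.map_zero_eq_one]
        simp [this]
      · apply sum_chi
        intro h
        apply hk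
        rw [LinearMap.mem_ker]
        exact (smul_eq_zero.1 h).resolve_left (mul_ne_zero h2 hα)
    simp only [hk]
    rw [← Finset.sum_filter, Finset.sum_const, nsmul_eq_mul, mul_comm]
    congr 2
    exact (Fintype.card_subtype _).symm
  rw [Finset.sum_congr rfl fun b _ => hin b, Finset.sum_const, nsmul_eq_mul, hcard]
  have hG : ((Finset.univ : Finset (G p d)).card : ℂ) = (p : ℂ) ^ d := by
    rw [Finset.card_univ]
    simp [G, ZMod.card]
  have hG2 : (Fintype.card (G p d) : ℂ) = (p : ℂ) ^ d := by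
    simp [G, ZMod.card]
  rw [hG, hG2, ZMod.card]
  unfold nn
  push_cast
  ring

end Pool.Agent.UAB
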