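import Pool.Agent.UAB.St

/-!
# Representation in the windows, trivial invariances

`t_WRE : HLF_Stmt → UDF_Stmt → WRE_Stmt`.
-/

set_option autoImplicit false

namespace Pool.Agent.UAB

open Finset
open Pool.Agent.UAA (G ch nn)

namespace WREaux

variable {p d : ℕ}

lemma dt_neg_left (x c : G p d) : dt (-x) c = -dt x c := by
  simp [dt, Finset.sum_neg_distrib]

lemma dt_neg_right (x c : G p d) : dt x (-c) = -dt x c := by
  simp [dt, Finset.sum_neg_distrib]

lemma dt_zero_left (c : G p d) : dt (0 : G p d) c = 0 := by simp [dt]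

lemma norm_chi [NeZero p] (a : ZMod p) : ‖(ZMod.stdAddChar a : ℂ)‖ = 1 :=
  AddChar.norm_apply _ _

lemma norm_expI (r : ℝ) : ‖Complex.exp ((r : ℂ) * Complex.I)‖ = 1 :=
  Complex.norm_exp_ofReal_mul_I r

lemma norm_rep [NeZero p] {f : ZMod p → ℂ} {α : ZMod p} {κ : ℂ} {δ : ZMod p → ℝ}
    (h : Rep f α κ δ) (a : ZMod p) : ‖f a‖ = 1 := by
  rw [h.2.2 a, norm_mul, norm_mul, h.1, norm_chi, norm_expI]
  norm_num

lemma norm_wt1 {f : ZMod p → ℂ} (hf : ∀ a, ‖f a‖ = 1) (A : Finset (G p d)) (x : G p d) :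
    ‖wt f A x‖ = 1 := by
  unfold wt
  rw [norm_prod]
  exact Finset.prod_eq_one fun h _ => hf _

lemma chi_sum [NeZero p] (A : Finset (G p d)) (φ : G p d → ZMod p) :
    (ZMod.stdAddChar (∑ h ∈ A, φ h) : ℂ) = ∏ h ∈ A, (ZMod.stdAddChar (φ h) : ℂ) := by
  classical
  induction A using Finset.induction_on with
  | empty => simp
  | insert a s ha ih => rw [Finset.sum_insert ha, Finset.prod_insert ha, AddChar.map_add_eq_mul, ih]

/-- the product over `A` -/
lemma wt_eq [NeZero p] {f : ZMod p → ℂ} {α : ZMod p} {κ : ℂ} {δ : ZMod p → ℝ}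
    (h : Rep f α κ δ) (A : Finset (G p d)) (x : G p d) :
    wt f A x = κ ^ A.card * (ZMod.stdAddChar (α * ∑ h ∈ A, dt x h ^ 2) : ℂ) *
      Complex.exp (((∑ h ∈ A, δ (dt x h) : ℝ) : ℂ) * Complex.I) := by
  unfold wt
  rw [Finset.prod_congr rfl fun c _ => h.2.2 (dt x c)]
  rw [Finset.prod_mul_distrib, Finset.prod_mul_distrib, Finset.prod_const]
  congr 1
  · congr 1
    rw [Finset.mul_sum, chi_sum]
  · rw [Complex.ofReal_sum, Finset.sum_mul, Complex.exp_sum]

/-- the sum over `H` -/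
lemma sum_half (hHLF : HLF_Stmt) (hUDF : UDF_Stmt) [NeZero p] (hp : p.Prime) (hp2 : p ≠ 2)
    {H : Finset (G p d)} (hH : Half H) {δ : ZMod p → ℝ} (hδ : EM δ) {x : G p d} (hx : x ≠ 0) :
    2 * ∑ h ∈ H, δ (dt x h) + δ 0 = 0 := by
  have h1 := ((hHLF p d hp hp2).2 H hH).2 (fun c => (δ (dt x c) : ℂ)) (fun c => by
    simp only [dt_neg_right, hδ.1])
  have h2 := (hUDF p d hp).1 x hx (fun a => (δ a : ℂ))
  have h3 : ∑ a, ((δ a : ℝ) : ℂ) = 0 := by
    rw [← Complex.ofReal_sum, hδ.2]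
    rfl
  rw [h3, mul_zero] at h2
  have hp0 : (p : ℂ) ≠ 0 := by exact_mod_cast hp.ne_zero
  have h4 := (mul_eq_zero.1 h2).resolve_left hp0
  rw [h4] at h1
  have h5 : dt x (0 : G p d) = 0 := by simp [dt]
  rw [h5] at h1
  exact_mod_cast h1

/-- the sum over `A` -/
lemma sum_A {H A : Finset (G p d)} (hA : A ⊆ H) (δ : ZMod p → ℝ) (x : G p d) :
    ∑ h ∈ A, δ (dt x h) = gd H A δ x + 1 / 2 * ∑ h ∈ H, δ (dt x h) := by
  classical
  unfold gd
  rw [Finset.mul_sum, ← Finset.sum_add_distrib, ← Finset.sum_subset hA (f := fun h =>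
    (ep A h * δ (dt x h) + 1 / 2 * δ (dt x h)))]
  · refine Finset.sum_congr rfl fun h hh => ?_
    simp only [ep, if_pos hh]
    ring
  · intro h _ hh
    simp only [ep, if_neg hh]
    ring

lemma up_ne {Z : ℂ} {v : G p d → ℂ} {x : G p d} (hx : x ≠ 0) : up Z v x = v x := if_neg hx

lemma norm_vd [NeZero p] (H A : Finset (G p d)) (α : ZMod p) (δ : ZMod p → ℝ) (x : G p d) :
    ‖vd H A α δ x‖ = 1 := by
  unfold vd up
  split_ifs
  · simp
  · rw [norm_mul, norm_chi, norm_expI, mul_one]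

lemma vd_neg [NeZero p] (H A : Finset (G p d)) (α : ZMod p) {δ : ZMod p → ℝ} (hδ : EM δ)
    (x : G p d) : vd H A α δ (-x) = vd H A α δ x := by
  unfold vd up gd
  simp only [neg_eq_zero, dt_neg_left, neg_sq, hδ.1]

lemma q4_mul {κ' : ℂ} (h : ‖κ'‖ = 1) (w : G p d → ℂ) (t : G p d × G p d × G p d) :
    q4 (fun x => κ' * w x) t = q4 w t := by
  have h1 : κ' * (starRingEnd ℂ) κ' = 1 := by
    rw [Complex.mul_conj, Complex.normSq_eq_norm_sq, h]
    norm_num
  unfold q4
  simp only [map_mul]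
  calc _ = (κ' * (starRingEnd ℂ) κ') ^ 2 * (w t.1 * w t.2.1 * (starRingEnd ℂ) (w t.2.2) *
        (starRingEnd ℂ) (w (t.1 + t.2.1 - t.2.2))) := by ring
    _ = _ := by rw [h1]; ring

end WREaux

open WREaux in
/-- Representation in the windows, trivial invariances. -/
theorem t_WRE (hHLF : HLF_Stmt) (hUDF : UDF_Stmt) : WRE_Stmt := by
  intro p d _ hp hp2
  refine ⟨?_, ?_, ?_, ?_, ?_⟩
  · intro H A hH hA f α κ δ hR
    set κ' : ℂ := κ ^ A.card * Complex.exp (((-(δ 0) / 4 : ℝ) : ℂ) * Complex.I) with hκ'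
    have hκ1 : ‖κ'‖ = 1 := by
      rw [hκ', norm_mul, norm_pow, hR.1, norm_expI]
      norm_num
    have hκ0 : κ' ≠ 0 := by
      intro h
      rw [h] at hκ1
      simp at hκ1
    refine ⟨κ', wt f A 0 / κ', hκ1, ?_, fun x => ?_⟩
    · rw [norm_div, hκ1, norm_wt1 (norm_rep hR), div_one]
    · by_cases hx : x = 0
      · subst hx
        simp only [up, if_true]
        field_simp
      · rw [up_ne hx, wt_eq hR]
        unfold vd
        rw [up_ne hx, hκ']
        have h1 : ∑ h ∈ A, δ (dt x h) = gd H A δ x + -(δ 0) / 4 := by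
          rw [sum_A hA]
          have := sum_half hHLF hUDF hp hp2 hH hR.2.1 hx
          linarith
        rw [h1, Complex.ofReal_add, add_mul, Complex.exp_add]
        ring
  · intro κ' w hκ
    refine ⟨?_, ?_, ?_⟩
    · unfold T4f
      exact Finset.sum_congr rfl fun t _ => q4_mul hκ w t
    · unfold S4
      exact Finset.sum_congr rfl fun t _ => q4_mul hκ w t
    · unfold FlatV
      refine forall_congr' fun b => ?_
      have h1 : ∑ x, κ' * w x * ch b x = κ' * ∑ x, w x * ch b x := by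
        rw [Finset.mul_sum]
        exact Finset.sum_congr rfl fun x _ => by ring
      rw [h1, norm_mul, hκ, one_mul]
  · intro Z v
    classical
    refine ⟨?_, ?_, ?_, ?_, ?_⟩
    · unfold S4
      refine Finset.sum_congr rfl fun t ht => ?_
      rw [Finset.mem_filter] at ht
      have hg := ht.2
      unfold q4
      rw [up_ne hg.1, up_ne hg.2.1, up_ne hg.2.2.1, up_ne hg.2.2.2.1]
    · unfold T3
      refine Finset.sum_congr rfl fun t ht => ?_
      rw [Finset.mem_filter] at ht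
      have hg := ht.2
      rw [up_ne hg.1, up_ne hg.2.1, up_ne hg.2.2]
    · unfold T2
      refine Finset.sum_congr rfl fun t ht => ?_
      rw [up_ne (Finset.ne_of_mem_erase ht)]
    · unfold T1
      refine Finset.sum_congr rfl fun t ht => ?_
      rw [up_ne (Finset.ne_of_mem_erase ht)]
    · unfold T1
      rw [← Finset.add_sum_erase _ _ (Finset.mem_univ (0 : G p d))]
      congr 1
      · simp [up]
      · refine Finset.sum_congr rfl fun t ht => ?_
        rw [up_ne (Finset.ne_of_mem_erase ht)]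
  · intro H A α δ Z hδ hZ
    refine ⟨fun x => ?_, fun x => ?_⟩
    · unfold up
      split_ifs
      · exact hZ
      · exact norm_vd H A α δ x
    · have h1 := vd_neg H A α hδ x
      unfold up
      simp only [neg_eq_zero, h1]
  · intro f A hf
    refine ⟨fun x => norm_wt1 hf.1 A x, fun x => ?_⟩
    unfold wt
    exact Finset.prod_congr rfl fun h _ => by rw [dt_neg_left, hf.2]

end Pool.Agent.UAB
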