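import Pool.Agent.UAB.St

/-!
# Module WS3: the second moments of `T3` and `T2`, `α ≠ 0`   (helper19)
-/

set_option autoImplicit false

namespace Pool.Agent.UAB

open Finset Filter Topology
open Pool.Agent.UAA (G ch nn)

namespace WS3aux

theorem conj_eq_inv {z : ℂ} (hz : ‖z‖ = 1) : (starRingEnd ℂ) z = z⁻¹ := by
  rw [Complex.inv_def, Complex.normSq_eq_norm_sq, hz]
  simp

theorem norm_vd {p d : ℕ} [NeZero p] (H A : Finset (G p d)) (α : ZMod p) (δ : ZMod p → ℝ)
    (x : G p d) : ‖vd H A α δ x‖ = 1 := by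
  unfold vd up
  split_ifs with h
  · exact norm_one
  · rw [norm_mul, Complex.norm_exp_ofReal_mul_I, mul_one]
    exact AddChar.norm_apply _ _

/-- The second moment of a sum of unimodular numbers. -/
theorem second {α T : Type} [DecidableEq T] (Hs : Finset (Finset α)) (S : Finset T)
    (V : T → Finset α → ℂ) (hV : ∀ t A, ‖V t A‖ = 1) (bad : T → Finset T) (B η : ℝ)
    (hη : 0 ≤ η) (hB : ∀ t ∈ S, ((bad t).card : ℝ) ≤ B)
    (hgood : ∀ t ∈ S, ∀ t' ∈ S, t' ∉ bad t →
      ‖∑ A ∈ Hs, V t A * (starRingEnd ℂ) (V t' A)‖ ≤ Hs.card * η) :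
    ∑ A ∈ Hs, ‖∑ t ∈ S, V t A‖ ^ 2 ≤ Hs.card * (S.card * B + (S.card : ℝ) ^ 2 * η) := by
  have h1 : ((∑ A ∈ Hs, ‖∑ t ∈ S, V t A‖ ^ 2 : ℝ) : ℂ) =
      ∑ t ∈ S, ∑ t' ∈ S, ∑ A ∈ Hs, V t A * (starRingEnd ℂ) (V t' A) := by
    rw [Complex.ofReal_sum]
    have h2 : ∀ A ∈ Hs, ((‖∑ t ∈ S, V t A‖ ^ 2 : ℝ) : ℂ) =
        ∑ t ∈ S, ∑ t' ∈ S, V t A * (starRingEnd ℂ) (V t' A) := by
      intro A _
      rw [← Complex.normSq_eq_norm_sq, ← Complex.mul_conj, map_sum, Finset.sum_mul_sum]
    rw [Finset.sum_congr rfl h2, Finset.sum_comm]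
    refine Finset.sum_congr rfl fun t _ => ?_
    rw [Finset.sum_comm]
  have h3 : ∑ A ∈ Hs, ‖∑ t ∈ S, V t A‖ ^ 2 ≤
      ∑ t ∈ S, ∑ t' ∈ S, ‖∑ A ∈ Hs, V t A * (starRingEnd ℂ) (V t' A)‖ := by
    have h4 : ∑ A ∈ Hs, ‖∑ t ∈ S, V t A‖ ^ 2 =
        ‖((∑ A ∈ Hs, ‖∑ t ∈ S, V t A‖ ^ 2 : ℝ) : ℂ)‖ := by
      rw [Complex.norm_real, Real.norm_eq_abs, abs_of_nonneg]
      exact Finset.sum_nonneg fun _ _ => by positivity
    rw [h4, h1]
    refine (norm_sum_le _ _).trans (Finset.sum_le_sum fun t _ => norm_sum_le _ _)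
  refine h3.trans ?_
  have h5 : ∀ t ∈ S, ∑ t' ∈ S, ‖∑ A ∈ Hs, V t A * (starRingEnd ℂ) (V t' A)‖ ≤
      Hs.card * (B + S.card * η) := by
    intro t ht
    have h6 : ∀ t' ∈ S, ‖∑ A ∈ Hs, V t A * (starRingEnd ℂ) (V t' A)‖ ≤
        (if t' ∈ bad t then (Hs.card : ℝ) else 0) + Hs.card * η := by
      intro t' ht'
      by_cases hb : t' ∈ bad t
      · rw [if_pos hb]
        have h7 : ‖∑ A ∈ Hs, V t A * (starRingEnd ℂ) (V t' A)‖ ≤ ∑ A ∈ Hs, (1 : ℝ) := by
          refine (norm_sum_le _ _).trans (Finset.sum_le_sum fun A _ => ?_)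
          rw [norm_mul, RCLike.norm_conj, hV, hV, mul_one]
        rw [Finset.sum_const, nsmul_eq_mul, mul_one] at h7
        have h8 : 0 ≤ (Hs.card : ℝ) * η := by positivity
        linarith
      · rw [if_neg hb, zero_add]
        exact hgood t ht t' ht' hb
    refine (Finset.sum_le_sum h6).trans ?_
    rw [Finset.sum_add_distrib, Finset.sum_const, nsmul_eq_mul, ← Finset.sum_filter,
      Finset.sum_const, nsmul_eq_mul]
    have h9 : ((S.filter fun t' => t' ∈ bad t).card : ℝ) ≤ B := by
      refine le_trans ?_ (hB t ht)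
      exact_mod_cast Finset.card_le_card fun t' h => (Finset.mem_filter.1 h).2
    have h10 : (0 : ℝ) ≤ Hs.card := by positivity
    nlinarith
  refine (Finset.sum_le_sum h5).trans (le_of_eq ?_)
  rw [Finset.sum_const, nsmul_eq_mul]
  ring

/-- the vectors of the six slots -/
def Y6 {p d : ℕ} (t t' : G p d × G p d) : Fin 6 → G p d :=
  ![t.1, t.2, t.1 + t.2, t'.1, t'.2, t'.1 + t'.2]

/-- the signs of the six slots -/
def e6 : Fin 6 → ℤ := ![1, 1, -1, -1, -1, 1]

/-- the vectors of the four slots -/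
def Y4 {p d : ℕ} (x x' : G p d) : Fin 4 → G p d := ![x, x, x', x']

/-- the signs of the four slots -/
def e4 : Fin 4 → ℤ := ![1, 1, -1, -1]

open Classical in
/-- the possible partners of a pair -/
noncomputable def bad3 {p d : ℕ} [NeZero p] (t : G p d × G p d) : Finset (G p d × G p d) :=
  (univ : Finset (ZMod p)).image (fun c => (c • t.1, c⁻¹ • t.2)) ∪
    (univ : Finset (ZMod p)).image (fun c => (c • t.2, c⁻¹ • t.1))

theorem card_bad3 {p d : ℕ} [NeZero p] (t : G p d × G p d) :
    ((bad3 t).card : ℝ) ≤ 2 * p := by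
  classical
  have h1 : (bad3 t).card ≤ p + p := by
    unfold bad3
    refine (Finset.card_union_le _ _).trans (add_le_add ?_ ?_)
    · exact Finset.card_image_le.trans (by rw [Finset.card_univ, ZMod.card])
    · exact Finset.card_image_le.trans (by rw [Finset.card_univ, ZMod.card])
  have h2 : ((bad3 t).card : ℝ) ≤ ((p + p : ℕ) : ℝ) := by exact_mod_cast h1
  push_cast at h2
  linarith

open Classical in
/-- the possible partners of a vector -/
noncomputable def bad2 {p d : ℕ} [NeZero p] (x : G p d) : Finset (G p d) :=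
  (univ : Finset (ZMod p)).image (fun c => c • x)

theorem card_bad2 {p d : ℕ} [NeZero p] (x : G p d) : ((bad2 x).card : ℝ) ≤ p := by
  classical
  have h1 : (bad2 x).card ≤ p := by
    unfold bad2
    exact Finset.card_image_le.trans (by rw [Finset.card_univ, ZMod.card])
  exact_mod_cast h1

theorem dt_add {p d : ℕ} (x y h : G p d) : dt (x + y) h = dt x h + dt y h := by
  unfold dt
  rw [← Finset.sum_add_distrib]
  exact Finset.sum_congr rfl fun i _ => by rw [Pi.add_apply, add_mul]

theorem exp_sq_le {c x : ℝ} (hc : 0 < c) (hx : 0 ≤ x) :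
    x ^ 2 * Real.exp (-(c * x)) ≤ 2 / c ^ 2 := by
  have h1 : (c * x) ^ 2 / 2 ≤ Real.exp (c * x) := by
    have := Real.quadratic_le_exp_of_nonneg (mul_nonneg hc.le hx)
    have h2 : 0 ≤ c * x := mul_nonneg hc.le hx
    linarith
  rw [Real.exp_neg, ← div_eq_mul_inv, div_le_div_iff₀ (Real.exp_pos _) (by positivity)]
  nlinarith

theorem exp_le {c x : ℝ} (hc : 0 < c) (hx : 0 ≤ x) : x * Real.exp (-(c * x)) ≤ 1 / c := by
  have h1 : c * x ≤ Real.exp (c * x) := by
    have := Real.add_one_le_exp (c * x)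
    linarith
  rw [Real.exp_neg, ← div_eq_mul_inv, div_le_div_iff₀ (Real.exp_pos _) hc]
  linarith

theorem nn_one_le {p d : ℕ} [NeZero p] : (1 : ℝ) ≤ nn p d := by
  unfold nn
  have h1 : 1 ≤ p := Nat.one_le_iff_ne_zero.2 (NeZero.ne p)
  exact one_le_pow₀ (by exact_mod_cast h1)

theorem card_G {p d : ℕ} [NeZero p] : ((Fintype.card (G p d) : ℕ) : ℝ) = nn p d := by
  unfold nn
  rw [Fintype.card_pi]
  simp [ZMod.card]

theorem prod6 {p d : ℕ} (w : G p d → ℂ) (hw : ∀ x, ‖w x‖ = 1) (t t' : G p d × G p d) :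
    w t.1 * w t.2 * (starRingEnd ℂ) (w (t.1 + t.2)) *
      (starRingEnd ℂ) (w t'.1 * w t'.2 * (starRingEnd ℂ) (w (t'.1 + t'.2))) =
      ∏ s, w (Y6 t t' s) ^ e6 s := by
  rw [map_mul, map_mul, Complex.conj_conj, conj_eq_inv (hw _), conj_eq_inv (hw _),
    conj_eq_inv (hw _), Fin.prod_univ_six]
  simp [Y6, e6]
  ring

theorem prod4 {p d : ℕ} (w : G p d → ℂ) (hw : ∀ x, ‖w x‖ = 1) (x x' : G p d) :
    w x ^ 2 * (starRingEnd ℂ) (w x' ^ 2) = ∏ s, w (Y4 x x' s) ^ e4 s := by
  rw [map_pow, conj_eq_inv (hw _), Fin.prod_univ_four]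
  simp [Y4, e4]
  ring

end WS3aux

open WS3aux in
theorem t_WS3 (hE : EXW_Stmt) (hQ : QUA_Stmt) : WS3_Stmt := by
  classical
  intro p _ hp hp2
  have : Fact p.Prime := ⟨hp⟩
  obtain ⟨C6, c6, hC6, hc6, hE6⟩ := hE p 6 hp hp2
  obtain ⟨C4, c4, hC4, hc4, hE4⟩ := hE p 4 hp hp2
  have hp0 : (0 : ℝ) < p := by exact_mod_cast hp.pos
  have h2 : (2 : ZMod p) ≠ 0 := by
    intro h
    have h3 : ((2 : ℕ) : ZMod p) = 0 := by exact_mod_cast h
    rw [ZMod.natCast_eq_zero_iff] at h3
    exact hp2 ((Nat.prime_dvd_prime_iff_eq hp Nat.prime_two).1 h3)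
  refine ⟨max (2 * p + C6 * (2 / c6 ^ 2)) (p + C4 * (1 / c4)), ?_⟩
  intro d H hH α hα δ hδ hδb
  have hn := nn_one_le (p := p) (d := d)
  have hn0 : 0 ≤ nn p d := by linarith
  have hcard : ((H.powerset.card : ℕ) : ℝ) = 2 ^ H.card := by
    rw [Finset.card_powerset]
    push_cast
    ring
  have hw : ∀ A x, ‖vd H A α δ x‖ = 1 := fun A x => norm_vd H A α δ x
  have hE' : ∀ a, δ (-a) = δ a := hδ.1
  constructor
  · -- T3
    have key := second H.powerset
      ((univ : Finset (G p d × G p d)).filter fun t => t.1 ≠ 0 ∧ t.2 ≠ 0 ∧ t.1 + t.2 ≠ 0)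
      (fun t A => vd H A α δ t.1 * vd H A α δ t.2 *
        (starRingEnd ℂ) (vd H A α δ (t.1 + t.2)))
      (fun t A => by
        rw [norm_mul, norm_mul, RCLike.norm_conj, hw, hw, hw]
        norm_num)
      bad3 (2 * p) (C6 * Real.exp (-(c6 * nn p d))) (by positivity)
      (fun t _ => card_bad3 t)
      (by
        intro t ht t' ht' hb
        rw [Finset.mem_filter] at ht ht'
        obtain ⟨-, ht1, ht2, ht3⟩ := ht
        obtain ⟨-, ht1', ht2', ht3'⟩ := ht'
        have h5 : ∀ A ∈ H.powerset, vd H A α δ t.1 * vd H A α δ t.2 *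
            (starRingEnd ℂ) (vd H A α δ (t.1 + t.2)) *
            (starRingEnd ℂ) (vd H A α δ t'.1 * vd H A α δ t'.2 *
              (starRingEnd ℂ) (vd H A α δ (t'.1 + t'.2))) =
            ∏ s, vd H A α ((fun _ => δ) s) (Y6 t t' s) ^ e6 s :=
          fun A _ => prod6 (vd H A α δ) (hw A) t t'
        rw [Finset.sum_congr rfl h5]
        have h6 := (hE6 d H hH α (fun _ => δ) (fun _ => hE')
          (fun _ a => by
            have := hδb a
            have h7 : (6 : ℝ) * |δ a| ≤ 6 * (1 / (20 * p)) := by linarith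
            have h8 : (6 : ℝ) * (1 / (20 * p)) ≤ 1 / p := by
              rw [mul_one_div, div_le_div_iff₀ (by positivity) hp0]
              nlinarith
            push_cast
            linarith)
          (Y6 t t') e6
          (by
            intro s
            fin_cases s <;> simp [Y6, ht1, ht2, ht3, ht1', ht2', ht3'])
          (by
            intro s
            fin_cases s <;> simp [e6])).2
        have h9 : ∃ h, α * ∑ s, (e6 s : ZMod p) * dt (Y6 t t' s) h ^ 2 ≠ 0 := by
          by_contra hcon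
          push_neg at hcon
          apply hb
          have h10 : ∀ h, dt t.1 h * dt t.2 h = dt t'.1 h * dt t'.2 h := by
            intro h
            have h11 := hcon h
            rw [mul_eq_zero, or_iff_right hα, Fin.sum_univ_six] at h11
            simp only [e6, Y6, Matrix.cons_val] at h11
            push_cast at h11
            rw [dt_add, dt_add] at h11
            have h12 : (2 : ZMod p) * (dt t'.1 h * dt t'.2 h - dt t.1 h * dt t.2 h) = 0 := by
              linear_combination h11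
            rw [mul_eq_zero, or_iff_right h2, sub_eq_zero] at h12
            exact h12.symm
          obtain ⟨c, hc, hcc⟩ := hQ p d hp t.1 t.2 t'.1 t'.2 ht1 ht2 h10
          unfold bad3
          rw [Finset.mem_union]
          rcases hcc with ⟨h13, h14⟩ | ⟨h13, h14⟩
          · left
            rw [Finset.mem_image]
            refine ⟨c, Finset.mem_univ _, ?_⟩
            rw [← h13, h14, smul_smul, inv_mul_cancel₀ hc, one_smul]
          · right
            rw [Finset.mem_image]
            refine ⟨c, Finset.mem_univ _, ?_⟩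
            rw [← h13, h14, smul_smul, inv_mul_cancel₀ hc, one_smul]
        rw [hcard]
        exact h6 h9)
    have h20 : ∀ A ∈ H.powerset, ‖T3 (vd H A α δ)‖ ^ 2 =
        ‖∑ t ∈ (univ : Finset (G p d × G p d)).filter
          (fun t => t.1 ≠ 0 ∧ t.2 ≠ 0 ∧ t.1 + t.2 ≠ 0),
          vd H A α δ t.1 * vd H A α δ t.2 * (starRingEnd ℂ) (vd H A α δ (t.1 + t.2))‖ ^ 2 := by
      intro A _
      unfold T3
      refine congrArg (fun z : ℂ => ‖z‖ ^ 2) (Finset.sum_congr ?_ fun _ _ => rfl)
      ext t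
      simp only [Finset.mem_filter]
    rw [Finset.sum_congr rfl h20]
    refine key.trans ?_
    rw [hcard]
    refine mul_le_mul_of_nonneg_left ?_ (by positivity)
    have h21 : (((univ : Finset (G p d × G p d)).filter
        fun t => t.1 ≠ 0 ∧ t.2 ≠ 0 ∧ t.1 + t.2 ≠ 0).card : ℝ) ≤ nn p d ^ 2 := by
      have h22 : ((univ : Finset (G p d × G p d)).filter
          fun t => t.1 ≠ 0 ∧ t.2 ≠ 0 ∧ t.1 + t.2 ≠ 0).card ≤
          Fintype.card (G p d) * Fintype.card (G p d) := by
        refine (Finset.card_filter_le _ _).trans ?_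
        rw [Finset.card_univ, Fintype.card_prod]
      have h23 : (((univ : Finset (G p d × G p d)).filter
          fun t => t.1 ≠ 0 ∧ t.2 ≠ 0 ∧ t.1 + t.2 ≠ 0).card : ℝ) ≤
          ((Fintype.card (G p d) * Fintype.card (G p d) : ℕ) : ℝ) := by exact_mod_cast h22
      rw [Nat.cast_mul, card_G] at h23
      linarith [sq (nn p d)]
    set m : ℝ := (((univ : Finset (G p d × G p d)).filter
        fun t => t.1 ≠ 0 ∧ t.2 ≠ 0 ∧ t.1 + t.2 ≠ 0).card : ℝ) with hm
    have hm0 : 0 ≤ m := by positivity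
    have h24 := exp_sq_le hc6 hn0
    calc m * (2 * p) + m ^ 2 * (C6 * Real.exp (-(c6 * nn p d)))
        ≤ nn p d ^ 2 * (2 * p) + (nn p d ^ 2) ^ 2 * (C6 * Real.exp (-(c6 * nn p d))) := by
          gcongr
      _ = nn p d ^ 2 * (2 * p + C6 * (nn p d ^ 2 * Real.exp (-(c6 * nn p d)))) := by ring
      _ ≤ nn p d ^ 2 * (2 * p + C6 * (2 / c6 ^ 2)) := by gcongr
      _ ≤ max (2 * p + C6 * (2 / c6 ^ 2)) (p + C4 * (1 / c4)) * nn p d ^ 2 := by
          rw [mul_comm]
          exact mul_le_mul_of_nonneg_right (le_max_left _ _) (by positivity)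
  · -- T2
    have key := second H.powerset ((univ : Finset (G p d)).erase 0)
      (fun x A => vd H A α δ x ^ 2)
      (fun x A => by rw [norm_pow, hw, one_pow])
      bad2 p (C4 * Real.exp (-(c4 * nn p d))) (by positivity)
      (fun x _ => card_bad2 x)
      (by
        intro x hx x' hx' hb
        have hx1 := Finset.ne_of_mem_erase hx
        have hx2 := Finset.ne_of_mem_erase hx'
        have h5 : ∀ A ∈ H.powerset, vd H A α δ x ^ 2 *
            (starRingEnd ℂ) (vd H A α δ x' ^ 2) =
            ∏ s, vd H A α ((fun _ => δ) s) (Y4 x x' s) ^ e4 s :=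
          fun A _ => prod4 (vd H A α δ) (hw A) x x'
        rw [Finset.sum_congr rfl h5]
        have h6 := (hE4 d H hH α (fun _ => δ) (fun _ => hE')
          (fun _ a => by
            have := hδb a
            have h7 : (4 : ℝ) * |δ a| ≤ 4 * (1 / (20 * p)) := by linarith
            have h8 : (4 : ℝ) * (1 / (20 * p)) ≤ 1 / p := by
              rw [mul_one_div, div_le_div_iff₀ (by positivity) hp0]
              nlinarith
            push_cast
            linarith)
          (Y4 x x') e4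
          (by
            intro s
            fin_cases s <;> simp [Y4, hx1, hx2])
          (by
            intro s
            fin_cases s <;> simp [e4])).2
        have h9 : ∃ h, α * ∑ s, (e4 s : ZMod p) * dt (Y4 x x' s) h ^ 2 ≠ 0 := by
          by_contra hcon
          push_neg at hcon
          apply hb
          have h10 : ∀ h, dt x h * dt x h = dt x' h * dt x' h := by
            intro h
            have h11 := hcon h
            rw [mul_eq_zero, or_iff_right hα, Fin.sum_univ_four] at h11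
            simp only [e4, Y4, Matrix.cons_val] at h11
            push_cast at h11
            have h12 : (2 : ZMod p) * (dt x h * dt x h - dt x' h * dt x' h) = 0 := by
              linear_combination h11
            rw [mul_eq_zero, or_iff_right h2, sub_eq_zero] at h12
            exact h12
          obtain ⟨c, hc, hcc⟩ := hQ p d hp x x x' x' hx1 hx1 h10
          unfold bad2
          rw [Finset.mem_image]
          rcases hcc with ⟨h13, -⟩ | ⟨h13, -⟩
          · exact ⟨c, Finset.mem_univ _, h13.symm⟩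
          · exact ⟨c, Finset.mem_univ _, h13.symm⟩
        rw [hcard]
        exact h6 h9)
    have h20 : ∀ A ∈ H.powerset, ‖T2 (vd H A α δ)‖ ^ 2 =
        ‖∑ x ∈ (univ : Finset (G p d)).erase 0, vd H A α δ x ^ 2‖ ^ 2 := by
      intro A _
      unfold T2
      refine congrArg (fun z : ℂ => ‖z‖ ^ 2) (Finset.sum_congr ?_ fun _ _ => rfl)
      ext t
      simp only [Finset.mem_erase]
    rw [Finset.sum_congr rfl h20]
    refine key.trans ?_
    rw [hcard]
    refine mul_le_mul_of_nonneg_left ?_ (by positivity)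
    have h21 : (((univ : Finset (G p d)).erase 0).card : ℝ) ≤ nn p d := by
      have h22 : ((univ : Finset (G p d)).erase 0).card ≤ Fintype.card (G p d) := by
        refine (Finset.card_erase_le).trans ?_
        rw [Finset.card_univ]
      have h23 : (((univ : Finset (G p d)).erase 0).card : ℝ) ≤
          ((Fintype.card (G p d) : ℕ) : ℝ) := by exact_mod_cast h22
      rwa [card_G] at h23
    set m : ℝ := (((univ : Finset (G p d)).erase 0).card : ℝ) with hm
    have hm0 : 0 ≤ m := by positivity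
    have h24 := exp_le hc4 hn0
    calc m * p + m ^ 2 * (C4 * Real.exp (-(c4 * nn p d)))
        ≤ nn p d * p + nn p d ^ 2 * (C4 * Real.exp (-(c4 * nn p d))) := by gcongr
      _ = nn p d * (p + C4 * (nn p d * Real.exp (-(c4 * nn p d)))) := by ring
      _ ≤ nn p d * (p + C4 * (1 / c4)) := by gcongr
      _ ≤ max (2 * p + C6 * (2 / c6 ^ 2)) (p + C4 * (1 / c4)) * nn p d := by
          rw [mul_comm]
          exact mul_le_mul_of_nonneg_right (le_max_right _ _) hn0

end Pool.Agent.UAB
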