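import Pool.Agent.UAB.St

/-!
# Module WS4: second moment of `S4` in the windows (helper49)
-/

set_option autoImplicit false

namespace Pool.Agent.UAB

open Finset
open Pool.Agent.UAA (G ch nn)

namespace WS4aux

variable {p d : ℕ}

theorem norm_vd [NeZero p] (H A : Finset (G p d)) (α : ZMod p) (δ : ZMod p → ℝ) (x : G p d) :
    ‖vd H A α δ x‖ = 1 := by
  unfold vd up
  split_ifs
  · simp
  · rw [norm_mul, Complex.norm_exp_ofReal_mul_I, AddChar.norm_apply, one_mul]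

/-- triples -/
abbrev T (p d : ℕ) := G p d × G p d × G p d

/-- the eight vectors -/
def Y8 (t t' : T p d) : Fin (4 + 4) → G p d := Fin.append (vec t) (vec t')

/-- the eight signs -/
def e8 : Fin (4 + 4) → ℤ := Fin.append sg fun j => - sg j

/-- the eight functions -/
def d8 (δ₁ δ₂ : ZMod p → ℝ) : Fin (4 + 4) → ZMod p → ℝ :=
  Fin.append (fun _ => δ₁) fun _ => δ₂

/-- the increment -/
def Dq (δ : ZMod p → ℝ) (t : T p d) (h : G p d) : ℝ := ∑ j, (sg j : ℝ) * δ (dt (vec t j) h)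

theorem conj_eq (z : ℂ) (hz : ‖z‖ = 1) : (starRingEnd ℂ) z = z⁻¹ := by
  rw [Complex.inv_def, Complex.normSq_eq_norm_sq, hz]
  simp

theorem conj_q4 (w : G p d → ℂ) (hw : ∀ x, ‖w x‖ = 1) (t : T p d) :
    (starRingEnd ℂ) (q4 w t) = ∏ j, w (vec t j) ^ (-sg j) := by
  rw [q4_eq w hw, map_prod]
  refine Finset.prod_congr rfl fun j _ => ?_
  rw [map_zpow₀, conj_eq _ (hw _), inv_zpow']

theorem prod8 [NeZero p] (H A : Finset (G p d)) (α : ZMod p) (δ₁ δ₂ : ZMod p → ℝ)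
    (t t' : T p d) :
    q4 (vd H A α δ₁) t * (starRingEnd ℂ) (q4 (vd H A α δ₂) t') =
      ∏ s, vd H A α (d8 δ₁ δ₂ s) (Y8 t t' s) ^ e8 s := by
  rw [Fin.prod_univ_add, q4_eq _ (norm_vd H A α δ₁), conj_q4 _ (norm_vd H A α δ₂)]
  simp only [d8, Y8, e8, Fin.append_left, Fin.append_right]

theorem sum8 (δ₁ δ₂ : ZMod p → ℝ) (t t' : T p d) (h : G p d) :
    ∑ s, (e8 s : ℝ) * d8 δ₁ δ₂ s (dt (Y8 t t' s) h) = Dq δ₁ t h - Dq δ₂ t' h := by
  rw [Fin.sum_univ_add]
  simp only [d8, Y8, e8, Fin.append_left, Fin.append_right, Dq]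
  rw [sub_eq_add_neg, ← Finset.sum_neg_distrib]
  congr 1
  refine Finset.sum_congr rfl fun j _ => ?_
  push_cast
  ring

theorem q8 (t t' : T p d) (h : G p d) :
    ∑ s, (e8 s : ZMod p) * dt (Y8 t t' s) h ^ 2 =
      ∑ j, (sg j : ZMod p) * dt (vec t j) h ^ 2 - ∑ j, (sg j : ZMod p) * dt (vec t' j) h ^ 2 := by
  rw [Fin.sum_univ_add]
  simp only [Y8, e8, Fin.append_left, Fin.append_right]
  rw [sub_eq_add_neg, ← Finset.sum_neg_distrib]
  congr 1
  refine Finset.sum_congr rfl fun j _ => ?_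
  push_cast
  ring

theorem sg_pm (j : Fin 4) : sg j = 1 ∨ sg j = -1 := by
  fin_cases j <;> simp [sg]

theorem e8_pm (s : Fin (4 + 4)) : e8 s = 1 ∨ e8 s = -1 := by
  refine Fin.addCases (fun j => ?_) (fun j => ?_) s
  · simp only [e8, Fin.append_left]
    exact sg_pm j
  · simp only [e8, Fin.append_right]
    rcases sg_pm j with h | h
    · right; rw [h]
    · left; rw [h]; rfl

theorem vec_ne {t : T p d} (ht : Gq t) (j : Fin 4) : vec t j ≠ 0 := by
  obtain ⟨h1, h2, h3, h4, -⟩ := ht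
  fin_cases j
  · exact h1
  · exact h2
  · exact h3
  · exact h4

theorem Y8_ne {t t' : T p d} (ht : Gq t) (ht' : Gq t') (s : Fin (4 + 4)) : Y8 t t' s ≠ 0 := by
  refine Fin.addCases (fun j => ?_) (fun j => ?_) s
  · simp only [Y8, Fin.append_left]
    exact vec_ne ht j
  · simp only [Y8, Fin.append_right]
    exact vec_ne ht' j

theorem sg_sum : ∑ j, (sg j : ℝ) = 0 := by
  simp [Fin.sum_univ_four, sg]

theorem e8_sum : ∑ s, (e8 s : ℝ) = 0 := by
  rw [Fin.sum_univ_add]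
  simp only [e8, Fin.append_left, Fin.append_right, Int.cast_neg, Finset.sum_neg_distrib, sg_sum]
  simp

theorem vec_lin (t : T p d) (j : Fin 4) :
    vec t j = (![1, 0, 0, 1] j : ZMod p) • t.1 + (![0, 1, 0, 1] j : ZMod p) • t.2.1 +
      (![0, 0, 1, -1] j : ZMod p) • t.2.2 := by
  fin_cases j <;> simp [vec, sub_eq_add_neg]

theorem vec_ind (t : T p d) (ht : LinearIndependent (ZMod p) ![t.1, t.2.1, t.2.2])
    (i j : Fin 4) (hij : i ≠ j) : LinearIndependent (ZMod p) ![vec t i, vec t j] := by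
  rw [LinearIndependent.pair_iff]
  intro r s h
  have h3 : ∀ x y z : ZMod p, x • t.1 + y • t.2.1 + z • t.2.2 = 0 → x = 0 ∧ y = 0 ∧ z = 0 := by
    intro x y z hxyz
    have h4 := Fintype.linearIndependent_iff.1 ht ![x, y, z] (by
      simpa [Fin.sum_univ_three] using hxyz)
    exact ⟨h4 0, h4 1, h4 2⟩
  rw [vec_lin t i, vec_lin t j] at h
  have h5 := h3 (r * ![1, 0, 0, 1] i + s * ![1, 0, 0, 1] j)
    (r * ![0, 1, 0, 1] i + s * ![0, 1, 0, 1] j) (r * ![0, 0, 1, -1] i + s * ![0, 0, 1, -1] j) (by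
      rw [← h]
      module)
  obtain ⟨h6, h7, h8⟩ := h5
  fin_cases i <;> fin_cases j <;> simp at h6 h7 h8 hij ⊢ <;>
    first
      | exact ⟨by assumption, by assumption⟩
      | (simp_all)

theorem Y8_ind {t t' : T p d} [Fact p.Prime] (ht : Gq t)
    (h1 : LinearIndependent (ZMod p) ![t.1, t.2.1, t.2.2])
    (h2 : LinearIndependent (ZMod p) ![t'.1, t'.2.1, t'.2.2])
    (h3 : ∀ (i j : Fin 4) (c : ZMod p), vec t' j ≠ c • vec t i) (s s' : Fin (4 + 4))
    (hs : s ≠ s') : LinearIndependent (ZMod p) ![Y8 t t' s, Y8 t t' s'] := by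
  have h4 : ∀ i j : Fin 4, LinearIndependent (ZMod p) ![vec t i, vec t' j] := by
    intro i j
    rw [LinearIndependent.pair_iff' (vec_ne ht i)]
    intro c hc
    exact h3 i j c hc.symm
  revert hs
  refine Fin.addCases (fun i => ?_) (fun i => ?_) s <;>
    refine Fin.addCases (fun j => ?_) (fun j => ?_) s' <;> intro hs <;>
    simp only [Y8, Fin.append_left, Fin.append_right]
  · exact vec_ind t h1 i j fun h => hs (by rw [h])
  · exact h4 i j
  · exact LinearIndependent.pair_symm_iff.1 (h4 j i)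
  · exact vec_ind t' h2 i j fun h => hs (by rw [h])

theorem var_sum [NeZero p] (hV : VAR_Stmt) (hp : p.Prime) (hp2 : p ≠ 2) {H : Finset (G p d)}
    (hH : Half H) {δ : ZMod p → ℝ} (hδ : EM δ) {ι : Type} [Fintype ι] [DecidableEq ι]
    (Y : ι → G p d) (hY : ∀ s, Y s ≠ 0)
    (hY2 : ∀ s s', s ≠ s' → LinearIndependent (ZMod p) ![Y s, Y s']) (ε : ι → ℝ)
    (hε : ∀ s, ε s ^ 2 = 1) (hs : ∑ s, ε s = 0) :
    ∑ h ∈ H, (∑ s, ε s * δ (dt (Y s) h)) ^ 2 = 4 * Fintype.card ι * sig p d δ := by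
  obtain ⟨v1, v2⟩ := hV p d hp hp2 H hH δ hδ
  have h1 : ∀ s s', ∑ h ∈ H, δ (dt (Y s) h) * δ (dt (Y s') h) =
      (if s = s' then 4 * sig p d δ else 0) - δ 0 ^ 2 / 2 := by
    intro s s'
    split_ifs with h
    · subst h
      rw [← v1 (Y s) (hY s)]
      exact Finset.sum_congr rfl fun _ _ => by ring
    · rw [v2 _ _ (hY2 s s' h)]
      ring
  have h2 : ∑ h ∈ H, (∑ s, ε s * δ (dt (Y s) h)) ^ 2 =
      ∑ s, ∑ s', ε s * ε s' * ∑ h ∈ H, δ (dt (Y s) h) * δ (dt (Y s') h) := by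
    have h3 : ∀ h ∈ H, (∑ s, ε s * δ (dt (Y s) h)) ^ 2 =
        ∑ s, ∑ s', ε s * ε s' * (δ (dt (Y s) h) * δ (dt (Y s') h)) := by
      intro h _
      rw [sq, Finset.sum_mul_sum]
      exact Finset.sum_congr rfl fun _ _ => Finset.sum_congr rfl fun _ _ => by ring
    rw [Finset.sum_congr rfl h3, Finset.sum_comm]
    refine Finset.sum_congr rfl fun s _ => ?_
    rw [Finset.sum_comm]
    refine Finset.sum_congr rfl fun s' _ => ?_
    rw [Finset.mul_sum]
  rw [h2]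
  have h4 : ∀ s, ∑ s', ε s * ε s' * ∑ h ∈ H, δ (dt (Y s) h) * δ (dt (Y s') h) =
      4 * sig p d δ := by
    intro s
    have h5 : ∀ s', ε s * ε s' * ∑ h ∈ H, δ (dt (Y s) h) * δ (dt (Y s') h) =
        (if s = s' then ε s * ε s' * (4 * sig p d δ) else 0) - ε s * (δ 0 ^ 2 / 2) * ε s' := by
      intro s'
      rw [h1]
      split_ifs <;> ring
    rw [Finset.sum_congr rfl fun s' _ => h5 s', Finset.sum_sub_distrib, ← Finset.mul_sum, hs,
      mul_zero, sub_zero, Finset.sum_ite_eq, if_pos (Finset.mem_univ _)]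
    have h6 := hε s
    calc ε s * ε s * (4 * sig p d δ) = ε s ^ 2 * (4 * sig p d δ) := by ring
      _ = _ := by rw [h6]; ring
  rw [Finset.sum_congr rfl fun s _ => h4 s, Finset.sum_const, Finset.card_univ, nsmul_eq_mul]
  ring

theorem Dq_le {δ : ZMod p → ℝ} {D : ℝ} (hD : ∀ a, |δ a| ≤ D) (t : T p d) (h : G p d) :
    |Dq δ t h| ≤ 4 * D := by
  have h1 : |Dq δ t h| ≤ ∑ j : Fin 4, D := by
    refine (Finset.abs_sum_le_sum_abs _ _).trans (Finset.sum_le_sum fun j _ => ?_)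
    rw [abs_mul]
    rcases sg_pm j with h | h <;> rw [h] <;> simp <;> exact hD _
  simpa using h1

end WS4aux

open WS4aux in
theorem t_WS4 (hC : COS_Stmt) (hV : VAR_Stmt) (hE : EXW_Stmt) (hP : PRC_Stmt) : WS4_Stmt := by
  classical
  intro p _ hp hp2
  haveI : Fact p.Prime := ⟨hp⟩
  obtain ⟨C, c, hC0, hc, hEX⟩ := hE p (4 + 4) hp hp2
  refine ⟨24 * C / c ^ 3 + 200 * p ^ 3 + 2 * p * (3 * 8 ^ 4), ?_⟩
  intro d H hH α hα δ hδ D hD hD2
  have hD0 : 0 ≤ D := (abs_nonneg _).trans (hD 0)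
  have hp1 : (1 : ℝ) ≤ p := by exact_mod_cast hp.one_lt.le
  have hn1 : 1 ≤ nn p d := one_le_pow₀ hp1
  have hn0 : 0 < nn p d := lt_of_lt_of_le one_pos hn1
  set σ := sig p d δ with hσ
  have hσ0 : 0 ≤ σ := by
    rw [hσ]
    unfold sig
    have : 0 ≤ ∑ a, δ a ^ 2 := Finset.sum_nonneg fun _ _ => sq_nonneg _
    positivity
  set m := Real.exp (-2 * σ) with hm
  have hm0 : 0 ≤ m := (Real.exp_pos _).le
  have hm1 : m ≤ 1 := Real.exp_le_one_iff.2 (by linarith)
  have hDp : D ≤ 1 / 20 := by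
    refine hD2.trans (one_div_le_one_div_of_le (by norm_num) ?_)
    linarith
  have hHn : (H.card : ℝ) ≤ nn p d := by
    have h1 : H.card ≤ Fintype.card (G p d) := Finset.card_le_univ _
    have h2 : Fintype.card (G p d) = p ^ d := by simp [ZMod.card]
    rw [h2] at h1
    calc (H.card : ℝ) ≤ ((p ^ d : ℕ) : ℝ) := by exact_mod_cast h1
      _ = nn p d := by simp [nn]
  set Q : Finset (T p d) := (univ : Finset (T p d)).filter Gq with hQ
  have hQc : (Q.card : ℝ) ≤ nn p d ^ 3 := by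
    have h1 : Q.card ≤ Fintype.card (T p d) := Finset.card_le_univ _
    have h2 : Fintype.card (T p d) = (p ^ d) ^ 3 := by
      simp only [T, Fintype.card_prod, G, Fintype.card_fun, ZMod.card, Fintype.card_fin]
      ring
    rw [h2] at h1
    calc (Q.card : ℝ) ≤ (((p ^ d) ^ 3 : ℕ) : ℝ) := by exact_mod_cast h1
      _ = nn p d ^ 3 := by simp [nn]
  -- the value of a pair
  let V : ZMod p → ℝ := δ
  let F : Finset (G p d) → T p d → ℂ := fun A t =>
    q4 (vd H A α δ) t - (m : ℂ) * q4 (vd H A α 0) t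
  let Ex : (ZMod p → ℝ) → (ZMod p → ℝ) → T p d → T p d → ℂ := fun δ₁ δ₂ t t' =>
    ∑ A ∈ H.powerset, q4 (vd H A α δ₁) t * (starRingEnd ℂ) (q4 (vd H A α δ₂) t')
  let K : T p d → T p d → ℂ := fun t t' =>
    ∑ A ∈ H.powerset, F A t * (starRingEnd ℂ) (F A t')
  have hK : ∀ t t', K t t' = Ex δ δ t t' - m * Ex δ 0 t t' - m * Ex 0 δ t t' +
      m * m * Ex 0 0 t t' := by
    intro t t'
    show ∑ A ∈ H.powerset, F A t * (starRingEnd ℂ) (F A t') = _
    simp only [Ex, Finset.mul_sum, ← Finset.sum_sub_distrib, ← Finset.sum_add_distrib]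
    refine Finset.sum_congr rfl fun A _ => ?_
    simp only [F, map_sub, map_mul, Complex.conj_ofReal]
    ring
  have hsq : ∀ A, ((‖S4 (vd H A α δ) - (m : ℂ) * S4 (vd H A α 0)‖ ^ 2 : ℝ) : ℂ) =
      ∑ t ∈ Q, ∑ t' ∈ Q, F A t * (starRingEnd ℂ) (F A t') := by
    intro A
    have h1 : S4 (vd H A α δ) - (m : ℂ) * S4 (vd H A α 0) = ∑ t ∈ Q, F A t := by
      simp only [F, Finset.sum_sub_distrib, ← Finset.mul_sum]
      rfl
    rw [← Complex.normSq_eq_norm_sq, ← Complex.mul_conj, h1, map_sum, Finset.sum_mul_sum]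
  have htot : ∑ A ∈ H.powerset, ‖S4 (vd H A α δ) - (m : ℂ) * S4 (vd H A α 0)‖ ^ 2 ≤
      ∑ t ∈ Q, ∑ t' ∈ Q, ‖K t t'‖ := by
    have h1 : ((∑ A ∈ H.powerset, ‖S4 (vd H A α δ) - (m : ℂ) * S4 (vd H A α 0)‖ ^ 2 : ℝ) : ℂ) =
        ∑ t ∈ Q, ∑ t' ∈ Q, K t t' := by
      rw [Complex.ofReal_sum, Finset.sum_congr rfl fun A _ => hsq A, Finset.sum_comm]
      refine Finset.sum_congr rfl fun t _ => ?_
      rw [Finset.sum_comm]
    have h2 : 0 ≤ ∑ A ∈ H.powerset, ‖S4 (vd H A α δ) - (m : ℂ) * S4 (vd H A α 0)‖ ^ 2 :=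
      Finset.sum_nonneg fun _ _ => sq_nonneg _
    calc ∑ A ∈ H.powerset, ‖S4 (vd H A α δ) - (m : ℂ) * S4 (vd H A α 0)‖ ^ 2
        = ‖((∑ A ∈ H.powerset, ‖S4 (vd H A α δ) - (m : ℂ) * S4 (vd H A α 0)‖ ^ 2 : ℝ) : ℂ)‖ := by
          rw [Complex.norm_real, Real.norm_of_nonneg h2]
      _ ≤ _ := by
          rw [h1]
          refine (norm_sum_le _ _).trans (Finset.sum_le_sum fun t _ => norm_sum_le _ _)
  -- the expectations
  have hev : ∀ δ₁ δ₂ : ZMod p → ℝ, (δ₁ = δ ∨ δ₁ = 0) → (δ₂ = δ ∨ δ₂ = 0) →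
      (∀ s a, d8 δ₁ δ₂ s (-a) = d8 δ₁ δ₂ s a) ∧
      ∀ s a, ((4 + 4 : ℕ) : ℝ) * |d8 δ₁ δ₂ s a| ≤ 1 / p := by
    intro δ₁ δ₂ h1 h2
    have h3 : ∀ δ' : ZMod p → ℝ, (δ' = δ ∨ δ' = 0) → (∀ a, δ' (-a) = δ' a) ∧
        ∀ a, ((4 + 4 : ℕ) : ℝ) * |δ' a| ≤ 1 / p := by
      rintro δ' (rfl | rfl)
      · refine ⟨hδ.1, fun a => ?_⟩
        have h4 : |δ' a| ≤ 1 / (20 * p) := (hD a).trans hD2
        have h5 : (1 : ℝ) / (20 * p) = 1 / 20 * (1 / p) := by
          field_simp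
        have h6 : (0 : ℝ) < 1 / p := by positivity
        rw [h5] at h4
        push_cast
        nlinarith
      · refine ⟨fun a => rfl, fun a => ?_⟩
        simp
    refine ⟨fun s => ?_, fun s => ?_⟩
    · refine Fin.addCases (fun j => ?_) (fun j => ?_) s
      · simp only [d8, Fin.append_left]
        exact (h3 δ₁ h1).1
      · simp only [d8, Fin.append_right]
        exact (h3 δ₂ h2).1
    · refine Fin.addCases (fun j => ?_) (fun j => ?_) s
      · simp only [d8, Fin.append_left]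
        exact (h3 δ₁ h1).2
      · simp only [d8, Fin.append_right]
        exact (h3 δ₂ h2).2
  have hExp : ∀ δ₁ δ₂ : ZMod p → ℝ, (δ₁ = δ ∨ δ₁ = 0) → (δ₂ = δ ∨ δ₂ = 0) → ∀ t ∈ Q, ∀ t' ∈ Q,
      ((∀ h, ∑ j, (sg j : ZMod p) * dt (vec t j) h ^ 2 =
        ∑ j, (sg j : ZMod p) * dt (vec t' j) h ^ 2) →
        Ex δ₁ δ₂ t t' = 2 ^ H.card *
          ((∏ h ∈ H, Real.cos ((Dq δ₁ t h - Dq δ₂ t' h) / 2) : ℝ) : ℂ)) ∧
      ((¬ ∀ h, ∑ j, (sg j : ZMod p) * dt (vec t j) h ^ 2 =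
        ∑ j, (sg j : ZMod p) * dt (vec t' j) h ^ 2) →
        ‖Ex δ₁ δ₂ t t'‖ ≤ 2 ^ H.card * (C * Real.exp (-(c * nn p d)))) := by
    intro δ₁ δ₂ h1 h2 t ht t' ht'
    obtain ⟨h3, h4⟩ := hev δ₁ δ₂ h1 h2
    obtain ⟨h5, h6⟩ := hEX d H hH α (d8 δ₁ δ₂) h3 h4 (Y8 t t') e8
      (Y8_ne (Finset.mem_filter.1 ht).2 (Finset.mem_filter.1 ht').2) e8_pm
    have h7 : Ex δ₁ δ₂ t t' =
        ∑ A ∈ H.powerset, ∏ s, vd H A α (d8 δ₁ δ₂ s) (Y8 t t' s) ^ e8 s :=
      Finset.sum_congr rfl fun A _ => prod8 H A α δ₁ δ₂ t t'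
    refine ⟨fun h => ?_, fun h => ?_⟩
    · rw [h7, h5 fun h' => ?_]
      · simp only [sum8]
      · rw [q8, h h', sub_self, mul_zero]
    · rw [h7]
      refine h6 ?_
      by_contra h8
      push Not at h8
      apply h
      intro h'
      have h9 := h8 h'
      rw [q8] at h9
      exact sub_eq_zero.1 ((mul_eq_zero.1 h9).resolve_left hα)
  set q : T p d → T p d → Prop := fun t t' =>
    ∀ h, ∑ j, (sg j : ZMod p) * dt (vec t j) h ^ 2 = ∑ j, (sg j : ZMod p) * dt (vec t' j) h ^ 2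
    with hq
  set bad : T p d → T p d → Prop := fun t t' =>
    ¬ LinearIndependent (ZMod p) ![t.1, t.2.1, t.2.2] ∨
      ¬ LinearIndependent (ZMod p) ![t'.1, t'.2.1, t'.2.2] ∨
      ∃ (i j : Fin 4) (c : ZMod p), vec t' j = c • vec t i with hbad
  set e := C * Real.exp (-(c * nn p d)) with he
  have he0 : 0 ≤ e := mul_nonneg hC0 (Real.exp_pos _).le
  -- the triangle inequality for the four terms
  have htri : ∀ t t' (b : ℝ), ‖Ex δ δ t t'‖ ≤ b → ‖Ex δ 0 t t'‖ ≤ b → ‖Ex 0 δ t t'‖ ≤ b →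
      ‖Ex 0 0 t t'‖ ≤ b → ‖K t t'‖ ≤ 4 * b := by
    intro t t' b b1 b2 b3 b4
    rw [hK]
    have hmn : ‖(m : ℂ)‖ ≤ 1 := by rw [Complex.norm_real, Real.norm_of_nonneg hm0]; exact hm1
    have hb : 0 ≤ b := (norm_nonneg _).trans b1
    have c2 : ‖(m : ℂ) * Ex δ 0 t t'‖ ≤ b := by
      rw [norm_mul]
      calc _ ≤ 1 * b := mul_le_mul hmn b2 (norm_nonneg _) zero_le_one
        _ = b := one_mul b
    have c3 : ‖(m : ℂ) * Ex 0 δ t t'‖ ≤ b := by
      rw [norm_mul]
      calc _ ≤ 1 * b := mul_le_mul hmn b3 (norm_nonneg _) zero_le_one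
        _ = b := one_mul b
    have c4 : ‖(m : ℂ) * m * Ex 0 0 t t'‖ ≤ b := by
      rw [norm_mul, norm_mul]
      calc _ ≤ (1 * 1) * b := mul_le_mul (mul_le_mul hmn hmn (norm_nonneg _) zero_le_one) b4
            (norm_nonneg _) (by norm_num)
        _ = b := by ring
    calc _ ≤ ‖Ex δ δ t t' - m * Ex δ 0 t t' - m * Ex 0 δ t t'‖ + ‖(m : ℂ) * m * Ex 0 0 t t'‖ :=
          norm_add_le _ _
      _ ≤ ‖Ex δ δ t t' - m * Ex δ 0 t t'‖ + ‖(m : ℂ) * Ex 0 δ t t'‖ +
            ‖(m : ℂ) * m * Ex 0 0 t t'‖ := by gcongr; exact norm_sub_le _ _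
      _ ≤ ‖Ex δ δ t t'‖ + ‖(m : ℂ) * Ex δ 0 t t'‖ + ‖(m : ℂ) * Ex 0 δ t t'‖ +
            ‖(m : ℂ) * m * Ex 0 0 t t'‖ := by gcongr; exact norm_sub_le _ _
      _ ≤ 4 * b := by linarith
  have hKb : ∀ t ∈ Q, ∀ t' ∈ Q, ‖K t t'‖ ≤ 2 ^ H.card * (4 * e +
      4 * (if q t t' ∧ bad t t' then 1 else 0) +
      3 * 8 ^ 4 * nn p d * D ^ 4 * (if q t t' then 1 else 0)) := by
    intro t ht t' ht'
    have hδδ := hExp δ δ (Or.inl rfl) (Or.inl rfl) t ht t' ht'
    have hδ0 := hExp δ 0 (Or.inl rfl) (Or.inr rfl) t ht t' ht'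
    have h0δ := hExp 0 δ (Or.inr rfl) (Or.inl rfl) t ht t' ht'
    have h00 := hExp 0 0 (Or.inr rfl) (Or.inr rfl) t ht t' ht'
    by_cases hqt : q t t'
    · by_cases hb : bad t t'
      · -- trivial bound
        have hcos : ∀ δ₁ δ₂ : ZMod p → ℝ, ‖((2 : ℂ) ^ H.card *
            ((∏ h ∈ H, Real.cos ((Dq δ₁ t h - Dq δ₂ t' h) / 2) : ℝ) : ℂ))‖ ≤ 2 ^ H.card := by
          intro δ₁ δ₂
          rw [norm_mul, norm_pow, Complex.norm_two, Complex.norm_real, norm_prod]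
          refine mul_le_of_le_one_right (by positivity) ?_
          refine Finset.prod_le_one (fun _ _ => norm_nonneg _) fun h _ => ?_
          rw [Real.norm_eq_abs]
          exact Real.abs_cos_le_one _
        have h1 := htri t t' (2 ^ H.card) (by rw [hδδ.1 hqt]; exact hcos _ _)
          (by rw [hδ0.1 hqt]; exact hcos _ _) (by rw [h0δ.1 hqt]; exact hcos _ _)
          (by rw [h00.1 hqt]; exact hcos _ _)
        rw [if_pos ⟨hqt, hb⟩, if_pos hqt]
        have h2 : 0 ≤ 3 * 8 ^ 4 * nn p d * D ^ 4 := by positivity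
        have h3 : (0 : ℝ) < 2 ^ H.card := by positivity
        refine h1.trans ?_
        nlinarith
      · rw [if_neg fun h => hb h.2, if_pos hqt]
        have hb' := hb
        simp only [hbad, not_or, not_not, not_exists] at hb'
        obtain ⟨i1, i2, i3⟩ := hb'
        have gt := (Finset.mem_filter.1 ht).2
        have gt' := (Finset.mem_filter.1 ht').2
        -- variances
        have w1 : ∑ h ∈ H, (Dq δ t h - Dq δ t' h) ^ 2 = 32 * σ := by
          have h1 := var_sum hV hp hp2 hH hδ (Y8 t t') (Y8_ne gt gt')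
            (Y8_ind gt i1 i2 i3) (fun s => (e8 s : ℝ))
            (fun s => by rcases e8_pm s with h | h <;> simp [h]) e8_sum
          have h2 : ∀ h, ∑ s, (e8 s : ℝ) * δ (dt (Y8 t t' s) h) = Dq δ t h - Dq δ t' h := by
            intro h
            rw [← sum8]
            refine Finset.sum_congr rfl fun s _ => ?_
            congr 1
            refine Fin.addCases (fun j => ?_) (fun j => ?_) s <;>
              simp only [d8, Fin.append_left, Fin.append_right]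
          simp only [h2] at h1
          rw [h1, Fintype.card_fin]
          push_cast
          ring
        have w2 : ∑ h ∈ H, (Dq δ t h) ^ 2 = 16 * σ := by
          have h1 := var_sum hV hp hp2 hH hδ (vec t) (vec_ne gt)
            (fun s s' => vec_ind t i1 s s') (fun s => (sg s : ℝ))
            (fun s => by rcases sg_pm s with h | h <;> simp [h]) sg_sum
          rw [Fintype.card_fin] at h1
          refine Eq.trans h1 ?_
          push_cast
          ring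
        have w3 : ∑ h ∈ H, (Dq δ t' h) ^ 2 = 16 * σ := by
          have h1 := var_sum hV hp hp2 hH hδ (vec t') (vec_ne gt')
            (fun s s' => vec_ind t' i2 s s') (fun s => (sg s : ℝ))
            (fun s => by rcases sg_pm s with h | h <;> simp [h]) sg_sum
          rw [Fintype.card_fin] at h1
          refine Eq.trans h1 ?_
          push_cast
          ring
        -- the cosine products
        have hcos : ∀ E : G p d → ℝ, (∀ h, |E h| ≤ 8 * D) →
            |∏ h ∈ H, Real.cos (E h / 2) - Real.exp (-(∑ h ∈ H, E h ^ 2) / 8)| ≤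
              8 ^ 4 * nn p d * D ^ 4 := by
          intro E hE
          refine (hC.2.1 (G p d) H E fun h _ => (hE h).trans (by linarith)).trans ?_
          calc ∑ h ∈ H, E h ^ 4 ≤ ∑ h ∈ H, (8 * D) ^ 4 := by
                refine Finset.sum_le_sum fun h _ => ?_
                have h1 : E h ^ 4 = |E h| ^ 4 := by
                  rw [← abs_pow]
                  exact (abs_of_nonneg (by positivity)).symm
                rw [h1]
                exact pow_le_pow_left₀ (abs_nonneg _) (hE h) 4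
            _ = H.card * (8 * D) ^ 4 := by rw [Finset.sum_const, nsmul_eq_mul]
            _ ≤ nn p d * (8 * D) ^ 4 := by gcongr
            _ = _ := by ring
        have z1 := hcos (fun h => Dq δ t h - Dq δ t' h) fun h => by
          have h1 := Dq_le hD t h
          have h2 := Dq_le hD t' h
          calc |Dq δ t h - Dq δ t' h| ≤ |Dq δ t h| + |Dq δ t' h| := abs_sub _ _
            _ ≤ 8 * D := by linarith
        have z2 := hcos (fun h => Dq δ t h) fun h => by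
          have h1 := Dq_le hD t h
          linarith
        have z3 := hcos (fun h => Dq δ t' h) fun h => by
          have h1 := Dq_le hD t' h
          linarith
        rw [w1] at z1
        rw [w2] at z2
        rw [w3] at z3
        have m2 : Real.exp (-(16 * σ) / 8) = m := by rw [hm]; congr 1; ring
        have m1 : Real.exp (-(32 * σ) / 8) = m * m := by
          rw [hm, ← Real.exp_add]; congr 1; ring
        rw [m1] at z1
        rw [m2] at z2 z3
        have D0 : ∀ (t : T p d) h, Dq (0 : ZMod p → ℝ) t h = 0 := by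
          intro t h
          simp [Dq]
        have r2 : ∏ h ∈ H, Real.cos ((Dq δ t h - Dq 0 t' h) / 2) =
            ∏ h ∈ H, Real.cos (Dq δ t h / 2) := by
          refine Finset.prod_congr rfl fun h _ => ?_
          rw [D0, sub_zero]
        have r3 : ∏ h ∈ H, Real.cos ((Dq 0 t h - Dq δ t' h) / 2) =
            ∏ h ∈ H, Real.cos (Dq δ t' h / 2) := by
          refine Finset.prod_congr rfl fun h _ => ?_
          rw [D0, zero_sub, neg_div, Real.cos_neg]
        have r4 : ∏ h ∈ H, Real.cos ((Dq 0 t h - Dq 0 t' h) / 2) = 1 := by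
          refine Finset.prod_eq_one fun h _ => ?_
          rw [D0, D0, sub_zero, zero_div, Real.cos_zero]
        rw [hK, hδδ.1 hqt, hδ0.1 hqt, h0δ.1 hqt, h00.1 hqt, r2, r3, r4]
        set P1 := ∏ h ∈ H, Real.cos ((Dq δ t h - Dq δ t' h) / 2)
        set P2 := ∏ h ∈ H, Real.cos (Dq δ t h / 2)
        set P3 := ∏ h ∈ H, Real.cos (Dq δ t' h / 2)
        have k1 : (2 : ℂ) ^ H.card * (P1 : ℂ) - m * (2 ^ H.card * (P2 : ℂ)) -
            m * (2 ^ H.card * (P3 : ℂ)) + m * m * (2 ^ H.card * ((1 : ℝ) : ℂ)) =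
            (((2 : ℝ) ^ H.card * (P1 - m * P2 - m * P3 + m * m) : ℝ) : ℂ) := by
          push_cast
          ring
        rw [k1, Complex.norm_real, Real.norm_eq_abs, abs_mul, abs_of_nonneg (by positivity)]
        have k2 : P1 - m * P2 - m * P3 + m * m = (P1 - m * m) - m * (P2 - m) - m * (P3 - m) := by
          ring
        have k3 : |P1 - m * P2 - m * P3 + m * m| ≤ 3 * (8 ^ 4 * nn p d * D ^ 4) := by
          rw [k2]
          have l2 : |m * (P2 - m)| ≤ 8 ^ 4 * nn p d * D ^ 4 := by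
            rw [abs_mul, abs_of_nonneg hm0]
            calc m * |P2 - m| ≤ 1 * |P2 - m| := by gcongr
              _ = |P2 - m| := one_mul _
              _ ≤ _ := z2
          have l3 : |m * (P3 - m)| ≤ 8 ^ 4 * nn p d * D ^ 4 := by
            rw [abs_mul, abs_of_nonneg hm0]
            calc m * |P3 - m| ≤ 1 * |P3 - m| := by gcongr
              _ = |P3 - m| := one_mul _
              _ ≤ _ := z3
          calc _ ≤ |(P1 - m * m) - m * (P2 - m)| + |m * (P3 - m)| := abs_sub _ _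
            _ ≤ |P1 - m * m| + |m * (P2 - m)| + |m * (P3 - m)| := by
              gcongr; exact abs_sub _ _
            _ ≤ _ := by linarith
        refine mul_le_mul_of_nonneg_left (k3.trans ?_) (by positivity)
        rw [mul_zero, add_zero, mul_one]
        nlinarith
    · rw [if_neg fun h => hqt h.1, if_neg hqt, mul_zero, mul_zero, add_zero, add_zero]
      have h1 := htri t t' (2 ^ H.card * e) (hδδ.2 hqt) (hδ0.2 hqt) (h0δ.2 hqt) (h00.2 hqt)
      linarith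
  -- counting
  obtain ⟨hP1, hP2⟩ := hP p d hp hp2
  have hcnt1 : ∑ t ∈ Q, ∑ t' ∈ Q, (if q t t' then (1 : ℝ) else 0) ≤ 2 * p * nn p d ^ 4 := by
    rw [← Finset.sum_product', Finset.sum_boole]
    refine le_trans (le_of_eq ?_) hP1
    rw [← Set.ncard_coe_finset]
    congr 2
    ext ⟨t, t'⟩
    simp [hQ, hq, and_assoc]
  have hcnt2 : ∑ t ∈ Q, ∑ t' ∈ Q, (if q t t' ∧ bad t t' then (1 : ℝ) else 0) ≤
      50 * (p : ℝ) ^ 3 * nn p d ^ 3 := by
    rw [← Finset.sum_product', Finset.sum_boole]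
    refine le_trans (le_of_eq ?_) hP2
    rw [← Set.ncard_coe_finset]
    congr 2
    ext ⟨t, t'⟩
    simp [hQ, hq, hbad, and_assoc]
  have hexp : nn p d ^ 3 * e ≤ 6 * C / c ^ 3 := by
    have h1 := Real.pow_div_factorial_le_exp (c * nn p d) (by positivity) 3
    have h2 : ((Nat.factorial 3 : ℕ) : ℝ) = 6 := by norm_num [Nat.factorial]
    rw [h2] at h1
    rw [he, Real.exp_neg]
    have h3 : 0 < Real.exp (c * nn p d) := Real.exp_pos _
    rw [show nn p d ^ 3 * (C * (Real.exp (c * nn p d))⁻¹) =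
      C * nn p d ^ 3 / Real.exp (c * nn p d) by field_simp, div_le_div_iff₀ h3 (by positivity)]
    have h4 : (c * nn p d) ^ 3 ≤ 6 * Real.exp (c * nn p d) := by
      rw [div_le_iff₀ (by norm_num)] at h1
      linarith
    calc C * nn p d ^ 3 * c ^ 3 = C * (c * nn p d) ^ 3 := by ring
      _ ≤ C * (6 * Real.exp (c * nn p d)) := by gcongr
      _ = _ := by ring
  refine htot.trans ?_
  have hsum : ∑ t ∈ Q, ∑ t' ∈ Q, ‖K t t'‖ ≤ 2 ^ H.card * (4 * e * (Q.card * Q.card) +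
      4 * ∑ t ∈ Q, ∑ t' ∈ Q, (if q t t' ∧ bad t t' then (1 : ℝ) else 0) +
      3 * 8 ^ 4 * nn p d * D ^ 4 * ∑ t ∈ Q, ∑ t' ∈ Q, (if q t t' then (1 : ℝ) else 0)) := by
    refine (Finset.sum_le_sum fun t ht => Finset.sum_le_sum fun t' ht' => hKb t ht t' ht').trans
      (le_of_eq ?_)
    simp only [← Finset.mul_sum, Finset.sum_add_distrib, Finset.sum_const, nsmul_eq_mul]
    ring
  refine hsum.trans (mul_le_mul_of_nonneg_left ?_ (by positivity))
  have hD4 : 0 ≤ D ^ 4 := by positivity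
  have hD22 : 0 ≤ D ^ 2 := by positivity
  have a1 : 4 * e * (Q.card * Q.card) ≤ 24 * C / c ^ 3 * nn p d ^ 3 := by
    have h1 : (Q.card : ℝ) * Q.card ≤ nn p d ^ 3 * nn p d ^ 3 :=
      mul_le_mul hQc hQc (by positivity) (by positivity)
    calc 4 * e * (Q.card * Q.card) ≤ 4 * e * (nn p d ^ 3 * nn p d ^ 3) := by gcongr
      _ = 4 * (nn p d ^ 3 * e) * nn p d ^ 3 := by ring
      _ ≤ 4 * (6 * C / c ^ 3) * nn p d ^ 3 := by gcongr
      _ = _ := by ring
  have a2 : 4 * ∑ t ∈ Q, ∑ t' ∈ Q, (if q t t' ∧ bad t t' then (1 : ℝ) else 0) ≤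
      200 * p ^ 3 * nn p d ^ 3 := by
    linarith
  have a3 : 3 * 8 ^ 4 * nn p d * D ^ 4 * ∑ t ∈ Q, ∑ t' ∈ Q, (if q t t' then (1 : ℝ) else 0) ≤
      2 * p * (3 * 8 ^ 4) * (nn p d ^ 5 * D ^ 4) := by
    calc _ ≤ 3 * 8 ^ 4 * nn p d * D ^ 4 * (2 * p * nn p d ^ 4) := by gcongr
      _ = _ := by ring
  have b1 : 0 ≤ nn p d ^ 3 := by positivity
  have b2 : 0 ≤ nn p d ^ 5 * D ^ 4 := by positivity
  have b3 : 0 ≤ nn p d ^ 4 * D ^ 2 := by positivity
  have c1 : 0 ≤ 24 * C / c ^ 3 := by positivity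
  have c2 : (0 : ℝ) ≤ 200 * p ^ 3 := by positivity
  have c3 : (0 : ℝ) ≤ 2 * p * (3 * 8 ^ 4) := by positivity
  calc _ ≤ 24 * C / c ^ 3 * nn p d ^ 3 + 200 * p ^ 3 * nn p d ^ 3 +
        2 * p * (3 * 8 ^ 4) * (nn p d ^ 5 * D ^ 4) := by linarith
    _ ≤ _ := by
      set a := 24 * C / c ^ 3
      set b := (200 : ℝ) * p ^ 3
      set c' := (2 : ℝ) * p * (3 * 8 ^ 4)
      nlinarith [mul_nonneg c1 b2, mul_nonneg c1 b3, mul_nonneg c2 b2, mul_nonneg c2 b3,
        mul_nonneg c3 b1, mul_nonneg c3 b3]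

end Pool.Agent.UAB
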