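import Pool.Agent.UAB.St

/-!
# Module ZS4: the second moment of `S4`, `α = 0`, large variance
-/

set_option autoImplicit false

namespace Pool.Agent.UAB

open Finset
open Pool.Agent.UAA (G ch nn)

namespace ZS4aux

variable {p d : ℕ}

/-- The family of a pair. -/
def Qp (P : (G p d × G p d × G p d) × (G p d × G p d × G p d)) :
    Fin 2 → G p d × G p d × G p d := ![P.1, P.2]

/-- The signs. -/
def et : Fin 2 → ℤ := ![1, -1]

/-- The exponent of the pair. -/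
noncomputable def DD (δ : ZMod p → ℝ) (P : (G p d × G p d × G p d) × (G p d × G p d × G p d))
    (h : G p d) : ℝ := ∑ s : Fin 2 × Fin 4, (ee et s : ℝ) * δ (dt (X (Qp P) s) h)

theorem vd0 [NeZero p] (H A : Finset (G p d)) (δ : ZMod p → ℝ) (x : G p d) (hx : x ≠ 0) :
    vd H A 0 δ x = Complex.exp ((gd H A δ x : ℂ) * Complex.I) := by
  unfold vd up
  rw [if_neg hx]
  simp

theorem conj_exp (r : ℝ) : (starRingEnd ℂ) (Complex.exp ((r : ℂ) * Complex.I)) =
    Complex.exp (((-r : ℝ) : ℂ) * Complex.I) := by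
  rw [← Complex.exp_conj]
  simp

theorem q4_vd [NeZero p] (H A : Finset (G p d)) (δ : ZMod p → ℝ) (t : G p d × G p d × G p d)
    (ht : Gq t) : q4 (vd H A 0 δ) t =
      Complex.exp (((∑ j, (sg j : ℝ) * gd H A δ (vec t j) : ℝ) : ℂ) * Complex.I) := by
  obtain ⟨h1, h2, h3, h4, -⟩ := ht
  unfold q4
  rw [vd0 _ _ _ _ h1, vd0 _ _ _ _ h2, vd0 _ _ _ _ h3, vd0 _ _ _ _ h4, conj_exp, conj_exp,
    ← Complex.exp_add, ← Complex.exp_add, ← Complex.exp_add]
  congr 1
  simp [Fin.sum_univ_four, vec, sg]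
  ring

theorem gd_pair (H A : Finset (G p d)) (δ : ZMod p → ℝ)
    (P : (G p d × G p d × G p d) × (G p d × G p d × G p d)) :
    (∑ j, (sg j : ℝ) * gd H A δ (vec P.1 j)) + -(∑ j, (sg j : ℝ) * gd H A δ (vec P.2 j)) =
      ∑ h ∈ H, ep A h * DD δ P h := by
  unfold DD gd
  simp only [Fintype.sum_prod_type, Fin.sum_univ_two, Fin.sum_univ_four, ee, et, X, Qp, sg,
    Matrix.cons_val_zero, Matrix.cons_val_one, Matrix.cons_val, Finset.mul_sum,
    ← Finset.sum_add_distrib, ← Finset.sum_neg_distrib]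
  apply Finset.sum_congr rfl
  intro h _
  push_cast
  ring

theorem sum_A (hC : COS_Stmt) (H : Finset (G p d)) (D : G p d → ℝ) :
    ∑ A ∈ H.powerset, Complex.exp (((∑ h ∈ H, ep A h * D h : ℝ) : ℂ) * Complex.I) =
      2 ^ H.card * ((∏ h ∈ H, Real.cos (D h / 2) : ℝ) : ℂ) := by
  have h1 := hC.1 (G p d) H (fun h => Complex.exp ((D h / 2 : ℂ) * Complex.I))
    (fun h => Complex.exp (-(D h / 2 : ℂ) * Complex.I))
  have h2 : ∀ A ∈ H.powerset, Complex.exp (((∑ h ∈ H, ep A h * D h : ℝ) : ℂ) * Complex.I) =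
      ∏ h ∈ H, (if h ∈ A then Complex.exp ((D h / 2 : ℂ) * Complex.I)
        else Complex.exp (-(D h / 2 : ℂ) * Complex.I)) := by
    intro A _
    rw [Complex.ofReal_sum, Finset.sum_mul, Complex.exp_sum]
    apply Finset.prod_congr rfl
    intro h _
    unfold ep
    by_cases hA : h ∈ A
    · rw [if_pos hA, if_pos hA]
      congr 1
      push_cast
      ring
    · rw [if_neg hA, if_neg hA]
      congr 1
      push_cast
      ring
  rw [Finset.sum_congr rfl h2, h1, ← Finset.prod_const, Complex.ofReal_prod,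
    ← Finset.prod_mul_distrib]
  apply Finset.prod_congr rfl
  intro h _
  rw [Complex.ofReal_cos, Complex.two_cos]
  push_cast
  ring_nf

/-- `D` is bounded. -/
theorem DD_le (δ : ZMod p → ℝ) (hδ : ∀ a, |δ a| ≤ 1 / 20)
    (P : (G p d × G p d × G p d) × (G p d × G p d × G p d)) (h : G p d) : |DD δ P h| ≤ 1 := by
  unfold DD
  refine le_trans (Finset.abs_sum_le_sum_abs _ _) ?_
  have h1 : ∀ s : Fin 2 × Fin 4, |(ee et s : ℝ) * δ (dt (X (Qp P) s) h)| ≤ 1 / 20 := by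
    intro s
    have h2 : |(ee et s : ℝ)| = 1 := by
      obtain ⟨i, j⟩ := s
      fin_cases i <;> fin_cases j <;> simp [ee, et, sg]
    rw [abs_mul, h2, one_mul]
    exact hδ _
  refine le_trans (Finset.sum_le_sum fun s _ => h1 s) ?_
  simp
  norm_num

theorem sg_sq (s : Fin 2 × Fin 4) : (ee et s : ℝ) * (ee et s : ℝ) = 1 := by
  obtain ⟨i, j⟩ := s
  fin_cases i <;> fin_cases j <;> simp [ee, et, sg]

theorem sg_abs (s : Fin 2 × Fin 4) : |(ee et s : ℝ)| = 1 := by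
  obtain ⟨i, j⟩ := s
  fin_cases i <;> fin_cases j <;> simp [ee, et, sg]

theorem X_ne (P : (G p d × G p d × G p d) × (G p d × G p d × G p d)) (h1 : Gq P.1)
    (h2 : Gq P.2) (s : Fin 2 × Fin 4) : X (Qp P) s ≠ 0 := by
  obtain ⟨a1, a2, a3, a4, -⟩ := h1
  obtain ⟨b1, b2, b3, b4, -⟩ := h2
  obtain ⟨i, j⟩ := s
  fin_cases i <;> fin_cases j <;> simpa [X, Qp, vec]

theorem ind (hp : p.Prime) (x y : G p d) (hx : x ≠ 0) (hy : y ≠ 0)
    (h : Submodule.span (ZMod p) {y} ≠ Submodule.span (ZMod p) {x}) :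
    LinearIndependent (ZMod p) ![x, y] := by
  have : Fact p.Prime := ⟨hp⟩
  rw [LinearIndependent.pair_iff' hx]
  intro a ha
  apply h
  rw [← ha]
  have ha0 : a ≠ 0 := by
    rintro rfl
    apply hy
    rw [← ha, zero_smul]
  exact Submodule.span_singleton_smul_eq (IsUnit.mk0 a ha0) x

open Classical in
/-- The slots alone on their line. -/
noncomputable def Sn (P : (G p d × G p d × G p d) × (G p d × G p d × G p d)) :
    Finset (Fin 2 × Fin 4) :=
  univ.filter fun s => ∀ s', s' ≠ s →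
    Submodule.span (ZMod p) {X (Qp P) s'} ≠ Submodule.span (ZMod p) {X (Qp P) s}

/-- Inner products of the slots in `U` and `V`. -/
theorem inn (hV : VAR_Stmt) [NeZero p] (hp : p.Prime) (hp2 : p ≠ 2) (H : Finset (G p d))
    (hH : Half H) (δ : ZMod p → ℝ) (hδ : EM δ)
    (P : (G p d × G p d × G p d) × (G p d × G p d × G p d)) (h1 : Gq P.1) (h2 : Gq P.2)
    (V : Finset (Fin 2 × Fin 4)) (hU : Sn P ⊆ V) :
    |∑ h ∈ H, (∑ s ∈ Sn P, (ee et s : ℝ) * δ (dt (X (Qp P) s) h)) *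
        (∑ s ∈ V, (ee et s : ℝ) * δ (dt (X (Qp P) s) h)) -
      ((Sn P).card : ℝ) * (4 * sig p d δ - δ 0 ^ 2 / 2)| ≤ 32 * δ 0 ^ 2 := by
  classical
  obtain ⟨hv1, hv2⟩ := hV p d hp hp2 H hH δ hδ
  have e1 : ∑ h ∈ H, (∑ s ∈ Sn P, (ee et s : ℝ) * δ (dt (X (Qp P) s) h)) *
        (∑ s ∈ V, (ee et s : ℝ) * δ (dt (X (Qp P) s) h)) =
      ∑ s ∈ Sn P, ∑ s' ∈ V, ((ee et s : ℝ) * (ee et s' : ℝ)) *
        ∑ h ∈ H, δ (dt (X (Qp P) s) h) * δ (dt (X (Qp P) s') h) := by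
    have e0 : ∀ h ∈ H, (∑ s ∈ Sn P, (ee et s : ℝ) * δ (dt (X (Qp P) s) h)) *
        (∑ s ∈ V, (ee et s : ℝ) * δ (dt (X (Qp P) s) h)) =
        ∑ s ∈ Sn P, ∑ s' ∈ V, ((ee et s : ℝ) * (ee et s' : ℝ)) *
          (δ (dt (X (Qp P) s) h) * δ (dt (X (Qp P) s') h)) := by
      intro h _
      rw [Finset.sum_mul_sum]
      apply Finset.sum_congr rfl
      intro s _
      apply Finset.sum_congr rfl
      intro s' _
      ring
    rw [Finset.sum_congr rfl e0, Finset.sum_comm]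
    apply Finset.sum_congr rfl
    intro s _
    rw [Finset.sum_comm]
    apply Finset.sum_congr rfl
    intro s' _
    rw [Finset.mul_sum]
  have e2 : ((Sn P).card : ℝ) * (4 * sig p d δ - δ 0 ^ 2 / 2) =
      ∑ s ∈ Sn P, (4 * sig p d δ - δ 0 ^ 2 / 2) := by
    rw [Finset.sum_const, nsmul_eq_mul]
  rw [e1, e2, ← Finset.sum_sub_distrib]
  refine le_trans (Finset.abs_sum_le_sum_abs _ _) ?_
  have e3 : ∀ s ∈ Sn P, |∑ s' ∈ V, ((ee et s : ℝ) * (ee et s' : ℝ)) *
        ∑ h ∈ H, δ (dt (X (Qp P) s) h) * δ (dt (X (Qp P) s') h) -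
        (4 * sig p d δ - δ 0 ^ 2 / 2)| ≤ 4 * δ 0 ^ 2 := by
    intro s hs
    rw [← Finset.add_sum_erase V _ (hU hs), sg_sq, one_mul]
    have e4 : ∑ h ∈ H, δ (dt (X (Qp P) s) h) * δ (dt (X (Qp P) s) h) =
        4 * sig p d δ - δ 0 ^ 2 / 2 := by
      rw [← hv1 _ (X_ne P h1 h2 s)]
      apply Finset.sum_congr rfl
      intro h _
      ring
    rw [e4, add_sub_cancel_left]
    refine le_trans (Finset.abs_sum_le_sum_abs _ _) ?_
    have e5 : ∀ s' ∈ V.erase s, |((ee et s : ℝ) * (ee et s' : ℝ)) *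
        ∑ h ∈ H, δ (dt (X (Qp P) s) h) * δ (dt (X (Qp P) s') h)| ≤ δ 0 ^ 2 / 2 := by
      intro s' hs'
      have hs2 := (Finset.mem_filter.1 hs).2 s' (Finset.ne_of_mem_erase hs')
      rw [hv2 _ _ (ind hp _ _ (X_ne P h1 h2 s) (X_ne P h1 h2 s') hs2), abs_mul, abs_mul, sg_abs,
        sg_abs, one_mul, one_mul, abs_div, abs_neg, abs_of_nonneg (sq_nonneg (δ 0)),
        abs_of_pos (by norm_num : (0 : ℝ) < 2)]
    refine le_trans (Finset.sum_le_sum e5) ?_
    rw [Finset.sum_const, nsmul_eq_mul]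
    have e6 : ((V.erase s).card : ℝ) ≤ 8 := by
      have := Finset.card_le_univ (V.erase s)
      simp only [Fintype.card_prod, Fintype.card_fin] at this
      exact_mod_cast this
    nlinarith [sq_nonneg (δ 0)]
  refine le_trans (Finset.sum_le_sum e3) ?_
  rw [Finset.sum_const, nsmul_eq_mul]
  have e6 : ((Sn P).card : ℝ) ≤ 8 := by
    have := Finset.card_le_univ (Sn P)
    simp only [Fintype.card_prod, Fintype.card_fin] at this
    exact_mod_cast this
  nlinarith [sq_nonneg (δ 0)]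

/-- Lower bound of the variance. -/
theorem low (hV : VAR_Stmt) [NeZero p] (hp : p.Prime) (hp2 : p ≠ 2) (H : Finset (G p d))
    (hH : Half H) (δ : ZMod p → ℝ) (hδ : EM δ) (hb : ∀ a, |δ a| ≤ 1 / 20)
    (P : (G p d × G p d × G p d) × (G p d × G p d × G p d)) (h1 : Gq P.1) (h2 : Gq P.2) :
    4 * ((Sn P).card : ℝ) * sig p d δ - 1 / 4 ≤ ∑ h ∈ H, DD δ P h ^ 2 := by
  have a1 := abs_le.1 (inn hV hp hp2 H hH δ hδ P h1 h2 univ (Finset.subset_univ _))
  have a2 := abs_le.1 (inn hV hp hp2 H hH δ hδ P h1 h2 (Sn P) (Finset.Subset.refl _))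
  obtain ⟨E, hE⟩ : ∃ E : G p d → ℝ, ∀ h, E h = ∑ s ∈ Sn P, (ee et s : ℝ) *
    δ (dt (X (Qp P) s) h) := ⟨_, fun _ => rfl⟩
  have a3 : ∑ h ∈ H, (2 * (E h * DD δ P h) - E h * E h) ≤ ∑ h ∈ H, DD δ P h ^ 2 := by
    apply Finset.sum_le_sum
    intro h _
    nlinarith [sq_nonneg (DD δ P h - E h)]
  rw [Finset.sum_sub_distrib, ← Finset.mul_sum] at a3
  have a4 : ∑ h ∈ H, E h * DD δ P h = ∑ h ∈ H, (∑ s ∈ Sn P, (ee et s : ℝ) *
      δ (dt (X (Qp P) s) h)) * (∑ s, (ee et s : ℝ) * δ (dt (X (Qp P) s) h)) :=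
    Finset.sum_congr rfl fun h _ => by rw [hE, DD]
  have a4' : ∑ h ∈ H, E h * E h = ∑ h ∈ H, (∑ s ∈ Sn P, (ee et s : ℝ) *
      δ (dt (X (Qp P) s) h)) * (∑ s ∈ Sn P, (ee et s : ℝ) * δ (dt (X (Qp P) s) h)) :=
    Finset.sum_congr rfl fun h _ => by rw [hE]
  rw [← a4] at a1
  rw [← a4'] at a2
  have e6 : ((Sn P).card : ℝ) ≤ 8 := by
    have := Finset.card_le_univ (Sn P)
    simp only [Fintype.card_prod, Fintype.card_fin] at this
    exact_mod_cast this
  have e7 : δ 0 ^ 2 ≤ 1 / 400 := by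
    have := hb 0
    rw [← sq_abs]
    nlinarith [abs_nonneg (δ 0)]
  have a5 := a1.1
  have a6 := a2.2
  nlinarith [sq_nonneg (δ 0)]

/-- The number of the lines. -/
theorem lines (P : (G p d × G p d × G p d) × (G p d × G p d × G p d)) :
    2 * Set.ncard ((fun s => Submodule.span (ZMod p) {X (Qp P) s}) '' (∅ : Set (Fin 2 × Fin 4))ᶜ) ≤
      8 + (Sn P).card := by
  classical
  have h0 : (fun s => Submodule.span (ZMod p) {X (Qp P) s}) '' (∅ : Set (Fin 2 × Fin 4))ᶜ =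
      ↑((univ : Finset (Fin 2 × Fin 4)).image fun s => Submodule.span (ZMod p) {X (Qp P) s}) := by
    simp
  rw [h0, Set.ncard_coe_finset]
  have h1 : (univ : Finset (Fin 2 × Fin 4)) = Sn P ∪ (univ \ Sn P) := by
    simp
  have h2 : 2 * ((univ \ Sn P).image fun s => Submodule.span (ZMod p) {X (Qp P) s}).card ≤
      (univ \ Sn P).card := by
    apply Finset.mul_card_image_le_card
    intro ℓ hℓ
    obtain ⟨s, hs, rfl⟩ := Finset.mem_image.1 hℓ
    have h3 : ∃ s', s' ≠ s ∧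
        Submodule.span (ZMod p) {X (Qp P) s'} = Submodule.span (ZMod p) {X (Qp P) s} := by
      by_contra hcon
      push Not at hcon
      apply (Finset.mem_sdiff.1 hs).2
      exact Finset.mem_filter.2 ⟨Finset.mem_univ _, hcon⟩
    obtain ⟨s', hne, hs'⟩ := h3
    have h4 : s' ∉ Sn P := by
      intro h
      exact (Finset.mem_filter.1 h).2 s (Ne.symm hne) hs'.symm
    have h5 : ({s, s'} : Finset (Fin 2 × Fin 4)) ⊆ (univ \ Sn P).filter fun x =>
        Submodule.span (ZMod p) {X (Qp P) x} = Submodule.span (ZMod p) {X (Qp P) s} := by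
      intro x hx
      rcases Finset.mem_insert.1 hx with rfl | hx
      · exact Finset.mem_filter.2 ⟨hs, rfl⟩
      · rw [Finset.mem_singleton.1 hx]
        exact Finset.mem_filter.2 ⟨Finset.mem_sdiff.2 ⟨Finset.mem_univ _, h4⟩, hs'⟩
    calc 2 = ({s, s'} : Finset (Fin 2 × Fin 4)).card := (Finset.card_pair (Ne.symm hne)).symm
      _ ≤ _ := Finset.card_le_card h5
  have h6 : (univ \ Sn P).card + (Sn P).card = 8 := by
    have := Finset.card_sdiff_add_card_eq_card (Finset.subset_univ (Sn P))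
    simpa using this
  have h7 : ((univ : Finset (Fin 2 × Fin 4)).image fun s =>
      Submodule.span (ZMod p) {X (Qp P) s}).card ≤ (Sn P).card +
        ((univ \ Sn P).image fun s => Submodule.span (ZMod p) {X (Qp P) s}).card := by
    conv_lhs => rw [h1]
    rw [Finset.image_union]
    refine le_trans (Finset.card_union_le _ _) ?_
    exact Nat.add_le_add_right Finset.card_image_le _
  omega

/-- The rank. -/
theorem rank (hG : GRD_Stmt) [NeZero p] (hp : p.Prime)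
    (P : (G p d × G p d × G p d) × (G p d × G p d × G p d)) (h1 : Gq P.1) (h2 : Gq P.2) :
    8 * rk (X (Qp P)) ≤ 24 + 3 * (Sn P).card := by
  have h3 := hG p d 2 hp (Qp P) (by
    intro i
    fin_cases i
    · exact h1
    · exact h2) ∅ (by
    intro s hs
    exact absurd hs (Set.notMem_empty s))
  have h5 : Fact (1 < p) := ⟨hp.one_lt⟩
  have h6 : Nontrivial (ZMod p) := ZMod.nontrivial p
  rw [Set.image_empty, Submodule.span_empty, finrank_bot] at h3
  have h4 := lines P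
  omega

theorem rk_le [NeZero p] (hp : p.Prime)
    (P : (G p d × G p d × G p d) × (G p d × G p d × G p d)) : rk (X (Qp P)) ≤ 8 := by
  have h1 : Fact (1 < p) := ⟨hp.one_lt⟩
  have h2 : Nontrivial (ZMod p) := ZMod.nontrivial p
  unfold rk
  have h3 : Set.finrank (ZMod p) (Set.range (X (Qp P))) ≤ Fintype.card (Fin 2 × Fin 4) :=
    finrank_range_le_card (X (Qp P))
  simpa [Set.finrank] using h3

/-- One pair. -/
theorem one (hC : COS_Stmt) (hV : VAR_Stmt) (hG : GRD_Stmt) [NeZero p] (hp : p.Prime)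
    (hp2 : p ≠ 2) (H : Finset (G p d)) (hH : Half H) (δ : ZMod p → ℝ) (hδ : EM δ)
    (hb : ∀ a, |δ a| ≤ 1 / 20) (hs : 76 / 100 * Real.log (nn p d) ≤ sig p d δ)
    (P : (G p d × G p d × G p d) × (G p d × G p d × G p d)) (h1 : Gq P.1) (h2 : Gq P.2) :
    ‖∑ A ∈ H.powerset, q4 (vd H A 0 δ) P.1 * (starRingEnd ℂ) (q4 (vd H A 0 δ) P.2)‖ ≤
      2 ^ H.card * (2 * (nn p d ^ 3 / nn p d ^ rk (X (Qp P)))) := by
  have hn : 1 ≤ nn p d := by
    unfold Pool.Agent.UAA.nn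
    exact one_le_pow₀ (by exact_mod_cast hp.one_lt.le)
  have e1 : ∀ A ∈ H.powerset, q4 (vd H A 0 δ) P.1 * (starRingEnd ℂ) (q4 (vd H A 0 δ) P.2) =
      Complex.exp (((∑ h ∈ H, ep A h * DD δ P h : ℝ) : ℂ) * Complex.I) := by
    intro A _
    rw [q4_vd H A δ P.1 h1, q4_vd H A δ P.2 h2, conj_exp, ← Complex.exp_add, ← gd_pair H A δ P]
    congr 1
    push_cast
    ring
  rw [Finset.sum_congr rfl e1, sum_A hC, norm_mul, norm_pow, Complex.norm_real, Real.norm_eq_abs]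
  have e2 : ‖(2 : ℂ)‖ = 2 := by simp
  rw [e2]
  apply mul_le_mul_of_nonneg_left _ (by positivity)
  refine le_trans (hC.2.2 (G p d) H (DD δ P) fun h _ => DD_le δ hb P h) ?_
  have e3 := low hV hp hp2 H hH δ hδ hb P h1 h2
  have e4 := rank hG hp P h1 h2
  have e5 : -(∑ h ∈ H, DD δ P h ^ 2) / 8 ≤
      1 / 32 + (-(((Sn P).card : ℝ) * (76 / 100 * Real.log (nn p d)) / 2)) := by
    have : ((Sn P).card : ℝ) * (76 / 100 * Real.log (nn p d)) ≤
        ((Sn P).card : ℝ) * sig p d δ := mul_le_mul_of_nonneg_left hs (Nat.cast_nonneg _)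
    linarith
  have hl : 0 ≤ Real.log (nn p d) := Real.log_nonneg hn
  have e6 : -(((Sn P).card : ℝ) * (76 / 100 * Real.log (nn p d)) / 2) ≤
      (3 - (rk (X (Qp P)) : ℝ)) * Real.log (nn p d) := by
    have e7 : (8 : ℝ) * (rk (X (Qp P)) : ℝ) ≤ 24 + 3 * ((Sn P).card : ℝ) := by exact_mod_cast e4
    have e8 : 0 ≤ ((Sn P).card : ℝ) := Nat.cast_nonneg _
    have e9 : 0 ≤ 3 - (rk (X (Qp P)) : ℝ) + ((Sn P).card : ℝ) * (38 / 100) := by linarith
    nlinarith [mul_nonneg e9 hl]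
  have e10 : Real.exp ((3 - (rk (X (Qp P)) : ℝ)) * Real.log (nn p d)) =
      nn p d ^ 3 / nn p d ^ rk (X (Qp P)) := by
    have hpos : 0 < nn p d := by linarith
    rw [sub_mul, Real.exp_sub, mul_comm (3 : ℝ), mul_comm ((rk (X (Qp P)) : ℝ)),
      ← Real.rpow_def_of_pos hpos, ← Real.rpow_def_of_pos hpos, Real.rpow_natCast]
    congr 1
    exact_mod_cast Real.rpow_natCast (nn p d) 3
  calc Real.exp (-(∑ h ∈ H, DD δ P h ^ 2) / 8)
      ≤ Real.exp (1 / 32 + (3 - (rk (X (Qp P)) : ℝ)) * Real.log (nn p d)) :=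
        Real.exp_le_exp.2 (by linarith)
    _ = Real.exp (1 / 32) * (nn p d ^ 3 / nn p d ^ rk (X (Qp P))) := by
        rw [Real.exp_add, e10]
    _ ≤ 2 * (nn p d ^ 3 / nn p d ^ rk (X (Qp P))) := by
        apply mul_le_mul_of_nonneg_right _ (by positivity)
        have := Real.exp_bound_div_one_sub_of_interval (x := 1 / 32) (by norm_num) (by norm_num)
        norm_num at this ⊢
        linarith

theorem Qp_inj : Function.Injective (Qp (p := p) (d := d)) := by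
  intro P P' h
  have h0 := congrFun h 0
  have h1 := congrFun h 1
  simp only [Qp, Matrix.cons_val_zero, Matrix.cons_val_one] at h0 h1
  exact Prod.ext h0 h1

end ZS4aux

open ZS4aux in
open Classical in
theorem t_ZS4 (hC : COS_Stmt) (hV : VAR_Stmt) (hG : GRD_Stmt) (hT : CTD_Stmt) : ZS4_Stmt := by
  intro p _ hp hp2
  refine ⟨9 * (2 ^ 6 * (p : ℝ) ^ 36 * 2), ?_⟩
  intro d H hH δ hδ hb hs
  have hn : 1 ≤ nn p d := by
    unfold Pool.Agent.UAA.nn
    exact one_le_pow₀ (by exact_mod_cast hp.one_lt.le)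
  have hpos : 0 < nn p d := by linarith
  obtain ⟨F, hF⟩ : ∃ F : Finset (G p d × G p d × G p d),
    F = (univ : Finset (G p d × G p d × G p d)).filter Gq := ⟨_, rfl⟩
  have hS : ∀ w : G p d → ℂ, ((‖S4 w‖ ^ 2 : ℝ) : ℂ) =
      ∑ P ∈ F ×ˢ F, q4 w P.1 * (starRingEnd ℂ) (q4 w P.2) := by
    intro w
    rw [Complex.ofReal_pow, ← Complex.mul_conj', Finset.sum_product]
    unfold S4
    rw [← hF, map_sum, Finset.sum_mul_sum]
  have e1 : ((∑ A ∈ H.powerset, ‖S4 (vd H A 0 δ)‖ ^ 2 : ℝ) : ℂ) =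
      ∑ P ∈ F ×ˢ F, ∑ A ∈ H.powerset,
        q4 (vd H A 0 δ) P.1 * (starRingEnd ℂ) (q4 (vd H A 0 δ) P.2) := by
    rw [Complex.ofReal_sum, Finset.sum_comm]
    exact Finset.sum_congr rfl fun A _ => hS _
  have e2 : ∑ A ∈ H.powerset, ‖S4 (vd H A 0 δ)‖ ^ 2 =
      ‖((∑ A ∈ H.powerset, ‖S4 (vd H A 0 δ)‖ ^ 2 : ℝ) : ℂ)‖ := by
    rw [Complex.norm_real, Real.norm_eq_abs, abs_of_nonneg]
    positivity
  rw [e2, e1]
  refine le_trans (norm_sum_le _ _) ?_
  have e3 : ∀ P ∈ F ×ˢ F, ‖∑ A ∈ H.powerset,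
      q4 (vd H A 0 δ) P.1 * (starRingEnd ℂ) (q4 (vd H A 0 δ) P.2)‖ ≤
        2 ^ H.card * (2 * (nn p d ^ 3 / nn p d ^ rk (X (Qp P)))) := by
    intro P hP
    obtain ⟨h1, h2⟩ := Finset.mem_product.1 hP
    rw [hF] at h1 h2
    exact one hC hV hG hp hp2 H hH δ hδ hb hs P (Finset.mem_filter.1 h1).2
      (Finset.mem_filter.1 h2).2
  refine le_trans (Finset.sum_le_sum e3) ?_
  rw [← Finset.mul_sum]
  apply mul_le_mul_of_nonneg_left _ (by positivity)
  rw [← Finset.sum_fiberwise_of_maps_to (t := Finset.range 9)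
    (g := fun P => rk (X (Qp P))) (fun P _ => Finset.mem_range.2 (by
      have := rk_le hp P
      omega))]
  have e4 : ∀ r ∈ Finset.range 9, ∑ P ∈ (F ×ˢ F).filter (fun P => rk (X (Qp P)) = r),
      2 * (nn p d ^ 3 / nn p d ^ rk (X (Qp P))) ≤
        (2 ^ 6 * (p : ℝ) ^ 36 * 2) * nn p d ^ 3 := by
    intro r _
    have e5 : ∀ P ∈ (F ×ˢ F).filter (fun P => rk (X (Qp P)) = r),
        2 * (nn p d ^ 3 / nn p d ^ rk (X (Qp P))) = 2 * (nn p d ^ 3 / nn p d ^ r) := by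
      intro P hP
      rw [(Finset.mem_filter.1 hP).2]
    rw [Finset.sum_congr rfl e5, Finset.sum_const, nsmul_eq_mul]
    have e6 : ((((F ×ˢ F).filter (fun P => rk (X (Qp P)) = r)).card : ℕ) : ℝ) ≤
        2 ^ 6 * (p : ℝ) ^ 36 * nn p d ^ r := by
      have e7 := hT p d 2 r hp
      norm_num at e7 ⊢
      refine le_trans ?_ e7
      rw [← Set.ncard_coe_finset, ← Set.ncard_image_of_injective _ Qp_inj]
      have e8 : Set.ncard (Qp '' ((↑((F ×ˢ F).filter (fun P => rk (X (Qp P)) = r)) : Set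
          ((G p d × G p d × G p d) × (G p d × G p d × G p d))))) ≤
          Set.ncard {Q : Fin 2 → G p d × G p d × G p d | rk (X Q) ≤ r} := by
        apply Set.ncard_le_ncard _ (Set.toFinite _)
        rintro Q ⟨P, hP, rfl⟩
        exact (Finset.mem_filter.1 (Finset.mem_coe.1 hP)).2.le
      exact_mod_cast e8
    calc ((((F ×ˢ F).filter (fun P => rk (X (Qp P)) = r)).card : ℕ) : ℝ) *
          (2 * (nn p d ^ 3 / nn p d ^ r))
        ≤ (2 ^ 6 * (p : ℝ) ^ 36 * nn p d ^ r) * (2 * (nn p d ^ 3 / nn p d ^ r)) :=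
          mul_le_mul_of_nonneg_right e6 (by positivity)
      _ = (2 ^ 6 * (p : ℝ) ^ 36 * 2) * nn p d ^ 3 := by
          field_simp
  refine le_trans (Finset.sum_le_sum e4) ?_
  rw [Finset.sum_const, Finset.card_range, nsmul_eq_mul]
  push_cast
  linarith

end Pool.Agent.UAB
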