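import Pool.Agent.UAB.St

/-!
# The second moment of the sum in the window `α = 0`
-/

set_option autoImplicit false

namespace Pool.Agent.UAB

open Finset
open Pool.Agent.UAA (G ch nn)

namespace ZT1aux

variable {p d : ℕ}

/-- The exponential of a centred sum. -/
noncomputable def cf (H A : Finset (G p d)) (D : G p d → ℝ) : ℂ :=
  Complex.exp (((∑ h ∈ H, ep A h * D h : ℝ) : ℂ) * Complex.I)

theorem cf_eq (H A : Finset (G p d)) (D : G p d → ℝ) :
    cf H A D = ∏ h ∈ H, (if h ∈ A then Complex.exp (((D h / 2 : ℝ) : ℂ) * Complex.I)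
      else Complex.exp (-(((D h / 2 : ℝ) : ℂ) * Complex.I))) := by
  unfold cf
  rw [Complex.ofReal_sum, Finset.sum_mul, Complex.exp_sum]
  apply Finset.prod_congr rfl
  intro h _
  unfold ep
  by_cases hh : h ∈ A
  · simp only [hh, if_true]
    congr 1
    push_cast
    ring
  · simp only [hh, if_false]
    congr 1
    push_cast
    ring

theorem sum_cf (hC : COS_Stmt) (H : Finset (G p d)) (D : G p d → ℝ) :
    ∑ A ∈ H.powerset, cf H A D =
      ((2 ^ H.card * ∏ h ∈ H, Real.cos (D h / 2) : ℝ) : ℂ) := by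
  have h1 := hC.1 (G p d) H (fun h => Complex.exp (((D h / 2 : ℝ) : ℂ) * Complex.I))
    (fun h => Complex.exp (-(((D h / 2 : ℝ) : ℂ) * Complex.I)))
  rw [Finset.sum_congr rfl fun A _ => cf_eq H A D]
  refine Eq.trans h1 ?_
  have h2 : ∀ h ∈ H, Complex.exp (((D h / 2 : ℝ) : ℂ) * Complex.I) +
      Complex.exp (-(((D h / 2 : ℝ) : ℂ) * Complex.I)) =
      2 * ((Real.cos (D h / 2) : ℝ) : ℂ) := by
    intro h _
    rw [Complex.ofReal_cos, Complex.two_cos]
    ring_nf
  rw [Finset.prod_congr rfl h2, Finset.prod_mul_distrib, Finset.prod_const]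
  push_cast
  rfl

theorem cf_mul_conj (H A : Finset (G p d)) (D D' : G p d → ℝ) :
    cf H A D * (starRingEnd ℂ) (cf H A D') = cf H A (fun h => D h - D' h) := by
  unfold cf
  rw [← Complex.exp_conj, ← Complex.exp_add]
  congr 1
  rw [map_mul, Complex.conj_ofReal, Complex.conj_I]
  simp only [mul_sub, Finset.sum_sub_distrib]
  push_cast
  ring

theorem norm_cf (H A : Finset (G p d)) (D : G p d → ℝ) : ‖cf H A D‖ = 1 := by
  unfold cf
  exact Complex.norm_exp_ofReal_mul_I _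

theorem vd_eq [NeZero p] (H A : Finset (G p d)) (δ : ZMod p → ℝ) {x : G p d} (hx : x ≠ 0) :
    vd H A 0 δ x = cf H A (fun h => δ (dt x h)) := by
  unfold vd up cf gd
  rw [if_neg hx]
  simp

/-- The sum over the pairs. -/
theorem pair_sum (hC : COS_Stmt) (H : Finset (G p d)) (D D' : G p d → ℝ) (m : ℝ) :
    ∑ A ∈ H.powerset, (cf H A D - (m : ℂ)) * (starRingEnd ℂ) (cf H A D' - (m : ℂ)) =
      ((2 ^ H.card * (∏ h ∈ H, Real.cos ((D h - D' h) / 2) - m * ∏ h ∈ H, Real.cos (D h / 2)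
        - m * ∏ h ∈ H, Real.cos (D' h / 2) + m ^ 2) : ℝ) : ℂ) := by
  have h1 : ∀ A ∈ H.powerset, (cf H A D - (m : ℂ)) * (starRingEnd ℂ) (cf H A D' - (m : ℂ)) =
      cf H A (fun h => D h - D' h) - m * cf H A D - m * cf H A (fun h => 0 - D' h) + m ^ 2 := by
    intro A _
    rw [← cf_mul_conj, ← cf_mul_conj]
    have h0 : cf H A (fun _ => 0) = 1 := by
      simp [cf]
    rw [h0, map_sub, Complex.conj_ofReal]
    ring
  rw [Finset.sum_congr rfl h1, Finset.sum_add_distrib, Finset.sum_sub_distrib,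
    Finset.sum_sub_distrib, ← Finset.mul_sum, ← Finset.mul_sum, sum_cf hC, sum_cf hC, sum_cf hC,
    Finset.sum_const, Finset.card_powerset]
  have h2 : ∏ h ∈ H, Real.cos ((0 - D' h) / 2) = ∏ h ∈ H, Real.cos (D' h / 2) := by
    apply Finset.prod_congr rfl
    intro h _
    rw [← Real.cos_neg]
    congr 1
    ring
  rw [h2, nsmul_eq_mul]
  push_cast
  ring

theorem norm_pair_sum (hC : COS_Stmt) (H : Finset (G p d)) (D D' : G p d → ℝ) (m : ℝ) :
    ‖∑ A ∈ H.powerset, (cf H A D - (m : ℂ)) * (starRingEnd ℂ) (cf H A D' - (m : ℂ))‖ =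
      2 ^ H.card * |∏ h ∈ H, Real.cos ((D h - D' h) / 2) - m * ∏ h ∈ H, Real.cos (D h / 2)
        - m * ∏ h ∈ H, Real.cos (D' h / 2) + m ^ 2| := by
  rw [pair_sum hC, Complex.norm_real, Real.norm_eq_abs, abs_mul, abs_of_pos (by positivity)]

theorem abs_prod_cos (H : Finset (G p d)) (D : G p d → ℝ) :
    |∏ h ∈ H, Real.cos (D h / 2)| ≤ 1 := by
  rw [Finset.abs_prod]
  exact Finset.prod_le_one (fun _ _ => abs_nonneg _) fun _ _ => Real.abs_cos_le_one _

/-- The second moment as a double sum. -/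
theorem second (H S : Finset (G p d)) (a : G p d → Finset (G p d) → ℂ) :
    ∑ A ∈ H.powerset, ‖∑ x ∈ S, a x A‖ ^ 2 ≤
      ∑ x ∈ S, ∑ y ∈ S, ‖∑ A ∈ H.powerset, a x A * (starRingEnd ℂ) (a y A)‖ := by
  have h1 : ((∑ A ∈ H.powerset, ‖∑ x ∈ S, a x A‖ ^ 2 : ℝ) : ℂ) =
      ∑ x ∈ S, ∑ y ∈ S, ∑ A ∈ H.powerset, a x A * (starRingEnd ℂ) (a y A) := by
    rw [Complex.ofReal_sum]
    have h2 : ∀ A ∈ H.powerset, ((‖∑ x ∈ S, a x A‖ ^ 2 : ℝ) : ℂ) =
        ∑ x ∈ S, ∑ y ∈ S, a x A * (starRingEnd ℂ) (a y A) := by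
      intro A _
      rw [← Complex.normSq_eq_norm_sq, ← Complex.mul_conj, map_sum, Finset.sum_mul_sum]
    rw [Finset.sum_congr rfl h2, Finset.sum_comm]
    apply Finset.sum_congr rfl
    intro x _
    rw [Finset.sum_comm]
  have h3 : ∑ A ∈ H.powerset, ‖∑ x ∈ S, a x A‖ ^ 2 =
      ‖((∑ A ∈ H.powerset, ‖∑ x ∈ S, a x A‖ ^ 2 : ℝ) : ℂ)‖ := by
    rw [Complex.norm_real, Real.norm_eq_abs, abs_of_nonneg]
    exact Finset.sum_nonneg fun _ _ => by positivity
  rw [h3, h1]
  refine le_trans (norm_sum_le _ _) ?_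
  exact Finset.sum_le_sum fun x _ => norm_sum_le _ _

end ZT1aux

open ZT1aux

theorem t_ZT1 (hC : COS_Stmt) (hV : VAR_Stmt) : ZT1_Stmt := by
  classical
  intro p _ hp hp2
  have : Fact p.Prime := ⟨hp⟩
  refine ⟨8 * p + 38, ?_⟩
  intro d H hH δ hδ D hD hD1
  obtain ⟨hV1, hV2⟩ := hV p d hp hp2 H hH δ hδ
  have hD0 : 0 ≤ D := le_trans (abs_nonneg _) (hD 0)
  have hp1 : (1 : ℝ) ≤ p := by exact_mod_cast hp.one_lt.le
  have hn1 : 1 ≤ nn p d := one_le_pow₀ hp1
  have hcard : (Fintype.card (G p d) : ℝ) = nn p d := by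
    simp [nn, G, ZMod.card]
  have hHn : (H.card : ℝ) ≤ nn p d := by
    rw [← hcard]
    exact_mod_cast Finset.card_le_univ H
  set σ := sig p d δ with hσ
  have hσ0 : 0 ≤ σ := by
    rw [hσ]
    unfold sig
    have : 0 ≤ ∑ a, δ a ^ 2 := Finset.sum_nonneg fun _ _ => sq_nonneg _
    have h2 : 0 ≤ nn p d := by linarith
    positivity
  set m := Real.exp (-σ / 2) with hm
  have hm0 : 0 < m := Real.exp_pos _
  have hm1 : m ≤ 1 := Real.exp_le_one_iff.2 (by linarith)
  set n := nn p d with hn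
  have hδ0 : δ 0 ^ 2 ≤ D ^ 2 := by
    rw [← sq_abs]
    exact pow_le_pow_left₀ (abs_nonneg _) (hD 0) 2
  -- one vector
  have hone : ∀ x : G p d, x ≠ 0 →
      |∏ h ∈ H, Real.cos (δ (dt x h) / 2) - m| ≤ n * D ^ 4 + D ^ 2 / 8 := by
    intro x hx
    have h1 := hC.2.1 (G p d) H (fun h => δ (dt x h)) (by
      intro h _
      refine le_trans (hD _) (by linarith))
    rw [hV1 x hx] at h1
    have h2 : ∑ h ∈ H, δ (dt x h) ^ 4 ≤ n * D ^ 4 := by
      calc ∑ h ∈ H, δ (dt x h) ^ 4 ≤ ∑ h ∈ H, D ^ 4 := by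
            apply Finset.sum_le_sum
            intro h _
            rw [← Even.pow_abs (by decide : Even 4)]
            exact pow_le_pow_left₀ (abs_nonneg _) (hD _) 4
        _ = H.card * D ^ 4 := by rw [Finset.sum_const, nsmul_eq_mul]
        _ ≤ n * D ^ 4 := mul_le_mul_of_nonneg_right hHn (by positivity)
    have h3 : Real.exp (-(4 * σ - δ 0 ^ 2 / 2) / 8) = m * Real.exp (δ 0 ^ 2 / 16) := by
      rw [hm, ← Real.exp_add]
      congr 1
      ring
    have h4 : |Real.exp (-(4 * σ - δ 0 ^ 2 / 2) / 8) - m| ≤ D ^ 2 / 8 := by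
      rw [h3]
      have h5 : 1 ≤ Real.exp (δ 0 ^ 2 / 16) := Real.one_le_exp (by positivity)
      have h6 : Real.exp (δ 0 ^ 2 / 16) - 1 ≤ 2 * (δ 0 ^ 2 / 16) := by
        have h7 : |δ 0 ^ 2 / 16| ≤ 1 := by
          rw [abs_of_nonneg (by positivity)]
          nlinarith
        have h8 := Real.abs_exp_sub_one_le h7
        rw [abs_of_nonneg (by linarith : 0 ≤ Real.exp (δ 0 ^ 2 / 16) - 1),
          abs_of_nonneg (by positivity : 0 ≤ δ 0 ^ 2 / 16)] at h8
        exact h8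
      have h9 : m * Real.exp (δ 0 ^ 2 / 16) - m = m * (Real.exp (δ 0 ^ 2 / 16) - 1) := by ring
      rw [h9, abs_of_nonneg (mul_nonneg hm0.le (by linarith))]
      calc m * (Real.exp (δ 0 ^ 2 / 16) - 1) ≤ 1 * (2 * (δ 0 ^ 2 / 16)) :=
            mul_le_mul hm1 h6 (by linarith) zero_le_one
        _ ≤ D ^ 2 / 8 := by linarith
    have h10 := abs_sub_le (∏ h ∈ H, Real.cos (δ (dt x h) / 2))
      (Real.exp (-(4 * σ - δ 0 ^ 2 / 2) / 8)) m
    linarith
  -- two vectors
  have htwo : ∀ x y : G p d, x ≠ 0 → y ≠ 0 → LinearIndependent (ZMod p) ![x, y] →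
      |∏ h ∈ H, Real.cos ((δ (dt x h) - δ (dt y h)) / 2) - m ^ 2| ≤ 16 * (n * D ^ 4) := by
    intro x y hx hy hxy
    have hb : ∀ h, |δ (dt x h) - δ (dt y h)| ≤ 2 * D := by
      intro h
      refine le_trans (abs_sub _ _) ?_
      linarith [hD (dt x h), hD (dt y h)]
    have h1 := hC.2.1 (G p d) H (fun h => δ (dt x h) - δ (dt y h)) (by
      intro h _
      refine le_trans (hb h) (by linarith))
    have hs : ∑ h ∈ H, (δ (dt x h) - δ (dt y h)) ^ 2 = 8 * σ := by
      have e1 : ∀ h ∈ H, (δ (dt x h) - δ (dt y h)) ^ 2 =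
          δ (dt x h) ^ 2 + δ (dt y h) ^ 2 - 2 * (δ (dt x h) * δ (dt y h)) := by
        intro h _
        ring
      rw [Finset.sum_congr rfl e1, Finset.sum_sub_distrib, Finset.sum_add_distrib,
        ← Finset.mul_sum, hV1 x hx, hV1 y hy, hV2 x y hxy]
      ring
    rw [hs] at h1
    have h2 : ∑ h ∈ H, (δ (dt x h) - δ (dt y h)) ^ 4 ≤ 16 * (n * D ^ 4) := by
      calc ∑ h ∈ H, (δ (dt x h) - δ (dt y h)) ^ 4 ≤ ∑ h ∈ H, (2 * D) ^ 4 := by
            apply Finset.sum_le_sum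
            intro h _
            rw [← Even.pow_abs (by decide : Even 4)]
            exact pow_le_pow_left₀ (abs_nonneg _) (hb _) 4
        _ = H.card * (16 * D ^ 4) := by rw [Finset.sum_const, nsmul_eq_mul]; ring
        _ ≤ n * (16 * D ^ 4) := mul_le_mul_of_nonneg_right hHn (by positivity)
        _ = 16 * (n * D ^ 4) := by ring
    have h3 : Real.exp (-(8 * σ) / 8) = m ^ 2 := by
      rw [hm, sq, ← Real.exp_add]
      congr 1
      ring
    rw [h3] at h1
    linarith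
  -- the pairs
  set B := 18 * (n * D ^ 4) + D ^ 2 / 4 with hB
  have hB0 : 0 ≤ B := by positivity
  set a : G p d → Finset (G p d) → ℂ := fun x A => cf H A (fun h => δ (dt x h)) - (m : ℂ)
    with ha
  set S := (univ : Finset (G p d)).erase 0 with hS
  have hpair : ∀ x ∈ S, ∀ y ∈ S,
      ‖∑ A ∈ H.powerset, a x A * (starRingEnd ℂ) (a y A)‖ ≤
        2 ^ H.card * B + if y ∈ (univ : Finset (ZMod p)).image (fun c => c • x) then
          2 ^ H.card * 4 else 0 := by
    intro x hx y hy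
    have hx0 : x ≠ 0 := (Finset.mem_erase.1 hx).1
    have hy0 : y ≠ 0 := (Finset.mem_erase.1 hy).1
    rw [ha]
    simp only
    rw [norm_pair_sum hC]
    split_ifs with hc
    · rw [← mul_add]
      apply mul_le_mul_of_nonneg_left _ (by positivity)
      have h1 := abs_prod_cos H (fun h => δ (dt x h) - δ (dt y h))
      have h2 := abs_prod_cos H (fun h => δ (dt x h))
      have h3 := abs_prod_cos H (fun h => δ (dt y h))
      rw [abs_le] at h1 h2 h3 ⊢
      constructor <;> nlinarith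
    · rw [add_zero]
      apply mul_le_mul_of_nonneg_left _ (by positivity)
      have hli : LinearIndependent (ZMod p) ![x, y] := by
        rw [LinearIndependent.pair_iff' hx0]
        intro c hcy
        exact hc (Finset.mem_image.2 ⟨c, Finset.mem_univ _, hcy⟩)
      have h1 := htwo x y hx0 hy0 hli
      have h2 := hone x hx0
      have h3 := hone y hy0
      have hnD : 0 ≤ n * D ^ 4 + D ^ 2 / 8 := by positivity
      have e1 : ∏ h ∈ H, Real.cos ((δ (dt x h) - δ (dt y h)) / 2) -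
          m * ∏ h ∈ H, Real.cos (δ (dt x h) / 2) - m * ∏ h ∈ H, Real.cos (δ (dt y h) / 2) +
            m ^ 2 = (∏ h ∈ H, Real.cos ((δ (dt x h) - δ (dt y h)) / 2) - m ^ 2) -
          m * (∏ h ∈ H, Real.cos (δ (dt x h) / 2) - m) -
            m * (∏ h ∈ H, Real.cos (δ (dt y h) / 2) - m) := by ring
      rw [e1]
      have h4 : |m * (∏ h ∈ H, Real.cos (δ (dt x h) / 2) - m)| ≤ n * D ^ 4 + D ^ 2 / 8 := by
        rw [abs_mul, abs_of_pos hm0]
        calc m * _ ≤ 1 * (n * D ^ 4 + D ^ 2 / 8) :=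
              mul_le_mul hm1 h2 (abs_nonneg _) zero_le_one
          _ = _ := one_mul _
      have h5 : |m * (∏ h ∈ H, Real.cos (δ (dt y h) / 2) - m)| ≤ n * D ^ 4 + D ^ 2 / 8 := by
        rw [abs_mul, abs_of_pos hm0]
        calc m * _ ≤ 1 * (n * D ^ 4 + D ^ 2 / 8) :=
              mul_le_mul hm1 h3 (abs_nonneg _) zero_le_one
          _ = _ := one_mul _
      rw [abs_le] at h1 h4 h5 ⊢
      rw [hB]
      constructor <;> linarith
  have hScard : (S.card : ℝ) ≤ n := by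
    rw [← hcard]
    exact_mod_cast Finset.card_le_univ S
  have hScard2 : (S.card : ℝ) = n - 1 := by
    rw [hS, Finset.card_erase_of_mem (Finset.mem_univ _), Finset.card_univ,
      Nat.cast_sub Fintype.card_pos, hcard]
    simp
  have hrow : ∀ x ∈ S, ∑ y ∈ S, ‖∑ A ∈ H.powerset, a x A * (starRingEnd ℂ) (a y A)‖ ≤
      2 ^ H.card * (n * B + 4 * p) := by
    intro x hx
    refine le_trans (Finset.sum_le_sum (hpair x hx)) ?_
    rw [Finset.sum_add_distrib, Finset.sum_const, nsmul_eq_mul, ← Finset.sum_filter,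
      Finset.sum_const, nsmul_eq_mul]
    have h1 : ((S.filter fun y => y ∈ (univ : Finset (ZMod p)).image (fun c => c • x)).card : ℝ)
        ≤ p := by
      have h2 : (S.filter fun y => y ∈ (univ : Finset (ZMod p)).image (fun c => c • x)).card ≤
          ((univ : Finset (ZMod p)).image (fun c => c • x)).card := by
        apply Finset.card_le_card
        intro y hy
        exact (Finset.mem_filter.1 hy).2
      have h3 := Finset.card_image_le (s := (univ : Finset (ZMod p))) (f := fun c => c • x)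
      rw [Finset.card_univ, ZMod.card] at h3
      exact_mod_cast h2.trans h3
    have h4 : (0 : ℝ) < 2 ^ H.card := by positivity
    have h5 : (S.card : ℝ) * (2 ^ H.card * B) ≤ n * (2 ^ H.card * B) :=
      mul_le_mul_of_nonneg_right hScard (by positivity)
    have h6 : ((S.filter fun y =>
        y ∈ (univ : Finset (ZMod p)).image (fun c => c • x)).card : ℝ) * (2 ^ H.card * 4) ≤
        p * (2 ^ H.card * 4) := mul_le_mul_of_nonneg_right h1 (by positivity)
    nlinarith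
  have hmain : ∑ A ∈ H.powerset, ‖∑ x ∈ S, a x A‖ ^ 2 ≤
      2 ^ H.card * (n * (n * B + 4 * p)) := by
    refine le_trans (second H S a) ?_
    refine le_trans (Finset.sum_le_sum hrow) ?_
    rw [Finset.sum_const, nsmul_eq_mul]
    have h1 : (0 : ℝ) ≤ 2 ^ H.card * (n * B + 4 * p) := by positivity
    calc (S.card : ℝ) * (2 ^ H.card * (n * B + 4 * p))
        ≤ n * (2 ^ H.card * (n * B + 4 * p)) := mul_le_mul_of_nonneg_right hScard h1
      _ = 2 ^ H.card * (n * (n * B + 4 * p)) := by ring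
  have hpt : ∀ A ∈ H.powerset, ‖T1 (vd H A 0 δ) - ((n * m : ℝ) : ℂ)‖ ^ 2 ≤
      2 * ‖∑ x ∈ S, a x A‖ ^ 2 + 2 := by
    intro A _
    have h1 : T1 (vd H A 0 δ) - ((n * m : ℝ) : ℂ) = ∑ x ∈ S, a x A - (m : ℂ) := by
      unfold T1
      rw [ha]
      simp only
      rw [Finset.sum_sub_distrib, Finset.sum_const, nsmul_eq_mul]
      have h2 : ∑ x ∈ (univ : Finset (G p d)).erase 0, vd H A 0 δ x =
          ∑ x ∈ S, cf H A (fun h => δ (dt x h)) := by
        rw [← hS]
        apply Finset.sum_congr rfl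
        intro x hx
        exact vd_eq H A δ (Finset.mem_erase.1 hx).1
      rw [h2]
      have h3 : (S.card : ℂ) = (n : ℂ) - 1 := by exact_mod_cast hScard2
      rw [h3]
      push_cast
      ring
    rw [h1]
    have h4 := norm_sub_le (∑ x ∈ S, a x A) (m : ℂ)
    rw [Complex.norm_real, Real.norm_eq_abs, abs_of_pos hm0] at h4
    have h5 : ‖∑ x ∈ S, a x A - (m : ℂ)‖ ≤ ‖∑ x ∈ S, a x A‖ + 1 := by linarith
    have h6 := norm_nonneg (∑ x ∈ S, a x A - (m : ℂ))
    have h7 := norm_nonneg (∑ x ∈ S, a x A)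
    nlinarith [sq_nonneg (‖∑ x ∈ S, a x A‖ - 1)]
  have hfin : ∑ A ∈ H.powerset, ‖T1 (vd H A 0 δ) - ((n * m : ℝ) : ℂ)‖ ^ 2 ≤
      2 * (2 ^ H.card * (n * (n * B + 4 * p))) + 2 ^ H.card * 2 := by
    refine le_trans (Finset.sum_le_sum hpt) ?_
    rw [Finset.sum_add_distrib, ← Finset.mul_sum, Finset.sum_const, Finset.card_powerset,
      nsmul_eq_mul]
    push_cast
    linarith
  refine le_trans hfin ?_
  have h4 : (0 : ℝ) < 2 ^ H.card := by positivity
  have h5 : 2 * (2 ^ H.card * (n * (n * B + 4 * p))) + 2 ^ H.card * 2 =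
      2 ^ H.card * (2 * (n * (n * B + 4 * p)) + 2) := by ring
  rw [h5]
  apply mul_le_mul_of_nonneg_left _ h4.le
  rw [hB]
  have e1 : 2 * (n * (n * (18 * (n * D ^ 4) + D ^ 2 / 4) + 4 * p)) + 2 =
      36 * (n ^ 3 * D ^ 4) + n ^ 2 * D ^ 2 / 2 + 8 * p * n + 2 := by ring
  rw [e1]
  have f1 : 0 ≤ n ^ 3 * D ^ 4 := by positivity
  have f2 : 0 ≤ n ^ 2 * D ^ 2 := by positivity
  have f3 : 0 ≤ (p : ℝ) * (n ^ 3 * D ^ 4) := by positivity
  have f4 : 0 ≤ (p : ℝ) * (n ^ 2 * D ^ 2) := by positivity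
  nlinarith

end Pool.Agent.UAB
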