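import Pool.Agent.UAB.ZS4

/-!
# Module ZWI: the uniform event in the window `α = 0`
-/

set_option autoImplicit false

namespace Pool.Agent.UAB

open Finset Filter Topology
open Pool.Agent.UAA (G ch nn)

namespace ZWIaux

variable {p d : ℕ}

/-- Interpolation of exponential sums. -/
theorem interp {K : ℕ} [NeZero p] (C : ℝ)
    (ℓ : (ZMod p → ℝ) → (ZMod p → Fin (K + 1)) → ℝ)
    (h : ∀ t : ZMod p → ℝ, (∀ i, 0 ≤ t i ∧ t i ≤ 1) → ∀ (lam : ZMod p → ℝ) (η : ℝ), 0 ≤ η →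
      η ≤ 1 → (∀ i, |lam i| ≤ η) →
      ‖Complex.exp (Complex.I * ((∑ i, lam i * t i : ℝ) : ℂ)) -
        ∑ ν, (ℓ t ν : ℂ) *
          Complex.exp (Complex.I * ((∑ i, lam i * ((ν i : ℕ) : ℝ) : ℝ) : ℂ))‖ ≤
        C * η ^ (K + 1))
    {β : Type} (F : Finset β) (μ : β → ZMod p → ℝ) (m : ZMod p → ℤ) (t : ZMod p → ℝ)
    (ht : ∀ i, 0 ≤ t i ∧ t i ≤ 1) (ρ η : ℝ) (hη0 : 0 ≤ η) (hη : η ≤ 1)
    (hμ : ∀ f ∈ F, ∀ a, |ρ * μ f a| ≤ η) (Sm : (ZMod p → ℝ) → ℂ)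
    (hS : ∀ z, Sm z = ∑ f ∈ F, Complex.exp (((∑ a, z a * μ f a : ℝ) : ℂ) * Complex.I)) :
    ‖Sm (fun a => ρ * ((m a : ℝ) + t a)) -
      ∑ ν : ZMod p → Fin (K + 1), (ℓ t ν : ℂ) * Sm (fun a => ρ * ((m a : ℝ) + ((ν a : ℕ) : ℝ)))‖ ≤
      (F.card : ℝ) * (C * η ^ (K + 1)) := by
  have e1 : Sm (fun a => ρ * ((m a : ℝ) + t a)) -
      ∑ ν : ZMod p → Fin (K + 1), (ℓ t ν : ℂ) * Sm (fun a => ρ * ((m a : ℝ) + ((ν a : ℕ) : ℝ))) =
      ∑ f ∈ F, Complex.exp (((∑ a, ρ * (m a : ℝ) * μ f a : ℝ) : ℂ) * Complex.I) *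
        (Complex.exp (Complex.I * ((∑ i, (ρ * μ f i) * t i : ℝ) : ℂ)) -
        ∑ ν, (ℓ t ν : ℂ) *
          Complex.exp (Complex.I * ((∑ i, (ρ * μ f i) * ((ν i : ℕ) : ℝ) : ℝ) : ℂ))) := by
    simp only [hS, Finset.mul_sum]
    rw [Finset.sum_comm, ← Finset.sum_sub_distrib]
    apply Finset.sum_congr rfl
    intro f _
    rw [mul_sub, Finset.mul_sum, ← Complex.exp_add]
    congr 1
    · congr 1
      push_cast
      rw [mul_comm Complex.I, ← add_mul, ← Finset.sum_add_distrib]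
      congr 1
      apply Finset.sum_congr rfl
      intro a _
      ring
    · apply Finset.sum_congr rfl
      intro ν _
      rw [mul_left_comm, ← Complex.exp_add]
      congr 2
      push_cast
      rw [mul_comm Complex.I, ← add_mul, ← Finset.sum_add_distrib]
      congr 1
      apply Finset.sum_congr rfl
      intro a _
      ring
  rw [e1]
  refine le_trans (norm_sum_le _ _) ?_
  have e2 : ∀ f ∈ F, ‖Complex.exp (((∑ a, ρ * (m a : ℝ) * μ f a : ℝ) : ℂ) * Complex.I) *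
        (Complex.exp (Complex.I * ((∑ i, (ρ * μ f i) * t i : ℝ) : ℂ)) -
        ∑ ν, (ℓ t ν : ℂ) *
          Complex.exp (Complex.I * ((∑ i, (ρ * μ f i) * ((ν i : ℕ) : ℝ) : ℝ) : ℂ)))‖ ≤
      C * η ^ (K + 1) := by
    intro f hf
    rw [norm_mul, Complex.norm_exp_ofReal_mul_I, one_mul]
    exact h t ht (fun i => ρ * μ f i) η hη0 hη (hμ f hf)
  refine le_trans (Finset.sum_le_sum e2) ?_
  rw [Finset.sum_const, nsmul_eq_mul]

theorem dz_le [NeZero p] (z : ZMod p → ℝ) (M : ℝ) (hM : ∀ a, |z a| ≤ M) (a : ZMod p) :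
    |dz z a| ≤ 4 * M := by
  have hp : (0 : ℝ) < p := by exact_mod_cast Nat.pos_of_ne_zero (NeZero.ne p)
  have h1 : |∑ b, z b| ≤ p * M := by
    refine le_trans (Finset.abs_sum_le_sum_abs _ _) ?_
    refine le_trans (Finset.sum_le_sum fun b _ => hM b) ?_
    rw [Finset.sum_const, nsmul_eq_mul, Finset.card_univ, ZMod.card]
  have h2 : |2 / (p : ℝ) * ∑ b, z b| ≤ 2 * M := by
    rw [abs_mul, abs_of_nonneg (by positivity)]
    calc 2 / (p : ℝ) * |∑ b, z b| ≤ 2 / (p : ℝ) * (p * M) :=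
          mul_le_mul_of_nonneg_left h1 (by positivity)
      _ = 2 * M := by field_simp
  have h3 := abs_le.1 h2
  have h4 := abs_le.1 (hM a)
  have h5 := abs_le.1 (hM (-a))
  unfold dz
  rw [abs_le]
  constructor <;> linarith

theorem dz_sub [NeZero p] (z z' : ZMod p → ℝ) (a : ZMod p) :
    dz z a - dz z' a = dz (fun b => z b - z' b) a := by
  unfold dz
  rw [Finset.sum_sub_distrib]
  ring

/-- `T1` as an exponential sum. -/
theorem T1_eq [NeZero p] (H A : Finset (G p d)) (μ : G p d → ZMod p → ℝ)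
    (hμ : ∀ (z : ZMod p → ℝ) (x : G p d), x ≠ 0 → gd H A (dz z) x = ∑ a, z a * μ x a)
    (z : ZMod p → ℝ) :
    T1 (vd H A 0 (dz z)) = ∑ x ∈ (univ : Finset (G p d)).erase 0,
      Complex.exp (((∑ a, z a * μ x a : ℝ) : ℂ) * Complex.I) := by
  unfold T1
  apply Finset.sum_congr rfl
  intro x hx
  rw [ZS4aux.vd0 _ _ _ _ (Finset.ne_of_mem_erase hx), hμ z x (Finset.ne_of_mem_erase hx)]

open Classical in
/-- `S4` as an exponential sum. -/
theorem S4_eq [NeZero p] (H A : Finset (G p d)) (μ : G p d → ZMod p → ℝ)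
    (hμ : ∀ (z : ZMod p → ℝ) (x : G p d), x ≠ 0 → gd H A (dz z) x = ∑ a, z a * μ x a)
    (z : ZMod p → ℝ) :
    S4 (vd H A 0 (dz z)) = ∑ t ∈ (univ : Finset (G p d × G p d × G p d)).filter Gq,
      Complex.exp (((∑ a, z a * ∑ j, (sg j : ℝ) * μ (vec t j) a : ℝ) : ℂ) * Complex.I) := by
  unfold S4
  apply Finset.sum_congr rfl
  intro t ht
  have ht := (Finset.mem_filter.1 ht).2
  rw [ZS4aux.q4_vd _ _ _ _ ht]
  obtain ⟨h1, h2, h3, h4, -⟩ := ht
  have h5 : ∀ j, vec t j ≠ 0 := by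
    intro j
    fin_cases j <;> simpa [vec]
  congr 3
  simp only [Finset.mul_sum]
  rw [Finset.sum_comm]
  apply Finset.sum_congr rfl
  intro j _
  rw [hμ z _ (h5 j), Finset.mul_sum]
  apply Finset.sum_congr rfl
  intro a _
  ring

/-- The difference of two variances. -/
theorem sig_sub [NeZero p] (δ δ' : ZMod p → ℝ) (κ D : ℝ) (h1 : ∀ a, |δ' a - δ a| ≤ κ)
    (h2 : ∀ a, |δ' a + δ a| ≤ D) :
    |sig p d δ' - sig p d δ| ≤ nn p d * (κ * D) / 8 := by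
  have hp : (0 : ℝ) < p := by exact_mod_cast Nat.pos_of_ne_zero (NeZero.ne p)
  have hn : 0 ≤ nn p d := by
    unfold Pool.Agent.UAA.nn
    positivity
  have e1 : sig p d δ' - sig p d δ =
      nn p d / (8 * p) * ∑ a, (δ' a - δ a) * (δ' a + δ a) := by
    unfold sig
    rw [← mul_sub, ← Finset.sum_sub_distrib]
    congr 1
    apply Finset.sum_congr rfl
    intro a _
    ring
  have e2 : |∑ a, (δ' a - δ a) * (δ' a + δ a)| ≤ p * (κ * D) := by
    refine le_trans (Finset.abs_sum_le_sum_abs _ _) ?_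
    have e3 : ∀ a ∈ (univ : Finset (ZMod p)), |(δ' a - δ a) * (δ' a + δ a)| ≤ κ * D := by
      intro a _
      rw [abs_mul]
      exact mul_le_mul (h1 a) (h2 a) (abs_nonneg _) (le_trans (abs_nonneg _) (h1 a))
    refine le_trans (Finset.sum_le_sum e3) ?_
    rw [Finset.sum_const, nsmul_eq_mul, Finset.card_univ, ZMod.card]
  rw [e1, abs_mul, abs_of_nonneg (by positivity : 0 ≤ nn p d / (8 * p))]
  calc nn p d / (8 * p) * |∑ a, (δ' a - δ a) * (δ' a + δ a)|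
      ≤ nn p d / (8 * p) * (p * (κ * D)) := mul_le_mul_of_nonneg_left e2 (by positivity)
    _ = nn p d * (κ * D) / 8 := by
        field_simp

/-- The deterministic part. -/
theorem det [NeZero p] (C : ℝ) {K : ℕ} (CI : ℝ) (hCI : 0 ≤ CI)
    (ℓ : (ZMod p → ℝ) → (ZMod p → Fin (K + 1)) → ℝ)
    (hℓ : ∀ t : ZMod p → ℝ, (∀ i, 0 ≤ t i ∧ t i ≤ 1) → ∀ (lam : ZMod p → ℝ) (η : ℝ), 0 ≤ η →
      η ≤ 1 → (∀ i, |lam i| ≤ η) →
      ‖Complex.exp (Complex.I * ((∑ i, lam i * t i : ℝ) : ℂ)) -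
        ∑ ν, (ℓ t ν : ℂ) *
          Complex.exp (Complex.I * ((∑ i, lam i * ((ν i : ℕ) : ℝ) : ℝ) : ℂ))‖ ≤
        CI * η ^ (K + 1))
    (H A : Finset (G p d)) (μ : G p d → ZMod p → ℝ) (W : ℝ)
    (hμb : ∀ x, x ≠ 0 → ∀ a, |μ x a| ≤ 6 * W)
    (hμ : ∀ (z : ZMod p → ℝ) (x : G p d), x ≠ 0 → gd H A (dz z) x = ∑ a, z a * μ x a)
    (hdz : ∀ δ : ZMod p → ℝ, EM δ → dz (fun a => δ a / 2) = δ)
    (Λ : ℝ) (hΛ : ∀ t : ZMod p → ℝ, (∀ i, 0 ≤ t i ∧ t i ≤ 1) → ∑ ν, |ℓ t ν| ≤ Λ)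
    (hΛ1 : 1 ≤ Λ) (ρ η ε R : ℝ) (hρ : 0 < ρ) (h24 : ρ * (24 * W) ≤ η) (hη0 : 0 ≤ η)
    (hη : η ≤ 1) (hn : 1 ≤ nn p d) (hcube : nn p d ^ 3 * (CI * η ^ (K + 1)) ≤ 1)
    (hclose : 4 * ((K : ℝ) + 1) * ρ ≤ rn C p d)
    (hR : rn C p d / (2 * ρ) + ((K : ℝ) + 1) ≤ R)
    (hε : 3 / 2 * (nn p d * ρ * ((K : ℝ) + 1) * rn C p d) ≤ ε) (hε1 : Λ * ε ≤ 1 / 4)
    (hε2 : ε ≤ 1 / 100 * Real.log (nn p d))
    (h6 : Λ * nn p d ^ (3 / 5 : ℝ) + 1 + 2 * √(nn p d) ≤ 3 / 4 * nn p d ^ (615 / 1000 : ℝ))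
    (h7 : nn p d ^ 2 / 8 + 1 ≤ nn p d ^ 2 / 4)
    (hnode : ∀ m : ZMod p → ℤ, (∀ a, |(m a : ℝ)| ≤ R) →
      (∀ a, |dz (fun b => ρ * (m b : ℝ)) a| ≤ 2 * rn C p d) →
      ‖T1 (vd H A 0 (dz fun b => ρ * (m b : ℝ))) -
        ((nn p d * Real.exp (-sig p d (dz fun b => ρ * (m b : ℝ)) / 2) : ℝ) : ℂ)‖ ≤
          nn p d ^ (3 / 5 : ℝ) ∧
      (76 / 100 * Real.log (nn p d) ≤ sig p d (dz fun b => ρ * (m b : ℝ)) →
        ‖S4 (vd H A 0 (dz fun b => ρ * (m b : ℝ)))‖ ≤ nn p d ^ 2 / (8 * Λ))) :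
    WZ C H A := by
  classical
  intro δ hδ hb
  have hpos : 0 < nn p d := by linarith
  obtain ⟨z, hz⟩ : ∃ z : ZMod p → ℝ, z = fun a => δ a / 2 := ⟨_, rfl⟩
  have hdzz : dz z = δ := by rw [hz, hdz δ hδ]
  obtain ⟨m, hm⟩ : ∃ m : ZMod p → ℤ, m = fun a => ⌊z a / ρ⌋ := ⟨_, rfl⟩
  obtain ⟨t, htd⟩ : ∃ t : ZMod p → ℝ, t = fun a => Int.fract (z a / ρ) := ⟨_, rfl⟩
  have ht : ∀ i, 0 ≤ t i ∧ t i ≤ 1 := by
    intro i
    rw [htd]
    exact ⟨Int.fract_nonneg _, (Int.fract_lt_one _).le⟩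
  have hzmt : (fun a => ρ * ((m a : ℝ) + t a)) = z := by
    funext a
    rw [hm, htd]
    simp only [Int.floor_add_fract]
    field_simp
  have hnd : ∀ ν : ZMod p → Fin (K + 1), (fun a => ρ * ((m a : ℝ) + ((ν a : ℕ) : ℝ))) =
      fun a => ρ * ((m a + ((ν a : ℕ) : ℤ) : ℤ) : ℝ) := by
    intro ν
    funext a
    push_cast
    ring
  have hdist : ∀ (ν : ZMod p → Fin (K + 1)) (a : ZMod p),
      |ρ * ((m a + ((ν a : ℕ) : ℤ) : ℤ) : ℝ) - z a| ≤ ρ * ((K : ℝ) + 1) := by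
    intro ν a
    have e1 : ρ * ((m a + ((ν a : ℕ) : ℤ) : ℤ) : ℝ) - z a = ρ * (((ν a : ℕ) : ℝ) - t a) := by
      rw [← congrFun hzmt a]
      push_cast
      ring
    rw [e1, abs_mul, abs_of_pos hρ]
    apply mul_le_mul_of_nonneg_left _ hρ.le
    have e2 : ((ν a : ℕ) : ℝ) ≤ K := by exact_mod_cast Nat.lt_succ_iff.1 (ν a).2
    have e3 : (0 : ℝ) ≤ ((ν a : ℕ) : ℝ) := Nat.cast_nonneg _
    have e4 := ht a
    have e5 : (0 : ℝ) ≤ K := Nat.cast_nonneg _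
    rw [abs_le]
    constructor <;> linarith
  have hδd : ∀ (ν : ZMod p → Fin (K + 1)) (a : ZMod p),
      |dz (fun b => ρ * ((m b + ((ν b : ℕ) : ℤ) : ℤ) : ℝ)) a - δ a| ≤ 4 * (ρ * ((K : ℝ) + 1)) := by
    intro ν a
    rw [← hdzz, dz_sub]
    exact dz_le _ _ (hdist ν) a
  have hδ2 : ∀ (ν : ZMod p → Fin (K + 1)) (a : ZMod p),
      |dz (fun b => ρ * ((m b + ((ν b : ℕ) : ℤ) : ℤ) : ℝ)) a| ≤ 2 * rn C p d := by
    intro ν a
    have e1 := abs_le.1 (hδd ν a)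
    have e2 := abs_le.1 (hb a)
    rw [abs_le]
    constructor <;> linarith
  have hRm : ∀ (ν : ZMod p → Fin (K + 1)) (a : ZMod p),
      |((m a + ((ν a : ℕ) : ℤ) : ℤ) : ℝ)| ≤ R := by
    intro ν a
    refine le_trans ?_ hR
    have e1 := abs_le.1 (hdist ν a)
    have e2 := abs_le.1 (hb a)
    have e3 : z a = δ a / 2 := by rw [hz]
    have e4 : ρ * |((m a + ((ν a : ℕ) : ℤ) : ℤ) : ℝ)| ≤ rn C p d / 2 + ρ * ((K : ℝ) + 1) := by
      rw [← abs_of_pos hρ, ← abs_mul, abs_of_pos hρ, abs_le]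
      constructor <;> linarith
    have e5 : |((m a + ((ν a : ℕ) : ℤ) : ℤ) : ℝ)| =
        (ρ * |((m a + ((ν a : ℕ) : ℤ) : ℤ) : ℝ)|) / ρ := by
      field_simp
    rw [e5]
    calc (ρ * |((m a + ((ν a : ℕ) : ℤ) : ℤ) : ℝ)|) / ρ
        ≤ (rn C p d / 2 + ρ * ((K : ℝ) + 1)) / ρ := div_le_div_of_nonneg_right e4 hρ.le
      _ = rn C p d / (2 * ρ) + ((K : ℝ) + 1) := by
          field_simp
  have hsig : ∀ ν : ZMod p → Fin (K + 1),
      |sig p d (dz (fun b => ρ * ((m b + ((ν b : ℕ) : ℤ) : ℤ) : ℝ))) - sig p d δ| ≤ ε := by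
    intro ν
    refine le_trans (sig_sub δ _ (4 * (ρ * ((K : ℝ) + 1))) (3 * rn C p d) (hδd ν) ?_) ?_
    · intro a
      have e1 := abs_le.1 (hδ2 ν a)
      have e2 := abs_le.1 (hb a)
      rw [abs_le]
      constructor <;> linarith
    · refine le_trans (le_of_eq ?_) hε
      ring
  have hN := fun ν : ZMod p → Fin (K + 1) => hnode _ (hRm ν) (hδ2 ν)
  have hsum1 : ∑ ν, (ℓ t ν : ℂ) = 1 := by
    have e1 := hℓ t ht (fun _ => 0) 0 le_rfl zero_le_one (fun i => by simp)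
    have e2 : CI * (0 : ℝ) ^ (K + 1) = 0 := by
      rw [zero_pow (Nat.succ_ne_zero K), mul_zero]
    rw [e2] at e1
    have e3 := norm_le_zero_iff.1 e1
    simp only [zero_mul, Finset.sum_const_zero, Complex.ofReal_zero, mul_zero, Complex.exp_zero,
      mul_one] at e3
    exact (sub_eq_zero.1 e3).symm
  have hε0 : 0 ≤ ε := le_trans (abs_nonneg _) (hsig (fun _ => 0))
  constructor
  · intro hs
    have i1 := interp CI ℓ hℓ ((univ : Finset (G p d)).erase 0) μ m t ht ρ η hη0 hη (by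
      intro x hx a
      rw [abs_mul, abs_of_pos hρ]
      have := hμb x (Finset.ne_of_mem_erase hx) a
      have hW : 0 ≤ 6 * W := le_trans (abs_nonneg _) this
      refine le_trans (mul_le_mul_of_nonneg_left this hρ.le) (le_trans ?_ h24)
      apply mul_le_mul_of_nonneg_left _ hρ.le
      linarith) (fun z => T1 (vd H A 0 (dz z))) (T1_eq H A μ hμ)
    simp only [hzmt, hnd, hdzz] at i1
    have hcard : ((((univ : Finset (G p d)).erase 0).card : ℕ) : ℝ) ≤ nn p d := by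
      have e1 : ((univ : Finset (G p d)).erase 0).card ≤ p ^ d := by
        refine le_trans (Finset.card_le_univ _) ?_
        simp [ZMod.card]
      unfold Pool.Agent.UAA.nn
      exact_mod_cast e1
    have i2 : (((((univ : Finset (G p d)).erase 0).card : ℕ) : ℝ)) * (CI * η ^ (K + 1)) ≤ 1 := by
      refine le_trans (mul_le_mul_of_nonneg_right hcard (by positivity)) (le_trans ?_ hcube)
      apply mul_le_mul_of_nonneg_right _ (by positivity)
      exact le_self_pow₀ hn (by norm_num)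
    have i3 := le_trans i1 i2
    have i4 : ‖∑ ν, (ℓ t ν : ℂ) * T1 (vd H A 0 (dz fun b => ρ * ((m b + ((ν b : ℕ) : ℤ) : ℤ) : ℝ)))
        - ((nn p d * Real.exp (-sig p d δ / 2) : ℝ) : ℂ)‖ ≤
        Λ * (nn p d ^ (3 / 5 : ℝ) + nn p d * Real.exp (-sig p d δ / 2) * ε) := by
      have j1 : ∑ ν, (ℓ t ν : ℂ) *
          T1 (vd H A 0 (dz fun b => ρ * ((m b + ((ν b : ℕ) : ℤ) : ℤ) : ℝ)))
          - ((nn p d * Real.exp (-sig p d δ / 2) : ℝ) : ℂ) =
          ∑ ν, (ℓ t ν : ℂ) *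
            (T1 (vd H A 0 (dz fun b => ρ * ((m b + ((ν b : ℕ) : ℤ) : ℤ) : ℝ))) -
              ((nn p d * Real.exp (-sig p d δ / 2) : ℝ) : ℂ)) := by
        simp only [mul_sub]
        rw [Finset.sum_sub_distrib, ← Finset.sum_mul, hsum1, one_mul]
      rw [j1]
      refine le_trans (norm_sum_le _ _) ?_
      have j2 : ∀ ν ∈ (univ : Finset (ZMod p → Fin (K + 1))), ‖(ℓ t ν : ℂ) *
            (T1 (vd H A 0 (dz fun b => ρ * ((m b + ((ν b : ℕ) : ℤ) : ℤ) : ℝ))) -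
              ((nn p d * Real.exp (-sig p d δ / 2) : ℝ) : ℂ))‖ ≤
          |ℓ t ν| * (nn p d ^ (3 / 5 : ℝ) + nn p d * Real.exp (-sig p d δ / 2) * ε) := by
        intro ν _
        rw [norm_mul, Complex.norm_real, Real.norm_eq_abs]
        apply mul_le_mul_of_nonneg_left _ (abs_nonneg _)
        have j3 := (hN ν).1
        obtain ⟨s', hs'⟩ : ∃ s' : ℝ,
          s' = sig p d (dz (fun b => ρ * ((m b + ((ν b : ℕ) : ℤ) : ℤ) : ℝ))) := ⟨_, rfl⟩
        have j4 := hsig ν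
        rw [← hs'] at j3 j4
        have j5 : |Real.exp (-(s' - sig p d δ) / 2) - 1| ≤ ε := by
          have j6 : |-(s' - sig p d δ) / 2| ≤ ε / 2 := by
            rw [abs_div, abs_neg, abs_of_pos (by norm_num : (0 : ℝ) < 2)]
            linarith
          have j7 : ε ≤ 1 := by nlinarith
          have j8 := Real.abs_exp_sub_one_le (x := -(s' - sig p d δ) / 2) (by linarith)
          linarith
        have j9 : nn p d * Real.exp (-s' / 2) - nn p d * Real.exp (-sig p d δ / 2) =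
            nn p d * Real.exp (-sig p d δ / 2) * (Real.exp (-(s' - sig p d δ) / 2) - 1) := by
          have : Real.exp (-s' / 2) =
              Real.exp (-sig p d δ / 2) * Real.exp (-(s' - sig p d δ) / 2) := by
            rw [← Real.exp_add]
            congr 1
            ring
          rw [this]
          ring
        have j10 : ‖((nn p d * Real.exp (-s' / 2) : ℝ) : ℂ) -
            ((nn p d * Real.exp (-sig p d δ / 2) : ℝ) : ℂ)‖ ≤
              nn p d * Real.exp (-sig p d δ / 2) * ε := by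
          rw [← Complex.ofReal_sub, j9, Complex.norm_real, Real.norm_eq_abs, abs_mul,
            abs_of_nonneg (by positivity : 0 ≤ nn p d * Real.exp (-sig p d δ / 2))]
          exact mul_le_mul_of_nonneg_left j5 (by positivity)
        calc ‖T1 (vd H A 0 (dz fun b => ρ * ((m b + ((ν b : ℕ) : ℤ) : ℤ) : ℝ))) -
              ((nn p d * Real.exp (-sig p d δ / 2) : ℝ) : ℂ)‖
            = ‖(T1 (vd H A 0 (dz fun b => ρ * ((m b + ((ν b : ℕ) : ℤ) : ℤ) : ℝ))) -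
                ((nn p d * Real.exp (-s' / 2) : ℝ) : ℂ)) +
                (((nn p d * Real.exp (-s' / 2) : ℝ) : ℂ) -
                ((nn p d * Real.exp (-sig p d δ / 2) : ℝ) : ℂ))‖ := by
              congr 1
              ring
          _ ≤ _ := norm_add_le _ _
          _ ≤ _ := add_le_add j3 j10
      refine le_trans (Finset.sum_le_sum j2) ?_
      rw [← Finset.sum_mul]
      exact mul_le_mul_of_nonneg_right (hΛ t ht) (by positivity)
    have i5 : nn p d ^ (615 / 1000 : ℝ) ≤ nn p d * Real.exp (-sig p d δ / 2) := by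
      have j1 : nn p d * Real.exp (-(77 / 100 * Real.log (nn p d)) / 2) =
          nn p d ^ (615 / 1000 : ℝ) := by
        rw [Real.rpow_def_of_pos hpos]
        nth_rw 1 [← Real.exp_log hpos]
        rw [← Real.exp_add]
        congr 1
        ring
      rw [← j1]
      apply mul_le_mul_of_nonneg_left _ hpos.le
      apply Real.exp_le_exp.2
      linarith
    have i6 : nn p d * Real.exp (-sig p d δ / 2) ≤ ‖T1 (vd H A 0 δ)‖ + 1 +
        Λ * (nn p d ^ (3 / 5 : ℝ) + nn p d * Real.exp (-sig p d δ / 2) * ε) := by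
      have j1 : nn p d * Real.exp (-sig p d δ / 2) =
          ‖((nn p d * Real.exp (-sig p d δ / 2) : ℝ) : ℂ)‖ := by
        rw [Complex.norm_real, Real.norm_eq_abs, abs_of_nonneg (by positivity)]
      have j2 : ((nn p d * Real.exp (-sig p d δ / 2) : ℝ) : ℂ) = T1 (vd H A 0 δ) -
          (T1 (vd H A 0 δ) - ∑ ν, (ℓ t ν : ℂ) *
            T1 (vd H A 0 (dz fun b => ρ * ((m b + ((ν b : ℕ) : ℤ) : ℤ) : ℝ)))) -
          (∑ ν, (ℓ t ν : ℂ) *
            T1 (vd H A 0 (dz fun b => ρ * ((m b + ((ν b : ℕ) : ℤ) : ℤ) : ℝ))) -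
            ((nn p d * Real.exp (-sig p d δ / 2) : ℝ) : ℂ)) := by ring
      have j3 := norm_sub_le (T1 (vd H A 0 δ) -
          (T1 (vd H A 0 δ) - ∑ ν, (ℓ t ν : ℂ) *
            T1 (vd H A 0 (dz fun b => ρ * ((m b + ((ν b : ℕ) : ℤ) : ℤ) : ℝ)))))
          (∑ ν, (ℓ t ν : ℂ) *
            T1 (vd H A 0 (dz fun b => ρ * ((m b + ((ν b : ℕ) : ℤ) : ℤ) : ℝ))) -
            ((nn p d * Real.exp (-sig p d δ / 2) : ℝ) : ℂ))
      have j4 := norm_sub_le (T1 (vd H A 0 δ))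
          (T1 (vd H A 0 δ) - ∑ ν, (ℓ t ν : ℂ) *
            T1 (vd H A 0 (dz fun b => ρ * ((m b + ((ν b : ℕ) : ℤ) : ℤ) : ℝ))))
      rw [← j2, ← j1] at j3
      linarith
    have i7 : Λ * (nn p d * Real.exp (-sig p d δ / 2) * ε) ≤
        1 / 4 * (nn p d * Real.exp (-sig p d δ / 2)) := by
      have : 0 ≤ nn p d * Real.exp (-sig p d δ / 2) := by positivity
      nlinarith
    nlinarith
  · intro hs
    have hcard : (((((univ : Finset (G p d × G p d × G p d)).filter Gq).card : ℕ)) : ℝ) ≤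
        nn p d ^ 3 := by
      have e1 : ((univ : Finset (G p d × G p d × G p d)).filter Gq).card ≤
          p ^ d * (p ^ d * p ^ d) := by
        refine le_trans (Finset.card_le_univ _) ?_
        simp [ZMod.card]
      have e2 : nn p d ^ 3 = ((p ^ d * (p ^ d * p ^ d) : ℕ) : ℝ) := by
        unfold Pool.Agent.UAA.nn
        push_cast
        ring
      rw [e2]
      exact_mod_cast e1
    have i1 := interp CI ℓ hℓ ((univ : Finset (G p d × G p d × G p d)).filter Gq)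
      (fun t a => ∑ j, (sg j : ℝ) * μ (vec t j) a) m t ht ρ η hη0 hη (by
      intro q hq a
      have hq2 := (Finset.mem_filter.1 hq).2
      obtain ⟨h1, h2, h3, h4, -⟩ := hq2
      have h5 : ∀ j, vec q j ≠ 0 := by
        intro j
        fin_cases j <;> simpa [vec]
      rw [abs_mul, abs_of_pos hρ]
      refine le_trans (mul_le_mul_of_nonneg_left ?_ hρ.le) h24
      refine le_trans (Finset.abs_sum_le_sum_abs _ _) ?_
      have h6 : ∀ j ∈ (univ : Finset (Fin 4)), |(sg j : ℝ) * μ (vec q j) a| ≤ 6 * W := by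
        intro j _
        have h7 : |(sg j : ℝ)| = 1 := by
          fin_cases j <;> simp [sg]
        rw [abs_mul, h7, one_mul]
        exact hμb _ (h5 j) a
      refine le_trans (Finset.sum_le_sum h6) ?_
      rw [Finset.sum_const, nsmul_eq_mul]
      simp
      linarith) (fun z => S4 (vd H A 0 (dz z))) (S4_eq H A μ hμ)
    simp only [hzmt, hnd, hdzz] at i1
    have i3 := le_trans i1 (le_trans (mul_le_mul_of_nonneg_right hcard (by positivity)) hcube)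
    have i4 : ‖∑ ν, (ℓ t ν : ℂ) *
        S4 (vd H A 0 (dz fun b => ρ * ((m b + ((ν b : ℕ) : ℤ) : ℤ) : ℝ)))‖ ≤ nn p d ^ 2 / 8 := by
      refine le_trans (norm_sum_le _ _) ?_
      have j2 : ∀ ν ∈ (univ : Finset (ZMod p → Fin (K + 1))), ‖(ℓ t ν : ℂ) *
            S4 (vd H A 0 (dz fun b => ρ * ((m b + ((ν b : ℕ) : ℤ) : ℤ) : ℝ)))‖ ≤
          |ℓ t ν| * (nn p d ^ 2 / (8 * Λ)) := by
        intro ν _
        rw [norm_mul, Complex.norm_real, Real.norm_eq_abs]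
        apply mul_le_mul_of_nonneg_left _ (abs_nonneg _)
        apply (hN ν).2
        have := abs_le.1 (hsig ν)
        linarith
      refine le_trans (Finset.sum_le_sum j2) ?_
      rw [← Finset.sum_mul]
      have hΛ0 : 0 < Λ := by linarith
      calc (∑ ν, |ℓ t ν|) * (nn p d ^ 2 / (8 * Λ)) ≤ Λ * (nn p d ^ 2 / (8 * Λ)) :=
            mul_le_mul_of_nonneg_right (hΛ t ht) (by positivity)
        _ = nn p d ^ 2 / 8 := by field_simp
    have j4 := norm_add_le (S4 (vd H A 0 δ) - ∑ ν, (ℓ t ν : ℂ) *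
            S4 (vd H A 0 (dz fun b => ρ * ((m b + ((ν b : ℕ) : ℤ) : ℤ) : ℝ))))
            (∑ ν, (ℓ t ν : ℂ) *
            S4 (vd H A 0 (dz fun b => ρ * ((m b + ((ν b : ℕ) : ℤ) : ℤ) : ℝ))))
    rw [sub_add_cancel] at j4
    linarith

/-- Markov for squares. -/
theorem mk2 {α : Type} (H : Finset α) (F : Finset α → ℝ) (s : ℝ) (hs : 0 ≤ s) :
    (Set.ncard {A : Finset α | A ⊆ H ∧ s < F A} : ℝ) * s ^ 2 ≤ ∑ A ∈ H.powerset, F A ^ 2 := by
  refine le_trans ?_ (mkv H (fun A => F A ^ 2) (fun A _ => sq_nonneg _) (s ^ 2))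
  apply mul_le_mul_of_nonneg_right _ (sq_nonneg _)
  exact_mod_cast ncard_mono H (fun A _ (h : s < F A) => pow_le_pow_left₀ hs h.le 2)

/-- The bad sets of a node. -/
def Bad [NeZero p] (C Λ : ℝ) (H : Finset (G p d)) (δ : ZMod p → ℝ) (A : Finset (G p d)) : Prop :=
  (∀ a, |δ a| ≤ 2 * rn C p d) ∧
    (nn p d ^ (3 / 5 : ℝ) < ‖T1 (vd H A 0 δ) -
        ((nn p d * Real.exp (-sig p d δ / 2) : ℝ) : ℂ)‖ ∨
      (76 / 100 * Real.log (nn p d) ≤ sig p d δ ∧ nn p d ^ 2 / (8 * Λ) < ‖S4 (vd H A 0 δ)‖))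

theorem EM_dz [NeZero p] (z : ZMod p → ℝ) : EM (dz z) := by
  have hp : (0 : ℝ) < p := by exact_mod_cast Nat.pos_of_ne_zero (NeZero.ne p)
  constructor
  · intro a
    unfold dz
    rw [neg_neg]
    ring
  · unfold dz
    rw [Finset.sum_sub_distrib, Finset.sum_add_distrib, Finset.sum_const, nsmul_eq_mul,
      Finset.card_univ, ZMod.card]
    have h1 : ∑ a : ZMod p, z (-a) = ∑ a, z a := Equiv.sum_comp (Equiv.neg (ZMod p)) z
    rw [h1]
    field_simp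
    ring

theorem bad_le [NeZero p] (C Λ C1 C2 B u : ℝ) (hΛ : 0 < Λ)
    (hn : 1 ≤ nn p d)
    (hC1 : ∀ (H : Finset (G p d)), Half H → ∀ δ : ZMod p → ℝ, EM δ → ∀ D : ℝ,
      (∀ a, |δ a| ≤ D) → D ≤ 1 / 20 →
      ∑ A ∈ H.powerset, ‖T1 (vd H A 0 δ) -
        ((nn p d * Real.exp (-sig p d δ / 2) : ℝ) : ℂ)‖ ^ 2 ≤
      2 ^ H.card * (C1 * (nn p d + nn p d ^ 3 * D ^ 4 + nn p d ^ 2 * D ^ 2)))
    (hC2 : ∀ (H : Finset (G p d)), Half H → ∀ δ : ZMod p → ℝ, EM δ → (∀ a, |δ a| ≤ 1 / 20) →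
      76 / 100 * Real.log (nn p d) ≤ sig p d δ →
      ∑ A ∈ H.powerset, ‖S4 (vd H A 0 δ)‖ ^ 2 ≤ 2 ^ H.card * (C2 * nn p d ^ 3))
    (hu : 1 ≤ u) (hlog : Real.log (nn p d) ≤ B ^ 2 * u ^ 2) (h20 : 2 * rn C p d ≤ 1 / 20)
    (H : Finset (G p d)) (hH : Half H) (δ : ZMod p → ℝ) (hδ : EM δ) :
    (Set.ncard {A : Finset (G p d) | A ⊆ H ∧ Bad C Λ H δ A} : ℝ) ≤
      2 ^ H.card * ((|C1| * (1 + 16 * C ^ 4 * B ^ 4 + 4 * C ^ 2 * B ^ 2)) * (nn p d * u ^ 4) /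
        nn p d ^ (6 / 5 : ℝ) + (|C2| * 64 * Λ ^ 2) / nn p d) := by
  have hpos : 0 < nn p d := by linarith
  have hlog0 : 0 ≤ Real.log (nn p d) := Real.log_nonneg hn
  by_cases hb : ∀ a, |δ a| ≤ 2 * rn C p d
  · have e1 : (Set.ncard {A : Finset (G p d) | A ⊆ H ∧ Bad C Λ H δ A} : ℝ) ≤
        (Set.ncard {A : Finset (G p d) | A ⊆ H ∧ nn p d ^ (3 / 5 : ℝ) < ‖T1 (vd H A 0 δ) -
          ((nn p d * Real.exp (-sig p d δ / 2) : ℝ) : ℂ)‖} : ℝ) +
        (Set.ncard {A : Finset (G p d) | A ⊆ H ∧ (76 / 100 * Real.log (nn p d) ≤ sig p d δ ∧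
          nn p d ^ 2 / (8 * Λ) < ‖S4 (vd H A 0 δ)‖)} : ℝ) := by
      exact_mod_cast le_trans (ncard_mono H (fun A _ (h : Bad C Λ H δ A) => h.2))
        (ncard_or H _ _)
    refine le_trans e1 ?_
    rw [mul_add]
    apply add_le_add
    · have e2 := mk2 H (fun A => ‖T1 (vd H A 0 δ) -
          ((nn p d * Real.exp (-sig p d δ / 2) : ℝ) : ℂ)‖) (nn p d ^ (3 / 5 : ℝ)) (by positivity)
      have e3 := hC1 H hH δ hδ (2 * rn C p d) hb h20
      have e4 : (nn p d ^ (3 / 5 : ℝ)) ^ 2 = nn p d ^ (6 / 5 : ℝ) := by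
        rw [← Real.rpow_natCast, ← Real.rpow_mul hpos.le]
        norm_num
      rw [e4] at e2
      have e5 := le_trans e2 e3
      have e6 : rn C p d ^ 2 = C ^ 2 * (Real.log (nn p d) / nn p d) := by
        unfold rn
        rw [mul_pow, Real.sq_sqrt (by positivity)]
      have e7 : nn p d ^ 2 * (2 * rn C p d) ^ 2 = 4 * C ^ 2 * nn p d * Real.log (nn p d) := by
        rw [mul_pow, e6]
        field_simp
        ring
      have e8 : nn p d ^ 3 * (2 * rn C p d) ^ 4 = 16 * C ^ 4 * nn p d * Real.log (nn p d) ^ 2 := by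
        have : (2 * rn C p d) ^ 4 = 16 * (rn C p d ^ 2) ^ 2 := by ring
        rw [this, e6]
        field_simp
      have e9 : C1 * (nn p d + nn p d ^ 3 * (2 * rn C p d) ^ 4 + nn p d ^ 2 * (2 * rn C p d) ^ 2) ≤
          (|C1| * (1 + 16 * C ^ 4 * B ^ 4 + 4 * C ^ 2 * B ^ 2)) * (nn p d * u ^ 4) := by
        rw [e7, e8]
        have f1 : Real.log (nn p d) ^ 2 ≤ (B ^ 2 * u ^ 2) ^ 2 := pow_le_pow_left₀ hlog0 hlog 2
        have f2 : u ^ 2 ≤ u ^ 4 := pow_le_pow_right₀ hu (by norm_num)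
        have f3 : 1 ≤ u ^ 4 := one_le_pow₀ hu
        have f4 : Real.log (nn p d) ≤ B ^ 2 * u ^ 4 :=
          le_trans hlog (mul_le_mul_of_nonneg_left f2 (sq_nonneg _))
        have f5 : nn p d + 16 * C ^ 4 * nn p d * Real.log (nn p d) ^ 2 +
            4 * C ^ 2 * nn p d * Real.log (nn p d) ≤
            (1 + 16 * C ^ 4 * B ^ 4 + 4 * C ^ 2 * B ^ 2) * (nn p d * u ^ 4) := by
          have g1 : nn p d ≤ nn p d * u ^ 4 := le_mul_of_one_le_right hpos.le f3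
          have g2 : 16 * C ^ 4 * nn p d * Real.log (nn p d) ^ 2 ≤
              16 * C ^ 4 * nn p d * (B ^ 2 * u ^ 2) ^ 2 :=
            mul_le_mul_of_nonneg_left f1 (by positivity)
          have g3 : 4 * C ^ 2 * nn p d * Real.log (nn p d) ≤
              4 * C ^ 2 * nn p d * (B ^ 2 * u ^ 4) :=
            mul_le_mul_of_nonneg_left f4 (by positivity)
          nlinarith
        have f6 : 0 ≤ nn p d + 16 * C ^ 4 * nn p d * Real.log (nn p d) ^ 2 +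
            4 * C ^ 2 * nn p d * Real.log (nn p d) := by positivity
        calc C1 * (nn p d + 16 * C ^ 4 * nn p d * Real.log (nn p d) ^ 2 +
              4 * C ^ 2 * nn p d * Real.log (nn p d))
            ≤ |C1| * (nn p d + 16 * C ^ 4 * nn p d * Real.log (nn p d) ^ 2 +
              4 * C ^ 2 * nn p d * Real.log (nn p d)) :=
              mul_le_mul_of_nonneg_right (le_abs_self _) f6
          _ ≤ |C1| * ((1 + 16 * C ^ 4 * B ^ 4 + 4 * C ^ 2 * B ^ 2) * (nn p d * u ^ 4)) :=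
              mul_le_mul_of_nonneg_left f5 (abs_nonneg _)
          _ = _ := by ring
      rw [mul_div_assoc', le_div_iff₀ (by positivity)]
      exact le_trans e5 (mul_le_mul_of_nonneg_left e9 (by positivity))
    · by_cases hs : 76 / 100 * Real.log (nn p d) ≤ sig p d δ
      · have e2 := mk2 H (fun A => ‖S4 (vd H A 0 δ)‖) (nn p d ^ 2 / (8 * Λ)) (by positivity)
        have e3 := hC2 H hH δ hδ (fun a => le_trans (hb a) h20) hs
        have e4 := le_trans e2 e3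
        have e5 : (Set.ncard {A : Finset (G p d) | A ⊆ H ∧
            (76 / 100 * Real.log (nn p d) ≤ sig p d δ ∧
              nn p d ^ 2 / (8 * Λ) < ‖S4 (vd H A 0 δ)‖)} : ℝ) ≤
            (Set.ncard {A : Finset (G p d) | A ⊆ H ∧
              nn p d ^ 2 / (8 * Λ) < ‖S4 (vd H A 0 δ)‖} : ℝ) := by
          exact_mod_cast ncard_mono H (fun A _ (h : _ ∧ _) => h.2)
        refine le_trans e5 ?_
        have e6 : (0 : ℝ) < (nn p d ^ 2 / (8 * Λ)) ^ 2 := by positivity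
        have e7 : 2 ^ H.card * (C2 * nn p d ^ 3) ≤ (2 ^ H.card * ((|C2| * 64 * Λ ^ 2) / nn p d)) *
            (nn p d ^ 2 / (8 * Λ)) ^ 2 := by
          have f1 : (2 ^ H.card * ((|C2| * 64 * Λ ^ 2) / nn p d)) *
            (nn p d ^ 2 / (8 * Λ)) ^ 2 = 2 ^ H.card * (|C2| * nn p d ^ 3) := by
            field_simp
            ring
          rw [f1]
          exact mul_le_mul_of_nonneg_left
            (mul_le_mul_of_nonneg_right (le_abs_self _) (by positivity)) (by positivity)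
        exact le_of_mul_le_mul_right (le_trans e4 e7) e6
      · have e2 : {A : Finset (G p d) | A ⊆ H ∧ (76 / 100 * Real.log (nn p d) ≤ sig p d δ ∧
            nn p d ^ 2 / (8 * Λ) < ‖S4 (vd H A 0 δ)‖)} = ∅ := by
          apply Set.eq_empty_of_forall_notMem
          rintro A ⟨-, h, -⟩
          exact hs h
        rw [e2, Set.ncard_empty]
        push_cast
        positivity
  · have e2 : {A : Finset (G p d) | A ⊆ H ∧ Bad C Λ H δ A} = ∅ := by
      apply Set.eq_empty_of_forall_notMem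
      rintro A ⟨-, h, -⟩
      exact hb h
    rw [e2, Set.ncard_empty]
    push_cast
    positivity

/-- Large `n`. -/
theorem par (p : ℕ) (hp : 3 ≤ p) (M : ℝ) : ∃ d0 : ℕ, ∀ d ≥ d0, M ≤ nn p d ^ (8 * tau p) := by
  have h1 : (1 : ℝ) < p := by exact_mod_cast (by omega : 1 < p)
  have h2 : Tendsto (fun d : ℕ => nn p d) atTop atTop := tendsto_pow_atTop_atTop_of_one_lt h1
  have h3 : 0 < 8 * tau p := by
    unfold tau
    have : (0 : ℝ) < p := by linarith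
    positivity
  have h4 := ((tendsto_rpow_atTop h3).comp h2).eventually_ge_atTop M
  exact Filter.eventually_atTop.1 h4

/-- The grid. -/
theorem grid [NeZero p] (M : ℕ) :
    ∃ S : Finset (ZMod p → ℤ), (∀ m : ZMod p → ℤ, (∀ a, |(m a : ℝ)| ≤ M) → m ∈ S) ∧
      (S.card : ℝ) = (2 * (M : ℝ) + 1) ^ p := by
  refine ⟨Fintype.piFinset fun _ : ZMod p => Finset.Icc (-(M : ℤ)) (M : ℤ), ?_, ?_⟩
  · intro m hm
    rw [Fintype.mem_piFinset]
    intro a
    rw [Finset.mem_Icc]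
    have := abs_le.1 (hm a)
    constructor
    · exact_mod_cast this.1
    · exact_mod_cast this.2
  · rw [Fintype.card_piFinset, Finset.prod_const, Finset.card_univ, ZMod.card, Int.card_Icc]
    have : ((M : ℤ) + 1 - -(M : ℤ)).toNat = 2 * M + 1 := by omega
    rw [this]
    push_cast
    ring

/-- The numerical part. -/
theorem num (p K : ℕ) (hp3 : 3 ≤ p) (hK : K + 1 = 1600 * p) (C CI Λ B n r : ℝ) (hC : 0 < C)
    (hCI : 0 ≤ CI) (hΛ1 : 1 ≤ Λ) (hB0 : 0 < B) (hB2 : B ^ 2 = 100 * p) (hn1 : 1 ≤ n)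
    (hr : r = C * √(Real.log n / n))
    (hM8 : 24 + CI * 24 ^ (K + 1) + 40 * (C * B) + 4 * ((K : ℝ) + 1) / C +
      150 * ((K : ℝ) + 1) * (C * B) * Λ + 4 / 3 * (Λ + 3) ≤ n ^ (8 * tau p)) :
    ∃ v ρ : ℝ, 1 ≤ v ∧ 0 < ρ ∧ n ^ (1 / 2 + tau p) = √n * v ∧
      ρ * (24 * (√n * v)) ≤ 24 / v ^ 15 ∧ 24 / v ^ 15 ≤ 1 ∧
      n ^ 3 * (CI * (24 / v ^ 15) ^ (K + 1)) ≤ 1 ∧ 4 * ((K : ℝ) + 1) * ρ ≤ r ∧
      r / (2 * ρ) ≤ C * B * v ^ 24 / 2 ∧ Λ * (3 / 2 * (n * ρ * ((K : ℝ) + 1) * r)) ≤ 1 / 4 ∧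
      3 / 2 * (n * ρ * ((K : ℝ) + 1) * r) ≤ 1 / 100 * Real.log n ∧
      Λ * n ^ (3 / 5 : ℝ) + 1 + 2 * √n ≤ 3 / 4 * n ^ (615 / 1000 : ℝ) ∧
      n ^ 2 / 8 + 1 ≤ n ^ 2 / 4 ∧ Real.log n ≤ B ^ 2 * (v ^ 8) ^ 2 ∧ 2 * r ≤ 1 / 20 ∧
      v ^ (160 * p) = n ^ (1 / 10 : ℝ) ∧
      v ^ (24 * p) * (n * (v ^ 8) ^ 4) * v ^ (160 * p) ≤ n ^ (6 / 5 : ℝ) ∧
      v ^ (24 * p) * v ^ (160 * p) ≤ n ∧ 0 < r := by
  have hpR : (3 : ℝ) ≤ p := by exact_mod_cast hp3
  have hp0 : (0 : ℝ) < p := by linarith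
  have hK0 : (0 : ℝ) ≤ K := Nat.cast_nonneg _
  have hn0 : 0 < n := by linarith
  obtain ⟨v, hv⟩ : ∃ v : ℝ, v = n ^ tau p := ⟨_, rfl⟩
  have htau : tau p = 1 / (1600 * p) := rfl
  have htau0 : 0 < tau p := by
    rw [htau]
    positivity
  have hv1 : 1 ≤ v := by
    rw [hv]
    exact Real.one_le_rpow hn1 htau0.le
  have hv0 : 0 < v := by linarith
  have hvp : ∀ k : ℕ, v ^ k = n ^ (tau p * k) := by
    intro k
    rw [hv, ← Real.rpow_natCast, ← Real.rpow_mul hn0.le]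
  have hvn : v ^ (1600 * p) = n := by
    rw [hvp, htau]
    push_cast
    rw [one_div_mul_cancel (by positivity), Real.rpow_one]
  have hv8 : n ^ (8 * tau p) = v ^ 8 := by
    rw [hvp]
    congr 1
    push_cast
    ring
  rw [hv8] at hM8
  have hvs : v ^ (800 * p) = √n := by
    rw [eq_comm, Real.sqrt_eq_iff_eq_sq hn0.le (by positivity), ← pow_mul, ← hvn]
    congr 1
    ring
  have hv10 : v ^ (160 * p) = n ^ (1 / 10 : ℝ) := by
    rw [hvp, htau]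
    congr 1
    push_cast
    field_simp
    norm_num
  have hv24 : v ^ (24 * p) = n ^ (15 / 1000 : ℝ) := by
    rw [hvp, htau]
    congr 1
    push_cast
    field_simp
    norm_num
  have hmono : ∀ i j : ℕ, i ≤ j → v ^ i ≤ v ^ j := fun i j h => pow_le_pow_right₀ hv1 h
  have g1 : 0 ≤ CI * 24 ^ (K + 1) := by positivity
  have g2 : 0 < C * B := by positivity
  have g3 : 0 < 4 * ((K : ℝ) + 1) / C := by positivity
  have g4 : 0 < 150 * ((K : ℝ) + 1) * (C * B) * Λ := by positivity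
  have hs0 : 0 < √n := Real.sqrt_pos.2 hn0
  have h8n : v ^ 8 ≤ n := by
    rw [← hvn]
    exact hmono _ _ (by omega)
  have hn24 : 24 ≤ n := by linarith
  have hlog1 : 1 ≤ Real.log n := by
    rw [Real.le_log_iff_exp_le hn0]
    have := Real.exp_one_lt_d9
    linarith
  have hlog : Real.log n ≤ B ^ 2 * (v ^ 8) ^ 2 := by
    have h1 := Real.log_le_rpow_div hn0.le (ε := 16 * tau p) (by positivity)
    have h2 : n ^ (16 * tau p) = (v ^ 8) ^ 2 := by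
      rw [← pow_mul, hvp]
      congr 1
      push_cast
      ring
    have h3 : n ^ (16 * tau p) / (16 * tau p) = B ^ 2 * (v ^ 8) ^ 2 := by
      rw [h2, hB2, htau]
      field_simp
      norm_num
    rw [← h3]
    exact h1
  obtain ⟨L, hL⟩ : ∃ L : ℝ, L = √(Real.log n) := ⟨_, rfl⟩
  have hL1 : 1 ≤ L := by
    rw [hL]
    exact Real.one_le_sqrt.2 hlog1
  have hL2 : L ≤ B * v ^ 8 := by
    rw [hL]
    apply Real.sqrt_le_iff.2
    refine ⟨by positivity, ?_⟩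
    rw [mul_pow]
    exact hlog
  have hrn : r = C * (L / √n) := by
    rw [hr, Real.sqrt_div (by linarith : 0 ≤ Real.log n), ← hL]
  obtain ⟨ρ, hρ⟩ : ∃ ρ : ℝ, ρ = (√n * v ^ 16)⁻¹ := ⟨_, rfl⟩
  have hρ0 : 0 < ρ := by
    rw [hρ]
    positivity
  have h20 : 2 * r ≤ 1 / 20 := by
    have h1 : v ^ 16 ≤ √n := by
      rw [← hvs]
      exact hmono _ _ (by omega)
    have h2 : L / √n ≤ B * v ^ 8 / v ^ 16 :=
      div_le_div₀ (by positivity) hL2 (by positivity) h1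
    have h3 : B * v ^ 8 / v ^ 16 = B / v ^ 8 := by
      field_simp
    have h4 : 40 * (C * B) ≤ v ^ 8 := by linarith
    rw [hrn]
    calc 2 * (C * (L / √n)) ≤ 2 * (C * (B / v ^ 8)) := by
          rw [← h3]
          exact mul_le_mul_of_nonneg_left (mul_le_mul_of_nonneg_left h2 hC.le) (by norm_num)
      _ = 2 * (C * B) / v ^ 8 := by ring
      _ ≤ 1 / 20 := by
          rw [div_le_div_iff₀ (by positivity) (by norm_num)]
          linarith
  have hclose : 4 * ((K : ℝ) + 1) * ρ ≤ r := by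
    rw [hrn, hρ]
    have h1 : 4 * ((K : ℝ) + 1) ≤ C * (L * v ^ 16) := by
      have h2 : 4 * ((K : ℝ) + 1) / C ≤ v ^ 8 := by linarith
      rw [div_le_iff₀ hC] at h2
      have h3 : v ^ 8 ≤ v ^ 16 := hmono _ _ (by norm_num)
      have h4 : v ^ 16 ≤ L * v ^ 16 := le_mul_of_one_le_left (by positivity) hL1
      have h5 : v ^ 8 * C ≤ L * v ^ 16 * C := mul_le_mul_of_nonneg_right (le_trans h3 h4) hC.le
      linarith
    calc 4 * ((K : ℝ) + 1) * (√n * v ^ 16)⁻¹ ≤ C * (L * v ^ 16) * (√n * v ^ 16)⁻¹ :=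
          mul_le_mul_of_nonneg_right h1 (by positivity)
      _ = C * (L / √n) := by field_simp
  have hratio : r / (2 * ρ) ≤ C * B * v ^ 24 / 2 := by
    rw [hrn, hρ]
    have h1 : C * (L / √n) / (2 * (√n * v ^ 16)⁻¹) = C * L * v ^ 16 / 2 := by
      field_simp
    rw [h1]
    have h2 : C * L * v ^ 16 ≤ C * (B * v ^ 8) * v ^ 16 :=
      mul_le_mul_of_nonneg_right (mul_le_mul_of_nonneg_left hL2 hC.le) (by positivity)
    have h3 : C * (B * v ^ 8) * v ^ 16 = C * B * v ^ 24 := by ring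
    linarith
  have hεb : 3 / 2 * (n * ρ * ((K : ℝ) + 1) * r) ≤ 1 / (100 * Λ) := by
    rw [hrn, hρ]
    have hnn : √n * √n = n := Real.mul_self_sqrt hn0.le
    have h1 : 3 / 2 * (n * (√n * v ^ 16)⁻¹ * ((K : ℝ) + 1) * (C * (L / √n))) =
        3 / 2 * ((K : ℝ) + 1) * C * L / v ^ 16 := by
      nth_rw 1 [← hnn]
      field_simp
    rw [h1, div_le_div_iff₀ (by positivity) (by positivity)]
    have h2 : 150 * ((K : ℝ) + 1) * (C * B) * Λ ≤ v ^ 8 := by linarith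
    have h3 : 3 / 2 * ((K : ℝ) + 1) * C * L * (100 * Λ) ≤
        3 / 2 * ((K : ℝ) + 1) * C * (B * v ^ 8) * (100 * Λ) := by
      apply mul_le_mul_of_nonneg_right _ (by positivity)
      exact mul_le_mul_of_nonneg_left hL2 (by positivity)
    have h4 : 3 / 2 * ((K : ℝ) + 1) * C * (B * v ^ 8) * (100 * Λ) =
        (150 * ((K : ℝ) + 1) * (C * B) * Λ) * v ^ 8 := by ring
    have h5 : (150 * ((K : ℝ) + 1) * (C * B) * Λ) * v ^ 8 ≤ v ^ 8 * v ^ 8 :=
      mul_le_mul_of_nonneg_right h2 (by positivity)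
    have h6 : v ^ 8 * v ^ 8 = v ^ 16 := by ring
    linarith
  have hn65 : n ^ (6 / 5 : ℝ) = n * v ^ (160 * p) * v ^ (160 * p) := by
    rw [hv10]
    nth_rw 2 [← Real.rpow_one n]
    rw [← Real.rpow_add hn0, ← Real.rpow_add hn0]
    norm_num
  refine ⟨v, ρ, hv1, hρ0, ?_, ?_, ?_, ?_, hclose, hratio, ?_, ?_, ?_, ?_, hlog, h20, hv10, ?_, ?_,
    ?_⟩
  · rw [Real.rpow_add hn0, ← Real.sqrt_eq_rpow, hv]
  · rw [hρ]
    apply le_of_eq
    field_simp
  · rw [div_le_one (by positivity)]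
    have := hmono 8 15 (by norm_num)
    linarith
  · rw [div_pow, ← pow_mul, hK]
    have h1 : v ^ (15 * (1600 * p)) = n ^ 15 := by
      rw [mul_comm, pow_mul, hvn]
    rw [h1]
    have h2 : n ^ 3 * (CI * (24 ^ (1600 * p) / n ^ 15)) = CI * 24 ^ (K + 1) / n ^ 12 := by
      rw [hK]
      field_simp
    rw [h2, div_le_one (by positivity)]
    have h3 : n ≤ n ^ 12 := le_self_pow₀ hn1 (by norm_num)
    linarith
  · have h1 : Λ * (3 / 2 * (n * ρ * ((K : ℝ) + 1) * r)) ≤ Λ * (1 / (100 * Λ)) :=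
      mul_le_mul_of_nonneg_left hεb (by linarith)
    have h2 : Λ * (1 / (100 * Λ)) = 1 / 100 := by
      field_simp
    linarith
  · have h1 : 1 / (100 * Λ) ≤ 1 / 100 := by
      rw [div_le_div_iff₀ (by positivity) (by norm_num)]
      linarith
    linarith
  · have h1 : n ^ (615 / 1000 : ℝ) = n ^ (3 / 5 : ℝ) * v ^ (24 * p) := by
      rw [hv24, ← Real.rpow_add hn0]
      norm_num
    have h2 : 4 / 3 * (Λ + 3) ≤ v ^ (24 * p) := by
      have := hmono 8 (24 * p) (by omega)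
      linarith
    have h3 : 1 ≤ n ^ (3 / 5 : ℝ) := Real.one_le_rpow hn1 (by norm_num)
    have h4 : √n ≤ n ^ (3 / 5 : ℝ) := by
      rw [Real.sqrt_eq_rpow]
      exact Real.rpow_le_rpow_of_exponent_le hn1 (by norm_num)
    rw [h1]
    have h5 := mul_le_mul_of_nonneg_left h2 (by linarith : 0 ≤ n ^ (3 / 5 : ℝ))
    linarith
  · have h1 : 24 * 24 ≤ n * n := mul_le_mul hn24 hn24 (by norm_num) hn0.le
    rw [sq]
    linarith
  · rw [hn65]
    have h1 : v ^ (24 * p) * (v ^ 8) ^ 4 ≤ v ^ (160 * p) := by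
      rw [← pow_mul, ← pow_add]
      exact hmono _ _ (by omega)
    calc v ^ (24 * p) * (n * (v ^ 8) ^ 4) * v ^ (160 * p) =
          n * (v ^ (24 * p) * (v ^ 8) ^ 4) * v ^ (160 * p) := by ring
      _ ≤ n * v ^ (160 * p) * v ^ (160 * p) :=
          mul_le_mul_of_nonneg_right (mul_le_mul_of_nonneg_left h1 hn0.le) (by positivity)
  · rw [← pow_add]
    calc v ^ (24 * p + 160 * p) ≤ v ^ (1600 * p) := hmono _ _ (by omega)
      _ = n := hvn
  · rw [hrn]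
    positivity

/-- The final computation. -/
theorem fin1 (N X2 Cp C4 C5 n v8 a b x65 k0 : ℝ) (hC3p : 0 ≤ Cp) (hC40 : 0 ≤ C4)
    (hC50 : 0 ≤ C5) (h65 : 0 < x65) (hn0 : 0 < n) (hX2 : 0 ≤ X2) (hb : 0 ≤ b) (hk0 : 0 ≤ k0)
    (hF1 : a * (n * v8 ^ 4) * b ≤ x65) (hF2 : a * b ≤ n)
    (h1 : N ≤ (Cp * a) * (X2 * (C4 * (n * v8 ^ 4) / x65 + C5 / n))) :
    N * b ≤ (Cp * (C4 + C5) + k0) * X2 := by
  calc N * b ≤ ((Cp * a) * (X2 * (C4 * (n * v8 ^ 4) / x65 + C5 / n))) * b :=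
        mul_le_mul_of_nonneg_right h1 hb
    _ = X2 * (Cp * (C4 * ((a * (n * v8 ^ 4) * b) / x65) + C5 * ((a * b) / n))) := by ring
    _ ≤ X2 * (Cp * (C4 * 1 + C5 * 1)) := by
        apply mul_le_mul_of_nonneg_left _ hX2
        apply mul_le_mul_of_nonneg_left _ hC3p
        apply add_le_add
        · exact mul_le_mul_of_nonneg_left ((div_le_one h65).2 hF1) hC40
        · exact mul_le_mul_of_nonneg_left ((div_le_one hn0).2 hF2) hC50
    _ ≤ (Cp * (C4 + C5) + k0) * X2 := by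
        nlinarith [mul_nonneg hk0 hX2]

end ZWIaux

open ZWIaux in
theorem t_ZWI (hT : ZT1_Stmt) (hS : ZS4_Stmt) (hI : INT_Stmt) (hM : MUU_Stmt) : ZWI_Stmt := by
  intro p _ hp hp2 C hC
  have hp3 : 3 ≤ p := by
    have := hp.two_le
    omega
  have hp0 : (0 : ℝ) < p := by exact_mod_cast hp.pos
  obtain ⟨C1, hC1⟩ := hT p hp hp2
  obtain ⟨C2, hC2⟩ := hS p hp hp2
  obtain ⟨K, hK⟩ : ∃ K : ℕ, K + 1 = 1600 * p := ⟨1600 * p - 1, by omega⟩
  obtain ⟨CI, ℓ, hCI, hℓb, hℓ⟩ := hI (ZMod p) K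
  obtain ⟨Λ, hΛd⟩ : ∃ Λ : ℝ, Λ = CI * ((K : ℝ) + 1) ^ p + 1 := ⟨_, rfl⟩
  have hΛ1 : 1 ≤ Λ := by
    rw [hΛd]
    have : 0 ≤ CI * ((K : ℝ) + 1) ^ p := by positivity
    linarith
  have hΛ : ∀ t : ZMod p → ℝ, (∀ i, 0 ≤ t i ∧ t i ≤ 1) → ∑ ν, |ℓ t ν| ≤ Λ := by
    intro t ht
    refine le_trans (Finset.sum_le_sum fun ν _ => hℓb t ht ν) ?_
    rw [Finset.sum_const, nsmul_eq_mul, Finset.card_univ, Fintype.card_fun, Fintype.card_fin,
      ZMod.card, hΛd]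
    push_cast
    linarith
  obtain ⟨B, hB⟩ : ∃ B : ℝ, B = √(100 * p) := ⟨_, rfl⟩
  have hB0 : 0 < B := by
    rw [hB]
    exact Real.sqrt_pos.2 (by positivity)
  have hB2 : B ^ 2 = 100 * p := by
    rw [hB]
    exact Real.sq_sqrt (by positivity)
  have hK0 : (0 : ℝ) ≤ K := Nat.cast_nonneg _
  obtain ⟨C3, hC3⟩ : ∃ C3 : ℝ, C3 = C * B + 2 * ((K : ℝ) + 1) + 3 := ⟨_, rfl⟩
  have hC30 : 0 < C3 := by
    rw [hC3]
    positivity
  obtain ⟨C4, hC4⟩ : ∃ C4 : ℝ, C4 = |C1| * (1 + 16 * C ^ 4 * B ^ 4 + 4 * C ^ 2 * B ^ 2) :=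
    ⟨_, rfl⟩
  have hC40 : 0 ≤ C4 := by
    rw [hC4]
    positivity
  obtain ⟨C5, hC5⟩ : ∃ C5 : ℝ, C5 = |C2| * 64 * Λ ^ 2 := ⟨_, rfl⟩
  have hC50 : 0 ≤ C5 := by
    rw [hC5]
    positivity
  obtain ⟨d0, hd0⟩ := par p hp3 (24 + CI * 24 ^ (K + 1) + 40 * (C * B) + 4 * ((K : ℝ) + 1) / C +
    150 * ((K : ℝ) + 1) * (C * B) * Λ + 4 / 3 * (Λ + 3))
  refine ⟨C3 ^ p * (C4 + C5) + (nn p d0) ^ (1 / 10 : ℝ), ?_⟩
  intro d H hH
  have hn : ∀ d, 1 ≤ nn p d := by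
    intro d
    unfold Pool.Agent.UAA.nn
    exact one_le_pow₀ (by exact_mod_cast hp.one_lt.le)
  have hnk : ∀ d, 0 ≤ nn p d ^ (1 / 10 : ℝ) := fun d => Real.rpow_nonneg (by linarith [hn d]) _
  rcases lt_or_ge d d0 with hd | hd
  · have h1 := ncard_le_all H (fun A => Ty (tau p) A ∧ ¬ WZ C H A)
    have h2 : nn p d ^ (1 / 10 : ℝ) ≤ nn p d0 ^ (1 / 10 : ℝ) := by
      apply Real.rpow_le_rpow (by linarith [hn d]) _ (by norm_num)
      unfold Pool.Agent.UAA.nn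
      exact pow_le_pow_right₀ (by exact_mod_cast hp.one_lt.le) hd.le
    calc (Set.ncard {A : Finset (G p d) | A ⊆ H ∧ Ty (tau p) A ∧ ¬ WZ C H A} : ℝ) *
          nn p d ^ (1 / 10 : ℝ) ≤ 2 ^ H.card * nn p d0 ^ (1 / 10 : ℝ) :=
          mul_le_mul h1 h2 (hnk d) (by positivity)
      _ ≤ 2 ^ H.card * (C3 ^ p * (C4 + C5) + (nn p d0) ^ (1 / 10 : ℝ)) := by
          apply mul_le_mul_of_nonneg_left _ (by positivity)
          have : 0 ≤ C3 ^ p * (C4 + C5) := by positivity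
          linarith
      _ = _ := by ring
  · obtain ⟨v, ρ, hv1, hρ0, hW, n1, n2, n3, n4, n5, n6, n7, n8, n9, n10, n11, n12, n13, n14,
      n15⟩ := num p K hp3 hK C CI Λ B (nn p d) (rn C p d) hC hCI hΛ1 hB0 hB2 (hn d) rfl
        (hd0 d hd)
    have hv0 : 0 < v := by linarith
    have hnpos : 0 < nn p d := by linarith [hn d]
    obtain ⟨R, hR⟩ : ∃ R : ℝ, R = rn C p d / (2 * ρ) + ((K : ℝ) + 1) := ⟨_, rfl⟩
    have hR0 : 0 ≤ R := by
      rw [hR]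
      positivity
    obtain ⟨S, hSm, hSc⟩ := grid (p := p) ⌈R⌉₊
    have hcov : ∀ A : Finset (G p d), A ⊆ H → (Ty (tau p) A ∧ ¬ WZ C H A) →
        ∃ m ∈ S, Bad C Λ H (dz fun b => ρ * ((m b : ℤ) : ℝ)) A := by
      intro A hA hA2
      by_contra hcon
      push Not at hcon
      apply hA2.2
      obtain ⟨⟨μ, hμb, hμ⟩, -, hdz, -⟩ := hM p d hp hp2 H A hH hA (tau p) (by
        unfold tau
        positivity) hA2.1
      rw [hW] at hμb
      refine det C CI hCI ℓ hℓ H A μ (√(nn p d) * v) hμb hμ hdz Λ hΛ hΛ1 ρ (24 / v ^ 15)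
        (3 / 2 * (nn p d * ρ * ((K : ℝ) + 1) * rn C p d)) R hρ0 n1 (by positivity) n2 (hn d) n3
        n4 hR.symm.le le_rfl n6 n7 n8 n9 ?_
      intro m hm1 hm2
      have h1 := hcon m (hSm m fun a => le_trans (hm1 a) (Nat.le_ceil R))
      unfold Bad at h1
      push Not at h1
      have h2 := h1 hm2
      exact ⟨h2.1, h2.2⟩
    have hbad : ∀ m ∈ S,
        (Set.ncard {A : Finset (G p d) | A ⊆ H ∧
          Bad C Λ H (dz fun b => ρ * ((m b : ℤ) : ℝ)) A} : ℝ) ≤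
        2 ^ H.card * (C4 * (nn p d * (v ^ 8) ^ 4) / nn p d ^ (6 / 5 : ℝ) + C5 / nn p d) := by
      intro m _
      have h1 := bad_le C Λ C1 C2 B (v ^ 8) (by linarith) (hn d) (hC1 d) (hC2 d)
        (one_le_pow₀ hv1) n10 n11 H hH (dz fun b => ρ * ((m b : ℤ) : ℝ)) (EM_dz _)
      rw [← hC4, ← hC5] at h1
      exact h1
    have hU := ncard_ex H S (fun m A => Bad C Λ H (dz fun b => ρ * ((m b : ℤ) : ℝ)) A) _ hbad
    have hS1 : (S.card : ℝ) ≤ C3 ^ p * v ^ (24 * p) := by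
      rw [hSc, pow_mul v, ← mul_pow]
      apply pow_le_pow_left₀ (by positivity)
      have h1 := (Nat.ceil_lt_add_one hR0).le
      have h2 : R ≤ C * B * v ^ 24 / 2 + ((K : ℝ) + 1) := by
        rw [hR]
        linarith
      have h3 : 1 ≤ v ^ 24 := one_le_pow₀ hv1
      have h4 : 2 * ((K : ℝ) + 1) + 3 ≤ (2 * ((K : ℝ) + 1) + 3) * v ^ 24 :=
        le_mul_of_one_le_right (by positivity) h3
      rw [hC3]
      linarith
    have hfin1 : (Set.ncard {A : Finset (G p d) | A ⊆ H ∧ Ty (tau p) A ∧ ¬ WZ C H A} : ℝ) ≤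
        (C3 ^ p * v ^ (24 * p)) *
          (2 ^ H.card * (C4 * (nn p d * (v ^ 8) ^ 4) / nn p d ^ (6 / 5 : ℝ) + C5 / nn p d)) := by
      refine le_trans ?_ (le_trans hU (mul_le_mul_of_nonneg_right hS1 (by positivity)))
      exact_mod_cast ncard_mono H hcov
    rw [← n12]
    exact fin1 _ _ (C3 ^ p) C4 C5 (nn p d) (v ^ 8) (v ^ (24 * p)) (v ^ (160 * p))
      (nn p d ^ (6 / 5 : ℝ)) (nn p d0 ^ (1 / 10 : ℝ)) (by positivity) hC40 hC50 (by positivity)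
      hnpos (by positivity) (by positivity) (hnk d0) n13 n14 hfin1

end Pool.Agent.UAB
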