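import Pool.Agent.UAB.Core

/-!
# Markov's inequality and the union bound for subsets of a finite set
-/

set_option autoImplicit false

namespace Pool.Agent.UAB

open Finset

/-- Markov's inequality. -/
theorem mkv {α : Type} (H : Finset α) (F : Finset α → ℝ) (hF : ∀ A, A ⊆ H → 0 ≤ F A)
    (t : ℝ) : (Set.ncard {A : Finset α | A ⊆ H ∧ t ≤ F A} : ℝ) * t ≤ ∑ A ∈ H.powerset, F A := by
  classical
  have h1 : {A : Finset α | A ⊆ H ∧ t ≤ F A} = ↑(H.powerset.filter fun A => t ≤ F A) := by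
    ext A
    simp
  rw [h1, Set.ncard_coe_finset, ← nsmul_eq_mul, ← Finset.sum_const]
  calc ∑ _A ∈ H.powerset.filter (fun A => t ≤ F A), t
      ≤ ∑ A ∈ H.powerset.filter (fun A => t ≤ F A), F A :=
        Finset.sum_le_sum fun A hA => (Finset.mem_filter.1 hA).2
    _ ≤ ∑ A ∈ H.powerset, F A := by
        apply Finset.sum_le_sum_of_subset_of_nonneg (Finset.filter_subset _ _)
        intro A hA _
        exact hF A (Finset.mem_powerset.1 hA)

/-- The set of all subsets of `H`. -/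
theorem finite_sub {α : Type} (H : Finset α) (P : Finset α → Prop) :
    {A : Finset α | A ⊆ H ∧ P A}.Finite := by
  classical
  apply Set.Finite.subset (H.powerset.finite_toSet)
  rintro A ⟨hA, -⟩
  exact Finset.mem_coe.2 (Finset.mem_powerset.2 hA)

theorem ncard_le_all {α : Type} (H : Finset α) (P : Finset α → Prop) :
    (Set.ncard {A : Finset α | A ⊆ H ∧ P A} : ℝ) ≤ 2 ^ H.card := by
  classical
  have h1 : Set.ncard {A : Finset α | A ⊆ H ∧ P A} ≤ Set.ncard (H.powerset : Set (Finset α)) := by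
    apply Set.ncard_le_ncard _ (H.powerset.finite_toSet)
    rintro A ⟨hA, -⟩
    exact Finset.mem_coe.2 (Finset.mem_powerset.2 hA)
  rw [Set.ncard_coe_finset, Finset.card_powerset] at h1
  exact_mod_cast h1

theorem ncard_mono {α : Type} (H : Finset α) {P Q : Finset α → Prop}
    (h : ∀ A, A ⊆ H → P A → Q A) :
    Set.ncard {A : Finset α | A ⊆ H ∧ P A} ≤ Set.ncard {A : Finset α | A ⊆ H ∧ Q A} :=
  Set.ncard_le_ncard (fun A hA => ⟨hA.1, h A hA.1 hA.2⟩) (finite_sub H Q)

/-- Union bound for two events. -/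
theorem ncard_or {α : Type} (H : Finset α) (P Q : Finset α → Prop) :
    Set.ncard {A : Finset α | A ⊆ H ∧ (P A ∨ Q A)} ≤
      Set.ncard {A : Finset α | A ⊆ H ∧ P A} + Set.ncard {A : Finset α | A ⊆ H ∧ Q A} := by
  have h1 : {A : Finset α | A ⊆ H ∧ (P A ∨ Q A)} =
      {A : Finset α | A ⊆ H ∧ P A} ∪ {A : Finset α | A ⊆ H ∧ Q A} := by
    ext A
    simp only [Set.mem_setOf_eq, Set.mem_union]
    tauto
  rw [h1]
  exact Set.ncard_union_le _ _

/-- Union bound for finitely many events. -/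
theorem ncard_ex {α ν : Type} (H : Finset α) (S : Finset ν) (P : ν → Finset α → Prop) (B : ℝ)
    (h : ∀ i ∈ S, (Set.ncard {A : Finset α | A ⊆ H ∧ P i A} : ℝ) ≤ B) :
    (Set.ncard {A : Finset α | A ⊆ H ∧ ∃ i ∈ S, P i A} : ℝ) ≤ (S.card : ℝ) * B := by
  classical
  induction S using Finset.induction_on with
  | empty => simp
  | insert j S hj ih =>
    have h1 : Set.ncard {A : Finset α | A ⊆ H ∧ ∃ i ∈ insert j S, P i A} ≤
        Set.ncard {A : Finset α | A ⊆ H ∧ P j A} +
          Set.ncard {A : Finset α | A ⊆ H ∧ ∃ i ∈ S, P i A} := by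
      refine le_trans (ncard_mono H ?_) (ncard_or H (P j) (fun A => ∃ i ∈ S, P i A))
      rintro A - ⟨i, hi, hA⟩
      rcases Finset.mem_insert.1 hi with rfl | hi
      · exact Or.inl hA
      · exact Or.inr ⟨i, hi, hA⟩
    have h2 := ih fun i hi => h i (Finset.mem_insert_of_mem hi)
    have h3 := h j (Finset.mem_insert_self j S)
    rw [Finset.card_insert_of_notMem hj]
    have h4 : (Set.ncard {A : Finset α | A ⊆ H ∧ ∃ i ∈ insert j S, P i A} : ℝ) ≤
        (Set.ncard {A : Finset α | A ⊆ H ∧ P j A} : ℝ) +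
          (Set.ncard {A : Finset α | A ⊆ H ∧ ∃ i ∈ S, P i A} : ℝ) := by exact_mod_cast h1
    push_cast
    linarith

/-- The value of a quadruple of unimodular numbers as a product over the slots. -/
theorem q4_eq {p d : ℕ} (w : Pool.Agent.UAA.G p d → ℂ) (hw : ∀ x, ‖w x‖ = 1)
    (t : Pool.Agent.UAA.G p d × Pool.Agent.UAA.G p d × Pool.Agent.UAA.G p d) :
    q4 w t = ∏ j, w (vec t j) ^ sg j := by
  have h1 : ∀ z : ℂ, ‖z‖ = 1 → (starRingEnd ℂ) z = z⁻¹ := by
    intro z hz
    rw [Complex.inv_def, Complex.normSq_eq_norm_sq, hz]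
    simp
  unfold q4
  rw [h1 _ (hw _), h1 _ (hw _)]
  simp [Fin.prod_univ_four, vec, sg]

theorem norm_wt {p d : ℕ} {f : ZMod p → ℂ} (hf : EU f) (A : Finset (Pool.Agent.UAA.G p d))
    (x : Pool.Agent.UAA.G p d) : ‖wt f A x‖ = 1 := by
  unfold wt
  rw [norm_prod]
  exact Finset.prod_eq_one fun h _ => hf.1 _

end Pool.Agent.UAB
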