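import Pool.Agent.UAA.Core

/-!
# Uniform mixing on almost all Cayley graphs over `ℤ_p^d`, `p ≥ 5` prime (MP_e32761_co): definitions

`G p d = ℤ_p^d`, `n = nn p d = p ^ d`. A symmetric connection set is `A ∪ -A` with a subset `A` of a fixed
set `H` of representatives of the pairs `± c`, `c ≠ 0` (`Half H`). With `f a = exp (2 i t cos (2 π a / p))`
the eigenvalue phases are `exp (i t λ_x) = wt f A x = ∏_{h ∈ A} f (x·h)`.
-/

set_option autoImplicit false

namespace Pool.Agent.UAB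

open Finset
open Pool.Agent.UAA (G ch nn)

variable {p d : ℕ}

/-- The scalar product. -/
def dt (x c : G p d) : ZMod p := ∑ i, x i * c i

/-- `H` contains exactly one of `c`, `-c` for every `c ≠ 0`, and not `0`. -/
def Half (H : Finset (G p d)) : Prop :=
  (0 : G p d) ∉ H ∧ ∀ c : G p d, c ≠ 0 → (c ∈ H ↔ -c ∉ H)

/-- Even functions with values in the unit circle. -/
def EU (f : ZMod p → ℂ) : Prop := (∀ a, ‖f a‖ = 1) ∧ ∀ a, f (-a) = f a

/-- `w_x = ∏_{h ∈ A} f (x·h)`. -/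
noncomputable def wt (f : ZMod p → ℂ) (A : Finset (G p d)) (x : G p d) : ℂ :=
  ∏ h ∈ A, f (dt x h)

/-- Flat vectors. -/
def FlatV [NeZero p] (w : G p d → ℂ) : Prop := ∀ b, ‖∑ x, w x * ch b x‖ ^ 2 = nn p d

/-- Even vectors of complex numbers of absolute value 1. -/
def EV (w : G p d → ℂ) : Prop := (∀ x, ‖w x‖ = 1) ∧ ∀ x, w (-x) = w x

/-! ### Quadruples `(a, b; c, a + b - c)` -/

/-- The value of a quadruple. -/
noncomputable def q4 (w : G p d → ℂ) (t : G p d × G p d × G p d) : ℂ :=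
  w t.1 * w t.2.1 * (starRingEnd ℂ) (w t.2.2) * (starRingEnd ℂ) (w (t.1 + t.2.1 - t.2.2))

/-- The fourth moment. -/
noncomputable def T4f [NeZero p] (w : G p d → ℂ) : ℂ :=
  ∑ t : G p d × G p d × G p d, q4 w t

/-- Collinear triples. -/
def Col (t : G p d × G p d × G p d) : Prop :=
  ∃ (e : G p d) (i j k : ZMod p), t = (i • e, j • e, k • e)

/-- Good quadruples. -/
def Gq (t : G p d × G p d × G p d) : Prop :=
  t.1 ≠ 0 ∧ t.2.1 ≠ 0 ∧ t.2.2 ≠ 0 ∧ t.1 + t.2.1 - t.2.2 ≠ 0 ∧ t.1 ≠ t.2.2 ∧ t.2.1 ≠ t.2.2 ∧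
    t.1 + t.2.1 ≠ 0 ∧ ¬ Col t

open Classical in
/-- The sum over the good quadruples. -/
noncomputable def S4 [NeZero p] (w : G p d → ℂ) : ℂ :=
  ∑ t ∈ (univ : Finset (G p d × G p d × G p d)).filter Gq, q4 w t

open Classical in
/-- The third moment. -/
noncomputable def T3 [NeZero p] (w : G p d → ℂ) : ℂ :=
  ∑ t ∈ (univ : Finset (G p d × G p d)).filter fun t => t.1 ≠ 0 ∧ t.2 ≠ 0 ∧ t.1 + t.2 ≠ 0,
    w t.1 * w t.2 * (starRingEnd ℂ) (w (t.1 + t.2))

/-- The sum of the squares. -/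
noncomputable def T2 [NeZero p] (w : G p d → ℂ) : ℂ :=
  ∑ x ∈ (univ : Finset (G p d)).erase 0, w x ^ 2

/-- The sum. -/
noncomputable def T1 [NeZero p] (w : G p d → ℂ) : ℂ :=
  ∑ x ∈ (univ : Finset (G p d)).erase 0, w x

/-! ### Slots -/

/-- The four vectors of a quadruple. -/
def vec (t : G p d × G p d × G p d) : Fin 4 → G p d := ![t.1, t.2.1, t.2.2, t.1 + t.2.1 - t.2.2]

/-- Their signs. -/
def sg : Fin 4 → ℤ := ![1, 1, -1, -1]

/-- The vectors of a family of quadruples. -/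
def X {N : ℕ} (Q : Fin N → G p d × G p d × G p d) (s : Fin N × Fin 4) : G p d := vec (Q s.1) s.2

/-- The signs of a family of quadruples, `η i = -1` means that the value of `Q i` is conjugated. -/
def ee {N : ℕ} (η : Fin N → ℤ) (s : Fin N × Fin 4) : ℤ := η s.1 * sg s.2

/-- The product of the values of `f` over the slots. -/
noncomputable def FF {ι : Type} [Fintype ι] (f : ZMod p → ℂ) (Y : ι → G p d) (ε : ι → ℤ)
    (h : G p d) : ℂ := ∏ s, f (dt (Y s) h) ^ ε s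

/-- The dimension of the span. -/
noncomputable def rk {ι : Type} (Y : ι → G p d) : ℕ :=
  Module.finrank (ZMod p) (Submodule.span (ZMod p) (Set.range Y))

/-- A family of good quadruples with signs. -/
def Fam {N : ℕ} (Q : Fin N → G p d × G p d × G p d) (η : Fin N → ℤ) : Prop :=
  (∀ i, Gq (Q i)) ∧ ∀ i, η i = 1 ∨ η i = -1

/-! ### Quadratic phases and representations -/

/-- `f` is `κ ζ^{α a²}`. -/
def Qd [NeZero p] (f : ZMod p → ℂ) (α : ZMod p) : Prop :=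
  ∃ κ : ℂ, ∀ a, f a = κ * (ZMod.stdAddChar (α * a ^ 2) : ℂ)

/-- Even functions with sum `0`. -/
def EM [NeZero p] (δ : ZMod p → ℝ) : Prop := (∀ a, δ (-a) = δ a) ∧ ∑ a, δ a = 0

/-- `f = κ f_α e^{iδ}`. -/
def Rep [NeZero p] (f : ZMod p → ℂ) (α : ZMod p) (κ : ℂ) (δ : ZMod p → ℝ) : Prop :=
  ‖κ‖ = 1 ∧ EM δ ∧
    ∀ a, f a = κ * (ZMod.stdAddChar (α * a ^ 2) : ℂ) * Complex.exp ((δ a : ℂ) * Complex.I)

/-- `f` is not close to a quadratic phase. -/
def Far [NeZero p] (ρ : ℝ) (f : ZMod p → ℂ) : Prop :=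
  ∀ (α : ZMod p) (κ : ℂ) (δ : ZMod p → ℝ), Rep f α κ δ → ∃ a, ρ ≤ |δ a|

/-- The radius of the windows. -/
noncomputable def rn (C : ℝ) (p d : ℕ) : ℝ := C * √(Real.log (nn p d) / nn p d)

/-! ### Typical sets -/

open Classical in
/-- The number of the `h ∈ A` with `x·h = a`, plus the number with `x·h = -a`. -/
noncomputable def Dv (A : Finset (G p d)) (x : G p d) (a : ZMod p) : ℝ :=
  ((A.filter fun h => dt x h = a).card : ℝ) + ((A.filter fun h => dt x h = -a).card : ℝ)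

/-- Typical sets. -/
def Ty (τ : ℝ) (A : Finset (G p d)) : Prop :=
  ∀ x : G p d, x ≠ 0 → ∀ a : ZMod p,
    |Dv A x a - nn p d / (2 * p)| ≤ 2 * nn p d ^ (1 / 2 + τ)

/-! ### Multiplicative derivatives -/

/-- The multiplicative derivative. -/
noncomputable def dm (u : ZMod p) (f : ZMod p → ℂ) (a : ZMod p) : ℂ := f (a + u) / f a

/-- Iterated multiplicative derivatives, `dms (u :: l) f = dm u (dms l f)`. -/
noncomputable def dms (l : List (ZMod p)) (f : ZMod p → ℂ) : ZMod p → ℂ := l.foldr dm f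

/-! ### The flow -/

/-- The phases at the time `t`. -/
noncomputable def ft (p : ℕ) [NeZero p] (t : ℝ) (a : ZMod p) : ℂ :=
  Complex.exp (Complex.I * (t : ℂ) * ((ZMod.stdAddChar a : ℂ) + (ZMod.stdAddChar (-a) : ℂ)))

/-! ### Windows -/

open Classical in
/-- `± 1/2`. -/
noncomputable def ep (A : Finset (G p d)) (h : G p d) : ℝ := if h ∈ A then 1 / 2 else -1 / 2

/-- The centred increments of the eigenvalues. -/
noncomputable def gd (H A : Finset (G p d)) (δ : ZMod p → ℝ) (x : G p d) : ℝ :=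
  ∑ h ∈ H, ep A h * δ (dt x h)

/-- The vector with value `Z` at `0`. -/
noncomputable def up (Z : ℂ) (v : G p d → ℂ) (x : G p d) : ℂ := if x = 0 then Z else v x

/-- The vector `ζ^{α ∑_{h ∈ A} (x·h)²} e^{i g_x}`, with value `1` at `0`. -/
noncomputable def vd [NeZero p] (H A : Finset (G p d)) (α : ZMod p) (δ : ZMod p → ℝ) :
    G p d → ℂ :=
  up 1 fun x => (ZMod.stdAddChar (α * ∑ h ∈ A, dt x h ^ 2) : ℂ) *
    Complex.exp ((gd H A δ x : ℂ) * Complex.I)

/-- Even functions with sum `0` from arbitrary functions (all of them: `dz (δ/2) = δ`). -/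
noncomputable def dz [NeZero p] (z : ZMod p → ℝ) (a : ZMod p) : ℝ :=
  z a + z (-a) - 2 / p * ∑ b, z b

/-- The variance. -/
noncomputable def sig (p d : ℕ) [NeZero p] (δ : ZMod p → ℝ) : ℝ :=
  nn p d / (8 * p) * ∑ a, δ a ^ 2

/-- The exponents. -/
noncomputable def tau (p : ℕ) : ℝ := 1 / (1600 * p)

/-- The uniform event in the windows `α ≠ 0`. -/
def WU [NeZero p] (C : ℝ) (H A : Finset (G p d)) (α : ZMod p) : Prop :=
  ∀ δ : ZMod p → ℝ, EM δ → (∀ a, |δ a| ≤ rn C p d) →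
    ‖S4 (vd H A α δ) - (Real.exp (-2 * sig p d δ) : ℂ) * S4 (vd H A α 0)‖ ≤
        nn p d ^ (-8 * tau p) *
          (nn p d ^ 2 + Real.exp (-2 * sig p d δ) * ‖S4 (vd H A α 0)‖) ∧
      ‖T3 (vd H A α δ)‖ ≤ nn p d ^ (11 / 10 : ℝ) ∧ ‖T2 (vd H A α δ)‖ ≤ nn p d ^ (3 / 5 : ℝ)

/-- The uniform event in the window `α = 0`. -/
def WZ [NeZero p] (C : ℝ) (H A : Finset (G p d)) : Prop :=
  ∀ δ : ZMod p → ℝ, EM δ → (∀ a, |δ a| ≤ rn C p d) →
    (sig p d δ ≤ 77 / 100 * Real.log (nn p d) → 2 * √(nn p d) ≤ ‖T1 (vd H A 0 δ)‖) ∧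
      (77 / 100 * Real.log (nn p d) ≤ sig p d δ →
        ‖S4 (vd H A 0 δ)‖ ≤ nn p d ^ 2 / 4)

end Pool.Agent.UAB
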