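import Pool.Agent.UAB.St

/-!
# Module PL1: a slot alone on its line forces a polynomial phase
-/

set_option autoImplicit false

namespace Pool.Agent.UAB

open Finset
open Pool.Agent.UAA (G ch nn)

namespace PL1aux

variable {p d : ℕ}

theorem dt_add (x h k : G p d) : dt x (h + k) = dt x h + dt x k := by
  simp only [dt, Pi.add_apply, mul_add, Finset.sum_add_distrib]

theorem dt_smul (x k : G p d) (c : ZMod p) : dt x (c • k) = c * dt x k := by
  simp only [dt, Pi.smul_apply, smul_eq_mul, Finset.mul_sum]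
  exact Finset.sum_congr rfl fun i _ => by ring

/-- a vector outside of a line is separated from it -/
theorem sep (hp : p.Prime) {x y : G p d} (h : y ∉ Submodule.span (ZMod p) {x}) (u : ZMod p) :
    ∃ k : G p d, dt x k = 0 ∧ dt y k = u := by
  have : Fact p.Prime := ⟨hp⟩
  obtain ⟨φ, h1, h2⟩ := Submodule.exists_dual_map_eq_bot_of_notMem h inferInstance
  have h3 : ∀ v : G p d, dt v (fun i => φ (fun j => if i = j then 1 else 0)) = φ v := by
    intro v
    rw [LinearMap.pi_apply_eq_sum_univ φ v]
    simp only [dt, smul_eq_mul]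
  have h4 : φ x = 0 := by
    have h5 : φ x ∈ Submodule.map φ (Submodule.span (ZMod p) {x}) :=
      Submodule.mem_map_of_mem (Submodule.mem_span_singleton_self x)
    rw [h2] at h5
    simpa using h5
  refine ⟨(u * (φ y)⁻¹) • fun i => φ (fun j => if i = j then 1 else 0), ?_, ?_⟩
  · rw [dt_smul, h3, h4, mul_zero]
  · rw [dt_smul, h3, mul_assoc, inv_mul_cancel₀ h1, mul_one]

/-- the scalar product with a nonzero vector is onto -/
theorem onto (hp : p.Prime) {y : G p d} (h : y ≠ 0) (u : ZMod p) : ∃ k : G p d, dt y k = u := by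
  have h1 : y ∉ Submodule.span (ZMod p) {(0 : G p d)} := by
    rw [Submodule.span_singleton_eq_bot.2 rfl, Submodule.mem_bot]
    exact h
  obtain ⟨k, _, hk⟩ := sep hp h1 u
  exact ⟨k, hk⟩

theorem dms_append (l : List (ZMod p)) (u : ZMod p) (f : ZMod p → ℂ) :
    dms (l ++ [u]) f = dms l (dm u f) := by
  simp [dms, List.foldr_append]

/-- the induction -/
theorem step (hp : p.Prime) {ι : Type} [Fintype ι] [DecidableEq ι] (Y : ι → G p d) (ε : ι → ℤ)
    (s0 : ι) (hε : ε s0 = 1 ∨ ε s0 = -1) (h0 : Y s0 ≠ 0)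
    (hY : ∀ s, s ≠ s0 → Y s0 ∉ Submodule.span (ZMod p) {Y s}) (T : Finset ι) :
    s0 ∉ T → ∀ g : ι → ZMod p → ℂ, (∀ s a, g s a ≠ 0) →
      (∀ s, s ∉ T → s ≠ s0 → ∀ a, g s a = 1) → (∀ h, ∏ s, g s (dt (Y s) h) ^ ε s = 1) →
      ∀ l : List (ZMod p), l.length = T.card → ∀ a, dms l (g s0) a = 1 := by
  induction T using Finset.induction_on with
  | empty =>
    intro _ g _ h1 hF l hl a
    rw [Finset.card_empty, List.length_eq_zero_iff] at hl
    subst hl
    obtain ⟨h, hh⟩ := onto hp h0 a
    have h2 := hF h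
    rw [Finset.prod_eq_single s0 (fun s _ hs => by
      rw [h1 s (Finset.notMem_empty s) hs, one_zpow]) (fun hs => absurd (Finset.mem_univ s0) hs),
      hh] at h2
    change g s0 a = 1
    rcases hε with hε | hε
    · rw [hε, zpow_one] at h2
      exact h2
    · rw [hε, zpow_neg_one, inv_eq_one] at h2
      exact h2
  | insert s1 T hs1 ih =>
    intro hs0 g hg h1 hF l hl a
    rw [Finset.card_insert_of_notMem hs1] at hl
    have hne : s1 ≠ s0 := fun h => hs0 (h ▸ Finset.mem_insert_self s1 T)
    obtain ⟨l', u, rfl⟩ : ∃ l' u, l = l' ++ [u] := by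
      have : l ≠ [] := by
        intro h
        rw [h, List.length_nil] at hl
        omega
      exact ⟨l.dropLast, l.getLast this, (List.dropLast_append_getLast this).symm⟩
    rw [List.length_append, List.length_singleton] at hl
    obtain ⟨k, hk1, hk2⟩ := sep hp (hY s1 hne) u
    rw [dms_append, ← hk2]
    refine ih (fun h => hs0 (Finset.mem_insert_of_mem h)) (fun s => dm (dt (Y s) k) (g s))
      (fun s a => div_ne_zero (hg s _) (hg s _)) (fun s hs hs' a => ?_) (fun h => ?_) l'
      (by omega) a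
    · by_cases hs2 : s = s1
      · subst hs2
        change g s (a + dt (Y s) k) / g s a = 1
        rw [hk1, add_zero, div_self (hg s a)]
      · have h3 := h1 s (by
          rw [Finset.mem_insert]
          rintro (h | h)
          · exact hs2 h
          · exact hs h) hs'
        change g s (a + dt (Y s) k) / g s a = 1
        rw [h3, h3, div_one]
    · have h4 : ∀ s, (dm (dt (Y s) k) (g s) (dt (Y s) h)) ^ ε s =
          g s (dt (Y s) (h + k)) ^ ε s / g s (dt (Y s) h) ^ ε s := by
        intro s
        rw [dm, div_zpow, dt_add]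
      simp only [h4]
      rw [Finset.prod_div_distrib, hF, hF, div_one]

end PL1aux

theorem t_PL1 : PL1_Stmt := by
  intro p d _ hp ι _ _ Y ε s0 hε h0 hY f hf hF
  refine ⟨(Finset.univ.erase s0).card, fun l hl a => ?_⟩
  refine PL1aux.step hp Y ε s0 hε h0 hY (Finset.univ.erase s0) (Finset.notMem_erase s0 _)
    (fun _ => f) (fun _ => hf) (fun s hs hs' => ?_) hF l hl a
  exact absurd (Finset.mem_erase.2 ⟨hs', Finset.mem_univ s⟩) hs

end Pool.Agent.UAB
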