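import Pool.Agent.UAB.St

/-!
# Products of two linear forms (MP_e32761_co, module QUA)
-/

set_option autoImplicit false

namespace Pool.Agent.UAB

open Finset
open Pool.Agent.UAA (G)

namespace QUAaux

variable {p d : ℕ}

theorem dt_single (k : G p d) (i : Fin d) (c : ZMod p) : dt k (Pi.single i c) = k i * c := by
  unfold dt
  rw [Finset.sum_eq_single i]
  · simp
  · intro j _ hj
    simp [hj]
  · intro h
    exact absurd (Finset.mem_univ i) h

theorem dt_add (k x y : G p d) : dt k (x + y) = dt k x + dt k y := by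
  unfold dt
  rw [← Finset.sum_add_distrib]
  exact Finset.sum_congr rfl fun i _ => by simp [mul_add]

theorem dt_sub (k x y : G p d) : dt k (x - y) = dt k x - dt k y := by
  unfold dt
  rw [← Finset.sum_sub_distrib]
  exact Finset.sum_congr rfl fun i _ => by simp [mul_sub]

theorem dt_smul (k x : G p d) (c : ZMod p) : dt k (c • x) = c * dt k x := by
  unfold dt
  rw [Finset.mul_sum]
  exact Finset.sum_congr rfl fun i _ => by simp only [Pi.smul_apply, smul_eq_mul]; ring

theorem smul_dt (k x : G p d) (c : ZMod p) : dt (c • k) x = c * dt k x := by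
  unfold dt
  rw [Finset.mul_sum]
  exact Finset.sum_congr rfl fun i _ => by simp only [Pi.smul_apply, smul_eq_mul]; ring

theorem sub_dt (k l x : G p d) : dt (k - l) x = dt k x - dt l x := by
  unfold dt
  rw [← Finset.sum_sub_distrib]
  exact Finset.sum_congr rfl fun i _ => by simp [sub_mul]

theorem zero_dt (x : G p d) : dt (0 : G p d) x = 0 := by
  unfold dt
  simp

theorem ext_dt {k l : G p d} (h : ∀ x, dt k x = dt l x) : k = l := by
  funext i
  have := h (Pi.single i 1)
  rwa [dt_single, dt_single, mul_one, mul_one] at this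

theorem exists_one [Fact p.Prime] {k : G p d} (hk : k ≠ 0) : ∃ x, dt k x = 1 := by
  obtain ⟨i, hi⟩ := Function.ne_iff.1 hk
  refine ⟨Pi.single i (k i)⁻¹, ?_⟩
  rw [dt_single]
  exact mul_inv_cancel₀ hi

/-- A subspace is not the union of two proper subspaces. -/
theorem split [Fact p.Prime] (a b : G p d) (W : G p d → Prop)
    (hW : ∀ x y, W x → W y → W (x + y)) (h : ∀ x, W x → dt a x * dt b x = 0) :
    (∀ x, W x → dt a x = 0) ∨ (∀ x, W x → dt b x = 0) := by
  by_contra hcon
  rw [not_or] at hcon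
  obtain ⟨h1, h2⟩ := hcon
  push Not at h1 h2
  obtain ⟨x, hx, hax⟩ := h1
  obtain ⟨y, hy, hby⟩ := h2
  have hbx : dt b x = 0 := (mul_eq_zero.1 (h x hx)).resolve_left hax
  have hay : dt a y = 0 := (mul_eq_zero.1 (h y hy)).resolve_right hby
  have h3 := h (x + y) (hW x y hx hy)
  rw [dt_add, dt_add, hbx, hay, add_zero, zero_add] at h3
  rcases mul_eq_zero.1 h3 with h4 | h4
  · exact hax h4
  · exact hby h4

theorem split_all [Fact p.Prime] (a b : G p d) (h : ∀ x, dt a x * dt b x = 0) :
    a = 0 ∨ b = 0 := by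
  rcases split a b (fun _ => True) (fun _ _ _ _ => trivial) (fun x _ => h x) with h1 | h1
  · exact Or.inl (ext_dt fun x => by rw [h1 x trivial, zero_dt])
  · exact Or.inr (ext_dt fun x => by rw [h1 x trivial, zero_dt])

theorem prop_of_ker [Fact p.Prime] {k k' : G p d} (hk : k ≠ 0) (hk' : k' ≠ 0)
    (h : ∀ x, dt k' x = 0 → dt k x = 0) : ∃ c : ZMod p, c ≠ 0 ∧ k' = c • k := by
  obtain ⟨y, hy⟩ := exists_one hk'
  have h1 : ∀ x, dt k x = dt k y * dt k' x := by
    intro x
    have h2 := h (x - dt k' x • y) (by rw [dt_sub, dt_smul, hy, mul_one, sub_self])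
    rw [dt_sub, dt_smul] at h2
    rw [sub_eq_zero.1 h2, mul_comm]
  have h3 : dt k y ≠ 0 := by
    intro h4
    apply hk
    exact ext_dt fun x => by rw [h1 x, h4, zero_mul, zero_dt]
  refine ⟨(dt k y)⁻¹, inv_ne_zero h3, ext_dt fun x => ?_⟩
  rw [smul_dt, h1 x, ← mul_assoc, inv_mul_cancel₀ h3, one_mul]

theorem main_case [Fact p.Prime] {k l k' l' : G p d} (hk : k ≠ 0) (hk' : k' ≠ 0)
    (h : ∀ x, dt k x * dt l x = dt k' x * dt l' x) (hker : ∀ x, dt k' x = 0 → dt k x = 0) :
    ∃ c : ZMod p, c ≠ 0 ∧ k' = c • k ∧ l = c • l' := by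
  obtain ⟨c, hc, h1⟩ := prop_of_ker hk hk' hker
  refine ⟨c, hc, h1, ?_⟩
  have h2 : ∀ x, dt k x * dt (l - c • l') x = 0 := by
    intro x
    have h3 := h x
    rw [h1, smul_dt] at h3
    rw [sub_dt, smul_dt]
    linear_combination h3
  rcases split_all _ _ h2 with h4 | h4
  · exact absurd h4 hk
  · exact sub_eq_zero.1 h4

end QUAaux

open QUAaux in
theorem t_QUA : QUA_Stmt := by
  intro p d _ hp k l k' l' hk hl h
  have : Fact p.Prime := ⟨hp⟩
  have hk' : k' ≠ 0 := by
    intro h0
    have h1 : ∀ x, dt k x * dt l x = 0 := fun x => by rw [h x, h0, zero_dt, zero_mul]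
    rcases split_all k l h1 with h2 | h2
    · exact hk h2
    · exact hl h2
  rcases split k l (fun x => dt k' x = 0)
      (fun x y hx hy => by rw [dt_add, hx, hy, add_zero])
      (fun x hx => by rw [h x, hx, zero_mul]) with h1 | h1
  · obtain ⟨c, hc, h2, h3⟩ := main_case hk hk' h h1
    exact ⟨c, hc, Or.inl ⟨h2, h3⟩⟩
  · obtain ⟨c, hc, h2, h3⟩ := main_case (k := l) (l := k) hl hk'
      (fun x => by rw [mul_comm, h x]) h1
    exact ⟨c, hc, Or.inr ⟨h2, h3⟩⟩

end Pool.Agent.UAB
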