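import Pool.Agent.UAB.Bas

/-!
# The statements of the modules

Theorem: let `p ≥ 5` be prime. For all but a proportion `K p^{-d/10}` of the symmetric sets
`C ⊂ ℤ_p^d ∖ 0` the Cayley graph `X(ℤ_p^d, C)` has no uniform mixing at any time.

Notation: `n = nn p d = p ^ d`, `x·h = dt x h`, `χ = ZMod.stdAddChar`, `E` is the mean over the subsets `A`
of a fixed `H` with `Half H`, `f_α(a) = χ(α a²)`, `w_x = wt f A x = ∏_{h ∈ A} f(x·h)`.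

IDEA. A vector of unimodular numbers is flat if and only if `T4f w = n²`, otherwise `T4f w > n²`
(Cauchy-Schwarz). We show that for almost all `A` the inequality `T4f (wt f A) > n²` holds for ALL even
unimodular `f` except `f = κ f_α`, `α ≠ 0`; the phases `f = ft p t` of a uniform mixing time are not of this
form.
(1) `T4f w = 2 n² + S4 w + 4 Re (conj (w 0) T3 w) + O(n + |T2 w|²)`, where `S4` is the sum over the good
quadruples (`DE2`).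
(2) Bulk. If `f` is not within `C √(log n / n)` of the functions `κ f_α` (`Far`), then high moments show
`|S4 (wt f A)| ≤ n²/4`, for all such `f` simultaneously. The moments are
`E ∏ values = ∏_{h ∈ H} (1 + FF(h)) / 2`; terms with `FF ≡ 1` need a linear relation
(structure theorem `STR`): `f` is then a polynomial phase of degree at least 3 and the dimension of the
span of the vectors is small (`LEM`).
(3) Windows `f = κ f_α e^{iδ}`, `|δ| ≤ C √(log n/n)`. For `α ≠ 0`: `S4(δ) ≈ e^{-2σ(δ)} S4(0)`,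
`T4f(0) = n² p^j`; so `T4f ≥ 2n² - e^{-2σ} n² - small > n²` if `δ` is not very small; for very small
`δ` use analyticity along the ray (`RAP`, `RAY`). For `α = 0` either `T1` or `S4` shows that the vector is
not flat (`ZWI`).
Uniformity in `f` (respectively `δ`): a grid with spacing `n^{-1/2-16τ}` and polynomial interpolation of
exponential sums (`INT`), `τ = tau p = 1/(1600p)`.

Conventions: every module proves `theorem t_X (h1 : A_Stmt) (h2 : B_Stmt) … : X_Stmt` with the hypotheses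
named in the doc-string (fewer or, if needed, more of the other statements of this file are fine).
Events are counted by `Set.ncard {A | A ⊆ H ∧ …}`, means by `∑ A ∈ H.powerset`; Markov's inequality is
`mkv` in `Bas.lean`.
-/

set_option autoImplicit false

namespace Pool.Agent.UAB

open Finset Filter Topology
open Pool.Agent.UAA (G ch nn)

/-! ### Part A: generalities -/

/-- Half sets.

Proof. `c = -c` implies `2 c = 0`, `c = 0` (`p` odd). Existence: an equivalence `e : G p d ≃ Fin n` and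
`H = {c | e c < e (-c)}`. Cardinality and sums: `G = {0} ∪ H ∪ -H` disjointly. -/
def HLF_Stmt : Prop := ∀ (p d : ℕ) [NeZero p], p.Prime → p ≠ 2 →
  (∃ H : Finset (G p d), Half H) ∧ ∀ H : Finset (G p d), Half H →
    2 * H.card + 1 = p ^ d ∧
    ∀ φ : G p d → ℂ, (∀ c, φ (-c) = φ c) → 2 * ∑ h ∈ H, φ h + φ 0 = ∑ c, φ c

/-- Uniform distribution of scalar products.

Proof. Linear maps: `c ↦ dt x c` (`c ↦ (dt x c, dt y c)`) is onto, all fibres have `n/p` (`n/p²`)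
elements. (3) The fibre through `h` is a coset of the kernel of `G → (ι → ZMod p)`, the image has at most
`p ^ card ι` elements. -/
def UDF_Stmt : Prop := ∀ (p d : ℕ) [NeZero p], p.Prime →
  (∀ x : G p d, x ≠ 0 → ∀ φ : ZMod p → ℂ,
    (p : ℂ) * ∑ c, φ (dt x c) = (nn p d : ℂ) * ∑ a, φ a) ∧
  (∀ x y : G p d, LinearIndependent (ZMod p) ![x, y] → ∀ φ ψ : ZMod p → ℂ,
    (p : ℂ) ^ 2 * ∑ c, φ (dt x c) * ψ (dt y c) = (nn p d : ℂ) * (∑ a, φ a) * ∑ a, ψ a) ∧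
  ∀ (ι : Type) [Fintype ι] (Y : ι → G p d) (h : G p d),
    nn p d ≤ (p : ℝ) ^ Fintype.card ι *
      (Set.ncard {c : G p d | ∀ s, dt (Y s) c = dt (Y s) h} : ℝ)

/-- Transfer from connection sets to subsets of `H`.

Proof. (1) `A ↦ A ∪ -A` is a bijection from the subsets of `H` onto the symmetric sets without `0`
(inverse `C ↦ C ∩ H`). (2) `row_eq` (`Lib_helper58/CayleyUM2.lean`): `n row(b) = ∑_ψ e^{i t λ_ψ} ψ(-b)`;
characters are `chr x` (`UMix/Flat.lean`), `λ_x = ∑_{h ∈ A} (χ(x·h) + χ(-x·h))`, so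
`e^{i t λ_x} = wt (ft p t) A x`. -/
def TRF_Stmt : Prop := ∀ (p d : ℕ) [NeZero p], p.Prime → p ≠ 2 → ∀ H : Finset (G p d), Half H →
  (∀ P : Finset (G p d) → Prop,
    Set.ncard {C : Finset (G p d) | ((0 : G p d) ∉ C ∧ ∀ c ∈ C, -c ∈ C) ∧ P C} =
      Set.ncard {A : Finset (G p d) | A ⊆ H ∧ P (A ∪ A.image fun c => -c)}) ∧
  ∀ A : Finset (G p d), A ⊆ H → ∀ t : ℝ,
    (Pool.Agent.Lib_helper58.CayleyUM.Flat (A ∪ A.image fun c => -c) t ↔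
      FlatV (wt (ft p t) A))

/-- The flow avoids the functions `κ f_α`, `α ≠ 0`.

Proof. Let `θ(a) = 2 cos(2πa/p)`, `ft p t a = e^{itθ(a)}`. If `ft p t a = κ χ(α a²)` then
`e^{it(θ(a) - θ(0))}` is a `p`-th root of unity for all `a`: `p t (θ(1) - 2) = 2πm`, `p t (θ(2) - 2) = 2πm'`.
`t = 0` gives `χ(α) = 1`, `α = 0`. If `t ≠ 0` then `m ≠ 0` and `θ(2) - 2 = (θ(1) - 2)(θ(1) + 2)`, so
`θ(1) + 2 = m'/m` is rational; `θ(1)` is an algebraic integer, so an integer, which contradicts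
`cos_not_int` (`UMix/Eig.lean`, `p = 5` or `p ≥ 7`). -/
def FLW_Stmt : Prop := ∀ (p : ℕ) [NeZero p], p.Prime → 5 ≤ p → ∀ t : ℝ,
  EU (ft p t) ∧ ∀ α : ZMod p, α ≠ 0 → ¬ Qd (ft p t) α

/-- The fourth moment.

Proof. `W_b = ∑_x w_x ch b x`. `∑_b |W_b|⁴ = n T4f w` and `∑_b |W_b|² = n²` (orthogonality of
characters, `conj (ch b x) = ch b (-x)`). Cauchy-Schwarz: `∑ |W_b|⁴ ≥ (∑ |W_b|²)²/n = n³`. Flat: all `|W_b|²`
are `n`. Last part: `b = 0`. -/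
def DE1_Stmt : Prop := ∀ (p d : ℕ) [NeZero p], ∀ w : G p d → ℂ, (∀ x, ‖w x‖ = 1) →
  (nn p d : ℂ) * T4f w = ((∑ b, ‖∑ x, w x * ch b x‖ ^ 4 : ℝ) : ℂ) ∧
  (T4f w).im = 0 ∧ nn p d ^ 2 ≤ (T4f w).re ∧ (FlatV w → (T4f w).re = nn p d ^ 2) ∧
  (FlatV w → ‖∑ x, w x‖ ^ 2 = nn p d)

/-- Decomposition of the fourth moment.

Proof. Let `e = a + b - c`. Quadruples with all four vectors nonzero: (i) `a = c` or `b = c`:
`(n-1)(2n-3)` of them, value `1`; (ii) `a + b = 0`, `a ≠ ± c`: the sum is `|T2|² - 2(n-1)`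
(`w_{-x} = w_x`); (iii) the others which are collinear: at most `p² n`; (iv) good: `S4`. Quadruples with a
zero vector: with `u_b = ∑_{x≠0} w_x ch b x`, `W_b = w_0 + u_b`, `|W|⁴ = (|u|² + 2 Re(conj(w_0) u) + 1)²`, so
they contribute `4 Re(conj(w_0) T3) + 2 Re(conj(w_0)² T2) + 4(n-1) + 1`. Altogether
`T4f = 2n² - 3n + 2 + |T2|² + 2 Re(conj(w_0)² T2) + coll + S4 + 4 Re(conj(w_0) T3)`, and
`|T2|² + 2 Re(conj(w_0)² T2) ≥ -1`. `S4` is real: exchange `(a, b)` and `(c, e)`.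
`|T3|² ≤ n^{-2} ∑|u|⁴ ∑|u|² ≤ n T4'`, `T4'` the sum over (i) to (iv), `|T2| ≤ n - 1`. -/
def DE2_Stmt : Prop := ∀ (p d : ℕ) [NeZero p], p.Prime → p ≠ 2 → ∀ w : G p d → ℂ, EV w →
  (S4 w).im = 0 ∧
  |(T4f w).re - 2 * nn p d ^ 2 - (S4 w).re - 4 * ((starRingEnd ℂ) (w 0) * T3 w).re| ≤
    ((p : ℝ) ^ 2 + 3) * nn p d + ‖T2 w‖ ^ 2 + 2 * ‖T2 w‖ ∧
  2 * nn p d ^ 2 + (S4 w).re - ((p : ℝ) ^ 2 + 4) * nn p d - 4 * ‖T3 w‖ ≤ (T4f w).re ∧
  ‖T3 w‖ ^ 2 ≤ nn p d * (3 * nn p d ^ 2 + (p : ℝ) ^ 2 * nn p d + ‖S4 w‖)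

/-- Representation in the windows, trivial invariances.

Proof. (1) `wt f A x = κ^{|A|} χ(α ∑_{h∈A} (x·h)²) e^{i ∑_{h∈A} δ(x·h)}`, and
`∑_{h∈A} δ(x·h) = gd + (1/2) ∑_{h∈H} δ(x·h)`, for `x ≠ 0` `2 ∑_{h∈H} δ(x·h) + δ(0) = ∑_c δ(x·c) = 0`
(`HLF`, `UDF`). So `κ' = κ^{|A|} e^{-iδ(0)/4}`, `Z = wt f A 0 / κ'`. (2), (3) clear. -/
def WRE_Stmt : Prop := ∀ (p d : ℕ) [NeZero p], p.Prime → p ≠ 2 →
  (∀ H A : Finset (G p d), Half H → A ⊆ H → ∀ (f : ZMod p → ℂ) (α : ZMod p) (κ : ℂ)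
    (δ : ZMod p → ℝ), Rep f α κ δ →
    ∃ κ' Z : ℂ, ‖κ'‖ = 1 ∧ ‖Z‖ = 1 ∧ ∀ x, wt f A x = κ' * up Z (vd H A α δ) x) ∧
  (∀ (κ' : ℂ) (w : G p d → ℂ), ‖κ'‖ = 1 → T4f (fun x => κ' * w x) = T4f w ∧
    S4 (fun x => κ' * w x) = S4 w ∧ (FlatV (fun x => κ' * w x) ↔ FlatV w)) ∧
  (∀ (Z : ℂ) (v : G p d → ℂ), S4 (up Z v) = S4 v ∧ T3 (up Z v) = T3 v ∧ T2 (up Z v) = T2 v ∧
    T1 (up Z v) = T1 v ∧ ∑ x, up Z v x = Z + T1 v) ∧
  (∀ (H A : Finset (G p d)) (α : ZMod p) (δ : ZMod p → ℝ) (Z : ℂ), EM δ → ‖Z‖ = 1 →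
    EV (up Z (vd H A α δ))) ∧
  ∀ (f : ZMod p → ℂ) (A : Finset (G p d)), EU f → EV (wt f A)

/-! ### Part B: the structure theorem -/

/-- A slot alone on its line forces a polynomial phase.

Proof. For `s ≠ s0` and `u` there is `k` with `dt (Y s) k = 0` and `dt (Y s0) k = u`. Let `s_1, …, s_m` be
the other slots, `u_1, …, u_m` arbitrary, `k_j` for `(s_j, u_j)`. Take the multiplicative derivatives
`F(h + k_j)/F(h)` of `F = FF f Y ε ≡ 1` successively: the factor of the slot `s_j` becomes `1` under the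
derivative in the direction `k_j` (and stays `1`), so `dms [u_1, …, u_m] f (dt (Y s0) h) ^ (±1) = 1`, and
`dt (Y s0) h` takes all values (`Y s0 ≠ 0`). -/
def PL1_Stmt : Prop := ∀ (p d : ℕ) [NeZero p], p.Prime → ∀ (ι : Type) [Fintype ι]
  [DecidableEq ι] (Y : ι → G p d) (ε : ι → ℤ) (s0 : ι), (ε s0 = 1 ∨ ε s0 = -1) → Y s0 ≠ 0 →
  (∀ s, s ≠ s0 → Y s0 ∉ Submodule.span (ZMod p) {Y s}) → ∀ f : ZMod p → ℂ, (∀ a, f a ≠ 0) →
  (∀ h, FF f Y ε h = 1) →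
    ∃ m : ℕ, ∀ l : List (ZMod p), l.length = m → ∀ a, dms l f a = 1

/-- The same for real functions.

Proof. As `PL1` one gets `Δ_{u_1} … Δ_{u_m} δ = 0` for all `u_i` (`Δ_u δ (a) = δ (a + u) - δ a`). If
`Δ_u g = c_u` is constant for all `u` then `p c_u = ∑_{j<p} (g (a + (j+1)u) - g (a + j u)) = 0`. So by
descending induction `Δ_u δ = 0` for all `u`. -/
def REA_Stmt : Prop := ∀ (p d : ℕ) [NeZero p], p.Prime → ∀ (ι : Type) [Fintype ι]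
  [DecidableEq ι] (Y : ι → G p d) (ε : ι → ℤ) (s0 : ι), (ε s0 = 1 ∨ ε s0 = -1) → Y s0 ≠ 0 →
  (∀ s, s ≠ s0 → Y s0 ∉ Submodule.span (ZMod p) {Y s}) → ∀ δ : ZMod p → ℝ,
  (∀ h, ∑ s, (ε s : ℝ) * δ (dt (Y s) h) = 0) → ∀ a b, δ a = δ b

/-- The degree of a polynomial phase.

Proof. Let `m + 1` be minimal with `dms l f ≡ 1` for `|l| = m + 1` (`m + 1 = 0` would mean `f ≡ 1`, which is
`Qd f 0`). For `|l| = m` the function `dms l f` is constant, `= B(l)`; `B` is symmetric and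
multiplicative in every entry (`Δ_{u+v} g (a) = Δ_u g (a + v) Δ_v g (a)`), so `B(l) = χ(b ∏ l)`
(characters of `ZMod p`; induction on the entries), and `b ≠ 0` by minimality. `m = 0`: `f` is constant,
`Qd f 0`. `m = 1`: `f a = f 0 χ(b a)`, even, so `χ(2ba) = 1` for all `a`, `b = 0` (`p` odd), contradiction.
`m = 2`: `g a = f a / χ((b/2) a²)` has all second derivatives `1`, so `g a = g 0 χ(β a)`; `f` even gives
`β = 0`: `Qd f (b/2)`. -/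
def DEG_Stmt : Prop := ∀ (p : ℕ) [NeZero p], p.Prime → p ≠ 2 → ∀ f : ZMod p → ℂ, EU f →
  (∀ α : ZMod p, ¬ Qd f α) →
  (∃ m : ℕ, ∀ l : List (ZMod p), l.length = m → ∀ a, dms l f a = 1) →
    ∃ (m : ℕ) (b : ZMod p), 3 ≤ m ∧ b ≠ 0 ∧ ∀ l : List (ZMod p), l.length = m → ∀ a,
      dms l f a = (ZMod.stdAddChar (b * l.prod) : ℂ)

/-- Polarization of a relation.

Proof. Take the derivatives of `FF f Y ε ≡ 1` in the directions `k_1, …, k_m`: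
`∏_s χ(b ∏_j dt (Y s) (k j)) ^ ε s = 1`, so `χ(b ∑_s ε_s ∏_j …) = 1` and `χ` is injective. -/
def PL2_Stmt : Prop := ∀ (p d : ℕ) [NeZero p], p.Prime → ∀ (ι : Type) [Fintype ι]
  (Y : ι → G p d) (ε : ι → ℤ) (f : ZMod p → ℂ) (m : ℕ) (b : ZMod p), (∀ a, f a ≠ 0) → b ≠ 0 →
  (∀ l : List (ZMod p), l.length = m → ∀ a, dms l f a = (ZMod.stdAddChar (b * l.prod) : ℂ)) →
  (∀ h, FF f Y ε h = 1) → ∀ k : Fin m → G p d,
    ∑ s, (ε s : ZMod p) * ∏ j, dt (Y s) (k j) = 0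

/-- Vectors whose `m`-th powers satisfy a linear relation with nonzero coefficients, `m ≥ 3`.

Proof. `⟨x, k⟩ = ∑ x_i k_i`, `D = dim span Y`.
(1) Flattening: `U1 = {(⟨Y_t, v⟩)_t}`, `U2 = span {(∏_{j≥2} ⟨Y_t, k_j⟩)_t}` (products of `m - 1` factors) are
subspaces of `K^T` with `∑_t α_t u_t w_t = 0`, the form is nondegenerate, so `dim U1 + dim U2 ≤ |T|`, and
`dim U1 = D`.
(2) Let `B ⊂ T` be such that `Y|B` is a basis of `span Y`. Let `x_1, …, x_k ∈ T ∖ B` be a sequence of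
maximal length of distinct elements such that for every `i` there are `v, v'` with: each of the `Y_b`,
`b ∈ B`, and each of the `Y_{x_j}`, `j < i`, is orthogonal to `v` or to `v'`, and
`⟨Y_{x_i}, v⟩ ≠ 0 ≠ ⟨Y_{x_i}, v'⟩`. Then `dim U2 ≥ D + k`: the vectors `⟨Y_t, v_b⟩^{m-1}` (`v_b` dual to
`Y_b` in `B`) restricted to `B` are the unit vectors, the vectors `⟨Y_t, v⟩^{m-2} ⟨Y_t, v'⟩` vanish on `B`
and on `x_j`, `j < i`, and not at `x_i`: block triangular.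
(3) `W = span (Y_{x_1}, …, Y_{x_k})`. If `x ∈ T ∖ B` is not one of the `x_i`, and `Y_x = ∑ c_b Y_b`, then for
every `j` with `c_j ≠ 0`: `Y_x ∈ span {Y_j} + W`. (Otherwise there is `v'` orthogonal to `Y_j` and `W` with
`⟨Y_x, v'⟩ ≠ 0`; with `v = v_j` the sequence could be prolonged.) So if `Y_x ∉ W` then all `Y_j` with
`c_j ≠ 0` are not in `W` and are proportional to `Y_x` modulo `W`; there are at least two such `j`, as `Y_x`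
is not a multiple of a `Y_b`.
(4) `B_1 = {b ∈ B : Y_b ∉ W}`, `b ~ b'` if `Y_b` and `Y_b'` are proportional modulo `W`, `J` the set of the
`b ∈ B_1` which are alone in their class. `W` contains the independent vectors `Y_b`, `b ∈ B ∖ B_1`, and
`Y_b - s Y_r`, `b ≠ r` in a class with representative `r`; so `|B ∖ J| ≤ 2 dim W ≤ 2k`.
(5) Restrict the relation to `k_1, …, k_m ∈ W^⊥` and group the `t` with `Y_t ∉ W` by classes (every such `Y_t`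
is proportional modulo `W` to some `Y_b`, `b ∈ B_1`, by (3)): `∑_κ β_κ ∏_j ⟨Y_{r_κ}, k_j⟩ = 0`. For `j ∈ J`
the class contains only `t = j` (by (3) the class of an `x` has two basis elements), `β_j = α_j ≠ 0`. Let
`𝒦` be the set of the classes with `β_κ ≠ 0`, `|𝒦| ≤ |B_1| ≤ D`. Flattening again, with `V = W^⊥`:
`dim {(⟨Y_{r_κ}, v⟩)_κ : v ∈ V} + dim span {(∏_{j≥2} ⟨Y_{r_κ}, k_j⟩)_κ} ≤ |𝒦| ≤ D`, the second dimension is
at least the first (powers of dual vectors of a basis), the first is at least `|J| - dim W ≥ |J| - k`. So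
`2(|J| - k) ≤ D`, and `|J| ≥ D - 2k`: `D ≤ 6k`.
(6) `|T| ≥ D + dim U2 ≥ 2D + k ≥ (13/6) D`. -/
def LEM_Stmt : Prop := ∀ (K : Type) [Field K] (d m : ℕ) (T : Type) [Fintype T]
  (Y : T → Fin d → K) (α : T → K), 3 ≤ m → (∀ t, α t ≠ 0) → (∀ t, Y t ≠ 0) →
  (∀ s t, s ≠ t → ∀ c : K, Y s ≠ c • Y t) →
  (∀ k : Fin m → Fin d → K, ∑ t, α t * ∏ j, ∑ i, Y t i * k j i = 0) →
    13 * Module.finrank K (Submodule.span K (Set.range Y)) ≤ 6 * Fintype.card T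

/-- The dimension of the span of good quadruples and the number of lines.

Proof. A line of a quadruple is the span of one of its four (nonzero) vectors. For a good quadruple and
a line `ℓ` of it let `σ_ℓ` be the sum of `sg j • vec t j` over the `j` with `vec t j ∈ ℓ`. Then `σ_ℓ ≠ 0`: one
vector: clear; two vectors: `a+b ≠ 0`, `c+e = a+b`, `a-c ≠ 0`, `b-e = c-a`, `b-c ≠ 0`, `a-e = c-b`; three
vectors on a line would force the fourth (`a + b = c + e`) and the quadruple is not collinear. `∑_ℓ σ_ℓ = 0`.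
Let `P_i` be the span of `X '' B` and of the vectors of the first `i` quadruples, `k_i` the number of the
lines of the `i`-th quadruple which are neither spanned by a vector of `B` nor lines of the earlier
quadruples. If `k_i ≥ 1` then modulo `P_i` the sum of the `σ_ℓ` over the new lines is `0`, so
`dim P_{i+1} ≤ dim P_i + k_i - 1 ≤ dim P_i + (3/4) k_i` (`k_i ≤ 4`); if `k_i = 0` the dimension does not grow.
`∑ k_i` is the number of the lines of the slots outside `B`. -/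
def GRD_Stmt : Prop := ∀ (p d N : ℕ) [NeZero p], p.Prime →
  ∀ Q : Fin N → G p d × G p d × G p d, (∀ i, Gq (Q i)) → ∀ B : Set (Fin N × Fin 4),
  (∀ s ∈ B, ∀ s', Submodule.span (ZMod p) {X Q s'} = Submodule.span (ZMod p) {X Q s} →
    s' ∈ B) →
  4 * rk (X Q) ≤ 4 * Module.finrank (ZMod p) (Submodule.span (ZMod p) (X Q '' B)) +
    3 * Set.ncard ((fun s => Submodule.span (ZMod p) {X Q s}) '' Bᶜ)

/-- **Structure theorem.**

Hypotheses `PL1`, `DEG`, `PL2`, `LEM`, `GRD`.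

Proof. (a) Every line is spanned by at least two slots: `GRD` with `B = ∅`: `4 rk ≤ 3 · (4N)/2`. (b) Some
slot is alone on its line: `PL1`, `DEG` give `m ≥ 3` and `b`, `PL2` gives `∑_s ε_s ∏_j dt (X s) (k j) = 0`.
Choose a representative slot `r(s)` of the line of every slot, `X s = c_s X r(s)`,
`α_r = ∑_{s : r(s) = r} ε_s c_s^m`, `T = {r : α_r ≠ 0}`. `LEM` for `T`: `13 dim span (X|T) ≤ 6|T|`. Let `B` be
the set of the slots `s` with `r(s) ∈ T`; `span X''B = span X''T`, `|T| ≤ |B|`. A line with only one slot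
has `α = ± c^m ≠ 0`, so the lines of the slots outside `B` have at least two slots each,
`2 · #lines ≤ |Bᶜ|`. `GRD`: `52 rk ≤ 52 dim span X''B + 39 #lines ≤ 24|B| + (39/2)|Bᶜ| ≤ 96 N`. -/
def STR_Stmt : Prop := ∀ (p d N : ℕ) [NeZero p], p.Prime → p ≠ 2 →
  ∀ (Q : Fin N → G p d × G p d × G p d) (η : Fin N → ℤ), Fam Q η → ∀ f : ZMod p → ℂ, EU f →
  (∀ α : ZMod p, ¬ Qd f α) → (∀ h, FF f (X Q) (ee η) h = 1) → 13 * rk (X Q) ≤ 24 * N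

/-- The real version.

Hypotheses `REA`, `GRD`. Proof. If no slot is alone on its line, `GRD` with `B = ∅` gives
`4 rk ≤ 3 · 2N`. So some slot is alone on its line: `REA`. -/
def STQ_Stmt : Prop := ∀ (p d N : ℕ) [NeZero p], p.Prime → p ≠ 2 →
  ∀ (Q : Fin N → G p d × G p d × G p d) (η : Fin N → ℤ), Fam Q η → 3 * N < 2 * rk (X Q) →
  ∀ δ : ZMod p → ℝ, (∀ h, ∑ s, (ee η s : ℝ) * δ (dt (X Q s) h) = 0) → ∀ a b, δ a = δ b

/-- Compactness.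

Proof. Every `f` with `EU f` has a representation `Rep f 0 κ δ` with `|δ a| ≤ 2π` (argument of `f a`, minus
the mean). If there is no `c`: for every `k` there is `f_k`, `EU f_k`, such that for all representations and
all `v ∈ V` there is `a` with `‖F_k(v) - 1‖ < |δ a|/(k+1)`, `F_k(v) = ∏ f_k(v s)^{ε s}`. So `F_k(v) → 1` for
all `v ∈ V`. The `f_k` lie in a compact set; let `f*` be a limit of a subsequence: `EU f*`, `F*(v) = 1` on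
`V`, so `f* a = κ* χ(α a²)`, `‖κ*‖ = 1`. For large `k` write `f_k a = κ* χ(α a²) e^{iγ_k(a)}` with `γ_k → 0`
(even), `δ_k = γ_k - mean`, `κ_k = κ* e^{i mean}`: `Rep f_k α κ_k δ_k`, `δ_k → 0`. As `∑ ε = 0` and
`F*(v) = 1`, `F_k(v) = e^{iL_v(δ_k)}`, `L_v(δ) = ∑ ε_s δ(v s)`, `‖F_k(v) - 1‖ ≥ |L_v(δ_k)|/2` for large `k`.
The linear map `δ ↦ (L_v δ)_{v ∈ V}` is injective on the `δ` with `∑ δ = 0` (third hypothesis), so
`max_v |L_v(δ)| ≥ c' max_a |δ a|`: contradiction for large `k` (if `δ_k = 0` the strict inequality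
`‖…‖ < 0` is absurd; `V` is nonempty by the third hypothesis). -/
def CMV_Stmt : Prop := ∀ (p : ℕ) [NeZero p], p.Prime → p ≠ 2 → ∀ (ι : Type) [Fintype ι]
  (ε : ι → ℤ) (V : Set (ι → ZMod p)), ∑ s, ε s = 0 →
  (∀ f : ZMod p → ℂ, EU f → (∀ v ∈ V, ∏ s, f (v s) ^ ε s = 1) → ∃ α : ZMod p, Qd f α) →
  (∀ δ : ZMod p → ℝ, (∀ v ∈ V, ∑ s, (ε s : ℝ) * δ (v s) = 0) → ∀ a b, δ a = δ b) →
  ∃ c : ℝ, 0 < c ∧ ∀ f : ZMod p → ℂ, EU f → ∃ (α : ZMod p) (κ : ℂ) (δ : ZMod p → ℝ),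
    Rep f α κ δ ∧ ∃ v ∈ V, ∀ a, c * |δ a| ≤ ‖∏ s, f (v s) ^ ε s - 1‖

/-- Uniform version for all families of large rank.

Hypotheses `CMV`, `STR`, `STQ`. Proof. `V = {(dt (X s) h)_s : h}`, `ε = ee η`, `∑ ε = 0`. If
`24 N < 13 rk` then `V` satisfies the hypotheses of `CMV` by `STR` and `STQ` (`3N < 2 rk`). There are only
finitely many pairs `(η, V)` (`V` is a subset of the finite type `Fin N × Fin 4 → ZMod p`): take the
minimum of the constants over the pairs which satisfy the hypotheses. -/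
def CMP_Stmt : Prop := ∀ (p N : ℕ) [NeZero p], p.Prime → p ≠ 2 → ∃ c : ℝ, 0 < c ∧
  ∀ (d : ℕ) (Q : Fin N → G p d × G p d × G p d) (η : Fin N → ℤ), Fam Q η →
  24 * N < 13 * rk (X Q) → ∀ f : ZMod p → ℂ, EU f →
  ∃ (α : ZMod p) (κ : ℂ) (δ : ZMod p → ℝ), Rep f α κ δ ∧
    ∃ h : G p d, ∀ a, c * |δ a| ≤ ‖FF f (X Q) (ee η) h - 1‖

/-- Families of small rank are few.

Proof. The `3N` vectors `a_i, b_i, c_i` of the family span the same space as all slots. Choose a subset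
`J` of the `3N` indices such that the vectors of `J` are a basis; `|J| = rk ≤ D`; the family is determined by
`J`, the vectors of `J`, and the coefficients of the `3N` vectors: at most
`∑_J n^{|J|} p^{3N|J|} ≤ 2^{3N} n^D p^{9N²}`. -/
def CTD_Stmt : Prop := ∀ (p d N D : ℕ) [NeZero p], p.Prime →
  (Set.ncard {Q : Fin N → G p d × G p d × G p d | rk (X Q) ≤ D} : ℝ) ≤
    2 ^ (3 * N) * (p : ℝ) ^ (9 * N ^ 2) * nn p d ^ D

/-! ### Part C: the bulk -/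

/-- High moments of `S4`.

Hypotheses `CMP` (`N = 2k`), `CTD`, `UDF`, `HLF`.

Proof. `‖S4 w‖^{2k} = S4^k conj(S4)^k`, and for unimodular `w` the value of a quadruple is
`∏_j w(vec t j)^{sg j}`, its conjugate is the inverse. So `‖S4 (wt f A)‖^{2k}` is the sum over the families
`Q` of `2k` good quadruples of `∏_{h∈A} FF f (X Q) (ee η) h`, `η i = 1` for `i < k` and `-1` for `i ≥ k`, and
the sum over `A` is `∑_Q ∏_{h∈H} (1 + FF(h))`. Families with `13 rk ≤ 48k`: at most `C n^{48k/13}` by `CTD`,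
each at most `2^{|H|}`. The others (at most `n^{6k}`): by `CMP` and `Far` there is `h0` with
`|FF(h0) - 1| ≥ c1 ρ`; `FF(h)` depends only on the values `dt (X s) h`, so by `UDF` (3) at least
`n/p^{8k}` elements `h` of `G` have the same `FF(h)`, hence (`FF` is even, `HLF`) at least
`(n/p^{8k} - 1)/2` elements of `H`; there `|1 + FF|² = 4 - |FF - 1|² ≤ 4 - c1²ρ²`,
`|1 + FF|/2 ≤ 1 - c1²ρ²/8 ≤ exp(-c1²ρ²/8)`. -/
def MOM_Stmt : Prop := ∀ (p k : ℕ) [NeZero p], p.Prime → p ≠ 2 → ∃ C c : ℝ, 0 ≤ C ∧ 0 < c ∧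
  ∀ (d : ℕ) (H : Finset (G p d)), Half H → ∀ ρ : ℝ, 0 ≤ ρ → ∀ f : ZMod p → ℂ, EU f →
  Far ρ f → ∑ A ∈ H.powerset, ‖S4 (wt f A)‖ ^ (2 * k) ≤
    2 ^ H.card * (C * (nn p d ^ (48 * (k : ℝ) / 13) +
      nn p d ^ (6 * k) * Real.exp (-(c * ρ ^ 2 * nn p d))))

/-- Most `A` are typical.

Proof. For `x ≠ 0` `Dv A x a = ∑_{h∈A} c_h`, `c_h ∈ {0, 1, 2}`, mean `(1/2) ∑_{h∈H} c_h = (n/p - [a = 0])/2`
(`HLF`, `UDF`). `E e^{s(Dv - mean)} = ∏ cosh(s c_h/2) ≤ e^{s²n/4}`, so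
`P(|Dv - mean| > t) ≤ 2 e^{-t²/n}`; `t = n^{1/2+τ}` and the sum over at most `p n` pairs `(x, a)`:
`n · p n · 2 e^{-n^{2τ}}` is bounded. -/
def TYA_Stmt : Prop := ∀ (p : ℕ) [NeZero p], p.Prime → p ≠ 2 → ∀ τ : ℝ, 0 < τ → ∃ K : ℝ,
  ∀ (d : ℕ) (H : Finset (G p d)), Half H →
    (Set.ncard {A : Finset (G p d) | A ⊆ H ∧ ¬ Ty τ A} : ℝ) * nn p d ≤ K * 2 ^ H.card

/-- Interpolation of exponentials on a grid.

Proof. One variable: `ℓ_ν(t) = ∏_{μ≠ν, μ≤K} (t - μ)/(ν - μ)`; Lagrange interpolation is exact for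
polynomials of degree at most `K`, the Taylor polynomial of degree `K` of `e^{iλt}` has error at most
`|λ t|^{K+1}` (`t ≤ K`), so the error is at most `C |λ|^{K+1}`. Several variables: `ℓ t ν = ∏_i ℓ_{ν i}(t i)`
and the telescoping product (all factors are bounded). -/
def INT_Stmt : Prop := ∀ (ι : Type) [Fintype ι] [DecidableEq ι] (K : ℕ),
  ∃ (C : ℝ) (ℓ : (ι → ℝ) → (ι → Fin (K + 1)) → ℝ), 0 ≤ C ∧
    (∀ t : ι → ℝ, (∀ i, 0 ≤ t i ∧ t i ≤ 1) → ∀ ν, |ℓ t ν| ≤ C) ∧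
    ∀ t : ι → ℝ, (∀ i, 0 ≤ t i ∧ t i ≤ 1) → ∀ (lam : ι → ℝ) (η : ℝ), 0 ≤ η → η ≤ 1 →
      (∀ i, |lam i| ≤ η) →
      ‖Complex.exp (Complex.I * ((∑ i, lam i * t i : ℝ) : ℂ)) -
        ∑ ν, (ℓ t ν : ℂ) *
          Complex.exp (Complex.I * ((∑ i, lam i * ((ν i : ℕ) : ℝ) : ℝ) : ℂ))‖ ≤ C * η ^ (K + 1)

/-- The bulk.

Hypotheses `MOM` (`k = 13p`), `INT` (`ι = ZMod p`).

Proof. For `y : ZMod p → ℝ` put `f_y(a) = exp(i(y a + y(-a)))`; every `f` with `EU f` is some `f_y` with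
`0 ≤ y < 2π`... (half of an argument, chosen even). `wt f_y A x = exp(i ∑_a y(a) Dv A x a)`, so
`S4 (wt f_y A) = ∑_Q exp(i ∑_a y(a) λ_Q(a))`, `λ_Q(a) = ∑_j sg j Dv A (vec Q j) a`, `|λ_Q(a)| ≤ 8 n^{1/2+τ}` for
typical `A` (the main terms cancel). Grid `ρ' = n^{-1/2-16τ}`: `y = ρ'(m + t)`, `m` integral, `t ∈ [0,1)^p`.
`INT` with `η = 8 n^{-15τ} ≤ 1` (large `n`) and fixed `K ≥ 1/τ`:
`|S4(y) - ∑_ν ℓ(t,ν) S4(ρ'(m+ν))| ≤ C n³ η^{K+1} ≤ n²/16`. So if `|S4(y)| > n²/4` then some node has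
`|S4| ≥ n²/(8Λ)`, `Λ = C (K+1)^p`. The nodes are `ρ' m'` with `m' ∈ [0, 2π/ρ' + K + 1]^p` integral: at
most `C n^p`. If `f_y` is `Far (rn C1)` then the nodes are `Far (rn C1 / 2)` (they differ by
`e^{iδ'}`, `|δ'| ≤ 2(K+1)ρ'`, subtract the mean). Markov with `MOM`: for one node the proportion of the `A`
is at most `(8Λ)^{2k} n^{-4k} C (n^{48k/13} + n^{6k} exp(-c C1² log n/4)) ≤ C' n^{-4p}` if `C1` is large. -/
def BLK_Stmt : Prop := ∀ (p : ℕ) [NeZero p], p.Prime → p ≠ 2 → ∃ C K : ℝ, 0 < C ∧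
  ∀ (d : ℕ) (H : Finset (G p d)), Half H →
    (Set.ncard {A : Finset (G p d) | A ⊆ H ∧ Ty (tau p) A ∧ ∃ f : ZMod p → ℂ, EU f ∧
      Far (rn C p d) f ∧ nn p d ^ 2 / 4 < ‖S4 (wt f A)‖} : ℝ) * nn p d ≤ K * 2 ^ H.card

/-! ### Part D: tools for the windows -/

/-- Cosine products and the expectation formula.

Proof. (1) `Finset.prod_add`. (2) `|cos y - e^{-y²/2}| ≤ y⁴` and `0 ≤ cos y ≤ 1` for `|y| ≤ 1/2`, and
`|∏ a - ∏ b| ≤ ∑ |a - b|` for factors in `[0, 1]`. (3) `cos y ≤ 1 - y²/2 + y⁴/24 ≤ e^{-y²/2}`. -/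
def COS_Stmt : Prop :=
  (∀ (α : Type) [DecidableEq α] (H : Finset α) (a b : α → ℂ),
    ∑ A ∈ H.powerset, ∏ h ∈ H, (if h ∈ A then a h else b h) = ∏ h ∈ H, (a h + b h)) ∧
  (∀ (α : Type) (H : Finset α) (D : α → ℝ), (∀ h ∈ H, |D h| ≤ 1) →
    |∏ h ∈ H, Real.cos (D h / 2) - Real.exp (-(∑ h ∈ H, D h ^ 2) / 8)| ≤
      ∑ h ∈ H, D h ^ 4) ∧
  ∀ (α : Type) (H : Finset α) (D : α → ℝ), (∀ h ∈ H, |D h| ≤ 1) →
    |∏ h ∈ H, Real.cos (D h / 2)| ≤ Real.exp (-(∑ h ∈ H, D h ^ 2) / 8)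

/-- Variances.

Hypotheses `HLF`, `UDF`. Proof. (1) `2 ∑_{h∈H} δ(x·h)² + δ(0)² = (n/p) ∑ δ²`. (2)
`2 ∑_{h∈H} δ(x·h) δ(y·h) + δ(0)² = (n/p²)(∑ δ)² = 0`. -/
def VAR_Stmt : Prop := ∀ (p d : ℕ) [NeZero p], p.Prime → p ≠ 2 → ∀ H : Finset (G p d), Half H →
  ∀ δ : ZMod p → ℝ, EM δ →
  (∀ x : G p d, x ≠ 0 → ∑ h ∈ H, δ (dt x h) ^ 2 = 4 * sig p d δ - δ 0 ^ 2 / 2) ∧
  ∀ x y : G p d, LinearIndependent (ZMod p) ![x, y] →
    ∑ h ∈ H, δ (dt x h) * δ (dt y h) = -(δ 0 ^ 2) / 2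

/-- The expectation of a product of values of `vd` (every slot may have its own `δ`).

Hypotheses `COS` (1), `UDF` (3), `HLF`. `q(h) = ∑ ε_s (Y_s·h)²`, `D(h) = ∑ ε_s δ_s(Y_s·h)`.

Proof. `vd H A α δ x = ∏_{h∈H} (if h ∈ A then χ(α (x·h)²) e^{iδ(x·h)/2} else e^{-iδ(x·h)/2})` for `x ≠ 0` and
`A ⊆ H`. So the mean is `∏_{h∈H} (χ(α q(h)) e^{iD(h)/2} + e^{-iD(h)/2})/2`. (1) `α q ≡ 0`: `∏ cos(D(h)/2)`.
(2) Otherwise there is `h0` with `α q(h0) ≠ 0`, and by `UDF` (3), `HLF` at least `(n/p^M - 1)/2` elements of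
`H` have the same `q(h) ≠ 0`; there the modulus of the factor is `|cos(πj/p + D/2)|` with `1 ≤ j < p`, and
`|D| ≤ 1/p`, so it is at most `cos(π/(2p)) < 1`; all other factors are at most `1`. -/
def EXW_Stmt : Prop := ∀ (p M : ℕ) [NeZero p], p.Prime → p ≠ 2 → ∃ C c : ℝ, 0 ≤ C ∧ 0 < c ∧
  ∀ (d : ℕ) (H : Finset (G p d)), Half H → ∀ (α : ZMod p) (δ : Fin M → ZMod p → ℝ),
  (∀ s a, δ s (-a) = δ s a) → (∀ s a, M * |δ s a| ≤ 1 / p) → ∀ (Y : Fin M → G p d)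
  (ε : Fin M → ℤ), (∀ s, Y s ≠ 0) → (∀ s, ε s = 1 ∨ ε s = -1) →
  ((∀ h, α * ∑ s, (ε s : ZMod p) * dt (Y s) h ^ 2 = 0) →
    ∑ A ∈ H.powerset, ∏ s, vd H A α (δ s) (Y s) ^ ε s =
      2 ^ H.card *
        ((∏ h ∈ H, Real.cos ((∑ s, (ε s : ℝ) * δ s (dt (Y s) h)) / 2) : ℝ) : ℂ)) ∧
  ((∃ h, α * ∑ s, (ε s : ZMod p) * dt (Y s) h ^ 2 ≠ 0) →
    ‖∑ A ∈ H.powerset, ∏ s, vd H A α (δ s) (Y s) ^ ε s‖ ≤
      2 ^ H.card * (C * Real.exp (-(c * nn p d))))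

/-- Products of two linear forms.

Proof. A vector space is not the union of two proper subspaces. `k' ≠ 0` and `l' ≠ 0` (otherwise
`G = k^⊥ ∪ l^⊥`). `k'^⊥ ⊂ k^⊥ ∪ l^⊥`, so `k'^⊥ ⊂ k^⊥` or `k'^⊥ ⊂ l^⊥`, i.e. `k' = c k` or `k' = c l`, `c ≠ 0`.
If `k' = c k` then `(k·h)((l - c l')·h) = 0` for all `h`, so `l = c l'`. -/
def QUA_Stmt : Prop := ∀ (p d : ℕ) [NeZero p], p.Prime → ∀ k l k' l' : G p d, k ≠ 0 → l ≠ 0 →
  (∀ h, dt k h * dt l h = dt k' h * dt l' h) →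
  ∃ c : ZMod p, c ≠ 0 ∧ ((k' = c • k ∧ l = c • l') ∨ (k' = c • l ∧ k = c • l'))

/-- Pairs of good quadruples with the same quadratic form.

Hypothesis `QUA`. `q_t(h) = ∑_j sg j (vec t j · h)²`.

Proof. With `k = a - c`, `l = c - b` (both nonzero): `a = b + k + l`, `c = b + l`, `e = b + k`,
`q_t(h) = 2 (k·h)(l·h)`. (1) By `QUA` there are at most `2(p-1) n` quadruples `t'` with `q_{t'} = q_t` for a
given good `t` (`p` odd). (2) If `a, b, c` are dependent: at most `3 p² n²` such `t` (one of the vectors is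
a combination of the two others), the same for `t'`; if some `vec t' j = c • vec t i` then for given `t`
and given `(k', l')` there are at most `16 p` possibilities for the base point `b'`. -/
def PRC_Stmt : Prop := ∀ (p d : ℕ) [NeZero p], p.Prime → p ≠ 2 →
  (Set.ncard {t : (G p d × G p d × G p d) × (G p d × G p d × G p d) | Gq t.1 ∧ Gq t.2 ∧
    ∀ h, ∑ j, (sg j : ZMod p) * dt (vec t.1 j) h ^ 2 =
      ∑ j, (sg j : ZMod p) * dt (vec t.2 j) h ^ 2} : ℝ) ≤ 2 * p * nn p d ^ 4 ∧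
  (Set.ncard {t : (G p d × G p d × G p d) × (G p d × G p d × G p d) | Gq t.1 ∧ Gq t.2 ∧
    (∀ h, ∑ j, (sg j : ZMod p) * dt (vec t.1 j) h ^ 2 =
      ∑ j, (sg j : ZMod p) * dt (vec t.2 j) h ^ 2) ∧
    (¬ LinearIndependent (ZMod p) ![t.1.1, t.1.2.1, t.1.2.2] ∨
      ¬ LinearIndependent (ZMod p) ![t.2.1, t.2.2.1, t.2.2.2] ∨
      ∃ (i j : Fin 4) (c : ZMod p), vec t.2 j = c • vec t.1 i)} : ℝ) ≤
    50 * (p : ℝ) ^ 3 * nn p d ^ 3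

/-- The second moment of `S4(δ) - e^{-2σ} S4(0)`, `α ≠ 0`.

Hypotheses `COS`, `VAR`, `EXW` (`M = 8`), `PRC`.

Proof. Expand the square: pairs `(Q, Q')` of good quadruples, four terms
`E[V_Q(δ) conj V_Q'(δ)] - e^{-2σ} E[V_Q(δ) conj V_Q'(0)] - e^{-2σ} E[V_Q(0) conj V_Q'(δ)]
+ e^{-4σ} E[V_Q(0) conj V_Q'(0)]`; all four by `EXW` (slots with `δ_s = δ` or `δ_s = 0`). (a) `q_Q ≠ q_Q'`: all four terms are at most
`C e^{-cn}`, and there are at most `n⁶` pairs. (b) `q_Q = q_Q'`: the four terms are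
`∏ cos((δ_Q - δ_Q')/2)`, `e^{-2σ} ∏ cos(δ_Q/2)`, `e^{-2σ} ∏ cos(δ_Q'/2)`, `e^{-4σ}`, where
`δ_Q(h) = ∑_j sg j δ(vec Q j · h)`. For the pairs of `PRC` (2) bound by `4`. For the others the 8 vectors are
pairwise independent, so by `VAR` `∑_h (δ_Q - δ_Q')² = 32σ + O(D²)`, `∑_h δ_Q² = 16σ + O(D²)`, and by `COS` (2)
the terms are `e^{-4σ}`, up to `C(D² + n D⁴)` each (`∑_h (8D)⁴ ≤ 8⁴ n D⁴`): the bracket is at most
`4C(D² + n D⁴)`; at most `2p n⁴` pairs. -/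
def WS4_Stmt : Prop := ∀ (p : ℕ) [NeZero p], p.Prime → p ≠ 2 → ∃ C : ℝ, ∀ (d : ℕ)
  (H : Finset (G p d)), Half H → ∀ α : ZMod p, α ≠ 0 → ∀ δ : ZMod p → ℝ, EM δ → ∀ D : ℝ,
  (∀ a, |δ a| ≤ D) → D ≤ 1 / (20 * p) →
  ∑ A ∈ H.powerset,
      ‖S4 (vd H A α δ) - (Real.exp (-2 * sig p d δ) : ℂ) * S4 (vd H A α 0)‖ ^ 2 ≤
    2 ^ H.card * (C * (nn p d ^ 3 + nn p d ^ 5 * D ^ 4 + nn p d ^ 4 * D ^ 2))

/-- The second moments of `T3` and `T2`, `α ≠ 0`.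

Hypotheses `EXW` (`M = 6, 4`), `QUA`.

Proof. `T3`: pairs `(x, y)`, `(x', y')`; `q = -2(x·h)(y·h) + 2(x'·h)(y'·h)`, which vanishes for at most `2p`
pairs `(x', y')` for given `(x, y)` (`QUA`); the mean of the product is at most `1` in modulus, and for the
other pairs (at most `n⁴`) at most `C e^{-cn}`. `T2`: `q = 2(x·h)² - 2(x'·h)²` vanishes only for `x' = ± x`
(`QUA`). -/
def WS3_Stmt : Prop := ∀ (p : ℕ) [NeZero p], p.Prime → p ≠ 2 → ∃ C : ℝ, ∀ (d : ℕ)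
  (H : Finset (G p d)), Half H → ∀ α : ZMod p, α ≠ 0 → ∀ δ : ZMod p → ℝ, EM δ →
  (∀ a, |δ a| ≤ 1 / (20 * p)) →
  ∑ A ∈ H.powerset, ‖T3 (vd H A α δ)‖ ^ 2 ≤ 2 ^ H.card * (C * nn p d ^ 2) ∧
  ∑ A ∈ H.powerset, ‖T2 (vd H A α δ)‖ ^ 2 ≤ 2 ^ H.card * (C * nn p d)

/-- The fourth moment at `δ = 0`.

Proof. `vd H A α 0 x = χ(α q(x))` for all `x` (also `x = 0`), `q(x) = ∑_{h∈A} (x·h)²`, with bilinear form
`B(x, y) = ∑_{h∈A} (x·h)(y·h)`. With `k = a - c`: `q(a) + q(b) - q(c) - q(a+b-c) = 2 B(c - b, k)`. So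
`T4f = n ∑_{k,l} χ(2α B(l, k)) = n² |ker B|`, and `|ker B|` is a power of `p`. -/
def WKK_Stmt : Prop := ∀ (p d : ℕ) [NeZero p], p.Prime → p ≠ 2 → ∀ (H A : Finset (G p d))
  (α : ZMod p), α ≠ 0 → ∃ j : ℕ, T4f (vd H A α 0) = (nn p d : ℂ) ^ 2 * (p : ℂ) ^ j

/-- `gd` in terms of `Dv`.

Hypotheses `HLF`, `UDF`. Proof. For `x ≠ 0` and even `δ`:
`gd H A δ x = ∑_{h∈A} δ(x·h) - (1/2) ∑_{h∈H} δ(x·h) = (1/2) ∑_a δ(a) Dc(a)`,
`Dc(a) = Dv A x a - (n/p - [a = 0])/2`. With `δ = dz z`: `gd = ∑_a z(a) (Dc(a) - (1/p) ∑_b Dc(b))`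
(`Dc(-a) = Dc(a)`), and `|Dc(a)| ≤ 2 n^{1/2+τ} + 1/2`. (2): `dz (δ/2) = δ`. (3) For `δ` with `EM`:
`|gd| ≤ (1/2) ∑ |δ a| (2 n^{1/2+τ} + 1/2)` and `|δ a| ≤ √(∑δ²) = √(8pσ/n)`. -/
def MUU_Stmt : Prop := ∀ (p d : ℕ) [NeZero p], p.Prime → p ≠ 2 → ∀ H A : Finset (G p d),
  Half H → A ⊆ H → ∀ τ : ℝ, 0 < τ → Ty τ A →
  (∃ μ : G p d → ZMod p → ℝ, (∀ x, x ≠ 0 → ∀ a, |μ x a| ≤ 6 * nn p d ^ (1 / 2 + τ)) ∧
    ∀ (z : ZMod p → ℝ) (x : G p d), x ≠ 0 → gd H A (dz z) x = ∑ a, z a * μ x a) ∧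
  (∀ z : ZMod p → ℝ, EM (dz z)) ∧ (∀ δ : ZMod p → ℝ, EM δ → dz (fun a => δ a / 2) = δ) ∧
  ∀ (δ : ZMod p → ℝ) (x : G p d), EM δ → x ≠ 0 →
    |gd H A δ x| ≤ 6 * p ^ 2 * nn p d ^ τ * √(sig p d δ)

/-- The uniform event, `α ≠ 0`.

Hypotheses `WS4`, `WS3`, `INT` (`ι = ZMod p`), `MUU`.

Proof. Let `A` be typical, `δ = dz z`, `z = δ/2`. By `MUU` `S4 (vd H A α (dz z)) = ∑_Q χ(…) exp(i ∑_a z(a) μ_Q(a))`
with `|μ_Q(a)| ≤ 24 n^{1/2+τ}` (for `T3`, `T2` the same with `18`, `12`). Grid `ρ' = n^{-1/2-16τ}`,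
`z = ρ'(m + t)`, nodes `z_ν = ρ'(m + ν)`, `INT` with `η = 24 n^{-15τ}`, `K ≥ 1/τ`: error
`≤ C n³ η^{K+1} ≤ 1`. All nodes satisfy `|dz z_ν| ≤ 3 rn C` (large `n`); there are at most
`(C √(log n) n^{16τ})^p ≤ C n^{1/100} (log n)^{p/2}` nodes (`16 τ p = 1/100`). By Markov, except for a
proportion `C n^{-1/5+1/100} (log n)^{p/2+2}` of the `A`, all nodes satisfy
`|S4(z_ν) - e^{-2σ_ν} S4(0)| ≤ n^{15/8}` (`WS4`, `D = 3 rn C`), `|T3| ≤ n^{11/10}/(2Λ)`, `|T2| ≤ n^{3/5}/(2Λ)`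
(`WS3`), `Λ = ∑_ν C`. Then `S4(δ) = S4(0) ∑_ν ℓ_ν e^{-2σ_ν} + O(Λ n^{15/8}) + O(1)`, `∑_ν ℓ_ν = 1` (`INT` with
`lam = 0`), `|σ_ν - σ| ≤ C n^{-16τ} √(log n)`, so `|∑_ν ℓ_ν e^{-2σ_ν} - e^{-2σ}| ≤ e^{-2σ} C Λ n^{-16τ} √(log n)`
`≤ e^{-2σ} n^{-8τ}`. Small `n`: enlarge `K`. -/
def WIN_Stmt : Prop := ∀ (p : ℕ) [NeZero p], p.Prime → p ≠ 2 → ∀ C : ℝ, 0 < C → ∃ K : ℝ,
  ∀ (d : ℕ) (H : Finset (G p d)), Half H → ∀ α : ZMod p, α ≠ 0 →
    (Set.ncard {A : Finset (G p d) | A ⊆ H ∧ Ty (tau p) A ∧ ¬ WU C H A α} : ℝ) *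
      nn p d ^ (1 / 10 : ℝ) ≤ K * 2 ^ H.card

/-! ### Part E: the ray -/

/-- A function which is close to a polynomial and small on `[0, T]` has small Taylor coefficients.

Proof. `P(τ) = ∑_{k≤K} a_k τ^k` satisfies `|P| ≤ M + E` on `[0, T]`; the map from the polynomials of degree at
most `K` to their values at `0, 1/K, …, 1` is injective, so `|a_k| T^k ≤ C_K (M + E)`.
`|D(1) - P(1)| ≤ E/T^{K+1}`, and `a_0 = D(0)`. -/
def RAP_Stmt : Prop := ∀ K : ℕ, 1 ≤ K → ∃ C : ℝ, 0 ≤ C ∧ ∀ (D : ℝ → ℂ) (a : ℕ → ℂ)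
  (E M T : ℝ), 1 ≤ T → 0 ≤ E → 0 ≤ M →
  (∀ τ : ℝ, |τ| ≤ T → ‖D τ - ∑ k ∈ range (K + 1), a k * (τ : ℂ) ^ k‖ ≤
    E * (|τ| / T) ^ (K + 1)) →
  (∀ τ : ℝ, 0 ≤ τ → τ ≤ T → ‖D τ‖ ≤ M) →
  ‖D 1 - a 0 - a 1‖ ≤ C * (M + E) / T ^ 2 ∧ ‖D 1 - D 0‖ ≤ C * (M + E) / T

/-- No flat vector in the windows `α ≠ 0`, except at `δ = 0`.

Hypotheses `DE1`, `DE2`, `WRE`, `WKK`, `MUU`, `RAP`. Let `τ = tau p`, `v(δ) = vd H A α δ`, `σ = sig δ`.

Proof. `WKK`: `T4f(v(0)) = n² p^j`. By `DE2` (`T2 ≤ n^{3/5}`, `T3 ≤ n^{11/10}` for `δ` and for `0`)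
`T4f(up Z v(δ)) = 2n² + S4(v(δ)) + O(n^{6/5})`, `S4(v(0)) = n²(p^j - 2) + O(n^{6/5})`, all real.
Case `j ≥ 1`: `S4(v(0)) ≥ n² - O(n^{6/5}) > 0`, so by `WU` `S4(v(δ)) ≥ e^{-2σ} S4(v(0)) (1 - n^{-8τ}) - n^{2-8τ} ≥ -n^{2-8τ}`
and `T4f > n²` for large `n`.
Case `j = 0`: `v(0)` has `T4f = n²`. `S4(v(δ)) = -e^{-2σ} n² + O(n^{2-8τ})`, so
(*) `T4f(up Z v(δ)) = n² + n²(1 - e^{-2σ}) + O(n^{2-8τ})`. If `σ ≥ n^{-4τ}` then `n²(1 - e^{-2σ}) ≥ n^{2-4τ}/2`: done.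
Let `0 < σ < n^{-4τ}`, `s = √σ`, `T = n^{-2τ}/s ≥ 1`. Consider `F(r) = T4f(v(rδ))`, `v(rδ)_x = χ(…) e^{i r g_x}`,
`g_0 = 0`, `|g_x| ≤ C n^τ s` (`MUU`); `F` is a sum of `n³` terms `c e^{irG}`, `|G| ≤ 4 C n^τ s = η`, `η T = 4C n^{-τ}`.
Let `D(r) = F(r) - n² - n²(1 - e^{-2σr²})`. Taylor polynomials of degree `K` (`K` odd, `K τ ≥ 8`): for `|r| ≤ T`
the error is at most `n³ (η|r|)^{K+1} + n² (2σr²)^{(K+1)/2} ≤ E (|r|/T)^{K+1}` with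
`E = n³ (4C n^{-τ})^{K+1} + n² (2 n^{-4τ})^{(K+1)/2} ≤ 1` for large `n`. `sig (rδ) = r² σ`, for `r ≤ T` it is at
most `n^{-4τ}`, and `rδ` is in the window, so by (*) `|D(r)| ≤ M = C n^{2-8τ}`. `D(0) = 0`; `F(r) ≥ n² = F(0)` for
all real `r` (`DE1`), so `F'(0) = 0` and the coefficient `a_1` of `D` is `0`. `RAP`:
`|D(1)| ≤ C(M + 1)/T² ≤ C' n^{2-4τ} σ`, so `T4f(v(δ)) ≥ n² + n²σ` for large `n`.
Now the phase `Z`, `β = Z - 1`: the part of `T4f(up Z v)` which depends on `Z` is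
`4 Re(conj Z T3) + 2 Re(conj Z² T2)`, so
`T4f(up Z v(δ)) = T4f(v(δ)) + [T4f(up Z v(0)) - n²] + 4 Re(conj β (T3(v(δ)) - T3(v(0))))
+ 2 Re((conj Z² - 1)(T2(v(δ)) - T2(v(0))))`. With the transform `W_b` of `v(0)` (`|W_b|² = n`; flat because
`T4f = n²`): `n(T4f(up Z v(0)) - n²) = ∑_b (2 Re(conj W_b β) + |β|²)² = 2|β|²n² + 2n Re(β² conj(1 + T2)) - n|β|⁴`
(`∑_b W_b = n`, `Re β = -|β|²/2`), so the bracket is at least `|β|² n` for large `n`. `RAP` for `r ↦ T3(v(rδ))` and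
`r ↦ T2(v(rδ))` (same `T`, `M = n^{11/10}`, `n^{3/5}`): the differences are at most `C n^{11/10+2τ} s` and
`C n^{3/5+2τ} s`. So the last two terms are at least `-C|β| n^{11/10+2τ} s ≥ -|β|² n/2 - C² n^{6/5+4τ} σ`, which is
compensated by `n²σ + |β|² n`. -/
def RAY_Stmt : Prop := ∀ (p : ℕ) [NeZero p], p.Prime → p ≠ 2 → ∀ C : ℝ, 0 < C → ∃ d0 : ℕ,
  ∀ d ≥ d0, ∀ H A : Finset (G p d), Half H → A ⊆ H → Ty (tau p) A → ∀ α : ZMod p, α ≠ 0 →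
  WU C H A α → ∀ δ : ZMod p → ℝ, EM δ → (∀ a, |δ a| ≤ rn C p d) → (∃ a, δ a ≠ 0) →
  ∀ Z : ℂ, ‖Z‖ = 1 → nn p d ^ 2 < (T4f (up Z (vd H A α δ))).re

/-! ### Part F: the window `α = 0` -/

/-- The second moment of `T1`, `α = 0`.

Hypotheses `COS`, `VAR`, `EXW` (formula (1); or directly `COS` (1)).

Proof. Pairs `x, x' ≠ 0`: `E[v_x conj v_x'] - m E[v_x] - m E[conj v_x'] + m²`, `m = e^{-σ/2}`. Independent `x, x'`:
`E[v_x conj v_x'] = ∏ cos((δ(x·h) - δ(x'·h))/2) = e^{-σ} + O(D² + nD⁴)`, `E v_x = e^{-σ/2} + O(D² + nD⁴)`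
(`∑_h δ(x·h)² = 4σ + O(D²)`). Dependent `x, x'`: at most `p n` pairs, bounded by `4`. (`nn` instead of
`nn - 1` terms `m`: one more.) -/
def ZT1_Stmt : Prop := ∀ (p : ℕ) [NeZero p], p.Prime → p ≠ 2 → ∃ C : ℝ, ∀ (d : ℕ)
  (H : Finset (G p d)), Half H → ∀ δ : ZMod p → ℝ, EM δ → ∀ D : ℝ, (∀ a, |δ a| ≤ D) →
  D ≤ 1 / 20 →
  ∑ A ∈ H.powerset, ‖T1 (vd H A 0 δ) -
      ((nn p d * Real.exp (-sig p d δ / 2) : ℝ) : ℂ)‖ ^ 2 ≤
    2 ^ H.card * (C * (nn p d + nn p d ^ 3 * D ^ 4 + nn p d ^ 2 * D ^ 2))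

/-- The second moment of `S4`, `α = 0`, large variance.

Hypotheses `COS`, `VAR`, `GRD` (`N = 2`, `B = ∅`), `CTD` (`N = 2`).

Proof. `E[V_Q conj V_Q'] = ∏ cos(D(h)/2)`, `D(h) = ∑_s ε_s δ(X_s·h)` (8 slots), at most
`exp(-∑_h D(h)²/8)`. Group the slots by lines, `D = ∑_ℓ D_ℓ`: the products of different lines sum to
`O(δ(0)²)` (`VAR`), a line with a single slot has `∑_h D_ℓ² = 4σ - δ(0)²/2`. So with `t` the number of the
lines with a single slot the mean is at most `C e^{-σt/2} ≤ C n^{-(38/100) t}`. The number of lines is at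
most `t + (8 - t)/2`, so by `GRD` `rk ≤ 3 + 3t/8`, and by `CTD` the number of pairs with given `t` is at most
`C n^{⌊3 + 3t/8⌋} ≤ C n^{3 + 3t/8}`. As `3/8 < 38/100` the sum is at most `C n³`. -/
def ZS4_Stmt : Prop := ∀ (p : ℕ) [NeZero p], p.Prime → p ≠ 2 → ∃ C : ℝ, ∀ (d : ℕ)
  (H : Finset (G p d)), Half H → ∀ δ : ZMod p → ℝ, EM δ → (∀ a, |δ a| ≤ 1 / 20) →
  76 / 100 * Real.log (nn p d) ≤ sig p d δ →
  ∑ A ∈ H.powerset, ‖S4 (vd H A 0 δ)‖ ^ 2 ≤ 2 ^ H.card * (C * nn p d ^ 3)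

/-- The uniform event, `α = 0`.

Hypotheses `ZT1`, `ZS4`, `INT`, `MUU`.

Proof. As for `WIN`, same grid and interpolation: except for a proportion `C n^{-1/5+1/100} (log n)^{p/2+2}` of
the typical `A` all nodes satisfy `|T1(z_ν) - n e^{-σ_ν/2}| ≤ n^{3/5}` (`ZT1` with `D = 3 rn C`), and those with
`σ_ν ≥ (76/100) log n` satisfy `|S4(z_ν)| ≤ n²/(8Λ)` (`ZS4`). For `σ ≤ (77/100) log n`:
`T1(δ) = n e^{-σ/2}(1 + O(n^{-8τ})) + O(Λ n^{3/5})`, `n e^{-σ/2} ≥ n^{0.615}`, so `|T1| ≥ 2√n` for large `n`. For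
`σ ≥ (77/100) log n` all its nodes have `σ_ν ≥ (76/100) log n`. -/
def ZWI_Stmt : Prop := ∀ (p : ℕ) [NeZero p], p.Prime → p ≠ 2 → ∀ C : ℝ, 0 < C → ∃ K : ℝ,
  ∀ (d : ℕ) (H : Finset (G p d)), Half H →
    (Set.ncard {A : Finset (G p d) | A ⊆ H ∧ Ty (tau p) A ∧ ¬ WZ C H A} : ℝ) *
      nn p d ^ (1 / 10 : ℝ) ≤ K * 2 ^ H.card

/-! ### Part G: conclusion -/

/-- The theorem for the subsets of `H`.

Hypotheses `FLW`, `DE1`, `DE2`, `WRE`, `TYA`, `BLK`, `WIN`, `ZWI`, `RAY`.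

Proof. `C` from `BLK`. Let `A` be typical, outside the exceptional sets of `BLK`, `ZWI` and `WIN` (all `α ≠ 0`),
`n` large, and suppose `w = wt (ft p t) A` is flat, `f = ft p t`. (a) `Far (rn C) f`: `|S4 w| ≤ n²/4`, by `DE2`
`T4f w ≥ 2n² - n²/4 - (p²+4)n - 4√(n(3n² + p²n + n²/4)) > n²`, but `T4f w = n²` (`DE1`). (b) Otherwise
`Rep f α κ δ` with `|δ a| < rn C` for all `a`; `w = κ' (up Z (vd H A α δ))` (`WRE`). `α ≠ 0`, `δ ≠ 0`: `RAY`.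
`α ≠ 0`, `δ = 0`: `Qd f α`, `FLW`. `α = 0`, `σ ≥ (77/100) log n`: `|S4| ≤ n²/4` as in (a). `α = 0`,
`σ ≤ (77/100) log n`: `|∑_x| = |Z + T1| ≥ 2√n - 1 > √n`, but flatness gives `|∑_x|² = n` (`DE1`). -/
def FIN_Stmt : Prop := ∀ (p : ℕ) [NeZero p], p.Prime → 5 ≤ p → ∃ K : ℝ, ∀ (d : ℕ)
  (H : Finset (G p d)), Half H →
    (Set.ncard {A : Finset (G p d) | A ⊆ H ∧ ∃ t : ℝ, FlatV (wt (ft p t) A)} : ℝ) *
      nn p d ^ (1 / 10 : ℝ) ≤ K * 2 ^ H.card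

end Pool.Agent.UAB
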